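import Pool.Agent.MP_f27d50_gt.BMEq2

set_option autoImplicit false

open MeasureTheory Set Filter Topology
open scoped ENNReal Pointwise

noncomputable section

namespace Pool.Agent.MP_f27d50_gt

namespace BMAux

theorem haarX : (volume : Measure X).IsAddHaarMeasure :=
  Measure.prod.instIsAddHaarMeasure (volume : Measure ℂ) (volume : Measure ℝ)

attribute [local instance] haarX

theorem CB.image {K : Set X} (h : CB K) (e : X ≃L[ℝ] X) : CB (e '' K) where
  cpt := h.cpt.image e.continuous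
  cvx := h.cvx.linear_image (e : X →ₗ[ℝ] X)
  ne := by
    have := e.toHomeomorph.image_interior K
    simp only [ContinuousLinearEquiv.coe_toHomeomorph] at this
    rw [← this]
    exact h.ne.image _

theorem CB.vol_pos {K : Set X} (h : CB K) : 0 < (volume K).toReal :=
  ENNReal.toReal_pos (Measure.measure_pos_of_nonempty_interior volume h.ne).ne'
    h.cpt.measure_lt_top.ne

theorem CB.int_image {K : Set X} (h : CB K) (e : X ≃L[ℝ] X) :
    ∫ w in e '' K, w.2 = |LinearMap.det (e : X →ₗ[ℝ] X)| * (e (∫ w in K, w)).2 := by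
  rw [integral_image_eq_integral_abs_det_fderiv_smul volume h.meas (f' := fun _ => (e : X →L[ℝ] X))
    (fun x _ => e.hasFDerivWithinAt) e.injective.injOn]
  simp only [smul_eq_mul]
  rw [integral_const_mul]
  have := ((ContinuousLinearMap.snd ℝ ℂ ℝ).comp (e : X →L[ℝ] X)).integral_comp_comm
    (μ := volume.restrict K) (φ := fun w => w) (continuousOn_id.integrableOn_compact h.cpt)
  exact congrArg₂ (· * ·) rfl this

/-- a functional that does not vanish on the vertical line is a coordinate -/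
theorem exists_equiv (φ : X →L[ℝ] ℝ) (h : φ (0, 1) ≠ 0) : ∃ e : X ≃L[ℝ] X, ∀ x, (e x).2 = φ x := by
  have hinj : Function.Injective ((LinearMap.fst ℝ ℂ ℝ).prod (φ : X →ₗ[ℝ] ℝ)) := by
    rw [injective_iff_map_eq_zero]
    rintro ⟨y, z⟩ hx
    rw [Prod.ext_iff] at hx
    have h1 : y = 0 := hx.1
    have h2 : φ (y, z) = 0 := hx.2
    have h3 : ((y, z) : X) = z • ((0, 1) : X) := by simp [h1]
    rw [h3, map_smul, smul_eq_mul, mul_eq_zero] at h2
    rw [h1, h2.resolve_right h]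
    rfl
  exact ⟨(LinearEquiv.ofInjectiveEndo _ hinj).toContinuousLinearEquiv, fun x => rfl⟩

theorem exists_sep {K : Set X} (h : CB K) {w : X} (hw : w ∉ K) :
    ∃ e : X ≃L[ℝ] X, ∀ x ∈ K, (e x).2 < (e w).2 := by
  obtain ⟨φ, u, h1, h2⟩ := geometric_hahn_banach_closed_point h.cvx h.cpt.isClosed hw
  by_cases h0 : φ (0, 1) = 0
  · obtain ⟨a, b, -, -, hab⟩ := h.ends
    obtain ⟨δ, hδ, hδ'⟩ : ∃ δ : ℝ, 0 < δ ∧ δ * (|b - w.2| + 1) = φ w - u :=
      ⟨(φ w - u) / (|b - w.2| + 1), div_pos (by linarith) (by positivity),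
        div_mul_cancel₀ _ (by positivity)⟩
    obtain ⟨e, he⟩ := exists_equiv (φ + δ • ContinuousLinearMap.snd ℝ ℂ ℝ) (by simp [h0, hδ.ne'])
    refine ⟨e, fun x hx => ?_⟩
    rw [he, he]
    simp only [ContinuousLinearMap.add_apply, ContinuousLinearMap.smul_apply,
      ContinuousLinearMap.coe_snd', smul_eq_mul]
    have h3 := h1 x hx
    have h4 : δ * (x.2 - w.2) ≤ δ * (|b - w.2| + 1) :=
      mul_le_mul_of_nonneg_left (by linarith [(hab x hx).2, le_abs_self (b - w.2)]) hδ.le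
    linarith
  · obtain ⟨e, he⟩ := exists_equiv φ h0
    exact ⟨e, fun x hx => by rw [he, he]; exact (h1 x hx).trans h2⟩

theorem sub_mem {K L M : Set X} (hK : CB K) (hL : CB L) (hM : CB M) (hv : volume K = volume L)
    (hm : volume M ≤ volume K) (H : ∀ x ∈ K, ∀ y ∈ L, (1 / 2 : ℝ) • x + (1 / 2 : ℝ) • y ∈ M) :
    ∀ y ∈ L, y - (volume K).toReal⁻¹ • ((∫ w in L, w) - ∫ w in K, w) ∈ K := by
  intro y hy
  by_contra hw
  obtain ⟨e, he⟩ := exists_sep hK hw
  have hvol := Measure.addHaar_image_continuousLinearEquiv (volume : Measure X) e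
  obtain ⟨_, ⟨x, hx, rfl⟩, h1⟩ := core (hK.image e) (hL.image e) (hM.image e)
    (by rw [hvol, hvol, hv]) (by rw [hvol, hvol]; exact mul_le_mul_right hm _) (by
      rintro _ ⟨x, hx, rfl⟩ _ ⟨y, hy, rfl⟩
      exact ⟨_, H x hx y hy, by simp only [map_add, map_smul]⟩) (e y) ⟨y, hy, rfl⟩
  have hD : 0 < |LinearMap.det (e : X →ₗ[ℝ] X)| :=
    abs_pos.2 (LinearEquiv.isUnit_det' e.toLinearEquiv).ne_zero
  rw [hK.int_image, hL.int_image, hvol, ENNReal.toReal_mul, ENNReal.toReal_ofReal hD.le] at h1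
  have h2 := he x hx
  simp only [map_sub, map_smul, Prod.snd_sub, Prod.smul_snd, smul_eq_mul] at h2
  have hV := hK.vol_pos
  have h3 := mul_lt_mul_of_pos_left h2 hV
  rw [mul_sub, ← mul_assoc, mul_inv_cancel₀ hV.ne', one_mul] at h3
  have h4 := mul_lt_mul_of_pos_left h3 hD
  linarith

theorem mid {K L : Set X} (hK : CB K) (hL : CB L) : CB ((1 / 2 : ℝ) • K + (1 / 2 : ℝ) • L) where
  cpt := (hK.cpt.smul _).add (hL.cpt.smul _)
  cvx := (hK.cvx.smul _).add (hL.cvx.smul _)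
  ne := by
    have ho : IsOpen ((1 / 2 : ℝ) • interior K + (1 / 2 : ℝ) • L) :=
      (isOpen_interior.smul₀ (by norm_num)).add_right
    refine Nonempty.mono (interior_maximal ?_ ho)
      (hK.ne.smul_set.add (hL.ne.mono interior_subset).smul_set)
    exact add_subset_add_right (smul_set_mono interior_subset)

theorem vol_mid {K L : Set X} (hK : CB K) (hL : CB L)
    (h : ∀ ε > 0, ∀ᶠ t : ℝ in 𝓝[>] 0,
      volume (K + t • L) ≤ volume K * ENNReal.ofReal (1 + 3 * t + ε * t)) :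
    volume ((1 / 2 : ℝ) • K + (1 / 2 : ℝ) • L) ≤ volume K := by
  have hM := mid hK hL
  have hV := hK.vol_pos
  have hW := hM.vol_pos
  rw [← ENNReal.toReal_le_toReal hM.cpt.measure_lt_top.ne hK.cpt.measure_lt_top.ne,
    ← Real.log_le_log_iff hW hV]
  by_contra hcon
  rw [not_le] at hcon
  obtain ⟨ε, hε, hε'⟩ : ∃ ε : ℝ, 0 < ε ∧ 2 * ε =
      Real.log (volume ((1 / 2 : ℝ) • K + (1 / 2 : ℝ) • L)).toReal - Real.log (volume K).toReal :=
    ⟨_, half_pos (sub_pos.2 hcon), by ring⟩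
  obtain ⟨t, ht, t0, t1⟩ := ((h ε hε).and (Ioo_mem_nhdsGT (zero_lt_one' ℝ))).exists
  have p1 : 0 < 1 + t := by linarith
  have hC : IsCompact ((1 + t)⁻¹ • (K + t • L)) := (hK.cpt.add (hL.cpt.smul _)).smul _
  have h1 := pl_X (α := (1 - t) / (1 + t)) (β := 2 * t / (1 + t))
    (div_pos (by linarith) p1) (div_pos (by linarith) p1) (by field_simp; ring)
    hK.meas hM.meas hC.measurableSet (by
      rintro x hx _ ⟨_, ⟨k, hk, rfl⟩, _, ⟨l, hl, rfl⟩, rfl⟩
      refine ⟨_, ⟨_, hK.cvx hx hk (a := 1 - t) (b := t) (by linarith) t0.le (by ring), _,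
        ⟨l, hl, rfl⟩, rfl⟩, ?_⟩
      simp only [smul_add, smul_smul]
      rw [add_assoc]
      congr 1
      · congr 1; field_simp
      · congr 1 <;> congr 1 <;> field_simp)
  have hfr : Module.finrank ℝ X = 3 := by simp
  rw [Measure.addHaar_smul, hfr] at h1
  have h2 := h1.trans (mul_le_mul_right ht _)
  have h3 := ENNReal.toReal_mono (ENNReal.mul_ne_top ENNReal.ofReal_ne_top
    (ENNReal.mul_ne_top hK.cpt.measure_lt_top.ne ENNReal.ofReal_ne_top)) h2
  have p2 : 0 ≤ ε * t := by positivity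
  rw [ENNReal.toReal_mul, ← ENNReal.toReal_rpow, ← ENNReal.toReal_rpow, ENNReal.toReal_mul,
    ENNReal.toReal_mul, ENNReal.toReal_ofReal (abs_nonneg _),
    ENNReal.toReal_ofReal (by linarith), abs_of_pos (by positivity)] at h3
  generalize (volume ((1 / 2 : ℝ) • K + (1 / 2 : ℝ) • L)).toReal = W at hW hε' h3 hcon
  generalize (volume K).toReal = V at hV hε' h3 hcon
  have h4 : (1 + t)⁻¹ ^ 3 * (V * (1 + 3 * t + ε * t)) ≤ V * (1 + ε * t) := by
    rw [inv_pow, inv_mul_le_iff₀ (by positivity), mul_left_comm]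
    refine mul_le_mul_of_nonneg_left ?_ hV.le
    have : 1 + 3 * t ≤ (1 + t) ^ 3 := by nlinarith [pow_pos t0 2, pow_pos t0 3]
    nlinarith [mul_pos t0 t0]
  have h5 := Real.log_le_log (by positivity) (h3.trans h4)
  rw [Real.log_mul (by positivity) (by positivity), Real.log_rpow hV, Real.log_rpow hW,
    Real.log_mul hV.ne' (by positivity)] at h5
  have h6 : Real.log (1 + ε * t) ≤ ε * t := by
    have := Real.log_le_sub_one_of_pos (show 0 < 1 + ε * t by positivity)
    linarith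
  have h7 : (1 - t) / (1 + t) * Real.log V + 2 * t / (1 + t) * Real.log W =
      Real.log V + 2 * t / (1 + t) * (2 * ε) := by
    rw [hε']; field_simp; ring
  have h8 : t ≤ 2 * t / (1 + t) := by
    rw [le_div_iff₀ p1]; nlinarith
  have h9 := mul_le_mul_of_nonneg_right h8 (show 0 ≤ 2 * ε by linarith)
  have h10 := mul_pos hε t0
  linarith

end BMAux

open BMAux in
theorem bm_eq {K L : Set X} (hK : Body K) (hL : Body L) (hv : volume K = volume L)
    (h : ∀ ε > 0, ∀ᶠ t : ℝ in 𝓝[>] 0,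
      volume (K + t • L) ≤ volume K * ENNReal.ofReal (1 + 3 * t + ε * t)) :
    ∃ z : X, L = (fun y => y + z) '' K := by
  have cK : CB K := ⟨hK.cpt, hK.cvx, ⟨0, hK.zero⟩⟩
  have cL : CB L := ⟨hL.cpt, hL.cvx, ⟨0, hL.zero⟩⟩
  have hm := vol_mid cK cL h
  have h1 := BMAux.sub_mem cK cL (mid cK cL) hv hm fun x hx y hy =>
    Set.add_mem_add (smul_mem_smul_set hx) (smul_mem_smul_set hy)
  have h2 := BMAux.sub_mem cL cK (mid cK cL) hv.symm (hv ▸ hm) fun x hx y hy => by
    rw [add_comm ((1 / 2 : ℝ) • x)]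
    exact Set.add_mem_add (smul_mem_smul_set hy) (smul_mem_smul_set hx)
  refine ⟨(volume K).toReal⁻¹ • ((∫ w in L, w) - ∫ w in K, w), ?_⟩
  ext y
  constructor
  · exact fun hy => ⟨_, h1 y hy, sub_add_cancel _ _⟩
  · rintro ⟨x, hx, rfl⟩
    have := h2 x hx
    rwa [← hv, ← neg_sub (∫ w in L, w), smul_neg, sub_neg_eq_add] at this

end Pool.Agent.MP_f27d50_gt
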