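import Mathlib

set_option autoImplicit false

open MeasureTheory Set Filter Topology

noncomputable section

namespace Pool.Agent.MP_f27d50_gt.BMAux

/-- a profile: a nonnegative function, continuous and positive on an open interval -/
structure Prof (f : ℝ → ℝ) (a b : ℝ) : Prop where
  lt : a < b
  meas : Measurable f
  int : ∀ s t, IntervalIntegrable f volume s t
  nonneg : ∀ x, 0 ≤ f x
  cont : ContinuousOn f (Ioo a b)
  pos : ∀ x ∈ Ioo a b, 0 < f x

/-- the primitive -/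
def prim (f : ℝ → ℝ) (a : ℝ) (t : ℝ) : ℝ := ∫ x in a..t, f x

variable {f : ℝ → ℝ} {a b : ℝ}

theorem Prof.deriv (h : Prof f a b) {x : ℝ} (hx : x ∈ Ioo a b) :
    HasStrictDerivAt (prim f a) (f x) x :=
  intervalIntegral.integral_hasStrictDerivAt_right (h.int a x)
    h.meas.stronglyMeasurable.stronglyMeasurableAtFilter
    (h.cont.continuousAt (isOpen_Ioo.mem_nhds hx))

theorem Prof.continuous (h : Prof f a b) : Continuous (prim f a) :=
  intervalIntegral.continuous_primitive h.int a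

theorem Prof.strictMono (h : Prof f a b) : StrictMonoOn (prim f a) (Icc a b) := by
  refine strictMonoOn_of_deriv_pos (convex_Icc a b) h.continuous.continuousOn fun x hx => ?_
  rw [interior_Icc] at hx
  rw [(h.deriv hx).hasDerivAt.deriv]
  exact h.pos x hx

theorem prim_self : prim f a a = 0 := by simp [prim]

theorem Prof.mem (h : Prof f a b) {x : ℝ} (hx : x ∈ Ioo a b) :
    prim f a x ∈ Ioo 0 (prim f a b) := by
  have h1 := h.strictMono (left_mem_Icc.2 h.lt.le) (Ioo_subset_Icc_self hx) hx.1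
  have h2 := h.strictMono (Ioo_subset_Icc_self hx) (right_mem_Icc.2 h.lt.le) hx.2
  rw [prim_self] at h1
  exact ⟨h1, h2⟩

/-- the quantile function -/
theorem Prof.quantile (h : Prof f a b) : ∃ q : ℝ → ℝ, (∀ x ∈ Ioo a b, q (prim f a x) = x) ∧
    ∀ s ∈ Ioo 0 (prim f a b), q s ∈ Ioo a b ∧ HasDerivAt q (f (q s))⁻¹ s := by
  have hinj : InjOn (prim f a) (Ioo a b) := h.strictMono.injOn.mono Ioo_subset_Icc_self
  have hleft := hinj.leftInvOn_invFunOn
  have hsurj : ∀ s ∈ Ioo 0 (prim f a b), ∃ x ∈ Ioo a b, prim f a x = s := fun s hs =>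
    intermediate_value_Ioo h.lt.le h.continuous.continuousOn (by rwa [prim_self])
  refine ⟨Function.invFunOn (prim f a) (Ioo a b), hleft, fun s hs => ?_⟩
  obtain ⟨x, hx, rfl⟩ := hsurj s hs
  have e := hleft hx
  refine ⟨by rw [e]; exact hx, ?_⟩
  refine HasDerivAt.of_local_left_inverse (f := prim f a) ?_ ?_ ?_ ?_
  · rw [ContinuousAt, e, ← (h.deriv hx).map_nhds_eq (h.pos x hx).ne', tendsto_map'_iff]
    refine tendsto_id.congr' ?_
    filter_upwards [isOpen_Ioo.mem_nhds hx] with y hy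
    exact (hleft hy).symm
  · rw [e]; exact (h.deriv hx).hasDerivAt
  · rw [e]; exact (h.pos x hx).ne'
  · filter_upwards [isOpen_Ioo.mem_nhds hs] with t ht
    exact Function.invFunOn_eq (hsurj t ht)

theorem amgm {u v w : ℝ} (hu : 0 < u) (hv : 0 < v) (hw : 0 < w) (h : u * v ≤ w ^ 2) :
    0 ≤ w * ((u⁻¹ + v⁻¹) / 2) - 1 ∧ (w * ((u⁻¹ + v⁻¹) / 2) - 1 = 0 → u = v) := by
  have e : w * ((u⁻¹ + v⁻¹) / 2) - 1 = (w * (u + v) - 2 * (u * v)) / (2 * (u * v)) := by
    field_simp
    ring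
  have huv := mul_pos hu hv
  have h1 : (2 * (u * v)) ^ 2 + u * v * (u - v) ^ 2 ≤ (w * (u + v)) ^ 2 := by
    have : (2 * (u * v)) ^ 2 + u * v * (u - v) ^ 2 = u * v * (u + v) ^ 2 := by ring
    rw [this, mul_pow]
    exact mul_le_mul_of_nonneg_right h (sq_nonneg _)
  rw [e]
  constructor
  · refine div_nonneg (sub_nonneg.2 ?_) (by positivity)
    refine (pow_le_pow_iff_left₀ (by positivity) (by positivity) two_ne_zero).1 ?_
    have := mul_nonneg huv.le (sq_nonneg (u - v))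
    linarith
  · intro h0
    rw [div_eq_zero_iff] at h0
    rcases h0 with h0 | h0
    · rw [sub_eq_zero.1 h0] at h1
      have h2 : u * v * (u - v) ^ 2 ≤ 0 := by linarith
      have h3 : (u - v) ^ 2 ≤ 0 := by
        by_contra hc
        exact absurd h2 (not_le.2 (mul_pos huv (not_le.1 hc)))
      have h4 : u - v = 0 := pow_eq_zero_iff two_ne_zero |>.1 (le_antisymm h3 (sq_nonneg _))
      linarith
    · linarith

/-- the equality case of the one dimensional inequality -/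
theorem one_dim {f g h : ℝ → ℝ} {a b a' b' a'' b'' : ℝ} (hf : Prof f a b) (hg : Prof g a' b')
    (hh : Prof h a'' b'') (hV : prim g a' b' = prim f a b) (hW : prim h a'' b'' ≤ prim f a b)
    (H : ∀ x ∈ Ioo a b, ∀ y ∈ Ioo a' b', (x + y) / 2 ∈ Ioo a'' b'' ∧
      f x * g y ≤ h ((x + y) / 2) ^ 2) :
    ∃ c, a' = a + c ∧ b' = b + c ∧ ∀ x ∈ Ioo a b, g (x + c) = f x := by
  obtain ⟨q, hq1, hq2⟩ := hf.quantile
  obtain ⟨r, hr1, hr2⟩ := hg.quantile
  rw [hV] at hr2
  obtain ⟨V, hVe⟩ : ∃ V, V = prim f a b := ⟨_, rfl⟩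
  rw [← hVe] at hV hW hq2 hr2
  obtain ⟨Φ, hΦ⟩ : ∃ Φ : ℝ → ℝ, Φ = fun s => prim h a'' ((q s + r s) / 2) - s := ⟨_, rfl⟩
  have hd : ∀ s ∈ Ioo 0 V, HasDerivAt Φ
      (h ((q s + r s) / 2) * (((f (q s))⁻¹ + (g (r s))⁻¹) / 2) - 1) s := by
    intro s hs
    have h1 := ((hq2 s hs).2.add (hr2 s hs).2).div_const 2
    have h2 := (hh.deriv (H _ (hq2 s hs).1 _ (hr2 s hs).1).1).hasDerivAt
    rw [hΦ]
    exact (HasDerivAt.comp (h₂ := prim h a'') s h2 h1).sub (hasDerivAt_id s)
  have ham : ∀ s ∈ Ioo 0 V, _ := fun s hs =>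
    amgm (hf.pos _ (hq2 s hs).1) (hg.pos _ (hr2 s hs).1)
      (hh.pos _ (H _ (hq2 s hs).1 _ (hr2 s hs).1).1) (H _ (hq2 s hs).1 _ (hr2 s hs).1).2
  have hmono : MonotoneOn Φ (Ioo 0 V) := by
    refine monotoneOn_of_deriv_nonneg (convex_Ioo 0 V)
      (fun s hs => (hd s hs).continuousAt.continuousWithinAt) ?_ ?_
    · rw [interior_Ioo]
      exact fun s hs => (hd s hs).differentiableAt.differentiableWithinAt
    · rw [interior_Ioo]
      intro s hs
      rw [(hd s hs).deriv]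
      exact (ham s hs).1
  have hbd : ∀ s ∈ Ioo 0 V, -s ≤ Φ s ∧ Φ s ≤ V - s := by
    intro s hs
    have := hh.mem (H _ (hq2 s hs).1 _ (hr2 s hs).1).1
    rw [hΦ]
    constructor
    · linarith [this.1]
    · linarith [this.2]
  have hzero : ∀ s ∈ Ioo 0 V, Φ s = 0 := by
    intro s hs
    apply le_antisymm
    · refine le_of_forall_pos_le_add fun ε hε => ?_
      have hm : max s (V - ε) ∈ Ioo 0 V :=
        ⟨lt_of_lt_of_le hs.1 (le_max_left _ _), max_lt hs.2 (by linarith)⟩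
      have h1 := hmono hs hm (le_max_left _ _)
      have h2 := (hbd _ hm).2
      have h3 := le_max_right s (V - ε)
      linarith
    · refine le_of_forall_pos_le_add fun ε hε => ?_
      have hm : min s ε ∈ Ioo 0 V :=
        ⟨lt_min hs.1 hε, lt_of_le_of_lt (min_le_left _ _) hs.2⟩
      have h1 := hmono hm hs (min_le_left _ _)
      have h2 := (hbd _ hm).1
      have h3 := min_le_right s ε
      linarith
  have heq : ∀ s ∈ Ioo 0 V, f (q s) = g (r s) := by
    intro s hs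
    refine (ham s hs).2 ((hd s hs).unique ?_)
    refine (hasDerivAt_const s (0 : ℝ)).congr_of_eventuallyEq ?_
    filter_upwards [isOpen_Ioo.mem_nhds hs] with t ht
    exact hzero t ht
  have hd2 : ∀ s ∈ Ioo 0 V, HasDerivAt (fun s => r s - q s) 0 s := by
    intro s hs
    have := (hr2 s hs).2.sub (hq2 s hs).2
    rwa [← heq s hs, sub_self] at this
  obtain ⟨c, hc⟩ := isOpen_Ioo.exists_is_const_of_deriv_eq_zero (isPreconnected_Ioo (a := 0) (b := V))
    (fun s hs => (hd2 s hs).differentiableAt.differentiableWithinAt)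
    (fun s hs => (hd2 s hs).deriv)
  have k1 : ∀ x ∈ Ioo a b, x + c ∈ Ioo a' b' ∧ g (x + c) = f x := by
    intro x hx
    have hs := hf.mem hx
    rw [← hVe] at hs
    have e1 := hc _ hs
    have e2 := heq _ hs
    have e3 := (hr2 _ hs).1
    rw [hq1 x hx] at e1 e2
    have e4 : r (prim f a x) = x + c := by linarith
    rw [e4] at e2 e3
    exact ⟨e3, e2.symm⟩
  have k2 : ∀ y ∈ Ioo a' b', y - c ∈ Ioo a b := by
    intro y hy
    have hs := hg.mem hy
    rw [hV] at hs
    have e1 := hc _ hs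
    have e3 := (hq2 _ hs).1
    rw [hr1 y hy] at e1
    have e4 : q (prim g a' y) = y - c := by linarith
    rwa [e4] at e3
  have s1 : Ioo (a + c) (b + c) ⊆ Ioo a' b' := fun y hy => by
    have := (k1 (y - c) ⟨by linarith [hy.1], by linarith [hy.2]⟩).1
    rwa [sub_add_cancel] at this
  have s2 : Ioo a' b' ⊆ Ioo (a + c) (b + c) := fun y hy => by
    have := k2 y hy
    exact ⟨by linarith [this.1], by linarith [this.2]⟩
  rw [Ioo_subset_Ioo_iff (by linarith [hf.lt])] at s1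
  rw [Ioo_subset_Ioo_iff hg.lt] at s2
  exact ⟨c, le_antisymm s1.1 s2.1, le_antisymm s2.2 s1.2, fun x hx => (k1 x hx).2⟩

end Pool.Agent.MP_f27d50_gt.BMAux
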