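import Pool.Agent.MP_f27d50_gt.Defs
import Pool.Agent.MP_f27d50_gt.BMEq1
import Pool.Agent.MP_5f4cdd_gt.PL

set_option autoImplicit false

open MeasureTheory Set Filter Topology
open scoped ENNReal Pointwise

noncomputable section

namespace Pool.Agent.MP_f27d50_gt.BMAux

open Pool.Agent.MP_5f4cdd_gt

theorem ind_le {E : Type*} {α β : ℝ} (hα : 0 < α) (hβ : 0 < β) {A B C : Set E} {x y z : E}
    (H : x ∈ A → y ∈ B → z ∈ C) :
    A.indicator (1 : E → ℝ≥0∞) x ^ α * B.indicator (1 : E → ℝ≥0∞) y ^ β ≤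
      C.indicator (1 : E → ℝ≥0∞) z := by
  by_cases hx : x ∈ A
  · by_cases hy : y ∈ B
    · simp [hx, hy, H hx hy]
    · simp [hy, ENNReal.zero_rpow_of_pos hβ]
  · simp [hx, ENNReal.zero_rpow_of_pos hα]

/-- the multiplicative Brunn-Minkowski inequality in the plane -/
theorem pl_C {α β : ℝ} (hα : 0 < α) (hβ : 0 < β) (hαβ : α + β = 1) {A B C : Set ℂ}
    (hA : MeasurableSet A) (hB : MeasurableSet B) (hC : MeasurableSet C)
    (H : ∀ x ∈ A, ∀ y ∈ B, α • x + β • y ∈ C) :
    volume A ^ α * volume B ^ β ≤ volume C := by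
  have hp := Complex.volume_preserving_equiv_pi.symm
  have e : ∀ {S : Set ℂ}, MeasurableSet S → volume S =
      ∫⁻ x : Fin 2 → ℝ, S.indicator 1 (Complex.measurableEquivPi.symm x) := fun {S} hS => by
    rw [hp.lintegral_comp (measurable_one.indicator hS), lintegral_indicator_one hS]
  have m : ∀ {S : Set ℂ}, MeasurableSet S → Measurable fun x : Fin 2 → ℝ =>
      S.indicator (1 : ℂ → ℝ≥0∞) (Complex.measurableEquivPi.symm x) := fun {S} hS =>
    (measurable_one.indicator hS).comp Complex.measurableEquivPi.symm.measurable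
  rw [e hA, e hB, e hC]
  refine PL.pl hα hβ hαβ 2 (m hA) (m hB) (m hC) fun x y => ind_le hα hβ fun hx hy => ?_
  have := H _ hx _ hy
  convert this using 1
  simp only [Complex.measurableEquivPi_symm_apply, Pi.add_apply, Pi.smul_apply, smul_eq_mul,
    Complex.real_smul]
  push_cast
  ring

/-- horizontal sections -/
def sec (K : Set X) (z : ℝ) : Set ℂ := (fun y => (y, z)) ⁻¹' K

theorem meas_sec {K : Set X} (hK : MeasurableSet K) (z : ℝ) : MeasurableSet (sec K z) :=
  measurable_prodMk_right hK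

theorem vol_eq {K : Set X} (hK : MeasurableSet K) : volume K = ∫⁻ z, volume (sec K z) := by
  rw [Measure.volume_eq_prod, Measure.prod_apply_symm hK]
  rfl

theorem sec_pl {α β : ℝ} (hα : 0 < α) (hβ : 0 < β) (hαβ : α + β = 1) {A B C : Set X}
    (hA : MeasurableSet A) (hB : MeasurableSet B) (hC : MeasurableSet C)
    (H : ∀ x ∈ A, ∀ y ∈ B, α • x + β • y ∈ C) (s t : ℝ) :
    volume (sec A s) ^ α * volume (sec B t) ^ β ≤ volume (sec C (α * s + β * t)) :=
  pl_C hα hβ hαβ (meas_sec hA s) (meas_sec hB t) (meas_sec hC _) fun _ hx _ hy => H _ hx _ hy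

/-- the multiplicative Brunn-Minkowski inequality in space -/
theorem pl_X {α β : ℝ} (hα : 0 < α) (hβ : 0 < β) (hαβ : α + β = 1) {A B C : Set X}
    (hA : MeasurableSet A) (hB : MeasurableSet B) (hC : MeasurableSet C)
    (H : ∀ x ∈ A, ∀ y ∈ B, α • x + β • y ∈ C) :
    volume A ^ α * volume B ^ β ≤ volume C := by
  rw [vol_eq hA, vol_eq hB, vol_eq hC]
  exact PL.pl1 hα hβ hαβ (measurable_measure_prodMk_right hA) (measurable_measure_prodMk_right hB)
    (measurable_measure_prodMk_right hC) (sec_pl hα hβ hαβ hA hB hC H)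

/-- convex bodies -/
structure CB (K : Set X) : Prop where
  cpt : IsCompact K
  cvx : Convex ℝ K
  ne : (interior K).Nonempty

theorem CB.meas {K : Set X} (h : CB K) : MeasurableSet K := h.cpt.measurableSet

/-- the area of a section -/
def ar (K : Set X) (z : ℝ) : ℝ := (volume (sec K z)).toReal

theorem sec_le (K : Set X) (z : ℝ) : volume (sec K z) ≤ volume (Prod.fst '' K) :=
  measure_mono fun y hy => ⟨(y, z), hy, rfl⟩

theorem CB.proj_ne {K : Set X} (h : CB K) : volume (Prod.fst '' K) ≠ ∞ :=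
  (h.cpt.image continuous_fst).measure_lt_top.ne

theorem CB.sec_ne {K : Set X} (h : CB K) (z : ℝ) : volume (sec K z) ≠ ∞ :=
  ne_top_of_le_ne_top h.proj_ne (sec_le K z)

theorem ar_pl {α β : ℝ} (hα : 0 < α) (hβ : 0 < β) (hαβ : α + β = 1) {A B C : Set X}
    (hA : CB A) (hB : CB B) (hC : CB C) (H : ∀ x ∈ A, ∀ y ∈ B, α • x + β • y ∈ C) (s t : ℝ) :
    ar A s ^ α * ar B t ^ β ≤ ar C (α * s + β * t) := by
  have := ENNReal.toReal_mono (hC.sec_ne _) (sec_pl hα hβ hαβ hA.meas hB.meas hC.meas H s t)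
  rwa [ENNReal.toReal_mul, ← ENNReal.toReal_rpow, ← ENNReal.toReal_rpow] at this

theorem CB.ends {K : Set X} (h : CB K) : ∃ a b : ℝ, (∃ x ∈ K, x.2 = a) ∧ (∃ x ∈ K, x.2 = b) ∧
    ∀ x ∈ K, a ≤ x.2 ∧ x.2 ≤ b := by
  have hne : K.Nonempty := h.ne.mono interior_subset
  obtain ⟨x, hx, hmin⟩ := h.cpt.exists_isMinOn hne continuous_snd.continuousOn
  obtain ⟨y, hy, hmax⟩ := h.cpt.exists_isMaxOn hne continuous_snd.continuousOn
  exact ⟨x.2, y.2, ⟨x, hx, rfl⟩, ⟨y, hy, rfl⟩, fun z hz => ⟨hmin hz, hmax hz⟩⟩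

theorem CB.ar_pos {K : Set X} (h : CB K) {a b : ℝ} (ha : ∃ x ∈ K, x.2 = a)
    (hb : ∃ x ∈ K, x.2 = b) {z : ℝ} (hz : z ∈ Ioo a b) : 0 < ar K z := by
  obtain ⟨o, ho⟩ := h.ne
  have key : ∀ x ∈ K, ∀ t : ℝ, 0 ≤ t → t < 1 → z = (1 - t) * o.2 + t * x.2 →
      ∃ y, (y, z) ∈ interior K := fun x hx t h0 h1 e =>
    ⟨((1 - t) • o + t • x).1, by
      rw [e]
      exact h.cvx.combo_interior_self_mem_interior ho hx (by linarith) h0 (by ring)⟩
  obtain ⟨y, hy⟩ : ∃ y, (y, z) ∈ interior K := by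
    rcases le_total o.2 z with hle | hle
    · obtain ⟨x, hx, rfl⟩ := hb
      have h1 : 0 < x.2 - o.2 := by linarith [hz.2]
      refine key x hx ((z - o.2) / (x.2 - o.2)) (div_nonneg (by linarith) h1.le)
        ((div_lt_one h1).2 (by linarith [hz.2])) ?_
      field_simp
      ring
    · obtain ⟨x, hx, rfl⟩ := ha
      have h1 : 0 < o.2 - x.2 := by linarith [hz.1]
      refine key x hx ((o.2 - z) / (o.2 - x.2)) (div_nonneg (by linarith) h1.le)
        ((div_lt_one h1).2 (by linarith [hz.1])) ?_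
      field_simp
      ring
  refine ENNReal.toReal_pos (ne_of_gt ?_) (h.sec_ne z)
  have ho : IsOpen (sec (interior K) z) := isOpen_interior.preimage (by fun_prop)
  exact lt_of_lt_of_le (ho.measure_pos volume ⟨y, hy⟩) 
    (measure_mono (preimage_mono interior_subset))

theorem CB.ar_meas {K : Set X} (h : CB K) : Measurable (ar K) :=
  (measurable_measure_prodMk_right h.meas).ennreal_toReal

theorem CB.prof {K : Set X} (h : CB K) {a b : ℝ} (ha : ∃ x ∈ K, x.2 = a)
    (hb : ∃ x ∈ K, x.2 = b) (hab : ∀ x ∈ K, a ≤ x.2 ∧ x.2 ≤ b) : Prof (ar K) a b where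
  lt := by
    obtain ⟨o, ho⟩ := h.ne
    obtain ⟨ε, hε, hb⟩ := Metric.mem_nhds_iff.1 (mem_interior_iff_mem_nhds.1 ho)
    have h1 : (o.1, o.2 + ε / 2) ∈ K := hb (by
      rw [Metric.mem_ball, Prod.dist_eq, dist_self, Real.dist_eq, add_sub_cancel_left,
        abs_of_pos (half_pos hε)]
      exact max_lt hε (half_lt_self hε))
    have h2 := (hab _ h1).2
    have h3 := (hab _ (interior_subset ho)).1
    simp only at h2
    linarith
  meas := h.ar_meas
  int := fun s t => by
    refine (intervalIntegrable_const (c := (volume (Prod.fst '' K)).toReal)).mono_fun'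
      h.ar_meas.aestronglyMeasurable (ae_of_all _ fun z => ?_)
    simp only [ar, Real.norm_eq_abs, abs_of_nonneg ENNReal.toReal_nonneg]
    exact ENNReal.toReal_mono h.proj_ne (sec_le K z)
  nonneg := fun _ => ENNReal.toReal_nonneg
  cont := by
    have hc : ConcaveOn ℝ (Ioo a b) fun z => Real.log (ar K z) := by
      refine concaveOn_iff_forall_pos.2 ⟨convex_Ioo a b, fun s hs t ht α β hα hβ hαβ => ?_⟩
      have h1 := ar_pl hα hβ hαβ h h h (fun x hx y hy => h.cvx hx hy hα.le hβ.le hαβ) s t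
      have p1 := h.ar_pos ha hb hs
      have p2 := h.ar_pos ha hb ht
      have h2 := Real.log_le_log (by positivity) h1
      rwa [Real.log_mul (by positivity) (by positivity), Real.log_rpow p1, Real.log_rpow p2] at h2
    refine (hc.continuousOn isOpen_Ioo).rexp.congr fun z hz => ?_
    simp only [Real.exp_log (h.ar_pos ha hb hz)]
  pos := fun z hz => h.ar_pos ha hb hz

theorem CB.fubini {K : Set X} (h : CB K) {a b : ℝ} (hlt : a < b)
    (hab : ∀ x ∈ K, a ≤ x.2 ∧ x.2 ≤ b) {ψ : ℝ → ℝ} (hψ : Continuous ψ) :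
    ∫ x in K, ψ x.2 = ∫ z in a..b, ψ z * ar K z := by
  have hi : IntegrableOn (fun x : X => ψ x.2) K :=
    (hψ.comp continuous_snd).continuousOn.integrableOn_compact h.cpt
  rw [← integral_indicator h.meas, Measure.volume_eq_prod,
    integral_prod_symm _ ((integrable_indicator_iff h.meas).2 hi),
    intervalIntegral.integral_of_le hlt.le, ← integral_Icc_eq_integral_Ioc,
    ← integral_indicator measurableSet_Icc]
  refine integral_congr_ae (ae_of_all _ fun z => ?_)
  have e : (fun y : ℂ => K.indicator (fun x : X => ψ x.2) (y, z)) =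
      (sec K z).indicator fun _ => ψ z := by
    ext y
    by_cases hy : (y, z) ∈ K
    · rw [indicator_of_mem hy, indicator_of_mem (show y ∈ sec K z from hy)]
    · rw [indicator_of_notMem hy, indicator_of_notMem (show y ∉ sec K z from hy)]
  simp only
  rw [e, integral_indicator_const _ (meas_sec h.meas z), smul_eq_mul, mul_comm]
  by_cases hz : z ∈ Icc a b
  · rw [indicator_of_mem hz]; rfl
  · have : sec K z = ∅ := eq_empty_of_forall_notMem fun y hy => hz (hab _ hy)
    rw [indicator_of_notMem hz, this]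
    simp

theorem CB.vol_prim {K : Set X} (h : CB K) {a b : ℝ} (hlt : a < b)
    (hab : ∀ x ∈ K, a ≤ x.2 ∧ x.2 ≤ b) : prim (ar K) a b = (volume K).toReal := by
  have := h.fubini hlt hab (ψ := fun _ => 1) continuous_const
  simp only [one_mul, integral_const, smul_eq_mul, mul_one] at this
  rw [prim, ← this]
  simp [Measure.real]

/-- the comparison of the highest points -/
theorem core {K L M : Set X} (hK : CB K) (hL : CB L) (hM : CB M) (hv : volume K = volume L)
    (hm : volume M ≤ volume K) (H : ∀ x ∈ K, ∀ y ∈ L, (1 / 2 : ℝ) • x + (1 / 2 : ℝ) • y ∈ M) :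
    ∀ y ∈ L, ∃ x ∈ K, (volume K).toReal * y.2 - ∫ w in L, w.2 ≤
      (volume K).toReal * x.2 - ∫ w in K, w.2 := by
  obtain ⟨a, b, ha, hb, hab⟩ := hK.ends
  obtain ⟨a', b', ha', hb', hab'⟩ := hL.ends
  obtain ⟨a'', b'', ha'', hb'', hab''⟩ := hM.ends
  have pK := hK.prof ha hb hab
  have pL := hL.prof ha' hb' hab'
  have pM := hM.prof ha'' hb'' hab''
  have vK := hK.vol_prim pK.lt hab
  have vL := hL.vol_prim pL.lt hab'
  have vM := hM.vol_prim pM.lt hab''
  obtain ⟨c, e1, e2, hc⟩ := one_dim pK pL pM (by rw [vK, vL, hv])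
    (by rw [vK, vM]; exact ENNReal.toReal_mono hK.cpt.measure_lt_top.ne hm) (by
      intro x hx y hy
      constructor
      · obtain ⟨p, hp, rfl⟩ := ha
        obtain ⟨q, hq, rfl⟩ := hb
        obtain ⟨p', hp', rfl⟩ := ha'
        obtain ⟨q', hq', rfl⟩ := hb'
        have h1 := (hab'' _ (H p hp p' hp')).1
        have h2 := (hab'' _ (H q hq q' hq')).2
        simp only [Prod.snd_add, Prod.smul_snd, smul_eq_mul] at h1 h2
        exact ⟨by linarith [hx.1, hy.1], by linarith [hx.2, hy.2]⟩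
      · have h1 := ar_pl (by norm_num) (by norm_num) (by norm_num) hK hL hM H x y
        have e : (x + y) / 2 = 1 / 2 * x + 1 / 2 * y := by ring
        rw [e]
        refine le_trans (le_of_eq ?_) (pow_le_pow_left₀ (mul_nonneg
          (Real.rpow_nonneg (pK.nonneg x) _) (Real.rpow_nonneg (pL.nonneg y) _)) h1 2)
        rw [← Real.sqrt_eq_rpow, ← Real.sqrt_eq_rpow, mul_pow, Real.sq_sqrt (pK.nonneg x),
          Real.sq_sqrt (pL.nonneg y)])
  have i1 := hK.fubini pK.lt hab continuous_id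
  have i2 := hL.fubini pL.lt hab' continuous_id
  simp only [id] at i1 i2
  have i3 : ∫ z in a'..b', z * ar L z = (∫ z in a..b, z * ar K z) + c * (volume K).toReal := by
    rw [e1, e2, ← intervalIntegral.integral_comp_add_right (fun z => z * ar L z) c, ← vK, prim,
      ← intervalIntegral.integral_const_mul, ← intervalIntegral.integral_add
        ((pK.int a b).continuousOn_mul (continuousOn_id' _)) ((pK.int a b).const_mul c),
      intervalIntegral.integral_of_le pK.lt.le, intervalIntegral.integral_of_le pK.lt.le,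
      integral_Ioc_eq_integral_Ioo, integral_Ioc_eq_integral_Ioo]
    refine setIntegral_congr_fun measurableSet_Ioo fun z hz => ?_
    simp only [hc z hz]
    ring
  intro y hy
  obtain ⟨x, hx, hxb⟩ := hb
  refine ⟨x, hx, ?_⟩
  have h1 := mul_le_mul_of_nonneg_left (hab' y hy).2 (ENNReal.toReal_nonneg (a := volume K))
  rw [i1, i2, i3, hxb]
  rw [e2] at h1
  linarith

end Pool.Agent.MP_f27d50_gt.BMAux
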