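import Pool.Agent.MP_f27d50_gt.Defs

set_option autoImplicit false

open MeasureTheory Set Filter Topology Complex
open scoped ENNReal Pointwise ComplexConjugate

noncomputable section

namespace Pool.Agent.MP_f27d50_gt.CapL

/-- right derivative -/
def rd (ψ : ℝ → ℝ) (ρ : ℝ) : ℝ := derivWithin ψ (Ioi ρ) ρ

structure Ray (ψ : ℝ → ℝ) (S : Set ℝ) (b C : ℝ) (r : ℝ → ℝ) : Prop where
  cvx : ConvexOn ℝ S ψ
  op : IsOpen S
  sub : Icc 0 b ⊆ S
  b0 : 0 ≤ b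
  bC : b ≤ C
  C0 : 0 < C
  meas : Measurable ψ
  z : ψ 0 ≤ 1 / 2
  rm : Measurable r
  r0 : ∀ σ, 0 ≤ r σ
  rb : ∀ σ, r σ ≤ b
  r1 : ∀ σ, ∀ ρ ∈ Ioo 0 b, ρ < r σ → rd ψ ρ < σ
  r2 : ∀ σ, ∀ ρ ∈ Ioo 0 b, rd ψ ρ < σ → ρ ≤ r σ

variable {ψ : ℝ → ℝ} {S : Set ℝ} {b C : ℝ} {r : ℝ → ℝ}

lemma Ray.int (h : Ray ψ S b C r) {x : ℝ} (hx : x ∈ Icc 0 b) : x ∈ interior S := by
  rw [h.op.interior_eq]; exact h.sub hx

lemma Ray.rd_bdd (h : Ray ψ S b C r) : ∃ D : ℝ, ∀ x ∈ Icc 0 b, |rd ψ x| ≤ D := by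
  refine ⟨max |rd ψ 0| |rd ψ b|, fun x hx => ?_⟩
  have h1 := h.cvx.monotoneOn_rightDeriv (h.int ⟨le_rfl, h.b0⟩) (h.int hx) hx.1
  have h2 := h.cvx.monotoneOn_rightDeriv (h.int hx) (h.int ⟨h.b0, le_rfl⟩) hx.2
  exact abs_le_max_abs_abs h1 h2

lemma Ray.cont (h : Ray ψ S b C r) : ContinuousOn ψ (Icc 0 b) :=
  (h.cvx.continuousOn h.op).mono h.sub

lemma Ray.hd (h : Ray ψ S b C r) {x : ℝ} (hx : x ∈ Icc 0 b) :
    HasDerivWithinAt ψ (rd ψ x) (Ioi x) x :=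
  h.cvx.hasDerivWithinAt_rightDeriv_of_mem_interior (h.int hx)

lemma Ray.rd_ge (h : Ray ψ S b C r) {x : ℝ} (hx : x ∈ Ioo 0 b) (h1 : 1 < ψ x) :
    1 / (2 * C) ≤ rd ψ x := by
  have hx' : x ∈ Icc 0 b := Ioo_subset_Icc_self hx
  have h2 := h.cvx.slope_le_leftDeriv_of_mem_interior (h.sub ⟨le_rfl, h.b0⟩) (h.int hx') hx.1
  have h3 := h.cvx.leftDeriv_le_rightDeriv_of_mem_interior (h.int hx')
  refine le_trans ?_ (h2.trans h3)
  rw [slope_def_field, sub_zero, div_le_div_iff₀ (by linarith [h.C0]) hx.1]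
  have := h.z
  have : x ≤ C := hx.2.le.trans h.bC
  nlinarith [h.C0]

lemma int_inv_sq {c : ℝ} (hc : 0 < c) : ∫ σ in Ioi c, (σ ^ 2)⁻¹ = c⁻¹ := by
  have h := integral_Ioi_rpow_of_lt (a := -2) (by norm_num) hc
  have e : ∫ σ in Ioi c, (σ ^ 2)⁻¹ = ∫ t : ℝ in Ioi c, t ^ (-2 : ℝ) := by
    apply setIntegral_congr_fun measurableSet_Ioi
    intro t ht
    have : 0 < t := hc.trans ht
    simp only
    rw [Real.rpow_neg this.le]; norm_cast
  rw [e, h]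
  norm_num [Real.rpow_neg_one]

lemma integrable_inv_sq {c : ℝ} (hc : 0 < c) : IntegrableOn (fun σ : ℝ => (σ ^ 2)⁻¹) (Ioi c) := by
  refine (integrableOn_Ioi_rpow_of_lt (a := -2) (by norm_num) hc).congr_fun ?_ measurableSet_Ioi
  intro t ht
  have : 0 < t := hc.trans ht
  simp only
  rw [Real.rpow_neg this.le]; norm_cast

lemma Ray.fub (h : Ray ψ S b C r) {k : ℝ → ℂ} (hk : Continuous k) {K₀ : ℝ} (hK : ∀ t, ‖k t‖ ≤ K₀)
    (hk0 : ∀ t ≤ 1, k t = 0) {a : ℝ → ℝ} (ha : Continuous a) {t : ℝ} (t0 : 0 ≤ t) (tb : t ≤ b) :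
    (IntegrableOn (fun σ : ℝ => (((σ ^ 2)⁻¹ : ℝ) : ℂ) *
      ∫ ρ in (0 : ℝ)..min t (r σ), k (ψ ρ) * rd ψ ρ * a ρ) (Ioi (1 / (2 * C)))) ∧
    ∫ ρ in (0 : ℝ)..t, k (ψ ρ) * a ρ =
      ∫ σ in Ioi (1 / (2 * C)), (((σ ^ 2)⁻¹ : ℝ) : ℂ) *
        ∫ ρ in (0 : ℝ)..min t (r σ), k (ψ ρ) * rd ψ ρ * a ρ := by
  have σ0 : 0 < 1 / (2 * C) := by have := h.C0; positivity
  obtain ⟨D, hD⟩ := h.rd_bdd
  obtain ⟨A, hA⟩ := isCompact_Icc.exists_bound_of_continuousOn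
    (ha.continuousOn (s := Icc 0 b))
  have hrd : Measurable (rd ψ) := measurable_derivWithin_Ioi ψ
  have hψ := h.meas
  set F : ℝ → ℝ → ℂ := fun ρ σ =>
    if rd ψ ρ < σ then (((σ ^ 2)⁻¹ : ℝ) : ℂ) * (k (ψ ρ) * rd ψ ρ * a ρ) else 0 with hF
  have hFm : Measurable (Function.uncurry F) := by
    refine Measurable.ite (measurableSet_lt (hrd.comp measurable_fst) measurable_snd) ?_
      measurable_const
    have := hk.measurable
    have := ha.measurable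
    fun_prop
  have hFi : Integrable (Function.uncurry F)
      ((volume.restrict (Ioo 0 t)).prod (volume.restrict (Ioi (1 / (2 * C))))) := by
    have hb : Integrable (fun p : ℝ × ℝ => (K₀ * D * A) * (p.2 ^ 2)⁻¹)
        ((volume.restrict (Ioo 0 t)).prod (volume.restrict (Ioi (1 / (2 * C))))) :=
      Integrable.mul_prod (f := fun _ : ℝ => K₀ * D * A) (integrable_const _)
        (integrable_inv_sq σ0)
    refine hb.mono' hFm.aestronglyMeasurable ?_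
    rw [Measure.prod_restrict]
    refine ae_restrict_of_forall_mem (measurableSet_Ioo.prod measurableSet_Ioi) ?_
    rintro ⟨ρ, σ⟩ ⟨hρ, -⟩
    have hρ' : ρ ∈ Icc 0 b := ⟨hρ.1.le, hρ.2.le.trans tb⟩
    have h1 := hK (ψ ρ)
    have h2 := hD ρ hρ'
    have h3 := hA ρ hρ'
    have hb0 : 0 ≤ K₀ * D * A :=
      mul_nonneg (mul_nonneg ((norm_nonneg _).trans h1) ((abs_nonneg _).trans h2))
        ((norm_nonneg _).trans h3)
    simp only [Function.uncurry, hF]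
    split_ifs
    · rw [norm_mul, norm_mul, norm_mul, mul_comm]
      simp only [norm_real, Real.norm_eq_abs]
      rw [abs_of_nonneg (by positivity : 0 ≤ (σ ^ 2)⁻¹)]
      gcongr
      · exact mul_nonneg ((norm_nonneg _).trans h1) ((abs_nonneg _).trans h2)
      · exact (norm_nonneg _).trans h1
      · exact h3
    · simp only [norm_zero]; positivity
  have hin : ∀ σ, ∫ ρ in Ioo 0 t, F ρ σ = (((σ ^ 2)⁻¹ : ℝ) : ℂ) *
      ∫ ρ in (0 : ℝ)..min t (r σ), k (ψ ρ) * rd ψ ρ * a ρ := by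
    intro σ
    rw [intervalIntegral.integral_of_le (le_min t0 (h.r0 σ)), ← integral_const_mul,
      integral_Ioc_eq_integral_Ioo, ← integral_indicator measurableSet_Ioo,
      ← integral_indicator measurableSet_Ioo]
    apply integral_congr_ae
    filter_upwards [(countable_singleton (r σ)).ae_notMem volume] with ρ hρ
    have hρ' : ρ ≠ r σ := hρ
    by_cases h1 : ρ ∈ Ioo 0 t
    · have h1' : ρ ∈ Ioo 0 b := ⟨h1.1, h1.2.trans_le tb⟩
      rw [indicator_of_mem h1]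
      by_cases h2 : ρ < r σ
      · rw [indicator_of_mem (show ρ ∈ Ioo 0 (min t (r σ)) from ⟨h1.1, lt_min h1.2 h2⟩)]
        simp only [hF, if_pos (h.r1 σ ρ h1' h2)]
      · rw [indicator_of_notMem (fun h3 => h2 (h3.2.trans_le (min_le_right _ _)))]
        simp only [hF]
        rw [if_neg]
        exact fun h3 => h2 (lt_of_le_of_ne (h.r2 σ ρ h1' h3) hρ')
    · rw [indicator_of_notMem h1, indicator_of_notMem
        (fun h3 => h1 ⟨h3.1, h3.2.trans_le (min_le_left _ _)⟩)]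
  constructor
  · have := hFi.integral_prod_right
    simp only [Function.uncurry] at this
    simp only [hin] at this
    exact this
  · have hsw := integral_integral_swap hFi
    simp only [hin] at hsw
    rw [← hsw, intervalIntegral.integral_of_le t0, integral_Ioc_eq_integral_Ioo]
    apply setIntegral_congr_fun measurableSet_Ioo
    intro ρ hρ
    have hρ' : ρ ∈ Ioo 0 b := ⟨hρ.1, hρ.2.trans_le tb⟩
    simp only [hF]
    by_cases h1 : ψ ρ ≤ 1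
    · simp [hk0 _ h1]
    · have h2 := h.rd_ge hρ' (not_le.1 h1)
      have h3 : 0 < rd ψ ρ := σ0.trans_le h2
      have e : (fun σ : ℝ => if rd ψ ρ < σ then
          (((σ ^ 2)⁻¹ : ℝ) : ℂ) * (k (ψ ρ) * rd ψ ρ * a ρ) else 0) =
          indicator (Ioi (rd ψ ρ))
            (fun σ : ℝ => (((σ ^ 2)⁻¹ : ℝ) : ℂ) * (k (ψ ρ) * rd ψ ρ * a ρ)) := by
        ext σ; simp [indicator]
      rw [e, setIntegral_indicator measurableSet_Ioi, Ioi_inter_Ioi, sup_eq_right.2 h2,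
        integral_mul_const, integral_complex_ofReal, int_inv_sq h3]
      have : (rd ψ ρ : ℂ) ≠ 0 := by exact_mod_cast h3.ne'
      push_cast
      field_simp

lemma Ray.ii (h : Ray ψ S b C r) {k : ℝ → ℂ} (hk : Continuous k) {a : ℝ → ℝ} (ha : Continuous a)
    {t : ℝ} (t0 : 0 ≤ t) (tb : t ≤ b) :
    IntervalIntegrable (fun ρ => k (ψ ρ) * rd ψ ρ * a ρ) volume 0 t := by
  obtain ⟨D, hD⟩ := h.rd_bdd
  have hc : ContinuousOn (fun ρ => k (ψ ρ) * a ρ) (Icc 0 t) :=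
    (hk.comp_continuousOn (h.cont.mono (Icc_subset_Icc_right tb))).mul
      (continuous_ofReal.comp ha).continuousOn
  have hi : IntegrableOn (fun ρ => k (ψ ρ) * a ρ) (Icc 0 t) := hc.integrableOn_Icc
  rw [intervalIntegrable_iff_integrableOn_Icc_of_le t0]
  have hrd : Measurable (rd ψ) := measurable_derivWithin_Ioi ψ
  have := hi.bdd_mul (f := fun ρ => (rd ψ ρ : ℂ)) (c := D)
    (measurable_ofReal.comp hrd).aestronglyMeasurable
    (ae_restrict_of_forall_mem measurableSet_Icc fun x hx => by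
      simpa using hD x ⟨hx.1, hx.2.trans tb⟩)
  refine this.congr (Eventually.of_forall fun ρ => ?_)
  simp only; ring

lemma Ray.ftc1 (h : Ray ψ S b C r) {k H : ℝ → ℂ} (hk : Continuous k)
    (hH : ∀ t, HasDerivAt H (k t) t) (hH0 : ∀ t ≤ 1, H t = 0) {t : ℝ} (t0 : 0 ≤ t) (tb : t ≤ b) :
    ∫ ρ in (0 : ℝ)..t, k (ψ ρ) * rd ψ ρ * ((1 : ℝ) : ℂ) = H (ψ t) := by
  have hHc : Continuous H := continuous_iff_continuousAt.2 fun t => (hH t).continuousAt
  rw [intervalIntegral.integral_eq_sub_of_hasDeriv_right_of_le t0 (f := fun ρ => H (ψ ρ))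
    (hHc.comp_continuousOn (h.cont.mono (Icc_subset_Icc_right tb))) ?_
    (h.ii hk (a := fun _ => 1) continuous_const t0 tb), hH0 (ψ 0) (by linarith [h.z]), sub_zero]
  intro x hx
  have := (hH (ψ x)).scomp_hasDerivWithinAt x (h.hd ⟨hx.1.le, hx.2.le.trans tb⟩)
  refine HasDerivWithinAt.congr_deriv this ?_
  simp [mul_comm]

lemma Ray.ftc2 (h : Ray ψ S b C r) {k H : ℝ → ℂ} (hk : Continuous k)
    (hH : ∀ t, HasDerivAt H (k t) t) {t : ℝ} (t0 : 0 ≤ t) (tb : t ≤ b) :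
    ∫ ρ in (0 : ℝ)..t, k (ψ ρ) * rd ψ ρ * (ρ : ℂ) =
      t * H (ψ t) - ∫ ρ in (0 : ℝ)..t, H (ψ ρ) := by
  have hHc : Continuous H := continuous_iff_continuousAt.2 fun t => (hH t).continuousAt
  have hc := hHc.comp_continuousOn (h.cont.mono (Icc_subset_Icc_right tb))
  have hi : IntervalIntegrable (fun ρ => H (ψ ρ)) volume 0 t :=
    (hc.mono (by rw [uIcc_of_le t0])).intervalIntegrable
  have h1 := intervalIntegral.integral_eq_sub_of_hasDeriv_right_of_le t0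
    (f := fun ρ : ℝ => (ρ : ℂ) * H (ψ ρ))
    (f' := fun ρ => k (ψ ρ) * rd ψ ρ * (ρ : ℂ) + H (ψ ρ))
    (continuous_ofReal.continuousOn.mul hc) ?_
    ((h.ii hk (a := fun ρ => ρ) continuous_id t0 tb).add hi)
  · rw [intervalIntegral.integral_add (h.ii hk (a := fun ρ => ρ) continuous_id t0 tb) hi] at h1
    simp only [ofReal_zero, zero_mul, sub_zero] at h1
    rw [← h1]; ring
  · intro x hx
    have h2 := (hH (ψ x)).scomp_hasDerivWithinAt x (h.hd ⟨hx.1.le, hx.2.le.trans tb⟩)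
    have h3 : HasDerivWithinAt (fun ρ : ℝ => (ρ : ℂ)) 1 (Ioi x) x :=
      (ofRealCLM.hasDerivAt (x := x)).hasDerivWithinAt
    refine HasDerivWithinAt.congr_deriv (h3.mul h2) ?_
    simp; ring

lemma norm_int_le {c : ℝ} (hc : 0 < c) {g : ℝ → ℂ} {B : ℝ} (hg : ∀ σ, ‖g σ‖ ≤ B) :
    ‖∫ σ in Ioi c, (((σ ^ 2)⁻¹ : ℝ) : ℂ) * g σ‖ ≤ B / c := by
  refine (norm_integral_le_of_norm_le ((integrable_inv_sq hc).mul_const B)
    (Eventually.of_forall fun σ => ?_)).trans (le_of_eq ?_)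
  · rw [norm_mul, norm_real, Real.norm_eq_abs, abs_of_nonneg (by positivity)]
    gcongr; exact hg σ
  · rw [integral_mul_const, int_inv_sq hc]; field_simp

/-- the ray lemma -/
lemma Ray.main (h : Ray ψ S b C r) {k H : ℝ → ℂ} (hk : Continuous k) {K₀ A B : ℝ}
    (hK : ∀ t, ‖k t‖ ≤ K₀) (hk0 : ∀ t ≤ 1, k t = 0) (hH : ∀ t, HasDerivAt H (k t) t)
    (hH0 : ∀ t ≤ 1, H t = 0) (hA : ∀ t, ‖H t‖ ≤ A) {τ : ℂ} (hB : ∀ t, ‖τ * H t - I * k t‖ ≤ B) :
    ‖τ * (∫ ρ in (0 : ℝ)..b, k (ψ ρ) * ρ) -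
      I * ∫ σ in Ioi (1 / (2 * C)), (((σ ^ 2)⁻¹ : ℝ) : ℂ) * (r σ * k (ψ (r σ)))‖ ≤
      2 * C * (2 * C * B + 2 * C * A) := by
  have C0 := h.C0
  have σ0 : 0 < 1 / (2 * C) := by positivity
  have B0 : 0 ≤ B := (norm_nonneg _).trans (hB 0)
  have hHc : Continuous H := continuous_iff_continuousAt.2 fun t => (hH t).continuousAt
  have h1 : ∀ t, 0 ≤ t → t ≤ b → ‖∫ ρ in (0 : ℝ)..t, k (ψ ρ)‖ ≤ 2 * C * A := by
    intro t t0 tb
    have := (h.fub hk hK hk0 (a := fun _ => 1) continuous_const t0 tb).2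
    simp only [ofReal_one, mul_one] at this
    rw [this]
    refine (norm_int_le σ0 (B := A) fun σ => ?_).trans (le_of_eq (by field_simp))
    have h2 := h.ftc1 hk hH hH0 (le_min t0 (h.r0 σ)) ((min_le_left t (r σ)).trans tb)
    simp only [ofReal_one, mul_one] at h2
    rw [h2]; exact hA _
  obtain ⟨hi, he⟩ := h.fub hk hK hk0 (a := fun ρ => ρ) continuous_id h.b0 le_rfl
  have hmin : ∀ σ, min b (r σ) = r σ := fun σ => min_eq_right (h.rb σ)
  simp only [hmin] at hi he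
  have hi2 : IntegrableOn (fun σ : ℝ => (((σ ^ 2)⁻¹ : ℝ) : ℂ) * (r σ * k (ψ (r σ))))
      (Ioi (1 / (2 * C))) := by
    have := (integrable_inv_sq σ0).ofReal (𝕜 := ℂ)
    refine this.mul_bdd (c := C * K₀) ?_ (Eventually.of_forall fun σ => ?_)
    · have := h.rm
      have := h.meas
      have := hk.measurable
      exact Measurable.aestronglyMeasurable (by fun_prop)
    · rw [norm_mul, norm_real, Real.norm_eq_abs, abs_of_nonneg (h.r0 σ)]
      gcongr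
      · exact (h.rb σ).trans h.bC
      · exact hK _
  rw [he, ← integral_const_mul, ← integral_const_mul,
    ← integral_sub (hi.const_mul _) (hi2.const_mul _)]
  have e : ∀ σ : ℝ, τ * ((((σ ^ 2)⁻¹ : ℝ) : ℂ) * ∫ ρ in (0 : ℝ)..r σ, k (ψ ρ) * rd ψ ρ * ρ) -
      I * ((((σ ^ 2)⁻¹ : ℝ) : ℂ) * (r σ * k (ψ (r σ)))) = (((σ ^ 2)⁻¹ : ℝ) : ℂ) *
      (r σ * (τ * H (ψ (r σ)) - I * k (ψ (r σ))) - (∫ ρ in (0 : ℝ)..r σ,
        (τ * H (ψ ρ) - I * k (ψ ρ))) - I * ∫ ρ in (0 : ℝ)..r σ, k (ψ ρ)) := by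
    intro σ
    have hc := h.cont.mono (Icc_subset_Icc_right (h.rb σ))
    have i1 : IntervalIntegrable (fun ρ => H (ψ ρ)) volume 0 (r σ) :=
      ((hHc.comp_continuousOn hc).mono (by rw [uIcc_of_le (h.r0 σ)])).intervalIntegrable
    have i2 : IntervalIntegrable (fun ρ => k (ψ ρ)) volume 0 (r σ) :=
      ((hk.comp_continuousOn hc).mono (by rw [uIcc_of_le (h.r0 σ)])).intervalIntegrable
    rw [h.ftc2 hk hH (h.r0 σ) (h.rb σ), intervalIntegral.integral_sub (i1.const_mul _)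
      (i2.const_mul _), intervalIntegral.integral_const_mul, intervalIntegral.integral_const_mul]
    ring
  simp only [e]
  refine (norm_int_le σ0 (B := 2 * C * B + 2 * C * A) fun σ => ?_).trans (le_of_eq (by field_simp))
  have rC : r σ ≤ C := (h.rb σ).trans h.bC
  have n1 : ‖(r σ : ℂ) * (τ * H (ψ (r σ)) - I * k (ψ (r σ)))‖ ≤ C * B := by
    rw [norm_mul, norm_real, Real.norm_eq_abs, abs_of_nonneg (h.r0 σ)]
    gcongr; exact hB _
  have n2 : ‖∫ ρ in (0 : ℝ)..r σ, (τ * H (ψ ρ) - I * k (ψ ρ))‖ ≤ C * B := by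
    refine (intervalIntegral.norm_integral_le_of_norm_le_const (C := B) fun x _ => hB _).trans ?_
    rw [sub_zero, abs_of_nonneg (h.r0 σ), mul_comm]
    gcongr
  have n3 : ‖I * ∫ ρ in (0 : ℝ)..r σ, k (ψ ρ)‖ ≤ 2 * C * A := by
    rw [norm_mul, norm_I, one_mul]; exact h1 _ (h.r0 σ) (h.rb σ)
  refine (norm_sub_le _ _).trans ?_
  have := norm_sub_le ((r σ : ℂ) * (τ * H (ψ (r σ)) - I * k (ψ (r σ))))
    (∫ ρ in (0 : ℝ)..r σ, (τ * H (ψ ρ) - I * k (ψ ρ)))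
  linarith

end Pool.Agent.MP_f27d50_gt.CapL
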