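import Pool.Agent.MP_f27d50_gt.Defs

set_option autoImplicit false

open MeasureTheory Set Filter Topology Complex
open scoped ENNReal Pointwise ComplexConjugate

noncomputable section

namespace Pool.Agent.MP_f27d50_gt.CapL

def chi (t : ℝ) : ℝ := Real.smoothTransition (2 - t)
def eta (t : ℝ) : ℝ := chi (t / 2) - chi t

lemma chi_one {t : ℝ} (h : t ≤ 1) : chi t = 1 := Real.smoothTransition.one_of_one_le (by linarith)
lemma chi_zero {t : ℝ} (h : 2 ≤ t) : chi t = 0 := Real.smoothTransition.zero_of_nonpos (by linarith)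
lemma chi_nonneg (t : ℝ) : 0 ≤ chi t := Real.smoothTransition.nonneg _
lemma chi_le (t : ℝ) : chi t ≤ 1 := Real.smoothTransition.le_one _
lemma chi_cd : ContDiff ℝ 2 chi := by
  unfold chi
  exact (Real.smoothTransition.contDiff (n := 2)).comp (by fun_prop)
lemma chi_cont : Continuous chi := chi_cd.continuous
lemma eta_cd : ContDiff ℝ 2 eta := by
  unfold eta
  exact (chi_cd.comp (by fun_prop)).sub chi_cd
lemma eta_cont : Continuous eta := eta_cd.continuous
lemma eta_lo {t : ℝ} (h : t ≤ 1) : eta t = 0 := by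
  unfold eta; rw [chi_one h, chi_one (by linarith)]; simp
lemma eta_hi {t : ℝ} (h : 4 ≤ t) : eta t = 0 := by
  unfold eta; rw [chi_zero (by linarith), chi_zero (by linarith)]; simp
lemma abs_eta_le (t : ℝ) : |eta t| ≤ 1 := by
  unfold eta
  have := chi_nonneg t; have := chi_le t; have := chi_nonneg (t / 2); have := chi_le (t / 2)
  rw [abs_le]; constructor <;> linarith

lemma deriv_van {f : ℝ → ℝ} (hc : Continuous (deriv f)) (h1 : ∀ t ≤ 1, f t = 0)
    (h2 : ∀ t, 4 ≤ t → f t = 0) : (∀ t ≤ 1, deriv f t = 0) ∧ ∀ t, 4 ≤ t → deriv f t = 0 := by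
  have hcl : IsClosed {t | deriv f t = 0} := isClosed_eq hc continuous_const
  constructor
  · intro t ht
    have : Iio (1 : ℝ) ⊆ {t | deriv f t = 0} := by
      intro s hs
      have : f =ᶠ[𝓝 s] fun _ => 0 := by
        filter_upwards [Iio_mem_nhds hs] with x hx using h1 x (le_of_lt hx)
      simp [this.deriv_eq]
    have h3 := hcl.closure_subset_iff.2 this
    rw [closure_Iio] at h3
    exact h3 ht
  · intro t ht
    have : Ioi (4 : ℝ) ⊆ {t | deriv f t = 0} := by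
      intro s hs
      have : f =ᶠ[𝓝 s] fun _ => 0 := by
        filter_upwards [Ioi_mem_nhds hs] with x hx using h2 x (le_of_lt hx)
      simp [this.deriv_eq]
    have h3 := hcl.closure_subset_iff.2 this
    rw [closure_Ioi] at h3
    exact h3 ht

/-- oscillatory kernel -/
def kk (f : ℝ → ℝ) (τ : ℂ) (t : ℝ) : ℂ := Complex.exp (-(I * τ * t)) * f t

lemma kk_cont {f : ℝ → ℝ} (hf : Continuous f) (τ : ℂ) : Continuous (kk f τ) := by
  unfold kk; fun_prop

lemma kk_deriv {f : ℝ → ℝ} (hf : Differentiable ℝ f) (τ : ℂ) (t : ℝ) :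
    HasDerivAt (kk f τ) (-(I * τ) * kk f τ t + kk (deriv f) τ t) t := by
  have h1 : HasDerivAt (fun t : ℝ => -(I * τ * t)) (-(I * τ)) t := by
    refine HasDerivAt.congr_deriv (((ofRealCLM.hasDerivAt (x := t)).const_mul (I * τ)).neg) ?_
    simp
  have h2 : HasDerivAt (fun t : ℝ => (f t : ℂ)) (deriv f t : ℝ) t := (hf t).hasDerivAt.ofReal_comp
  refine HasDerivAt.congr_deriv (h1.cexp.mul h2) ?_
  unfold kk; ring

lemma norm_kk_le {f : ℝ → ℝ} (hc : Continuous f) (h1 : ∀ t ≤ 1, f t = 0)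
    (h2 : ∀ t, 4 ≤ t → f t = 0) (Y : ℝ) :
    ∃ c : ℝ, 0 ≤ c ∧ ∀ τ : ℂ, |τ.im| ≤ Y → ∀ t, ‖kk f τ t‖ ≤ c := by
  obtain ⟨N, hN⟩ := isCompact_Icc.exists_bound_of_continuousOn (hc.continuousOn (s := Icc 1 4))
  have N0 : 0 ≤ N := (norm_nonneg _).trans (hN 1 (by simp))
  refine ⟨Real.exp (4 * Y) * N, by positivity, fun τ hτ t => ?_⟩
  by_cases ht : t ∈ Icc (1 : ℝ) 4
  · unfold kk
    rw [norm_mul, norm_exp, norm_real]
    gcongr
    · simp
      have := le_abs_self τ.im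
      have := abs_nonneg τ.im
      nlinarith [ht.1, ht.2]
    · exact hN t ht
  · have : f t = 0 := by
      rcases not_and_or.1 ht with h | h
      · exact h1 t (not_le.1 h).le
      · exact h2 t (not_le.1 h).le
    simp [kk, this]; positivity

lemma exists_H (Y : ℝ) : ∃ c : ℝ, 0 ≤ c ∧ ∀ τ : ℂ, |τ.im| ≤ Y → 1 ≤ ‖τ‖ →
    (∀ t, ‖kk eta τ t‖ ≤ c) ∧ ∃ H : ℝ → ℂ,
    (∀ t, HasDerivAt H (kk eta τ t) t) ∧ (∀ t ≤ 1, H t = 0) ∧ (∀ t, ‖H t‖ ≤ c / ‖τ‖) ∧
      ∀ t, ‖τ * H t - I * kk eta τ t‖ ≤ c / ‖τ‖ := by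
  have d1 : ContDiff ℝ 1 (deriv eta) := eta_cd.deriv'
  have d0 : Differentiable ℝ eta := eta_cd.differentiable (by norm_num)
  have d1' : Differentiable ℝ (deriv eta) := d1.differentiable (by norm_num)
  have c2 : Continuous (deriv (deriv eta)) := d1.continuous_deriv le_rfl
  obtain ⟨v1, v2⟩ := deriv_van d1.continuous (fun t => eta_lo) (fun t => eta_hi)
  obtain ⟨w1, w2⟩ := deriv_van c2 v1 v2
  obtain ⟨a₀, a0, ha₀⟩ := norm_kk_le eta_cont (fun t => eta_lo) (fun t => eta_hi) Y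
  obtain ⟨a₁, a1, ha₁⟩ := norm_kk_le d1.continuous v1 v2 Y
  obtain ⟨a₂, a2, ha₂⟩ := norm_kk_le c2 w1 w2 Y
  refine ⟨a₀ + a₁ + 3 * a₂, by positivity, fun τ hτ hτ1 => ⟨fun t => ?_, ?_⟩⟩
  · linarith [ha₀ τ hτ t]
  have τ0 : τ ≠ 0 := by rintro rfl; norm_num at hτ1
  have τp : 0 < ‖τ‖ := by linarith
  set G : ℝ → ℂ := fun t => ∫ s in (1 : ℝ)..t, kk (deriv (deriv eta)) τ s with hG
  have kc := kk_cont c2 τ
  have G0 : ∀ t ≤ 1, G t = 0 := by
    intro t ht
    simp only [hG]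
    rw [intervalIntegral.integral_congr (g := fun _ => 0), intervalIntegral.integral_zero]
    intro s hs
    rw [uIcc_of_ge ht] at hs
    simp [kk, w1 s hs.2]
  have Gb : ∀ t, ‖G t‖ ≤ 3 * a₂ := by
    have h14 : ∀ t, 1 ≤ t → t ≤ 4 → ‖G t‖ ≤ 3 * a₂ := by
      intro t t1 t4
      refine (intervalIntegral.norm_integral_le_of_norm_le_const (C := a₂)
        fun x _ => ha₂ τ hτ x).trans ?_
      rw [abs_of_nonneg (by linarith)]; nlinarith
    intro t
    rcases le_total t 1 with h | h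
    · rw [G0 t h]; simp; positivity
    rcases le_total t 4 with h' | h'
    · exact h14 t h h'
    · have : G t = G 4 := by
        simp only [hG]
        rw [← intervalIntegral.integral_add_adjacent_intervals (b := 4)
          (kc.intervalIntegrable _ _) (kc.intervalIntegrable _ _),
          intervalIntegral.integral_congr (a := 4) (g := fun _ => 0)]
        · simp
        · intro s hs
          rw [uIcc_of_le h'] at hs
          simp [kk, w2 s hs.1]
      rw [this]; exact h14 4 (by norm_num) le_rfl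
  have key : ∀ t, ‖I * (I / τ) * (G t - kk (deriv eta) τ t)‖ ≤ (a₁ + 3 * a₂) / ‖τ‖ := by
    intro t
    rw [norm_mul, norm_mul, norm_div, norm_I, one_mul, one_div, inv_mul_eq_div]
    gcongr
    linarith [norm_sub_le (G t) (kk (deriv eta) τ t), Gb t, ha₁ τ hτ t]
  refine ⟨fun t => I / τ * kk eta τ t + (I / τ) ^ 2 * (G t - kk (deriv eta) τ t), fun t => ?_,
    fun t ht => ?_, fun t => ?_, fun t => ?_⟩
  · have hGd : HasDerivAt G (kk (deriv (deriv eta)) τ t) t :=
      intervalIntegral.integral_hasDerivAt_right (kc.intervalIntegrable _ _)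
        (kc.stronglyMeasurableAtFilter _ _) kc.continuousAt
    refine HasDerivAt.congr_deriv (((kk_deriv d0 τ t).const_mul (I / τ)).add
      ((hGd.sub (kk_deriv d1' τ t)).const_mul ((I / τ) ^ 2))) ?_
    field_simp
    have : I ^ 2 = -1 := I_sq
    linear_combination (-(τ ^ 2 * kk eta τ t) + τ * I * kk (deriv eta) τ t) * this
  · simp [G0 t ht, kk, eta_lo ht, v1 t ht]
  · have e : I / τ * kk eta τ t + (I / τ) ^ 2 * (G t - kk (deriv eta) τ t) =
        τ⁻¹ * (I * kk eta τ t + I * (I / τ) * (G t - kk (deriv eta) τ t)) := by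
      field_simp
    simp only
    rw [e, norm_mul, norm_inv, inv_mul_eq_div]
    gcongr
    refine (norm_add_le _ _).trans ?_
    have h1 := key t
    have h2 : (a₁ + 3 * a₂) / ‖τ‖ ≤ a₁ + 3 * a₂ := div_le_self (by positivity) hτ1
    rw [norm_mul I, norm_I, one_mul]
    linarith [ha₀ τ hτ t]
  · have e : τ * (I / τ * kk eta τ t + (I / τ) ^ 2 * (G t - kk (deriv eta) τ t)) -
        I * kk eta τ t = I * (I / τ) * (G t - kk (deriv eta) τ t) := by
      field_simp; ring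
    rw [e]
    refine (key t).trans ?_
    gcongr; linarith

/-- Gaussian average of an oscillatory integral -/
lemma gauss_avg {Z : Type*} [MeasurableSpace Z] (ν : Measure Z) [SFinite ν] {a : Z → ℂ}
    (ha : Integrable a ν) {ψ : Z → ℝ} (hψ : Measurable ψ) {R : ℝ} (hR : 0 < R) :
    ∫⁻ x : ℝ, ENNReal.ofReal (Real.exp (-(1 / R ^ 2) * x ^ 2) *
        ‖∫ z, a z * Complex.exp (-(I * x * ψ z)) ∂ν‖ ^ 2) ≤
      ENNReal.ofReal (2 * R) * ∫⁻ q : Z × Z, ENNReal.ofReal (‖a q.1‖ * ‖a q.2‖ *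
        Real.exp (-(R ^ 2 / 4) * (ψ q.1 - ψ q.2) ^ 2)) ∂ν.prod ν := by
  have hb : 0 < 1 / R ^ 2 := by positivity
  set F : ℝ → Z × Z → ℂ := fun x q => (a q.1 * conj (a q.2)) *
    (Complex.exp (I * ((ψ q.2 - ψ q.1 : ℝ) : ℂ) * x) *
      Complex.exp (-((1 / R ^ 2 : ℝ) : ℂ) * x ^ 2)) with hF
  have hg : Integrable (fun x : ℝ => Real.exp (-(1 / R ^ 2) * x ^ 2)) :=
    integrable_exp_neg_mul_sq hb
  have ha' : Integrable (fun z => conj (a z)) ν := by
    have := (Complex.conjCLE.toContinuousLinearMap).integrable_comp ha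
    simpa using this
  have haa : Integrable (fun q : Z × Z => a q.1 * conj (a q.2)) (ν.prod ν) := ha.mul_prod ha'
  have hFn : ∀ x q, ‖F x q‖ = Real.exp (-(1 / R ^ 2) * x ^ 2) * ‖a q.1 * conj (a q.2)‖ := by
    intro x q
    simp only [hF]
    rw [norm_mul, norm_mul (Complex.exp _), mul_comm]
    congr 1
    rw [norm_exp, norm_exp]
    have e1 : (I * ((ψ q.2 - ψ q.1 : ℝ) : ℂ) * x).re = 0 := by simp
    have e2 : (-((1 / R ^ 2 : ℝ) : ℂ) * x ^ 2).re = -(1 / R ^ 2) * x ^ 2 := by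
      rw [← ofReal_pow, ← ofReal_neg, ← ofReal_mul, ofReal_re]
    rw [e1, e2]; simp
  have hFi : Integrable (Function.uncurry F) (volume.prod (ν.prod ν)) := by
    refine (hg.mul_prod haa.norm).mono' ?_ (Eventually.of_forall fun p => (hFn p.1 p.2).le)
    refine (haa.aestronglyMeasurable.comp_snd).mul (Measurable.aestronglyMeasurable ?_)
    fun_prop
  have h1 : ∀ x : ℝ, ∫ q, F x q ∂ν.prod ν = ((Real.exp (-(1 / R ^ 2) * x ^ 2) *
        ‖∫ z, a z * Complex.exp (-(I * x * ψ z)) ∂ν‖ ^ 2 : ℝ) : ℂ) := by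
    intro x
    rw [ofReal_mul, ofReal_pow, ← mul_conj', ← integral_conj, ← integral_prod_mul,
      ← integral_const_mul]
    congr 1; ext q
    simp only [hF, map_mul, ← exp_conj, map_neg, conj_I, conj_ofReal, ofReal_exp]
    have : Complex.exp (I * ((ψ q.2 - ψ q.1 : ℝ) : ℂ) * x) =
        Complex.exp (-(I * x * ψ q.1)) * Complex.exp (-(-I * x * ψ q.2)) := by
      rw [← Complex.exp_add]; congr 1; push_cast; ring
    rw [this]; push_cast; ring
  have h2 : ∀ q : Z × Z, ‖∫ x, F x q‖ ≤ 2 * R * (‖a q.1‖ * ‖a q.2‖ *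
        Real.exp (-(R ^ 2 / 4) * (ψ q.1 - ψ q.2) ^ 2)) := by
    intro q
    simp only [hF]
    rw [integral_const_mul, fourierIntegral_gaussian (by rw [ofReal_re]; exact hb), norm_mul, norm_mul,
      norm_mul, norm_conj, norm_exp]
    have e1 : ‖((Real.pi : ℂ) / ((1 / R ^ 2 : ℝ) : ℂ)) ^ (1 / 2 : ℂ)‖ ≤ 2 * R := by
      rw [← ofReal_div, norm_cpow_eq_rpow_re_of_pos (by positivity)]
      have : (1 / 2 : ℂ).re = 1 / 2 := by norm_num
      rw [this, ← Real.sqrt_eq_rpow, Real.sqrt_le_iff]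
      refine ⟨by positivity, ?_⟩
      rw [div_div_eq_mul_div, div_one]
      nlinarith [Real.pi_le_four, sq_nonneg R]
    have e2 : (-((ψ q.2 - ψ q.1 : ℝ) : ℂ) ^ 2 / (4 * ((1 / R ^ 2 : ℝ) : ℂ))).re =
        -(R ^ 2 / 4) * (ψ q.1 - ψ q.2) ^ 2 := by
      rw [← ofReal_pow, ← ofReal_neg, ← ofReal_ofNat, ← ofReal_mul, ← ofReal_div, ofReal_re]
      field_simp; ring
    rw [e2]
    calc _ ≤ ‖a q.1‖ * ‖a q.2‖ * (2 * R * Real.exp (-(R ^ 2 / 4) * (ψ q.1 - ψ q.2) ^ 2)) := by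
          gcongr
      _ = _ := by ring
  have hi1 : Integrable (fun x : ℝ => Real.exp (-(1 / R ^ 2) * x ^ 2) *
        ‖∫ z, a z * Complex.exp (-(I * x * ψ z)) ∂ν‖ ^ 2) := by
    have := hFi.integral_prod_left
    simp only [Function.uncurry, h1] at this
    exact this.re.congr (Eventually.of_forall fun x => ofReal_re _)
  rw [← ofReal_integral_eq_lintegral_ofReal hi1 (Eventually.of_forall fun x => by positivity)]
  have hsw := integral_integral_swap hFi
  simp only [h1] at hsw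
  rw [integral_complex_ofReal] at hsw
  calc _ ≤ ‖∫ q, ∫ x, F x q ∂volume ∂ν.prod ν‖ₑ := by
        rw [← hsw, ← ofReal_norm, norm_real]
        exact ENNReal.ofReal_le_ofReal (le_abs_self _)
    _ ≤ ∫⁻ q, ‖∫ x, F x q‖ₑ ∂ν.prod ν := enorm_integral_le_lintegral_enorm _
    _ ≤ _ := by
        rw [← lintegral_const_mul' _ _ ENNReal.ofReal_ne_top]
        refine lintegral_mono fun q => ?_
        rw [← ofReal_norm, ← ENNReal.ofReal_mul (by positivity)]
        exact ENNReal.ofReal_le_ofReal (h2 q)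

end Pool.Agent.MP_f27d50_gt.CapL
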