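import Pool.Agent.MP_f27d50_gt.Cap1
import Pool.Agent.MP_f27d50_gt.Cap2

set_option autoImplicit false

open MeasureTheory Set Filter Topology Complex
open scoped ENNReal Pointwise ComplexConjugate

noncomputable section

namespace Pool.Agent.MP_f27d50_gt.CapL

lemma inner_eq (p y : ℂ) : inner ℝ p y = p.re * y.re + p.im * y.im := by
  simp [Complex.inner]; ring

lemma gauss_strip {w : ℂ} (hw : w ≠ 0) (c : ℝ) {R : ℝ} (hR : 0 < R) :
    ∫⁻ p in Metric.closedBall (0 : ℂ) 3,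
      ENNReal.ofReal (Real.exp (-(R ^ 2 / 4) * (c + inner ℝ p w) ^ 2)) ≤
      ENNReal.ofReal (24 / (R * ‖w‖)) := by
  have wp : 0 < ‖w‖ := norm_pos_iff.2 hw
  set E : ℝ → ℝ≥0∞ := fun t => ENNReal.ofReal (Real.exp (-(R ^ 2 / 4) * (c + ‖w‖ * t) ^ 2))
  set G : ℝ × ℝ → ℝ≥0∞ := fun q => E q.1 * indicator (Icc (-3) 3) (fun _ => 1) q.2 with hG
  have hE : Measurable E := by fun_prop
  have hI : Measurable (indicator (Icc (-3 : ℝ) 3) (fun _ => (1 : ℝ≥0∞))) :=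
    measurable_const.indicator measurableSet_Icc
  have hGm : Measurable G := (hE.comp measurable_fst).mul (hI.comp measurable_snd)
  set a : Circle := ⟨conj w / ‖w‖, by
    simp [Submonoid.unitSphere, wp.ne']⟩ with ha
  have hp : MeasurePreserving (fun p : ℂ => measurableEquivRealProd (rotation a p)) :=
    volume_preserving_equiv_real_prod.comp (rotation a).measurePreserving
  calc _ ≤ ∫⁻ p, G (measurableEquivRealProd (rotation a p)) := by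
        rw [← lintegral_indicator measurableSet_closedBall]
        refine lintegral_mono fun p => ?_
        by_cases h : p ∈ Metric.closedBall (0 : ℂ) 3
        · rw [indicator_of_mem h]
          simp only [hG, measurableEquivRealProd_apply]
          rw [indicator_of_mem, mul_one]
          · apply le_of_eq
            simp only [E]
            congr 5
            rw [rotation_apply, inner_eq]
            simp only [ha, div_eq_mul_inv, ← ofReal_inv, mul_re, mul_im, conj_re, conj_im,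
              ofReal_re, ofReal_im]
            field_simp; ring
          · have h1 : ‖rotation a p‖ ≤ 3 := by
              rw [LinearIsometryEquiv.norm_map]; simpa using h
            exact abs_le.1 ((abs_im_le_norm _).trans h1)
        · rw [indicator_of_notMem h]; exact zero_le
    _ = ∫⁻ q, G q := hp.lintegral_comp hGm
    _ = (∫⁻ t, E t) * 6 := by
        rw [Measure.volume_eq_prod, hG, lintegral_prod_mul hE.aemeasurable hI.aemeasurable,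
          lintegral_indicator measurableSet_Icc]
        simp; norm_num
    _ ≤ _ := by
        have hb : 0 < R ^ 2 / 4 * ‖w‖ ^ 2 := by positivity
        have e : ∀ t, -(R ^ 2 / 4) * (c + ‖w‖ * t) ^ 2 =
            -(R ^ 2 / 4 * ‖w‖ ^ 2) * (t + c / ‖w‖) ^ 2 := by
          intro t; field_simp; ring
        simp only [E, e]
        rw [lintegral_add_right_eq_self
          (fun t => ENNReal.ofReal (Real.exp (-(R ^ 2 / 4 * ‖w‖ ^ 2) * t ^ 2))),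
          ← ofReal_integral_eq_lintegral_ofReal (integrable_exp_neg_mul_sq hb)
            (Eventually.of_forall fun x => by positivity), integral_gaussian]
        have : (6 : ℝ≥0∞) = ENNReal.ofReal 6 := by simp
        rw [this, ← ENNReal.ofReal_mul (by positivity)]
        apply ENNReal.ofReal_le_ofReal
        have : √(Real.pi / (R ^ 2 / 4 * ‖w‖ ^ 2)) ≤ 4 / (R * ‖w‖) := by
          rw [Real.sqrt_le_iff]
          refine ⟨by positivity, ?_⟩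
          rw [div_pow, div_le_div_iff₀ hb (by positivity)]
          have := Real.pi_le_four
          have : 0 < (R * ‖w‖) ^ 2 := by positivity
          nlinarith
        calc _ ≤ 4 / (R * ‖w‖) * 6 := by gcongr
          _ = _ := by ring

lemma gauss_ball (f : ℂ → ℝ) (hf : ∀ p, f p ≤ 0) :
    ∫⁻ p in Metric.closedBall (0 : ℂ) 3, ENNReal.ofReal (Real.exp (f p)) ≤ ENNReal.ofReal 36 := by
  calc _ ≤ ∫⁻ _ in Metric.closedBall (0 : ℂ) 3, 1 := lintegral_mono fun p => by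
        simpa using hf p
    _ ≤ _ := by
        rw [setLIntegral_one, Complex.volume_closedBall]
        have : (NNReal.pi : ℝ≥0∞) = ENNReal.ofReal Real.pi := by
          rw [← NNReal.coe_real_pi, ENNReal.ofReal_coe_nnreal]
        rw [this, ← ENNReal.ofReal_pow (by norm_num), ← ENNReal.ofReal_mul (by norm_num)]
        apply ENNReal.ofReal_le_ofReal
        linarith [Real.pi_le_four]

lemma sin_small {θ' ε : ℝ} (h : θ' ∈ Ioo (-Real.pi) Real.pi) (hε : 0 ≤ ε) :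
    volume ({θ | |Real.sin (θ - θ')| ≤ ε} ∩ Ioo (-Real.pi) Real.pi) ≤ ENNReal.ofReal (20 * ε) := by
  have hπ := Real.pi_pos
  have hsub : {θ | |Real.sin (θ - θ')| ≤ ε} ∩ Ioo (-Real.pi) Real.pi ⊆
      ⋃ k ∈ Finset.Icc (-2 : ℤ) 2, Icc (θ' + k * Real.pi - 2 * ε) (θ' + k * Real.pi + 2 * ε) := by
    rintro θ ⟨h1, h2⟩
    set x := θ - θ' with hx
    have hr := abs_sub_round (x / Real.pi)
    set k := round (x / Real.pi)
    have h3 : |x - k * Real.pi| ≤ Real.pi / 2 := by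
      have : x - k * Real.pi = (x / Real.pi - k) * Real.pi := by field_simp
      rw [this, abs_mul, abs_of_pos hπ]; nlinarith
    have h4 := Real.mul_abs_le_abs_sin h3
    rw [Real.sin_sub_int_mul_pi, abs_mul, abs_zpow, abs_neg, abs_one, one_zpow, one_mul] at h4
    have h5 : |x - k * Real.pi| ≤ 2 * ε := by
      have h6 : 2 / Real.pi * |x - k * Real.pi| ≤ ε := h4.trans h1
      rw [div_mul_eq_mul_div, div_le_iff₀ hπ] at h6
      nlinarith [Real.pi_le_four]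
    rw [abs_le] at h3 h5
    have k1 : (-3 : ℝ) < k := by
      by_contra hk; push Not at hk; nlinarith [h.1, h.2, h2.1, h2.2]
    have k2 : (k : ℝ) < 3 := by
      by_contra hk; push Not at hk; nlinarith [h.1, h.2, h2.1, h2.2]
    have k1' : -3 < k := by exact_mod_cast k1
    have k2' : k < 3 := by exact_mod_cast k2
    simp only [mem_iUnion]
    refine ⟨k, Finset.mem_Icc.2 ⟨by omega, by omega⟩, ?_, ?_⟩ <;> linarith [h5.1, h5.2]
  refine (measure_mono hsub).trans ((measure_biUnion_finset_le _ _).trans (le_of_eq ?_))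
  have : ∀ k : ℤ, volume (Icc (θ' + k * Real.pi - 2 * ε) (θ' + k * Real.pi + 2 * ε)) =
      ENNReal.ofReal (4 * ε) := by
    intro k; rw [Real.volume_Icc]; congr 1; ring
  simp only [this, Finset.sum_const, Int.card_Icc]
  rw [nsmul_eq_mul, ← ENNReal.ofReal_natCast, ← ENNReal.ofReal_mul (by positivity)]
  congr 1
  have : ((2 + 1 - -2 : ℤ).toNat : ℝ) = 5 := by norm_num [Int.toNat]
  rw [this]; ring

def ee (θ : ℝ) : ℂ := Real.cos θ + Real.sin θ * I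

lemma norm_ee (θ : ℝ) : ‖ee θ‖ = 1 := by
  unfold ee
  rw [ofReal_cos, ofReal_sin, ← Complex.exp_mul_I, norm_exp_ofReal_mul_I]

lemma ee_cont : Continuous ee := by unfold ee; fun_prop

lemma sin_le_norm (r r' θ θ' : ℝ) : |r * Real.sin (θ - θ')| ≤ ‖r * ee θ - r' * ee θ'‖ := by
  have h := abs_im_le_norm ((r * ee θ - r' * ee θ') * conj (ee θ'))
  rw [norm_mul, norm_conj, norm_ee, mul_one] at h
  convert h using 2
  simp [ee, Real.sin_sub, cos_ofReal_re, sin_ofReal_re]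
  ring

lemma rd_lt_iff {ψ : ℝ → ℝ} {S : Set ℝ} {b ρ σ : ℝ} (hc : ConvexOn ℝ S ψ) (ho : IsOpen S)
    (hs : Icc 0 b ⊆ S) (hρ : ρ ∈ Ioo 0 b) :
    rd ψ ρ < σ ↔ ∃ ρ' ∈ Ioo ρ b, ψ ρ' - ψ ρ < σ * (ρ' - ρ) := by
  have hi : ρ ∈ interior S := by rw [ho.interior_eq]; exact hs (Ioo_subset_Icc_self hρ)
  constructor
  · intro h
    have h1 := (hasDerivWithinAt_iff_tendsto_slope' self_notMem_Ioi).1
      (hc.hasDerivWithinAt_rightDeriv_of_mem_interior hi)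
    have h2 := h1.eventually (gt_mem_nhds h)
    obtain ⟨ρ', h3, h4⟩ := (h2.and (Ioo_mem_nhdsGT hρ.2)).exists
    refine ⟨ρ', h4, ?_⟩
    rwa [slope_def_field, div_lt_iff₀ (sub_pos.2 h4.1)] at h3
  · rintro ⟨ρ', h1, h2⟩
    refine (hc.rightDeriv_le_slope_of_mem_interior hi
      (hs ⟨(hρ.1.trans h1.1).le, h1.2.le⟩) h1.1).trans_lt ?_
    rwa [slope_def_field, div_lt_iff₀ (sub_pos.2 h1.1)]

structure Nrm (Ω Ω' : Set ℂ) (u : ℂ → ℝ) (C : ℝ) : Prop where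
  op : IsOpen Ω
  cv : Convex ℝ Ω
  z : (0 : ℂ) ∈ Ω
  bd : Ω ⊆ Metric.ball 0 C
  op' : IsOpen Ω'
  sub : closure Ω ⊆ Ω'
  cvx : ConvexOn ℝ Ω' u
  meas : Measurable u

def bb (Ω : Set ℂ) (θ : ℝ) : ℝ := sSup {ρ : ℝ | 0 ≤ ρ ∧ (ρ : ℂ) * ee θ ∈ Ω}

def rs (Ω : Set ℂ) (u : ℂ → ℝ) (z : ℝ × ℝ) : Set ℝ := insert 0
  {ρ : ℝ | 0 < ρ ∧ ∃ ρ' > ρ, (ρ' : ℂ) * ee z.1 ∈ Ω ∧
    u (ρ' * ee z.1) - u (ρ * ee z.1) < z.2 * (ρ' - ρ)}

def rr (Ω : Set ℂ) (u : ℂ → ℝ) (z : ℝ × ℝ) : ℝ := sSup (rs Ω u z)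

variable {Ω Ω' : Set ℂ} {u : ℂ → ℝ} {C : ℝ}

lemma Nrm.C0 (h : Nrm Ω Ω' u C) : 0 < C := by simpa using h.bd h.z

lemma Nrm.lt_C (h : Nrm Ω Ω' u C) {ρ θ : ℝ} (hρ : (ρ : ℂ) * ee θ ∈ Ω) : ρ < C := by
  have := h.bd hρ
  simp only [mem_ball_zero_iff, norm_mul, norm_ee, mul_one, norm_real] at this
  exact (le_abs_self _).trans_lt this

lemma Nrm.bdd (h : Nrm Ω Ω' u C) (θ : ℝ) : BddAbove {ρ : ℝ | 0 ≤ ρ ∧ (ρ : ℂ) * ee θ ∈ Ω} :=
  ⟨C, fun _ hρ => (h.lt_C hρ.2).le⟩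

lemma Nrm.ne (h : Nrm Ω Ω' u C) (θ : ℝ) : (0 : ℝ) ∈ {ρ : ℝ | 0 ≤ ρ ∧ (ρ : ℂ) * ee θ ∈ Ω} :=
  ⟨le_rfl, by simpa using h.z⟩

lemma Nrm.b0 (h : Nrm Ω Ω' u C) (θ : ℝ) : 0 ≤ bb Ω θ := le_csSup (h.bdd θ) (h.ne θ)

lemma Nrm.bC (h : Nrm Ω Ω' u C) (θ : ℝ) : bb Ω θ ≤ C :=
  csSup_le ⟨0, h.ne θ⟩ fun _ hρ => (h.lt_C hρ.2).le

lemma Nrm.down (h : Nrm Ω Ω' u C) {θ ρ ρ' : ℝ} (h0 : 0 ≤ ρ) (h1 : ρ < ρ')
    (h2 : (ρ' : ℂ) * ee θ ∈ Ω) : (ρ : ℂ) * ee θ ∈ Ω := by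
  have hp : 0 < ρ' := h0.trans_lt h1
  have := h.cv.smul_mem_of_zero_mem h.z h2 (t := ρ / ρ')
    ⟨by positivity, (div_le_one hp).2 h1.le⟩
  convert this using 1
  have : (ρ' : ℂ) ≠ 0 := by exact_mod_cast hp.ne'
  simp; field_simp

lemma Nrm.mem_iff (h : Nrm Ω Ω' u C) {θ ρ : ℝ} (h0 : 0 ≤ ρ) :
    (ρ : ℂ) * ee θ ∈ Ω ↔ ρ < bb Ω θ := by
  constructor
  · intro h1
    have hc : Continuous fun t : ℝ => (t : ℂ) * ee θ := by fun_prop
    have := (hc.continuousAt (x := ρ)).eventually (h.op.mem_nhds h1)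
    obtain ⟨t, h2, h3⟩ := ((this.filter_mono nhdsWithin_le_nhds).and
      (self_mem_nhdsWithin (s := Ioi ρ))).exists
    exact lt_of_lt_of_le h3 (le_csSup (h.bdd θ) ⟨h0.trans (le_of_lt h3), h2⟩)
  · intro h1
    obtain ⟨t, h2, h3⟩ := exists_lt_of_lt_csSup ⟨0, h.ne θ⟩ h1
    exact h.down h0 h3 h2.2

lemma Nrm.icc_sub (h : Nrm Ω Ω' u C) (θ : ℝ) :
    Icc 0 (bb Ω θ) ⊆ {ρ : ℝ | (ρ : ℂ) * ee θ ∈ Ω'} := by
  intro ρ hρ
  apply h.sub
  have hc : Continuous fun t : ℝ => (t : ℂ) * ee θ := by fun_prop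
  rcases eq_or_lt_of_le hρ.2 with h1 | h1
  · have := csSup_mem_closure ⟨0, h.ne θ⟩ (h.bdd θ)
    rw [h1]
    exact map_mem_closure (f := fun t : ℝ => (t : ℂ) * ee θ) hc this fun t ht => ht.2
  · exact subset_closure ((h.mem_iff hρ.1).2 h1)

lemma Nrm.rs_le (h : Nrm Ω Ω' u C) (z : ℝ × ℝ) : ∀ ρ ∈ rs Ω u z, ρ ≤ bb Ω z.1 := by
  rintro ρ (rfl | ⟨h0, ρ', h1, h2, -⟩)
  · exact h.b0 _
  · exact (h1.trans ((h.mem_iff (h0.trans h1).le).1 h2)).le

lemma Nrm.rs_bdd (h : Nrm Ω Ω' u C) (z : ℝ × ℝ) : BddAbove (rs Ω u z) := ⟨_, h.rs_le z⟩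

lemma Nrm.r0 (h : Nrm Ω Ω' u C) (z : ℝ × ℝ) : 0 ≤ rr Ω u z :=
  le_csSup (h.rs_bdd z) (mem_insert _ _)

lemma Nrm.rb (h : Nrm Ω Ω' u C) (z : ℝ × ℝ) : rr Ω u z ≤ bb Ω z.1 :=
  csSup_le (insert_nonempty _ _) (h.rs_le z)

lemma Nrm.rr_meas (h : Nrm Ω Ω' u C) : Measurable (rr Ω u) := by
  apply measurable_of_Ioi
  intro t
  rcases lt_or_ge t 0 with ht | ht
  · have : rr Ω u ⁻¹' Ioi t = univ := eq_univ_of_forall fun z => ht.trans_le (h.r0 z)
    rw [this]; exact MeasurableSet.univ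
  apply IsOpen.measurableSet
  rw [isOpen_iff_mem_nhds]
  intro z hz
  obtain ⟨ρ, h1, h2⟩ := exists_lt_of_lt_csSup (insert_nonempty _ _) (show t < sSup (rs Ω u z) from hz)
  rcases h1 with rfl | ⟨h0, ρ', h3, h4, h5⟩
  · exact absurd h2 (not_lt.2 ht)
  have hu : ∀ y ∈ Ω, ContinuousAt u y := fun y hy =>
    (h.cvx.continuousOn h.op').continuousAt (h.op'.mem_nhds (h.sub (subset_closure hy)))
  have hc : ∀ s : ℝ, Continuous fun z : ℝ × ℝ => (s : ℂ) * ee z.1 := fun s =>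
    continuous_const.mul (ee_cont.comp continuous_fst)
  have e1 := (hc ρ').continuousAt.eventually (h.op.mem_nhds h4)
  have e2 : ContinuousAt (fun z : ℝ × ℝ => u (ρ' * ee z.1) - u (ρ * ee z.1) - z.2 * (ρ' - ρ)) z :=
    ((ContinuousAt.comp (f := fun z : ℝ × ℝ => (ρ' : ℂ) * ee z.1) (hu _ h4)
      (hc ρ').continuousAt).sub (ContinuousAt.comp (f := fun z : ℝ × ℝ => (ρ : ℂ) * ee z.1)
        (hu _ (h.down h0.le h3 h4)) (hc ρ).continuousAt)).sub (by fun_prop)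
  filter_upwards [e1, e2.eventually (gt_mem_nhds (sub_neg.2 h5))] with z' a1 a2
  exact lt_of_lt_of_le h2 (le_csSup (h.rs_bdd z') (Or.inr ⟨h0, ρ', h3, a1, sub_neg.1 a2⟩))

lemma Nrm.ray (h : Nrm Ω Ω' u C) (p : ℂ) (m : ℝ) (hm : u 0 - m ≤ 1 / 2) (θ : ℝ) :
    Ray (fun ρ : ℝ => u (ρ * ee θ) + inner ℝ p (ρ * ee θ) - m) {ρ : ℝ | (ρ : ℂ) * ee θ ∈ Ω'}
      (bb Ω θ) C (fun σ => rr Ω u (θ, σ - inner ℝ p (ee θ))) := by
  have hin : ∀ ρ : ℝ, inner ℝ p (ρ * ee θ) = ρ * inner ℝ p (ee θ) := by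
    intro ρ; simp only [inner_eq, mul_re, mul_im, ofReal_re, ofReal_im]; ring
  have hc : Continuous fun t : ℝ => (t : ℂ) * ee θ := by fun_prop
  have hcv : ConvexOn ℝ {ρ : ℝ | (ρ : ℂ) * ee θ ∈ Ω'}
      (fun ρ : ℝ => u (ρ * ee θ) + inner ℝ p (ρ * ee θ) - m) := by
    have h1 := h.cvx.comp_linearMap (LinearMap.toSpanSingleton ℝ ℂ (ee θ))
    have h2 : ConvexOn ℝ {ρ : ℝ | (ρ : ℂ) * ee θ ∈ Ω'} (fun ρ : ℝ => u (ρ * ee θ)) := by
      exact h1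
    refine ⟨h2.1, fun x hx y hy a b ha hb hab => ?_⟩
    have := h2.2 hx hy ha hb hab
    simp only [hin, smul_eq_mul] at this ⊢
    have e : m = a * m + b * m := by rw [← add_mul, hab, one_mul]
    nlinarith
  have hop : IsOpen {ρ : ℝ | (ρ : ℂ) * ee θ ∈ Ω'} := h.op'.preimage hc
  have key : ∀ σ, ∀ ρ ∈ Ioo 0 (bb Ω θ),
      (rd (fun ρ : ℝ => u (ρ * ee θ) + inner ℝ p (ρ * ee θ) - m) ρ < σ ↔
        ρ ∈ rs Ω u (θ, σ - inner ℝ p (ee θ))) := by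
    intro σ ρ hρ
    rw [rd_lt_iff hcv hop (h.icc_sub θ) hρ]
    simp only [hin]
    constructor
    · rintro ⟨ρ', h1, h2⟩
      exact Or.inr ⟨hρ.1, ρ', h1.1, (h.mem_iff (hρ.1.trans h1.1).le).2 h1.2, by
        simp only; linarith⟩
    · rintro (h1 | ⟨-, ρ', h1, h2, h3⟩)
      · exact absurd h1 hρ.1.ne'
      · exact ⟨ρ', ⟨h1, (h.mem_iff (hρ.1.trans h1).le).1 h2⟩, by simp only at h3; linarith⟩
  refine ⟨hcv, hop, h.icc_sub θ, h.b0 θ, h.bC θ, h.C0, ?_, by simpa using hm, ?_,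
    fun σ => h.r0 _, fun σ => h.rb _, fun σ ρ hρ h1 => ?_, fun σ ρ hρ h1 => ?_⟩
  · have := h.meas
    have := hc.measurable
    simp only [hin]
    fun_prop
  · exact h.rr_meas.comp (by fun_prop)
  · obtain ⟨ρ₁, h2, h3⟩ := exists_lt_of_lt_csSup (insert_nonempty _ _) h1
    rcases h2 with rfl | ⟨h0, ρ', h4, h5, h6⟩
    · exact absurd h3 (not_lt.2 hρ.1.le)
    have hρ₁ : ρ₁ ∈ Ioo 0 (bb Ω θ) := ⟨h0, h4.trans ((h.mem_iff (h0.trans h4).le).1 h5)⟩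
    have h7 := (key σ ρ₁ hρ₁).2 (Or.inr ⟨h0, ρ', h4, h5, h6⟩)
    refine lt_of_le_of_lt ?_ h7
    have hi : ∀ x ∈ Ioo 0 (bb Ω θ), x ∈ interior {ρ : ℝ | (ρ : ℂ) * ee θ ∈ Ω'} := fun x hx => by
      rw [hop.interior_eq]; exact h.icc_sub θ (Ioo_subset_Icc_self hx)
    exact hcv.monotoneOn_rightDeriv (hi _ hρ) (hi _ hρ₁) h3.le
  · exact le_csSup (h.rs_bdd _) ((key σ ρ hρ).1 h1)

end Pool.Agent.MP_f27d50_gt.CapL
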