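import Pool.Agent.MP_f27d50_gt.Cap3

set_option autoImplicit false

open MeasureTheory Set Filter Topology Complex
open scoped ENNReal Pointwise ComplexConjugate

noncomputable section

namespace Pool.Agent.MP_f27d50_gt.CapL

def VV (Ω : Set ℂ) (u : ℂ → ℝ) (p : ℂ) (m : ℝ) (τ : ℂ) : ℂ :=
  ∫ y in Ω, kk eta τ (u y + inner ℝ p y - m)

def pt (Ω : Set ℂ) (u : ℂ → ℝ) (z : ℝ × ℝ) : ℂ := rr Ω u z * ee z.1

def pz (Ω : Set ℂ) (u : ℂ → ℝ) (p : ℂ) (m : ℝ) (z : ℝ × ℝ) : ℝ :=
  u (pt Ω u z) + inner ℝ p (pt Ω u z) - m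

def amp (Ω : Set ℂ) (u : ℂ → ℝ) (C : ℝ) (p : ℂ) (m : ℝ) (τ : ℂ) (z : ℝ × ℝ) : ℂ :=
  if 1 / (2 * C) < z.2 + inner ℝ p (ee z.1) then
    ((((z.2 + inner ℝ p (ee z.1)) ^ 2)⁻¹ : ℝ) : ℂ) * (rr Ω u z * kk eta τ (pz Ω u p m z)) else 0

def nu : Measure (ℝ × ℝ) := (volume.restrict (Ioo (-Real.pi) Real.pi)).prod volume

instance : SFinite nu := by unfold nu; infer_instance

variable {Ω Ω' : Set ℂ} {u : ℂ → ℝ} {C : ℝ}

lemma Nrm.pt_meas (h : Nrm Ω Ω' u C) : Measurable (pt Ω u) := by
  have := h.rr_meas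
  have := ee_cont.measurable
  unfold pt; fun_prop

lemma Nrm.pz_meas (h : Nrm Ω Ω' u C) (p : ℂ) (m : ℝ) : Measurable (pz Ω u p m) := by
  have := h.pt_meas
  have := h.meas
  unfold pz; fun_prop

lemma Nrm.amp_meas (h : Nrm Ω Ω' u C) (p : ℂ) (m : ℝ) (τ : ℂ) : Measurable (amp Ω u C p m τ) := by
  have := h.rr_meas
  have := h.pz_meas p m
  have := ee_cont.measurable
  have := (kk_cont eta_cont τ).measurable
  unfold amp
  refine Measurable.ite (measurableSet_lt measurable_const (by fun_prop)) (by fun_prop)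
    measurable_const

lemma Nrm.amp_le (h : Nrm Ω Ω' u C) {p : ℂ} (hp : ‖p‖ ≤ 3) (m : ℝ) {τ : ℂ} {c : ℝ}
    (hc : ∀ t, ‖kk eta τ t‖ ≤ c) (z : ℝ × ℝ) :
    ‖amp Ω u C p m τ z‖ ≤ (76 * C ^ 2 + 2) * c * rr Ω u z * (1 + z.2 ^ 2)⁻¹ := by
  have c0 : 0 ≤ c := (norm_nonneg _).trans (hc 0)
  have r0 := h.r0 z
  have C0 := h.C0
  unfold amp
  split_ifs with h1
  · set σ := z.2 + inner ℝ p (ee z.1) with hσ
    have σ0 : 0 < σ := lt_trans (by positivity) h1
    have h2 : |inner ℝ p (ee z.1)| ≤ 3 := by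
      refine (abs_real_inner_le_norm _ _).trans ?_
      rw [norm_ee, mul_one]; exact hp
    have h3 : 1 < 2 * C * σ := by rwa [div_lt_iff₀ (by positivity), mul_comm] at h1
    have h4 : 1 + z.2 ^ 2 ≤ (76 * C ^ 2 + 2) * σ ^ 2 := by
      have e : z.2 = σ - inner ℝ p (ee z.1) := by rw [hσ]; ring
      have h5 := sq_abs (inner ℝ p (ee z.1) : ℝ)
      have h6 : (inner ℝ p (ee z.1) : ℝ) ^ 2 ≤ 9 := by
        rw [← h5]; nlinarith [abs_nonneg (inner ℝ p (ee z.1) : ℝ)]
      have h7 : 1 ≤ (2 * C * σ) ^ 2 := by nlinarith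
      rw [e]
      nlinarith [sq_nonneg (σ + inner ℝ p (ee z.1))]
    rw [norm_mul, norm_mul, norm_real, norm_real, Real.norm_eq_abs, Real.norm_eq_abs,
      abs_of_nonneg (by positivity), abs_of_nonneg r0]
    have h8 : (σ ^ 2)⁻¹ ≤ (76 * C ^ 2 + 2) * (1 + z.2 ^ 2)⁻¹ := by
      rw [← div_eq_mul_inv, inv_eq_one_div, div_le_div_iff₀ (by positivity) (by positivity)]
      linarith
    calc _ ≤ ((76 * C ^ 2 + 2) * (1 + z.2 ^ 2)⁻¹) * (rr Ω u z * c) := by gcongr; exact hc _
      _ = _ := by ring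
  · simp only [norm_zero]; positivity

lemma Nrm.amp_int (h : Nrm Ω Ω' u C) {p : ℂ} (hp : ‖p‖ ≤ 3) (m : ℝ) {τ : ℂ} {c : ℝ}
    (hc : ∀ t, ‖kk eta τ t‖ ≤ c) : Integrable (amp Ω u C p m τ) nu := by
  have c0 : 0 ≤ c := (norm_nonneg _).trans (hc 0)
  have C0 := h.C0
  have hb : Integrable (fun z : ℝ × ℝ => ((76 * C ^ 2 + 2) * c * C) * (1 + z.2 ^ 2)⁻¹) nu :=
    Integrable.mul_prod (f := fun _ : ℝ => (76 * C ^ 2 + 2) * c * C) (integrable_const _)
      integrable_inv_one_add_sq
  refine hb.mono' (h.amp_meas p m τ).aestronglyMeasurable (Eventually.of_forall fun z => ?_)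
  refine (h.amp_le hp m hc z).trans ?_
  gcongr
  exact (h.rb z).trans (h.bC _)

lemma Nrm.polar (h : Nrm Ω Ω' u C) {g : ℂ → ℂ} (hg : Measurable g) {c : ℝ} (hc : ∀ y, ‖g y‖ ≤ c) :
    IntegrableOn (fun θ => ∫ ρ in (0 : ℝ)..bb Ω θ, g (ρ * ee θ) * ρ) (Ioo (-Real.pi) Real.pi) ∧
    ∫ y in Ω, g y = ∫ θ in Ioo (-Real.pi) Real.pi, ∫ ρ in (0 : ℝ)..bb Ω θ, g (ρ * ee θ) * ρ := by
  have c0 : 0 ≤ c := (norm_nonneg _).trans (hc 0)
  have C0 := h.C0
  set F : ℝ × ℝ → ℂ := fun q => q.1 • indicator Ω g (q.1 * ee q.2) with hF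
  have hm : Measurable F := by
    have h1 := hg.indicator h.op.measurableSet
    have := ee_cont.measurable
    exact measurable_fst.smul (h1.comp (by fun_prop))
  have hi : Integrable F ((volume.restrict (Ioi 0)).prod
      (volume.restrict (Ioo (-Real.pi) Real.pi))) := by
    have hb : Integrable (fun q : ℝ × ℝ => indicator (Ioo 0 C) (fun _ => C * c) q.1 * (1 : ℝ))
        ((volume.restrict (Ioi 0)).prod (volume.restrict (Ioo (-Real.pi) Real.pi))) :=
      Integrable.mul_prod (g := fun _ : ℝ => (1 : ℝ))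
        (((integrable_indicator_iff measurableSet_Ioo).2
          (integrableOn_const (by simp))).restrict) (integrable_const _)
    refine hb.mono' hm.aestronglyMeasurable ?_
    rw [Measure.prod_restrict]
    refine ae_restrict_of_forall_mem (measurableSet_Ioi.prod measurableSet_Ioo) ?_
    rintro ⟨ρ, θ⟩ ⟨h1, -⟩
    simp only [hF, mul_one]
    by_cases h2 : (ρ : ℂ) * ee θ ∈ Ω
    · have h3 := h.lt_C h2
      rw [indicator_of_mem h2, indicator_of_mem (show ρ ∈ Ioo 0 C from ⟨h1, h3⟩), norm_smul,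
        Real.norm_eq_abs, abs_of_pos h1]
      gcongr; exact hc _
    · rw [indicator_of_notMem h2, smul_zero, norm_zero]
      exact indicator_nonneg (fun _ _ => by positivity) _
  have hin : ∀ θ, ∫ ρ in Ioi 0, F (ρ, θ) = ∫ ρ in (0 : ℝ)..bb Ω θ, g (ρ * ee θ) * ρ := by
    intro θ
    rw [intervalIntegral.integral_of_le (h.b0 θ), integral_Ioc_eq_integral_Ioo,
      ← integral_indicator measurableSet_Ioo, ← integral_indicator measurableSet_Ioi]
    congr 1; ext ρ
    by_cases h1 : 0 < ρ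
    · rw [indicator_of_mem (show ρ ∈ Ioi 0 from h1)]
      simp only [hF]
      by_cases h2 : (ρ : ℂ) * ee θ ∈ Ω
      · rw [indicator_of_mem h2, indicator_of_mem
          (show ρ ∈ Ioo 0 (bb Ω θ) from ⟨h1, (h.mem_iff h1.le).1 h2⟩), real_smul, mul_comm]
      · rw [indicator_of_notMem h2, indicator_of_notMem
          (fun h3 => h2 ((h.mem_iff h1.le).2 h3.2)), smul_zero]
    · rw [indicator_of_notMem (show ρ ∉ Ioi 0 from h1), indicator_of_notMem (fun h3 => h1 h3.1)]
  constructor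
  · have := hi.integral_prod_right
    simp only [hin] at this
    exact this
  · rw [← integral_indicator h.op.measurableSet, ← Complex.integral_comp_polarCoord_symm,
      polarCoord_target, Measure.volume_eq_prod, ← Measure.prod_restrict]
    have : (fun q : ℝ × ℝ => q.1 • indicator Ω g (Complex.polarCoord.symm q)) = F := by
      ext q; simp [hF, ee]
    rw [this, integral_prod_symm F hi]
    simp only [hin]

lemma kk_split (f : ℝ → ℝ) (x y t : ℝ) :
    kk f (x + I * y) t = kk f (I * y) t * Complex.exp (-(I * x * t)) := by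
  unfold kk
  rw [mul_right_comm (Complex.exp _), ← Complex.exp_add]
  congr 2; ring

lemma Nrm.rep (h : Nrm Ω Ω' u C) {p : ℂ} (hp : ‖p‖ ≤ 3) {m : ℝ} (hm : u 0 - m ≤ 1 / 2) {τ : ℂ}
    {c A : ℝ} (hc : ∀ t, ‖kk eta τ t‖ ≤ c) {H : ℝ → ℂ} (hH : ∀ t, HasDerivAt H (kk eta τ t) t)
    (hH0 : ∀ t ≤ 1, H t = 0) (hA : ∀ t, ‖H t‖ ≤ A) (hB : ∀ t, ‖τ * H t - I * kk eta τ t‖ ≤ A) :
    ‖τ * VV Ω u p m τ - I * ∫ z, amp Ω u C p m τ z ∂nu‖ ≤ 64 * C ^ 2 * A := by
  have C0 := h.C0
  have A0 : 0 ≤ A := (norm_nonneg _).trans (hA 0)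
  have kc := kk_cont eta_cont τ
  obtain ⟨i1, e1⟩ := h.polar (g := fun y => kk eta τ (u y + inner ℝ p y - m))
    (by have := h.meas; have := kc.measurable; fun_prop) (c := c) (fun y => hc _)
  have ha := h.amp_int hp m hc
  have hin : ∀ θ, ∫ σ, amp Ω u C p m τ (θ, σ) = ∫ σ in Ioi (1 / (2 * C)), (((σ ^ 2)⁻¹ : ℝ) : ℂ) *
      (rr Ω u (θ, σ - inner ℝ p (ee θ)) * kk eta τ
        (pz Ω u p m (θ, σ - inner ℝ p (ee θ)))) := by
    intro θ
    rw [← integral_indicator measurableSet_Ioi,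
      ← integral_sub_right_eq_self (fun σ => amp Ω u C p m τ (θ, σ)) (inner ℝ p (ee θ))]
    congr 1; ext σ
    simp only [amp, sub_add_cancel, indicator, mem_Ioi]
  have i2 := ha.integral_prod_left
  unfold VV nu
  rw [e1, integral_prod _ ha, ← integral_const_mul, ← integral_const_mul,
    ← integral_sub (i1.const_mul _) (i2.const_mul _)]
  refine (norm_setIntegral_le_of_norm_le_const (C := 2 * C * (2 * C * A + 2 * C * A))
    (by simp) fun θ _ => ?_).trans ?_
  · rw [hin]
    exact (h.ray p m hm θ).main kc hc (fun t ht => by simp [kk, eta_lo ht]) hH hH0 hA hB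
  · rw [Real.volume_real_Ioo_of_le (by linarith [Real.pi_pos])]
    have := Real.pi_le_four
    have : 0 ≤ C ^ 2 * A := by positivity
    nlinarith

lemma lint_inv_one_add_sq : ∫⁻ σ : ℝ, ENNReal.ofReal ((1 + σ ^ 2)⁻¹) ≤ ENNReal.ofReal 4 := by
  rw [← ofReal_integral_eq_lintegral_ofReal integrable_inv_one_add_sq
    (Eventually.of_forall fun x => by positivity), integral_univ_inv_one_add_sq]
  exact ENNReal.ofReal_le_ofReal Real.pi_le_four

/-- the pair estimate -/
lemma Nrm.pairs (h : Nrm Ω Ω' u C) {R : ℝ} (hR : 0 < R) :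
    ∫⁻ p in Metric.closedBall (0 : ℂ) 3, ∫⁻ q : (ℝ × ℝ) × (ℝ × ℝ), ENNReal.ofReal
      ((rr Ω u q.1 * (1 + q.1.2 ^ 2)⁻¹) * (C * (1 + q.2.2 ^ 2)⁻¹) * Real.exp (-(R ^ 2 / 4) *
        ((u (pt Ω u q.1) - u (pt Ω u q.2)) + inner ℝ p (pt Ω u q.1 - pt Ω u q.2)) ^ 2)) ∂nu.prod nu
      ≤ ENNReal.ofReal (128 * C * (720 * C + 192) / √R) := by
  have C0 := h.C0
  have sR : 0 < √R := Real.sqrt_pos.2 hR
  set ε := 1 / √R with hε
  have ε0 : 0 < ε := by positivity
  set Φ : ℝ → ℝ → ℝ≥0∞ := fun θ θ' => indicator {θ | |Real.sin (θ - θ')| ≤ ε}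
    (fun _ => ENNReal.ofReal (36 * C)) θ + ENNReal.ofReal (24 * ε) with hΦ
  have hΦm : Measurable (Function.uncurry Φ) := by
    refine Measurable.add ?_ measurable_const
    have : MeasurableSet {q : ℝ × ℝ | |Real.sin (q.1 - q.2)| ≤ ε} :=
      measurableSet_le (by fun_prop) measurable_const
    exact measurable_const.indicator this
  have hr := h.rr_meas
  have hpt := h.pt_meas
  have hu := h.meas
  rw [lintegral_lintegral_swap (Measurable.aemeasurable (by fun_prop))]
  set g : ℝ → ℝ≥0∞ := fun σ => ENNReal.ofReal ((1 + σ ^ 2)⁻¹) with hg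
  have hgm : Measurable g := by fun_prop
  calc _ ≤ ∫⁻ q : (ℝ × ℝ) × (ℝ × ℝ), (Φ q.1.1 q.2.1 * g q.1.2) * (ENNReal.ofReal C * g q.2.2)
          ∂nu.prod nu := by
        refine lintegral_mono fun q => ?_
        have r0 := h.r0 q.1
        have e : ∀ p : ℂ, ENNReal.ofReal ((rr Ω u q.1 * (1 + q.1.2 ^ 2)⁻¹) *
            (C * (1 + q.2.2 ^ 2)⁻¹) * Real.exp (-(R ^ 2 / 4) * ((u (pt Ω u q.1) - u (pt Ω u q.2)) +
              inner ℝ p (pt Ω u q.1 - pt Ω u q.2)) ^ 2)) =
            (g q.1.2 * (ENNReal.ofReal C * g q.2.2) * ENNReal.ofReal (rr Ω u q.1)) *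
              ENNReal.ofReal (Real.exp (-(R ^ 2 / 4) * ((u (pt Ω u q.1) - u (pt Ω u q.2)) +
              inner ℝ p (pt Ω u q.1 - pt Ω u q.2)) ^ 2)) := by
          intro p
          simp only [hg]
          rw [ENNReal.ofReal_mul (by positivity), ENNReal.ofReal_mul (by positivity),
            ENNReal.ofReal_mul r0, ENNReal.ofReal_mul C0.le]
          ring
        simp only [e]
        rw [lintegral_const_mul _ (by fun_prop), mul_assoc, mul_assoc (Φ _ _), mul_comm (Φ _ _)]
        gcongr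
        by_cases hs : |Real.sin (q.1.1 - q.2.1)| ≤ ε
        · simp only [hΦ]
          rw [indicator_of_mem (show q.1.1 ∈ {θ | |Real.sin (θ - q.2.1)| ≤ ε} from hs)]
          refine le_add_right ?_
          rw [mul_comm 36, ENNReal.ofReal_mul C0.le]
          gcongr
          · exact (h.rb _).trans (h.bC _)
          · exact gauss_ball _ fun p => by
              have : 0 ≤ R ^ 2 / 4 * ((u (pt Ω u q.1) - u (pt Ω u q.2)) +
                inner ℝ p (pt Ω u q.1 - pt Ω u q.2)) ^ 2 := by positivity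
              linarith
        · refine le_add_left ?_
          rcases eq_or_lt_of_le r0 with h0 | h0
          · rw [← h0]; simp
          have h1 := sin_le_norm (rr Ω u q.1) (rr Ω u q.2) q.1.1 q.2.1
          rw [abs_mul, abs_of_pos h0] at h1
          have h2 : rr Ω u q.1 * ε ≤ ‖pt Ω u q.1 - pt Ω u q.2‖ :=
            le_trans (by gcongr; exact (not_le.1 hs).le) h1
          have h3 : 0 < ‖pt Ω u q.1 - pt Ω u q.2‖ := lt_of_lt_of_le (by positivity) h2
          calc _ ≤ ENNReal.ofReal (rr Ω u q.1) *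
                ENNReal.ofReal (24 / (R * ‖pt Ω u q.1 - pt Ω u q.2‖)) := by
                gcongr; exact gauss_strip (norm_pos_iff.1 h3) _ hR
            _ ≤ _ := by
                rw [← ENNReal.ofReal_mul r0]
                apply ENNReal.ofReal_le_ofReal
                rw [mul_div_assoc', div_le_iff₀ (by positivity)]
                have h4 : ε * ε * R = 1 := by
                  rw [hε]; field_simp; exact (Real.sq_sqrt hR.le).symm
                calc rr Ω u q.1 * 24 = 24 * ε * (R * (rr Ω u q.1 * ε)) := by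
                      linear_combination (-24 * rr Ω u q.1) * h4
                  _ ≤ _ := by gcongr
    _ = ∫⁻ z', (∫⁻ z, Φ z.1 z'.1 * g z.2 ∂nu) * (ENNReal.ofReal C * g z'.2) ∂nu := by
        rw [lintegral_prod_symm _ (Measurable.aemeasurable ?_)]
        · congr 1; ext z'
          exact lintegral_mul_const (ENNReal.ofReal C * g z'.2)
            (f := fun z : ℝ × ℝ => Φ z.1 z'.1 * g z.2)
            ((hΦm.comp (f := fun z : ℝ × ℝ => (z.1, z'.1)) (by fun_prop)).mul
            (hgm.comp measurable_snd))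
        · exact ((hΦm.comp (f := fun q : (ℝ × ℝ) × (ℝ × ℝ) => (q.1.1, q.2.1)) (by fun_prop)).mul
            (hgm.comp (by fun_prop))).mul (measurable_const.mul (hgm.comp (by fun_prop)))
    _ ≤ ∫⁻ z', (ENNReal.ofReal ((720 * C + 192) * ε) * ENNReal.ofReal 4 * ENNReal.ofReal C) *
          g z'.2 ∂nu := by
        refine lintegral_mono_ae ?_
        have : ∀ᵐ z' ∂nu, z'.1 ∈ Ioo (-Real.pi) Real.pi :=
          (Measure.quasiMeasurePreserving_fst).ae (ae_restrict_mem measurableSet_Ioo)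
        filter_upwards [this] with z' hz'
        rw [← mul_assoc]
        gcongr
        unfold nu
        rw [lintegral_prod_mul (f := fun θ => Φ θ z'.1)
          (hΦm.comp (f := fun θ : ℝ => (θ, z'.1)) (by fun_prop)).aemeasurable hgm.aemeasurable]
        gcongr
        · have hms : MeasurableSet {θ | |Real.sin (θ - z'.1)| ≤ ε} :=
            measurableSet_le (by fun_prop) measurable_const
          simp only [hΦ]
          rw [lintegral_add_right _ measurable_const, lintegral_indicator hms, setLIntegral_const,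
            setLIntegral_const, Measure.restrict_apply hms, Real.volume_Ioo]
          calc _ ≤ ENNReal.ofReal (36 * C) * ENNReal.ofReal (20 * ε) +
                ENNReal.ofReal (24 * ε) * ENNReal.ofReal 8 := by
                gcongr
                · exact sin_small hz' ε0.le
                · linarith [Real.pi_le_four]
            _ = _ := by
                rw [← ENNReal.ofReal_mul (by positivity), ← ENNReal.ofReal_mul (by positivity),
                  ← ENNReal.ofReal_add (by positivity) (by positivity)]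
                congr 1; ring
        · exact lint_inv_one_add_sq
    _ ≤ (ENNReal.ofReal ((720 * C + 192) * ε) * ENNReal.ofReal 4 * ENNReal.ofReal C) *
          (ENNReal.ofReal 8 * ENNReal.ofReal 4) := by
        rw [lintegral_const_mul _ (f := fun z' : ℝ × ℝ => g z'.2) (hgm.comp measurable_snd)]
        gcongr
        unfold nu
        have := lintegral_prod_mul (μ := volume.restrict (Ioo (-Real.pi) Real.pi)) (ν := volume)
          (f := fun _ : ℝ => (1 : ℝ≥0∞)) aemeasurable_const hgm.aemeasurable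
        simp only [one_mul] at this
        rw [this, setLIntegral_one, Real.volume_Ioo]
        gcongr
        · linarith [Real.pi_le_four]
        · exact lint_inv_one_add_sq
    _ = _ := by
        rw [← ENNReal.ofReal_mul (by positivity), ← ENNReal.ofReal_mul (by positivity),
          ← ENNReal.ofReal_mul (by positivity), ← ENNReal.ofReal_mul (by positivity)]
        congr 1; rw [hε]; ring

end Pool.Agent.MP_f27d50_gt.CapL
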