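import Pool.Agent.MP_f27d50_gt.Cap4

set_option autoImplicit false

open MeasureTheory Set Filter Topology Complex
open scoped ENNReal Pointwise ComplexConjugate

noncomputable section

namespace Pool.Agent.MP_f27d50_gt.CapL

/-- energy over the window -/
def EV (Ω : Set ℂ) (u : ℂ → ℝ) (p : ℂ) (m R y : ℝ) : ℝ≥0∞ :=
  ∫⁻ x in Icc (R / 2) (3 * R), ENNReal.ofReal (‖(x + I * y) * VV Ω u p m (x + I * y)‖ ^ 2)

lemma amp_split (Ω : Set ℂ) (u : ℂ → ℝ) (C : ℝ) (p : ℂ) (m x y : ℝ) (z : ℝ × ℝ) :
    amp Ω u C p m (x + I * y) z =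
      amp Ω u C p m (I * y) z * Complex.exp (-(I * x * pz Ω u p m z)) := by
  unfold amp
  split_ifs
  · rw [kk_split]; ring
  · simp

lemma nl0 (C Y : ℝ) : ∃ C' : ℝ, 0 ≤ C' ∧ ∀ (Ω Ω' : Set ℂ) (u : ℂ → ℝ), Nrm Ω Ω' u C →
    ∀ (m : ℂ → ℝ) (P : Set ℂ), MeasurableSet P → P ⊆ Metric.closedBall 0 3 →
    (∀ p ∈ P, u 0 - m p ≤ 1 / 2) → ∀ R ≥ (2 : ℝ), ∀ y : ℝ, |y| ≤ Y →
      ∫⁻ p in P, EV Ω u p (m p) R y ≤ ENNReal.ofReal (C' * √R) := by
  obtain ⟨c, c0, hc⟩ := exists_H Y
  obtain ⟨c', c0', hc'⟩ := norm_kk_le eta_cont (fun t => eta_lo) (fun t => eta_hi) Y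
  set K := (76 * C ^ 2 + 2) * c' with hK
  have K0 : 0 ≤ K := by positivity
  set c₁ := 5 * (128 * C ^ 2 * c) ^ 2 with hc₁
  set c₂ := 4 * Real.exp 9 * K ^ 2 with hc₂
  refine ⟨36 * c₁ + c₂ * (128 * |C| * (720 * |C| + 192)), by positivity, ?_⟩
  intro Ω Ω' u h m P hP hP3 hm R hR y hy
  have C0 := h.C0
  have R0 : 0 < R := by linarith
  set Q : ℂ → ℝ≥0∞ := fun p => ∫⁻ q : (ℝ × ℝ) × (ℝ × ℝ), ENNReal.ofReal
      ((rr Ω u q.1 * (1 + q.1.2 ^ 2)⁻¹) * (C * (1 + q.2.2 ^ 2)⁻¹) * Real.exp (-(R ^ 2 / 4) *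
        ((u (pt Ω u q.1) - u (pt Ω u q.2)) + inner ℝ p (pt Ω u q.1 - pt Ω u q.2)) ^ 2)) ∂nu.prod nu
    with hQ
  have key : ∀ p ∈ P, EV Ω u p (m p) R y ≤
      ENNReal.ofReal (c₁ / R) + ENNReal.ofReal (c₂ * R) * Q p := by
    intro p hp
    have hp3 : ‖p‖ ≤ 3 := by simpa using hP3 hp
    have hb := hc' (I * y) (by simpa using hy)
    have hai := h.amp_int hp3 (m p) hb
    have hg := gauss_avg nu hai (h.pz_meas p (m p)) R0
    set M : ℝ → ℂ := fun x => ∫ z, amp Ω u C p (m p) (I * y) z *
      Complex.exp (-(I * x * pz Ω u p (m p) z)) ∂nu with hM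
    calc EV Ω u p (m p) R y ≤ ∫⁻ x in Icc (R / 2) (3 * R),
          (ENNReal.ofReal (2 * (128 * C ^ 2 * c / R) ^ 2) + ENNReal.ofReal (2 * Real.exp 9) *
            ENNReal.ofReal (Real.exp (-(1 / R ^ 2) * x ^ 2) * ‖M x‖ ^ 2)) := by
          refine setLIntegral_mono' measurableSet_Icc fun x hx => ?_
          have hn : R / 2 ≤ ‖(x + I * y : ℂ)‖ := by
            refine hx.1.trans ((le_abs_self _).trans ?_)
            simpa using abs_re_le_norm (x + I * y : ℂ)
          obtain ⟨k1, H, k2, k3, k4, k5⟩ := hc (x + I * y) (by simpa using hy) (by linarith)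
          have r := h.rep hp3 (hm p hp) k1 k2 k3 k4 k5
          simp only [amp_split] at r
          have r' : 64 * C ^ 2 * (c / ‖(x + I * y : ℂ)‖) ≤ 128 * C ^ 2 * c / R := by
            calc _ ≤ 64 * C ^ 2 * (c / (R / 2)) := by gcongr
              _ = _ := by field_simp; ring
          have r2 : ‖(x + I * y) * VV Ω u p (m p) (x + I * y)‖ ≤ 128 * C ^ 2 * c / R + ‖M x‖ := by
            have := norm_add_le ((x + I * y) * VV Ω u p (m p) (x + I * y) - I * M x) (I * M x)
            rw [sub_add_cancel, norm_mul I, norm_I, one_mul] at this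
            linarith
          rw [← ENNReal.ofReal_mul (by positivity), ← ENNReal.ofReal_add (by positivity)
            (by positivity)]
          apply ENNReal.ofReal_le_ofReal
          have e1 : 1 ≤ Real.exp 9 * Real.exp (-(1 / R ^ 2) * x ^ 2) := by
            rw [← Real.exp_add]
            apply Real.one_le_exp
            have : x ^ 2 ≤ 9 * R ^ 2 := by nlinarith [hx.1, hx.2]
            have : 1 / R ^ 2 * x ^ 2 ≤ 9 := by
              rw [one_div, inv_mul_le_iff₀ (by positivity)]; linarith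
            linarith
          calc _ ≤ (128 * C ^ 2 * c / R + ‖M x‖) ^ 2 := by gcongr
            _ ≤ 2 * (128 * C ^ 2 * c / R) ^ 2 + 2 * 1 * ‖M x‖ ^ 2 := by
                nlinarith [sq_nonneg (128 * C ^ 2 * c / R - ‖M x‖)]
            _ ≤ 2 * (128 * C ^ 2 * c / R) ^ 2 +
                2 * (Real.exp 9 * Real.exp (-(1 / R ^ 2) * x ^ 2)) * ‖M x‖ ^ 2 := by gcongr
            _ = _ := by ring
      _ ≤ ENNReal.ofReal (c₁ / R) + ENNReal.ofReal (2 * Real.exp 9) *
            ∫⁻ x : ℝ, ENNReal.ofReal (Real.exp (-(1 / R ^ 2) * x ^ 2) * ‖M x‖ ^ 2) := by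
          rw [lintegral_add_left measurable_const, setLIntegral_const,
            lintegral_const_mul' _ _ ENNReal.ofReal_ne_top, Real.volume_Icc,
            ← ENNReal.ofReal_mul (by positivity)]
          gcongr
          · apply le_of_eq; rw [hc₁]; field_simp; ring
          · exact Measure.restrict_le_self
      _ ≤ ENNReal.ofReal (c₁ / R) + ENNReal.ofReal (2 * Real.exp 9) * (ENNReal.ofReal (2 * R) *
            (ENNReal.ofReal (K ^ 2) * Q p)) := by
          gcongr
          refine hg.trans ?_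
          gcongr
          rw [hQ, ← lintegral_const_mul' _ _ ENNReal.ofReal_ne_top]
          refine lintegral_mono fun q => ?_
          rw [← ENNReal.ofReal_mul (by positivity)]
          apply ENNReal.ofReal_le_ofReal
          have a1 := h.amp_le hp3 (m p) hb q.1
          have a2 := h.amp_le hp3 (m p) hb q.2
          have a3 : rr Ω u q.2 ≤ C := (h.rb _).trans (h.bC _)
          have r0 := h.r0 q.1
          have e : pz Ω u p (m p) q.1 - pz Ω u p (m p) q.2 = (u (pt Ω u q.1) - u (pt Ω u q.2)) +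
              inner ℝ p (pt Ω u q.1 - pt Ω u q.2) := by
            unfold pz; rw [inner_sub_right]; ring
          rw [e, ← mul_assoc]
          refine mul_le_mul_of_nonneg_right ?_ (Real.exp_pos _).le
          calc _ ≤ (K * rr Ω u q.1 * (1 + q.1.2 ^ 2)⁻¹) * (K * C * (1 + q.2.2 ^ 2)⁻¹) := by
                gcongr
                refine a2.trans ?_
                gcongr
            _ = _ := by ring
      _ = _ := by
          rw [← mul_assoc, ← mul_assoc, ← ENNReal.ofReal_mul (by positivity),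
            ← ENNReal.ofReal_mul (by positivity)]
          congr 3; rw [hc₂]; ring
  have sR : 0 < √R := Real.sqrt_pos.2 R0
  calc _ ≤ ∫⁻ p in P, (ENNReal.ofReal (c₁ / R) + ENNReal.ofReal (c₂ * R) * Q p) :=
        setLIntegral_mono' hP key
    _ ≤ ∫⁻ p in Metric.closedBall 0 3,
          (ENNReal.ofReal (c₁ / R) + ENNReal.ofReal (c₂ * R) * Q p) :=
        lintegral_mono_set hP3
    _ ≤ ENNReal.ofReal (c₁ / R) * ENNReal.ofReal 36 + ENNReal.ofReal (c₂ * R) *
          ENNReal.ofReal (128 * C * (720 * C + 192) / √R) := by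
        rw [lintegral_add_left measurable_const, setLIntegral_const,
          lintegral_const_mul' _ _ ENNReal.ofReal_ne_top]
        gcongr
        · simpa using gauss_ball (fun _ => 0) (fun _ => le_rfl)
        · exact h.pairs R0
    _ ≤ _ := by
        rw [← ENNReal.ofReal_mul (by positivity), ← ENNReal.ofReal_mul (by positivity),
          ← ENNReal.ofReal_add (by positivity) (by positivity)]
        apply ENNReal.ofReal_le_ofReal
        rw [abs_of_pos C0, add_mul]
        have s1 : 1 ≤ √R := Real.one_le_sqrt.2 (by linarith)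
        have s2 : R / √R = √R := Real.div_sqrt
        refine add_le_add ?_ ?_
        · calc c₁ / R * 36 ≤ c₁ / 1 * 36 := by gcongr; linarith
            _ = 36 * c₁ * 1 := by ring
            _ ≤ _ := by gcongr
        · apply le_of_eq
          calc _ = c₂ * (128 * C * (720 * C + 192)) * (R / √R) := by ring
            _ = _ := by rw [s2]

lemma measurable_VV {Ω : Set ℂ} {u m : ℂ → ℝ} (hu : Measurable u) (hm : Measurable m) :
    Measurable fun q : ℂ × ℂ => VV Ω u q.1 (m q.1) q.2 := by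
  have := eta_cont.measurable
  have h : Measurable fun z : (ℂ × ℂ) × ℂ => kk eta z.1.2 (u z.2 + inner ℝ z.1.1 z.2 - m z.1.1) := by
    unfold kk; fun_prop
  exact (h.stronglyMeasurable.integral_prod_right' (ν := volume.restrict Ω)).measurable

lemma measurable_EV {Ω : Set ℂ} {u m : ℂ → ℝ} (hu : Measurable u) (hm : Measurable m) (R y : ℝ) :
    Measurable fun p => EV Ω u p (m p) R y := by
  have h := measurable_VV (Ω := Ω) hu hm
  have h2 : Measurable fun q : ℂ × ℝ => VV Ω u q.1 (m q.1) (q.2 + I * y) :=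
    h.comp (f := fun q : ℂ × ℝ => (q.1, (q.2 + I * y : ℂ))) (by fun_prop)
  have h3 : Measurable fun q : ℂ × ℝ =>
      ENNReal.ofReal (‖(q.2 + I * y) * VV Ω u q.1 (m q.1) (q.2 + I * y)‖ ^ 2) := by fun_prop
  exact h3.lintegral_prod_right'

/-- the normalised cap lemma -/
lemma nl (C Y : ℝ) : ∃ C' : ℝ, 0 ≤ C' ∧ ∀ (Ω : Set ℂ) (u : ℂ → ℝ), IsOpen Ω → (0 : ℂ) ∈ Ω →
    Ω ⊆ Metric.ball 0 C → ConvexOn ℝ Ω u → Measurable u →
    ∀ (m : ℂ → ℝ), Measurable m → ∀ P : Set ℂ, MeasurableSet P → P ⊆ Metric.closedBall 0 3 →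
    (∀ p ∈ P, u 0 - m p ≤ 1 / 2) → ∀ R ≥ (2 : ℝ), ∀ y : ℝ, |y| ≤ Y →
      ∫⁻ p in P, EV Ω u p (m p) R y ≤ ENNReal.ofReal (C' * √R) := by
  obtain ⟨C', C0, hC⟩ := nl0 C Y
  obtain ⟨c', c0', hc'⟩ := norm_kk_le eta_cont (fun t => eta_lo) (fun t => eta_hi) Y
  refine ⟨C', C0, fun Ω u ho h0 hb hcv hu m hm P hP hP3 hm0 R hR y hy => ?_⟩
  set l : ℕ → ℝ := fun n => 1 + 1 / (n + 1 : ℝ) with hl
  have l1 : ∀ n, 1 < l n := fun n => by
    simp only [hl]; have : (0 : ℝ) < 1 / (n + 1 : ℝ) := by positivity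
    linarith
  have lt : Tendsto l atTop (𝓝 1) := by
    simpa [hl] using tendsto_one_div_add_atTop_nhds_zero_nat.const_add (1 : ℝ)
  set O : ℕ → Set ℂ := fun n => (fun z => l n • z) ⁻¹' Ω with hO
  have cl : ∀ n, closure (O n) ⊆ Ω := by
    intro n z hz
    have h1 : l n • z ∈ closure Ω :=
      map_mem_closure (f := fun z => l n • z) (by fun_prop) hz fun _ h => h
    have lp : 0 < l n := by linarith [l1 n]
    have := hcv.1.combo_interior_closure_mem_interior (ho.interior_eq.symm ▸ h0) h1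
      (a := 1 - 1 / l n) (b := 1 / l n) (by rw [sub_pos, div_lt_one lp]; exact l1 n)
      (by positivity) (by ring)
    rw [ho.interior_eq, smul_zero, zero_add, smul_smul, one_div_mul_cancel lp.ne', one_smul] at this
    exact this
  have hN : ∀ n, Nrm (O n) Ω u C := fun n =>
    ⟨ho.preimage (by fun_prop), hcv.1.linear_preimage (LinearMap.lsmul ℝ ℂ (l n)),
      by simpa [hO] using h0, (subset_closure.trans (cl n)).trans hb, ho, cl n, hcv, hu⟩
  have hV : ∀ p (τ : ℂ), |τ.im| ≤ Y →
      Tendsto (fun n => VV (O n) u p (m p) τ) atTop (𝓝 (VV Ω u p (m p) τ)) := by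
    intro p τ hτ
    have hfin : volume Ω ≠ ⊤ := ((measure_mono hb).trans_lt measure_ball_lt_top).ne
    have kc := (kk_cont eta_cont τ).measurable
    have e : ∀ n, VV (O n) u p (m p) τ = ∫ z in Ω,
        indicator (O n) (fun z => kk eta τ (u z + inner ℝ p z - m p)) z := by
      intro n
      rw [setIntegral_indicator (hN n).op.measurableSet,
        inter_eq_right.2 (subset_closure.trans (cl n))]; rfl
    simp only [e]
    refine tendsto_integral_of_dominated_convergence (fun _ => c') (fun n => ?_)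
      (integrableOn_const hfin) (fun n => Eventually.of_forall fun z => ?_) ?_
    · exact (Measurable.indicator (by fun_prop) (hN n).op.measurableSet).aestronglyMeasurable
    · exact (norm_indicator_le_norm_self _ _).trans (hc' τ hτ _)
    · refine ae_restrict_of_forall_mem ho.measurableSet fun z hz => ?_
      have h1 : Tendsto (fun n => l n • z) atTop (𝓝 z) := by simpa using lt.smul_const z
      refine tendsto_const_nhds.congr' ?_
      filter_upwards [h1.eventually (ho.mem_nhds hz)] with n hn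
      rw [indicator_of_mem (show z ∈ O n from hn)]
  calc _ ≤ ∫⁻ p in P, liminf (fun n => EV (O n) u p (m p) R y) atTop := by
        refine lintegral_mono fun p => ?_
        refine le_trans (le_of_eq ?_) (lintegral_liminf_le fun n => ?_)
        · unfold EV
          congr 1; ext x
          symm
          apply Tendsto.liminf_eq
          exact ENNReal.tendsto_ofReal
            ((((hV p (x + I * y) (by simpa using hy)).const_mul _).norm).pow 2)
        · have h2 : Measurable fun x : ℝ => VV (O n) u p (m p) (x + I * y) :=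
            (measurable_VV (Ω := O n) hu hm).comp (f := fun x : ℝ => (p, (x + I * y : ℂ)))
              (by fun_prop)
          fun_prop
    _ ≤ liminf (fun n => ∫⁻ p in P, EV (O n) u p (m p) R y) atTop :=
        lintegral_liminf_le fun n => measurable_EV hu hm R y
    _ ≤ _ := liminf_le_of_frequently_le' (Eventually.of_forall fun n =>
        hC (O n) Ω u (hN n) m P hP hP3 hm0 R hR y hy).frequently

end Pool.Agent.MP_f27d50_gt.CapL
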