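import Pool.Agent.MP_f27d50_gt.Cap2

set_option autoImplicit false

open MeasureTheory Set Filter Topology Complex
open scoped ENNReal Pointwise ComplexConjugate

noncomputable section

namespace Pool.Agent.MP_f27d50_gt

/-- area of the cap of depth `s` -/
def Acap (Ω : Set ℂ) (u m : ℂ → ℝ) (p : ℂ) (s : ℝ) : ℝ≥0∞ :=
  volume {y | y ∈ Ω ∧ psi u m p y ≤ s}

/-- the deep part of the amplitude (depth at least `s`) -/
def TTgt (Ω : Set ℂ) (u m : ℂ → ℝ) (s : ℝ) (p τ : ℂ) : ℂ :=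
  ∫ y in Ω, Complex.exp (-(I * τ * (psi u m p y : ℂ))) * ((1 - CapL.chi (psi u m p y / s) : ℝ) : ℂ)

/-- determinant of two plane vectors -/
def det2 (v w : ℂ) : ℝ := v.re * w.im - v.im * w.re

/-- the four bodies -/
def B4 (K L : Set X) : Fin 4 → Set X := ![K, -K, L, -L]

end Pool.Agent.MP_f27d50_gt
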