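import Pool.Agent.MP_f27d50_gt.Cap5
import Pool.Agent.MP_f27d50_gt.Defs2

set_option autoImplicit false

open MeasureTheory Set Filter Topology Complex
open scoped ENNReal Pointwise ComplexConjugate

noncomputable section

namespace Pool.Agent.MP_f27d50_gt.CapL

def lam (v₁ v₂ : ℂ) : ℂ →ₗ[ℝ] ℂ := Complex.reLm.smulRight v₁ + Complex.imLm.smulRight v₂

lemma lam_apply (v₁ v₂ q : ℂ) : lam v₁ v₂ q = q.re • v₁ + q.im • v₂ := by simp [lam]

lemma det_lam (v₁ v₂ : ℂ) : LinearMap.det (lam v₁ v₂) = det2 v₁ v₂ := by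
  rw [← LinearMap.det_toMatrix Complex.basisOneI, Matrix.det_fin_two]
  simp [LinearMap.toMatrix_apply, lam_apply, det2]
  ring

def lamT (v₁ v₂ : ℂ) : ℂ →ₗ[ℝ] ℂ := lam (v₁.re + v₂.re * I) (v₁.im + v₂.im * I)

lemma det_lamT (v₁ v₂ : ℂ) : LinearMap.det (lamT v₁ v₂) = det2 v₁ v₂ := by
  rw [lamT, det_lam]; simp [det2]; ring

lemma lamT_re (v₁ v₂ p : ℂ) : (lamT v₁ v₂ p).re = inner ℝ p v₁ := by
  rw [inner_eq]; simp [lamT, lam_apply]

lemma lamT_im (v₁ v₂ p : ℂ) : (lamT v₁ v₂ p).im = inner ℝ p v₂ := by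
  rw [inner_eq]; simp [lamT, lam_apply]

lemma inner_lam (v₁ v₂ p q : ℂ) : inner ℝ p (lam v₁ v₂ q) = inner ℝ (lamT v₁ v₂ p) q := by
  rw [inner_eq (lamT v₁ v₂ p), lamT_re, lamT_im]
  simp [lam_apply]; ring

lemma lin_meas (L : ℂ →ₗ[ℝ] ℂ) : Measurable L := L.continuous_of_finiteDimensional.measurable

lemma integral_affine {L : ℂ →ₗ[ℝ] ℂ} (hL : LinearMap.det L ≠ 0) (c : ℂ) {f : ℂ → ℂ}
    (hf : Measurable f) : ∫ y, f y = (|LinearMap.det L| : ℝ) * ∫ q, f (c + L q) := by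
  have h1 : Measure.map (fun q => c + L q) volume =
      ENNReal.ofReal |(LinearMap.det L)⁻¹| • (volume : Measure ℂ) := by
    rw [show (fun q => c + L q) = (fun y => c + y) ∘ L from rfl,
      ← Measure.map_map (measurable_const_add c) (lin_meas L),
      Measure.map_linearMap_addHaar_eq_smul_addHaar _ hL, Measure.map_smul, map_add_left_eq_self]
  rw [← integral_map ((lin_meas L).const_add c).aemeasurable hf.aestronglyMeasurable, h1,
    integral_smul_measure, ENNReal.toReal_ofReal (abs_nonneg _), real_smul, ← mul_assoc,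
    ← ofReal_mul, ← abs_mul, mul_inv_cancel₀ hL]
  simp

lemma lintegral_affine {L : ℂ →ₗ[ℝ] ℂ} (hL : LinearMap.det L ≠ 0) (c : ℂ) {f : ℂ → ℝ≥0∞}
    (hf : Measurable f) :
    ∫⁻ p, f (L (p - c)) = ENNReal.ofReal |(LinearMap.det L)⁻¹| * ∫⁻ q, f q := by
  rw [lintegral_sub_right_eq_self (fun p => f (L p)) c, ← lintegral_map hf (lin_meas L),
    Measure.map_linearMap_addHaar_eq_smul_addHaar _ hL, lintegral_smul_measure, smul_eq_mul]

lemma lintegral_scale {F : ℝ → ℝ≥0∞} (hF : Measurable F) {a : ℝ} (ha : 0 < a) (b c : ℝ) :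
    ∫⁻ t in Icc b c, F (t * a) = ENNReal.ofReal a⁻¹ * ∫⁻ t in Icc (b * a) (c * a), F t := by
  rw [← lintegral_indicator measurableSet_Icc, ← lintegral_indicator measurableSet_Icc,
    ← abs_of_pos (inv_pos.2 ha), ← smul_eq_mul, ← lintegral_smul_measure,
    ← Real.map_volume_mul_right ha.ne',
    lintegral_map (hF.indicator measurableSet_Icc) (measurable_mul_const a)]
  congr 1; ext t
  simp only [indicator, mem_Icc, mul_le_mul_iff_left₀ ha]

/-- the piece of the amplitude at depth about `s` -/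
def Vp (Ω : Set ℂ) (u m : ℂ → ℝ) (s : ℝ) (p τ : ℂ) : ℂ :=
  ∫ y in Ω, Complex.exp (-(I * τ * (psi u m p y : ℂ))) * ((eta (psi u m p y / s) : ℝ) : ℂ)

def EP (Ω : Set ℂ) (u m : ℂ → ℝ) (s R y : ℝ) (p : ℂ) : ℝ≥0∞ :=
  ∫⁻ t in Icc (R / 2) (3 * R), ENNReal.ofReal (‖(t + I * y) * Vp Ω u m s p (t + I * y)‖ ^ 2)

lemma measurable_Vp {Ω : Set ℂ} {u m : ℂ → ℝ} (hu : Measurable u) (hm : Measurable m) (s : ℝ) :
    Measurable fun q : ℂ × ℂ => Vp Ω u m s q.1 q.2 := by
  have := eta_cont.measurable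
  have h : Measurable fun z : (ℂ × ℂ) × ℂ => Complex.exp (-(I * z.1.2 * (psi u m z.1.1 z.2 : ℂ))) *
      ((eta (psi u m z.1.1 z.2 / s) : ℝ) : ℂ) := by
    unfold psi; fun_prop
  exact (h.stronglyMeasurable.integral_prod_right' (ν := volume.restrict Ω)).measurable

lemma measurable_EP {Ω : Set ℂ} {u m : ℂ → ℝ} (hu : Measurable u) (hm : Measurable m)
    (s R y : ℝ) : Measurable (EP Ω u m s R y) := by
  have h := measurable_Vp (Ω := Ω) hu hm s
  have h2 : Measurable fun q : ℂ × ℝ => Vp Ω u m s q.1 (q.2 + I * y) :=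
    h.comp (f := fun q : ℂ × ℝ => (q.1, (q.2 + I * y : ℂ))) (by fun_prop)
  have h3 : Measurable fun q : ℂ × ℝ =>
      ENNReal.ofReal (‖(q.2 + I * y) * Vp Ω u m s q.1 (q.2 + I * y)‖ ^ 2) := by fun_prop
  exact h3.lintegral_prod_right'

lemma local_piece (C₀ Y : ℝ) (hC₀ : 0 < C₀) : ∃ C' : ℝ, 0 ≤ C' ∧ ∀ (Ω : Set ℂ) (u m : ℂ → ℝ),
    Cap Ω u m → ∀ s > (0 : ℝ), ∀ R y : ℝ, 2 ≤ R * s → |y * s| ≤ Y → ∀ y₀ ∈ Ω, ∀ v₁ v₂ : ℂ,
    det2 v₁ v₂ ≠ 0 → ∀ P : Set ℂ, MeasurableSet P →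
    (∀ p ∈ P, psi u m p y₀ ≤ s / 2 ∧ ∀ v : ℂ, y₀ + v ∈ Ω →
      psi u m p (y₀ + v) ≤ 4 * s → ∃ q : ℂ, ‖q‖ < C₀ ∧ v = q.re • v₁ + q.im • v₂) →
    (∀ p ∈ P, ∀ p' ∈ P, |inner ℝ (p - p') v₁| ≤ 2 * s ∧ |inner ℝ (p - p') v₂| ≤ 2 * s) →
    ∫⁻ p in P, EP Ω u m s R y p ≤
      ENNReal.ofReal (C' * √(R * s) / s) * ENNReal.ofReal |det2 v₁ v₂| := by
  obtain ⟨C', C0, hC⟩ := nl C₀ Y
  refine ⟨C', C0, fun Ω u m h s hs R y hRs hy y₀ hy₀ v₁ v₂ hd P hP h1 h2 => ?_⟩
  rcases P.eq_empty_or_nonempty with rfl | ⟨p₁, hp₁⟩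
  · simp
  set Λ := lam v₁ v₂ with hΛ
  have dΛ : LinearMap.det Λ ≠ 0 := by rwa [hΛ, det_lam]
  set L : ℂ →ₗ[ℝ] ℂ := s⁻¹ • lamT v₁ v₂ with hL
  have dL' : LinearMap.det L = s⁻¹ ^ 2 * det2 v₁ v₂ := by
    rw [hL, LinearMap.det_smul, det_lamT, Complex.finrank_real_complex]
  have dL : LinearMap.det L ≠ 0 := by rw [dL']; positivity
  set E := LinearMap.equivOfDetNeZero L dL with hE
  have hEL : ∀ p, E.symm (L p) = p := fun p => E.symm_apply_apply p
  have hLE : ∀ p, L (E.symm p) = p := fun p => E.apply_symm_apply p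
  have Λinj : Function.Injective Λ := (LinearMap.equivOfDetNeZero Λ dΛ).injective
  have mE : Measurable E.symm := lin_meas E.symm.toLinearMap
  have mΛ := lin_meas Λ
  have cΛ : Continuous Λ := Λ.continuous_of_finiteDimensional
  have hu := h.meas
  have hm := h.mcont.measurable
  set Ω' : Set ℂ := (fun q => y₀ + Λ q) ⁻¹' Ω ∩ Metric.ball 0 C₀ with hΩ'
  set u' : ℂ → ℝ := fun q => (u (y₀ + Λ q) + inner ℝ p₁ (Λ q)) / s with hu'
  set m' : ℂ → ℝ := fun p' => (m (p₁ + E.symm p') - inner ℝ (p₁ + E.symm p') y₀) / s with hm'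
  set P' : Set ℂ := (fun p' => p₁ + E.symm p') ⁻¹' P with hP'
  have mu' : Measurable u' := by simp only [hu']; fun_prop
  have mm' : Measurable m' := by simp only [hm']; fun_prop
  have mP' : MeasurableSet P' := hP.preimage (by fun_prop)
  have oΩ' : IsOpen Ω' := (h.op.preimage (by fun_prop)).inter Metric.isOpen_ball
  have hps : ∀ p q, u' q + inner ℝ (L (p - p₁)) q - m' (L (p - p₁)) = psi u m p (y₀ + Λ q) / s := by
    intro p q
    simp only [hu', hm', hEL, add_sub_cancel, psi]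
    rw [hL, LinearMap.smul_apply, real_inner_smul_left, ← inner_lam, inner_sub_left,
      inner_add_right]
    field_simp; ring
  have cvx' : ConvexOn ℝ Ω' u' := by
    have hc : Convex ℝ Ω' := by
      refine Convex.inter ?_ (convex_ball _ _)
      intro a ha b hb s t hs ht hst
      have := h.cvx.1 ha hb hs ht hst
      simp only [mem_preimage, map_add, map_smul]
      convert this using 1
      rw [smul_add, smul_add, add_add_add_comm, ← add_smul, hst, one_smul]
    refine ⟨hc, fun a ha b hb r t hr ht hrt => ?_⟩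
    have := h.cvx.2 ha.1 hb.1 hr ht hrt
    have e : y₀ + Λ (r • a + t • b) = r • (y₀ + Λ a) + t • (y₀ + Λ b) := by
      rw [map_add, map_smul, map_smul, smul_add, smul_add, add_add_add_comm, ← add_smul, hrt,
        one_smul]
    simp only [hu', smul_eq_mul] at this ⊢
    rw [e, map_add, map_smul, map_smul, inner_add_right, real_inner_smul_right,
      real_inner_smul_right, ← mul_div_assoc, ← mul_div_assoc, ← add_div]
    refine div_le_div_of_nonneg_right ?_ hs.le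
    linarith
  have main := hC Ω' u' oΩ' ⟨by simpa using hy₀, by simpa using hC₀⟩ inter_subset_right cvx' mu'
    m' mm' P' mP' ?_ ?_ (R * s) hRs (y * s) hy
  rotate_left
  · intro p' hp'
    obtain ⟨a1, a2⟩ := h2 _ hp' _ hp₁
    rw [add_sub_cancel_left] at a1 a2
    have e1 : |p'.re| ≤ 2 := by
      rw [← hLE p', hL, LinearMap.smul_apply, smul_re, lamT_re, smul_eq_mul, abs_mul,
        abs_of_pos (inv_pos.2 hs), inv_mul_le_iff₀ hs]; linarith
    have e2 : |p'.im| ≤ 2 := by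
      rw [← hLE p', hL, LinearMap.smul_apply, smul_im, lamT_im, smul_eq_mul, abs_mul,
        abs_of_pos (inv_pos.2 hs), inv_mul_le_iff₀ hs]; linarith
    rw [mem_closedBall_zero_iff, ← sq_le_sq₀ (norm_nonneg _) (by norm_num), Complex.sq_norm,
      normSq_apply]
    rw [abs_le] at e1 e2
    nlinarith [e1.1, e1.2, e2.1, e2.2]
  · intro p' hp'
    have := hps (p₁ + E.symm p') 0
    rw [add_sub_cancel_left, hLE, inner_zero_right, add_zero, map_zero, add_zero] at this
    rw [this, div_le_iff₀ hs]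
    linarith [(h1 _ hp').1]
  -- change of variables
  have hV : ∀ p ∈ P, ∀ τ : ℂ, Vp Ω u m s p τ =
      (|det2 v₁ v₂| : ℝ) * VV Ω' u' (L (p - p₁)) (m' (L (p - p₁))) (τ * s) := by
    intro p hp τ
    unfold Vp VV
    have := eta_cont.measurable
    rw [← integral_indicator h.op.measurableSet, ← integral_indicator oΩ'.measurableSet,
      integral_affine dΛ y₀ (Measurable.indicator (by unfold psi; fun_prop) h.op.measurableSet),
      hΛ, det_lam, ← hΛ]
    congr 2; ext q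
    by_cases a1 : y₀ + Λ q ∈ Ω
    · rw [indicator_of_mem a1]
      by_cases a2 : q ∈ Metric.ball (0 : ℂ) C₀
      · rw [indicator_of_mem (show q ∈ Ω' from ⟨a1, a2⟩), hps, kk]
        congr 3
        have : (s : ℂ) ≠ 0 := by exact_mod_cast hs.ne'
        push_cast; field_simp
      · rw [indicator_of_notMem (fun a3 => a2 a3.2), eta_hi]
        · simp
        · rw [le_div_iff₀ hs]
          by_contra a3
          obtain ⟨q', b1, b2⟩ := (h1 p hp).2 _ a1 (not_le.1 a3).le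
          rw [← lam_apply, ← hΛ] at b2
          exact a2 (by rw [Λinj b2]; simpa using b1)
    · rw [indicator_of_notMem a1, indicator_of_notMem (fun a3 => a1 a3.1)]
  have hE2 : ∀ p ∈ P, EP Ω u m s R y p = ENNReal.ofReal (det2 v₁ v₂ ^ 2 / s ^ 3) *
      EV Ω' u' (L (p - p₁)) (m' (L (p - p₁))) (R * s) (y * s) := by
    intro p hp
    unfold EP EV
    set F : ℝ → ℝ≥0∞ := fun x => ENNReal.ofReal (‖(x + I * (y * s : ℝ)) *
      VV Ω' u' (L (p - p₁)) (m' (L (p - p₁))) (x + I * (y * s : ℝ))‖ ^ 2) with hF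
    have mF : Measurable F := by
      have h2 : Measurable fun x : ℝ =>
          VV Ω' u' (L (p - p₁)) (m' (L (p - p₁))) (x + I * (y * s : ℝ)) :=
        (measurable_VV (Ω := Ω') mu' mm').comp
          (f := fun x : ℝ => (L (p - p₁), (x + I * (y * s : ℝ) : ℂ))) (by fun_prop)
      simp only [hF]; fun_prop
    have e : ∀ t : ℝ, ENNReal.ofReal (‖(t + I * y) * Vp Ω u m s p (t + I * y)‖ ^ 2) =
        ENNReal.ofReal (det2 v₁ v₂ ^ 2 / s ^ 2) * F (t * s) := by
      intro t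
      simp only [hF]
      rw [← ENNReal.ofReal_mul (by positivity), hV p hp]
      congr 1
      have e2 : ((t * s : ℝ) : ℂ) + I * (y * s : ℝ) = (t + I * y) * s := by push_cast; ring
      rw [e2]
      simp only [norm_mul, norm_real, Real.norm_eq_abs, abs_abs, mul_pow, sq_abs]
      field_simp
    simp only [e]
    rw [lintegral_const_mul _ (f := fun t => F (t * s)) (mF.comp (measurable_mul_const s)),
      lintegral_scale mF hs, ← mul_assoc, ← ENNReal.ofReal_mul (by positivity)]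
    congr 2
    · field_simp
    · congr 2 <;> ring
  have mG : Measurable (indicator P' fun p' => EV Ω' u' p' (m' p') (R * s) (y * s)) :=
    (measurable_EV mu' mm' _ _).indicator mP'
  have dpos : 0 < |det2 v₁ v₂| := abs_pos.2 hd
  calc _ = ∫⁻ p, ENNReal.ofReal (det2 v₁ v₂ ^ 2 / s ^ 3) *
          (indicator P' fun p' => EV Ω' u' p' (m' p') (R * s) (y * s)) (L (p - p₁)) := by
        rw [← lintegral_indicator hP]
        congr 1; ext p
        have : L (p - p₁) ∈ P' ↔ p ∈ P := by simp [hP', hEL]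
        by_cases hp : p ∈ P
        · rw [indicator_of_mem hp, indicator_of_mem (this.2 hp), hE2 p hp]
        · rw [indicator_of_notMem hp, indicator_of_notMem (fun a => hp (this.1 a)), mul_zero]
    _ = ENNReal.ofReal (det2 v₁ v₂ ^ 2 / s ^ 3) * (ENNReal.ofReal |(LinearMap.det L)⁻¹| *
          ∫⁻ p' in P', EV Ω' u' p' (m' p') (R * s) (y * s)) := by
        rw [lintegral_const_mul' _ _ ENNReal.ofReal_ne_top, lintegral_affine dL p₁ mG,
          lintegral_indicator mP']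
    _ ≤ ENNReal.ofReal (det2 v₁ v₂ ^ 2 / s ^ 3) * (ENNReal.ofReal |(LinearMap.det L)⁻¹| *
          ENNReal.ofReal (C' * √(R * s))) := by gcongr
    _ = _ := by
        rw [← ENNReal.ofReal_mul (by positivity), ← ENNReal.ofReal_mul (by positivity),
          ← ENNReal.ofReal_mul (by positivity), dL', abs_inv, abs_mul, ← sq_abs (det2 v₁ v₂),
          abs_of_pos (by positivity : 0 < s⁻¹ ^ 2)]
        congr 1
        field_simp

end Pool.Agent.MP_f27d50_gt.CapL
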