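import Pool.Agent.MP_f27d50_gt.Defs2

set_option autoImplicit false

open MeasureTheory Set Filter Topology Complex
open scoped ENNReal Pointwise ComplexConjugate

noncomputable section

namespace Pool.Agent.MP_f27d50_gt

namespace CapGeoAux

lemma inner_eq (p y : ℂ) : inner ℝ p y = p.re * y.re + p.im * y.im := by
  simp [Complex.inner]; ring

/-- the map with columns `v₁`, `v₂` -/
def Lm (v₁ v₂ : ℂ) : ℂ →ₗ[ℝ] ℂ where
  toFun q := q.re • v₁ + q.im • v₂
  map_add' a b := by simp only [add_re, add_im, add_smul]; abel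
  map_smul' c a := by
    simp only [smul_re, smul_im, smul_eq_mul, mul_smul, RingHom.id_apply, smul_add]

/-- the map with rows `v₁`, `v₂` -/
def Mm (v₁ v₂ : ℂ) : ℂ →ₗ[ℝ] ℂ where
  toFun p := ⟨p.re * v₁.re + p.im * v₁.im, p.re * v₂.re + p.im * v₂.im⟩
  map_add' a b := by apply Complex.ext <;> simp <;> ring
  map_smul' c a := by apply Complex.ext <;> simp <;> ring

lemma det_Lm (v₁ v₂ : ℂ) : LinearMap.det (Lm v₁ v₂) = det2 v₁ v₂ := by
  rw [← LinearMap.det_toMatrix basisOneI, Matrix.det_fin_two]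
  simp [LinearMap.toMatrix_apply, Lm, det2]
  ring

lemma det_Mm (v₁ v₂ : ℂ) : LinearMap.det (Mm v₁ v₂) = det2 v₁ v₂ := by
  rw [← LinearMap.det_toMatrix basisOneI, Matrix.det_fin_two]
  simp [LinearMap.toMatrix_apply, Mm, det2]

lemma vol_box (a b c d : ℝ) :
    volume {q : ℂ | q.re ∈ Icc a b ∧ q.im ∈ Icc c d} =
      ENNReal.ofReal (b - a) * ENNReal.ofReal (d - c) := by
  have := volume_preserving_equiv_real_prod.measure_preimage
    (s := Icc a b ×ˢ Icc c d) (measurableSet_Icc.prod measurableSet_Icc).nullMeasurableSet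
  rw [Measure.volume_eq_prod, Measure.prod_prod, Real.volume_Icc, Real.volume_Icc] at this
  exact this

lemma cramer {v₁ v₂ : ℂ} (h : det2 v₁ v₂ ≠ 0) (v : ℂ) :
    v = (det2 v v₂ / det2 v₁ v₂) • v₁ + (det2 v₁ v / det2 v₁ v₂) • v₂ := by
  apply Complex.ext
  · simp only [add_re, smul_re, smul_eq_mul]
    field_simp
    unfold det2
    ring
  · simp only [add_im, smul_im, smul_eq_mul]
    field_simp
    unfold det2
    ring

lemma abs_det2_comm (v w : ℂ) : |det2 v w| = |det2 w v| := by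
  rw [← abs_neg]; congr 1; unfold det2; ring

/-- a nearly maximal pair -/
lemma pick {Y : Set ℂ} (hb : Bornology.IsBounded Y) (h0 : volume Y ≠ 0) :
    ∃ v₁ ∈ Y, ∃ v₂ ∈ Y, det2 v₁ v₂ ≠ 0 ∧ volume Y ≤ ENNReal.ofReal (16 * |det2 v₁ v₂|) := by
  have hex : ∃ v ∈ Y, ∃ w ∈ Y, det2 v w ≠ 0 := by
    by_contra hcon
    push Not at hcon
    apply h0
    by_cases hz : ∃ v ∈ Y, v ≠ 0
    · obtain ⟨v, hv, hv0⟩ := hz
      have hsub : Y ⊆ Lm v 0 '' univ := by
        intro w hw
        have h1 : det2 v (I * v) ≠ 0 := by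
          have : det2 v (I * v) = normSq v := by simp [det2, normSq_apply]
          rw [this]
          exact (normSq_pos.2 hv0).ne'
        refine ⟨((det2 w (I * v) / det2 v (I * v) : ℝ) : ℂ), trivial, ?_⟩
        have := cramer h1 w
        rw [hcon v hv w hw] at this
        simpa [Lm] using this.symm
      refine measure_mono_null hsub ?_
      rw [Measure.addHaar_image_linearMap, det_Lm]
      simp [det2]
    · push Not at hz
      exact measure_mono_null (fun v hv => hz v hv) (measure_singleton (0 : ℂ))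
  obtain ⟨R, hR⟩ := hb.exists_norm_le
  let S : Set ℝ := {t | ∃ v ∈ Y, ∃ w ∈ Y, |det2 v w| = t}
  have hS : BddAbove S := by
    refine ⟨2 * R ^ 2, ?_⟩
    rintro t ⟨v, hv, w, hw, rfl⟩
    have a1 := (abs_re_le_norm v).trans (hR v hv)
    have a2 := (abs_im_le_norm v).trans (hR v hv)
    have a3 := (abs_re_le_norm w).trans (hR w hw)
    have a4 := (abs_im_le_norm w).trans (hR w hw)
    have hR0 : 0 ≤ R := (abs_nonneg _).trans a1
    calc |det2 v w| ≤ |v.re * w.im| + |v.im * w.re| := abs_sub _ _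
      _ = |v.re| * |w.im| + |v.im| * |w.re| := by rw [abs_mul, abs_mul]
      _ ≤ R * R + R * R := by gcongr
      _ = _ := by ring
  obtain ⟨v, hv, w, hw, hvw⟩ := hex
  have hpos : 0 < sSup S := (abs_pos.2 hvw).trans_le (le_csSup hS ⟨v, hv, w, hw, rfl⟩)
  obtain ⟨t, ⟨v₁, h1, v₂, h2, rfl⟩, ht⟩ :=
    exists_lt_of_lt_csSup (s := S) ⟨_, v, hv, w, hw, rfl⟩ (half_lt_self hpos)
  have hd : 0 < |det2 v₁ v₂| := (half_pos hpos).trans ht
  have hmax : ∀ a ∈ Y, ∀ b ∈ Y, |det2 a b / det2 v₁ v₂| ≤ 2 := fun a ha b hb' => by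
    rw [abs_div, div_le_iff₀ hd]
    linarith [le_csSup hS ⟨a, ha, b, hb', rfl⟩]
  refine ⟨v₁, h1, v₂, h2, abs_pos.1 hd, ?_⟩
  have hsub : Y ⊆ Lm v₁ v₂ '' {q : ℂ | q.re ∈ Icc (-2 : ℝ) 2 ∧ q.im ∈ Icc (-2 : ℝ) 2} :=
    fun a ha => ⟨⟨det2 a v₂ / det2 v₁ v₂, det2 v₁ a / det2 v₁ v₂⟩,
      ⟨abs_le.1 (hmax a ha v₂ h2), abs_le.1 (hmax v₁ h1 a ha)⟩, (cramer (abs_pos.1 hd) a).symm⟩
  refine (measure_mono hsub).trans_eq ?_
  rw [Measure.addHaar_image_linearMap, det_Lm, vol_box, ← ENNReal.ofReal_mul (by norm_num),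
    ← ENNReal.ofReal_mul hd.le]
  congr 1
  ring

lemma para {C : Set ℂ} (hC : Convex ℝ C) {y v w : ℂ} (h1 : y + v ∈ C) (h2 : y - v ∈ C)
    (h3 : y + w ∈ C) : ENNReal.ofReal (|det2 v w| / 2) ≤ volume C := by
  have hsub : Lm v w '' {q : ℂ | q.re ∈ Icc (-(1 / 2) : ℝ) (1 / 2) ∧ q.im ∈ Icc (0 : ℝ) (1 / 2)}
      ⊆ (fun z => y + z) ⁻¹' C := by
    rintro _ ⟨q, ⟨⟨a1, a2⟩, ⟨a3, a4⟩⟩, rfl⟩
    have := hC.sum_mem (t := Finset.univ)
      (w := ![q.im, (1 - q.im) / 2 + q.re / 2, (1 - q.im) / 2 - q.re / 2])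
      (z := ![y + w, y + v, y - v])
      (by intro i _; fin_cases i <;> simp <;> linarith)
      (by simp [Fin.sum_univ_three]; ring)
      (by intro i _; fin_cases i <;> simpa)
    simp only [Fin.sum_univ_three, Matrix.cons_val_zero, Matrix.cons_val_one,
      Matrix.cons_val] at this
    change y + (q.re • v + q.im • w) ∈ C
    convert this using 1
    module
  have := measure_mono (μ := volume) hsub
  rw [measure_preimage_add, Measure.addHaar_image_linearMap, det_Lm, vol_box,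
    ← ENNReal.ofReal_mul (by norm_num), ← ENNReal.ofReal_mul (abs_nonneg _)] at this
  convert this using 2
  ring

lemma strip {v₁ v₂ : ℂ} (h : det2 v₁ v₂ ≠ 0) {P : Set ℂ} {r : ℝ} (hr : 0 ≤ r)
    (hP : ∀ p ∈ P, ∀ p' ∈ P, |inner ℝ (p - p') v₁| ≤ r ∧ |inner ℝ (p - p') v₂| ≤ r) :
    volume P ≤ ENNReal.ofReal (4 * r ^ 2 / |det2 v₁ v₂|) := by
  rcases P.eq_empty_or_nonempty with rfl | ⟨p', hp'⟩
  · simp
  have hsub : P ⊆ (fun p => p + -p') ⁻¹'
      (Mm v₁ v₂ ⁻¹' {q : ℂ | q.re ∈ Icc (-r) r ∧ q.im ∈ Icc (-r) r}) := fun p hp => by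
    have := hP p hp p' hp'
    rw [inner_eq, inner_eq, sub_eq_add_neg] at this
    exact ⟨abs_le.1 this.1, abs_le.1 this.2⟩
  refine (measure_mono hsub).trans_eq ?_
  rw [measure_preimage_add_right, Measure.addHaar_preimage_linearMap _ (by rwa [det_Mm]), det_Mm,
    vol_box, ← ENNReal.ofReal_mul (by linarith), ← ENNReal.ofReal_mul (abs_nonneg _), abs_inv]
  congr 1
  ring

variable {Ω : Set ℂ} {u m : ℂ → ℝ}

/-- the cap -/
def T (Ω : Set ℂ) (u m : ℂ → ℝ) (p : ℂ) (s : ℝ) : Set ℂ := {y | y ∈ Ω ∧ psi u m p y ≤ s}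

/-- the symmetric section -/
def Y (Ω : Set ℂ) (u : ℂ → ℝ) (s : ℝ) (y : ℂ) : Set ℂ :=
  {v | y + v ∈ Ω ∧ y - v ∈ Ω ∧ u (y + v) + u (y - v) - 2 * u y ≤ 2 * s}

lemma psi_sum (u m : ℂ → ℝ) (p y v : ℂ) : psi u m p (y + v) + psi u m p (y - v) =
    u (y + v) + u (y - v) - 2 * u y + 2 * psi u m p y := by
  simp only [psi, inner_add_right, inner_sub_right]; ring

lemma psi_cvx (h : Cap Ω u m) (p : ℂ) {x y : ℂ} (hx : x ∈ Ω) (hy : y ∈ Ω) {a b : ℝ} (ha : 0 ≤ a)
    (hb : 0 ≤ b) (hab : a + b = 1) :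
    psi u m p (a • x + b • y) ≤ a * psi u m p x + b * psi u m p y := by
  have := h.cvx.2 hx hy ha hb hab
  simp only [psi, inner_add_right, inner_smul_right, smul_eq_mul] at this ⊢
  have e : m p = a * m p + b * m p := by rw [← add_mul, hab, one_mul]
  linarith

lemma T_cvx (h : Cap Ω u m) (p : ℂ) (s : ℝ) : Convex ℝ (T Ω u m p s) := by
  intro x hx y hy a b ha hb hab
  refine ⟨h.cvx.1 hx.1 hy.1 ha hb hab, (psi_cvx h p hx.1 hy.1 ha hb hab).trans ?_⟩
  have e : s = a * s + b * s := by rw [← add_mul, hab, one_mul]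
  linarith [mul_le_mul_of_nonneg_left hx.2 ha, mul_le_mul_of_nonneg_left hy.2 hb]

lemma Y_cvx (h : Cap Ω u m) (s : ℝ) (y : ℂ) : Convex ℝ (Y Ω u s y) := by
  intro v hv w hw a b ha hb hab
  have e1 : y + (a • v + b • w) = a • (y + v) + b • (y + w) := by
    have : y = a • y + b • y := by rw [← add_smul, hab, one_smul]
    rw [smul_add, smul_add]; linear_combination this
  have e2 : y - (a • v + b • w) = a • (y - v) + b • (y - w) := by
    have : y = a • y + b • y := by rw [← add_smul, hab, one_smul]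
    rw [smul_sub, smul_sub]; linear_combination this
  refine ⟨e1 ▸ h.cvx.1 hv.1 hw.1 ha hb hab, e2 ▸ h.cvx.1 hv.2.1 hw.2.1 ha hb hab, ?_⟩
  rw [e1, e2]
  have a1 := h.cvx.2 hv.1 hw.1 ha hb hab
  have a2 := h.cvx.2 hv.2.1 hw.2.1 ha hb hab
  simp only [smul_eq_mul] at a1 a2
  have e : 2 * s + 2 * u y = a * (2 * s + 2 * u y) + b * (2 * s + 2 * u y) := by
    rw [← add_mul, hab, one_mul]
  nlinarith [mul_le_mul_of_nonneg_left hv.2.2 ha, mul_le_mul_of_nonneg_left hw.2.2 hb]

lemma Y_neg {s : ℝ} {y v : ℂ} (hv : v ∈ Y Ω u s y) : -v ∈ Y Ω u s y := by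
  refine ⟨by simpa [sub_eq_add_neg] using hv.2.1, by simpa using hv.1, ?_⟩
  rw [sub_neg_eq_add, ← sub_eq_add_neg]
  linarith [hv.2.2]

lemma Y_bdd (h : Cap Ω u m) (s : ℝ) (y : ℂ) : Bornology.IsBounded (Y Ω u s y) := by
  obtain ⟨R, hR⟩ := h.bdd.exists_norm_le
  refine isBounded_iff_forall_norm_le.2 ⟨R + ‖y‖, fun v hv => ?_⟩
  calc ‖v‖ = ‖(y + v) - y‖ := by simp
    _ ≤ ‖y + v‖ + ‖y‖ := norm_sub_le _ _
    _ ≤ _ := by gcongr; exact hR _ hv.1

lemma add_mem_T (h : Cap Ω u m) {p y v : ℂ} {s : ℝ} (hy : y ∈ T Ω u m p s) (hv : v ∈ Y Ω u s y) :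
    y + v ∈ T Ω u m p (4 * s) ∧ y - v ∈ T Ω u m p (4 * s) := by
  have e := psi_sum u m p y v
  have a1 := h.nonneg p _ hv.1
  have a2 := h.nonneg p _ hv.2.1
  exact ⟨⟨hv.1, by linarith [hv.2.2, hy.2]⟩, ⟨hv.2.1, by linarith [hv.2.2, hy.2]⟩⟩

lemma inner_le (h : Cap Ω u m) {p p' y v : ℂ} {s : ℝ} (hy : y ∈ T Ω u m p s)
    (hy' : y ∈ T Ω u m p' s) (hv : v ∈ Y Ω u s y) : |inner ℝ (p - p') v| ≤ 4 * s := by
  obtain ⟨a1, a2⟩ := add_mem_T h hy hv
  obtain ⟨a3, a4⟩ := add_mem_T h hy' hv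
  have b1 := h.nonneg p _ hv.1
  have b2 := h.nonneg p _ hv.2.1
  have b3 := h.nonneg p' _ hv.1
  have b4 := h.nonneg p' _ hv.2.1
  have e : 2 * inner ℝ (p - p') v = (psi u m p (y + v) - psi u m p (y - v)) -
      (psi u m p' (y + v) - psi u m p' (y - v)) := by
    simp only [psi, inner_add_right, inner_sub_right, inner_sub_left]; ring
  rw [abs_le]
  constructor <;> linarith [a1.2, a2.2, a3.2, a4.2]

lemma meas_T (h : Cap Ω u m) (s : ℝ) : MeasurableSet {z : ℂ × ℂ | z.2 ∈ T Ω u m z.1 s} := by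
  have h1 := h.meas
  have h2 := h.mcont.measurable
  have h3 : MeasurableSet {z : ℂ × ℂ | psi u m z.1 z.2 ≤ s} := by
    refine measurableSet_le ?_ measurable_const
    unfold psi
    fun_prop
  exact (measurable_snd h.op.measurableSet).inter h3

lemma meas_T' (h : Cap Ω u m) (p : ℂ) (s : ℝ) : MeasurableSet (T Ω u m p s) :=
  measurable_prodMk_left (meas_T h s)

lemma meas_Y (h : Cap Ω u m) (s : ℝ) : MeasurableSet {z : ℂ × ℂ | z.2 ∈ Y Ω u s z.1} := by
  have h1 := h.meas
  have a1 : Measurable fun z : ℂ × ℂ => z.1 + z.2 := by fun_prop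
  have a2 : Measurable fun z : ℂ × ℂ => z.1 - z.2 := by fun_prop
  have a3 : MeasurableSet {z : ℂ × ℂ | u (z.1 + z.2) + u (z.1 - z.2) - 2 * u z.1 ≤ 2 * s} :=
    measurableSet_le (by fun_prop) measurable_const
  exact (a1 h.op.measurableSet).inter ((a2 h.op.measurableSet).inter a3)

lemma meas_volY (h : Cap Ω u m) (s : ℝ) : Measurable fun y => volume (Y Ω u s y) :=
  measurable_measure_prodMk_left (meas_Y h s)

lemma sq_le (h : Cap Ω u m) (p : ℂ) (s : ℝ) :
    volume (T Ω u m p s) ^ 2 ≤ 4 * ∫⁻ y in T Ω u m p s, volume (Y Ω u s y) := by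
  have mT := meas_T' h p s
  let S : Set (ℂ × ℂ) := {z | z.1 ∈ T Ω u m p s ∧ z.2 - z.1 ∈ Y Ω u s z.1}
  have mS : MeasurableSet S := by
    have a : Measurable fun z : ℂ × ℂ => (z.1, z.2 - z.1) := by fun_prop
    exact (measurable_fst mT).inter (a (meas_Y h s))
  have e1 : (volume : Measure ℂ).prod volume S = ∫⁻ y in T Ω u m p s, volume (Y Ω u s y) := by
    rw [Measure.prod_apply mS, ← lintegral_indicator mT]
    refine lintegral_congr fun y => ?_
    by_cases hy : y ∈ T Ω u m p s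
    · rw [indicator_of_mem hy, ← measure_preimage_add_right volume (-y) (Y Ω u s y)]
      congr 1
      ext z
      simp [S, hy, sub_eq_add_neg]
    · rw [indicator_of_notMem hy]
      have : Prod.mk y ⁻¹' S = ∅ := by ext z; simp [S, hy]
      rw [this, measure_empty]
  rw [← e1, Measure.prod_apply_symm mS, ← lintegral_const_mul' _ _ (by simp), pow_two,
    ← setLIntegral_const, ← lintegral_indicator mT]
  refine lintegral_mono fun z => ?_
  by_cases hz : z ∈ T Ω u m p s
  · rw [indicator_of_mem hz]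
    have hsub : ((2 : ℝ) • ·) ⁻¹' ((fun w => w + -z) ⁻¹' T Ω u m p s) ⊆
        (fun x => (x, z)) ⁻¹' S := by
      intro y hy
      have hy' : (2 : ℝ) • y + -z ∈ T Ω u m p s := hy
      have e2 : y + (z - y) = z := by ring
      have e3 : y - (z - y) = (2 : ℝ) • y + -z := by rw [two_smul]; ring
      have hyT : y ∈ T Ω u m p s := by
        have := T_cvx h p s hz hy' (a := 1 / 2) (b := 1 / 2) (by norm_num) (by norm_num)
          (by norm_num)
        convert this using 1
        module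
      refine ⟨hyT, ?_, ?_, ?_⟩
      · simp only [e2]; exact hz.1
      · simp only [e3]; exact hy'.1
      · have e4 := psi_sum u m p y (z - y)
        have a1 := h.nonneg p y hyT.1
        simp only [e2, e3] at e4 ⊢
        linarith [hz.2, hy'.2]
    have := measure_mono (μ := volume) hsub
    rw [Measure.addHaar_preimage_smul _ (by norm_num), measure_preimage_add_right,
      Complex.finrank_real_complex] at this
    refine le_trans (le_of_eq ?_) (mul_le_mul_right this 4)
    rw [← mul_assoc, ← ENNReal.ofReal_ofNat 4, ← ENNReal.ofReal_mul (by norm_num)]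
    norm_num
  · rw [indicator_of_notMem hz]
    exact zero_le

lemma dilate (h : Cap Ω u m) (p : ℂ) {s l : ℝ} (hs : 0 < s) (hl : 1 ≤ l) :
    volume (T Ω u m p (l * s)) ≤ ENNReal.ofReal ((2 * l) ^ 2) * volume (T Ω u m p s) := by
  obtain ⟨c, hc, hc'⟩ := h.inf0 p (s / 2) (by positivity)
  have hl0 : 0 < l := by linarith
  have hsub : AffineMap.homothety c (2 * l)⁻¹ '' T Ω u m p (l * s) ⊆ T Ω u m p s := by
    rintro _ ⟨y, hy, rfl⟩
    have a0 : (0 : ℝ) ≤ (2 * l)⁻¹ := by positivity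
    have a1 : (2 * l)⁻¹ ≤ 1 := inv_le_one_of_one_le₀ (by linarith)
    have e : AffineMap.homothety c (2 * l)⁻¹ y = (2 * l)⁻¹ • y + (1 - (2 * l)⁻¹) • c := by
      rw [AffineMap.homothety_apply, vsub_eq_sub, vadd_eq_add]
      module
    rw [e]
    refine ⟨h.cvx.1 hy.1 hc a0 (by linarith) (by ring),
      (psi_cvx h p hy.1 hc a0 (by linarith) (by ring)).trans ?_⟩
    have a2 : (2 * l)⁻¹ * psi u m p y ≤ s / 2 := by
      calc _ ≤ (2 * l)⁻¹ * (l * s) := mul_le_mul_of_nonneg_left hy.2 a0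
        _ = _ := by field_simp
    have a3 := h.nonneg p c hc
    nlinarith
  have := measure_mono (μ := volume) hsub
  rw [Measure.addHaar_image_homothety, Complex.finrank_real_complex] at this
  refine le_trans (le_of_eq ?_) (mul_le_mul_right this _)
  rw [← mul_assoc, ← ENNReal.ofReal_mul (by positivity), abs_of_pos (by positivity), ← mul_pow,
    mul_inv_cancel₀ (by positivity)]
  simp

lemma T_pos (h : Cap Ω u m) (p : ℂ) {s : ℝ} (hs : 0 < s) : volume (T Ω u m p s) ≠ 0 := by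
  obtain ⟨c, hc, hc'⟩ := h.inf0 p s hs
  have h1 : ContinuousOn (psi u m p) Ω := by
    have h1 := h.cvx.continuousOn h.op
    unfold psi
    exact (h1.add (by fun_prop)).sub continuousOn_const
  have h2 : IsOpen (Ω ∩ psi u m p ⁻¹' Iio s) := h1.isOpen_inter_preimage h.op isOpen_Iio
  have h3 : Ω ∩ psi u m p ⁻¹' Iio s ⊆ T Ω u m p s := fun y hy => ⟨hy.1, le_of_lt hy.2⟩
  exact ((h2.measure_pos volume ⟨c, hc, hc'⟩).trans_le (measure_mono h3)).ne'

lemma T_fin (h : Cap Ω u m) (p : ℂ) (s : ℝ) : volume (T Ω u m p s) ≠ ∞ :=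
  ((measure_mono fun _ hy => hy.1).trans_lt h.bdd.measure_lt_top).ne

lemma Y_le (h : Cap Ω u m) {p y : ℂ} {s : ℝ} (hs : 0 < s) (hy : y ∈ T Ω u m p s) :
    volume (Y Ω u s y) ≤ 64 * volume (T Ω u m p s) := by
  have h1 : Y Ω u s y ⊆ (fun v => y + v) ⁻¹' T Ω u m p (4 * s) := fun v hv => (add_mem_T h hy hv).1
  refine (measure_mono h1).trans ?_
  rw [measure_preimage_add]
  refine (dilate h p hs (by norm_num)).trans_eq ?_
  norm_num

end CapGeoAux

open CapGeoAux

theorem measurable_Acap {Ω : Set ℂ} {u m : ℂ → ℝ} (h : Cap Ω u m) (s : ℝ) :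
    Measurable fun p => Acap Ω u m p s :=
  measurable_measure_prodMk_left (meas_T h s)

theorem cap_area {Ω : Set ℂ} {u m : ℂ → ℝ} (h : Cap Ω u m) (p₀ : ℂ) (ρ : ℝ) {s : ℝ} (hs : 0 < s) :
    ∫⁻ p in Metric.closedBall p₀ ρ, Acap Ω u m p s ^ 2 ≤
      ENNReal.ofReal (4096 * s ^ 2) * volume (Near Ω u m p₀ ρ (2 * s)) := by
  let Z : Set (ℂ × ℂ) := {z | z.1 ∈ Metric.closedBall p₀ ρ ∧ z.2 ∈ T Ω u m z.1 s}
  have mZ : MeasurableSet Z := (measurable_fst measurableSet_closedBall).inter (meas_T h s)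
  have mF : Measurable fun z : ℂ × ℂ => Z.indicator (fun z => 4 * volume (Y Ω u s z.2)) z :=
    (((meas_volY h s).comp measurable_snd).const_mul 4).indicator mZ
  calc _ ≤ ∫⁻ p, ∫⁻ y, Z.indicator (fun z => 4 * volume (Y Ω u s z.2)) (p, y) := by
        rw [← lintegral_indicator measurableSet_closedBall]
        refine lintegral_mono fun p => ?_
        by_cases hp : p ∈ Metric.closedBall p₀ ρ
        · rw [indicator_of_mem hp]
          refine (sq_le h p s).trans_eq ?_
          rw [← lintegral_const_mul' _ _ (by simp), ← lintegral_indicator (meas_T' h p s)]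
          refine lintegral_congr fun y => ?_
          by_cases hy : y ∈ T Ω u m p s
          · rw [indicator_of_mem hy, indicator_of_mem (show (p, y) ∈ Z from ⟨hp, hy⟩)]
          · rw [indicator_of_notMem hy, indicator_of_notMem fun hz : (p, y) ∈ Z => hy hz.2]
        · rw [indicator_of_notMem hp]
          exact zero_le
    _ = ∫⁻ y, ∫⁻ p, Z.indicator (fun z => 4 * volume (Y Ω u s z.2)) (p, y) :=
        lintegral_lintegral_swap mF.aemeasurable
    _ ≤ ∫⁻ y, (Near Ω u m p₀ ρ (2 * s)).indicator (fun _ => ENNReal.ofReal (4096 * s ^ 2)) y := by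
        refine lintegral_mono fun y => ?_
        have e : ∫⁻ p, Z.indicator (fun z => 4 * volume (Y Ω u s z.2)) (p, y) =
            4 * volume (Y Ω u s y) * volume ((fun p => (p, y)) ⁻¹' Z) := by
          rw [← lintegral_indicator_const (measurable_prodMk_right mZ)]
          rfl
        rw [e]
        rcases ((fun p => (p, y)) ⁻¹' Z).eq_empty_or_nonempty with h0 | ⟨p, hp⟩
        · simp [h0]
        rw [indicator_of_mem (show y ∈ Near Ω u m p₀ ρ (2 * s) from
          ⟨hp.2.1, p, hp.1, by linarith [hp.2.2]⟩)]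
        by_cases hY : volume (Y Ω u s y) = 0
        · simp [hY]
        obtain ⟨v₁, h1, v₂, h2, hd, hv⟩ := pick (Y_bdd h s y) hY
        have hP := strip hd (P := (fun p => (p, y)) ⁻¹' Z) (r := 4 * s) (by positivity)
          fun p hp p' hp' => ⟨inner_le h hp.2 hp'.2 h1, inner_le h hp.2 hp'.2 h2⟩
        have hd' := abs_pos.2 hd
        calc _ ≤ 4 * ENNReal.ofReal (16 * |det2 v₁ v₂|) *
              ENNReal.ofReal (4 * (4 * s) ^ 2 / |det2 v₁ v₂|) := by gcongr
          _ = _ := by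
              rw [← ENNReal.ofReal_ofNat 4, ← ENNReal.ofReal_mul (by norm_num),
                ← ENNReal.ofReal_mul (by positivity)]
              congr 1
              field_simp
              ring
    _ ≤ _ := lintegral_indicator_const_le _ _

theorem central : ∃ C₀ C₁ : ℝ, 0 < C₀ ∧ 0 < C₁ ∧ ∀ (Ω : Set ℂ) (u m : ℂ → ℝ), Cap Ω u m →
    ∀ s > 0, ∀ (p₀ : ℂ) (ρ : ℝ) (Φ : ℂ → ℝ≥0∞), Measurable Φ → ∀ D : ℝ≥0∞,
    (∀ y ∈ Ω, ∀ v₁ v₂ : ℂ, det2 v₁ v₂ ≠ 0 → ∀ P : Set ℂ, MeasurableSet P →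
      (∀ p ∈ P, p ∈ Metric.closedBall p₀ ρ ∧ psi u m p y ≤ s ∧ ∀ v : ℂ, y + v ∈ Ω →
        psi u m p (y + v) ≤ 8 * s → ∃ q : ℂ, ‖q‖ < C₀ ∧ v = q.re • v₁ + q.im • v₂) →
      (∀ p ∈ P, ∀ p' ∈ P, |inner ℝ (p - p') v₁| ≤ 4 * s ∧ |inner ℝ (p - p') v₂| ≤ 4 * s) →
      ∫⁻ p in P, Φ p ≤ D * ENNReal.ofReal |det2 v₁ v₂|) →
    ∫⁻ p in Metric.closedBall p₀ ρ, Φ p ≤
      ENNReal.ofReal C₁ * D * volume (Near Ω u m p₀ ρ (2 * s)) := by
  refine ⟨131073, 65536, by norm_num, by norm_num, ?_⟩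
  intro Ω u m h s hs p₀ ρ Φ hΦ D hD
  let Z : Set (ℂ × ℂ) := {z | z.1 ∈ Metric.closedBall p₀ ρ ∧ z.2 ∈ T Ω u m z.1 s ∧
    volume (T Ω u m z.1 s) ≤ 8 * volume (Y Ω u s z.2)}
  have mZ : MeasurableSet Z := by
    have a : MeasurableSet {z : ℂ × ℂ | volume (T Ω u m z.1 s) ≤ 8 * volume (Y Ω u s z.2)} :=
      measurableSet_le ((measurable_Acap h s).comp measurable_fst)
        (((meas_volY h s).comp measurable_snd).const_mul 8)
    exact (measurable_fst measurableSet_closedBall).inter ((meas_T h s).inter a)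
  let F : ℂ × ℂ → ℝ≥0∞ := fun z => 32768 * (volume (Y Ω u s z.2))⁻¹ * Φ z.1
  have mF : Measurable fun z : ℂ × ℂ => Z.indicator F z :=
    ((((meas_volY h s).comp measurable_snd).inv.const_mul 32768).mul
      (hΦ.comp measurable_fst)).indicator mZ
  calc _ ≤ ∫⁻ p, ∫⁻ y, Z.indicator F (p, y) := by
        rw [← lintegral_indicator measurableSet_closedBall]
        refine lintegral_mono fun p => ?_
        by_cases hp : p ∈ Metric.closedBall p₀ ρ
        swap
        · rw [indicator_of_notMem hp]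
          exact zero_le
        rw [indicator_of_mem hp]
        have mT := meas_T' h p s
        have mZp : MeasurableSet (Prod.mk p ⁻¹' Z) := measurable_prodMk_left mZ
        have A0 := T_pos h p hs
        have A1 := T_fin h p s
        set A := volume (T Ω u m p s) with hA
        set W := volume (Prod.mk p ⁻¹' Z) with hW
        have h1 : A ≤ 512 * W := by
          have b1 : ∫⁻ y in T Ω u m p s, 8 * volume (Y Ω u s y) ≤
              ∫⁻ y in T Ω u m p s, (A + (Prod.mk p ⁻¹' Z).indicator (fun _ => 512 * A) y) := by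
            refine setLIntegral_mono' mT fun y hy => ?_
            by_cases hz : y ∈ Prod.mk p ⁻¹' Z
            · rw [indicator_of_mem hz]
              calc _ ≤ 8 * (64 * A) := mul_le_mul_right (Y_le h hs hy) _
                _ = 512 * A := by ring
                _ ≤ _ := le_add_self
            · have : ¬ A ≤ 8 * volume (Y Ω u s y) := fun hc => hz ⟨hp, hy, hc⟩
              exact (not_le.1 this).le.trans le_self_add
          rw [lintegral_const_mul' _ _ (by simp), lintegral_add_left measurable_const,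
            setLIntegral_const] at b1
          have b2 : ∫⁻ y in T Ω u m p s, (Prod.mk p ⁻¹' Z).indicator (fun _ => 512 * A) y ≤
              512 * A * W :=
            (setLIntegral_le_lintegral _ _).trans (lintegral_indicator_const_le _ _)
          have b3 : A * A + A * A ≤ A * A + A * (512 * W) := by
            calc A * A + A * A = 2 * A ^ 2 := by ring
              _ ≤ 2 * (4 * ∫⁻ y in T Ω u m p s, volume (Y Ω u s y)) :=
                  mul_le_mul_right (sq_le h p s) _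
              _ = 8 * ∫⁻ y in T Ω u m p s, volume (Y Ω u s y) := by ring
              _ ≤ A * A + 512 * A * W := b1.trans (add_le_add_right b2 _)
              _ = _ := by ring
          exact (ENNReal.mul_le_mul_iff_right A0 A1).1
            ((ENNReal.add_le_add_iff_left (ENNReal.mul_ne_top A1 A1)).1 b3)
        calc Φ p = 512 * A⁻¹ * Φ p * (A / 512) := by
              have e1 : A⁻¹ * A = 1 := ENNReal.inv_mul_cancel A0 A1
              have e2 : (512 : ℝ≥0∞) * 512⁻¹ = 1 := ENNReal.mul_inv_cancel (by simp) (by simp)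
              rw [div_eq_mul_inv]
              calc Φ p = (A⁻¹ * A) * (512 * 512⁻¹) * Φ p := by rw [e1, e2, one_mul, one_mul]
                _ = _ := by ring
          _ ≤ 512 * A⁻¹ * Φ p * W := by
              gcongr
              exact ENNReal.div_le_of_le_mul' h1
          _ = ∫⁻ y, (Prod.mk p ⁻¹' Z).indicator (fun _ => 512 * A⁻¹ * Φ p) y :=
              (lintegral_indicator_const mZp _).symm
          _ ≤ _ := by
              refine lintegral_mono fun y => ?_
              by_cases hz : y ∈ Prod.mk p ⁻¹' Z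
              · rw [indicator_of_mem hz, indicator_of_mem (show (p, y) ∈ Z from hz)]
                simp only [F]
                gcongr ?_ * _
                have e1 : (64 * A)⁻¹ ≤ (volume (Y Ω u s y))⁻¹ :=
                  ENNReal.inv_le_inv.2 (Y_le h hs hz.2.1)
                refine le_trans (le_of_eq ?_) (mul_le_mul_right e1 _)
                have e2 : (64 : ℝ≥0∞) * 64⁻¹ = 1 := ENNReal.mul_inv_cancel (by simp) (by simp)
                rw [ENNReal.mul_inv (Or.inl (by simp)) (Or.inl (by simp))]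
                calc 512 * A⁻¹ = 512 * (64 * 64⁻¹) * A⁻¹ := by rw [e2, mul_one]
                  _ = _ := by ring
              · rw [indicator_of_notMem hz]
                exact zero_le
    _ = ∫⁻ y, ∫⁻ p, Z.indicator F (p, y) := lintegral_lintegral_swap mF.aemeasurable
    _ ≤ ∫⁻ y, (Near Ω u m p₀ ρ (2 * s)).indicator (fun _ => ENNReal.ofReal 65536 * D) y := by
        refine lintegral_mono fun y => ?_
        have mP : MeasurableSet ((fun p => (p, y)) ⁻¹' Z) := measurable_prodMk_right mZ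
        have e : ∫⁻ p, Z.indicator F (p, y) =
            32768 * (volume (Y Ω u s y))⁻¹ * ∫⁻ p in (fun p => (p, y)) ⁻¹' Z, Φ p := by
          rw [← lintegral_const_mul _ hΦ, ← lintegral_indicator mP]
          rfl
        rw [e]
        rcases ((fun p => (p, y)) ⁻¹' Z).eq_empty_or_nonempty with h0 | ⟨p, hp⟩
        · simp [h0]
        rw [indicator_of_mem (show y ∈ Near Ω u m p₀ ρ (2 * s) from
          ⟨hp.2.1.1, p, hp.1, by linarith [hp.2.1.2]⟩)]
        have hY : volume (Y Ω u s y) ≠ 0 := fun h0 => T_pos h p hs (by simpa [h0] using hp.2.2)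
        obtain ⟨v₁, h1, v₂, h2, hd, hv⟩ := pick (Y_bdd h s y) hY
        have hd' := abs_pos.2 hd
        have hI := hD y hp.2.1.1 v₁ v₂ hd _ mP ?_
          fun p hp p' hp' => ⟨inner_le h hp.2.1 hp'.2.1 h1, inner_le h hp.2.1 hp'.2.1 h2⟩
        · have b1 : ENNReal.ofReal (|det2 v₁ v₂| / 2) ≤ volume (Y Ω u s y) :=
            para (Y_cvx h s y) (y := 0) (by simpa using h1) (by simpa using Y_neg h1)
              (by simpa using h2)
          calc _ ≤ 32768 * (ENNReal.ofReal (|det2 v₁ v₂| / 2))⁻¹ *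
                (D * ENNReal.ofReal |det2 v₁ v₂|) := by gcongr
            _ = 32768 * (ENNReal.ofReal (|det2 v₁ v₂| / 2))⁻¹ *
                ENNReal.ofReal |det2 v₁ v₂| * D := by ring
            _ = _ := by
                rw [← ENNReal.ofReal_inv_of_pos (by positivity), ← ENNReal.ofReal_ofNat 32768,
                  ← ENNReal.ofReal_mul (by norm_num), ← ENNReal.ofReal_mul (by positivity)]
                congr 2
                field_simp
                norm_num
        · intro p hp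
          refine ⟨hp.1, hp.2.1.2, fun v hv1 hv2 => ?_⟩
          have key : ∀ w ∈ Y Ω u s y, |det2 w v / det2 v₁ v₂| ≤ 65536 := by
            intro w hw
            obtain ⟨a1, a2⟩ := add_mem_T h hp.2.1 hw
            have a3 := para (T_cvx h p (8 * s)) (y := y) (v := w) (w := v)
              ⟨a1.1, by linarith [a1.2]⟩ ⟨a2.1, by linarith [a2.2]⟩ ⟨hv1, hv2⟩
            have a4 : ENNReal.ofReal (|det2 w v| / 2) ≤
                ENNReal.ofReal ((2 * 8) ^ 2) * (8 * ENNReal.ofReal (16 * |det2 v₁ v₂|)) :=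
              (a3.trans (dilate h p hs (by norm_num))).trans
                (mul_le_mul_right (hp.2.2.trans (mul_le_mul_right hv _)) _)
            rw [← ENNReal.ofReal_ofNat 8, ← ENNReal.ofReal_mul (by norm_num),
              ← ENNReal.ofReal_mul (by norm_num),
              ENNReal.ofReal_le_ofReal_iff (by positivity)] at a4
            rw [abs_div, div_le_iff₀ hd']
            linarith
          refine ⟨⟨det2 v v₂ / det2 v₁ v₂, det2 v₁ v / det2 v₁ v₂⟩, ?_, cramer hd v⟩
          refine (norm_le_abs_re_add_abs_im _).trans_lt ?_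
          have k1 := key v₁ h1
          have k2 := key v₂ h2
          rw [abs_div, abs_det2_comm, ← abs_div] at k2
          simp only
          linarith
    _ ≤ _ := lintegral_indicator_const_le _ _

end Pool.Agent.MP_f27d50_gt
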