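import Pool.Agent.MP_f27d50_gt.Defs

set_option autoImplicit false

open MeasureTheory Set Filter Topology Complex
open scoped ENNReal Pointwise ComplexConjugate FourierTransform

noncomputable section

namespace Pool.Agent.MP_f27d50_gt

namespace En

theorem meas_grad (u : ℂ → ℝ) : Measurable (fun y => -gradient u y) := by
  unfold gradient
  exact ((InnerProductSpace.toDual ℝ ℂ).symm.continuous.measurable.comp
    (measurable_fderiv ℝ u)).neg

theorem fin_restrict {Ω : Set ℂ} {u m : ℂ → ℝ} (h : Cap Ω u m) :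
    IsFiniteMeasure (volume.restrict Ω) :=
  isFiniteMeasure_restrict.2 h.bdd.measure_lt_top.ne

theorem fin_gam {Ω : Set ℂ} {u m : ℂ → ℝ} (h : Cap Ω u m) : IsFiniteMeasure (Gam Ω u) := by
  have := fin_restrict h
  unfold Gam
  infer_instance

/-- difference phase -/
def E (u : ℂ → ℝ) (τ : ℝ) (y' y : ℂ) : ℂ := Complex.exp (-(I * τ * ((u y - u y' : ℝ) : ℂ)))

theorem norm_exp_neg (τ t : ℝ) : ‖Complex.exp (-(I * τ * (t : ℂ)))‖ = 1 := by
  rw [Complex.norm_exp]
  simp

theorem norm_E (u : ℂ → ℝ) (τ : ℝ) (y' y : ℂ) : ‖E u τ y' y‖ = 1 := norm_exp_neg _ _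

theorem normsq_TT {Ω : Set ℂ} {u m : ℂ → ℝ} (p : ℂ) (τ : ℝ) :
    ((‖TT Ω u m p τ‖ ^ 2 : ℝ) : ℂ) =
      ∫ z : ℂ × ℂ, E u τ z.1 z.2 * Complex.exp (((-2 * Real.pi *
        inner ℝ p ((τ / (2 * Real.pi)) • (z.2 - z.1)) : ℝ) : ℂ) * I)
        ∂((volume.restrict Ω).prod (volume.restrict Ω)) := by
  have h1 : ((‖TT Ω u m p τ‖ ^ 2 : ℝ) : ℂ) = conj (TT Ω u m p τ) * TT Ω u m p τ := by
    rw [Complex.conj_mul']; push_cast; rfl
  rw [h1]
  unfold TT
  rw [← integral_conj, ← integral_prod_mul]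
  refine integral_congr_ae (Eventually.of_forall fun z => ?_)
  simp only [E]
  rw [← Complex.exp_conj, ← Complex.exp_add, ← Complex.exp_add]
  congr 1
  have hpi : (Real.pi : ℂ) ≠ 0 := by exact_mod_cast Real.pi_ne_zero
  simp only [psi, inner_smul_right, inner_sub_right, map_neg, map_mul, Complex.conj_I,
    Complex.conj_ofReal]
  push_cast
  field_simp
  ring

theorem cont_TT {Ω : Set ℂ} {u m : ℂ → ℝ} (h : Cap Ω u m) (τ : ℝ) :
    Continuous (fun p => TT Ω u m p τ) := by
  have := fin_restrict h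
  unfold TT
  refine continuous_of_dominated (bound := fun _ => 1) (fun p => ?_) (fun p => ?_)
    (integrable_const _) ?_
  · have hm := h.meas
    refine Measurable.aestronglyMeasurable ?_
    unfold psi
    fun_prop
  · exact Eventually.of_forall fun y => (norm_exp_neg _ _).le
  · refine Eventually.of_forall fun y => ?_
    have hm := h.mcont
    unfold psi
    fun_prop

theorem norm_TT_le {Ω : Set ℂ} {u m : ℂ → ℝ} (h : Cap Ω u m) (τ : ℝ) (p : ℂ) :
    ‖TT Ω u m p τ‖ ≤ volume.real Ω := by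
  have := fin_restrict h
  unfold TT
  have := norm_integral_le_of_norm_le_const (μ := volume.restrict Ω)
    (f := fun y => Complex.exp (-(Complex.I * τ * (psi u m p y : ℂ)))) (C := 1)
    (Eventually.of_forall fun y => (norm_exp_neg _ _).le)
  simpa using this

/-- the inner integral -/
def H (Ω : Set ℂ) (u : ℂ → ℝ) (g : ℂ → ℂ) (τ : ℝ) (y' : ℂ) : ℂ :=
  ((τ ^ 2 : ℝ) : ℂ) * ∫ y in Ω, E u τ y' y * g ((τ / (2 * Real.pi)) • (y - y'))

theorem step_a {Ω : Set ℂ} {u m : ℂ → ℝ} (h : Cap Ω u m) {χ : ℂ → ℂ} (hc : Continuous χ)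
    (hi : Integrable χ) (τ : ℝ) :
    ∫ p, χ p * ((τ ^ 2 * ‖TT Ω u m p τ‖ ^ 2 : ℝ) : ℂ) = ∫ y' in Ω, H Ω u (𝓕 χ) τ y' := by
  have := fin_restrict h
  have hm := h.meas
  set μ := (volume.restrict Ω).prod (volume.restrict Ω) with hμ
  let f : ℂ → ℂ × ℂ → ℂ := fun p z => χ p * (E u τ z.1 z.2 * Complex.exp (((-2 * Real.pi *
        inner ℝ p ((τ / (2 * Real.pi)) • (z.2 - z.1)) : ℝ) : ℂ) * I))
  have hf : Integrable (Function.uncurry f) (volume.prod μ) := by
    refine Integrable.mono' (g := fun q : ℂ × (ℂ × ℂ) => ‖χ q.1‖)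
      (hi.norm.comp_fst μ) ?_ ?_
    · refine Measurable.aestronglyMeasurable ?_
      have hcm := hc.measurable
      unfold Function.uncurry
      simp only [f, E]
      fun_prop
    · refine Eventually.of_forall fun q => ?_
      simp only [Function.uncurry, f, norm_mul, norm_E, Complex.norm_exp_ofReal_mul_I]
      simp
  have h1 : ∀ p, χ p * ((τ ^ 2 * ‖TT Ω u m p τ‖ ^ 2 : ℝ) : ℂ) =
      ((τ ^ 2 : ℝ) : ℂ) * ∫ z, f p z ∂μ := by
    intro p
    rw [Complex.ofReal_mul, normsq_TT, integral_const_mul]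
    ring
  have h2 : ∀ z : ℂ × ℂ, ∫ p, f p z =
      E u τ z.1 z.2 * 𝓕 χ ((τ / (2 * Real.pi)) • (z.2 - z.1)) := by
    intro z
    rw [Real.fourier_eq', ← integral_const_mul]
    refine integral_congr_ae (Eventually.of_forall fun p => ?_)
    simp only [f, smul_eq_mul]
    ring
  simp_rw [h1]
  rw [integral_const_mul, integral_integral_swap hf]
  have h3 := hf.swap.integral_prod_left
  simp only [Function.comp_def, Function.uncurry, Prod.fst_swap, Prod.snd_swap] at h3
  simp_rw [h2] at h3 ⊢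
  rw [hμ, integral_prod _ h3]
  unfold H
  rw [integral_const_mul]

theorem step_b {Ω : Set ℂ} (hΩ : MeasurableSet Ω) (u : ℂ → ℝ) (g : ℂ → ℂ) {τ : ℝ} (hτ : 0 < τ)
    (y' : ℂ) : H Ω u g τ y' = (((2 * Real.pi) ^ 2 : ℝ) : ℂ) *
      ∫ v, Ω.indicator (E u τ y') (y' + (2 * Real.pi / τ) • v) * g v := by
  have hpi := Real.pi_pos
  let G : ℂ → ℂ := fun y => Ω.indicator (E u τ y') y * g ((τ / (2 * Real.pi)) • (y - y'))
  have h1 : ∫ y in Ω, E u τ y' y * g ((τ / (2 * Real.pi)) • (y - y')) = ∫ y, G y := by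
    rw [← integral_indicator hΩ]
    refine integral_congr_ae (Eventually.of_forall fun y => ?_)
    by_cases hy : y ∈ Ω <;> simp [G, hy]
  have h2 : ∫ v, Ω.indicator (E u τ y') (y' + (2 * Real.pi / τ) • v) * g v =
      ∫ v : ℂ, (fun w => G (y' + w)) ((2 * Real.pi / τ) • v) := by
    refine integral_congr_ae (Eventually.of_forall fun v => ?_)
    simp only [G, add_sub_cancel_left, smul_smul]
    have : τ / (2 * Real.pi) * (2 * Real.pi / τ) = 1 := by field_simp
    rw [this, one_smul]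
  rw [h2, Measure.integral_comp_smul volume (fun w => G (y' + w)),
    integral_add_left_eq_self G y', H, h1, Complex.finrank_real_complex,
    abs_of_pos (by positivity), Complex.real_smul, ← mul_assoc]
  congr 1
  rw [← Complex.ofReal_mul]
  congr 1
  field_simp

theorem step_c {Ω : Set ℂ} (hΩ : MeasurableSet Ω) (u : ℂ → ℝ) {g : ℂ → ℂ} (hg : Integrable g)
    {τ : ℝ} (hτ : 0 < τ) (y' : ℂ) : ‖H Ω u g τ y'‖ ≤ (2 * Real.pi) ^ 2 * ∫ v, ‖g v‖ := by
  rw [step_b hΩ u g hτ, norm_mul, Complex.norm_real, Real.norm_of_nonneg (by positivity)]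
  refine mul_le_mul_of_nonneg_left ?_ (by positivity)
  refine norm_integral_le_of_norm_le hg.norm (Eventually.of_forall fun v => ?_)
  rw [norm_mul]
  refine mul_le_of_le_one_left (norm_nonneg _) ?_
  exact (norm_indicator_le_norm_self _ _).trans (norm_E _ _ _ _).le

theorem quot_tendsto {u : ℂ → ℝ} {y' : ℂ} (hd : DifferentiableAt ℝ u y') (v : ℂ) :
    Tendsto (fun τ : ℝ => τ * (u (y' + (2 * Real.pi / τ) • v) - u y')) atTop
      (𝓝 (2 * Real.pi * inner ℝ v (gradient u y'))) := by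
  have h1 := hd.hasFDerivAt.lim ((2 * Real.pi) • v) (c := fun τ : ℝ => τ) (l := atTop)
    (tendsto_abs_atTop_atTop.congr fun τ => (Real.norm_eq_abs τ).symm)
  have h2 : fderiv ℝ u y' ((2 * Real.pi) • v) = 2 * Real.pi * inner ℝ v (gradient u y') := by
    rw [map_smul, smul_eq_mul, real_inner_comm]
    congr 1
    unfold gradient
    rw [InnerProductSpace.toDual_symm_apply]
  rw [h2] at h1
  refine h1.congr fun τ => ?_
  rw [smul_eq_mul, smul_smul, div_eq_inv_mul]

theorem step_d {Ω : Set ℂ} {u m : ℂ → ℝ} (h : Cap Ω u m) {χ : ℂ → ℂ} (hc : Continuous χ)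
    (hi : Integrable χ) (hF : Integrable (𝓕 χ)) {y' : ℂ} (hy : y' ∈ Ω)
    (hd : DifferentiableAt ℝ u y') :
    Tendsto (fun τ : ℝ => H Ω u (𝓕 χ) τ y') atTop
      (𝓝 ((((2 * Real.pi) ^ 2 : ℝ) : ℂ) * χ (-gradient u y'))) := by
  have hΩ := h.op.measurableSet
  have hm := h.meas
  have h1 : χ (-gradient u y') = ∫ v, Complex.exp (-(I * ((2 * Real.pi *
      inner ℝ v (gradient u y') : ℝ) : ℂ))) * 𝓕 χ v := by
    conv_lhs => rw [← hc.fourierInv_fourier_eq hi hF, Real.fourierInv_eq']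
    refine integral_congr_ae (Eventually.of_forall fun v => ?_)
    simp only [smul_eq_mul, inner_neg_right]
    congr 2
    push_cast
    ring
  have h2 : Tendsto (fun τ : ℝ => ∫ v, Ω.indicator (E u τ y') (y' + (2 * Real.pi / τ) • v) * 𝓕 χ v)
      atTop (𝓝 (χ (-gradient u y'))) := by
    rw [h1]
    refine tendsto_integral_filter_of_dominated_convergence (fun v => ‖𝓕 χ v‖)
      (Eventually.of_forall fun τ => ?_) (Eventually.of_forall fun τ => ?_) hF.norm ?_
    · refine AEStronglyMeasurable.mul ?_ hF.aestronglyMeasurable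
      refine Measurable.aestronglyMeasurable ?_
      have : Measurable (E u τ y') := by unfold E; fun_prop
      exact (this.indicator hΩ).comp (by fun_prop)
    · refine Eventually.of_forall fun v => ?_
      rw [norm_mul]
      refine mul_le_of_le_one_left (norm_nonneg _) ?_
      exact (norm_indicator_le_norm_self _ _).trans (norm_E _ _ _ _).le
    · refine Eventually.of_forall fun v => ?_
      refine Tendsto.mul_const _ ?_
      have h3 : Tendsto (fun τ : ℝ => y' + (2 * Real.pi / τ) • v) atTop (𝓝 y') := by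
        have : Tendsto (fun τ : ℝ => 2 * Real.pi / τ) atTop (𝓝 0) :=
          tendsto_const_nhds.div_atTop tendsto_id
        simpa using (this.smul_const v).const_add y'
      have h4 := h3.eventually (h.op.mem_nhds hy)
      have h5 : Continuous fun t : ℝ => Complex.exp (-(I * (t : ℂ))) := by fun_prop
      refine ((h5.tendsto _).comp (quot_tendsto hd v)).congr' ?_
      filter_upwards [h4] with τ hτ
      rw [indicator_of_mem hτ]
      simp only [Function.comp, E]
      congr 2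
      push_cast
      ring
  refine (h2.const_mul _).congr' ?_
  filter_upwards [eventually_gt_atTop 0] with τ hτ
  rw [step_b hΩ u _ hτ]

theorem smooth_lim {Ω : Set ℂ} {u m : ℂ → ℝ} (h : Cap Ω u m) {χ : ℂ → ℂ} (hc : Continuous χ)
    (hi : Integrable χ) (hF : Integrable (𝓕 χ)) :
    Tendsto (fun τ : ℝ => ∫ p, χ p * ((τ ^ 2 * ‖TT Ω u m p τ‖ ^ 2 : ℝ) : ℂ)) atTop
      (𝓝 ((((2 * Real.pi) ^ 2 : ℝ) : ℂ) * ∫ p, χ p ∂Gam Ω u)) := by
  have := fin_restrict h
  have hΩ := h.op.measurableSet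
  have hm := h.meas
  simp_rw [step_a h hc hi]
  rw [Gam, integral_map (meas_grad u).aemeasurable hc.aestronglyMeasurable, ← integral_const_mul]
  refine tendsto_integral_filter_of_dominated_convergence
    (fun _ => (2 * Real.pi) ^ 2 * ∫ v, ‖𝓕 χ v‖) (Eventually.of_forall fun τ => ?_) ?_
    (integrable_const _) ?_
  · unfold H
    refine AEStronglyMeasurable.const_mul ?_ _
    have hcF : Continuous (𝓕 χ) := VectorFourier.fourierIntegral_continuous
      Real.continuous_fourierChar (by exact continuous_inner) hi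
    refine StronglyMeasurable.aestronglyMeasurable ?_
    refine StronglyMeasurable.integral_prod_right' (ν := volume.restrict Ω)
      (f := fun z : ℂ × ℂ => E u τ z.1 z.2 * 𝓕 χ ((τ / (2 * Real.pi)) • (z.2 - z.1))) ?_
    refine Measurable.stronglyMeasurable ?_
    have := hcF.measurable
    unfold E
    fun_prop
  · filter_upwards [eventually_gt_atTop 0] with τ hτ
    exact Eventually.of_forall fun y => step_c hΩ u hF hτ y
  · have := ae_differentiableAt_of_convexOn (volume : Measure ℂ) h.op h.cvx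
    rw [ae_restrict_iff' hΩ]
    filter_upwards [this] with y hy hyΩ
    exact step_d h hc hi hF hyΩ (hy hyΩ)

theorem bump_lim {Ω : Set ℂ} {u m : ℂ → ℝ} (h : Cap Ω u m) {p₀ : ℂ} (b : ContDiffBump p₀) :
    Tendsto (fun τ : ℝ => ∫ p, b p * (τ ^ 2 * ‖TT Ω u m p τ‖ ^ 2)) atTop
      (𝓝 ((2 * Real.pi) ^ 2 * ∫ p, b p ∂Gam Ω u)) := by
  have h1 : HasCompactSupport (fun p => ((b p : ℝ) : ℂ)) :=
    b.hasCompactSupport.comp_left (g := fun t : ℝ => (t : ℂ)) (by simp)
  have h2 : ContDiff ℝ (⊤ : ℕ∞) (fun p => ((b p : ℝ) : ℂ)) :=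
    Complex.ofRealCLM.contDiff.comp b.contDiff
  let χ := h1.toSchwartzMap h2
  have h3 := smooth_lim h (χ := fun p => ((b p : ℝ) : ℂ)) χ.continuous χ.integrable
    (𝓕 χ).integrable
  simp_rw [← Complex.ofReal_mul, integral_complex_ofReal] at h3
  rw [← Complex.ofReal_mul] at h3
  simpa only [Function.comp_def, Complex.ofReal_re] using
    (Complex.continuous_re.tendsto _).comp h3

theorem bump_seq {ν : Measure ℂ} [IsFiniteMeasure ν] {p₀ : ℂ} {ρ : ℝ}
    (hs : ν (Metric.sphere p₀ ρ) = 0) (b : ℕ → ContDiffBump p₀)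
    (hin : Tendsto (fun n => (b n).rIn) atTop (𝓝 ρ))
    (hout : Tendsto (fun n => (b n).rOut) atTop (𝓝 ρ)) :
    Tendsto (fun n => ∫ p, b n p ∂ν) atTop (𝓝 (ν (Metric.closedBall p₀ ρ)).toReal) := by
  have h1 : (ν (Metric.closedBall p₀ ρ)).toReal =
      ∫ p, (Metric.closedBall p₀ ρ).indicator (fun _ => (1 : ℝ)) p ∂ν := by
    rw [integral_indicator measurableSet_closedBall]
    simp [Measure.real]
  rw [h1]
  refine tendsto_integral_of_dominated_convergence (fun _ => 1)
    (fun n => (b n).continuous.aestronglyMeasurable) (integrable_const _) (fun n => ?_) ?_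
  · refine Eventually.of_forall fun p => ?_
    rw [Real.norm_of_nonneg (b n).nonneg]
    exact (b n).le_one
  · have : ∀ᵐ p ∂ν, p ∉ Metric.sphere p₀ ρ := measure_eq_zero_iff_ae_notMem.1 hs
    filter_upwards [this] with p hp
    rw [Metric.mem_sphere] at hp
    rcases lt_or_gt_of_ne hp with hlt | hgt
    · rw [indicator_of_mem (Metric.mem_closedBall.2 hlt.le)]
      refine tendsto_const_nhds.congr' ?_
      filter_upwards [hin.eventually (lt_mem_nhds hlt)] with n hn
      exact ((b n).one_of_mem_closedBall (Metric.mem_closedBall.2 hn.le)).symm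
    · rw [indicator_of_notMem (fun hh => absurd (Metric.mem_closedBall.1 hh) (not_le.2 hgt))]
      refine tendsto_const_nhds.congr' ?_
      filter_upwards [hout.eventually (gt_mem_nhds hgt)] with n hn
      exact ((b n).zero_of_le_dist hn.le).symm

theorem cont_psi {Ω : Set ℂ} {u m : ℂ → ℝ} (h : Cap Ω u m) (p : ℂ) :
    ContinuousOn (psi u m p) Ω := by
  have h1 := h.cvx.continuousOn h.op
  unfold psi
  exact (h1.add (by fun_prop)).sub continuousOn_const

theorem zero_iff {Ω : Set ℂ} {u m : ℂ → ℝ} (h : Cap Ω u m) {c : ℂ} (hc : c ∈ Ω)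
    (hd : DifferentiableAt ℝ u c) (p : ℂ) : psi u m p c ≤ 0 ↔ p = -gradient u c := by
  have hg : ∀ v, fderiv ℝ u c v = inner ℝ (gradient u c) v := by
    intro v
    unfold gradient
    rw [InnerProductSpace.toDual_symm_apply]
  have hD : HasFDerivAt (psi u m p) (fderiv ℝ u c + innerSL ℝ p) c := by
    unfold psi
    exact (hd.hasFDerivAt.add (innerSL ℝ p).hasFDerivAt).sub_const _
  constructor
  · intro h0
    have hmin : IsLocalMin (psi u m p) c := by
      filter_upwards [h.op.mem_nhds hc] with y hy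
      exact h0.trans (h.nonneg p y hy)
    have h1 := hmin.hasFDerivAt_eq_zero hD
    refine ext_inner_right ℝ fun v => ?_
    have h2 := congrArg (fun L : ℂ →L[ℝ] ℝ => L v) h1
    simp only [add_apply, hg, innerSL_apply_apply,
      zero_apply] at h2
    rw [inner_neg_left]
    linarith
  · intro hp
    refine le_of_forall_pos_le_add fun ε hε => ?_
    obtain ⟨y, hy, hyε⟩ := h.inf0 p ε hε
    have key : fderiv ℝ u c (y - c) ≤ u y - u c := by
      have h1 := hd.hasFDerivAt.lim (y - c) (c := fun τ : ℝ => τ) (l := atTop)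
        (tendsto_abs_atTop_atTop.congr fun τ => (Real.norm_eq_abs τ).symm)
      refine le_of_tendsto h1 ?_
      filter_upwards [eventually_ge_atTop 1] with τ hτ
      have hτ0 : 0 < τ := by linarith
      have hi : 0 ≤ τ⁻¹ := by positivity
      have hi1 : τ⁻¹ ≤ 1 := inv_le_one_of_one_le₀ hτ
      have h2 := h.cvx.2 hc hy (show 0 ≤ 1 - τ⁻¹ by linarith) hi (by ring)
      have h3 : (1 - τ⁻¹) • c + τ⁻¹ • y = c + τ⁻¹ • (y - c) := by
        rw [sub_smul, one_smul, smul_sub]; abel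
      rw [h3] at h2
      simp only [smul_eq_mul] at h2 ⊢
      have h4 : τ * τ⁻¹ = 1 := mul_inv_cancel₀ hτ0.ne'
      have h5 := mul_le_mul_of_nonneg_left h2 hτ0.le
      have h6 : τ * ((1 - τ⁻¹) * u c + τ⁻¹ * u y) =
          τ * u c + (τ * τ⁻¹) * (u y - u c) := by ring
      rw [h6, h4] at h5
      linarith
    rw [hg, inner_sub_right] at key
    have h7 : ∀ v, inner ℝ p v = -inner ℝ (gradient u c) v := by
      intro v; rw [hp, inner_neg_left]
    simp only [psi, h7] at hyε ⊢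
    linarith

end En

theorem energy {Ω : Set ℂ} {u m : ℂ → ℝ} (h : Cap Ω u m) (p₀ : ℂ) {ρ : ℝ} (hρ : 0 < ρ)
    (hs : Gam Ω u (Metric.sphere p₀ ρ) = 0) :
    Tendsto (fun τ : ℝ => ∫ p in Metric.closedBall p₀ ρ, τ ^ 2 * ‖TT Ω u m p τ‖ ^ 2) atTop
      (𝓝 ((2 * Real.pi) ^ 2 * (Gam Ω u (Metric.closedBall p₀ ρ)).toReal)) := by
  have := En.fin_gam h
  have hpos : ∀ n : ℕ, 0 < ρ / ((n : ℝ) + 2) := fun n => by positivity
  have hlt : ∀ n : ℕ, ρ / ((n : ℝ) + 2) < ρ := fun n =>
    div_lt_self hρ (by have := Nat.cast_nonneg (α := ℝ) n; linarith)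
  have hlim : Tendsto (fun n : ℕ => ρ / ((n : ℝ) + 2)) atTop (𝓝 0) :=
    tendsto_const_nhds.div_atTop (tendsto_atTop_add_const_right _ _ tendsto_natCast_atTop_atTop)
  let lo : ℕ → ContDiffBump p₀ := fun n =>
    ⟨ρ - ρ / ((n : ℝ) + 2), ρ, by linarith [hlt n], by linarith [hpos n]⟩
  let up : ℕ → ContDiffBump p₀ := fun n =>
    ⟨ρ, ρ + ρ / ((n : ℝ) + 2), hρ, by linarith [hpos n]⟩
  have hlo := (En.bump_seq hs lo (by simpa [lo] using hlim.const_sub ρ)
    tendsto_const_nhds).const_mul ((2 * Real.pi) ^ 2)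
  have hup := (En.bump_seq hs up tendsto_const_nhds
    (by simpa [up] using hlim.const_add ρ)).const_mul ((2 * Real.pi) ^ 2)
  have hcont : ∀ τ : ℝ, Continuous fun p => τ ^ 2 * ‖TT Ω u m p τ‖ ^ 2 := fun τ => by
    have := En.cont_TT h τ
    fun_prop
  have hint : ∀ (b : ContDiffBump p₀) (τ : ℝ),
      Integrable fun p => b p * (τ ^ 2 * ‖TT Ω u m p τ‖ ^ 2) := fun b τ =>
    (b.continuous.mul (hcont τ)).integrable_of_hasCompactSupport b.hasCompactSupport.mul_right
  have hind : ∀ τ : ℝ, Integrable ((Metric.closedBall p₀ ρ).indicator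
      fun p => τ ^ 2 * ‖TT Ω u m p τ‖ ^ 2) := fun τ =>
    (integrable_indicator_iff measurableSet_closedBall).2
      ((hcont τ).continuousOn.integrableOn_compact (isCompact_closedBall _ _))
  simp_rw [← integral_indicator (measurableSet_closedBall (x := p₀) (ε := ρ))]
  refine tendsto_order.2 ⟨fun a ha => ?_, fun a ha => ?_⟩
  · obtain ⟨n, hn⟩ := (hlo.eventually (lt_mem_nhds ha)).exists
    filter_upwards [(En.bump_lim h (lo n)).eventually (lt_mem_nhds hn)] with τ hτ
    refine hτ.trans_le (integral_mono (hint _ τ) (hind τ) fun p => ?_)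
    by_cases hp : p ∈ Metric.closedBall p₀ ρ
    · rw [indicator_of_mem hp]
      exact mul_le_of_le_one_left (by positivity) (lo n).le_one
    · rw [indicator_of_notMem hp]
      have : (lo n) p = 0 := (lo n).zero_of_le_dist (not_le.1 (mt Metric.mem_closedBall.2 hp)).le
      simp [this]
  · obtain ⟨n, hn⟩ := (hup.eventually (gt_mem_nhds ha)).exists
    filter_upwards [(En.bump_lim h (up n)).eventually (gt_mem_nhds hn)] with τ hτ
    refine lt_of_le_of_lt (integral_mono (hind τ) (hint _ τ) fun p => ?_) hτ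
    by_cases hp : p ∈ Metric.closedBall p₀ ρ
    · rw [indicator_of_mem hp]
      have : (up n) p = 1 := (up n).one_of_mem_closedBall hp
      simp [this]
    · rw [indicator_of_notMem hp]
      exact mul_nonneg (up n).nonneg (by positivity)

theorem isOpen_Near {Ω : Set ℂ} {u m : ℂ → ℝ} (h : Cap Ω u m) (p₀ : ℂ) (ρ s : ℝ) :
    IsOpen (Near Ω u m p₀ ρ s) := by
  have : Near Ω u m p₀ ρ s = ⋃ p ∈ Metric.closedBall p₀ ρ, Ω ∩ psi u m p ⁻¹' Iio s := by
    ext c
    simp only [Near, mem_ofPred_eq, mem_iUnion, mem_inter_iff, mem_preimage, mem_Iio]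
    constructor
    · rintro ⟨hc, p, hp, hlt⟩
      exact ⟨p, hp, hc, hlt⟩
    · rintro ⟨p, hp, hc, hlt⟩
      exact ⟨hc, p, hp, hlt⟩
  rw [this]
  exact isOpen_biUnion fun p _ => (En.cont_psi h p).isOpen_inter_preimage h.op isOpen_Iio

theorem near_tendsto {Ω : Set ℂ} {u m : ℂ → ℝ} (h : Cap Ω u m) (p₀ : ℂ) (ρ : ℝ) :
    Tendsto (fun s => volume (Near Ω u m p₀ ρ s)) (𝓝[>] 0)
      (𝓝 (Gam Ω u (Metric.closedBall p₀ ρ))) := by
  have h1 := tendsto_measure_biInter_gt (μ := (volume : Measure ℂ)) (s := Near Ω u m p₀ ρ)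
    (a := (0 : ℝ)) (fun r _ => (isOpen_Near h p₀ ρ r).measurableSet.nullMeasurableSet)
    (fun i j _ hij c hc => by
      obtain ⟨hc, p, hp, hlt⟩ := hc
      exact ⟨hc, p, hp, hlt.trans_le hij⟩)
    ⟨1, one_pos, ((measure_mono fun c hc => hc.1).trans_lt h.bdd.measure_lt_top).ne⟩
  have h2 : volume (⋂ r > (0 : ℝ), Near Ω u m p₀ ρ r) = Gam Ω u (Metric.closedBall p₀ ρ) := by
    rw [Gam, Measure.map_apply (En.meas_grad u) measurableSet_closedBall,
      Measure.restrict_apply' h.op.measurableSet]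
    refine measure_congr ?_
    filter_upwards [ae_differentiableAt_of_convexOn (volume : Measure ℂ) h.op h.cvx] with c hc
    refine propext ⟨fun hh => ?_, fun hh => ?_⟩
    · have hh' : ∀ r > (0 : ℝ), c ∈ Near Ω u m p₀ ρ r := mem_iInter₂.1 hh
      have hcΩ : c ∈ Ω := (hh' 1 one_pos).1
      obtain ⟨q, hq, -⟩ := (hh' 1 one_pos).2
      have hcp : Continuous fun p => psi u m p c := by
        have := h.mcont
        unfold psi
        fun_prop
      obtain ⟨p, hp, hmin⟩ := (isCompact_closedBall p₀ ρ).exists_isMinOn ⟨q, hq⟩ hcp.continuousOn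
      have h0 : psi u m p c ≤ 0 := by
        refine le_of_forall_pos_le_add fun ε hε => ?_
        obtain ⟨p', hp', hlt⟩ := (hh' ε hε).2
        have : psi u m p c ≤ psi u m p' c := hmin hp'
        linarith
      refine ⟨?_, hcΩ⟩
      rw [mem_preimage, ← (En.zero_iff h hcΩ (hc hcΩ) p).1 h0]
      exact hp
    · obtain ⟨hb, hcΩ⟩ := hh
      refine mem_iInter₂.2 fun r hr => ⟨hcΩ, _, hb, ?_⟩
      exact ((En.zero_iff h hcΩ (hc hcΩ) _).2 rfl).trans_lt hr
  rw [← h2]
  exact h1

theorem gam_univ {Ω : Set ℂ} {u : ℂ → ℝ} : Gam Ω u univ = volume Ω := by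
  rw [Gam, Measure.map_apply (En.meas_grad u) MeasurableSet.univ]
  simp

end Pool.Agent.MP_f27d50_gt
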