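import Pool.Agent.MP_f27d50_gt.Cap6
import Pool.Agent.MP_f27d50_gt.CapGeo
import Pool.Agent.MP_f27d50_gt.Energy

set_option autoImplicit false

open MeasureTheory Set Filter Topology Complex
open scoped ENNReal Pointwise ComplexConjugate

noncomputable section

namespace Pool.Agent.MP_f27d50_gt

namespace CapL

lemma piece (Y : ℝ) : ∃ C : ℝ, 0 ≤ C ∧ ∀ (Ω : Set ℂ) (u m : ℂ → ℝ),
    Cap Ω u m → ∀ s > (0 : ℝ), ∀ R y : ℝ, 2 ≤ R * s → |y * s| ≤ Y → ∀ (p₀ : ℂ) (ρ : ℝ),
    ∫⁻ p in Metric.closedBall p₀ ρ, EP Ω u m s R y p ≤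
      ENNReal.ofReal (C * (√(R * s) / s)) * volume (Near Ω u m p₀ ρ s) := by
  obtain ⟨C₀, C₁, h0, h1, hc⟩ := central
  obtain ⟨C', h2, hl⟩ := local_piece C₀ Y h0
  refine ⟨C₁ * C', by positivity, fun Ω u m h s hs R y hR hy p₀ ρ => ?_⟩
  have := hc Ω u m h (s / 2) (by positivity) p₀ ρ (EP Ω u m s R y)
    (measurable_EP h.meas h.mcont.measurable s R y) (ENNReal.ofReal (C' * √(R * s) / s)) ?_
  · rw [show 2 * (s / 2) = s by ring, ← ENNReal.ofReal_mul h1.le] at this
    convert this using 3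
    ring
  · intro y₀ hy₀ v₁ v₂ hd P hP a1 a2
    refine hl Ω u m h s hs R y hR hy y₀ hy₀ v₁ v₂ hd P hP (fun p hp => ⟨(a1 p hp).2.1,
      fun v b1 b2 => (a1 p hp).2.2 v b1 (by linarith)⟩) fun p hp p' hp' => ?_
    have := a2 p hp p' hp'
    constructor <;> linarith [this.1, this.2]

lemma telescope (t : ℝ) (K : ℕ) :
    ∑ k ∈ Finset.range K, eta (t / 2 ^ k) = chi (t / 2 ^ K) - chi t := by
  induction K with
  | zero => simp
  | succ K ih => rw [Finset.sum_range_succ, ih, eta, pow_succ, div_div]; ring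

lemma TTgt_eq {Ω : Set ℂ} {u m : ℂ → ℝ} (h : Cap Ω u m) {s W : ℝ} (hs : 0 < s) {p : ℂ}
    (hW : ∀ y ∈ Ω, psi u m p y ≤ W) {K : ℕ} (hK : W ≤ 2 ^ K * s) (τ : ℂ) :
    TTgt Ω u m s p τ = ∑ k ∈ Finset.range K, Vp Ω u m (2 ^ k * s) p τ := by
  unfold TTgt Vp
  have hfin : volume Ω ≠ ⊤ := h.bdd.measure_lt_top.ne
  have hu := h.meas
  have he := eta_cont.measurable
  rw [← integral_finsetSum]
  · refine setIntegral_congr_fun h.op.measurableSet fun y hy => ?_
    rw [← Finset.mul_sum, ← ofReal_sum]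
    congr 2
    have := telescope (psi u m p y / s) K
    rw [chi_one (t := psi u m p y / s / 2 ^ K)] at this
    · rw [← this]
      refine Finset.sum_congr rfl fun k _ => ?_
      rw [div_div, mul_comm]
    · rw [div_div, div_le_one (by positivity)]
      linarith [hW y hy]
  · intro k _
    refine Measure.integrableOn_of_bounded (M := Real.exp (|τ.im| * W)) hfin
      (Measurable.aestronglyMeasurable (by unfold psi; fun_prop))
      (ae_restrict_of_forall_mem h.op.measurableSet fun y hy => ?_)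
    rw [norm_mul, norm_exp, norm_real]
    have a1 := h.nonneg p y hy
    have a2 := hW y hy
    calc _ ≤ Real.exp (|τ.im| * W) * 1 := by
          gcongr
          · simp only [neg_re, mul_re, I_re, I_im, mul_im, ofReal_re, ofReal_im]
            have := le_abs_self τ.im
            have := abs_nonneg τ.im
            nlinarith
          · exact abs_eta_le _
      _ = _ := mul_one _

lemma geom9_le (K : ℕ) : ∑ k ∈ Finset.range K, (9 / 10 : ℝ) ^ k ≤ 10 := by
  rw [geom_sum_eq (by norm_num)]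
  have : 0 ≤ (9 / 10 : ℝ) ^ K := by positivity
  rw [div_le_iff_of_neg (by norm_num)]
  linarith

lemma norm_sum_sq_le (a : ℕ → ℂ) (K : ℕ) : ‖∑ k ∈ Finset.range K, a k‖ ^ 2 ≤
    ∑ k ∈ Finset.range K, 10 * (10 / 9) ^ k * ‖a k‖ ^ 2 := by
  rcases Nat.eq_zero_or_pos K with rfl | hK
  · simp
  have h := Finset.sq_sum_div_le_sum_sq_div (Finset.range K) (fun k => ‖a k‖)
    (g := fun k => (9 / 10 : ℝ) ^ k) (fun k _ => by positivity)
  have hp : 0 < ∑ k ∈ Finset.range K, (9 / 10 : ℝ) ^ k :=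
    Finset.sum_pos (fun k _ => by positivity) (by simpa using hK.ne')
  rw [div_le_iff₀ hp] at h
  calc _ ≤ (∑ k ∈ Finset.range K, ‖a k‖) ^ 2 := by gcongr; exact norm_sum_le _ _
    _ ≤ (∑ k ∈ Finset.range K, ‖a k‖ ^ 2 / (9 / 10) ^ k) * 10 := by
        refine h.trans ?_
        gcongr
        exact geom9_le K
    _ = _ := by
        rw [Finset.sum_mul]
        refine Finset.sum_congr rfl fun k _ => ?_
        rw [div_pow, div_pow]; field_simp

lemma pow_sqrt_le (k : ℕ) : (10 / 9 : ℝ) ^ k ≤ (8 / 9) ^ k * (9 / 10) ^ k * √(2 ^ k) := by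
  have h : (7 / 5 : ℝ) ^ k ≤ √(2 ^ k) := by
    apply Real.le_sqrt_of_sq_le
    rw [← pow_mul, mul_comm, pow_mul]
    gcongr; norm_num
  calc _ ≤ ((8 / 9) * (9 / 10) * (7 / 5) : ℝ) ^ k := by gcongr; norm_num
    _ = (8 / 9) ^ k * (9 / 10) ^ k * (7 / 5) ^ k := by rw [mul_pow, mul_pow]
    _ ≤ _ := by gcongr

end CapL

open CapL in
theorem cap_tail (W : ℝ) : ∃ C : ℝ, 0 < C ∧ ∀ (Ω : Set ℂ) (u m : ℂ → ℝ), Cap Ω u m →
    ∀ (p₀ : ℂ) (ρ : ℝ), (∀ p ∈ Metric.closedBall p₀ ρ, ∀ y ∈ Ω, psi u m p y ≤ W) →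
    ∀ M ≥ (2 : ℝ), ∀ ε > 0, ∃ R₀ : ℝ, ∀ R ≥ R₀, ∀ y : ℝ, |y| ≤ 1 →
      ∫⁻ p in Metric.closedBall p₀ ρ, ∫⁻ t in Icc (R / 2) (3 * R),
        ENNReal.ofReal (‖(t + I * y) * TTgt Ω u m (M / R) p (t + I * y)‖ ^ 2) ≤
      ENNReal.ofReal (C / √M * R) *
        (Gam Ω u (Metric.closedBall p₀ ρ) + ENNReal.ofReal ε) := by
  obtain ⟨C, C0, hC⟩ := piece W
  refine ⟨100 * C + 1, by positivity, fun Ω u m h p₀ ρ hW M hM ε hε => ?_⟩
  set G := Gam Ω u (Metric.closedBall p₀ ρ) + ENNReal.ofReal ε with hG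
  have hfin : volume Ω ≠ ⊤ := h.bdd.measure_lt_top.ne
  have hGf : Gam Ω u (Metric.closedBall p₀ ρ) ≠ ⊤ :=
    ne_top_of_le_ne_top hfin ((measure_mono (subset_univ _)).trans gam_univ.le)
  obtain ⟨δ, δ0, hδ⟩ : ∃ δ > 0, ∀ s, 0 < s → s < δ → volume (Near Ω u m p₀ ρ s) ≤ G := by
    have hlt : Gam Ω u (Metric.closedBall p₀ ρ) < G :=
      ENNReal.lt_add_right hGf (by simpa using hε)
    have := (near_tendsto h p₀ ρ).eventually (ge_mem_nhds hlt)
    obtain ⟨δ, δ0, hδ⟩ := (nhdsGT_basis (0 : ℝ)).eventually_iff.1 this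
    exact ⟨δ, δ0, fun s a b => hδ ⟨a, b⟩⟩
  obtain ⟨k₀, hk₀⟩ : ∃ k₀ : ℕ, (8 / 9 : ℝ) ^ k₀ * (volume Ω).toReal ≤ ε := by
    have := (tendsto_pow_atTop_nhds_zero_of_lt_one (r := (8 / 9 : ℝ)) (by norm_num)
      (by norm_num)).mul_const (volume Ω).toReal
    rw [zero_mul] at this
    exact (this.eventually (ge_mem_nhds hε)).exists
  refine ⟨2 ^ k₀ * M / δ + 1, fun R hR y hy => ?_⟩
  have M0 : 0 < M := by linarith
  have R0 : 0 < R := lt_of_lt_of_le (by positivity) hR
  have s0 : 0 < M / R := by positivity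
  obtain ⟨K, hK⟩ : ∃ K : ℕ, W ≤ 2 ^ K * (M / R) := by
    obtain ⟨K, hK⟩ := pow_unbounded_of_one_lt (W / (M / R)) (one_lt_two (α := ℝ))
    exact ⟨K, by rw [div_lt_iff₀ s0] at hK; exact hK.le⟩
  have hm := h.mcont.measurable
  have hk : ∀ k : ℕ, ENNReal.ofReal (10 * (10 / 9) ^ k) *
      ∫⁻ p in Metric.closedBall p₀ ρ, EP Ω u m (2 ^ k * (M / R)) R y p ≤
      ENNReal.ofReal (10 * C / √M * R * (9 / 10) ^ k) * G := by
    intro k
    have sk : 0 < 2 ^ k * (M / R) := by positivity
    have one_le : (1 : ℝ) ≤ 2 ^ k := one_le_pow₀ one_le_two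
    have eR : R * (2 ^ k * (M / R)) = 2 ^ k * M := by field_simp
    rcases le_total (2 ^ k * (M / R)) W with hs | hs
    · have h1 := hC Ω u m h _ sk R y (by rw [eR]; nlinarith)
        (by rw [abs_mul, abs_of_pos sk]; nlinarith [abs_nonneg y]) p₀ ρ
      have h2 : ENNReal.ofReal ((8 / 9) ^ k) * volume (Near Ω u m p₀ ρ (2 ^ k * (M / R))) ≤ G := by
        rcases le_total k k₀ with hk | hk
        · refine le_trans ?_ (hδ _ sk ?_)
          · refine mul_le_of_le_one_left' ?_
            rw [ENNReal.ofReal_le_one]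
            exact pow_le_one₀ (by norm_num) (by norm_num)
          · have : (2 : ℝ) ^ k ≤ 2 ^ k₀ := pow_le_pow_right₀ one_le_two hk
            have a : 2 ^ k₀ * M / δ < R := by linarith
            rw [div_lt_iff₀ δ0] at a
            rw [← mul_div_assoc, div_lt_iff₀ R0]
            nlinarith
        · refine le_add_left ?_
          calc _ ≤ ENNReal.ofReal ((8 / 9) ^ k₀) * volume Ω := by
                gcongr ?_ * ?_
                · exact ENNReal.ofReal_le_ofReal
                    (pow_le_pow_of_le_one (by norm_num) (by norm_num) hk)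
                · exact measure_mono fun c hc => hc.1
            _ ≤ _ := by
                rw [← ENNReal.ofReal_toReal hfin, ← ENNReal.ofReal_mul (by positivity)]
                exact ENNReal.ofReal_le_ofReal hk₀
      calc _ ≤ ENNReal.ofReal (10 * (10 / 9) ^ k) *
            (ENNReal.ofReal (C * (√(R * (2 ^ k * (M / R))) / (2 ^ k * (M / R)))) *
              volume (Near Ω u m p₀ ρ (2 ^ k * (M / R)))) := by gcongr
        _ ≤ ENNReal.ofReal (10 * C / √M * R * (9 / 10) ^ k) * (ENNReal.ofReal ((8 / 9) ^ k) *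
              volume (Near Ω u m p₀ ρ (2 ^ k * (M / R)))) := by
            rw [← mul_assoc, ← mul_assoc (ENNReal.ofReal _), ← ENNReal.ofReal_mul (by positivity),
              ← ENNReal.ofReal_mul (by positivity)]
            refine mul_le_mul_left (ENNReal.ofReal_le_ofReal ?_) _
            have b1 : 0 < √M := Real.sqrt_pos.2 M0
            have b2 : 0 < √((2 : ℝ) ^ k) := Real.sqrt_pos.2 (by positivity)
            have b3 : √(R * (2 ^ k * (M / R))) / (2 ^ k * (M / R)) = R / (√(2 ^ k) * √M) := by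
              rw [eR, Real.sqrt_mul (by positivity)]
              have c1 := Real.mul_self_sqrt M0.le
              have c2 := Real.mul_self_sqrt (show (0 : ℝ) ≤ 2 ^ k by positivity)
              field_simp
              rw [Real.sq_sqrt M0.le, Real.sq_sqrt (by positivity)]
            rw [b3]
            calc _ ≤ 10 * ((8 / 9) ^ k * (9 / 10) ^ k * √(2 ^ k)) * (C * (R / (√(2 ^ k) * √M))) := by
                  gcongr; exact pow_sqrt_le k
              _ = _ := by field_simp
        _ ≤ _ := by gcongr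
    · have : ∀ p ∈ Metric.closedBall p₀ ρ, EP Ω u m (2 ^ k * (M / R)) R y p = 0 := by
        intro p hp
        have : ∀ τ, Vp Ω u m (2 ^ k * (M / R)) p τ = 0 := by
          intro τ
          refine setIntegral_eq_zero_of_forall_eq_zero fun z hz => ?_
          rw [eta_lo, ofReal_zero, mul_zero]
          rw [div_le_one sk]
          exact (hW p hp z hz).trans hs
        simp [EP, this]
      rw [setLIntegral_congr_fun measurableSet_closedBall this]
      simp
  calc _ ≤ ∫⁻ p in Metric.closedBall p₀ ρ, ∑ k ∈ Finset.range K,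
          ENNReal.ofReal (10 * (10 / 9) ^ k) * EP Ω u m (2 ^ k * (M / R)) R y p := by
        refine setLIntegral_mono' measurableSet_closedBall fun p hp => ?_
        unfold EP
        simp only [← lintegral_const_mul' _ _ ENNReal.ofReal_ne_top]
        rw [← lintegral_finsetSum]
        · refine lintegral_mono fun t => ?_
          rw [TTgt_eq h s0 (hW p hp) hK, Finset.mul_sum]
          refine (ENNReal.ofReal_le_ofReal (norm_sum_sq_le _ K)).trans ?_
          rw [ENNReal.ofReal_sum_of_nonneg (fun k _ => by positivity)]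
          refine Finset.sum_le_sum fun k _ => ?_
          rw [ENNReal.ofReal_mul (by positivity)]
        · intro k _
          have h2 : Measurable fun x : ℝ => Vp Ω u m (2 ^ k * (M / R)) p (x + I * y) :=
            (measurable_Vp (Ω := Ω) h.meas hm _).comp (f := fun x : ℝ => (p, (x + I * y : ℂ)))
              (by fun_prop)
          fun_prop
    _ = ∑ k ∈ Finset.range K, ENNReal.ofReal (10 * (10 / 9) ^ k) *
          ∫⁻ p in Metric.closedBall p₀ ρ, EP Ω u m (2 ^ k * (M / R)) R y p := by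
        rw [lintegral_finsetSum]
        · simp only [lintegral_const_mul' _ _ ENNReal.ofReal_ne_top]
        · exact fun k _ => (measurable_EP h.meas hm _ _ _).const_mul _
    _ ≤ ∑ k ∈ Finset.range K, ENNReal.ofReal (10 * C / √M * R * (9 / 10) ^ k) * G :=
        Finset.sum_le_sum fun k _ => hk k
    _ ≤ _ := by
        rw [← Finset.sum_mul, ← ENNReal.ofReal_sum_of_nonneg (fun k _ => by positivity),
          ← Finset.mul_sum]
        refine mul_le_mul_left (ENNReal.ofReal_le_ofReal ?_) _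
        calc _ ≤ 10 * C / √M * R * 10 := by gcongr; exact geom9_le K
          _ = (100 * C) / √M * R := by ring
          _ ≤ _ := by gcongr; linarith

end Pool.Agent.MP_f27d50_gt
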