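import Pool.Agent.MP_f27d50_gt.Zeros

set_option autoImplicit false

open MeasureTheory Set Filter Topology Complex
open scoped ENNReal Pointwise ComplexConjugate

noncomputable section

namespace Pool.Agent.MP_f27d50_gt

namespace Carl

/-- logarithmic derivative at the origin -/
def LD (h : ℂ → ℂ) (d : ℂ) : Prop := HasDerivAt h (h 0 * d) 0

theorem LD.mul {h k : ℂ → ℂ} {d e : ℂ} (hh : LD h d) (hk : LD k e) :
    LD (fun w => h w * k w) (d + e) :=
  (HasDerivAt.mul hh hk).congr_deriv (by ring)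

theorem LD.one : LD (fun _ => 1) 0 := (hasDerivAt_const (0 : ℂ) (1 : ℂ)).congr_deriv (by ring)

theorem LD.pow {h : ℂ → ℂ} {d : ℂ} (hh : LD h d) (n : ℕ) : LD (fun w => h w ^ n) (n * d) := by
  induction n with
  | zero => simpa using LD.one
  | succ n ih =>
    have := ih.mul hh
    simp only [← pow_succ] at this
    rwa [Nat.cast_succ, add_mul, one_mul]

theorem LD.prod (s : Finset ℂ) {h : ℂ → ℂ → ℂ} {d : ℂ → ℂ} (hh : ∀ z ∈ s, LD (h z) (d z)) :
    LD (fun w => ∏ z ∈ s, h z w) (∑ z ∈ s, d z) := by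
  classical
  induction s using Finset.induction_on with
  | empty => simpa using LD.one
  | insert a s ha ih =>
    simp only [Finset.prod_insert ha, Finset.sum_insert ha]
    exact (hh a (Finset.mem_insert_self _ _)).mul
      (ih fun z hz => hh z (Finset.mem_insert_of_mem hz))

theorem LD.re_nonpos {h : ℂ → ℂ} {d : ℂ} (hh : LD h d) (h0 : h 0 ≠ 0) {r : ℝ} (hr : 0 < r)
    (hm : ∀ t : ℝ, 0 ≤ t → t ≤ r → ‖h t‖ ≤ ‖h 0‖) : d.re ≤ 0 := by
  have h1 : HasDerivAt (fun w => h w / h 0) d ((0 : ℝ) : ℂ) :=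
    (HasDerivAt.div_const hh (h 0)).congr_deriv (by field_simp)
  refine le_of_tendsto h1.real_of_complex.tendsto_slope_zero_right ?_
  filter_upwards [Ioo_mem_nhdsGT hr] with t ht
  have h2 : (h t / h 0).re ≤ 1 := (re_le_norm _).trans (by
    rw [norm_div, div_le_one (norm_pos_iff.2 h0)]
    exact hm t ht.1.le ht.2.le)
  simp only [zero_add, ofReal_zero, div_self h0, one_re, smul_eq_mul]
  exact mul_nonpos_of_nonneg_of_nonpos (inv_nonneg.2 ht.1.le) (by linarith)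

theorem even_deriv {g : ℂ → ℂ} (hg : Differentiable ℂ g) :
    HasDerivAt (fun w => g (I * w) * g (-(I * w))) 0 0 := by
  have h0 : HasDerivAt (fun w : ℂ => I * w) I 0 := by simpa using (hasDerivAt_id 0).const_mul I
  have h1 := (hg (I * 0)).hasDerivAt.comp 0 h0
  have h2 := (hg (-(I * 0))).hasDerivAt.comp 0 h0.neg
  refine (h1.mul h2).congr_deriv ?_
  simp only [Function.comp_apply, Pi.neg_apply, mul_zero, neg_zero]
  ring

theorem arg_nonneg' (w : ℂ) : 0 ≤ w.im * arg (1 + w) := by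
  rcases le_or_gt 0 w.im with h | h
  · exact mul_nonneg h (arg_nonneg_iff.2 (by simpa using h))
  · exact mul_nonneg_of_nonpos_of_nonpos h.le (arg_neg_iff.2 (by simpa using h)).le

theorem tan_aux {s y : ℝ} (h0 : 0 < s) (h1 : s < Real.pi / 2) (hy : 0 < y) (ht : Real.tan s = y) :
    Real.pi / 2 * y - 1 ≤ y * s := by
  have h2 := Real.le_tan (x := Real.pi / 2 - s) (by linarith) (by linarith)
  rw [Real.tan_pi_div_two_sub, ht] at h2
  have h3 := mul_le_mul_of_nonneg_left h2 hy.le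
  rw [mul_inv_cancel₀ hy.ne'] at h3
  linarith

theorem arg_lower {w : ℂ} (hw : w.re = 0) : Real.pi / 2 * |w.im| - 1 ≤ w.im * arg (1 + w) := by
  have h1 : |arg (1 + w)| < Real.pi / 2 := abs_arg_lt_pi_div_two_iff.2 (Or.inl (by simp [hw]))
  have h2 : Real.tan (arg (1 + w)) = w.im := by rw [tan_arg]; simp [hw]
  rw [abs_lt] at h1
  rcases lt_trichotomy w.im 0 with h | h | h
  · have h3 : arg (1 + w) < 0 := arg_neg_iff.2 (by simpa using h)
    have := tan_aux (s := -arg (1 + w)) (y := -w.im) (by linarith) (by linarith) (by linarith)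
      (by rw [Real.tan_neg, h2])
    rw [abs_of_neg h]
    linarith
  · simp [h]
  · have h3 : 0 ≤ arg (1 + w) := arg_nonneg_iff.2 (by simpa using h.le)
    have h4 : arg (1 + w) ≠ 0 := fun e => by
      rw [e, Real.tan_zero] at h2
      exact h.ne h2
    rw [abs_of_pos h]
    exact tan_aux (lt_of_le_of_ne h3 h4.symm) h1.2 h h2

theorem one_add_ne {w : ℂ} (hw : 0 ≤ w.re) : 1 + w ≠ 0 := fun e => by
  have := congrArg re e
  simp at this
  linarith

theorem t1 {w : ℂ} {r : ℝ} (hw : 0 ≤ w.re) (hr : ‖w‖ ≤ r) :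
    w.im * arg (1 + w) ≤ (w * ((Real.log (1 + r) : ℝ) - log (1 + w))).re := by
  have h1 : Real.log ‖1 + w‖ ≤ Real.log (1 + r) :=
    Real.log_le_log (norm_pos_iff.2 (one_add_ne hw)) ((norm_add_le _ _).trans (by simpa using hr))
  simp only [mul_re, sub_re, sub_im, ofReal_re, ofReal_im, log_re, log_im]
  nlinarith [mul_nonneg hw (sub_nonneg.2 h1)]

theorem t2 (w : ℂ) : (w / (1 + w)).re =
    (w.re + w.re ^ 2 + w.im ^ 2) / ((1 + w.re) ^ 2 + w.im ^ 2) := by
  rw [div_re, normSq_apply]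
  simp only [add_re, add_im, one_re, one_im, zero_add]
  ring

theorem t3 (w : ℂ) (r : ℝ) : (2 * w - w ^ 2 / r).re = 2 * w.re - (w.re ^ 2 - w.im ^ 2) / r := by
  rw [sub_re, div_ofReal_re]
  simp [sq]

/-- the barrier -/
def Wb (A D c r : ℝ) (w : ℂ) : ℂ :=
  (A * (2 / Real.pi) : ℝ) * (w * ((Real.log (1 + r) : ℝ) - log (1 + w))) + D * (w / (1 + w)) +
    (2 * c : ℝ) * (2 * w - w ^ 2 / r)

theorem Wb_re (A D c r : ℝ) (w : ℂ) : (Wb A D c r w).re =
    A * (2 / Real.pi) * (w * ((Real.log (1 + r) : ℝ) - log (1 + w))).re + D * (w / (1 + w)).re +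
      2 * c * (2 * w - w ^ 2 / r).re := by
  simp only [Wb, add_re, re_ofReal_mul]

theorem Wb_diff (A D c r : ℝ) {w : ℂ} (hw : 0 ≤ w.re) : DifferentiableAt ℂ (Wb A D c r) w := by
  have h1 := one_add_ne hw
  have h2 : DifferentiableAt ℂ (fun w => log (1 + w)) w :=
    DifferentiableAt.clog (by fun_prop) (Or.inl (by simp; linarith))
  unfold Wb
  fun_prop (disch := assumption)

theorem Wb_deriv (A D c r : ℝ) : HasDerivAt (Wb A D c r)
    ((A * (2 / Real.pi) * Real.log (1 + r) + D + 4 * c : ℝ) : ℂ) 0 := by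
  have h0 : HasDerivAt (fun w : ℂ => 1 + w) 1 0 := (hasDerivAt_id (0 : ℂ)).const_add 1
  have h1 := h0.clog (by simp)
  have h2 := ((hasDerivAt_id (0 : ℂ)).mul (h1.const_sub ((Real.log (1 + r) : ℝ) : ℂ))).const_mul
    ((A * (2 / Real.pi) : ℝ) : ℂ)
  have h3 := ((hasDerivAt_id (0 : ℂ)).div h0 (by simp)).const_mul (D : ℂ)
  have h4 := (((hasDerivAt_id (0 : ℂ)).const_mul 2).sub
    ((hasDerivAt_pow 2 (0 : ℂ)).div_const (r : ℂ))).const_mul ((2 * c : ℝ) : ℂ)
  refine ((h2.add h3).add h4).congr_deriv ?_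
  simp
  ring

/-- the numerator of the inverse Blaschke factor -/
def pb (r : ℝ) (l w : ℂ) : ℂ :=
  (w + l) * ((w + conj l) * (r ^ 2 - conj l * w)) / (r ^ 2 + l * w)

theorem den_ne {r : ℝ} {l w : ℂ} (hl : ‖l‖ < r) (hw : ‖w‖ ≤ r) : (r : ℂ) ^ 2 + l * w ≠ 0 := by
  intro e
  have h1 : ‖l * w‖ = r ^ 2 := by
    rw [eq_neg_of_add_eq_zero_right e, norm_neg, norm_pow, norm_real, Real.norm_eq_abs, sq_abs]
  rw [norm_mul] at h1
  nlinarith [norm_nonneg l, norm_nonneg w]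

theorem pb_norm {r : ℝ} {l w : ℂ} (hl : ‖l‖ < r) (hw : ‖w‖ ≤ r) (h : w.re = 0 ∨ ‖w‖ = r) :
    ‖pb r l w‖ = ‖w ^ 2 - l ^ 2‖ := by
  have h1 : ‖(w + conj l) * (r ^ 2 - conj l * w)‖ = ‖w - l‖ * ‖(r : ℂ) ^ 2 + l * w‖ := by
    rcases h with h | h
    · have e : conj w = -w := by
        apply Complex.ext <;> simp [h]
      rw [← norm_conj, ← norm_mul, ← norm_neg]
      congr 1
      simp only [map_mul, map_add, map_sub, map_pow, conj_conj, conj_ofReal, e]
      ring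
    · have e : (r : ℂ) ^ 2 = w * conj w := by
        rw [mul_conj, normSq_eq_norm_sq, h]
        simp
      have e1 : w * conj w - conj l * w = w * conj (w - l) := by
        rw [map_sub]
        ring
      have e2 : w * conj w + l * w = w * conj (w + conj l) := by
        rw [map_add, conj_conj]
        ring
      rw [e, e1, e2]
      simp only [norm_mul, norm_conj]
      ring
  rw [pb, norm_div, norm_mul, h1, ← mul_assoc, mul_div_cancel_right₀ _
    (norm_ne_zero_iff.2 (den_ne hl hw)), ← norm_mul, sq_sub_sq]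

theorem pb_LD {r : ℝ} {l : ℂ} (hr : 0 < r) (hl : l ≠ 0) :
    LD (pb r l) (l⁻¹ + (conj l)⁻¹ - (conj l + l) / r ^ 2) := by
  have hr' : (r : ℂ) ≠ 0 := ofReal_ne_zero.2 hr.ne'
  have hl' : conj l ≠ 0 := by simpa using hl
  have i := hasDerivAt_id (0 : ℂ)
  have h := ((i.add_const l).mul ((i.add_const (conj l)).mul
    ((i.const_mul (conj l)).const_sub ((r : ℂ) ^ 2)))).div
      ((i.const_mul l).const_add ((r : ℂ) ^ 2)) (by simpa using hr.ne')
  refine h.congr_deriv ?_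
  simp only [pb, Pi.mul_apply, id, zero_add, mul_zero, sub_zero, add_zero]
  field_simp
  ring

theorem pb_re {r : ℝ} {l z : ℂ} (h1 : l.re = |z.im|) (h2 : ‖l‖ = ‖z‖) (h0 : z ≠ 0)
    (hz : ‖z‖ < r) : (l⁻¹ + (conj l)⁻¹ - (conj l + l) / r ^ 2).re = 2 * kC r z := by
  have h3 : 1 / r ^ 2 ≤ 1 / ‖z‖ ^ 2 := by
    have := norm_pos_iff.2 h0
    gcongr
  rw [kC, max_eq_left (sub_nonneg.2 h3), ← ofReal_pow, sub_re, div_ofReal_re, add_re, add_re,
    inv_re, inv_re, normSq_conj, normSq_eq_norm_sq, conj_re, h1, h2]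
  ring

theorem exists_l (z : ℂ) : ∃ l : ℂ, l ^ 2 = -z ^ 2 ∧ l.re = |z.im| ∧ ‖l‖ = ‖z‖ := by
  rcases le_total 0 z.im with h | h
  · exact ⟨-(I * z), by rw [neg_sq, mul_pow, I_sq]; ring, by simp [abs_of_nonneg h], by simp⟩
  · exact ⟨I * z, by rw [mul_pow, I_sq]; ring, by simp [abs_of_nonpos h], by simp⟩

theorem small {f : ℂ → ℂ} {c : ℝ} (hc : 0 ≤ c) (hf : Differentiable ℂ f)
    (hb : ∀ w : ℂ, ‖f (I * w) * f (-(I * w))‖ ≤ ‖f 0‖ ^ 2 * Real.exp (2 * c * ‖w‖)) {w : ℂ}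
    (hw : ‖w‖ ≤ 1) : ‖f (I * w) * f (-(I * w))‖ ≤
      ‖f 0‖ ^ 2 * Real.exp ((Real.exp (4 * c) + 1) * ‖w‖ ^ 2) := by
  have h0 : ‖f (I * 0) * f (-(I * 0))‖ = ‖f 0‖ ^ 2 := by simp [sq]
  have h1 := dist_le_mul_div_pow_of_mapsTo_ball_of_isLittleO
    (f := fun w => f (I * w) * f (-(I * w))) (c := 0) (z := w) (R₁ := 2)
    (R₂ := ‖f 0‖ ^ 2 * (Real.exp (4 * c) + 1)) (n := 1) (by fun_prop) (fun u hu => by
      rw [mem_closedBall_iff_norm]
      refine (norm_sub_le _ _).trans ?_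
      have h2 : Real.exp (2 * c * ‖u‖) ≤ Real.exp (4 * c) :=
        Real.exp_le_exp.2 (by nlinarith [mem_ball_zero_iff.1 hu])
      have h3 := (hb u).trans (mul_le_mul_of_nonneg_left h2 (sq_nonneg _))
      rw [h0]
      linarith)
    (by simpa using (even_deriv hf).isLittleO.norm_right) (mem_ball_zero_iff.2 (by linarith))
  rw [dist_eq_norm, dist_zero_right] at h1
  have h2 := norm_sub_norm_le (f (I * w) * f (-(I * w))) (f (I * 0) * f (-(I * 0)))
  have h3 := Real.add_one_le_exp ((Real.exp (4 * c) + 1) * ‖w‖ ^ 2)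
  have h4 := mul_le_mul_of_nonneg_left h3 (sq_nonneg ‖f 0‖)
  have h5 : 0 ≤ ‖f 0‖ ^ 2 * (Real.exp (4 * c) + 1) * ‖w‖ ^ 2 := by positivity
  rw [h0] at h2
  rw [show (‖w‖ / 2) ^ (1 + 1) = ‖w‖ ^ 2 / 4 by ring] at h1
  linarith

theorem front {f : ℂ → ℂ} {A c r : ℝ} (hA : 0 ≤ A) (hAc : A ≤ 2 * c) (hf : Differentiable ℂ f)
    (hb : ∀ w : ℂ, ‖f (I * w) * f (-(I * w))‖ ≤ ‖f 0‖ ^ 2 * Real.exp (2 * c * ‖w‖))
    (ha : ∀ w : ℂ, w.re = 0 → ‖f (I * w) * f (-(I * w))‖ ≤ ‖f 0‖ ^ 2 * Real.exp (A * |w.im|))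
    (hr : 0 < r) {w : ℂ} (h0 : 0 ≤ w.re) (hw : ‖w‖ ≤ r) (h : w.re = 0 ∨ ‖w‖ = r) :
    ‖f (I * w) * f (-(I * w))‖ ≤
      ‖f 0‖ ^ 2 * Real.exp (Wb A (2 * (Real.exp (4 * c) + 1) + 4 * c) c r w).re := by
  have hc : 0 ≤ c := by linarith
  have hπ := Real.pi_pos
  have hA' : 0 ≤ A * (2 / Real.pi) := by positivity
  have a1 := mul_le_mul_of_nonneg_left (t1 h0 hw) hA'
  have a2 := mul_nonneg hA' (arg_nonneg' w)
  have hn : ‖w‖ ^ 2 = w.re ^ 2 + w.im ^ 2 := by rw [Complex.sq_norm, normSq_apply]; ring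
  have key : ∀ e : ℝ, ‖f (I * w) * f (-(I * w))‖ ≤ ‖f 0‖ ^ 2 * Real.exp e →
      e ≤ A * (2 / Real.pi) * (w.im * arg (1 + w)) +
        (2 * (Real.exp (4 * c) + 1) + 4 * c) * (w / (1 + w)).re + 2 * c * (2 * w - w ^ 2 / r).re →
      ‖f (I * w) * f (-(I * w))‖ ≤
        ‖f 0‖ ^ 2 * Real.exp (Wb A (2 * (Real.exp (4 * c) + 1) + 4 * c) c r w).re := by
    intro e h1 h2
    refine h1.trans (mul_le_mul_of_nonneg_left (Real.exp_le_exp.2 ?_) (sq_nonneg _))
    rw [Wb_re]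
    linarith
  have hE := Real.exp_pos (4 * c)
  rcases h with h | h
  · have b3 : 0 ≤ 2 * c * (2 * w - w ^ 2 / r).re := by
      rw [t3, h]
      have : (0 ^ 2 - w.im ^ 2) / r ≤ 0 :=
        div_nonpos_of_nonpos_of_nonneg (by nlinarith [sq_nonneg w.im]) hr.le
      exact mul_nonneg (by positivity) (by linarith)
    have b2 : (w / (1 + w)).re = w.im ^ 2 / (1 + w.im ^ 2) := by rw [t2, h]; norm_num
    rw [h] at hn
    rcases le_total ‖w‖ 1 with h1 | h1
    · refine key _ (small hc hf hb h1) ?_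
      have b4 : ‖w‖ ^ 2 / 2 ≤ (w / (1 + w)).re := by
        have : ‖w‖ ^ 2 ≤ 1 := by nlinarith [norm_nonneg w]
        rw [b2, div_le_div_iff₀ two_pos (by positivity)]
        nlinarith [sq_nonneg w.im]
      have b5 := mul_le_mul_of_nonneg_left b4
        (by positivity : 0 ≤ 2 * (Real.exp (4 * c) + 1) + 4 * c)
      nlinarith [mul_nonneg hc (sq_nonneg ‖w‖)]
    · refine key _ (ha w h) ?_
      have b4 : 1 / 2 ≤ (w / (1 + w)).re := by
        have : 1 ≤ ‖w‖ ^ 2 := by nlinarith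
        rw [b2, div_le_div_iff₀ two_pos (by positivity)]
        nlinarith
      have b5 := mul_le_mul_of_nonneg_left b4
        (by positivity : 0 ≤ 2 * (Real.exp (4 * c) + 1) + 4 * c)
      have b6 := mul_le_mul_of_nonneg_left (arg_lower h) hA'
      have b7 : A * (2 / Real.pi) * (Real.pi / 2 * |w.im| - 1) = A * |w.im| - A * (2 / Real.pi) := by
        field_simp
      have b8 : A * (2 / Real.pi) ≤ A :=
        mul_le_of_le_one_right hA ((div_le_one hπ).2 Real.two_le_pi)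
      linarith
  · refine key _ (hb w) ?_
    have b2 : 0 ≤ (w / (1 + w)).re := by rw [t2]; positivity
    have b3 : r ≤ (2 * w - w ^ 2 / r).re := by
      have b4 : w.re ≤ r := (re_le_norm w).trans hw
      have b5 : (w.re ^ 2 - w.im ^ 2) / r ≤ 2 * w.re - r := by
        rw [div_le_iff₀ hr]
        rw [h] at hn
        nlinarith
      rw [t3]
      linarith
    have b4 := mul_nonneg (by positivity : 0 ≤ 2 * (Real.exp (4 * c) + 1) + 4 * c) b2
    have b5 := mul_le_mul_of_nonneg_left b3 (by positivity : 0 ≤ 2 * c)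
    rw [h]
    linarith

end Carl

open Carl in
theorem carleman (c : ℝ) : ∃ C : ℝ, ∀ (f : ℂ → ℂ) (a b : ℝ), 0 ≤ a → a ≤ c → 0 ≤ b → b ≤ c →
    Differentiable ℂ f → f 0 ≠ 0 → (∀ z : ℂ, ‖f z‖ ≤ ‖f 0‖ * Real.exp (c * ‖z‖)) →
    (∀ x : ℝ, 0 ≤ x → ‖f x‖ ≤ ‖f 0‖ * Real.exp (a * x)) →
    (∀ x : ℝ, 0 ≤ x → ‖f (-x)‖ ≤ ‖f 0‖ * Real.exp (b * x)) →
    ∀ r ≥ 1, S (ord f) (kC r) ≤ (a + b) / Real.pi * Real.log r + C := by
  classical
  refine ⟨Real.exp (4 * c) + 1 + 6 * c, fun f a b a0 ac b0 bc hf f0 hc ha hb r hr1 => ?_⟩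
  have hr : 0 < r := by linarith
  set D := 2 * (Real.exp (4 * c) + 1) + 4 * c with hD
  have hb1 : ∀ w : ℂ, ‖f (I * w) * f (-(I * w))‖ ≤ ‖f 0‖ ^ 2 * Real.exp (2 * c * ‖w‖) := fun w => by
    have h := mul_le_mul (hc (I * w)) (hc (-(I * w))) (norm_nonneg _) (by positivity)
    rw [norm_mul]
    refine h.trans_eq ?_
    rw [mul_mul_mul_comm, ← Real.exp_add, norm_neg, norm_mul, norm_I]
    ring_nf
  have hab : ∀ x : ℝ, 0 ≤ x → ‖f x‖ * ‖f (-x)‖ ≤ ‖f 0‖ ^ 2 * Real.exp ((a + b) * x) := fun x hx => by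
    refine (mul_le_mul (ha x hx) (hb x hx) (norm_nonneg _) (by positivity)).trans_eq ?_
    rw [mul_mul_mul_comm, ← Real.exp_add]
    ring_nf
  have hb2 : ∀ w : ℂ, w.re = 0 →
      ‖f (I * w) * f (-(I * w))‖ ≤ ‖f 0‖ ^ 2 * Real.exp ((a + b) * |w.im|) := fun w hw => by
    have e : I * w = -(w.im : ℂ) := by apply Complex.ext <;> simp [hw]
    rw [e, norm_mul, neg_neg]
    rcases le_total 0 w.im with h | h
    · rw [abs_of_nonneg h, mul_comm]
      exact hab _ h
    · rw [abs_of_nonpos h]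
      simpa using hab (-w.im) (by linarith)
  set s := (finite_zeros hf ⟨0, f0⟩ r).toFinset.filter fun z => ‖z‖ < r ∧ z.im ≠ 0 with hs
  have hs1 : ∀ z ∈ s, ‖z‖ < r ∧ z ≠ 0 := fun z hz => by
    have := (Finset.mem_filter.1 hz).2
    exact ⟨this.1, fun e => this.2 (by simp [e])⟩
  rw [S_eq_sum s fun z hz => by
    by_cases h1 : f z = 0
    · right
      by_cases h2 : z.im = 0
      · simp [kC, h2]
      · have h3 : r ≤ ‖z‖ := by
          by_contra h3
          push Not at h3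
          exact hz (Finset.mem_filter.2 ⟨by simpa using ⟨h3.le, h1⟩, h3, h2⟩)
        have h4 : 1 / ‖z‖ ^ 2 ≤ 1 / r ^ 2 := by gcongr
        rw [kC, max_eq_right (by linarith), mul_zero]
    · exact Or.inl (ord_eq_zero hf h1)]
  obtain ⟨g, hg, hfg, -⟩ := exists_div hf ⟨0, f0⟩ s (ord f) fun _ _ => le_rfl
  choose l hl1 hl2 hl3 using exists_l
  set H : ℂ → ℂ := fun w => g (I * w) * g (-(I * w)) * (∏ z ∈ s, pb r (l z) w ^ ord f z) *
    exp (-Wb (a + b) D c r w) with hH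
  have hHn : ∀ w : ℂ, ‖w‖ ≤ r → w.re = 0 ∨ ‖w‖ = r →
      ‖H w‖ = ‖f (I * w) * f (-(I * w))‖ * Real.exp (-(Wb (a + b) D c r w).re) := by
    intro w hw h
    have e : f (I * w) * f (-(I * w)) =
        g (I * w) * g (-(I * w)) * ∏ z ∈ s, (w ^ 2 - l z ^ 2) ^ ord f z := by
      rw [hfg (I * w), hfg (-(I * w)), mul_mul_mul_comm, ← Finset.prod_mul_distrib, mul_comm]
      congr 1
      refine Finset.prod_congr rfl fun z _ => ?_
      rw [← mul_pow, hl1]
      congr 1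
      linear_combination (-w ^ 2) * I_sq
    rw [e, hH]
    simp only [norm_mul, norm_exp, neg_re, norm_prod, norm_pow]
    congr 2
    exact Finset.prod_congr rfl fun z hz => by rw [pb_norm (hl3 z ▸ (hs1 z hz).1) hw h]
  have hH0 : ‖H 0‖ = ‖f 0‖ ^ 2 := by
    rw [hHn 0 (by simpa using hr.le) (Or.inl rfl)]
    simp [Wb, sq]
  have hU : IsClosed (Metric.closedBall (0 : ℂ) r ∩ {w : ℂ | 0 ≤ w.re}) :=
    Metric.isClosed_closedBall.inter (isClosed_le continuous_const continuous_re)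
  have hmax : ∀ t : ℝ, 0 ≤ t → t ≤ r → ‖H t‖ ≤ ‖H 0‖ := fun t t0 tr => by
    rw [hH0]
    refine norm_le_of_forall_mem_frontier_norm_le
      (U := Metric.closedBall (0 : ℂ) r ∩ {w : ℂ | 0 ≤ w.re})
      (Metric.isBounded_closedBall.subset inter_subset_left) ?_ (fun w hw => ?_)
      (subset_closure ⟨by simpa [abs_of_nonneg t0] using tr, by simpa using t0⟩)
    · refine DifferentiableOn.diffContOnCl ?_
      rw [hU.closure_eq]
      intro w hw
      have h1 := Wb_diff (a + b) D c r hw.2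
      have h2 : DifferentiableAt ℂ (fun w => ∏ z ∈ s, pb r (l z) w ^ ord f z) w := by
        refine DifferentiableAt.fun_finsetProd fun z hz => DifferentiableAt.fun_pow ?_ _
        have := den_ne (hl3 z ▸ (hs1 z hz).1) (mem_closedBall_zero_iff.1 hw.1)
        unfold pb
        fun_prop (disch := assumption)
      refine DifferentiableAt.differentiableWithinAt ?_
      exact (DifferentiableAt.fun_mul (by fun_prop) h2).fun_mul h1.neg.cexp
    · rw [hU.frontier_eq] at hw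
      have h1 : ‖w‖ ≤ r := mem_closedBall_zero_iff.1 hw.1.1
      have h2 : 0 ≤ w.re := hw.1.2
      have h3 : w.re = 0 ∨ ‖w‖ = r := by
        by_contra h3
        push Not at h3
        refine hw.2 (mem_interior.2 ⟨Metric.ball 0 r ∩ {w : ℂ | 0 < w.re},
          inter_subset_inter Metric.ball_subset_closedBall fun u (hu : 0 < u.re) => hu.le,
          Metric.isOpen_ball.inter (isOpen_lt continuous_const continuous_re),
          mem_ball_zero_iff.2 (lt_of_le_of_ne h1 h3.2), lt_of_le_of_ne h2 h3.1.symm⟩)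
      rw [hHn w h1 h3, Real.exp_neg, ← div_eq_mul_inv, div_le_iff₀ (Real.exp_pos _)]
      exact front (add_nonneg a0 b0) (by linarith) hf hb1 hb2 hr h2 h1 h3
  have hLD : LD H _ := (LD.mul (d := 0) ((even_deriv hg).congr_deriv (by ring))
    (LD.prod s fun z hz => (pb_LD hr (l := l z) (by
      rw [← norm_ne_zero_iff, hl3, norm_ne_zero_iff]
      exact (hs1 z hz).2)).pow (ord f z))).mul (Wb_deriv (a + b) D c r).neg.cexp
  have key := hLD.re_nonpos (by rw [← norm_ne_zero_iff, hH0]; simpa using f0) hr hmax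
  rw [add_re, zero_add, re_sum, neg_re, ofReal_re, Finset.sum_congr rfl
    (g := fun z => 2 * ((ord f z : ℝ) * kC r z)) fun z hz => by
      rw [← ofReal_natCast, re_ofReal_mul, pb_re (hl2 z) (hl3 z) (hs1 z hz).2 (hs1 z hz).1,
        mul_left_comm], ← Finset.mul_sum] at key
  have h1 : Real.log (1 + r) ≤ Real.log r + 1 := by
    have h2 := Real.log_le_sub_one_of_pos (x := (1 + r) / r) (by positivity)
    rw [Real.log_div (by positivity) hr.ne'] at h2
    have h3 : (1 + r) / r ≤ 2 := by rw [div_le_iff₀ hr]; linarith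
    linarith
  have hπ := Real.pi_pos
  have h2 := mul_le_mul_of_nonneg_left h1 (by positivity : 0 ≤ (a + b) / Real.pi)
  have h3 : (a + b) / Real.pi ≤ a + b :=
    div_le_self (add_nonneg a0 b0) (by linarith [Real.two_le_pi])
  have h4 : (a + b) * (2 / Real.pi) = 2 * ((a + b) / Real.pi) := by ring
  rw [h4] at key
  linarith

end Pool.Agent.MP_f27d50_gt
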