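import Mathlib

set_option autoImplicit false

open MeasureTheory Set Filter Topology
open scoped ENNReal Pointwise

noncomputable section

namespace Pool.Agent.MP_f27d50_gt

/-- physical space: plane (as `ℂ`) times a vertical line -/
abbrev X := ℂ × ℝ
/-- real directions -/
abbrev V := Fin 3 → ℝ
/-- complex directions -/
abbrev W := Fin 3 → ℂ

def dot (η : V) (x : X) : ℝ := η 0 * x.1.re + η 1 * x.1.im + η 2 * x.2
def cdot (ζ : W) (x : X) : ℂ := ζ 0 * x.1.re + ζ 1 * x.1.im + ζ 2 * x.2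
/-- `ξ + i η` -/
def cx (ξ η : V) : W := fun i => (ξ i : ℂ) + Complex.I * (η i : ℂ)
/-- Fourier-Laplace transform of the indicator function -/
def FT (K : Set X) (ζ : W) : ℂ := ∫ x in K, Complex.exp (Complex.I * cdot ζ x)
/-- support function -/
def hs (K : Set X) (η : V) : ℝ := sSup (dot η '' K)
/-- width -/
def wd (K : Set X) (η : V) : ℝ := hs K η + hs K (-η)
/-- upward normal with slope `p` -/
def nv (p : ℂ) : V := ![-p.re, -p.im, 1]

structure Body (K : Set X) : Prop where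
  cpt : IsCompact K
  cvx : Convex ℝ K
  zero : (0 : X) ∈ interior K

/-- no vertical walls: the cone of points whose gauge is minimal on their vertical line is null -/
def NoWall (K : Set X) : Prop :=
  volume {x : X | ∀ z : ℝ, gauge K x ≤ gauge K (x + ((0 : ℂ), z))} = 0

/-- the shear sending `(c, 1)` to `(0, 1)` -/
def shear (c : ℂ) (x : X) : X := (x.1 - x.2 • c, x.2)

/-! ### zeros of entire functions -/

def ord (f : ℂ → ℂ) (z : ℂ) : ℕ := analyticOrderNatAt f z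
/-- restriction to the complex line through the origin with direction `ζ` -/
def ln (F : W → ℂ) (ζ : W) : ℂ → ℂ := fun z => F (z • ζ)
/-- weighted sum of a multiplicity function -/
def S (μ : ℂ → ℕ) (k : ℂ → ℝ) : ℝ := ∑ᶠ z, (μ z : ℝ) * k z
/-- common zeros -/
def mA (f g : ℂ → ℂ) (z : ℂ) : ℕ := min (ord f z) (ord g z)
/-- zeros of `f` in excess of those of `g` -/
def mB (f g : ℂ → ℂ) (z : ℂ) : ℕ := ord f z - ord g z
/-- Jensen kernel -/
def kN (x : ℝ) (z : ℂ) : ℝ := Real.posLog (x / ‖z‖)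
/-- Carleman kernel -/
def kC (r : ℝ) (z : ℂ) : ℝ := |z.im| * max (1 / ‖z‖ ^ 2 - 1 / r ^ 2) 0
open Classical in
/-- indicator of a closed annulus -/
def kI (a b : ℝ) (z : ℂ) : ℝ := if a ≤ ‖z‖ ∧ ‖z‖ ≤ b then 1 else 0
open Classical in
/-- indicator of the lower right quarter of a closed annulus -/
def kQ (a b : ℝ) (z : ℂ) : ℝ := if a ≤ ‖z‖ ∧ ‖z‖ ≤ b ∧ 0 ≤ z.re ∧ z.im ≤ 0 then 1 else 0

/-- admissible kernels -/
structure Ker (k : ℂ → ℝ) : Prop where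
  cont : ContinuousOn k {0}ᶜ
  supp : ∃ r : ℝ, ∀ z : ℂ, r ≤ ‖z‖ → k z = 0

/-- a harmonic function touches `u` from below at `z` -/
def SubAt (u : ℂ → ℝ) (z : ℂ) : Prop :=
  ∃ g : ℂ → ℂ, AnalyticAt ℂ g z ∧ (g z).re = u z ∧ ∀ᶠ w in 𝓝 z, (g w).re ≤ u w

/-- `uA`, `uB` are the continuous (generic) versions of the weighted sums of the common zeros and
of the excess zeros of the analytic families `f l`, `g l` -/
structure Gen (f g : ℂ → ℂ → ℂ) (k : ℂ → ℝ) (uA uB : ℂ → ℝ) : Prop where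
  contA : Continuous uA
  contB : Continuous uB
  ev : ∀ l₀ : ℂ, ∀ᶠ l in 𝓝[≠] l₀, uA l = S (mA (f l) (g l)) k ∧ uB l = S (mB (f l) (g l)) k
  sum : ∀ l, uA l + uB l = S (ord (f l)) k
  le : (∀ z, 0 ≤ k z) → ∀ l, uA l ≤ S (mA (f l) (g l)) k
  sub : (∀ z, z ≠ 0 → SubAt k z) → ∀ l, SubAt uA l ∧ SubAt uB l

/-- an entire function on `ℂ³` with indicator `h` -/
structure Fam (F : W → ℂ) (h : V → ℝ) : Prop where
  diff : Differentiable ℂ F
  ne0 : F 0 ≠ 0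
  ub : ∀ ξ η, ‖F (cx ξ η)‖ ≤ ‖F 0‖ * Real.exp (h (-η))
  lb : ∀ ε > 0, ∀ A : ℝ, ∃ c₀ > 0, ∀ η : V, ‖η‖ ≤ A → ∀ y : ℝ, 0 ≤ y →
    c₀ * ‖F 0‖ * Real.exp ((h η - ε) * y) ≤ ‖F (cx 0 (-(y • η)))‖
  nonneg : ∀ η, 0 ≤ h η
  smul : ∀ t : ℝ, 0 ≤ t → ∀ η, h (t • η) = t * h η
  add : ∀ η η', h (η + η') ≤ h η + h η'
  lip : ∃ L : ℝ, ∀ η, h η ≤ L * ‖η‖

/-- at most scales, `F` and `G` have few common zeros on a real line close to the direction `v` -/
def Few (F G : W → ℂ) (v : V) : Prop :=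
  ∀ ε > 0, ∃ q : ℝ, 1 < q ∧ q ≤ 2 ∧ ∀ ρ > 0, ∃ R₀ : ℝ, ∀ R ≥ R₀, ∃ Bad : Set ℝ,
    MeasurableSet Bad ∧ volume Bad ≤ ENNReal.ofReal (ε * R) ∧
    ∀ x ∈ Icc R (2 * R), x ∉ Bad → ∃ η : V, ‖η - v‖ ≤ ρ ∧
      S (mA (ln F (cx η 0)) (ln G (cx η 0))) (kI (x / q) (x * q)) ≤ ε * (q - 1) * x

/-! ### caps -/

/-- depth below the supporting plane of slope `p` -/
def psi (u m : ℂ → ℝ) (p y : ℂ) : ℝ := u y + inner ℝ p y - m p

structure Cap (Ω : Set ℂ) (u m : ℂ → ℝ) : Prop where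
  op : IsOpen Ω
  cvx : ConvexOn ℝ Ω u
  bdd : Bornology.IsBounded Ω
  meas : Measurable u
  ubd : ∃ B : ℝ, ∀ y ∈ Ω, |u y| ≤ B
  mcont : Continuous m
  nonneg : ∀ p, ∀ y ∈ Ω, 0 ≤ psi u m p y
  inf0 : ∀ p, ∀ ε > 0, ∃ y ∈ Ω, psi u m p y < ε

/-- the amplitude of a cap -/
def TT (Ω : Set ℂ) (u m : ℂ → ℝ) (p τ : ℂ) : ℂ :=
  ∫ y in Ω, Complex.exp (-(Complex.I * τ * (psi u m p y : ℂ)))

/-- the gradient measure -/
def Gam (Ω : Set ℂ) (u : ℂ → ℝ) : Measure ℂ :=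
  Measure.map (fun y => -gradient u y) (volume.restrict Ω)

/-- points of small depth for some slope in a ball -/
def Near (Ω : Set ℂ) (u m : ℂ → ℝ) (p₀ : ℂ) (ρ s : ℝ) : Set ℂ :=
  {c | c ∈ Ω ∧ ∃ p ∈ Metric.closedBall p₀ ρ, psi u m p c < s}

/-- interior of the projection -/
def Om (K : Set X) : Set ℂ := interior (Prod.fst '' K)
/-- minus the upper graph function -/
def uK (K : Set X) : ℂ → ℝ := (Om K).indicator (fun y => -sSup {z : ℝ | (y, z) ∈ K})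
def mK (K : Set X) (p : ℂ) : ℝ := -hs K (nv p)
/-- upper surface measure in the slope chart -/
def GK (K : Set X) : Measure ℂ := Gam (Om K) (uK K)
/-- upper amplitude -/
def TK (K : Set X) (p τ : ℂ) : ℂ := TT (Om K) (uK K) (mK K) p τ

/-- sum of the four surface measures -/
def Sig (K L : Set X) : Measure ℂ := GK K + GK (-K) + GK L + GK (-L)
/-- integral of `k` against the surface area measure of `K` -/
def II (K : Set X) (k : V → ℝ) : ℝ≥0∞ :=
  ∫⁻ p, ENNReal.ofReal (k (nv p)) ∂GK K + ∫⁻ p, ENNReal.ofReal (k (-nv p)) ∂GK (-K)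
/-- Poisson kernel of a half plane -/
def Pk (d t : ℝ) : ℝ := d / (Real.pi * (t ^ 2 + d ^ 2))

/-- Rademacher for convex functions on an open set -/
theorem ae_differentiableAt_of_convexOn {E : Type*} [NormedAddCommGroup E] [NormedSpace ℝ E]
    [FiniteDimensional ℝ E] [MeasurableSpace E] [BorelSpace E] (μ : Measure E)
    [μ.IsAddHaarMeasure] {Ω : Set E} {u : E → ℝ} (hΩ : IsOpen Ω) (hu : ConvexOn ℝ Ω u) :
    ∀ᵐ y ∂μ, y ∈ Ω → DifferentiableAt ℝ u y := by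
  have h := hu.locallyLipschitzOn hΩ
  have : μ {y | y ∈ Ω ∧ ¬ DifferentiableAt ℝ u y} = 0 := by
    apply measure_null_of_locally_null
    intro x hx
    obtain ⟨C, t, ht, hC⟩ := h hx.1
    rw [nhdsWithin_eq_nhds.2 (hΩ.mem_nhds hx.1)] at ht
    obtain ⟨o, hot, ho, hxo⟩ := mem_nhds_iff.1 ht
    refine ⟨o ∩ {y | y ∈ Ω ∧ ¬ DifferentiableAt ℝ u y}, ?_, ?_⟩
    · exact inter_mem (mem_nhdsWithin_of_mem_nhds (ho.mem_nhds hxo)) self_mem_nhdsWithin
    · have h2 := (hC.mono hot).ae_differentiableWithinAt_of_mem (μ := μ)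
      rw [ae_iff] at h2
      refine measure_mono_null ?_ h2
      rintro y ⟨hy, hy2⟩
      simp only [mem_ofPred_eq, Classical.not_imp]
      exact ⟨hy, fun hd => hy2.2 (hd.differentiableAt (ho.mem_nhds hy))⟩
  rw [ae_iff]
  simpa only [Classical.not_imp] using this

end Pool.Agent.MP_f27d50_gt
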