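import Pool.Agent.MP_f27d50_gt.KC4

set_option autoImplicit false

open MeasureTheory Set Filter Topology Complex
open scoped ENNReal Pointwise ComplexConjugate

noncomputable section

namespace Pool.Agent.MP_f27d50_gt

namespace KC

variable {F G G' : W → ℂ} {h : V → ℝ}

theorem line_I (F : W → ℂ) (ξ η : V) : line F (cx ξ 0) η I = ln F (cx ξ η) := by
  rw [line_cx]; simp

theorem norm_smul_le' {t T : ℝ} (ht : |t| ≤ T) {a : V} {A : ℝ} (ha : ‖a‖ ≤ A) :
    ‖t • a‖ ≤ T * A := by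
  rw [norm_smul, Real.norm_eq_abs]
  exact mul_le_mul ht ha (norm_nonneg _) ((abs_nonneg _).trans ht)

theorem ev_abs_lt {x T : ℝ} (hx : |x| ≤ T) : ∀ᶠ t : ℝ in 𝓝 x, |t| < T + 1 :=
  continuous_abs.continuousAt.eventually_lt continuousAt_const (by linarith)

theorem freq_shift {P : ℂ → Prop} {x₀ : ℝ} (h : ∀ᶠ x : ℝ in 𝓝 x₀, P (x + I)) :
    ∃ᶠ l in 𝓝[≠] ((x₀ : ℂ) + I), P l := by
  have ht : Tendsto (fun x : ℝ => (x : ℂ) + I) (𝓝[≠] x₀) (𝓝[≠] ((x₀ : ℂ) + I)) :=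
    tendsto_nhdsWithin_iff.2
      ⟨(continuous_ofReal.add continuous_const).continuousAt.mono_left nhdsWithin_le_nhds,
        eventually_mem_nhdsWithin.mono fun x hx h0 => hx (ofReal_injective (add_right_cancel h0))⟩
  exact ht.frequently (h.filter_mono nhdsWithin_le_nhds).frequently

theorem cplx_B (hF : Fam F h) (hG : Differentiable ℂ G)
    (hG' : Differentiable ℂ G') (G0 : G 0 ≠ 0) (G0' : G' 0 ≠ 0)
    (hle : ∀ ζ z, mB (ln F ζ) (ln G ζ) z ≤ ord (ln G' ζ) z) {u : V} (hu : Few F G' u) {ε : ℝ}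
    (hε : 0 < ε) : ∃ ρ > 0, ∀ᶠ r : ℝ in atTop, ∀ ξ η : V, ‖ξ - u‖ ≤ ρ → ‖η‖ ≤ ρ →
      S (mB (ln F (cx ξ η)) (ln G (cx ξ η))) (kP r) ≤ ε * Real.log r := by
  obtain ⟨ρ₁, hρ₁, hreal⟩ := real_B hF hG hG' G0 G0' hle hu (half_pos hε)
  obtain ⟨C, hC0, hC⟩ := tot hF (‖u‖ + ρ₁)
  obtain ⟨T, hT1, hT⟩ : ∃ T : ℝ, 1 ≤ T ∧ 4 * C / T ≤ ε / 2 := by
    refine ⟨1 + 8 * C / ε, le_add_of_nonneg_right (by positivity), ?_⟩
    rw [div_le_iff₀ (by positivity)]
    have : ε / 2 * (1 + 8 * C / ε) = ε / 2 + 4 * C := by field_simp; ring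
    linarith
  refine ⟨ρ₁ / (T + 2), by positivity, ?_⟩
  set ρ := ρ₁ / (T + 2) with hρ
  have hρ0 : 0 < ρ := by positivity
  have hρ1 : (T + 2) * ρ = ρ₁ := by rw [hρ]; field_simp
  filter_upwards [hreal, eventually_ge_atTop 1, ev_const_le 1 one_pos] with r hr hr1 hl ξ η hξ hη
  rw [one_mul] at hl
  have hr0 : 0 < r := by linarith
  obtain ⟨uA, uB, H⟩ := gen_line hF.diff hG hF.ne0 G0 (cx ξ 0) η (ker_kP hr0)
  have h1 := le_B H (kP_nonneg r) (sp_kP hr0) (l := I) (lf_ln hF.diff hF.ne0 _)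
  rw [line_I, line_I] at h1
  have h2 := halfdisc_bound (A := ε / 2 * Real.log r) (D := C * (Real.log r + 1)) (T := T) H.contB
    (fun z => (H.sub (sub_kP hr0) z).2) hT1 (by positivity) (fun x hx => ?_) (fun z hz _ => ?_)
  · have h3 : 2 * (C * (Real.log r + 1)) / T ≤ ε / 2 * Real.log r := by
      calc _ ≤ 2 * (C * (Real.log r + Real.log r)) / T := by gcongr
        _ = 4 * C / T * Real.log r := by ring
        _ ≤ _ := by gcongr
    linarith
  · refine B_le_freq H (freq_real ((ev_abs_lt hx).mono fun t ht => ?_))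
    rw [line_real, line_real]
    refine hr _ ?_
    have e : ξ + t • η - u = (ξ - u) + t • η := by abel
    have := norm_smul_le' ht.le hη
    rw [e]
    exact (norm_add_le _ _).trans (by linarith)
  · refine (B_le_tot H (kP_nonneg r) z).trans ?_
    rw [line_cx]
    have a1 := norm_smul_le' ((abs_re_le_norm z).trans hz.le) hη
    have a2 := norm_smul_le' ((abs_im_le_norm z).trans hz.le) hη
    have a3 := norm_le_of_near hξ
    have a4 := norm_nonneg u
    have := hC (ξ + z.re • η) (0 + z.im • η) ((norm_add_le _ _).trans (by linarith))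
      (by rw [zero_add]; linarith) r hr1
    have : 0 ≤ ε / 2 * Real.log r := by positivity
    linarith

/-- the Carleman sums of the excess zeros grow at most like `c log r` near `η` -/
def Bd (F G : W → ℂ) (η : V) (c : ℝ) : Prop :=
  ∀ ε > 0, ∃ δ > 0, ∀ X : ℝ, ∀ᶠ r : ℝ in atTop, ∀ ξ η' : V, ‖ξ‖ ≤ X → ‖η' - η‖ < δ →
    S (mB (ln F (cx ξ η')) (ln G (cx ξ η'))) (kC r) ≤ (c + ε) * Real.log r

theorem mB_le_tot (hF : Fam F h) (G : W → ℂ) (ζ : W) {r : ℝ} (hr : 0 < r) :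
    S (mB (ln F ζ) (ln G ζ)) (kC r) ≤ S (ord (ln F ζ)) (kC r) :=
  S_le (lf_ln hF.diff hF.ne0 ζ) (mB_le' _ _) (sp_kC hr) (sp_kC hr) (fun z _ => kC_nonneg r z)
    fun _ _ => le_rfl

theorem bd_wh (hF : Fam F h) (G : W → ℂ) (η : V) : Bd F G η (wh h η / Real.pi) := by
  intro ε hε
  obtain ⟨L, hL0, hL⟩ := exists_lip hF
  refine ⟨ε / (4 * L), by positivity, fun X => ?_⟩
  obtain ⟨C, -, hC⟩ := carl hF (max X (‖η‖ + ε / (4 * L)))
  filter_upwards [eventually_ge_atTop 1, ev_const_le C (half_pos hε)] with r hr hl ξ η' hξ hη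
  have h1 := hC ξ η' (hξ.trans (le_max_left _ _))
    ((norm_le_of_near hη.le).trans (le_max_right _ _)) r hr
  have h2 := mB_le_tot hF G (cx ξ η') (show 0 < r by linarith)
  have h3 := wh_div_le hF hL0 hL η' η
  have h4 : 2 * L * ‖η' - η‖ ≤ ε / 2 := by
    calc _ ≤ 2 * L * (ε / (4 * L)) := by gcongr
      _ = ε / 2 := by field_simp; ring
  have h5 : wh h η' / Real.pi * Real.log r ≤ (wh h η / Real.pi + ε / 2) * Real.log r :=
    mul_le_mul_of_nonneg_right (by linarith) (Real.log_nonneg hr)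
  linarith

theorem bd_zero (hF : Fam F h) (hG : Differentiable ℂ G)
    (hG' : Differentiable ℂ G') (G0 : G 0 ≠ 0) (G0' : G' 0 ≠ 0)
    (hle : ∀ ζ z, mB (ln F ζ) (ln G ζ) z ≤ ord (ln G' ζ) z) {u : V} (hu : Few F G' u) :
    Bd F G u 0 := by
  intro ε hε
  obtain ⟨ρ, hρ, hc⟩ := cplx_B hF hG hG' G0 G0' hle hu (show 0 < ε / 32 by positivity)
  obtain ⟨r₀, hr₀⟩ := eventually_atTop.1 hc
  refine ⟨ρ / 2, by positivity, fun X => ?_⟩
  set T := 2 + 2 * |X| / ρ with hT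
  have hT2 : 2 ≤ T := le_add_of_nonneg_right (by positivity)
  obtain ⟨C, hC0, hC⟩ := carl hF (|X| + T * (‖u‖ + ρ))
  filter_upwards [eventually_ge_atTop r₀, eventually_ge_atTop (2 * T),
    ev_const_le C (half_pos hε)] with r hr hrT hl ξ η hξ hη
  have hr1 : 1 ≤ r := by linarith
  have hr0 : 0 < r := by linarith
  have hlog := Real.log_nonneg hr1
  have hξ' : ‖ξ‖ ≤ |X| := hξ.trans (le_abs_self X)
  obtain ⟨uA, uB, H⟩ := gen_line hF.diff hG hF.ne0 G0 (cx ξ 0) η (ker_kC hr0)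
  have h1 := le_B H (kC_nonneg r) (sp_kC hr0) (l := I) (lf_ln hF.diff hF.ne0 _)
  rw [line_I, line_I] at h1
  have h2 := halfdisc_bound (A := C) (D := 8 * T * (ε / 32) * Real.log r) (T := T) H.contB
    (fun z => (H.sub (sub_kC hr0) z).2) (by linarith) (by positivity) (fun x hx => ?_)
    (fun z hz _ => ?_)
  · have h3 : 2 * (8 * T * (ε / 32) * Real.log r) / T = ε / 2 * Real.log r := by
      field_simp; ring
    linarith
  · refine (B_le_tot H (kC_nonneg r) x).trans ?_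
    rw [line_real]
    have a1 := norm_smul_le' hx ((norm_le_of_near hη.le).trans
      (show ‖u‖ + ρ / 2 ≤ ‖u‖ + ρ by linarith))
    have := hC (ξ + x • η) 0 ((norm_add_le _ _).trans (by linarith))
      (by rw [norm_zero]; positivity) r hr1
    rwa [wh_zero hF, zero_div, zero_mul, zero_add] at this
  · refine le_trans (B_le H ?_) (le_add_of_nonneg_left hC0)
    have e1 : ∀ᶠ l : ℂ in 𝓝 z, T - 1 < ‖l‖ :=
      continuousAt_const.eventually_lt continuous_norm.continuousAt (by linarith)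
    have e2 : ∀ᶠ l : ℂ in 𝓝 z, ‖l‖ < T + 1 :=
      continuous_norm.continuousAt.eventually_lt continuousAt_const (by linarith)
    filter_upwards [e1, e2] with l hl1 hl2
    have hn1 : 1 ≤ ‖l‖ := by linarith
    have hl0 : l ≠ 0 := norm_pos_iff.1 (by linarith)
    have hζ : cx ξ 0 + l • cx η 0 = l • cx (η + l⁻¹.re • ξ) (0 + l⁻¹.im • ξ) := by
      rw [← cx_add_smul, smul_add, smul_smul, mul_inv_cancel₀ hl0, one_smul, add_comm]
    have hsm : ∀ t : ℝ, |t| ≤ ‖l⁻¹‖ → ‖t • ξ‖ ≤ ρ / 2 := by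
      intro t ht
      refine (norm_smul_le' ht hξ').trans ?_
      rw [norm_inv, inv_mul_le_iff₀ (by linarith)]
      have b1 : 2 * |X| / ρ ≤ ‖l‖ := by linarith
      rw [div_le_iff₀ hρ] at b1
      linarith
    have hrl : r ≤ r * ‖l‖ := le_mul_of_one_le_right hr0.le hn1
    have hb := hr₀ (r * ‖l‖) (hr.trans hrl) (η + l⁻¹.re • ξ) (0 + l⁻¹.im • ξ)
      (by
        have e : η + l⁻¹.re • ξ - u = (η - u) + l⁻¹.re • ξ := by abel
        have := hsm _ (abs_re_le_norm _)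
        rw [e]
        exact (norm_add_le _ _).trans (by linarith))
      (by
        have := hsm _ (abs_im_le_norm _)
        rw [zero_add]
        linarith)
    have hrl0 : 0 < r * ‖l‖ := by linarith
    have hB := (lf_ln hF.diff hF.ne0 (cx (η + l⁻¹.re • ξ) (0 + l⁻¹.im • ξ))).mono
      (mB_le' _ (ln G (cx (η + l⁻¹.re • ξ) (0 + l⁻¹.im • ξ))))
    have hc := S_le hB (fun _ => le_rfl) ((sp_kC hr0).div hl0) ((sp_kP hrl0).mul (2 * ‖l‖))
      (fun t _ => mul_nonneg (by positivity) (kP_nonneg _ t)) fun t ht => by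
        have := kC_le_kP hr0 (t / l) (div_ne_zero ht hl0)
        rw [kP_div hr0 hl0] at this
        linarith
    rw [S_mul hB (sp_kP hrl0)] at hc
    have hlg : Real.log (r * ‖l‖) ≤ 2 * Real.log r := by
      have : Real.log ‖l‖ ≤ Real.log r := Real.log_le_log (by linarith) (by linarith)
      rw [Real.log_mul hr0.ne' (by linarith)]
      linarith
    simp only [line]
    rw [hζ, S_mB_smul F G _ hl0]
    calc _ ≤ _ := hc
      _ ≤ 2 * ‖l‖ * (ε / 32 * Real.log (r * ‖l‖)) := by gcongr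
      _ ≤ 2 * (2 * T) * (ε / 32 * (2 * Real.log r)) := by
          have : 0 ≤ Real.log (r * ‖l‖) := Real.log_nonneg (by linarith)
          gcongr
          linarith
      _ = _ := by ring

theorem bd_step (hF : Fam F h) (hG : Differentiable ℂ G) (G0 : G 0 ≠ 0) {u η : V} {c : ℝ}
    (hu : Bd F G u 0) (hc : 0 ≤ c) (hη : Bd F G η c) (t : ℝ) : Bd F G (η + t • u) c := by
  by_cases ht : t = 0
  · simpa [ht] using hη
  have ht0 : 0 < |t| := abs_pos.2 ht
  intro ε hε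
  obtain ⟨L, hL0, hL⟩ := exists_lip hF
  obtain ⟨δ₁, hδ₁, h₁⟩ := hη (ε / 4) (by positivity)
  obtain ⟨δ₂, hδ₂, h₂⟩ := hu (ε / (8 * |t|)) (by positivity)
  obtain ⟨κ, hκ1, hκ2, hκ3⟩ : ∃ κ : ℝ, 1 ≤ κ ∧ 1 ≤ |t| * κ ∧ ‖η‖ + δ₁ ≤ |t| * κ * δ₂ := by
    refine ⟨1 + 1 / |t| + (‖η‖ + δ₁) / (|t| * δ₂), ?_, ?_, ?_⟩
    · have : 0 ≤ 1 / |t| + (‖η‖ + δ₁) / (|t| * δ₂) := by positivity
      linarith
    · have e : |t| * (1 + 1 / |t| + (‖η‖ + δ₁) / (|t| * δ₂)) = |t| + 1 + (‖η‖ + δ₁) / δ₂ := by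
        field_simp
      have : 0 ≤ (‖η‖ + δ₁) / δ₂ := by positivity
      linarith
    · have e : |t| * (1 + 1 / |t| + (‖η‖ + δ₁) / (|t| * δ₂)) * δ₂ =
          (|t| + 1) * δ₂ + (‖η‖ + δ₁) := by field_simp
      have : 0 ≤ (|t| + 1) * δ₂ := by positivity
      linarith
  have hκ0 : 0 < κ := by linarith
  set T₀ := t * κ with hT₀
  have hT₀a : |T₀| = |t| * κ := by rw [hT₀, abs_mul, abs_of_pos hκ0]
  rw [← hT₀a] at hκ2 hκ3
  have hT₀0 : T₀ ≠ 0 := abs_pos.1 (by linarith)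
  set A := ‖η‖ + δ₁ + ‖T₀ • u‖ with hA
  have hA0 : 0 ≤ A := by positivity
  obtain ⟨T, hT1, hT⟩ : ∃ T : ℝ, 1 ≤ T ∧ 2 * L * A / T ^ 2 ≤ ε / 4 := by
    have h1 : 1 ≤ 1 + 8 * L * A / ε := le_add_of_nonneg_right (by positivity)
    refine ⟨1 + 8 * L * A / ε, h1, ?_⟩
    rw [div_le_iff₀ (by positivity)]
    have h2 : ε / 4 * (1 + 8 * L * A / ε) = ε / 4 + 2 * L * A := by field_simp; ring
    have h3 : ε / 4 * (1 + 8 * L * A / ε) ≤ ε / 4 * (1 + 8 * L * A / ε) ^ 2 := by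
      gcongr; nlinarith
    linarith
  refine ⟨δ₁, hδ₁, fun X => ?_⟩
  set X₁ := X + (T + 1) * ‖T₀ • u‖ with hX₁
  obtain ⟨r₂, hr₂⟩ := eventually_atTop.1 (h₂ X₁)
  obtain ⟨C, hC0, hC⟩ := carl hF (max X₁ A)
  filter_upwards [h₁ X₁, eventually_ge_atTop r₂, eventually_ge_atTop |T₀|,
    ev_const_le C (show 0 < ε / 4 by positivity)] with r hb hr2 hrT hl ξ η₁ hξ hη₁
  have hr1 : 1 ≤ r := by linarith
  have hr0 : 0 < r := by linarith
  have hlog := Real.log_nonneg hr1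
  have hη' : ‖η₁ - t • u - η‖ < δ₁ := by
    have e : η₁ - t • u - η = η₁ - (η + t • u) := by abel
    rwa [e]
  set η' := η₁ - t • u with hη'd
  have hn' : ‖η'‖ < ‖η‖ + δ₁ := by
    have := norm_add_le (η' - η) η
    rw [sub_add_cancel] at this
    linarith
  have hX : ∀ s : ℝ, |s| ≤ T + 1 → ‖ξ + s • T₀ • u‖ ≤ X₁ := fun s hs =>
    (norm_add_le _ _).trans (add_le_add hξ (norm_smul_le' hs le_rfl))
  obtain ⟨uA, uB, H⟩ := gen_line hF.diff hG hF.ne0 G0 (cx ξ η') (T₀ • u) (ker_kC hr0)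
  have hs0 : 0 ≤ κ⁻¹ := by positivity
  have hs1 : κ⁻¹ ≤ 1 := inv_le_one_of_one_le₀ hκ1
  have h1 := le_B H (kC_nonneg r) (sp_kC hr0) (l := I * (κ⁻¹ : ℝ)) (lf_ln hF.diff hF.ne0 _)
  have htar : ∀ K : W → ℂ, line K (cx ξ η') (T₀ • u) (I * (κ⁻¹ : ℝ)) = ln K (cx ξ η₁) := by
    intro K
    have e1 : (I * ((κ⁻¹ : ℝ) : ℂ)).re = 0 := by rw [I_mul_re, ofReal_im, neg_zero]
    have e2 : (I * ((κ⁻¹ : ℝ) : ℂ)).im = κ⁻¹ := by rw [I_mul_im, ofReal_re]
    have e3 : κ⁻¹ * T₀ = t := by rw [hT₀]; field_simp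
    rw [line_cx, e1, e2, zero_smul, add_zero, smul_smul, e3, hη'd, sub_add_cancel]
  rw [htar, htar] at h1
  have h2 := strip_bound (c₀ := (c + ε / 4) * Real.log r)
    (c₁ := |T₀| * (ε / (8 * |t|) * (2 * Real.log r))) (E := 2 * L * A * Real.log r + C) (T := T)
    (s := κ⁻¹) H.contB (fun z => (H.sub (sub_kC hr0) z).2) hT1 (by positivity) (fun x hx => ?_)
    (fun x hx => ?_) (fun z hz1 hz2 hz3 => ?_) hs0 hs1
  · have h3 : κ⁻¹ * (|T₀| * (ε / (8 * |t|) * (2 * Real.log r))) = ε / 4 * Real.log r := by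
      rw [hT₀a]; field_simp; ring
    have h4 : (2 * L * A * Real.log r + C) / T ^ 2 ≤ ε / 4 * Real.log r + C := by
      have b1 : C / T ^ 2 ≤ C := div_le_self hC0 (one_le_pow₀ hT1)
      have b2 : 2 * L * A / T ^ 2 * Real.log r ≤ ε / 4 * Real.log r := by gcongr
      calc _ = 2 * L * A / T ^ 2 * Real.log r + C / T ^ 2 := by ring
        _ ≤ _ := by linarith
    have h5 : 0 ≤ κ⁻¹ * ((c + ε / 4) * Real.log r) := by positivity
    linarith
  · refine B_le_freq H (freq_real ((ev_abs_lt hx).mono fun s hs => ?_))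
    rw [line_real, line_real]
    exact hb _ _ (hX s hs.le) hη'
  · refine B_le_freq H (freq_shift ((ev_abs_lt hx).mono fun s hs => ?_))
    have hinv : |T₀⁻¹| ≤ 1 := by rw [abs_inv]; exact inv_le_one_of_one_le₀ hκ2
    have hζ : ∀ K : W → ℂ, line K (cx ξ η') (T₀ • u) (s + I) =
        ln K ((T₀ : ℂ) • cx (T₀⁻¹ • (ξ + s • T₀ • u)) (T₀⁻¹ • η' + u)) := by
      intro K
      rw [line_cx, smul_cx]
      simp [smul_smul, mul_inv_cancel₀ hT₀0, mul_inv_cancel_left₀ hT₀0]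
    have hrT0 : r ≤ r * |T₀| := le_mul_of_one_le_right hr0.le hκ2
    have hb2 := hr₂ (r * |T₀|) (hr2.trans hrT0) (T₀⁻¹ • (ξ + s • T₀ • u)) (T₀⁻¹ • η' + u)
      (by simpa using norm_smul_le' hinv (hX s hs.le))
      (by
        rw [add_sub_cancel_right, norm_smul, Real.norm_eq_abs, abs_inv,
          inv_mul_lt_iff₀ (by linarith)]
        linarith)
    have hB := (lf_ln hF.diff hF.ne0 (cx (T₀⁻¹ • (ξ + s • T₀ • u)) (T₀⁻¹ • η' + u))).mono
      (mB_le' _ (ln G (cx (T₀⁻¹ • (ξ + s • T₀ • u)) (T₀⁻¹ • η' + u))))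
    have hlg : Real.log (r * |T₀|) ≤ 2 * Real.log r := by
      have : Real.log |T₀| ≤ Real.log r := Real.log_le_log (by linarith) hrT
      rw [Real.log_mul hr0.ne' (by linarith)]
      linarith
    rw [hζ, hζ, S_mB_smul F G _ (ofReal_ne_zero.2 hT₀0)]
    simp only [kC_div hr0 hT₀0]
    rw [S_mul hB (sp_kC (by linarith))]
    rw [zero_add] at hb2
    gcongr
    exact hb2.trans (by gcongr)
  · refine (B_le_tot H (kC_nonneg r) z).trans ?_
    rw [line_cx]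
    have a1 : ‖η' + z.im • T₀ • u‖ ≤ A := by
      have := norm_smul_le' (show |z.im| ≤ 1 by rwa [abs_of_nonneg hz2]) (le_refl ‖T₀ • u‖)
      exact (norm_add_le _ _).trans (by linarith)
    have a2 := hC _ _ ((hX z.re (by linarith)).trans (le_max_left _ _))
      (a1.trans (le_max_right _ _)) r hr1
    have a3 : wh h (η' + z.im • T₀ • u) / Real.pi * Real.log r ≤ 2 * L * A * Real.log r := by
      have := (wh_div_le' hF hL0 hL (η' + z.im • T₀ • u)).trans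
        (mul_le_mul_of_nonneg_left a1 (by positivity))
      gcongr
    have a4 : 0 ≤ min ((c + ε / 4) * Real.log r) (|T₀| * (ε / (8 * |t|) * (2 * Real.log r))) :=
      le_min (by positivity) (by positivity)
    linarith

theorem le_of_bd (hF : Fam F h) (hG : Differentiable ℂ G) (G0 : G 0 ≠ 0) {v : V}
    (hv : Few F G v) {c : ℝ} (hb : Bd F G v c) : wh h v / Real.pi ≤ c := by
  refine le_of_forall_pos_le_add fun ε₅ hε₅ => ?_
  obtain ⟨ε, hε, rfl⟩ : ∃ ε : ℝ, 0 < ε ∧ ε₅ = 5 * ε := ⟨ε₅ / 5, by positivity, by ring⟩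
  obtain ⟨L, hL0, hL⟩ := exists_lip hF
  obtain ⟨δ, hδ, h1⟩ := hb ε hε
  obtain ⟨x₀, hx₀, hlev⟩ := lev hF hε (‖v‖ + 1)
  obtain ⟨C, -, hC⟩ := carl hF (‖v‖ + 1)
  have h2 := real_A hF hG G0 hv hε (show 0 < min δ (min 1 (ε / (2 * L))) by positivity)
  set w := wh h v / Real.pi with hw
  obtain ⟨r, ⟨hbd, p, hp, hA⟩, hr1, hrx, hl⟩ := (((h1 0).and h2).and ((eventually_gt_atTop 1).and
    ((eventually_ge_atTop x₀).and (ev_const_le (C + (w - 2 * ε) * Real.log x₀) hε)))).exists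
  have hr0 : 0 < r := by linarith
  have hp1 : ‖p - v‖ < δ := hp.trans_le (min_le_left _ _)
  have hp2 : ‖p‖ ≤ ‖v‖ + 1 :=
    norm_le_of_near (hp.le.trans ((min_le_right _ _).trans (min_le_left _ _)))
  have hp3 : 2 * L * ‖p - v‖ ≤ ε := by
    calc _ ≤ 2 * L * (ε / (2 * L)) := by
          gcongr; exact hp.le.trans ((min_le_right _ _).trans (min_le_right _ _))
      _ = ε := by field_simp
  have hlf := lf_ln hF.diff hF.ne0 (cx p 0)
  have h3 := lower_kP hlf (γ := w - 2 * ε) hx₀ hrx fun x hx => by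
    have a1 := hlev p hp2 x hx.1
    have a2 := wh_div_le hF hL0 hL v p
    rw [norm_sub_rev] at a2
    have a3 : x * (w - 2 * ε) ≤ x * (wh h p / Real.pi - ε) :=
      mul_le_mul_of_nonneg_left (by linarith) (hx₀.le.trans hx.1)
    linarith
  rw [Real.log_div hr0.ne' hx₀.ne', ← S_split (ln G (cx p 0)) hlf (sp_kP hr0)] at h3
  have hB := hlf.mono (mB_le' _ (ln G (cx p 0)))
  have h4 := S_le hB (fun _ => le_rfl) (sp_kP hr0) ((sp_kC hr0).add ((sp_kC hr0).div I_ne_zero))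
    (fun z _ => add_nonneg (kC_nonneg _ _) (kC_nonneg _ _)) (kP_le_kC hr0)
  rw [S_add hB (sp_kC hr0) ((sp_kC hr0).div I_ne_zero), ← S_mB_smul F G _ I_ne_zero,
    I_smul_cx] at h4
  have h5 := hbd (-0) p (by simp) hp1
  have h6 := mB_le_tot hF G (cx p 0) hr0
  have h7 := hC p 0 hp2 (by rw [norm_zero]; positivity) r hr1.le
  rw [wh_zero hF, zero_div, zero_mul, zero_add] at h7
  have h8 : w * Real.log r ≤ (c + 5 * ε) * Real.log r := by linarith
  exact le_of_mul_le_mul_right h8 (Real.log_pos hr1)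

end KC

open KC in
theorem kc {F G G' : W → ℂ} {h : V → ℝ} (hF : Fam F h) (hG : Differentiable ℂ G)
    (hG' : Differentiable ℂ G') (G0 : G 0 ≠ 0) (G0' : G' 0 ≠ 0)
    (hle : ∀ ζ z, mB (ln F ζ) (ln G ζ) z ≤ ord (ln G' ζ) z) {v : V} (hv : Few F G v) {u : V}
    (hu : u ∈ Submodule.span ℝ {u | Few F G' u}) :
    h v + h (-v) ≤ h (v + u) + h (-(v + u)) := by
  have key : ∀ (t : ℝ) (η : V) (c : ℝ), 0 ≤ c → Bd F G η c → Bd F G (η + t • u) c := by
    induction hu using Submodule.span_induction with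
    | mem u hu => exact fun t η c hc hb => bd_step hF hG G0 (bd_zero hF hG hG' G0 G0' hle hu) hc hb t
    | zero => intro t η c _ hb; simpa using hb
    | add a b _ _ ha hb =>
      intro t η c hc h0
      have := hb t _ c hc (ha t η c hc h0)
      rwa [add_assoc, ← smul_add] at this
    | smul s a _ ha =>
      intro t η c hc h0
      have := ha (t * s) η c hc h0
      rwa [← smul_smul] at this
  have h1 := key (-1) (v + u) _ (div_nonneg (wh_nonneg hF _) Real.pi_pos.le) (bd_wh hF G (v + u))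
  rw [neg_one_smul, add_neg_cancel_right] at h1
  have h2 := le_of_bd hF hG G0 hv h1
  exact (div_le_div_iff_of_pos_right Real.pi_pos).1 h2

end Pool.Agent.MP_f27d50_gt
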