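import Pool.Agent.MP_f27d50_gt.Defs

set_option autoImplicit false

open MeasureTheory Set Filter Topology Complex
open scoped ENNReal Pointwise ComplexConjugate

noncomputable section

namespace Pool.Agent.MP_f27d50_gt

theorem order_ne_top {f : ℂ → ℂ} (hf : Differentiable ℂ f) (h0 : ∃ z, f z ≠ 0) (z : ℂ) :
    analyticOrderAt f z ≠ ⊤ := by
  intro h
  obtain ⟨w, hw⟩ := h0
  have := (AnalyticOnNhd.analyticOrderAt_eq_top_iff_eq_zero z
    (fun z => hf.analyticAt z)).1 h
  exact hw (by simp [this])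

theorem finite_zeros {f : ℂ → ℂ} (hf : Differentiable ℂ f) (h0 : ∃ z, f z ≠ 0) (r : ℝ) :
    {z : ℂ | ‖z‖ ≤ r ∧ f z = 0}.Finite := by
  by_contra hinf
  have hsub : {z : ℂ | ‖z‖ ≤ r ∧ f z = 0} ⊆ Metric.closedBall 0 r := fun z hz => by
    simpa using hz.1
  obtain ⟨x, -, hx⟩ := (Set.Infinite.exists_accPt_of_subset_isCompact hinf
    (isCompact_closedBall 0 r) hsub)
  rw [accPt_iff_frequently_nhdsNE] at hx
  have h1 : ∃ᶠ z in 𝓝[≠] x, f z = 0 := hx.mono fun z hz => hz.2
  have := ((hf.analyticAt x).frequently_zero_iff_eventually_zero).1 h1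
  exact order_ne_top hf h0 x (analyticOrderAt_eq_top.2 this)

theorem S_eq_sum {μ : ℂ → ℕ} {k : ℂ → ℝ} (s : Finset ℂ) (h : ∀ z, z ∉ s → μ z = 0 ∨ k z = 0) :
    S μ k = ∑ z ∈ s, (μ z : ℝ) * k z := by
  unfold S
  apply finsum_eq_sum_of_support_subset
  intro z hz
  by_contra hzs
  rcases h z hzs with h1 | h1 <;> simp [h1] at hz

theorem ord_eq_zero {f : ℂ → ℂ} (hf : Differentiable ℂ f) {z : ℂ} (hz : f z ≠ 0) : ord f z = 0 := by
  unfold ord analyticOrderNatAt
  rw [(hf.analyticAt z).analyticOrderAt_eq_zero.2 hz]; rfl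

theorem ord_eq_zero_iff {f : ℂ → ℂ} (hf : Differentiable ℂ f) (h0 : ∃ z, f z ≠ 0) {z : ℂ} :
    ord f z = 0 ↔ f z ≠ 0 := by
  refine ⟨fun h => ?_, ord_eq_zero hf⟩
  rw [← (hf.analyticAt z).analyticOrderAt_eq_zero, ← Nat.cast_analyticOrderNatAt
    (order_ne_top hf h0 z)]
  unfold ord at h
  rw [h]; rfl

theorem ord_mul {f g : ℂ → ℂ} (hf : Differentiable ℂ f) (hg : Differentiable ℂ g)
    (f0 : ∃ z, f z ≠ 0) (g0 : ∃ z, g z ≠ 0) (z : ℂ) :
    ord (fun w => f w * g w) z = ord f z + ord g z :=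
  analyticOrderNatAt_mul (hf.analyticAt z) (hg.analyticAt z) (order_ne_top hf f0 z)
    (order_ne_top hg g0 z)

theorem ord_sub_pow (a z : ℂ) (n : ℕ) :
    ord (fun w => (w - a) ^ n) z = if z = a then n else 0 := by
  split_ifs with h
  · subst h
    unfold ord analyticOrderNatAt
    have := analyticOrderAt_centeredMonomial (𝕜 := ℂ) (z₀ := z) (n := n)
    have e : (fun w : ℂ => (w - z) ^ n) = ((· - z) ^ n) := by ext w; simp
    rw [e, this]; rfl
  · exact ord_eq_zero (by fun_prop) (pow_ne_zero _ (sub_ne_zero.2 h))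

theorem exists_div_one {f : ℂ → ℂ} (hf : Differentiable ℂ f) (h0 : ∃ z, f z ≠ 0) (a : ℂ) (n : ℕ)
    (hn : n ≤ ord f a) : ∃ g : ℂ → ℂ, Differentiable ℂ g ∧ ∀ w, f w = (w - a) ^ n * g w := by
  induction n with
  | zero => exact ⟨f, hf, by simp⟩
  | succ n ih =>
    obtain ⟨g, hg, hfg⟩ := ih (by omega)
    have g0 : ∃ z, g z ≠ 0 := by
      obtain ⟨z, hz⟩ := h0
      exact ⟨z, fun h => hz (by rw [hfg, h, mul_zero])⟩
    have hga : g a = 0 := by
      by_contra hga
      have h1 := ord_mul (f := fun w => (w - a) ^ n) (by fun_prop) hg ⟨a + 1, by simp⟩ g0 a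
      have h2 : (fun w => (w - a) ^ n * g w) = f := by ext w; rw [hfg]
      rw [h2, ord_sub_pow, ord_eq_zero hg hga] at h1
      simp at h1; omega
    refine ⟨dslope g a, ?_, fun w => ?_⟩
    · rw [← differentiableOn_univ]
      exact (differentiableOn_dslope univ_mem).2 hg.differentiableOn
    · have := sub_smul_dslope g a w
      rw [hga, sub_zero, smul_eq_mul] at this
      rw [hfg, ← this]; ring

theorem exists_div {f : ℂ → ℂ} (hf : Differentiable ℂ f) (h0 : ∃ z, f z ≠ 0) (s : Finset ℂ)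
    (μ : ℂ → ℕ) (hμ : ∀ z ∈ s, μ z ≤ ord f z) :
    ∃ g : ℂ → ℂ, Differentiable ℂ g ∧ (∀ w, f w = (∏ z ∈ s, (w - z) ^ μ z) * g w) ∧
      (∀ z ∈ s, ord g z = ord f z - μ z) ∧ (∀ z, z ∉ s → ord g z = ord f z) := by
  classical
  induction s using Finset.induction_on with
  | empty => exact ⟨f, hf, by simp, by simp, by simp⟩
  | insert a s ha ih =>
    obtain ⟨g, hg, hfg, h1, h2⟩ := ih (fun z hz => hμ z (Finset.mem_insert_of_mem hz))
    have g0 : ∃ z, g z ≠ 0 := by
      obtain ⟨z, hz⟩ := h0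
      exact ⟨z, fun h => hz (by rw [hfg, h, mul_zero])⟩
    have hle : μ a ≤ ord g a := by rw [h2 a ha]; exact hμ a (Finset.mem_insert_self _ _)
    obtain ⟨g', hg', hgg⟩ := exists_div_one hg g0 a (μ a) hle
    have g0' : ∃ z, g' z ≠ 0 := by
      obtain ⟨z, hz⟩ := g0
      exact ⟨z, fun h => hz (by rw [hgg, h, mul_zero])⟩
    have hord : ∀ z, ord g z = (if z = a then μ a else 0) + ord g' z := by
      intro z
      have h3 := ord_mul (f := fun w => (w - a) ^ μ a) (by fun_prop) hg' ⟨a + 1, by simp⟩ g0' z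
      have h4 : (fun w => (w - a) ^ μ a * g' w) = g := by ext w; rw [hgg]
      rw [h4, ord_sub_pow] at h3
      exact h3
    refine ⟨g', hg', fun w => ?_, fun z hz => ?_, fun z hz => ?_⟩
    · rw [Finset.prod_insert ha, hfg, hgg]; ring
    · rcases Finset.mem_insert.1 hz with rfl | hz'
      · have := hord z
        rw [h2 z ha] at this
        simp at this; omega
      · have hza : z ≠ a := fun h => ha (h ▸ hz')
        have := hord z
        rw [h1 z hz', if_neg hza] at this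
        omega
    · have hza : z ≠ a := fun h => hz (h ▸ Finset.mem_insert_self _ _)
      have := hord z
      rw [h2 z (fun h => hz (Finset.mem_insert_of_mem h)), if_neg hza] at this
      omega

end Pool.Agent.MP_f27d50_gt
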