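import Pool.Agent.MP_f27d50_gt.Geom3
import Pool.Agent.MP_f27d50_gt.Zeros

set_option autoImplicit false

open MeasureTheory Set Filter Topology Complex
open scoped ENNReal Pointwise ComplexConjugate

noncomputable section

namespace Pool.Agent.MP_f27d50_gt

namespace GeomAux

/-- the Fourier-Laplace transform of the covariogram -/
theorem FT_mul_neg {K : Set X} (h : IsCompact K) (ζ : W) :
    FT K ζ * FT (-K) ζ = ∫ v : X, Complex.exp (I * cdot ζ v) *
      (((volume : Measure X) (K ∩ ((fun y => y + v) '' K))).toReal : ℂ) := by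
  have hm : MeasurableSet K := h.measurableSet
  have hm' : MeasurableSet (-K) := h.neg.measurableSet
  have hi : Integrable (K.indicator fun x : X => Complex.exp (I * cdot ζ x)) volume :=
    (integrable_indicator_iff hm).2 ((continuous_ex ζ).continuousOn.integrableOn_compact h)
  have hi' : Integrable ((-K).indicator fun x : X => Complex.exp (I * cdot ζ x)) volume :=
    (integrable_indicator_iff hm').2 ((continuous_ex ζ).continuousOn.integrableOn_compact h.neg)
  have key := integral_convolution (ContinuousLinearMap.mul ℝ ℂ) hi hi'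
  rw [integral_indicator hm, integral_indicator hm', ContinuousLinearMap.mul_apply'] at key
  unfold FT
  rw [← key]
  congr 1
  ext v
  have hv : MeasurableSet (K ∩ ((fun y => y + v) '' K)) :=
    hm.inter (h.image (by fun_prop)).measurableSet
  rw [convolution_def]
  have e : ∀ t : X, ContinuousLinearMap.mul ℝ ℂ
      (K.indicator (fun x : X => Complex.exp (I * cdot ζ x)) t)
      ((-K).indicator (fun x : X => Complex.exp (I * cdot ζ x)) (v - t)) =
      (K ∩ ((fun y => y + v) '' K)).indicator (fun _ => Complex.exp (I * cdot ζ v)) t := by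
    intro t
    have hiff : t ∈ (fun y => y + v) '' K ↔ v - t ∈ -K := by
      rw [image_add_right, mem_preimage, Set.mem_neg, neg_sub, sub_eq_add_neg]
    rw [ContinuousLinearMap.mul_apply']
    by_cases h1 : t ∈ K
    · by_cases h2 : v - t ∈ -K
      · rw [indicator_of_mem h1, indicator_of_mem h2, indicator_of_mem (mem_inter h1 (hiff.2 h2)),
          ← Complex.exp_add, cdot_sub_right]
        congr 1
        ring
      · rw [indicator_of_notMem h2, mul_zero, indicator_of_notMem fun h3 => h2 (hiff.1 h3.2)]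
    · rw [indicator_of_notMem h1, zero_mul, indicator_of_notMem fun h3 => h1 h3.1]
  simp only [e]
  rw [integral_indicator hv, setIntegral_const, measureReal_def, Complex.real_smul, mul_comm]

theorem FT_mul_neg_real (K : Set X) (ξ : V) :
    FT K (cx ξ 0) * FT (-K) (cx ξ 0) = ((‖FT K (cx ξ 0)‖ ^ 2 : ℝ) : ℂ) := by
  have := FT_conj K ξ 1
  simp only [map_one, neg_smul, one_smul] at this
  rw [FT_neg, this, Complex.mul_conj, Complex.normSq_eq_norm_sq]

theorem prod_eq {K L : Set X} (hK : Body K) (hL : Body L)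
    (h : ∀ ξ, ‖FT K (cx ξ 0)‖ = ‖FT L (cx ξ 0)‖) (ζ : W) :
    FT K ζ * FT (-K) ζ = FT L ζ * FT (-L) ζ := by
  set ξ : V := fun i => (ζ i).re with hξ
  set η : V := fun i => (ζ i).im with hη
  have d : ∀ {M : Set X}, Body M → AnalyticOnNhd ℂ (fun l : ℂ =>
      FT M (cx ξ 0 + l • cx η 0) * FT (-M) (cx ξ 0 + l • cx η 0)) univ := by
    intro M hM
    have d1 := differentiable_FT hM.cpt
    have d2 := differentiable_FT hM.neg.cpt
    have : Differentiable ℂ (fun l : ℂ =>
      FT M (cx ξ 0 + l • cx η 0) * FT (-M) (cx ξ 0 + l • cx η 0)) := by fun_prop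
    exact fun z _ => this.analyticAt z
  have ht : Tendsto (fun l : ℝ => (l : ℂ)) (𝓝[≠] 0) (𝓝[≠] 0) := by
    refine tendsto_nhdsWithin_iff.2 ⟨?_, ?_⟩
    · simpa using (continuous_ofReal.tendsto 0).mono_left nhdsWithin_le_nhds
    · filter_upwards [self_mem_nhdsWithin] with l hl
      simpa using hl
  have e := (d hK).eq_of_frequently_eq (d hL) (z₀ := 0) (ht.frequently
    (Eventually.frequently (Eventually.of_forall fun l => by
      have : cx ξ 0 + (l : ℂ) • cx η 0 = cx (ξ + l • η) 0 := by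
        ext i; simp [cx]
      simp only [this]
      rw [FT_mul_neg_real, FT_mul_neg_real, h])))
  have e2 : cx ξ 0 + I • cx η 0 = ζ := by
    ext i
    simp only [cx, hξ, hη, Pi.add_apply, Pi.smul_apply, Pi.zero_apply, ofReal_zero, mul_zero,
      add_zero, smul_eq_mul]
    rw [mul_comm, re_add_im]
  have := congrFun e I
  simpa only [e2] using this

theorem le_of_exp {C D a b : ℝ} (hC : 0 < C)
    (h : ∀ y, 0 ≤ y → C * Real.exp (a * y) ≤ D * Real.exp (b * y)) : a ≤ b := by
  by_contra hab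
  have hd : 0 < a - b := by linarith
  have hD : C ≤ D := by simpa using h 0 le_rfl
  have h1 := h (D / C / (a - b)) (by have := hC.trans_le hD; positivity)
  have h2 : a * (D / C / (a - b)) = D / C + b * (D / C / (a - b)) := by field_simp; ring
  rw [h2, Real.exp_add, ← mul_assoc] at h1
  have h3 := le_of_mul_le_mul_right h1 (Real.exp_pos _)
  have h4 := Real.add_one_le_exp (D / C)
  have h5 : C * (D / C + 1) ≤ C * Real.exp (D / C) := by gcongr
  have h6 : C * (D / C + 1) = D + C := by field_simp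
  linarith

theorem wd_le {K L : Set X} (hK : Body K) (hL : Body L)
    (h : ∀ ξ, ‖FT K (cx ξ 0)‖ = ‖FT L (cx ξ 0)‖) (η : V) : wd K η ≤ wd L η := by
  refine le_of_forall_pos_le_add fun ε hε => ?_
  obtain ⟨c₁, hc₁, h₁⟩ := (fam_body hK).lb (ε / 2) (by positivity) ‖η‖
  obtain ⟨c₂, hc₂, h₂⟩ := (fam_body hK.neg).lb (ε / 2) (by positivity) ‖η‖
  have p₁ : 0 < ‖FT K 0‖ := norm_pos_iff.2 (fam_body hK).ne0
  have p₂ : 0 < ‖FT (-K) 0‖ := norm_pos_iff.2 (fam_body hK.neg).ne0
  have : wd K η - ε ≤ wd L η := by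
    refine le_of_exp (C := c₁ * ‖FT K 0‖ * (c₂ * ‖FT (-K) 0‖)) (D := ‖FT L 0‖ * ‖FT (-L) 0‖)
      (by positivity) fun y hy => ?_
    have a₁ := h₁ η le_rfl y hy
    have a₂ := h₂ η le_rfl y hy
    have b₁ := (fam_body hL).ub 0 (-(y • η))
    have b₂ := (fam_body hL.neg).ub 0 (-(y • η))
    rw [neg_neg, (fam_body hL).smul y hy] at b₁
    rw [neg_neg, (fam_body hL.neg).smul y hy, hs_neg] at b₂
    rw [hs_neg] at a₂
    have e := congrArg norm (prod_eq hK hL h (cx 0 (-(y • η))))
    rw [norm_mul, norm_mul] at e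
    have a := mul_le_mul a₁ a₂ (by positivity) (norm_nonneg _)
    have b := mul_le_mul b₁ b₂ (norm_nonneg _) (by positivity)
    have e₁ : Real.exp ((wd K η - ε) * y) =
        Real.exp ((hs K η - ε / 2) * y) * Real.exp ((hs K (-η) - ε / 2) * y) := by
      rw [← Real.exp_add]; unfold wd; congr 1; ring
    have e₂ : Real.exp (wd L η * y) = Real.exp (y * hs L η) * Real.exp (y * hs L (-η)) := by
      rw [← Real.exp_add]; unfold wd; congr 1; ring
    rw [e₁, e₂]
    linarith
  linarith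

end GeomAux

open GeomAux

theorem cov_norm {K L : Set X} (hK : Body K) (hL : Body L)
    (h : ∀ x : X, volume (K ∩ ((fun y => y + x) '' K)) = volume (L ∩ ((fun y => y + x) '' L)))
    (ξ : V) : ‖FT K (cx ξ 0)‖ = ‖FT L (cx ξ 0)‖ := by
  have e : FT K (cx ξ 0) * FT (-K) (cx ξ 0) = FT L (cx ξ 0) * FT (-L) (cx ξ 0) := by
    rw [FT_mul_neg hK.cpt, FT_mul_neg hL.cpt]
    simp only [h]
  rw [FT_mul_neg_real, FT_mul_neg_real, ofReal_inj] at e
  exact (pow_left_inj₀ (norm_nonneg _) (norm_nonneg _) two_ne_zero).1 e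

theorem vol_eq {K L : Set X} (hK : Body K) (hL : Body L)
    (h : ∀ ξ, ‖FT K (cx ξ 0)‖ = ‖FT L (cx ξ 0)‖) : volume K = volume L := by
  have e := h 0
  have h0 : cx 0 0 = 0 := by ext i; simp [cx]
  rw [h0, norm_FT_zero, norm_FT_zero] at e
  exact (ENNReal.toReal_eq_toReal_iff' hK.cpt.measure_lt_top.ne hL.cpt.measure_lt_top.ne).1 e

theorem wd_eq {K L : Set X} (hK : Body K) (hL : Body L)
    (h : ∀ ξ, ‖FT K (cx ξ 0)‖ = ‖FT L (cx ξ 0)‖) (η : V) : wd K η = wd L η :=
  le_antisymm (wd_le hK hL h η) (wd_le hL hK (fun ξ => (h ξ).symm) η)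

theorem mB_le {K L : Set X} (hK : Body K) (hL : Body L)
    (h : ∀ ξ, ‖FT K (cx ξ 0)‖ = ‖FT L (cx ξ 0)‖) (ζ : W) (z : ℂ) :
    mB (ln (FT K) ζ) (ln (FT L) ζ) z ≤ ord (ln (FT (-L)) ζ) z := by
  have d : ∀ {M : Set X}, Body M → Differentiable ℂ (ln (FT M) ζ) := fun hM =>
    differentiable_ln (differentiable_FT hM.cpt) ζ
  have n : ∀ {M : Set X}, Body M → ∃ w, ln (FT M) ζ w ≠ 0 := fun hM =>
    ⟨0, by simpa [ln] using (fam_body hM).ne0⟩
  have e₁ := ord_mul (d hK) (d hK.neg) (n hK) (n hK.neg) z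
  have e₂ := ord_mul (d hL) (d hL.neg) (n hL) (n hL.neg) z
  have e : (fun w => ln (FT K) ζ w * ln (FT (-K)) ζ w) =
      fun w => ln (FT L) ζ w * ln (FT (-L)) ζ w := by
    ext w; exact prod_eq hK hL h _
  rw [e, e₂] at e₁
  unfold mB
  omega

end Pool.Agent.MP_f27d50_gt
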