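import Pool.Agent.MP_f27d50_gt.LineP

set_option autoImplicit false

open MeasureTheory Set Filter Topology Complex
open scoped ENNReal Pointwise ComplexConjugate

noncomputable section

namespace Pool.Agent.MP_f27d50_gt

namespace LineAux

theorem est {f F₁ F₂ : ℝ → ℝ} {d D x A₁ A₂ c₁ c₂ I₁ I₂ : ℝ} {J : Set ℝ} (hJ : MeasurableSet J)
    (hd : 0 < d) (hD : 0 < D) (hF : Measurable F₁) (a₁ : 0 ≤ A₁) (a₂ : 0 ≤ A₂) (b₁ : 0 ≤ c₁)
    (b₂ : 0 ≤ c₂) (i₁ : 0 ≤ I₁) (i₂ : 0 ≤ I₂)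
    (h : ∀ t, f t ≤ A₁ * Pk d (t - x) + A₂ * Pk D (t - x) + c₁ * J.indicator F₁ t + c₂ * F₂ t)
    (h₁ : ∫⁻ t in J, ENNReal.ofReal (F₁ t) ≤ ENNReal.ofReal I₁)
    (h₂ : ∫⁻ t, ENNReal.ofReal (F₂ t) ≤ ENNReal.ofReal I₂) :
    ∫⁻ t, ENNReal.ofReal (f t) ≤ ENNReal.ofReal (A₁ + A₂ + c₁ * I₁ + c₂ * I₂) := by
  have m : ∀ {e : ℝ}, 0 < e → ∀ c : ℝ≥0∞,
      Measurable fun t => c * ENNReal.ofReal (Pk e (t - x)) := fun he c =>
    (((Pk_cont he).comp (by fun_prop)).measurable.ennreal_ofReal).const_mul c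
  have m3 : Measurable fun t => ENNReal.ofReal c₁ *
      J.indicator (fun t => ENNReal.ofReal (F₁ t)) t :=
    (hF.ennreal_ofReal.indicator hJ).const_mul _
  calc _ ≤ ∫⁻ t, (ENNReal.ofReal A₁ * ENNReal.ofReal (Pk d (t - x)) +
        ENNReal.ofReal A₂ * ENNReal.ofReal (Pk D (t - x)) +
        ENNReal.ofReal c₁ * J.indicator (fun t => ENNReal.ofReal (F₁ t)) t +
        ENNReal.ofReal c₂ * ENNReal.ofReal (F₂ t)) := by
        refine lintegral_mono fun t => (ENNReal.ofReal_le_ofReal (h t)).trans ?_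
        refine ENNReal.ofReal_add_le.trans (add_le_add (ENNReal.ofReal_add_le.trans (add_le_add
          (ENNReal.ofReal_add_le.trans (add_le_add ?_ ?_)) ?_)) ?_)
        · rw [ENNReal.ofReal_mul a₁]
        · rw [ENNReal.ofReal_mul a₂]
        · rw [ENNReal.ofReal_mul b₁]
          by_cases ht : t ∈ J <;> simp [ht]
        · rw [ENNReal.ofReal_mul b₂]
    _ ≤ ENNReal.ofReal A₁ + ENNReal.ofReal A₂ + ENNReal.ofReal c₁ * ENNReal.ofReal I₁ +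
        ENNReal.ofReal c₂ * ENNReal.ofReal I₂ := by
        rw [lintegral_add_left (((m hd _).fun_add (m hD _)).fun_add m3),
          lintegral_add_left ((m hd _).fun_add (m hD _)), lintegral_add_left (m hd _)]
        simp only [lintegral_const_mul' _ _ ENNReal.ofReal_ne_top, Pk_lint hd, Pk_lint hD, mul_one,
          lintegral_indicator hJ]
        gcongr
    _ = _ := by
        rw [← ENNReal.ofReal_mul b₁, ← ENNReal.ofReal_mul b₂, ← ENNReal.ofReal_add a₁ a₂,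
          ← ENNReal.ofReal_add (by positivity) (by positivity),
          ← ENNReal.ofReal_add (by positivity) (by positivity)]

/-- the normalised damping factor -/
def rr (R : ℝ) (c τ : ℂ) : ℂ := τ * (c - I * R) / ((τ - I * R) * c)

theorem rr_sub {R : ℝ} {c τ : ℂ} (hR : 0 < R) (h1 : R / 2 ≤ ‖τ - I * R‖) (h2 : R ≤ ‖c‖) :
    ‖rr R c τ - 1‖ ≤ 2 * ‖c - τ‖ / R := by
  have n1 : τ - I * R ≠ 0 := norm_pos_iff.1 (by linarith)
  have n2 : c ≠ 0 := norm_pos_iff.1 (by linarith)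
  have e : rr R c τ - 1 = I * R * (c - τ) / ((τ - I * R) * c) := by
    unfold rr; field_simp; ring
  rw [e, norm_div, norm_mul, norm_mul, norm_mul, norm_I, norm_real, Real.norm_of_nonneg hR.le]
  calc _ ≤ 1 * R * ‖c - τ‖ / (R / 2 * R) := by gcongr
    _ = _ := by field_simp

theorem rr_le {R : ℝ} {c τ : ℂ} (hR : 0 < R) (h1 : R / 2 ≤ ‖τ - I * R‖) (h2 : R ≤ ‖c‖) :
    ‖rr R c τ‖ ≤ 4 * ‖τ‖ / R ∧ ‖rr R c τ‖ ≤ 6 := by
  have n0 : ‖I * (R : ℂ)‖ = R := by simp [hR.le]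
  have n1 : ‖c - I * R‖ ≤ 2 * ‖c‖ := by linarith [norm_sub_le c (I * R)]
  have n2 : ‖τ‖ ≤ 3 * ‖τ - I * R‖ := by
    have := norm_add_le (τ - I * R) (I * R)
    rw [sub_add_cancel] at this
    linarith
  have n3 : 0 < ‖c‖ := by linarith
  have n4 : 0 < ‖τ - I * R‖ := by linarith
  unfold rr
  rw [norm_div, norm_mul, norm_mul]
  constructor
  · calc _ ≤ ‖τ‖ * (2 * ‖c‖) / (R / 2 * ‖c‖) := by gcongr
      _ = _ := by field_simp; ring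
  · calc _ ≤ 3 * ‖τ - I * R‖ * (2 * ‖c‖) / (‖τ - I * R‖ * ‖c‖) := by gcongr
      _ = _ := by field_simp; ring

theorem amgm {s l : ℝ} (hl : 0 < l) : 2 * s ≤ l + s ^ 2 / l := by
  have : l + s ^ 2 / l - 2 * s = (l - s) ^ 2 / l := by field_simp; ring
  have h : 0 ≤ (l - s) ^ 2 / l := by positivity
  linarith

theorem near_pt {φ m r : ℂ} {k l ε : ℝ} (hk : 0 < k) (hl : 0 < l) (hm : k ≤ ‖m‖)
    (hr : ‖r - 1‖ ≤ ε) (hε : ε ≤ 1) :
    ‖φ * (r / m) - 1‖ ≤ l + ε + 1 / (l * k ^ 2) * ‖φ - m‖ ^ 2 := by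
  have n1 : m ≠ 0 := norm_pos_iff.1 (by linarith)
  have e : φ * (r / m) - 1 = (φ - m) / m * r + (r - 1) := by field_simp; ring
  have h1 : ‖r‖ ≤ 2 := by
    have := norm_add_le (r - 1) 1
    rw [sub_add_cancel, norm_one] at this
    linarith
  have h2 := amgm (s := ‖φ - m‖ / k) hl
  have h3 : ‖(φ - m) / m * r‖ ≤ ‖φ - m‖ / k * 2 := by
    rw [norm_mul, norm_div]; gcongr
  have h4 : (‖φ - m‖ / k) ^ 2 / l = 1 / (l * k ^ 2) * ‖φ - m‖ ^ 2 := by field_simp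
  rw [e]
  linarith [norm_add_le ((φ - m) / m * r) (r - 1)]

theorem far_pt {φ m r τ : ℂ} {k l R : ℝ} (hk : 0 < k) (hl : 0 < l) (hR : 0 < R) (hm : k ≤ ‖m‖)
    (hr : ‖r‖ ≤ 4 * ‖τ‖ / R) :
    ‖φ * (r / m) - 1‖ ≤ 1 + 2 * l + 2 / (l * R ^ 2 * k ^ 2) * ‖τ * φ‖ ^ 2 := by
  have h2 := amgm (s := ‖τ * φ‖ / (R * k)) hl
  have h3 : ‖φ * (r / m)‖ ≤ 4 * (‖τ * φ‖ / (R * k)) := by
    rw [norm_mul, norm_div, norm_mul]
    calc _ ≤ ‖φ‖ * (4 * ‖τ‖ / R / k) := by gcongr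
      _ = _ := by field_simp
  have h4 : 2 * ((‖τ * φ‖ / (R * k)) ^ 2 / l) = 2 / (l * R ^ 2 * k ^ 2) * ‖τ * φ‖ ^ 2 := by
    field_simp
  have := norm_sub_le (φ * (r / m)) 1
  rw [norm_one] at this
  linarith

theorem Pk_far₁ {d D s : ℝ} (hd : 0 < d) (hD : 0 < D) (h : D ^ 2 ≤ s ^ 2) :
    Pk d s ≤ 2 * d / D * Pk D s := by
  have := Real.pi_pos
  have hs : 0 < s ^ 2 := lt_of_lt_of_le (by positivity) h
  unfold Pk
  calc _ ≤ d / (Real.pi * ((s ^ 2 + D ^ 2) / 2)) := by gcongr; nlinarith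
    _ = _ := by field_simp

theorem Pk_far₂ {β ε R x t : ℝ} (hβ : 0 < β) (hε : 0 < ε) (hε1 : ε ≤ 1 / 4) (hR : 0 < R)
    (hx : x ∈ Icc R (2 * R)) (h : (ε * R) ^ 2 ≤ (t - x) ^ 2) :
    Pk (β * R) (t - x) ≤ 4 * β / ε ^ 2 * (R / (R ^ 2 + t ^ 2)) := by
  have h3 := Real.pi_gt_three
  have h1 : x ^ 2 ≤ (2 * R) ^ 2 := by gcongr; exacts [by linarith [hx.1], hx.2]
  have h2 : t ^ 2 ≤ 2 * (t - x) ^ 2 + 2 * x ^ 2 := by nlinarith [sq_nonneg (t - 2 * x)]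
  have h4 : ε ^ 2 ≤ (1 / 4) ^ 2 := by gcongr
  have h5 : ε ^ 2 * (R ^ 2 + t ^ 2) ≤ 10 * (t - x) ^ 2 := by
    calc _ ≤ ε ^ 2 * (9 * R ^ 2 + 2 * (t - x) ^ 2) := by gcongr ε ^ 2 * ?_; linarith
      _ = 9 * (ε * R) ^ 2 + 2 * ε ^ 2 * (t - x) ^ 2 := by ring
      _ ≤ 9 * (t - x) ^ 2 + 2 * (1 / 4) ^ 2 * (t - x) ^ 2 := by gcongr
      _ ≤ _ := by nlinarith [sq_nonneg (t - x)]
  unfold Pk
  calc _ ≤ β * R / (3 * (ε ^ 2 * (R ^ 2 + t ^ 2) / 12)) := by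
        gcongr
        nlinarith [sq_nonneg (t - x), sq_nonneg (β * R)]
    _ = _ := by field_simp; ring

end LineAux

end Pool.Agent.MP_f27d50_gt
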