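import Pool.Agent.MP_f27d50_gt.Defs

set_option autoImplicit false

open MeasureTheory Set Filter Topology Complex
open scoped ENNReal Pointwise ComplexConjugate

noncomputable section

namespace Pool.Agent.MP_f27d50_gt

namespace LineAux

theorem gap_real {γ η S x y x' y' : ℝ} (hγ : 0 < γ) (hη : η = γ ^ 2 / 5) (hS : S = x + y + x' + y')
    (hx : 0 ≤ x) (hy : 0 ≤ y) (hx' : 0 ≤ x') (hy' : 0 ≤ y') (h : γ * S ≤ x - x')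
    (h1 : |x + y - (x' + y')| ≤ η * S) (h2 : |x * y - x' * y'| ≤ η * S * S / 2) :
    y ≤ (1 - γ / 2) * x ∧ x' ≤ (1 - γ / 2) * y' ∧ γ / 2 * S ≤ y' := by
  rcases eq_or_lt_of_le (show 0 ≤ S by linarith) with h0 | h0
  · obtain rfl : x = 0 := by linarith
    obtain rfl : y = 0 := by linarith
    obtain rfl : x' = 0 := by linarith
    obtain rfl : y' = 0 := by linarith
    simp [← h0]
  have hγ1 : γ ≤ 1 := le_of_mul_le_mul_right (by linarith) h0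
  have h3 : (x - x') * |y - x'| ≤ (γ * S) * (3 / 10 * γ * S) := by
    have e : (x - x') * (y - x') = (x * y - x' * y') - x' * (x + y - (x' + y')) := by ring
    have h4 : |x' * (x + y - (x' + y'))| ≤ S * (η * S) := by
      rw [abs_mul, abs_of_nonneg hx']; gcongr; linarith
    calc _ = |(x - x') * (y - x')| := by
          rw [abs_mul, abs_of_nonneg (le_trans (by positivity) h)]
      _ ≤ η * S * S / 2 + S * (η * S) := by rw [e]; exact (abs_sub _ _).trans (add_le_add h2 h4)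
      _ = _ := by rw [hη]; ring
  have h4 : |y - x'| ≤ 3 / 10 * γ * S :=
    le_of_mul_le_mul_left (le_trans (by gcongr) h3) (show 0 < γ * S by positivity)
  have h5 : η * S ≤ 1 / 5 * γ * S := by rw [hη]; gcongr; nlinarith
  rw [abs_le] at h1 h4
  have h6 : γ * x ≤ γ * S := by gcongr; linarith
  have h7 : γ * y' ≤ γ * S := by gcongr; linarith
  refine ⟨by nlinarith, by nlinarith, by nlinarith⟩

theorem gap_alg {t S : ℝ} {a₁ b₁ a₂ b₂ : ℂ} (hS : S = ‖a₁‖ ^ 2 + ‖b₁‖ ^ 2 + ‖a₂‖ ^ 2 + ‖b₂‖ ^ 2)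
    (h0 : |‖a₁ - b₁‖ ^ 2 - ‖a₂ - b₂‖ ^ 2| ≤ t)
    (h1 : |‖a₁ - b₁ * (-I)‖ ^ 2 - ‖a₂ - b₂ * (-I)‖ ^ 2| ≤ t)
    (h2 : |‖a₁ - b₁ * (-1)‖ ^ 2 - ‖a₂ - b₂ * (-1)‖ ^ 2| ≤ t)
    (h3 : |‖a₁ - b₁ * I‖ ^ 2 - ‖a₂ - b₂ * I‖ ^ 2| ≤ t) :
    |‖a₁‖ ^ 2 + ‖b₁‖ ^ 2 - (‖a₂‖ ^ 2 + ‖b₂‖ ^ 2)| ≤ t ∧
      |‖a₁‖ ^ 2 * ‖b₁‖ ^ 2 - ‖a₂‖ ^ 2 * ‖b₂‖ ^ 2| ≤ t * S / 2 := by
  have ht : 0 ≤ t := (abs_nonneg _).trans h0
  obtain ⟨p₁, q₁⟩ := a₁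
  obtain ⟨r₁, s₁⟩ := b₁
  obtain ⟨p₂, q₂⟩ := a₂
  obtain ⟨r₂, s₂⟩ := b₂
  simp only [Complex.sq_norm, normSq_apply, sub_re, sub_im, mul_re, mul_im, neg_re, neg_im, I_re,
    I_im, one_re, one_im] at hS h0 h1 h2 h3 ⊢
  rw [abs_le] at h0 h1 h2 h3
  refine ⟨abs_le.2 ⟨by linarith, by linarith⟩, ?_⟩
  have e1 : |p₁ * r₁ + q₁ * s₁ - (p₂ * r₂ + q₂ * s₂)| ≤ t / 2 := abs_le.2 ⟨by linarith, by linarith⟩
  have e2 : |q₁ * r₁ - p₁ * s₁ - (q₂ * r₂ - p₂ * s₂)| ≤ t / 2 := abs_le.2 ⟨by linarith, by linarith⟩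
  have e3 : |p₁ * r₁ + q₁ * s₁ + (p₂ * r₂ + q₂ * s₂)| ≤ S / 2 := abs_le.2
    ⟨by linarith [sq_nonneg (p₁ + r₁), sq_nonneg (q₁ + s₁), sq_nonneg (p₂ + r₂), sq_nonneg (q₂ + s₂)],
     by linarith [sq_nonneg (p₁ - r₁), sq_nonneg (q₁ - s₁), sq_nonneg (p₂ - r₂), sq_nonneg (q₂ - s₂)]⟩
  have e4 : |q₁ * r₁ - p₁ * s₁ + (q₂ * r₂ - p₂ * s₂)| ≤ S / 2 := abs_le.2
    ⟨by linarith [sq_nonneg (q₁ + r₁), sq_nonneg (p₁ - s₁), sq_nonneg (q₂ + r₂), sq_nonneg (p₂ - s₂)],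
     by linarith [sq_nonneg (q₁ - r₁), sq_nonneg (p₁ + s₁), sq_nonneg (q₂ - r₂), sq_nonneg (p₂ + s₂)]⟩
  calc _ = |(p₁ * r₁ + q₁ * s₁ - (p₂ * r₂ + q₂ * s₂)) * (p₁ * r₁ + q₁ * s₁ + (p₂ * r₂ + q₂ * s₂)) +
        (q₁ * r₁ - p₁ * s₁ - (q₂ * r₂ - p₂ * s₂)) * (q₁ * r₁ - p₁ * s₁ + (q₂ * r₂ - p₂ * s₂))| := by
        congr 1; ring
    _ ≤ t / 2 * (S / 2) + t / 2 * (S / 2) := by
        refine (abs_add_le _ _).trans ?_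
        rw [abs_mul, abs_mul]
        gcongr
    _ = _ := by ring

theorem gap_pt {η S : ℝ} {u v a₁ b₁ a₂ b₂ : ℂ} (hη : 0 ≤ η)
    (hS : S = ‖a₁‖ ^ 2 + ‖b₁‖ ^ 2 + ‖a₂‖ ^ 2 + ‖b₂‖ ^ 2) (huv : ‖u‖ = ‖v‖)
    (h : ‖u - (a₁ - b₁)‖ ^ 2 + ‖v - (a₂ - b₂)‖ ^ 2 ≤ η ^ 2 / 8 * S) :
    |‖a₁ - b₁‖ ^ 2 - ‖a₂ - b₂‖ ^ 2| ≤ η * S := by
  have h1 := abs_le.1 (abs_norm_sub_norm_le u (a₁ - b₁))
  have h2 := abs_le.1 (abs_norm_sub_norm_le v (a₂ - b₂))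
  have h3 := norm_sub_le a₁ b₁
  have h4 := norm_sub_le a₂ b₂
  have e1 : (‖a₁ - b₁‖ - ‖a₂ - b₂‖) ^ 2 ≤ η ^ 2 / 4 * S := by
    calc _ ≤ (‖u - (a₁ - b₁)‖ + ‖v - (a₂ - b₂)‖) ^ 2 := sq_le_sq' (by linarith) (by linarith)
      _ ≤ _ := by linarith [sq_nonneg (‖u - (a₁ - b₁)‖ - ‖v - (a₂ - b₂)‖)]
  have e2 : (‖a₁ - b₁‖ + ‖a₂ - b₂‖) ^ 2 ≤ 4 * S := by
    calc _ ≤ (‖a₁‖ + ‖b₁‖ + (‖a₂‖ + ‖b₂‖)) ^ 2 := by gcongr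
      _ ≤ _ := by
        linarith [sq_nonneg (‖a₁‖ - ‖b₁‖), sq_nonneg (‖a₁‖ - ‖a₂‖), sq_nonneg (‖a₁‖ - ‖b₂‖),
          sq_nonneg (‖b₁‖ - ‖a₂‖), sq_nonneg (‖b₁‖ - ‖b₂‖), sq_nonneg (‖a₂‖ - ‖b₂‖)]
  have hS0 : 0 ≤ S := by rw [hS]; positivity
  refine abs_le_of_sq_le_sq ?_ (by positivity)
  calc _ = (‖a₁ - b₁‖ - ‖a₂ - b₂‖) ^ 2 * (‖a₁ - b₁‖ + ‖a₂ - b₂‖) ^ 2 := by ring
    _ ≤ η ^ 2 / 4 * S * (4 * S) := by gcongr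
    _ = _ := by ring

theorem exists_pt {f : ℝ → ℝ} {x d h c : ℝ} (hf : Continuous f) (f0 : ∀ t, 0 ≤ f t) (hd : 0 < d)
    (hh : 0 ≤ h) (hhd : 3 * h ≤ d) (hc : 0 ≤ c)
    (H : ∫⁻ t in Icc (x - d) (x + d), ENNReal.ofReal (f t) ≤ ENNReal.ofReal (c * d)) :
    ∃ t, ∀ k ∈ Finset.range 4, f (t + k * h) ≤ 4 * c := by
  have hv : volume (Icc (x - d) x) = ENNReal.ofReal d := by simp
  have hm : ∀ k : ℕ, Measurable fun t => ENNReal.ofReal (f (t + k * h)) := fun k =>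
    (hf.comp (by fun_prop)).measurable.ennreal_ofReal
  obtain ⟨t, -, ht⟩ := exists_le_setLAverage (μ := volume) (s := Icc (x - d) x)
    (f := fun t => ∑ k ∈ Finset.range 4, ENNReal.ofReal (f (t + k * h)))
    (by simp [hv, hd]) (by simp [hv]) (Finset.measurable_sum _ fun k _ => hm k).aemeasurable
  have h1 : ∀ k ∈ Finset.range 4, ∫⁻ t in Icc (x - d) x, ENNReal.ofReal (f (t + k * h)) ≤
      ENNReal.ofReal (c * d) := fun k hk => by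
    have hk' : (k : ℝ) ≤ 3 := by exact_mod_cast Nat.lt_succ_iff.1 (Finset.mem_range.1 hk)
    have h2 : k * h ≤ 3 * h := by gcongr
    have h3 : 0 ≤ k * h := by positivity
    refine le_trans ?_ H
    rw [← lintegral_indicator measurableSet_Icc, ← lintegral_indicator measurableSet_Icc,
      ← lintegral_add_right_eq_self (Set.indicator (Icc (x - d) (x + d)) _) (k * h)]
    refine lintegral_mono fun s => ?_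
    by_cases hs : s ∈ Icc (x - d) x
    · rw [indicator_of_mem hs, indicator_of_mem (show s + k * h ∈ Icc (x - d) (x + d) from
        ⟨by linarith [hs.1], by linarith [hs.2]⟩)]
    · simp [hs]
  rw [setLAverage_eq, lintegral_finset_sum _ fun k _ => hm k, hv] at ht
  refine ⟨t, fun k hk => (ENNReal.ofReal_le_ofReal_iff (by positivity)).1 ?_⟩
  refine (Finset.single_le_sum (f := fun k : ℕ => ENNReal.ofReal (f (t + k * h)))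
    (fun _ _ => zero_le) hk).trans (ht.trans (ENNReal.div_le_of_le_mul ?_))
  refine (Finset.sum_le_sum h1).trans (le_of_eq ?_)
  rw [Finset.sum_const, Finset.card_range, ← ENNReal.ofReal_mul (by positivity), mul_assoc,
    ENNReal.ofReal_mul (by norm_num : (0 : ℝ) ≤ 4)]
  simp

end LineAux

open LineAux in
theorem line_gap {γ : ℝ} (hγ : 0 < γ) : ∃ e₀ > 0, ∀ (φ₁ φ₂ : ℝ → ℂ) (a₁ b₁ a₂ b₂ : ℂ)
    (w d x : ℝ), Continuous φ₁ → Continuous φ₂ → 0 < w → 4 * Real.pi / w ≤ d →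
    (∀ t, ‖φ₁ t‖ = ‖φ₂ t‖) →
    γ * (‖a₁‖ ^ 2 + ‖b₁‖ ^ 2 + ‖a₂‖ ^ 2 + ‖b₂‖ ^ 2) ≤ ‖a₁‖ ^ 2 - ‖a₂‖ ^ 2 →
    (∫⁻ t in Icc (x - d) (x + d), ENNReal.ofReal
      (‖φ₁ t - (a₁ - b₁ * Complex.exp (-(I * t * w)))‖ ^ 2 +
        ‖φ₂ t - (a₂ - b₂ * Complex.exp (-(I * t * w)))‖ ^ 2)
      ≤ ENNReal.ofReal (e₀ * (‖a₁‖ ^ 2 + ‖b₁‖ ^ 2 + ‖a₂‖ ^ 2 + ‖b₂‖ ^ 2) * d)) →
    ‖b₁‖ ^ 2 ≤ (1 - γ / 2) * ‖a₁‖ ^ 2 ∧ ‖a₂‖ ^ 2 ≤ (1 - γ / 2) * ‖b₂‖ ^ 2 ∧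
      γ / 2 * (‖a₁‖ ^ 2 + ‖b₁‖ ^ 2 + ‖a₂‖ ^ 2 + ‖b₂‖ ^ 2) ≤ ‖b₂‖ ^ 2 := by
  refine ⟨(γ ^ 2 / 5) ^ 2 / 32, by positivity, ?_⟩
  intro φ₁ φ₂ a₁ b₁ a₂ b₂ w d x c₁ c₂ hw hd hn hg H
  have hp := Real.pi_pos
  obtain ⟨t, ht⟩ := exists_pt (h := Real.pi / (2 * w)) (by fun_prop) (fun _ => by positivity)
    (lt_of_lt_of_le (by positivity) hd) (by positivity) (le_trans (by
      rw [← mul_div_assoc, div_le_div_iff₀ (by positivity) hw]; nlinarith [mul_pos hp hw]) hd)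
    (by positivity) H
  obtain ⟨E, hE⟩ : ∃ E, E = Complex.exp (-(I * t * w)) := ⟨_, rfl⟩
  have hE1 : ‖E‖ = 1 := by rw [hE, norm_exp]; simp
  have hk : ∀ k : ℕ, Complex.exp (-(I * (t + k * (Real.pi / (2 * w)) : ℝ) * w)) = E * (-I) ^ k :=
    fun k => by
      have : (w : ℂ) ≠ 0 := by exact_mod_cast hw.ne'
      rw [hE, ← exp_neg_pi_div_two_mul_I, ← exp_nat_mul, ← exp_add]
      congr 1
      push_cast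
      field_simp
      ring
  have hS : ∀ k : ℕ, ‖a₁‖ ^ 2 + ‖b₁‖ ^ 2 + ‖a₂‖ ^ 2 + ‖b₂‖ ^ 2 =
      ‖a₁‖ ^ 2 + ‖b₁ * E * (-I) ^ k‖ ^ 2 + ‖a₂‖ ^ 2 + ‖b₂ * E * (-I) ^ k‖ ^ 2 := fun k => by
    simp [hE1]
  have key : ∀ k ∈ Finset.range 4, |‖a₁ - b₁ * E * (-I) ^ k‖ ^ 2 - ‖a₂ - b₂ * E * (-I) ^ k‖ ^ 2| ≤
      γ ^ 2 / 5 * (‖a₁‖ ^ 2 + ‖b₁‖ ^ 2 + ‖a₂‖ ^ 2 + ‖b₂‖ ^ 2) := fun k hk' => by
    refine gap_pt (by positivity) (hS k) (hn (t + k * (Real.pi / (2 * w)))) ?_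
    have := ht k hk'
    rw [hk, ← mul_assoc, ← mul_assoc] at this
    linarith
  have h2 : (-I) ^ 2 = -1 := by simp
  have h3 : (-I) ^ 3 = I := by rw [pow_succ, h2]; simp
  obtain ⟨g1, g2⟩ := gap_alg (a₁ := a₁) (b₁ := b₁ * E) (a₂ := a₂) (b₂ := b₂ * E) rfl
    (by simpa only [pow_zero, mul_one] using key 0 (by simp))
    (by simpa only [pow_one] using key 1 (by simp)) (by simpa only [h2] using key 2 (by simp))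
    (by simpa only [h3] using key 3 (by simp))
  simp only [norm_mul, hE1, mul_one] at g1 g2
  exact gap_real hγ rfl rfl (by positivity) (by positivity) (by positivity) (by positivity) hg g1 g2

end Pool.Agent.MP_f27d50_gt
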