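import Pool.Agent.MP_f27d50_gt.LineC
import Pool.Agent.MP_f27d50_gt.LineE
import Pool.Agent.MP_f27d50_gt.LineG

set_option autoImplicit false

open MeasureTheory Set Filter Topology Complex
open scoped ENNReal Pointwise ComplexConjugate

noncomputable section

namespace Pool.Agent.MP_f27d50_gt

namespace LineAux

theorem m_ge {a b τ : ℂ} {w y κ : ℝ} (hw : 0 ≤ w) (h : ‖b‖ * Real.exp (y * w) ≤ (1 - κ) * ‖a‖)
    (hτ : τ.im ≤ y) : κ * ‖a‖ ≤ ‖a - b * Complex.exp (-(I * τ * w))‖ := by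
  have h1 : ‖b * Complex.exp (-(I * τ * w))‖ ≤ ‖b‖ * Real.exp (y * w) := by
    rw [norm_mul, norm_exp]
    gcongr
    simpa using mul_le_mul_of_nonneg_right hτ hw
  linarith [norm_sub_norm_le a (b * Complex.exp (-(I * τ * w)))]

theorem dist_pole {τ : ℂ} {R : ℝ} (hR : 2 ≤ R) (hτ : τ.im ≤ 1) : R / 2 ≤ ‖τ - I * R‖ := by
  have := abs_im_le_norm (τ - I * R)
  have h := neg_abs_le (τ - I * R).im
  simp at h this
  linarith

/-- the mean deviation from one on the line -/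
theorem dev {φ m : ℂ → ℂ} {k e Λ ε β R x y μ : ℝ} {c : ℂ} (hφ : Continuous φ) (hm : Continuous m)
    (hk : 0 < k) (he : 0 ≤ e) (hμ : 0 ≤ μ) (hΛ : 0 ≤ Λ) (hy1 : y ≤ 1) (hβ : 0 < β) (hβε : β ≤ ε)
    (hε : ε ≤ 1 / 4) (hR : 2 ≤ R) (hx : x ∈ Icc R (2 * R)) (hc : c = x + I * (y - (β * R : ℝ)))
    (hmk : ∀ t : ℝ, k ≤ ‖m (t + I * y)‖) (hμ2 : β * Λ = (μ * k * ε * R) ^ 2)
    (h₁ : ∫⁻ t in Icc (x - ε * R) (x + ε * R), ENNReal.ofReal (Pk (β * R) (t - x) *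
      ‖φ (t + I * y) - m (t + I * y)‖ ^ 2) ≤ ENNReal.ofReal ((e * k) ^ 2))
    (h₂ : ∫⁻ t : ℝ, ENNReal.ofReal (‖(t + I * y) * φ (t + I * y)‖ ^ 2 * (R / (R ^ 2 + t ^ 2)))
      ≤ ENNReal.ofReal Λ) :
    ∫⁻ t : ℝ, ENNReal.ofReal (Pk (β * R) (t - x) *
      ‖φ (t + I * y) * (rr R c (t + I * y) / m (t + I * y)) - 1‖) ≤
      ENNReal.ofReal (10 * (e + ε + β / ε + μ)) := by
  have hε0 : 0 < ε := by linarith
  have hR0 : 0 < R := by linarith
  have hd : 0 < β * R := by positivity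
  have hcR : R ≤ ‖c‖ := le_trans (by simpa [hc] using hx.1.trans (le_abs_self x)) (abs_re_le_norm c)
  refine (est (A₁ := e + ε + 4 * ε + 2 * (μ + ε)) (A₂ := 2 * (β * R) / (ε * R))
    (c₁ := 1 / ((e + ε) * k ^ 2)) (c₂ := 2 / ((μ + ε) * R ^ 2 * k ^ 2) * (4 * β / ε ^ 2))
    (F₁ := fun t => Pk (β * R) (t - x) * ‖φ (t + I * y) - m (t + I * y)‖ ^ 2)
    (D := ε * R) (x := x) measurableSet_Icc hd (by positivity)
    (((Pk_cont hd).comp (by fun_prop)).mul (by fun_prop)).measurable (by positivity)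
    (by positivity) (by positivity) (by positivity) (by positivity) hΛ (fun t => ?_) h₁ h₂).trans
    (ENNReal.ofReal_le_ofReal ?_)
  · have p1 := Pk_nonneg hd (t - x)
    have p2 := Pk_nonneg (show 0 < ε * R by positivity) (t - x)
    have hp : R / 2 ≤ ‖t + I * y - I * R‖ := dist_pole hR (by simpa using hy1)
    by_cases ht : t ∈ Icc (x - ε * R) (x + ε * R)
    · have h1 : ‖c - (t + I * y)‖ ≤ 2 * (ε * R) := by
        have e1 : c - (t + I * y) = (x - t : ℝ) - I * (β * R : ℝ) := by rw [hc]; push_cast; ring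
        have e2 : |x - t| ≤ ε * R := abs_le.2 ⟨by linarith [ht.2], by linarith [ht.1]⟩
        have e3 : β * R ≤ ε * R := by gcongr
        rw [e1]
        refine (norm_sub_le _ _).trans ?_
        rw [norm_mul, norm_I, one_mul, norm_real, norm_real, Real.norm_eq_abs,
          Real.norm_of_nonneg hd.le]
        linarith
      have h2 : ‖rr R c (t + I * y) - 1‖ ≤ 4 * ε := (rr_sub hR0 hp hcR).trans (by
        rw [div_le_iff₀ hR0]; linarith)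
      have h3 := mul_le_mul_of_nonneg_left (near_pt (φ := φ (t + I * y)) hk
        (show 0 < e + ε by positivity) (hmk t) h2 (by linarith)) p1
      rw [indicator_of_mem ht]
      have : 0 ≤ 2 * (μ + ε) * Pk (β * R) (t - x) + 2 * (β * R) / (ε * R) * Pk (ε * R) (t - x) +
          2 / ((μ + ε) * R ^ 2 * k ^ 2) * (4 * β / ε ^ 2) *
          (‖(t + I * y) * φ (t + I * y)‖ ^ 2 * (R / (R ^ 2 + t ^ 2))) := by positivity
      linarith
    · have h1 : (ε * R) ^ 2 ≤ (t - x) ^ 2 := by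
        rw [← sq_abs (t - x)]
        gcongr
        by_contra h
        have := abs_le.1 (not_le.1 h).le
        exact ht ⟨by linarith, by linarith⟩
      have h2 := mul_le_mul_of_nonneg_left (far_pt (φ := φ (t + I * y)) hk
        (show 0 < μ + ε by positivity) hR0 (hmk t) (rr_le hR0 hp hcR).1) p1
      have h3 := Pk_far₁ hd (show 0 < ε * R by positivity) h1
      have h4 := mul_le_mul_of_nonneg_left (Pk_far₂ hβ hε0 hε hR0 hx h1)
        (show 0 ≤ 2 / ((μ + ε) * R ^ 2 * k ^ 2) * ‖(t + I * y) * φ (t + I * y)‖ ^ 2 by positivity)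
      rw [indicator_of_notMem ht]
      have : 0 ≤ (e + ε + 4 * ε) * Pk (β * R) (t - x) := by positivity
      linarith
  · have e1 : 1 / ((e + ε) * k ^ 2) * (e * k) ^ 2 ≤ e := by
      rw [div_mul_eq_mul_div, div_le_iff₀ (by positivity)]
      have : 0 ≤ e * ε * k ^ 2 := by positivity
      linarith
    have e2 : 2 / ((μ + ε) * R ^ 2 * k ^ 2) * (4 * β / ε ^ 2) * Λ ≤ 8 * μ := by
      calc _ = 8 * (β * Λ) / ((μ + ε) * (k * ε * R) ^ 2) := by field_simp; ring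
        _ = 8 * μ * (μ / (μ + ε)) := by rw [hμ2]; field_simp
        _ ≤ 8 * μ * 1 := by gcongr; rw [div_le_one (by positivity)]; linarith
        _ = _ := mul_one _
    have e3 : 2 * (β * R) / (ε * R) = 2 * (β / ε) := by field_simp
    have e4 : 0 ≤ β / ε := by positivity
    linarith

end LineAux

open LineAux in
theorem line_count : ∃ C : ℝ, 0 < C ∧ ∀ (φ : ℂ → ℂ) (a b : ℂ) (w y₁ κ e Λ ε' β R x : ℝ),
    Differentiable ℂ φ → (∃ B : ℝ, ∀ τ : ℂ, τ.im ≤ 1 → ‖φ τ‖ ≤ B) → a ≠ 0 → 0 ≤ w →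
    0 < y₁ → y₁ ≤ 1 → 0 < κ → κ ≤ 1 → ‖b‖ * Real.exp (y₁ * w) ≤ (1 - κ) * ‖a‖ →
    0 ≤ e → 0 ≤ Λ → 0 < β → β ≤ ε' → ε' ≤ 1 / 4 → 2 ≤ β ^ 2 * R → x ∈ Icc R (2 * R) →
    (∫⁻ t in Icc (x - ε' * R) (x + ε' * R), ENNReal.ofReal (Pk (β * R) (t - x) *
      ‖φ (t + I * y₁) - (a - b * Complex.exp (-(I * (t + I * y₁) * w)))‖ ^ 2)
        ≤ ENNReal.ofReal (e ^ 2 * ‖a‖ ^ 2)) →
    (∫⁻ t : ℝ, ENNReal.ofReal (‖(t + I * y₁) * φ (t + I * y₁)‖ ^ 2 * (R / (R ^ 2 + t ^ 2)))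
        ≤ ENNReal.ofReal (Λ * R ^ 2 * ‖a‖ ^ 2)) →
    C * (e / κ + ε' + β / ε' + √(Λ * β) / (κ * ε')) ≤ 1 →
    S (ord φ) (kQ (x / (1 + β / 4)) (x * (1 + β / 4))) ≤
      C * (e / κ + ε' + β / ε' + √(Λ * β) / (κ * ε')) * (β * R) / y₁ := by
  classical
  refine ⟨320, by norm_num, ?_⟩
  rintro φ a b w y κ e Λ ε β R x hφ ⟨B, hB⟩ ha hw hy hy1 hκ - hb he hΛ hβ hβε hε hR hx h₁ h₂ hC
  have hε0 : 0 < ε := by linarith
  have ha0 : 0 < ‖a‖ := norm_pos_iff.2 ha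
  have hβ2 : β ^ 2 ≤ 1 := by nlinarith
  have hR0 : 0 < R := by
    by_contra h
    have : β ^ 2 * R ≤ 0 := mul_nonpos_of_nonneg_of_nonpos (by positivity) (not_lt.1 h)
    linarith
  have hR2 : 2 ≤ R := by nlinarith
  have hd : 0 < β * R := by positivity
  obtain ⟨m, hm⟩ : ∃ m : ℂ → ℂ, m = fun τ => a - b * Complex.exp (-(I * τ * w)) := ⟨_, rfl⟩
  have hmd : Differentiable ℂ m := by rw [hm]; fun_prop
  have hmk : ∀ τ : ℂ, τ.im ≤ y → κ * ‖a‖ ≤ ‖m τ‖ := fun τ hτ => by rw [hm]; exact m_ge hw hb hτ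
  obtain ⟨c, hc⟩ : ∃ c : ℂ, c = x + I * (y - (β * R : ℝ)) := ⟨_, rfl⟩
  have hcR : R ≤ ‖c‖ := le_trans (by simpa [hc] using hx.1.trans (le_abs_self x)) (abs_re_le_norm c)
  have c0 : c ≠ 0 := norm_pos_iff.1 (by linarith)
  obtain ⟨E, hE⟩ : ∃ E, E = 10 * (e / κ + ε + β / ε + √(Λ * β) / (κ * ε)) := ⟨_, rfl⟩
  have hE0 : 0 ≤ E := by rw [hE]; positivity
  have hE1 : E ≤ 1 / 2 := by linarith
  have hdev := dev (φ := φ) (m := m) (k := κ * ‖a‖) (e := e / κ) (μ := √(Λ * β) / (κ * ε))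
    hφ.continuous hmd.continuous (by positivity) (by positivity) (by positivity)
    (by positivity) hy1 hβ hβε hε hR2 hx hc (fun t => hmk _ (by simp))
    (by field_simp; rw [Real.sq_sqrt (by positivity)])
    (by rw [hm, show (e / κ * (κ * ‖a‖)) ^ 2 = e ^ 2 * ‖a‖ ^ 2 by field_simp]; exact h₁) h₂
  rw [← hE] at hdev
  have hu : ∀ τ : ℂ, τ.im ≤ y → DifferentiableAt ℂ (fun τ => rr R c τ / m τ) τ := fun τ hτ => by
    have n1 : τ - I * R ≠ 0 := norm_pos_iff.1 (by linarith [dist_pole hR2 (hτ.trans hy1)])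
    have n2 : m τ ≠ 0 := norm_pos_iff.1 (lt_of_lt_of_le (by positivity) (hmk τ hτ))
    unfold rr
    fun_prop (disch := simp [n1, n2, c0])
  have hu' : ∀ τ : ℂ, τ.im ≤ y → ‖rr R c τ / m τ‖ ≤ 6 / (κ * ‖a‖) := fun τ hτ => by
    rw [norm_div]
    gcongr
    exacts [(rr_le hR0 (dist_pole hR2 (hτ.trans hy1)) hcR).2, hmk τ hτ]
  have hB' : ∀ τ : ℂ, τ.im ≤ y → ‖φ τ‖ ≤ B := fun τ hτ => hB τ (hτ.trans hy1)
  have k1 := (poisson_le (g := fun τ => φ τ * (rr R c τ / m τ) - 1) (y := y)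
    (B := B * (6 / (κ * ‖a‖)) + 1) x hd (fun τ hτ => ((hφ τ).mul (hu τ hτ)).sub_const 1)
    (fun τ hτ => (norm_sub_le _ _).trans (by
      rw [norm_one, norm_mul]
      exact add_le_add (mul_le_mul (hB' τ hτ) (hu' τ hτ) (norm_nonneg _)
        ((norm_nonneg _).trans (hB' τ hτ))) le_rfl))).trans hdev
  rw [← hc, ENNReal.ofReal_le_ofReal_iff hE0] at k1
  have k2 : 1 - E ≤ ‖φ c * (rr R c c / m c)‖ := by
    have := norm_sub_norm_le 1 (φ c * (rr R c c / m c))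
    rw [norm_one, norm_sub_rev] at this
    linarith
  have h0 : ∃ z, φ z ≠ 0 := ⟨c, fun h => by simp [h] at k2; linarith⟩
  obtain ⟨s, hs⟩ : ∃ s : Finset ℂ, s = (finite_zeros hφ h0 (x * (1 + β / 4))).toFinset.filter
    fun z => x / (1 + β / 4) ≤ ‖z‖ ∧ ‖z‖ ≤ x * (1 + β / 4) ∧ 0 ≤ z.re ∧ z.im ≤ 0 := ⟨_, rfl⟩
  have hs1 : ∀ z ∈ s, x / (1 + β / 4) ≤ ‖z‖ ∧ ‖z‖ ≤ x * (1 + β / 4) ∧ 0 ≤ z.re ∧ z.im ≤ 0 :=
    fun z hz => by rw [hs] at hz; exact (Finset.mem_filter.1 hz).2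
  have hS : S (ord φ) (kQ (x / (1 + β / 4)) (x * (1 + β / 4))) = (∑ z ∈ s, ord φ z : ℕ) := by
    rw [S_eq_sum s fun z hz => ?_, Nat.cast_sum]
    · exact Finset.sum_congr rfl fun z hz => by rw [kQ, if_pos (hs1 z hz), mul_one]
    · by_contra hcon
      rw [not_or] at hcon
      have h1 : φ z = 0 := by_contra fun h => hcon.1 (ord_eq_zero hφ h)
      have h2 := by_contra fun h => hcon.2 (if_neg h)
      exact hz (hs ▸ Finset.mem_filter.2 ⟨by simpa using ⟨h2.2.1, h1⟩, h2⟩)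
  have k3 := blaschke (c := 1 + y / (8 * (β * R))) x hd hφ h0 hB' hu hu' s (by positivity)
    fun z hz => geom hy hy1 hβ (hβε.trans hε) hR rfl hx (hs1 z hz).1 (hs1 z hz).2.1
      (hs1 z hz).2.2.1 (hs1 z hz).2.2.2
  have k4 : ∫⁻ t : ℝ, ENNReal.ofReal (Pk (β * R) (t - x) *
      ‖φ (t + I * y) * (rr R c (t + I * y) / m (t + I * y))‖) ≤ ENNReal.ofReal (1 + E) := by
    rw [ENNReal.ofReal_add zero_le_one hE0, ENNReal.ofReal_one, ← Pk_lint hd x]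
    refine le_trans ?_ (add_le_add le_rfl hdev)
    have hmP : Measurable fun t => ENNReal.ofReal (Pk (β * R) (t - x)) :=
      ((Pk_cont hd).comp (by fun_prop)).measurable.ennreal_ofReal
    rw [← lintegral_add_left hmP]
    refine lintegral_mono fun t => le_trans (ENNReal.ofReal_le_ofReal ?_)
      (ENNReal.ofReal_add (Pk_nonneg hd _) (mul_nonneg (Pk_nonneg hd _) (norm_nonneg _))).le
    rw [← mul_one_add]
    refine mul_le_mul_of_nonneg_left ?_ (Pk_nonneg hd _)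
    simpa using norm_add_le 1 (φ (t + I * y) * (rr R c (t + I * y) / m (t + I * y)) - 1)
  have k5 := k3.trans k4
  rw [← hc, ENNReal.ofReal_le_ofReal_iff (by positivity)] at k5
  have k6 := one_add_mul_le_pow (show (-2 : ℝ) ≤ y / (8 * (β * R)) from
    le_trans (by norm_num) (by positivity : 0 ≤ y / (8 * (β * R)))) (∑ z ∈ s, ord φ z)
  rw [hS]
  obtain ⟨n, hn⟩ : ∃ n : ℝ, n = (∑ z ∈ s, ord φ z : ℕ) := ⟨_, rfl⟩
  rw [← hn] at k6 ⊢
  have k7 : (1 + n * (y / (8 * (β * R)))) * (1 - E) ≤ 1 + E :=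
    le_trans (mul_le_mul k6 k2 (by linarith) (by positivity)) k5
  have hn0 : 0 ≤ n * (y / (8 * (β * R))) := by rw [hn]; positivity
  have k8 : n * (y / (8 * (β * R))) ≤ 4 * E := by nlinarith
  rw [← mul_div_assoc, div_le_iff₀ (by positivity)] at k8
  rw [le_div_iff₀ hy]
  calc _ ≤ 4 * E * (8 * (β * R)) := k8
    _ = _ := by rw [hE]; ring

end Pool.Agent.MP_f27d50_gt
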