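import Pool.Agent.MP_f27d50_gt.KeyA1
import Pool.Agent.MP_f27d50_gt.Line

set_option autoImplicit false

open MeasureTheory Set Filter Topology Complex
open scoped ENNReal Pointwise ComplexConjugate

noncomputable section

namespace Pool.Agent.MP_f27d50_gt

namespace KeyAAux

/-- the conclusion of `line_count` -/
def LC (C : ℝ) : Prop := ∀ (φ : ℂ → ℂ) (a b : ℂ) (w y₁ κ e Λ ε' β R x : ℝ),
    Differentiable ℂ φ → (∃ B : ℝ, ∀ τ : ℂ, τ.im ≤ 1 → ‖φ τ‖ ≤ B) → a ≠ 0 → 0 ≤ w →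
    0 < y₁ → y₁ ≤ 1 → 0 < κ → κ ≤ 1 → ‖b‖ * Real.exp (y₁ * w) ≤ (1 - κ) * ‖a‖ →
    0 ≤ e → 0 ≤ Λ → 0 < β → β ≤ ε' → ε' ≤ 1 / 4 → 2 ≤ β ^ 2 * R → x ∈ Icc R (2 * R) →
    (∫⁻ t in Icc (x - ε' * R) (x + ε' * R), ENNReal.ofReal (Pk (β * R) (t - x) *
      ‖φ (t + I * y₁) - (a - b * Complex.exp (-(I * (t + I * y₁) * w)))‖ ^ 2)
        ≤ ENNReal.ofReal (e ^ 2 * ‖a‖ ^ 2)) →
    (∫⁻ t : ℝ, ENNReal.ofReal (‖(t + I * y₁) * φ (t + I * y₁)‖ ^ 2 * (R / (R ^ 2 + t ^ 2)))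
        ≤ ENNReal.ofReal (Λ * R ^ 2 * ‖a‖ ^ 2)) →
    C * (e / κ + ε' + β / ε' + √(Λ * β) / (κ * ε')) ≤ 1 →
    S (ord φ) (kQ (x / (1 + β / 4)) (x * (1 + β / 4))) ≤
      C * (e / κ + ε' + β / ε' + √(Λ * β) / (κ * ε')) * (β * R) / y₁

theorem exp_le_inv {u g : ℝ} (hu : u ≤ g / 8) :
    Real.exp u * (1 - g / 8) ≤ 1 := by
  have h1 : 1 - g / 8 ≤ Real.exp (-u) := by linarith [Real.add_one_le_exp (-u)]
  have h2 := mul_le_mul_of_nonneg_left h1 (Real.exp_pos u).le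
  rwa [← Real.exp_add, add_neg_cancel, Real.exp_zero] at h2

theorem side {C : ℝ} (hC : LC C) {T₀ T₁ φ : ℂ → ℂ} {w : ℝ} (h : Amp T₀ T₁ φ w)
    (hd : Differentiable ℂ φ) (hb : ∃ B : ℝ, ∀ τ : ℂ, τ.im ≤ 1 → ‖φ τ‖ ≤ B) {a₀ a₁ : ℂ}
    {g Sg y₁ e e' Λ ε' β R x δ : ℝ} (hw : 0 ≤ w) (hg : 0 < g) (hg1 : g ≤ 1) (hS : 0 < Sg)
    (hy : 0 < y₁) (hy1 : y₁ ≤ 1) (hyw : y₁ * w ≤ g / 8)
    (ha1 : ‖a₁‖ ^ 2 ≤ (1 - g / 2) * ‖a₀‖ ^ 2) (ha0 : g / 2 * Sg ≤ ‖a₀‖ ^ 2)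
    (he' : 0 ≤ e') (hee : 32 * e ^ 2 ≤ g * e' ^ 2) (hΛ : 0 ≤ Λ) (hβ : 0 < β) (hβε : β ≤ ε')
    (hε : ε' ≤ 1 / 4) (hR : 2 ≤ β ^ 2 * R) (hx : x ∈ Icc R (2 * R))
    (n0 : ∫⁻ t in Icc (x - ε' * R) (x + ε' * R), ENNReal.ofReal (Pk (β * R) (t - x) *
      ‖T₀ (t + I * y₁) - a₀‖ ^ 2) ≤ ENNReal.ofReal (e ^ 2 * Sg))
    (n1 : ∫⁻ t in Icc (x - ε' * R) (x + ε' * R), ENNReal.ofReal (Pk (β * R) (t - x) *
      ‖T₁ (t + I * ((-y₁ : ℝ) : ℂ)) - a₁‖ ^ 2) ≤ ENNReal.ofReal (e ^ 2 * Sg))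
    (f0 : ∫⁻ t in Ioi (0 : ℝ), ENNReal.ofReal
      (‖(t + I * y₁) * T₀ (t + I * y₁)‖ ^ 2 * (R / (R ^ 2 + t ^ 2))) ≤
        ENNReal.ofReal (Λ * R ^ 2 * Sg))
    (f1 : ∫⁻ t in Ioi (0 : ℝ), ENNReal.ofReal
      (‖(t + I * ((-y₁ : ℝ) : ℂ)) * T₁ (t + I * ((-y₁ : ℝ) : ℂ))‖ ^ 2 * (R / (R ^ 2 + t ^ 2))) ≤
        ENNReal.ofReal (Λ * R ^ 2 * Sg))
    (hδ : C * (e' / (g / 8) + ε' + β / ε' + √(64 * Λ / g * β) / (g / 8 * ε')) ≤ δ)
    (hδ1 : δ ≤ 1) :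
    S (ord φ) (kQ (x / (1 + β / 4)) (x * (1 + β / 4))) ≤ δ * (β * R) / y₁ := by
  have hR0 : 0 < R := by
    by_contra hcon
    have : β ^ 2 * R ≤ 0 := mul_nonpos_of_nonneg_of_nonpos (sq_nonneg _) (not_lt.1 hcon)
    linarith
  have hex := exp_le_inv hyw
  have hex0 := Real.exp_pos (y₁ * w)
  have hE : Real.exp (y₁ * w) ≤ 2 := by nlinarith
  have ha : a₀ ≠ 0 := by
    rintro rfl
    have : 0 < g / 2 * Sg := by positivity
    simp at ha0; linarith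
  have hb1 : ‖a₁‖ ≤ (1 - g / 8) ^ 2 * ‖a₀‖ := by
    have h1 : ‖a₁‖ ≤ (1 - g / 4) * ‖a₀‖ := by
      refine (pow_le_pow_iff_left₀ (norm_nonneg _) (mul_nonneg (by linarith) (norm_nonneg _))
        two_ne_zero).1 ?_
      refine ha1.trans ?_
      rw [mul_pow]
      gcongr
      nlinarith
    refine h1.trans ?_
    gcongr
    nlinarith
  have hb2 : ‖conj a₁‖ * Real.exp (y₁ * w) ≤ (1 - g / 8) * ‖a₀‖ := by
    rw [Complex.norm_conj]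
    calc ‖a₁‖ * Real.exp (y₁ * w) ≤ (1 - g / 8) ^ 2 * ‖a₀‖ * Real.exp (y₁ * w) := by gcongr
      _ = (1 - g / 8) * ‖a₀‖ * (Real.exp (y₁ * w) * (1 - g / 8)) := by ring
      _ ≤ (1 - g / 8) * ‖a₀‖ * 1 := by
        gcongr
        exact mul_nonneg (by linarith) (norm_nonneg _)
      _ = _ := mul_one _
  have hn := h.near_int a₀ a₁ hE (by positivity) (by positivity) _ n0 n1
  have hf := h.far_int hE hR0.le (by positivity) f0 f1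
  have key := hC φ a₀ (conj a₁) w y₁ (g / 8) e' (64 * Λ / g) ε' β R x hd hb ha hw hy hy1
    (by positivity) (by linarith) hb2 he' (by positivity) hβ hβε hε hR hx
    (hn.trans (ENNReal.ofReal_le_ofReal ?_)) (hf.trans (ENNReal.ofReal_le_ofReal ?_))
    (hδ.trans hδ1)
  · refine key.trans ?_
    gcongr
  · have h1 := mul_le_mul_of_nonneg_right hee hS.le
    have h2 := mul_le_mul_of_nonneg_left ha0 (sq_nonneg e')
    linarith
  · have h2 := mul_le_mul_of_nonneg_left ha0 (show 0 ≤ 64 * Λ / g * R ^ 2 by positivity)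
    have h3 : 64 * Λ / g * R ^ 2 * (g / 2 * Sg) = 32 * (Λ * R ^ 2 * Sg) := by
      field_simp; ring
    linarith

theorem gap_int {T₀ T₁ φ : ℂ → ℂ} {w : ℝ} (h : Amp T₀ T₁ φ w) (a₀ a₁ : ℂ) {d D x A : ℝ}
    (hd : 0 < d) (hD : d ≤ D) (hA : 0 ≤ A)
    (n0 : ∫⁻ t in Icc (x - D) (x + D), ENNReal.ofReal (Pk d (t - x) *
      ‖T₀ (t + I * ((0 : ℝ) : ℂ)) - a₀‖ ^ 2) ≤ ENNReal.ofReal A)
    (n1 : ∫⁻ t in Icc (x - D) (x + D), ENNReal.ofReal (Pk d (t - x) *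
      ‖T₁ (t + I * ((0 : ℝ) : ℂ)) - a₁‖ ^ 2) ≤ ENNReal.ofReal A) :
    ∫⁻ t in Icc (x - d) (x + d), ENNReal.ofReal (Pk d (t - x) *
      ‖φ t - (a₀ - conj a₁ * Complex.exp (-(I * t * w)))‖ ^ 2) ≤ ENNReal.ofReal (8 * (A + A)) := by
  have hn := h.near_int a₀ a₁ (y := 0) (by simp) hd.le hA _ n0 (by rwa [neg_zero])
  simp only [ofReal_zero, mul_zero, add_zero] at hn
  exact (lintegral_mono_set (Icc_subset_Icc (by linarith) (by linarith))).trans hn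

theorem Amp.cont {T₀ T₁ φ : ℂ → ℂ} {w : ℝ} (h : Amp T₀ T₁ φ w) : Continuous φ := by
  have c0 := h.c0
  have c1 := h.c1
  rw [show φ = fun τ => T₀ τ - Complex.exp (-(I * τ * w)) * T₁ (-τ) from funext h.eq]
  fun_prop

end KeyAAux

open KeyAAux

theorem key_point {γ w₀ W : ℝ} (hγ : 0 < γ) (hw₀ : 0 < w₀) : ∃ y₁ : ℝ, 0 < y₁ ∧ y₁ ≤ 1 ∧
    ∀ ε > 0, ∃ e > 0, ∃ ε₀ > 0, ∀ ε' : ℝ, 0 < ε' → ε' ≤ ε₀ → ∀ Λ ≥ (0 : ℝ), ∃ β₀ > 0,
    ∀ β : ℝ, 0 < β → β ≤ β₀ → ∃ R₀ : ℝ, ∀ R ≥ R₀, ∀ x ∈ Icc R (2 * R),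
    ∀ K L : Set X, Body K → Body L → (∀ ξ, ‖FT K (cx ξ 0)‖ = ‖FT L (cx ξ 0)‖) →
    ∀ p : ℂ, w₀ ≤ wd K (nv p) → wd K (nv p) ≤ W → ∀ a : Fin 4 → ℂ, 0 < ∑ i, ‖a i‖ ^ 2 →
    γ * ∑ i, ‖a i‖ ^ 2 ≤ ‖a 0‖ ^ 2 - ‖a 2‖ ^ 2 →
    (∀ i, ∀ y ∈ ({0, y₁, -y₁} : Set ℝ), ∫⁻ t in Icc (x - ε' * R) (x + ε' * R),
      ENNReal.ofReal (Pk (β * R) (t - x) * ‖TK (B4 K L i) p (t + I * y) - a i‖ ^ 2) ≤
        ENNReal.ofReal (e ^ 2 * ∑ i, ‖a i‖ ^ 2)) →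
    (∀ i, ∀ y ∈ ({y₁, -y₁} : Set ℝ), ∫⁻ t in Ioi (0 : ℝ),
      ENNReal.ofReal (‖(t + I * y) * TK (B4 K L i) p (t + I * y)‖ ^ 2 * (R / (R ^ 2 + t ^ 2))) ≤
        ENNReal.ofReal (Λ * R ^ 2 * ∑ i, ‖a i‖ ^ 2)) →
    S (mA (ln (FT K) (cx (nv p) 0)) (ln (FT L) (cx (nv p) 0)))
      (kI (x / (1 + β / 4)) (x * (1 + β / 4))) ≤ ε * (β / 4) * x := by
  obtain ⟨C, hC0, hC⟩ := line_count
  obtain ⟨e₀, he₀, hgap⟩ := line_gap hγ
  set g := min γ 1 with hgdef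
  have hg : 0 < g := lt_min hγ one_pos
  have hg1 : g ≤ 1 := min_le_right _ _
  have hgγ : g ≤ γ := min_le_left _ _
  set W' := max W 1 with hW'
  have hW1 : 1 ≤ W' := le_max_right _ _
  set y₁ := g / (8 * W') with hy₁
  have hy : 0 < y₁ := by positivity
  have hy1 : y₁ ≤ 1 := by rw [hy₁, div_le_one (by positivity)]; linarith
  refine ⟨y₁, hy, hy1, fun ε hε => ?_⟩
  set δ := min 1 (ε * y₁ / 16) with hδ
  have hδ0 : 0 < δ := lt_min one_pos (by positivity)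
  set η := δ / (4 * C) with hη
  have hη0 : 0 < η := by positivity
  set e' := g / 8 * η with he'
  have he'0 : 0 < e' := by positivity
  set e := min (e' * g / 6) (min 1 (e₀ / 256)) with he
  have he0 : 0 < e := lt_min (by positivity) (lt_min one_pos (by positivity))
  have he1 : 32 * e ^ 2 ≤ g * e' ^ 2 := by
    have h1 : e ^ 2 ≤ (e' * g / 6) ^ 2 := by gcongr; exact min_le_left _ _
    have h2 : g * g * e' ^ 2 ≤ 1 * g * e' ^ 2 := by gcongr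
    have h3 : 0 ≤ g * g * e' ^ 2 := by positivity
    nlinarith
  have he2 : 256 * e ^ 2 ≤ e₀ := by
    have h1 : e ≤ 1 := (min_le_right _ _).trans (min_le_left _ _)
    have h2 : e ≤ e₀ / 256 := (min_le_right _ _).trans (min_le_right _ _)
    nlinarith
  refine ⟨e, he0, min (1 / 4) η, lt_min (by norm_num) hη0, fun ε' hε' hε'0 Λ hΛ => ?_⟩
  have hε4 : ε' ≤ 1 / 4 := hε'0.trans (min_le_left _ _)
  have hεη : ε' ≤ η := hε'0.trans (min_le_right _ _)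
  have hΛ' : 0 ≤ 64 * Λ / g := by positivity
  refine ⟨min ε' (min (η * ε') ((η * (g / 8 * ε')) ^ 2 / (64 * Λ / g + 1))),
    lt_min hε' (lt_min (by positivity) (by positivity)), fun β hβ hβ0 => ?_⟩
  have hβ1 : β ≤ ε' := hβ0.trans (min_le_left _ _)
  have hβ2 : β ≤ η * ε' := hβ0.trans ((min_le_right _ _).trans (min_le_left _ _))
  have hβ3 : β ≤ (η * (g / 8 * ε')) ^ 2 / (64 * Λ / g + 1) :=
    hβ0.trans ((min_le_right _ _).trans (min_le_right _ _))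
  have hE : C * (e' / (g / 8) + ε' + β / ε' + √(64 * Λ / g * β) / (g / 8 * ε')) ≤ δ := by
    have t1 : e' / (g / 8) = η := by rw [he']; field_simp
    have t3 : β / ε' ≤ η := by rwa [div_le_iff₀ hε']
    have t4 : √(64 * Λ / g * β) / (g / 8 * ε') ≤ η := by
      rw [div_le_iff₀ (by positivity)]
      refine Real.sqrt_le_iff.2 ⟨by positivity, ?_⟩
      rw [le_div_iff₀ (by positivity)] at hβ3
      nlinarith
    have t5 : C * (4 * η) = δ := by rw [hη]; field_simp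
    rw [← t5]
    gcongr
    linarith
  refine ⟨max (2 / β ^ 2) (4 * Real.pi / w₀ / β), ?_⟩
  intro R hR x hx K L hK hL hn p hw1 hw2 a hS hga hnear hfar
  have hR1 : 2 ≤ β ^ 2 * R := by
    have := (le_max_left _ _).trans hR
    rw [div_le_iff₀ (by positivity)] at this
    linarith
  have hR0 : 0 < R := lt_of_lt_of_le (by positivity) ((le_max_left _ _).trans hR)
  have hR2 : 4 * Real.pi / w₀ ≤ β * R := by
    have := (le_max_right _ _).trans hR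
    rw [div_le_iff₀ hβ] at this
    linarith
  set Sg := ∑ i, ‖a i‖ ^ 2 with hSg
  have hsum : Sg = ‖a 0‖ ^ 2 + ‖conj (a 1)‖ ^ 2 + ‖a 2‖ ^ 2 + ‖conj (a 3)‖ ^ 2 := by
    rw [hSg, Fin.sum_univ_four, Complex.norm_conj, Complex.norm_conj]
  set w := wd K (nv p) with hw
  have hw0 : 0 < w := hw₀.trans_le hw1
  have hwL : wd L (nv p) = w := (wd_eq hK hL hn _).symm
  have A1 := ph_amp hK p
  have A2 := ph_amp hL p
  have A3 := ph_amp hL.neg p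
  rw [hwL] at A2
  rw [wd_neg, hwL, neg_neg] at A3
  rw [← hw] at A1
  have hd : 0 < β * R := by positivity
  have hdD : β * R ≤ ε' * R := by gcongr
  have G1 := gap_int A1 (a 0) (a 1) (x := x) hd hdD (by positivity)
    (hnear 0 0 (by simp)) (hnear 1 0 (by simp))
  have G2 := gap_int A2 (a 2) (a 3) (x := x) hd hdD (by positivity)
    (hnear 2 0 (by simp)) (hnear 3 0 (by simp))
  have c1 := A1.cont
  have c2 := A2.cont
  obtain ⟨g1, g2, g3⟩ := hgap (fun t => ph K p t) (fun t => ph L p t) (a 0) (conj (a 1)) (a 2)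
    (conj (a 3)) w (β * R) x (by fun_prop) (by fun_prop) hw0
    (le_trans (by have := Real.pi_pos; gcongr) hR2)
    (fun t => by rw [norm_ph_real, norm_ph_real, hn]) (by rw [← hsum]; exact hga) (by
      rw [← hsum]
      refine (lint_two _ (c := 8 * (β * R)) (by positivity) (by positivity) (by positivity)
        ((Pk_meas _ x).fun_mul (Continuous.measurable (by fun_prop)))
        ((Pk_meas _ x).fun_mul (Continuous.measurable (by fun_prop)))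
        (fun t => mul_nonneg (Pk_nonneg hd.le _) (sq_nonneg _))
        (fun t => mul_nonneg (Pk_nonneg hd.le _) (sq_nonneg _)) ?_ G1 G2).trans
        (ENNReal.ofReal_le_ofReal ?_)
      · refine (ae_restrict_iff' measurableSet_Icc).2 (Eventually.of_forall fun t ht => ?_)
        have h1 := Pk_ge (t := t - x) hd (abs_le.2 ⟨by linarith [ht.1], by linarith [ht.2]⟩)
        rw [← mul_add, ← mul_assoc]
        exact le_mul_of_one_le_left (by positivity) h1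
      · have := mul_le_mul_of_nonneg_right he2 (show 0 ≤ Sg * (β * R) by positivity)
        linarith)
  rw [← hsum] at g3
  rw [Complex.norm_conj] at g1 g2 g3
  have hyw : y₁ * w ≤ g / 8 := by
    have : w ≤ W' := hw2.trans (le_max_left _ _)
    calc y₁ * w ≤ y₁ * W' := by gcongr
      _ = g / 8 := by rw [hy₁]; field_simp
  have k1 : ∀ z : ℂ, (1 - γ / 2) * ‖z‖ ^ 2 ≤ (1 - g / 2) * ‖z‖ ^ 2 := fun z => by gcongr
  have k2 : g / 2 * Sg ≤ γ / 2 * Sg := by gcongr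
  have S1 := side hC A1 (ph_diff hK p) (ph_bdd hK p) (a₀ := a 0) (a₁ := a 1) hw0.le hg hg1 hS hy
    hy1 hyw (g1.trans (k1 _)) (by nlinarith [sq_nonneg ‖a 2‖, mul_pos hγ hS]) he'0.le he1 hΛ hβ
    hβ1 hε4 hR1 hx (hnear 0 y₁ (by simp)) (hnear 1 (-y₁) (by simp)) (hfar 0 y₁ (by simp))
    (hfar 1 (-y₁) (by simp)) hE (min_le_left _ _)
  have S2 := side hC A3 (ph_diff hL.neg p) (ph_bdd hL.neg p) (a₀ := a 3) (a₁ := a 2) hw0.le hg hg1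
    hS hy hy1 hyw (g2.trans (k1 _)) (k2.trans g3) he'0.le he1 hΛ hβ
    hβ1 hε4 hR1 hx (hnear 3 y₁ (by simp)) (hnear 2 (-y₁) (by simp)) (hfar 3 y₁ (by simp))
    (hfar 2 (-y₁) (by simp)) hE (min_le_left _ _)
  have hx0 : 0 < x := hR0.trans_le hx.1
  have ha : 0 < x / (1 + β / 4) := by positivity
  refine (count hK hL _ _ _).trans ?_
  rw [S_ph hK p ha, S_ph hL.neg p ha]
  have h1 : δ * (β * R) / y₁ ≤ ε * y₁ / 16 * (β * x) / y₁ := by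
    gcongr
    · exact min_le_right _ _
    · exact hx.1
  have h2 : ε * y₁ / 16 * (β * x) / y₁ = ε * (β / 4) * x / 4 := by field_simp; ring
  linarith

end Pool.Agent.MP_f27d50_gt
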