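import Pool.Agent.MP_f27d50_gt.Key2
import Pool.Agent.MP_f27d50_gt.KeyA
import Pool.Agent.MP_f27d50_gt.CapTail
import Pool.Agent.MP_f27d50_gt.Geom

set_option autoImplicit false

open MeasureTheory Set Filter Topology Complex
open scoped ENNReal Pointwise ComplexConjugate

noncomputable section

namespace Pool.Agent.MP_f27d50_gt

namespace KeyO

theorem nv_sub (p q : ℂ) : ‖nv p - nv q‖ ≤ ‖p - q‖ := by
  refine (pi_norm_le_iff_of_nonneg (norm_nonneg _)).2 fun i => ?_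
  have h1 := Complex.abs_re_le_norm (p - q)
  have h2 := Complex.abs_im_le_norm (p - q)
  rw [Complex.sub_re, abs_sub_comm] at h1
  rw [Complex.sub_im, abs_sub_comm] at h2
  fin_cases i
  · simpa [nv, Real.norm_eq_abs, neg_add_eq_sub] using h1
  · simpa [nv, Real.norm_eq_abs, neg_add_eq_sub] using h2
  · simp [nv]

theorem wd_neg (K : Set X) (η : V) : wd (-K) η = wd K η := by
  rw [wd, wd, hs_neg, hs_neg, neg_neg, add_comm]

theorem wd_low {K : Set X} (hK : Body K) : ∃ c > 0, ∀ p, c ≤ wd K (nv p) := by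
  obtain ⟨c, hc, h⟩ := wd_pos hK
  refine ⟨c, hc, fun p => ?_⟩
  have h1 : (1 : ℝ) ≤ ‖nv p‖ := by simpa [nv] using norm_le_pi_norm (nv p) 2
  have h2 := h (nv p)
  have h3 := h (-nv p)
  have h4 : 0 ≤ c * ‖-nv p‖ := by positivity
  rw [wd]
  nlinarith

theorem wd_up {K : Set X} (hK : Body K) (p₀ : ℂ) :
    ∃ W : ℝ, ∀ p ∈ Metric.closedBall p₀ 1, wd K (nv p) ≤ W := by
  have hc : Continuous fun p => wd K (nv p) :=
    ((GeomAux.continuous_hs hK.cpt).comp GeomAux.continuous_nv).add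
      ((GeomAux.continuous_hs hK.cpt).comp GeomAux.continuous_nv.neg)
  obtain ⟨W, hW⟩ := (isCompact_closedBall p₀ 1).bddAbove_image hc.continuousOn
  exact ⟨W, fun p hp => hW (mem_image_of_mem _ hp)⟩

theorem Sig_eq (K L : Set X) (A : Set ℂ) : Sig K L A = ∑ i, GK (B4 K L i) A := by
  simp [Sig, B4, Fin.sum_univ_four]

end KeyO

open KeyO

theorem key {K L : Set X} (hK : Body K) (hL : Body L)
    (hn : ∀ ξ, ‖FT K (cx ξ 0)‖ = ‖FT L (cx ξ 0)‖) (p₀ : ℂ) {γ : ℝ} (hγ : 0 < γ)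
    (hgap : ∀ ρ₀ > 0, ∃ ρ, 0 < ρ ∧ ρ < ρ₀ ∧ Sig K L (Metric.sphere p₀ ρ) = 0 ∧
      0 < Sig K L (Metric.closedBall p₀ ρ) ∧
      ENNReal.ofReal γ * Sig K L (Metric.closedBall p₀ ρ) + GK L (Metric.closedBall p₀ ρ) ≤
        GK K (Metric.closedBall p₀ ρ)) :
    Few (FT K) (FT L) (nv p₀) := by
  obtain ⟨w₀, hw₀, hlow⟩ := wd_low hK
  obtain ⟨W, hW⟩ := wd_up hK p₀
  have hB4 : ∀ i, Body (B4 K L i) := fun i => by
    fin_cases i
    exacts [hK, hK.neg, hL, hL.neg]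
  have hwd : ∀ i η, wd (B4 K L i) η = wd K η := fun i η => by
    fin_cases i
    exacts [rfl, wd_neg K η, (wd_eq hK hL hn η).symm, (wd_neg L η).trans (wd_eq hK hL hn η).symm]
  have hcap := fun i => cap_body (hB4 i)
  obtain ⟨y₁, hy₁, hy₁', hkp⟩ := key_point (γ := γ / 2) (w₀ := w₀) (W := W) (half_pos hγ) hw₀
  obtain ⟨Ct, hCt, hct⟩ := cap_tail W
  obtain ⟨Cf, hCf, hcf⟩ := far_energy W
  intro ε hε
  obtain ⟨e, he, ε₀, hε₀, hkp⟩ := hkp ε hε
  obtain ⟨l₁, hl₁⟩ : ∃ l₁ : ℝ, l₁ = 9 / e ^ 2 := ⟨_, rfl⟩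
  obtain ⟨l₂, hl₂⟩ : ∃ l₂ : ℝ, l₂ = γ / (24 * Cf) := ⟨_, rfl⟩
  have hl₁0 : 0 < l₁ := by rw [hl₁]; positivity
  have hl₂0 : 0 < l₂ := by rw [hl₂]; positivity
  obtain ⟨thr, hthr⟩ : ∃ thr : ℝ, thr = γ / (720 * l₁) := ⟨_, rfl⟩
  have hthr0 : 0 < thr := by rw [hthr]; positivity
  obtain ⟨M, hM2, hM⟩ : ∃ M : ℝ, 2 ≤ M ∧ 12 * (2 * (Ct / √M)) / thr ≤ ε := by
    refine ⟨(24 * Ct / (thr * ε)) ^ 2 + 2, by linarith [sq_nonneg (24 * Ct / (thr * ε))], ?_⟩
    have h1 : 24 * Ct / (thr * ε) ≤ √((24 * Ct / (thr * ε)) ^ 2 + 2) :=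
      Real.le_sqrt_of_sq_le (by linarith)
    have h2 : 0 < 24 * Ct / (thr * ε) := by positivity
    calc _ ≤ 12 * (2 * (Ct / (24 * Ct / (thr * ε)))) / thr := by gcongr
      _ = ε := by field_simp; ring
  have hM0 : 0 < M := by linarith
  obtain ⟨ε', hε'0, hε'1, hε'2, hε'3⟩ : ∃ ε' : ℝ, 0 < ε' ∧ ε' ≤ ε₀ ∧ ε' ≤ 1 / 2 ∧
      12 * l₁ * (10800 * 32768 * M ^ 4 * ε' ^ 2) ≤ γ := by
    obtain ⟨κ, hκ⟩ : ∃ κ : ℝ, κ = 12 * l₁ * (10800 * 32768 * M ^ 4) := ⟨_, rfl⟩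
    have hκ0 : 0 < κ := by rw [hκ]; positivity
    refine ⟨min ε₀ (min (1 / 2) (γ / κ)), by positivity, min_le_left _ _,
      (min_le_right _ _).trans (min_le_left _ _), ?_⟩
    set z := min ε₀ (min (1 / 2) (γ / κ)) with hz
    have z0 : 0 < z := by positivity
    have z1 : z ≤ 1 / 2 := (min_le_right _ _).trans (min_le_left _ _)
    have z2 : z ≤ γ / κ := (min_le_right _ _).trans (min_le_right _ _)
    rw [le_div_iff₀ hκ0] at z2
    have z3 : z * κ * z ≤ γ * 1 := by gcongr; linarith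
    calc _ = z * κ * z := by rw [hκ]; ring
      _ ≤ γ := by linarith
  obtain ⟨β₀, hβ₀, hkp⟩ := hkp ε' hε'0 hε'1 (9 / l₂) (by positivity)
  obtain ⟨β, hβ0, hβ1, hβ2⟩ : ∃ β : ℝ, 0 < β ∧ β ≤ β₀ ∧ β ≤ ε' :=
    ⟨min β₀ ε', by positivity, min_le_left _ _, min_le_right _ _⟩
  obtain ⟨R₁, hkp⟩ := hkp β hβ0 hβ1
  refine ⟨1 + β / 4, by linarith, by linarith, fun ρ hρ => ?_⟩
  obtain ⟨r, hr0, hr1, hsph, hpos, hgap⟩ := hgap (min ρ 1) (by positivity)
  have hrρ : r ≤ ρ := hr1.le.trans (min_le_left _ _)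
  have hB1 : Metric.closedBall p₀ r ⊆ Metric.closedBall p₀ 1 :=
    Metric.closedBall_subset_closedBall (hr1.le.trans (min_le_right _ _))
  have hψ : ∀ i, ∀ p ∈ Metric.closedBall p₀ r, ∀ y ∈ Om (B4 K L i),
      psi (uK (B4 K L i)) (mK (B4 K L i)) p y ≤ W := fun i p hp y hy =>
    (psi_le_wd (hB4 i) p hy).trans ((hwd i _).le.trans (hW p (hB1 hp)))
  have hfin : ∀ i, GK (B4 K L i) (Metric.closedBall p₀ r) ≠ ⊤ := fun i =>
    haveI := En.fin_gam (hcap i)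
    measure_ne_top (Gam (Om (B4 K L i)) (uK (B4 K L i))) _
  obtain ⟨s, hs⟩ : ∃ s : Fin 4 → ℝ, ∀ i, s i = (GK (B4 K L i) (Metric.closedBall p₀ r)).toReal :=
    ⟨_, fun _ => rfl⟩
  have hs0 : ∀ i, 0 ≤ s i := fun i => by rw [hs]; exact ENNReal.toReal_nonneg
  have hs1 : ∀ i, GK (B4 K L i) (Metric.closedBall p₀ r) = ENNReal.ofReal (s i) := fun i => by
    rw [hs, ENNReal.ofReal_toReal (hfin i)]
  obtain ⟨σ, hσ⟩ : ∃ σ : ℝ, σ = ∑ i, s i := ⟨_, rfl⟩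
  have hSig : Sig K L (Metric.closedBall p₀ r) = ENNReal.ofReal σ := by
    rw [Sig_eq, hσ, ENNReal.ofReal_sum_of_nonneg fun i _ => hs0 i]
    exact Finset.sum_congr rfl fun i _ => hs1 i
  have hσ0 : 0 < σ := by rwa [hSig, ENNReal.ofReal_pos] at hpos
  have hsσ : ∀ i, s i ≤ σ := fun i => by
    rw [hσ]
    exact Finset.single_le_sum (fun i _ => hs0 i) (Finset.mem_univ i)
  have hgap' : γ * σ + s 2 ≤ s 0 := by
    have e0 : GK K (Metric.closedBall p₀ r) = ENNReal.ofReal (s 0) := hs1 0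
    have e2 : GK L (Metric.closedBall p₀ r) = ENNReal.ofReal (s 2) := hs1 2
    rwa [hSig, e0, e2, ← ENNReal.ofReal_mul hγ.le,
      ← ENNReal.ofReal_add (by positivity) (hs0 2), ENNReal.ofReal_le_ofReal_iff (hs0 0)] at hgap
  have h2σ : ∀ i, Gam (Om (B4 K L i)) (uK (B4 K L i)) (Metric.closedBall p₀ r) +
      ENNReal.ofReal σ ≤ ENNReal.ofReal (2 * σ) := fun i => by
    have e : Gam (Om (B4 K L i)) (uK (B4 K L i)) (Metric.closedBall p₀ r) =
      ENNReal.ofReal (s i) := hs1 i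
    rw [e, ← ENNReal.ofReal_add (hs0 i) hσ0.le]
    exact ENNReal.ofReal_le_ofReal (by linarith [hsσ i])
  have E1 := eventually_all.2 fun i =>
    eventually_atTop.2 (hct _ _ _ (hcap i) p₀ r (hψ i) M hM2 σ hσ0)
  have E3 := eventually_all.2 fun i =>
    eventually_atTop.2 (hcf _ _ _ (hcap i) p₀ r (hψ i) σ hσ0)
  have E2 : ∀ᶠ R : ℝ in atTop, ∀ i, volume (Near (Om (B4 K L i)) (uK (B4 K L i)) (mK (B4 K L i))
      p₀ r (2 * (2 * (M / R)))) < ENNReal.ofReal (2 * σ) := by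
    refine eventually_all.2 fun i => ?_
    have t1 : Tendsto (fun R : ℝ => 2 * (2 * (M / R))) atTop (𝓝[>] 0) := by
      refine tendsto_nhdsWithin_iff.2 ⟨?_, ?_⟩
      · have := ((tendsto_const_nhds (x := M)).div_atTop tendsto_id).const_mul 2 |>.const_mul 2
        simpa using this
      · filter_upwards [eventually_gt_atTop 0] with R hR
        exact mem_Ioi.2 (by positivity)
    refine ((near_tendsto (hcap i) p₀ r).comp t1).eventually_lt_const ?_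
    have e : Gam (Om (B4 K L i)) (uK (B4 K L i)) (Metric.closedBall p₀ r) =
      ENNReal.ofReal (s i) := hs1 i
    rw [e, ENNReal.ofReal_lt_ofReal_iff (by positivity)]
    linarith [hsσ i]
  have hen : ∀ i, Tendsto (fun τ : ℝ => ∫ p in Metric.closedBall p₀ r, τ ^ 2 *
      ‖TT (Om (B4 K L i)) (uK (B4 K L i)) (mK (B4 K L i)) p τ‖ ^ 2) atTop
      (𝓝 ((2 * Real.pi) ^ 2 * s i)) := fun i => by
    rw [hs]
    refine energy (hcap i) p₀ hr0 ?_
    rw [Sig_eq] at hsph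
    exact Finset.sum_eq_zero_iff.1 hsph i (Finset.mem_univ i)
  have hlim := (hen 0).sub ((hen 2).add
    ((tendsto_finsetSum Finset.univ fun i _ => hen i).const_mul (γ / 2)))
  have hlt : 3 * (γ * σ) < (2 * Real.pi) ^ 2 * s 0 - ((2 * Real.pi) ^ 2 * s 2 +
      γ / 2 * ∑ i, (2 * Real.pi) ^ 2 * s i) := by
    rw [← Finset.mul_sum, ← hσ]
    have h1 : 36 < (2 * Real.pi) ^ 2 := by nlinarith [Real.pi_gt_three]
    have h2 : 0 < γ * σ := by positivity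
    have h3 : (2 * Real.pi) ^ 2 * (γ * σ + s 2) ≤ (2 * Real.pi) ^ 2 * s 0 := by gcongr
    nlinarith
  obtain ⟨t₀, ht₀⟩ := eventually_atTop.1 (hlim.eventually_const_lt hlt)
  have hy : ∀ j, |(![0, y₁, -y₁] : Fin 3 → ℝ) j| ≤ 1 := fun j => by
    fin_cases j <;> simp [abs_of_pos hy₁, hy₁']
  refine eventually_atTop.1 ?_
  filter_upwards [E1, E2, E3, eventually_ge_atTop R₁, eventually_ge_atTop M,
    eventually_ge_atTop (1 / ε'), eventually_ge_atTop (2 * t₀)] with R e1 e2 e3 hR₁ hRM hRε hRt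
  have hR : 0 < R := hM0.trans_le hRM
  have hεR : 1 ≤ ε' * R := by
    rw [div_le_iff₀ hε'0] at hRε
    linarith
  obtain ⟨Bad, hBad, hvol, hgood⟩ := avg hcap p₀ r ![0, y₁, -y₁] rfl hy (R := R) (M := M)
    (ε' := ε') (β := β) (σ := σ) (γ := γ / 2) (thr := thr) (c₁ := 2 * (Ct / √M)) (c₂ := 32768)
    (l₁ := l₁) (l₂ := l₂) (Cf := 2 * Cf) hR hM0 hRM hβ0 hβ2 hε'2 hεR hσ0 (by positivity) hthr0
    (by positivity) hl₁0 hl₂0 (by positivity)
    (fun i j => by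
      refine (e1 i _ (hy j)).trans ((mul_le_mul' le_rfl (h2σ i)).trans (le_of_eq ?_))
      rw [← ENNReal.ofReal_mul (by positivity)]
      congr 1
      ring)
    (fun i => by
      refine (cap_area (hcap i) p₀ r (by positivity)).trans
        ((mul_le_mul' le_rfl (e2 i).le).trans (le_of_eq ?_))
      rw [← ENNReal.ofReal_mul (by positivity)]
      congr 1
      ring)
    (fun i j => by
      refine (e3 i _ (hy j)).trans ((mul_le_mul' le_rfl (h2σ i)).trans (le_of_eq ?_))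
      rw [← ENNReal.ofReal_mul hCf.le]
      congr 1
      ring)
    (fun t ht => by
      have h1 := ht₀ t (by linarith)
      have h2 : 12 * (l₁ * (60 * thr)) = γ := by rw [hthr]; field_simp; ring
      have h3 : 12 * (l₂ * (2 * Cf)) = γ := by rw [hl₂]; field_simp; ring
      have h4 : 12 * (l₁ * (60 * thr + 10800 * 32768 * M ^ 4 * ε' ^ 2) + l₂ * (2 * Cf)) ≤
          3 * γ := by linarith
      have h5 := mul_le_mul_of_nonneg_right h4 hσ0.le
      linarith)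
  refine ⟨Bad, hBad, hvol.trans (ENNReal.ofReal_le_ofReal (by gcongr)), fun x hx hxB => ?_⟩
  obtain ⟨p, hp, a, a0, a1, a2, a3⟩ := hgood x hx hxB
  refine ⟨nv p, (nv_sub p p₀).trans ((mem_closedBall_iff_norm.1 hp).trans hrρ), ?_⟩
  have e9 : 9 / l₁ = e ^ 2 := by rw [hl₁]; field_simp
  rw [e9] at a2
  have := hkp R hR₁ x hx K L hK hL hn p (hlow p) (hW p (hB1 hp)) a a0 a1
    (fun i y hy' => by
      rcases hy' with rfl | rfl | rfl
      exacts [a2 i 0, a2 i 1, a2 i 2])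
    (fun i y hy' => by
      rcases hy' with rfl | rfl
      exacts [a3 i 1, a3 i 2])
  rwa [add_sub_cancel_left]

end Pool.Agent.MP_f27d50_gt
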