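import Pool.Agent.MP_f27d50_gt.Variation2

/-! The moment identity for the surface measures, and null faces. -/

set_option autoImplicit false

open MeasureTheory Set Filter Topology Complex
open scoped ENNReal Pointwise ComplexConjugate

noncomputable section

namespace Pool.Agent.MP_f27d50_gt

namespace VarAux

lemma dot_sub (η : V) (x y : X) : dot η (x - y) = dot η x - dot η y := by simp [dot]; ring

lemma body_sub {K : Set X} (hK : Body K) {o : X} (ho : o ∈ interior K) :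
    Body ((fun x => x - o) '' K) where
  cpt := hK.cpt.image (by fun_prop)
  cvx := by
    simpa only [sub_eq_neg_add] using hK.cvx.translate (-o)
  zero := (isOpenMap_sub_right o).image_interior_subset K ⟨o, ho, sub_self o⟩

lemma hs_sub {K : Set X} (hK : Body K) {o : X} (ho : o ∈ interior K) (η : V) :
    hs ((fun x => x - o) '' K) η = hs K η - dot η o := by
  have hL := body_sub hK ho
  apply le_antisymm
  · obtain ⟨_, ⟨x, hx, rfl⟩, h⟩ := exists_hs hL.cpt ⟨_, interior_subset hL.zero⟩ η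
    rw [← h, dot_sub]
    linarith [le_hs hK.cpt hx η]
  · obtain ⟨x, hx, h⟩ := exists_hs hK.cpt ⟨_, interior_subset ho⟩ η
    rw [← h, ← dot_sub]
    exact le_hs hL.cpt (mem_image_of_mem _ hx) η

lemma self_ge {K : Set X} (hK : Body K) (hw : NoWall K) {o : X} (ho : o ∈ interior K) :
    3 * volume K ≤ II K (fun η => hs K η - dot η o) := by
  rw [← funext (hs_sub hK ho)]
  refine ENNReal.le_of_forall_pos_le_add fun ε hε _ => ?_
  obtain ⟨t, h1, ht⟩ := ((first_var hK hw (body_sub hK ho) (NNReal.coe_pos.2 hε)).and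
    self_mem_nhdsWithin).exists
  have ht0 : (0 : ℝ) < t := ht
  have h2 : AffineMap.homothety o (1 + t) '' K ⊆ K + t • ((fun x => x - o) '' K) := by
    rintro _ ⟨x, hx, rfl⟩
    refine ⟨x, hx, _, ⟨_, ⟨x, hx, rfl⟩, rfl⟩, ?_⟩
    simp only [AffineMap.homothety_apply, vsub_eq_sub, vadd_eq_add, add_smul, one_smul]
    abel
  have h3 := (measure_mono h2).trans h1
  rw [Measure.addHaar_image_homothety, finrank_X] at h3
  have h4 : volume K + ENNReal.ofReal t * (3 * volume K) ≤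
      ENNReal.ofReal |(1 + t) ^ 3| * volume K := by
    rw [← mul_assoc, ← one_add_mul, ← ENNReal.ofReal_one, ← ENNReal.ofReal_ofNat 3,
      ← ENNReal.ofReal_mul ht0.le, ← ENNReal.ofReal_add zero_le_one (by positivity),
      abs_of_nonneg (by positivity)]
    gcongr
    nlinarith [mul_pos ht0 ht0]
  have h5 := h4.trans h3
  rw [ENNReal.add_le_add_iff_left hK.cpt.measure_lt_top.ne,
    ENNReal.mul_le_mul_iff_right (ENNReal.ofReal_pos.2 ht0).ne' ENNReal.ofReal_ne_top,
    ENNReal.ofReal_coe_nnreal] at h5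
  exact h5

lemma fin_GK {K : Set X} (hK : Body K) : IsFiniteMeasure (GK K) := by
  have : IsFiniteMeasure ((volume : Measure ℂ).restrict (Om K)) :=
    isFiniteMeasure_restrict.2 (cap_body hK).bdd.measure_lt_top.ne
  unfold GK Gam
  infer_instance

lemma int_of {K : Set X} (hK : Body K)
    (h : ∫⁻ p, ENNReal.ofReal (hs K (nv p)) ∂GK K ≠ ∞) :
    Integrable (fun p => hs K (nv p)) (GK K) ∧ Integrable (fun p : ℂ => ‖p‖) (GK K) := by
  have h1 : Integrable (fun p => hs K (nv p)) (GK K) :=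
    (lintegral_ofReal_ne_top_iff_integrable (cont_hs hK).aestronglyMeasurable
      (ae_of_all _ fun p => hs_nonneg hK _)).1 h
  refine ⟨h1, ?_⟩
  obtain ⟨c, hc, h2⟩ := wd_pos hK
  refine (h1.const_mul (2 / c)).mono' continuous_norm.aestronglyMeasurable (ae_of_all _ fun p => ?_)
  have h3 := norm_le_pi_norm (nv p) 0
  have h4 := norm_le_pi_norm (nv p) 1
  have h5 := Complex.norm_le_abs_re_add_abs_im p
  simp only [nv, Matrix.cons_val_zero, Matrix.cons_val_one, norm_neg, Real.norm_eq_abs] at h3 h4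
  rw [norm_norm, div_mul_eq_mul_div, le_div_iff₀ hc]
  have := h2 (nv p)
  unfold nv at this ⊢
  nlinarith

lemma int_dot {μ : Measure ℂ} [IsFiniteMeasure μ] (h : Integrable (fun p : ℂ => ‖p‖) μ) (o : X) :
    Integrable (fun p => dot (nv p) o) μ := by
  simp only [dot_nv]
  refine (integrable_const _).sub ((h.mul_const ‖o.1‖).mono'
    (Continuous.aestronglyMeasurable (by fun_prop)) (ae_of_all _ fun p => norm_inner_le_norm _ _))

end VarAux

open VarAux

theorem moment {K : Set X} (hK : Body K) (hw : NoWall K) :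
    Integrable (fun p : ℂ => ‖p‖) (GK K) ∧ Integrable (fun p : ℂ => ‖p‖) (GK (-K)) ∧
      ∀ (c : ℝ) (k : ℂ), ∫ p, (c + inner ℝ k p) ∂GK K = ∫ p, (c + inner ℝ k p) ∂GK (-K) := by
  have hfin : II K (hs K) ≠ ∞ := ne_top_of_le_ne_top
    (ENNReal.mul_ne_top (by simp) hK.cpt.measure_lt_top.ne) (II_self_le hK)
  rw [II, ENNReal.add_ne_top] at hfin
  obtain ⟨a1, a2⟩ := int_of hK hfin.1
  obtain ⟨b1, b2⟩ := int_of hK.neg (by simpa only [hs_neg] using hfin.2)
  simp only [hs_neg] at b1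
  have := fin_GK hK
  have := fin_GK hK.neg
  refine ⟨a2, b2, fun c k => ?_⟩
  have key : ∀ o ∈ interior K, (∫ p, hs K (nv p) ∂GK K - ∫ p, dot (nv p) o ∂GK K) +
      (∫ p, hs K (-nv p) ∂GK (-K) + ∫ p, dot (nv p) o ∂GK (-K)) = (3 * volume K).toReal := by
    intro o ho
    have n1 : ∀ p, 0 ≤ hs K (nv p) - dot (nv p) o := fun p =>
      sub_nonneg.2 (le_hs hK.cpt (interior_subset ho) _)
    have n2 : ∀ p, 0 ≤ hs K (-nv p) - dot (-nv p) o := fun p =>
      sub_nonneg.2 (le_hs hK.cpt (interior_subset ho) _)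
    have i1 : Integrable (fun p => hs K (nv p) - dot (nv p) o) (GK K) := a1.sub (int_dot a2 o)
    have i2 : Integrable (fun p => hs K (-nv p) - dot (-nv p) o) (GK (-K)) := by
      simp only [dot_neg, sub_neg_eq_add]; exact b1.add (int_dot b2 o)
    rw [← le_antisymm (self_le hK ho) (self_ge hK hw ho), II,
      ← ofReal_integral_eq_lintegral_ofReal i1 (ae_of_all _ n1),
      ← ofReal_integral_eq_lintegral_ofReal i2 (ae_of_all _ n2),
      ← ENNReal.ofReal_add (integral_nonneg n1) (integral_nonneg n2),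
      ENNReal.toReal_ofReal (add_nonneg (integral_nonneg n1) (integral_nonneg n2)),
      integral_sub a1 (int_dot a2 o)]
    simp only [dot_neg, sub_neg_eq_add]
    rw [integral_add b1 (int_dot b2 o)]
  obtain ⟨s, hs0, hs1⟩ : ∃ s : ℝ, s • ((-k, c) : X) ∈ interior K ∧ 0 < s := by
    have h3 : Continuous fun s : ℝ => s • ((-k, c) : X) := by fun_prop
    have h4 : ∀ᶠ s : ℝ in 𝓝 0, s • ((-k, c) : X) ∈ interior K :=
      h3.continuousAt.preimage_mem_nhds (by
        simpa only [zero_smul] using isOpen_interior.mem_nhds hK.zero)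
    exact ((h4.filter_mono (nhdsWithin_le_nhds (s := Ioi 0))).and self_mem_nhdsWithin).exists
  have k0 := key 0 hK.zero
  have k1 := key _ hs0
  have e0 : ∀ p, dot (nv p) 0 = 0 := fun p => by simp [dot]
  have e1 : ∀ p, dot (nv p) (s • ((-k, c) : X)) = s * (c + inner ℝ k p) := fun p => by
    rw [dot_smul, dot_nv, inner_neg_right, real_inner_comm, sub_neg_eq_add]
  simp only [e0, integral_zero] at k0
  simp only [e1, integral_const_mul] at k1
  exact mul_left_cancel₀ hs1.ne' (by linarith)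

theorem face_null {K : Set X} (hK : Body K) {v₁ v₂ : V} (hv : LinearIndependent ℝ ![v₁, v₂])
    (hadd : hs K (v₁ + v₂) = hs K v₁ + hs K v₂) :
    GK K {p | ∃ s > (0 : ℝ), ∃ t > (0 : ℝ), nv p = s • v₁ + t • v₂} = 0 := by
  rw [LinearIndependent.pair_iff] at hv
  have hlin : ∀ (s t : ℝ) (x : X), dot (s • v₁ + t • v₂) x = s * dot v₁ x + t * dot v₂ x :=
    fun s t x => by simp [dot]; ring
  have hm : MeasurableSet {p : ℂ | ∃ s > (0 : ℝ), ∃ t > (0 : ℝ), nv p = s • v₁ + t • v₂} := by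
    have h1 : MeasurableSet ((fun q : ℝ × ℝ => q.1 • v₁ + q.2 • v₂) '' (Ioi 0 ×ˢ Ioi 0)) := by
      refine (measurableSet_Ioi.prod measurableSet_Ioi).image_of_continuousOn_injOn
        (by fun_prop) fun a _ b _ h => ?_
      have h2 := hv (a.1 - b.1) (a.2 - b.2) (by
        rw [sub_smul, sub_smul, sub_add_sub_comm]; exact sub_eq_zero.2 h)
      exact Prod.ext (sub_eq_zero.1 h2.1) (sub_eq_zero.1 h2.2)
    have h2 : Continuous nv := by
      refine continuous_pi fun i => ?_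
      fin_cases i <;> simp [nv] <;> fun_prop
    convert h2.measurable h1 using 1
    ext p
    constructor
    · rintro ⟨s, hs, t, ht, h⟩; exact ⟨(s, t), ⟨hs, ht⟩, h.symm⟩
    · rintro ⟨q, ⟨hs, ht⟩, h⟩; exact ⟨q.1, hs, q.2, ht, h.symm⟩
  rcases eq_empty_or_nonempty {p : ℂ | ∃ s > (0 : ℝ), ∃ t > (0 : ℝ), nv p = s • v₁ + t • v₂}
    with h0 | ⟨p₀, s₀, -, t₀, -, h0⟩
  · rw [h0, measure_empty]
  have h1 : s₀ * v₁ 2 + t₀ * v₂ 2 = 1 := by simpa [nv] using (congrFun h0 2).symm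
  set k : ℂ →ₗ[ℝ] ℝ := (v₂ 2 * v₁ 0 - v₁ 2 * v₂ 0) • Complex.reLm +
    (v₂ 2 * v₁ 1 - v₁ 2 * v₂ 1) • Complex.imLm with hk
  have hk0 : k ≠ 0 := by
    intro h
    have a1 : v₂ 2 * v₁ 0 - v₁ 2 * v₂ 0 = 0 := by simpa [hk] using LinearMap.congr_fun h 1
    have a2 : v₂ 2 * v₁ 1 - v₁ 2 * v₂ 1 = 0 := by simpa [hk] using LinearMap.congr_fun h I
    have a3 := hv (v₂ 2) (-v₁ 2) (by
      ext i
      fin_cases i <;> simp <;> linarith)
    rw [a3.1, neg_eq_zero.1 a3.2] at h1
    simp at h1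
  obtain ⟨x₀, hx₀, hx⟩ := exists_hs hK.cpt ⟨_, interior_subset hK.zero⟩ (v₁ + v₂)
  have c1 := le_hs hK.cpt hx₀ v₁
  have c2 := le_hs hK.cpt hx₀ v₂
  have c3 := hlin 1 1 x₀
  rw [one_smul, one_smul, hx, hadd] at c3
  have hn := line_null k (v₂ 2 * hs K v₁ - v₁ 2 * hs K v₂) hk0
  change Measure.map (PP K) _ _ = 0
  rw [Measure.map_apply (meas_PP K) hm, Measure.restrict_apply' (meas_Om K), ← compl_mem_ae_iff]
  filter_upwards [ae_diff hK, compl_mem_ae_iff.2 hn] with y hy hy2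
  rintro ⟨⟨s, hs, t, ht, h⟩, hy1⟩
  apply hy2
  have d0 := mem_top hK hy1
  have d1 := le_hs hK.cpt d0 v₁
  have d2 := le_hs hK.cpt d0 v₂
  have d3 := le_hs hK.cpt hx₀ (nv (PP K y))
  have d4 := dot_nv (PP K y) (y, -uK K y)
  rw [top hK hy1 (hy hy1).1, ← d4, h, hlin, hlin] at d3
  have e1 : dot v₁ (y, -uK K y) = Pool.Agent.MP_f27d50_gt.hs K v₁ := by
    by_contra e
    nlinarith [mul_pos hs (sub_pos.2 (lt_of_le_of_ne d1 e)), mul_nonneg ht.le (sub_nonneg.2 d2)]
  have e2 : dot v₂ (y, -uK K y) = Pool.Agent.MP_f27d50_gt.hs K v₂ := by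
    by_contra e
    nlinarith [mul_pos ht (sub_pos.2 (lt_of_le_of_ne d2 e)), mul_nonneg hs.le (sub_nonneg.2 d1)]
  change k y = _
  rw [← e1, ← e2]
  simp [hk, dot]; ring

end Pool.Agent.MP_f27d50_gt
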