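import Pool.Agent.MP_f27d50_gt.Geom
import Pool.Agent.MP_f27d50_gt.Energy
import Pool.Agent.MP_f27d50_gt.Variation
import Pool.Agent.MP_f27d50_gt.BMEq
import Pool.Agent.MP_f27d50_gt.KC
import Pool.Agent.MP_f27d50_gt.Key

set_option autoImplicit false

open MeasureTheory Set Filter Topology Complex
open scoped ENNReal Pointwise ComplexConjugate

noncomputable section

namespace Pool.Agent.MP_f27d50_gt

namespace FinalAux

/-! ### linear algebra of the two direction sets -/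

def det3 (a b c : V) : ℝ :=
  a 0 * (b 1 * c 2 - b 2 * c 1) - a 1 * (b 0 * c 2 - b 2 * c 0) + a 2 * (b 0 * c 1 - b 1 * c 0)

theorem cramer (a b c v : V) :
    det3 a b c • v = det3 v b c • a + det3 a v c • b + det3 a b v • c := by
  funext i
  fin_cases i <;> simp [det3] <;> ring

theorem mem_of_det {P : Submodule ℝ V} {a b c : V} (h : det3 a b c ≠ 0) (ha : a ∈ P) (hb : b ∈ P)
    {v : V} (hc : c ∈ P ∨ det3 a b v = 0) : v ∈ P := by
  rw [← P.smul_mem_iff h, cramer]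
  refine P.add_mem (P.add_mem (P.smul_mem _ ha) (P.smul_mem _ hb)) ?_
  rcases hc with hc | hc
  · exact P.smul_mem _ hc
  · rw [hc, zero_smul]; exact P.zero_mem

theorem exists_det {p q : ℂ} (h : p ≠ q) : ∃ c, det3 (nv p) (nv q) c ≠ 0 := by
  by_contra hc
  push Not at hc
  have h0 := hc ![1, 0, 0]
  have h1 := hc ![0, 1, 0]
  simp [det3, nv] at h0 h1
  exact h (Complex.ext (by linarith) (by linarith))

theorem nv_ne (p : ℂ) : nv p ≠ 0 := fun h => by simpa [nv] using congrFun h 2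

theorem eq_of_smul {p q : ℂ} {s t : ℝ} (hs : s ≠ 0) (h : s • nv p = t • nv q) : p = q := by
  have h0 := congrFun h 0
  have h1 := congrFun h 1
  have h2 := congrFun h 2
  simp [nv] at h0 h1 h2
  subst h2
  exact Complex.ext (mul_left_cancel₀ hs h0) (mul_left_cancel₀ hs h1)

theorem indep {p q : ℂ} (h : p ≠ q) {a b : ℝ} (ha : a ≠ 0) (hb : b ≠ 0) :
    LinearIndependent ℝ ![a • nv p, b • nv q] := by
  rw [LinearIndependent.pair_iff]
  intro s t hst
  have hs : s = 0 := by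
    by_contra hs
    refine h (eq_of_smul (mul_ne_zero hs ha) (t := -(t * b)) ?_)
    rw [smul_smul, smul_smul] at hst
    rw [neg_smul]; exact eq_neg_of_add_eq_zero_left hst
  refine ⟨hs, ?_⟩
  rw [hs, zero_smul, zero_add, smul_smul] at hst
  simpa [nv_ne, hb] using hst

/-- a set is carried by its two extreme points if all open gaps between its points are null -/
theorem null_of_gaps {σ : Measure ℂ} {T : Set ℂ} (τ : ℂ → ℝ) (hinj : InjOn τ T)
    (h : ∀ p ∈ T, ∀ p' ∈ T, σ {q | q ∈ T ∧ τ p < τ q ∧ τ q < τ p'} = 0) :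
    ∃ c₁ c₂ : ℂ, ∀ᵐ q ∂σ, q ≠ c₁ → q ≠ c₂ → q ∉ T := by
  obtain ⟨c₁, h₁⟩ : ∃ c : ℂ, ∀ q ∈ T, q ≠ c → ∃ p ∈ T, τ p < τ q := by
    by_cases hc : ∃ c ∈ T, ∀ p ∈ T, τ c ≤ τ p
    · obtain ⟨c, hc, hc'⟩ := hc
      exact ⟨c, fun q hq hne => ⟨c, hc, lt_of_le_of_ne (hc' q hq) fun e => hne (hinj hc hq e).symm⟩⟩
    · push Not at hc
      exact ⟨0, fun q hq _ => hc q hq⟩
  obtain ⟨c₂, h₂⟩ : ∃ c : ℂ, ∀ q ∈ T, q ≠ c → ∃ p ∈ T, τ q < τ p := by
    by_cases hc : ∃ c ∈ T, ∀ p ∈ T, τ p ≤ τ c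
    · obtain ⟨c, hc, hc'⟩ := hc
      exact ⟨c, fun q hq hne => ⟨c, hc, lt_of_le_of_ne (hc' q hq) fun e => hne (hinj hq hc e)⟩⟩
    · push Not at hc
      exact ⟨0, fun q hq _ => hc q hq⟩
  refine ⟨c₁, c₂, ?_⟩
  have key : ∀ r : ℚ × ℚ, ∀ᵐ q ∂σ, (∃ p ∈ T, τ p < r.1) → (∃ p ∈ T, r.2 < τ p) →
      ¬ (q ∈ T ∧ r.1 < τ q ∧ τ q < r.2) := by
    intro r
    by_cases hp : ∃ p ∈ T, τ p < r.1
    · by_cases hp' : ∃ p ∈ T, r.2 < τ p
      · obtain ⟨p, hpT, hp⟩ := hp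
        obtain ⟨p', hpT', hp'⟩ := hp'
        filter_upwards [measure_eq_zero_iff_ae_notMem.1 (h p hpT p' hpT')] with q hq _ _ hq'
        exact hq ⟨hq'.1, hp.trans hq'.2.1, hq'.2.2.trans hp'⟩
      · exact Eventually.of_forall fun q _ h' => absurd h' hp'
    · exact Eventually.of_forall fun q h' => absurd h' hp
  filter_upwards [ae_all_iff.2 key] with q hq n₁ n₂ hT
  obtain ⟨p, hp, l₁⟩ := h₁ q hT n₁
  obtain ⟨p', hp', l₂⟩ := h₂ q hT n₂
  obtain ⟨r₁, a₁, b₁⟩ := exists_rat_btwn l₁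
  obtain ⟨r₂, a₂, b₂⟩ := exists_rat_btwn l₂
  exact hq (r₁, r₂) ⟨p, hp, a₁⟩ ⟨p', hp', b₂⟩ ⟨hT, b₁, a₂⟩

theorem two_points {σ : Measure ℂ} {w : V → ℝ} {A B : Set V} {TB : Set ℂ}
    (hB : ∀ p ∈ TB, nv p ∈ B)
    (P1 : ∀ v ∈ B, ∀ u ∈ Submodule.span ℝ A, w v ≤ w (v + u))
    (P2 : ∀ v ∈ A, ∀ u ∈ Submodule.span ℝ B, w v ≤ w (v + u))
    (wpos : ∀ v, v ≠ 0 → 0 < w v) (wsmul : ∀ (t : ℝ) v, w (t • v) = |t| * w v)
    (face : ∀ v₁ v₂ : V, LinearIndependent ℝ ![v₁, v₂] → w v₁ + w v₂ ≤ w (v₁ + v₂) →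
      σ {p | ∃ s > (0 : ℝ), ∃ t > (0 : ℝ), nv p = s • v₁ + t • v₂} = 0)
    {a₁ a₂ : ℂ} (h₁ : nv a₁ ∈ A) (h₂ : nv a₂ ∈ A) (hne : a₁ ≠ a₂) :
    ∃ c₁ c₂ : ℂ, ∀ᵐ q ∂σ, q ≠ c₁ → q ≠ c₂ → q ∉ TB := by
  by_cases hs : TB.Subsingleton
  · rcases hs.eq_empty_or_singleton with rfl | ⟨c, rfl⟩
    · exact ⟨0, 0, Eventually.of_forall fun q _ _ h => h⟩
    · exact ⟨c, c, Eventually.of_forall fun q h _ => h⟩
  obtain ⟨b₁, hb₁, b₂, hb₂, hb⟩ := not_subsingleton_iff.1 hs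
  have w0 : w 0 = 0 := by simpa using wsmul 0 0
  have nA : ∀ p, nv p ∈ B → nv p ∉ Submodule.span ℝ A := fun p hp h => by
    have := P1 _ hp _ (Submodule.neg_mem _ h)
    rw [add_neg_cancel, w0] at this
    exact this.not_gt (wpos _ (nv_ne p))
  have nB : nv a₁ ∉ Submodule.span ℝ B := fun h => by
    have := P2 _ h₁ _ (Submodule.neg_mem _ h)
    rw [add_neg_cancel, w0] at this
    exact this.not_gt (wpos _ (nv_ne _))
  obtain ⟨ca, hca⟩ := exists_det hne
  obtain ⟨cb, hcb⟩ := exists_det hb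
  set e : V → ℝ := det3 (nv a₁) (nv a₂) with he
  have ker : ∀ v, e v = 0 → v ∈ Submodule.span ℝ A := fun v hv =>
    mem_of_det hca (Submodule.subset_span h₁) (Submodule.subset_span h₂) (Or.inr hv)
  have elin : ∀ (s t : ℝ) (u v : V), e (s • u + t • v) = s * e u + t * e v := by
    intro s t u v; simp [he, det3]; ring
  have e0 : ∀ p ∈ TB, e (nv p) ≠ 0 := fun p hp h => nA p (hB p hp) (ker _ h)
  set v : ℂ → V := fun p => (e (nv p))⁻¹ • nv p with hv
  have ev : ∀ p ∈ TB, e (v p) = 1 := fun p hp => by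
    have := elin (e (nv p))⁻¹ 0 (nv p) 0
    simpa [inv_mul_cancel₀ (e0 p hp)] using this
  have nvv : ∀ p ∈ TB, nv p = e (nv p) • v p := fun p hp => by
    simp [hv, smul_smul, mul_inv_cancel₀ (e0 p hp)]
  have wmin : ∀ p ∈ TB, ∀ u, e u = 1 → w (v p) ≤ w u := by
    intro p hp u hu
    have := P1 _ (hB p hp) (e (nv p) • u + (-1 : ℝ) • nv p) (ker _ (by rw [elin, hu]; ring))
    rw [neg_one_smul, add_add_neg_cancel'_right, wsmul] at this
    nth_rw 1 [nvv p hp] at this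
    rw [wsmul] at this
    exact le_of_mul_le_mul_left this (abs_pos.2 (e0 p hp))
  have line : ∀ p ∈ TB, ∃ τ : ℝ, v p = (1 - τ) • v b₁ + τ • v b₂ := by
    intro p hp
    have hd : det3 (nv b₁) (nv b₂) (nv p) = 0 := by
      by_contra hd
      exact nB (mem_of_det hd (Submodule.subset_span (hB _ hb₁)) (Submodule.subset_span (hB _ hb₂))
        (Or.inl (Submodule.subset_span (hB _ hp))))
    have hm : nv p ∈ Submodule.span ℝ {v b₁, v b₂} := by
      refine mem_of_det hcb ?_ ?_ (Or.inr hd)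
      · rw [nvv _ hb₁]; exact Submodule.smul_mem _ _ (Submodule.subset_span (by simp))
      · rw [nvv _ hb₂]; exact Submodule.smul_mem _ _ (Submodule.subset_span (by simp))
    obtain ⟨x, y, hxy⟩ := Submodule.mem_span_pair.1
      (Submodule.smul_mem _ (e (nv p))⁻¹ hm)
    have h1 : e (x • v b₁ + y • v b₂) = 1 := by rw [hxy]; exact ev p hp
    rw [elin, ev _ hb₁, ev _ hb₂] at h1
    exact ⟨y, by rw [show 1 - y = x by linarith]; exact hxy.symm⟩
  choose! τ hτ using line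
  refine null_of_gaps τ (fun p hp q hq h => ?_) (fun p hp p' hp' => ?_)
  · have : v p = v q := by rw [hτ p hp, hτ q hq, h]
    exact eq_of_smul (inv_ne_zero (e0 p hp)) this
  by_cases hlt : τ p < τ p'
  swap
  · convert measure_empty (μ := σ)
    exact eq_empty_of_forall_notMem fun q hq => hlt (hq.2.1.trans hq.2.2)
  have hpp : p ≠ p' := fun h => by rw [h] at hlt; exact lt_irrefl _ hlt
  have hadd : w (v p) + w (v p') ≤ w (v p + v p') := by
    have hu : e ((1 / 2 : ℝ) • v p + (1 / 2 : ℝ) • v p') = 1 := by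
      rw [elin, ev p hp, ev p' hp']; norm_num
    have k₁ := wmin p hp _ hu
    have k₂ := wmin p' hp' _ hu
    rw [← smul_add, wsmul (1 / 2), abs_of_pos (by norm_num : (0 : ℝ) < 1 / 2)] at k₁ k₂
    linarith
  have f₁ := face _ _ (indep hpp (inv_ne_zero (e0 p hp)) (inv_ne_zero (e0 p' hp'))) hadd
  have f₂ := face (-v p) (-v p') (by
    simpa [hv] using indep hpp (neg_ne_zero.2 (inv_ne_zero (e0 p hp)))
      (neg_ne_zero.2 (inv_ne_zero (e0 p' hp')))) (by
    have hw : ∀ u, w (-u) = w u := fun u => by simpa using wsmul (-1) u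
    rwa [← neg_add, hw, hw, hw])
  refine measure_mono_null ?_ (measure_union_null f₁ f₂)
  rintro q ⟨hq, l₁, l₂⟩
  have hd : 0 < τ p' - τ p := sub_pos.2 hlt
  have hvq : v q = ((τ p' - τ q) / (τ p' - τ p)) • v p + ((τ q - τ p) / (τ p' - τ p)) • v p' := by
    rw [hτ p hp, hτ p' hp', hτ q hq]
    match_scalars <;> field_simp <;> ring
  have s₁ : 0 < (τ p' - τ q) / (τ p' - τ p) := div_pos (sub_pos.2 l₂) hd
  have s₂ : 0 < (τ q - τ p) / (τ p' - τ p) := div_pos (sub_pos.2 l₁) hd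
  rcases lt_or_gt_of_ne (e0 q hq) with hneg | hpos
  · right
    refine ⟨_, mul_pos (neg_pos.2 hneg) s₁, _, mul_pos (neg_pos.2 hneg) s₂, ?_⟩
    nth_rw 1 [nvv q hq]
    rw [hvq]; module
  · left
    refine ⟨_, mul_pos hpos s₁, _, mul_pos hpos s₂, ?_⟩
    nth_rw 1 [nvv q hq]
    rw [hvq]; module

/-! ### the moment identities -/

theorem atom {σ : Measure ℂ} [IsFiniteMeasure σ] {δ : ℂ → ℝ}
    (hm : ∀ (c : ℝ) (k : ℂ), ∫ p, δ p * (c + inner ℝ k p) ∂σ = 0) {c₁ c₂ : ℂ}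
    (h : ∀ᵐ p ∂σ, p ≠ c₁ → p ≠ c₂ → δ p = 0) : ∀ᵐ p ∂σ, p = c₁ → δ p = 0 := by
  obtain ⟨c, k, h₁, h₂⟩ : ∃ (c : ℝ) (k : ℂ), c + inner ℝ k c₁ = 1 ∧
      (c₂ ≠ c₁ → c + inner ℝ k c₂ = 0) := by
    by_cases hc : c₂ = c₁
    · exact ⟨1, 0, by simp, fun h => absurd hc h⟩
    · have hn : ‖c₁ - c₂‖ ^ 2 ≠ 0 := pow_ne_zero _ (norm_ne_zero_iff.2 (sub_ne_zero.2 (Ne.symm hc)))
      refine ⟨-inner ℝ ((‖c₁ - c₂‖ ^ 2)⁻¹ • (c₁ - c₂)) c₂, (‖c₁ - c₂‖ ^ 2)⁻¹ • (c₁ - c₂), ?_,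
        fun _ => neg_add_cancel _⟩
      rw [neg_add_eq_sub, ← inner_sub_right, real_inner_smul_left, real_inner_self_eq_norm_sq,
        inv_mul_cancel₀ hn]
  have e : (fun p => δ p * (c + inner ℝ k p)) =ᵐ[σ] indicator {c₁} (fun _ => δ c₁) := by
    filter_upwards [h] with p hp
    by_cases p₁ : p = c₁
    · rw [p₁, h₁, mul_one, indicator_of_mem (mem_singleton _)]
    · rw [indicator_of_notMem (by simpa using p₁)]
      by_cases p₂ : p = c₂
      · rw [p₂, h₂ (p₂ ▸ p₁), mul_zero]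
      · rw [hp p₁ p₂, zero_mul]
  have := hm c k
  rw [integral_congr_ae e, integral_indicator_const _ (measurableSet_singleton _), smul_eq_mul,
    mul_eq_zero, measureReal_eq_zero_iff] at this
  rcases this with h0 | h0
  · filter_upwards [measure_eq_zero_iff_ae_notMem.1 h0] with p hp hp'
    exact absurd hp' hp
  · exact Eventually.of_forall fun p hp => hp ▸ h0

theorem integrable_aff {G : Measure ℂ} [IsFiniteMeasure G] (h : Integrable (fun p : ℂ => ‖p‖) G)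
    (c : ℝ) (k : ℂ) : Integrable (fun p : ℂ => c + inner ℝ k p) G := by
  refine (integrable_const c).add ((h.const_mul ‖k‖).mono' ?_ ?_)
  · exact (continuous_const.inner continuous_id).aestronglyMeasurable
  · exact Eventually.of_forall fun p => norm_inner_le_norm k p

theorem eq_of_two {G₁ G₂ G₃ G₄ σ : Measure ℂ} [IsFiniteMeasure G₁] [IsFiniteMeasure G₂]
    [IsFiniteMeasure G₃] [IsFiniteMeasure G₄] [IsFiniteMeasure σ] (a₁ : G₁ ≪ σ) (a₂ : G₂ ≪ σ)
    (a₃ : G₃ ≪ σ) (a₄ : G₄ ≪ σ) (i₁ : Integrable (fun p : ℂ => ‖p‖) G₁)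
    (i₂ : Integrable (fun p : ℂ => ‖p‖) G₂) (i₃ : Integrable (fun p : ℂ => ‖p‖) G₃)
    (i₄ : Integrable (fun p : ℂ => ‖p‖) G₄)
    (m₁ : ∀ (c : ℝ) (k : ℂ), ∫ p, (c + inner ℝ k p) ∂G₁ = ∫ p, (c + inner ℝ k p) ∂G₂)
    (m₂ : ∀ (c : ℝ) (k : ℂ), ∫ p, (c + inner ℝ k p) ∂G₃ = ∫ p, (c + inner ℝ k p) ∂G₄)
    (hor : ∀ᵐ p ∂σ, (G₁.rnDeriv σ p = G₃.rnDeriv σ p ∧ G₂.rnDeriv σ p = G₄.rnDeriv σ p) ∨
      (G₁.rnDeriv σ p = G₄.rnDeriv σ p ∧ G₂.rnDeriv σ p = G₃.rnDeriv σ p)) {c₁ c₂ : ℂ}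
    (hoff : ∀ᵐ p ∂σ, p ≠ c₁ → p ≠ c₂ →
      G₁.rnDeriv σ p = G₃.rnDeriv σ p ∧ G₂.rnDeriv σ p = G₄.rnDeriv σ p) :
    G₁ = G₃ ∧ G₂ = G₄ := by
  set δ : ℂ → ℝ := fun p => ((G₁.rnDeriv σ p).toReal - (G₂.rnDeriv σ p).toReal) -
    ((G₃.rnDeriv σ p).toReal - (G₄.rnDeriv σ p).toReal) with hδ
  have hm : ∀ (c : ℝ) (k : ℂ), ∫ p, δ p * (c + inner ℝ k p) ∂σ = 0 := by
    intro c k
    have j₁ := (integrable_toReal_rnDeriv_mul_iff a₁).2 (integrable_aff i₁ c k)
    have j₂ := (integrable_toReal_rnDeriv_mul_iff a₂).2 (integrable_aff i₂ c k)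
    have j₃ := (integrable_toReal_rnDeriv_mul_iff a₃).2 (integrable_aff i₃ c k)
    have j₄ := (integrable_toReal_rnDeriv_mul_iff a₄).2 (integrable_aff i₄ c k)
    simp only [hδ, sub_mul]
    rw [integral_sub (j₁.sub' j₂) (j₃.sub' j₄), integral_sub j₁ j₂, integral_sub j₃ j₄,
      integral_toReal_rnDeriv_mul a₁, integral_toReal_rnDeriv_mul a₂,
      integral_toReal_rnDeriv_mul a₃, integral_toReal_rnDeriv_mul a₄, m₁, m₂]
    ring
  have h0 : ∀ᵐ p ∂σ, p ≠ c₁ → p ≠ c₂ → δ p = 0 := by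
    filter_upwards [hoff] with p hp n₁ n₂
    simp [hδ, (hp n₁ n₂).1, (hp n₁ n₂).2]
  have k₁ := atom hm h0
  have k₂ := atom hm (c₁ := c₂) (c₂ := c₁) (h0.mono fun p hp n₂ n₁ => hp n₁ n₂)
  have fin : ∀ᵐ p ∂σ, G₁.rnDeriv σ p = G₃.rnDeriv σ p ∧ G₂.rnDeriv σ p = G₄.rnDeriv σ p := by
    filter_upwards [hor, h0, k₁, k₂, G₃.rnDeriv_lt_top σ, G₄.rnDeriv_lt_top σ] with
      p hp h0 k₁ k₂ t₃ t₄
    rcases hp with hp | hp
    · exact hp
    · have : δ p = 0 := by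
        by_cases n₁ : p = c₁
        · exact k₁ n₁
        by_cases n₂ : p = c₂
        · exact k₂ n₂
        exact h0 n₁ n₂
      simp only [hδ, hp.1, hp.2] at this
      have e : G₄.rnDeriv σ p = G₃.rnDeriv σ p :=
        (ENNReal.toReal_eq_toReal_iff' t₄.ne t₃.ne).1 (by linarith)
      exact ⟨hp.1.trans e, hp.2.trans e.symm⟩
  constructor
  · rw [← Measure.withDensity_rnDeriv_eq _ _ a₁, ← Measure.withDensity_rnDeriv_eq _ _ a₃]
    exact withDensity_congr_ae (fin.mono fun p hp => by simpa using hp.1)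
  · rw [← Measure.withDensity_rnDeriv_eq _ _ a₂, ← Measure.withDensity_rnDeriv_eq _ _ a₄]
    exact withDensity_congr_ae (fin.mono fun p hp => by simpa using hp.2)

/-! ### densities and few common zeros -/

theorem fin_GK {K : Set X} (hK : Body K) : IsFiniteMeasure (GK K) :=
  ⟨by rw [GK, gam_univ]; exact (cap_body hK).bdd.measure_lt_top⟩

theorem few_symm {F G : W → ℂ} {v : V} (h : Few F G v) : Few G F v := by
  have e : ∀ f g : ℂ → ℂ, mA f g = mA g f := fun f g => funext fun z => min_comm _ _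
  simpa only [Few, e (ln G _)] using h

theorem few_neg {K L : Set X} (hK : Body K) (hL : Body L) {v : V}
    (h : Few (FT (-K)) (FT (-L)) v) : Few (FT K) (FT L) v := by
  have e : ∀ (ζ : W) (a b : ℝ), S (mA (ln (FT (-K)) ζ) (ln (FT (-L)) ζ)) (kI a b) =
      S (mA (ln (FT K) ζ) (ln (FT L) ζ)) (kI a b) := by
    intro ζ a b
    unfold S
    rw [← finsum_comp_equiv (Equiv.neg ℂ)]
    simp [mA, ord_neg K hK, ord_neg L hL, kI]
  simpa only [Few, e] using h

/-- the density of `G` with respect to `σ` at `p` is `a` -/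
def Dens (G σ : Measure ℂ) (p : ℂ) (a : ℝ≥0∞) : Prop :=
  Tendsto (fun r => G (Metric.closedBall p r) / σ (Metric.closedBall p r)) (𝓝[>] 0) (𝓝 a)

theorem few_of_lt {K L : Set X} (hK : Body K) (hL : Body L)
    (hn : ∀ ξ, ‖FT K (cx ξ 0)‖ = ‖FT L (cx ξ 0)‖) {σ : Measure ℂ} [IsFiniteMeasure σ]
    (hσ : Sig K L = σ) {p : ℂ} {a b : ℝ≥0∞} (ha : Dens (GK K) σ p a) (hb : Dens (GK L) σ p b)
    (hab : b < a) : Few (FT K) (FT L) (nv p) := by
  obtain ⟨c, hbc, hca⟩ := exists_between hab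
  obtain ⟨d, hcd, hda⟩ := exists_between hca
  have hd : d - c ≠ ⊤ := ENNReal.sub_ne_top hda.ne_top
  refine key hK hL hn p (γ := (d - c).toReal) (ENNReal.toReal_pos (tsub_pos_of_lt hcd).ne' hd) ?_
  intro ρ₀ hρ₀
  rw [hσ, ENNReal.ofReal_toReal hd]
  have hev := ((ha.eventually (lt_mem_nhds hda)).and (hb.eventually (gt_mem_nhds hbc))).and
    (Ioo_mem_nhdsGT hρ₀)
  obtain ⟨δ, hδ, hsub⟩ := mem_nhdsGT_iff_exists_Ioo_subset.1 hev
  have hc := σ.countable_meas_level_set_pos (g := fun q => dist q p)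
    (measurable_id.dist measurable_const)
  obtain ⟨r, hr, hr'⟩ : ∃ r ∈ Ioo 0 δ, r ∉ {t : ℝ | 0 < σ {q | dist q p = t}} := by
    by_contra hcon
    push Not at hcon
    have := (hc.mono hcon).measure_zero volume
    rw [Real.volume_Ioo, ENNReal.ofReal_eq_zero] at this
    exact absurd hδ (by simpa using this)
  obtain ⟨⟨h₁, h₂⟩, h₃⟩ := hsub hr
  have hle : GK K (Metric.closedBall p r) ≤ σ (Metric.closedBall p r) := by
    rw [← hσ, Sig]
    simp only [Measure.add_apply, add_assoc]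
    exact le_self_add
  have hs : σ (Metric.closedBall p r) ≠ 0 := by
    intro h0
    rw [h0, nonpos_iff_eq_zero] at hle
    rw [hle, ENNReal.zero_div] at h₁
    exact not_lt_zero h₁
  refine ⟨r, hr.1, h₃.2, nonpos_iff_eq_zero.1 (not_lt.1 hr'), pos_iff_ne_zero.2 hs, ?_⟩
  have k₁ := (ENNReal.le_div_iff_mul_le (Or.inl hs) (Or.inl (measure_ne_top _ _))).1 h₁.le
  have k₂ := (ENNReal.div_le_iff hs (measure_ne_top _ _)).1 h₂.le
  calc _ ≤ (d - c) * σ (Metric.closedBall p r) + c * σ (Metric.closedBall p r) := by gcongr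
    _ = d * σ (Metric.closedBall p r) := by rw [← add_mul, tsub_add_cancel_of_le hcd.le]
    _ ≤ _ := k₁

theorem few_of_ne {K L : Set X} (hK : Body K) (hL : Body L)
    (hn : ∀ ξ, ‖FT K (cx ξ 0)‖ = ‖FT L (cx ξ 0)‖) {σ : Measure ℂ} [IsFiniteMeasure σ]
    (hσ : Sig K L = σ) {p : ℂ} {a b : ℝ≥0∞} (ha : Dens (GK K) σ p a) (hb : Dens (GK L) σ p b)
    (hab : a ≠ b) : Few (FT K) (FT L) (nv p) := by
  rcases lt_or_gt_of_ne hab with h | h
  · refine few_symm (few_of_lt hL hK (fun ξ => (hn ξ).symm) ?_ hb ha h)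
    rw [← hσ, Sig, Sig]; abel
  · exact few_of_lt hK hL hn hσ ha hb h

theorem few_of_or {K L : Set X} (hK : Body K) (hL : Body L)
    (hn : ∀ ξ, ‖FT K (cx ξ 0)‖ = ‖FT L (cx ξ 0)‖) {σ : Measure ℂ} [IsFiniteMeasure σ]
    (hσ : Sig K L = σ) {p : ℂ} {a a' b b' : ℝ≥0∞} (ha : Dens (GK K) σ p a)
    (ha' : Dens (GK (-K)) σ p a') (hb : Dens (GK L) σ p b) (hb' : Dens (GK (-L)) σ p b')
    (hab : ¬ (a = b ∧ a' = b')) : Few (FT K) (FT L) (nv p) := by
  rcases not_and_or.1 hab with h | h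
  · exact few_of_ne hK hL hn hσ ha hb h
  · refine few_neg hK hL (few_of_ne hK.neg hL.neg
      (fun ξ => by rw [norm_FT_neg, norm_FT_neg, hn]) ?_ ha' hb' h)
    rw [← hσ, Sig, Sig, neg_neg, neg_neg]; abel

theorem wd_smul {K : Set X} (hK : Body K) (t : ℝ) (v : V) : wd K (t • v) = |t| * wd K v := by
  have h := (fam_body hK).smul
  rcases le_total 0 t with ht | ht
  · rw [wd, wd, ← smul_neg, h t ht, h t ht, abs_of_nonneg ht]; ring
  · have e : t • v = (-t) • (-v) := by simp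
    rw [wd, wd, ← neg_smul, e, h _ (neg_nonneg.2 ht), h _ (neg_nonneg.2 ht), abs_of_nonpos ht]
    ring

theorem face_two {K : Set X} (hK : Body K) {v₁ v₂ : V} (hv : LinearIndependent ℝ ![v₁, v₂])
    (h : wd K v₁ + wd K v₂ ≤ wd K (v₁ + v₂)) :
    GK K {p | ∃ s > (0 : ℝ), ∃ t > (0 : ℝ), nv p = s • v₁ + t • v₂} = 0 ∧
      GK (-K) {p | ∃ s > (0 : ℝ), ∃ t > (0 : ℝ), nv p = s • v₁ + t • v₂} = 0 := by
  have a₁ := (fam_body hK).add v₁ v₂
  have a₂ := (fam_body hK).add (-v₁) (-v₂)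
  rw [← neg_add] at a₂
  simp only [wd] at h
  refine ⟨face_null hK hv (by linarith), face_null hK.neg hv ?_⟩
  rw [hs_neg, hs_neg, hs_neg]; linarith

/-- Minkowski uniqueness -/
theorem translate_of_eq {K L : Set X} (hK : Body K) (hL : Body L) (hw : NoWall K)
    (hv : volume K = volume L) (h₁ : GK K = GK L) (h₂ : GK (-K) = GK (-L)) :
    ∃ z : X, L = (fun y => y + z) '' K := by
  refine bm_eq hK hL hv fun ε hε => ?_
  have v0 : volume K ≠ 0 := (Measure.measure_pos_of_nonempty_interior _ ⟨0, hK.zero⟩).ne'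
  have v1 : volume K ≠ ⊤ := hK.cpt.measure_lt_top.ne
  have hI : II K (hs L) ≤ 3 * volume K := by
    rw [hv, II, h₁, h₂]; exact II_self_le hL
  filter_upwards [first_var hK hw hL (mul_pos hε (ENNReal.toReal_pos v0 v1)),
    self_mem_nhdsWithin] with t ht ht0
  have ht0 : 0 ≤ t := le_of_lt ht0
  refine ht.trans ?_
  rw [ENNReal.ofReal_mul hε.le, ENNReal.ofReal_toReal v1,
    ENNReal.ofReal_add (by positivity) (by positivity), ENNReal.ofReal_add zero_le_one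
      (by positivity), ENNReal.ofReal_mul (by norm_num), ENNReal.ofReal_mul hε.le,
    ENNReal.ofReal_one, ENNReal.ofReal_ofNat]
  calc _ ≤ volume K + ENNReal.ofReal t * (3 * volume K + ENNReal.ofReal ε * volume K) := by gcongr
    _ = _ := by ring

/-- the conclusion -/
def Concl {E : Type*} [AddCommGroup E] (K L : Set E) : Prop :=
  ∃ z : E, L = (fun y => y + z) '' K ∨ L = (fun y => z - y) '' K

theorem main_X {K L : Set X} (hK : Body K) (hL : Body L) (wK : NoWall K) (wL : NoWall L)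
    (hn : ∀ ξ, ‖FT K (cx ξ 0)‖ = ‖FT L (cx ξ 0)‖) : Concl K L := by
  have hn' : ∀ ξ, ‖FT K (cx ξ 0)‖ = ‖FT (-L) (cx ξ 0)‖ := fun ξ => by rw [norm_FT_neg, hn]
  have := fin_GK hK
  have := fin_GK hK.neg
  have := fin_GK hL
  have := fin_GK hL.neg
  obtain ⟨σ, hσ⟩ : ∃ σ, Sig K L = σ := ⟨_, rfl⟩
  have : IsFiniteMeasure σ := by rw [← hσ, Sig]; infer_instance
  have hσ' : Sig K (-L) = σ := by rw [← hσ, Sig, Sig, neg_neg]; abel
  have ac : ∀ G : Measure ℂ, (∃ H, σ = G + H) → G ≪ σ := by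
    rintro G ⟨H, rfl⟩
    exact Measure.absolutelyContinuous_of_le (Measure.le_add_right le_rfl)
  have a₁ := ac (GK K) ⟨GK (-K) + GK L + GK (-L), by rw [← hσ, Sig]; abel⟩
  have a₂ := ac (GK (-K)) ⟨GK K + GK L + GK (-L), by rw [← hσ, Sig]; abel⟩
  have a₃ := ac (GK L) ⟨GK K + GK (-K) + GK (-L), by rw [← hσ, Sig]; abel⟩
  have a₄ := ac (GK (-L)) ⟨GK K + GK (-K) + GK L, by rw [← hσ, Sig]; abel⟩
  obtain ⟨i₁, i₂, m₁⟩ := moment hK wK
  obtain ⟨i₃, i₄, m₂⟩ := moment hL wL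
  set A := {u | Few (FT K) (FT (-L)) u}
  set B := {u | Few (FT K) (FT L) u}
  have hB : ∀ᵐ p ∂σ, nv p ∉ B → (GK K).rnDeriv σ p = (GK L).rnDeriv σ p ∧
      (GK (-K)).rnDeriv σ p = (GK (-L)).rnDeriv σ p := by
    filter_upwards [Besicovitch.ae_tendsto_rnDeriv (GK K) σ,
      Besicovitch.ae_tendsto_rnDeriv (GK (-K)) σ, Besicovitch.ae_tendsto_rnDeriv (GK L) σ,
      Besicovitch.ae_tendsto_rnDeriv (GK (-L)) σ] with p d₁ d₂ d₃ d₄ hp
    by_contra hc
    exact hp (few_of_or hK hL hn hσ d₁ d₂ d₃ d₄ hc)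
  have hA : ∀ᵐ p ∂σ, nv p ∉ A → (GK K).rnDeriv σ p = (GK (-L)).rnDeriv σ p ∧
      (GK (-K)).rnDeriv σ p = (GK L).rnDeriv σ p := by
    filter_upwards [Besicovitch.ae_tendsto_rnDeriv (GK K) σ,
      Besicovitch.ae_tendsto_rnDeriv (GK (-K)) σ, Besicovitch.ae_tendsto_rnDeriv (GK L) σ,
      Besicovitch.ae_tendsto_rnDeriv (GK (-L)) σ] with p d₁ d₂ d₃ d₄ hp
    by_contra hc
    exact hp (few_of_or hK hL.neg hn' hσ' d₁ d₂ d₄ (by rwa [neg_neg]) hc)
  have fK := fam_body hK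
  have fL := fam_body hL
  have fL' := fam_body hL.neg
  have P1 : ∀ v ∈ B, ∀ u ∈ Submodule.span ℝ A, wd K v ≤ wd K (v + u) := fun v hv u hu =>
    kc fK fL.diff fL'.diff fL.ne0 fL'.ne0 (mB_le hK hL hn) hv hu
  have P2 : ∀ v ∈ A, ∀ u ∈ Submodule.span ℝ B, wd K v ≤ wd K (v + u) := fun v hv u hu =>
    kc fK fL'.diff fL.diff fL'.ne0 fL.ne0 (by simpa using mB_le hK hL.neg hn') hv hu
  have wpos : ∀ v, v ≠ 0 → 0 < wd K v := fun v hv => by
    obtain ⟨c, hc, h⟩ := wd_pos hK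
    exact add_pos_of_pos_of_nonneg ((mul_pos hc (norm_pos_iff.2 hv)).trans_le (h v)) (fK.nonneg _)
  have hor : ∀ p, nv p ∉ B ∨ nv p ∉ A := fun p => by
    by_contra hc
    push Not at hc
    have := P1 _ hc.1 _ (Submodule.neg_mem _ (Submodule.subset_span hc.2))
    rw [add_neg_cancel, ← zero_smul ℝ (0 : V), wd_smul hK] at this
    exact (wpos _ (nv_ne p)).not_ge (by simpa using this)
  by_cases hs : {p | nv p ∈ A}.Subsingleton
  · obtain ⟨c, hc⟩ : ∃ c, ∀ p, p ≠ c → nv p ∉ A := by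
      rcases hs.eq_empty_or_singleton with h | ⟨c, h⟩
      · exact ⟨0, fun p _ => (eq_empty_iff_forall_notMem.1 h p :)⟩
      · exact ⟨c, fun p hp hp' => hp ((Set.ext_iff.1 h p).1 hp')⟩
    obtain ⟨e₁, e₂⟩ := eq_of_two a₁ a₂ a₄ a₃ i₁ i₂ i₄ i₃ m₁ (fun c k => (m₂ c k).symm)
      (by filter_upwards [hA, hB] with p h h' using (hor p).symm.imp h h') (c₁ := c) (c₂ := c)
      (hA.mono fun p h n _ => h (hc p n))
    obtain ⟨z, hz⟩ := translate_of_eq hK hL.neg wK (vol_eq hK hL.neg hn') e₁ (by rwa [neg_neg])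
    refine ⟨-z, Or.inr ?_⟩
    rw [← neg_neg L, hz, ← image_neg_eq_neg, image_image]
    exact image_congr fun y _ => by abel
  · obtain ⟨p₁, h₁, p₂, h₂, hne⟩ := not_subsingleton_iff.1 hs
    obtain ⟨c₁, c₂, hc⟩ := two_points (σ := σ) (TB := {p | nv p ∈ B}) (fun p hp => hp) P1 P2 wpos
      (wd_smul hK) (fun v₁ v₂ hv h => by
        have f₁ := face_two hK hv h
        have f₂ := face_two hL hv (by simpa only [← wd_eq hK hL hn] using h)
        rw [← hσ, Sig]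
        simp only [Measure.add_apply, f₁.1, f₁.2, f₂.1, f₂.2, add_zero]) h₁ h₂ hne
    obtain ⟨e₁, e₂⟩ := eq_of_two a₁ a₂ a₃ a₄ i₁ i₂ i₃ i₄ m₁ m₂
      (by filter_upwards [hA, hB] with p h h' using (hor p).imp h' h) (c₁ := c₁) (c₂ := c₂)
      (by filter_upwards [hB, hc] with p h h' n₁ n₂ using h (h' n₁ n₂))
    obtain ⟨z, hz⟩ := translate_of_eq hK hL wK (vol_eq hK hL hn) e₁ e₂
    exact ⟨z, Or.inl hz⟩

/-! ### transport -/

/-- equality of covariograms -/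
def Cov {E : Type*} [AddCommGroup E] [MeasurableSpace E] (μ : Measure E) (K L : Set E) : Prop :=
  ∀ x : E, μ (K ∩ ((fun y => y + x) '' K)) = μ (L ∩ ((fun y => y + x) '' L))

section
variable {E E' : Type*} [NormedAddCommGroup E] [NormedSpace ℝ E] [NormedAddCommGroup E']
  [NormedSpace ℝ E']

theorem Concl.of_map (T : E ≃L[ℝ] E') {K L : Set E} (h : Concl (T '' K) (T '' L)) : Concl K L := by
  obtain ⟨z, h⟩ := h
  obtain ⟨z, rfl⟩ := T.surjective z
  refine ⟨z, h.imp (fun h => T.injective.image_injective ?_)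
    (fun h => T.injective.image_injective ?_)⟩ <;>
  simp only [h, image_image, map_add, map_sub]

theorem Cov.map [MeasurableSpace E] [BorelSpace E] [MeasurableSpace E'] [BorelSpace E']
    [FiniteDimensional ℝ E'] {μ : Measure E} {μ' : Measure E'} [μ.IsAddHaarMeasure]
    [μ'.IsAddHaarMeasure] (T : E ≃L[ℝ] E') {K L : Set E} (h : Cov μ K L) :
    Cov μ' (T '' K) (T '' L) := by
  intro x
  obtain ⟨x, rfl⟩ := T.surjective x
  have e : ∀ s : Set E, μ' (T '' s ∩ (fun y => y + T x) '' (T '' s)) =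
      Measure.addHaarScalarFactor μ' (μ.map T) * μ (s ∩ (fun y => y + x) '' s) := by
    intro s
    have e₁ : T '' s ∩ (fun y => y + T x) '' (T '' s) = T '' (s ∩ (fun y => y + x) '' s) := by
      simp only [image_inter T.injective, image_image, map_add]
    have e₂ := T.toHomeomorph.measurableEmbedding.map_apply μ (T '' (s ∩ (fun y => y + x) '' s))
    rw [ContinuousLinearEquiv.coe_toHomeomorph, T.injective.preimage_image] at e₂
    rw [e₁, ← e₂]
    nth_rw 1 [Measure.isAddLeftInvariant_eq_smul μ' (μ.map T)]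
    rfl
  rw [e, e, h]

omit [NormedSpace ℝ E] in
theorem Concl.of_add {K L : Set E} (a b : E)
    (h : Concl ((fun y => y + a) '' K) ((fun y => y + b) '' L)) : Concl K L := by
  obtain ⟨z, h | h⟩ := h
  · refine ⟨a + z - b, Or.inl ((add_left_injective b).image_injective ?_)⟩
    rw [h, image_image, image_image]
    exact image_congr fun y _ => by abel
  · refine ⟨z - a - b, Or.inr ((add_left_injective b).image_injective ?_)⟩
    rw [h, image_image, image_image]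
    exact image_congr fun y _ => by abel

omit [NormedSpace ℝ E] in
theorem Cov.add [MeasurableSpace E] [BorelSpace E] {μ : Measure E} [μ.IsAddRightInvariant]
    {K L : Set E} (h : Cov μ K L) (a b : E) :
    Cov μ ((fun y => y + a) '' K) ((fun y => y + b) '' L) := by
  intro x
  have e : ∀ (s : Set E) (a : E), μ ((fun y => y + a) '' s ∩ (fun y => y + x) '' ((fun y => y + a) '' s))
      = μ (s ∩ (fun y => y + x) '' s) := by
    intro s a
    have : (fun y => y + a) '' s ∩ (fun y => y + x) '' ((fun y => y + a) '' s) =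
        (fun y => y + a) '' (s ∩ (fun y => y + x) '' s) := by
      rw [image_inter (add_left_injective a), image_image, image_image]
      congr 1
      exact image_congr fun y _ => by abel
    rw [this, image_add_right, measure_preimage_add_right]
  rw [e, e, h]

theorem body_map (T : E ≃L[ℝ] X) {K : Set E} (h₁ : IsCompact K) (h₂ : Convex ℝ K)
    (h₃ : (0 : E) ∈ interior K) : Body (T '' K) := by
  refine ⟨h₁.image T.continuous, h₂.linear_image (T : E →ₗ[ℝ] X), ?_⟩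
  have := T.toHomeomorph.image_interior K
  rw [ContinuousLinearEquiv.coe_toHomeomorph] at this
  exact this ▸ ⟨0, h₃, map_zero T⟩

end

theorem haarX : (volume : Measure X).IsAddHaarMeasure := Measure.prod.instIsAddHaarMeasure _ _

/-- the shear as a linear equivalence -/
def shearL (c : ℂ) : X ≃ₗ[ℝ] X where
  toFun := shear c
  invFun := shear (-c)
  map_add' x y := by ext <;> simp [shear, add_smul]; ring
  map_smul' t x := by ext <;> simp [shear]; ring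
  left_inv x := by simp [shear]
  right_inv x := by simp [shear]

theorem main_body {K L : Set X} (hK : Body K) (hL : Body L) (h : Cov volume K L) : Concl K L := by
  have := haarX
  obtain ⟨c, wK, wL⟩ := exists_shear hK hL
  have bK := body_map (shearL c).toContinuousLinearEquiv hK.cpt hK.cvx hK.zero
  have bL := body_map (shearL c).toContinuousLinearEquiv hL.cpt hL.cvx hL.zero
  exact Concl.of_map (shearL c).toContinuousLinearEquiv (main_X bK bL wK wL
    (cov_norm bK bL (h.map (shearL c).toContinuousLinearEquiv)))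

theorem zero_mem {E : Type*} [NormedAddCommGroup E] {K : Set E} {a : E} (ha : a ∈ interior K) :
    (0 : E) ∈ interior ((fun y => y + -a) '' K) := by
  have := (Homeomorph.addRight (-a)).image_interior K
  rw [Homeomorph.coe_addRight] at this
  exact this ▸ ⟨a, ha, add_neg_cancel a⟩

end FinalAux

open FinalAux in
theorem main_thm :
    ∀ K L : Set (EuclideanSpace ℝ (Fin 3)),
      IsCompact K → Convex ℝ K → (interior K).Nonempty →
      IsCompact L → Convex ℝ L → (interior L).Nonempty →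
      (∀ x : EuclideanSpace ℝ (Fin 3),
        volume (K ∩ ((fun y => y + x) '' K)) = volume (L ∩ ((fun y => y + x) '' L))) →
      ∃ z : EuclideanSpace ℝ (Fin 3),
        (L = (fun y => y + z) '' K ∨ L = (fun y => z - y) '' K) := by
  rintro K L k₁ k₂ ⟨a, ha⟩ l₁ l₂ ⟨b, hb⟩ h
  have := haarX
  have T : EuclideanSpace ℝ (Fin 3) ≃L[ℝ] X := ContinuousLinearEquiv.ofFinrankEq (by simp)
  refine Concl.of_add (-a) (-b) (Concl.of_map T (main_body ?_ ?_ ((Cov.add h (-a) (-b)).map T)))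
  · exact body_map T (k₁.image (by fun_prop)) (by simpa [add_comm] using k₂.translate (-a)) (zero_mem ha)
  · exact body_map T (l₁.image (by fun_prop)) (by simpa [add_comm] using l₂.translate (-b)) (zero_mem hb)

end Pool.Agent.MP_f27d50_gt
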