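import Pool.Agent.MP_f27d50_gt.GenPoly

set_option autoImplicit false

open MeasureTheory Set Filter Topology Complex Metric

noncomputable section

namespace Pool.Agent.MP_f27d50_gt

namespace GenAux

open Polynomial (C Monic)

theorem ex_ne {D : Polynomial ℂ} (hD : D ≠ 0) : ∃ z, D.eval z ≠ 0 := by
  by_contra h
  push Not at h
  exact hD (Polynomial.funext (by simpa using h))

open Classical in
theorem ord_poly {D : Polynomial ℂ} (hD : D ≠ 0) (w : ℂ) :
    ord (fun z => D.eval z) w = D.roots.count w := by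
  obtain ⟨q, hq, hq'⟩ := D.exists_eq_pow_rootMultiplicity_mul_and_not_dvd hD w
  have h1 : q.eval w ≠ 0 := fun h => hq' (Polynomial.dvd_iff_isRoot.2 h)
  have h2 : (fun z => D.eval z) = fun z => (z - w) ^ D.rootMultiplicity w * q.eval z := by
    ext z
    conv_lhs => rw [hq]
    simp
  rw [h2, ord_mul (f := fun z => (z - w) ^ D.rootMultiplicity w) (by fun_prop) q.differentiable
    ⟨w + 1, by simp⟩ ⟨w, h1⟩, ord_sub_pow, if_pos rfl, ord_eq_zero q.differentiable h1,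
    Polynomial.count_roots, add_zero]

open Classical in
theorem count_rt_poly {D : Polynomial ℂ} (hD : D ≠ 0) (c : ℂ) (R : ℝ) (w : ℂ) :
    (rt (fun z => D.eval z) c R).count w = if w ∈ closedBall c R then D.roots.count w else 0 := by
  rw [count_rt D.differentiable (ex_ne hD), ord_poly hD]

/-- local holomorphic minorants at the roots add up to a holomorphic minorant of the root sum -/
theorem PF.minorant {D : ℂ → Polynomial ℂ} {l₀ : ℂ} {n : ℕ} (h : PF D l₀ n) {k : ℂ → ℝ}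
    (g : ℂ → ℂ → ℂ) (hg : ∀ z ∈ (D l₀).roots, AnalyticAt ℂ (g z) z ∧
      ∀ᶠ w in 𝓝 z, (g z w).re ≤ k w) :
    ∃ G : ℂ → ℂ, AnalyticAt ℂ G l₀ ∧ (G l₀).re = ((D l₀).roots.map fun z => (g z z).re).sum ∧
      ∀ᶠ l in 𝓝 l₀, (G l).re ≤ ((D l).roots.map k).sum := by
  classical
  set Z := (D l₀).roots.toFinset with hZ
  have hm := h.1.self_of_nhds
  have e1 : ∀ᶠ ρ in 𝓝[>] (0 : ℝ), ∀ z ∈ Z, ∀ w ∈ closedBall z ρ,
      AnalyticAt ℂ (g z) w ∧ (g z w).re ≤ k w := by
    refine mem_nhdsWithin_of_mem_nhds ((eventually_all_finset Z).2 fun z hz => ?_)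
    obtain ⟨h1, h2⟩ := hg z (Multiset.mem_toFinset.1 hz)
    exact eventually_closedBall_subset (h1.eventually_analyticAt.and h2)
  have e2 : ∀ᶠ ρ in 𝓝[>] (0 : ℝ), ∀ z ∈ Z, ∀ z' ∈ Z, z ≠ z' → 2 * ρ < dist z z' := by
    refine mem_nhdsWithin_of_mem_nhds ((eventually_all_finset Z).2 fun z _ =>
      (eventually_all_finset Z).2 fun z' _ => ?_)
    by_cases hzz : z = z'
    · exact Eventually.of_forall fun _ h => absurd hzz h
    · have : ContinuousAt (fun ρ : ℝ => 2 * ρ) 0 := by fun_prop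
      filter_upwards [this.eventually_lt continuousAt_const
        (show 2 * (0 : ℝ) < dist z z' by simpa using hzz)] with ρ hρ _ using hρ
  obtain ⟨ρ, ⟨h1, h2⟩, hρ⟩ := ((e1.and e2).and self_mem_nhdsWithin).exists
  replace hρ : 0 < ρ := hρ
  have huniq : ∀ z ∈ Z, ∀ z' ∈ Z, ∀ w, w ∈ closedBall z ρ → w ∈ closedBall z' ρ → z = z' := by
    intro z hz z' hz' w h3 h4
    by_contra hne
    have := h2 z hz z' hz' hne
    rw [mem_closedBall] at h3 h4
    linarith [dist_triangle_left z z' w]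
  have hsph : ∀ z ∈ Z, ∀ w ∈ sphere z ρ, (D l₀).eval w ≠ 0 := by
    intro z hz w hw h0
    have hwZ : w ∈ Z := Multiset.mem_toFinset.2 ((Polynomial.mem_roots hm.1.ne_zero).2 h0)
    have := huniq z hz w hwZ w (sphere_subset_closedBall hw) (mem_closedBall_self hρ.le)
    rw [this, mem_sphere, dist_self] at hw
    exact hρ.ne hw
  have hle : ∀ p : Polynomial ℂ, p ≠ 0 → ∑ z ∈ Z, rt (fun w => p.eval w) z ρ ≤ p.roots := by
    intro p hp
    rw [Multiset.le_iff_count]
    intro w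
    rw [Multiset.count_sum']
    simp only [count_rt_poly hp]
    by_cases hw : ∃ z ∈ Z, w ∈ closedBall z ρ
    · obtain ⟨z, hz, hw⟩ := hw
      rw [Finset.sum_eq_single_of_mem z hz fun z' hz' hne =>
        if_neg fun h => hne (huniq z' hz' z hz w h hw), if_pos hw]
    · rw [Finset.sum_eq_zero fun z hz => if_neg fun h => hw ⟨z, hz, h⟩]
      exact Nat.zero_le _
  have h0 : ∀ z ∈ Z, rt (fun w => (D l₀).eval w) z ρ =
      Multiset.replicate ((D l₀).roots.count z) z := by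
    intro z hz
    ext w
    rw [count_rt_poly hm.1.ne_zero, Multiset.count_replicate]
    by_cases hzw : z = w
    · subst hzw
      rw [if_pos (mem_closedBall_self hρ.le), if_pos rfl]
    · rw [if_neg hzw]
      split_ifs with hw
      · exact Multiset.count_eq_zero.2 fun h => hzw
          (huniq z hz w (Multiset.mem_toFinset.2 h) w hw (mem_closedBall_self hρ.le))
      · rfl
  refine ⟨fun l => ∑ z ∈ Z, ((rt (fun w => (D l).eval w) z ρ).map (g z)).sum,
    Finset.analyticAt_fun_sum _ fun z hz => h.fm.analyticAt hρ (hsph z hz) fun w hw =>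
      (h1 z hz w hw).1.differentiableAt.differentiableWithinAt, ?_, ?_⟩
  · rw [Finset.sum_multiset_map_count, re_sum]
    refine Finset.sum_congr rfl fun z hz => ?_
    rw [h0 z hz]
    simp
  · filter_upwards [h.1, (eventually_all_finset Z).2 fun z hz => h.fm.ev_card hρ (hsph z hz)]
      with l hl hc
    have h3 : ∑ z ∈ Z, rt (fun w => (D l).eval w) z ρ = (D l).roots := by
      refine Multiset.eq_of_le_of_card_le (hle _ hl.1.ne_zero) ?_
      rw [IsAlgClosed.card_roots_eq_natDegree, hl.2, ← hm.2, ← IsAlgClosed.card_roots_eq_natDegree,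
        Multiset.card_sum, Finset.sum_congr rfl hc, ← Multiset.toFinset_sum_count_eq]
      refine (Finset.sum_congr rfl fun z hz => ?_).le
      rw [h0 z hz, Multiset.card_replicate]
    have h4 : ∀ (s : Finset ℂ) (m : ℂ → Multiset ℂ),
        ((∑ z ∈ s, m z).map k).sum = ∑ z ∈ s, ((m z).map k).sum := by
      intro s m
      induction s using Finset.induction_on with
      | empty => simp
      | insert a s ha ih =>
        rw [Finset.sum_insert ha, Finset.sum_insert ha, Multiset.map_add, Multiset.sum_add, ih]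
    rw [← h3, re_sum, h4]
    refine Finset.sum_le_sum fun z hz => ?_
    rw [← coe_reAddGroupHom, map_multiset_sum, Multiset.map_map]
    refine Multiset.sum_map_le_sum_map _ _ fun w hw => (h1 z hz w ?_).2
    exact ((mem_rt (D l).differentiable (ex_ne hl.1.ne_zero)).1 hw).1

theorem PF.subAt {D : ℂ → Polynomial ℂ} {l₀ : ℂ} {n : ℕ} (h : PF D l₀ n) {k : ℂ → ℝ}
    (hk : ∀ z ∈ (D l₀).roots, SubAt k z) : SubAt (fun l => ((D l).roots.map k).sum) l₀ := by
  choose! g hg using hk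
  obtain ⟨G, h1, h2, h3⟩ := h.minorant g fun z hz => ⟨(hg z hz).1, (hg z hz).2.2⟩
  exact ⟨G, h1, h2.trans (congrArg _ (Multiset.map_congr rfl fun z hz => (hg z hz).2.1)), h3⟩

theorem PF.lsc {D : ℂ → Polynomial ℂ} {l₀ : ℂ} {n : ℕ} (h : PF D l₀ n) {k : ℂ → ℝ}
    (hk : ∀ z ∈ (D l₀).roots, ContinuousAt k z) {ε : ℝ} (hε : 0 < ε) :
    ∀ᶠ l in 𝓝 l₀, ((D l₀).roots.map k).sum - ε < ((D l).roots.map k).sum := by
  set N : ℝ := (((D l₀).roots.card : ℕ) : ℝ) with hN
  have hN0 : 0 ≤ N := Nat.cast_nonneg _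
  obtain ⟨G, h1, h2, h3⟩ := h.minorant (k := k) (fun z _ => ((k z - ε / (N + 1) : ℝ) : ℂ))
    fun z hz => ⟨analyticAt_const, by
      filter_upwards [continuousAt_const.eventually_lt (hk z hz)
        (show k z - ε / (N + 1) < k z from sub_lt_self _ (by positivity))] with w hw
      rw [ofReal_re]; exact hw.le⟩
  simp only [ofReal_re, Multiset.sum_map_sub, Multiset.map_const', Multiset.sum_replicate,
    nsmul_eq_mul] at h2
  have h4 : ((D l₀).roots.map k).sum - ε < (G l₀).re := by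
    rw [h2, ← hN]
    have : N * (ε / (N + 1)) < ε := by
      rw [← mul_div_assoc, div_lt_iff₀ (by positivity)]; nlinarith
    linarith
  filter_upwards [h3, continuousAt_const.eventually_lt
    (continuous_re.continuousAt.comp h1.continuousAt) h4] with l h5 h6 using h6.trans_le h5

theorem PF.continuousAt {D : ℂ → Polynomial ℂ} {l₀ : ℂ} {n : ℕ} (h : PF D l₀ n) {k : ℂ → ℝ}
    (hk : ∀ z ∈ (D l₀).roots, ContinuousAt k z) :
    ContinuousAt (fun l => ((D l).roots.map k).sum) l₀ := by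
  refine Metric.tendsto_nhds.2 fun ε hε => ?_
  filter_upwards [h.lsc hk hε, h.lsc (k := fun z => -k z) (fun z hz => (hk z hz).neg) hε]
    with l h1 h2
  simp only [Multiset.sum_map_neg] at h2
  rw [Real.dist_eq, abs_lt]
  constructor <;> linarith

open Classical in
theorem S_eq {μ : ℂ → ℕ} {k : ℂ → ℝ} {m : Multiset ℂ} (h : ∀ z, k z ≠ 0 → μ z = m.count z) :
    S μ k = (m.map k).sum := by
  rw [S_eq_sum m.toFinset, Finset.sum_multiset_map_count]
  · refine Finset.sum_congr rfl fun z _ => ?_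
    by_cases hz : k z = 0
    · simp [hz]
    · rw [h z hz, nsmul_eq_mul]
  · intro z hz
    by_cases hk : k z = 0
    · exact Or.inr hk
    · exact Or.inl ((h z hk).trans (Multiset.count_eq_zero.2 fun h' =>
        hz (Multiset.mem_toFinset.2 h')))

theorem fm_of_diff {f : ℂ → ℂ → ℂ} (hf : Differentiable ℂ (fun p : ℂ × ℂ => f p.1 p.2)) (l₀ : ℂ) :
    Fm f l₀ :=
  ⟨fun l => hf.comp ((differentiable_const l).prodMk differentiable_id), 1, one_pos,
    hf.continuous.continuousOn, fun z =>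
      (hf.comp (differentiable_id.prodMk (differentiable_const z))).differentiableOn⟩

theorem loc {f g : ℂ → ℂ → ℂ} (hf : Differentiable ℂ (fun p : ℂ × ℂ => f p.1 p.2))
    (hg : Differentiable ℂ (fun p : ℂ × ℂ => g p.1 p.2)) (f0 : ∀ l, f l 0 ≠ 0)
    (g0 : ∀ l, g l 0 ≠ 0) {k : ℂ → ℝ} (hk : Ker k) (l₀ : ℂ) : ∃ a b : ℂ → ℝ,
    (∀ᶠ l in 𝓝 l₀, ContinuousAt a l ∧ ContinuousAt b l) ∧
    (∀ᶠ l in 𝓝[≠] l₀, a l = S (mA (f l) (g l)) k ∧ b l = S (mB (f l) (g l)) k) ∧
    a l₀ + b l₀ = S (ord (f l₀)) k ∧ ((∀ z, 0 ≤ k z) → a l₀ ≤ S (mA (f l₀) (g l₀)) k) ∧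
    ((∀ z, z ≠ 0 → SubAt k z) → SubAt a l₀ ∧ SubAt b l₀) := by
  classical
  obtain ⟨r, hr⟩ := hk.supp
  have hf' := fm_of_diff hf l₀
  have hg' := fm_of_diff hg l₀
  obtain ⟨R, hR1, hR2⟩ := (Set.Ioo_infinite (lt_add_one (max r 0))).exists_notMem_finite
    (((finite_zeros (hf'.1 l₀) ⟨0, f0 l₀⟩ (max r 0 + 1)).union
      (finite_zeros (hg'.1 l₀) ⟨0, g0 l₀⟩ (max r 0 + 1))).image norm)
  have hR : 0 < R := (le_max_right _ _).trans_lt hR1.1
  have s1 : ∀ z ∈ sphere (0 : ℂ) R, f l₀ z ≠ 0 := fun z hz h => hR2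
    ⟨z, Or.inl ⟨((mem_sphere_zero_iff_norm.1 hz).trans_lt hR1.2).le, h⟩,
      mem_sphere_zero_iff_norm.1 hz⟩
  have s2 : ∀ z ∈ sphere (0 : ℂ) R, g l₀ z ≠ 0 := fun z hz h => hR2
    ⟨z, Or.inr ⟨((mem_sphere_zero_iff_norm.1 hz).trans_lt hR1.2).le, h⟩,
      mem_sphere_zero_iff_norm.1 hz⟩
  have hb : ∀ z, k z ≠ 0 → z ∈ closedBall (0 : ℂ) R := by
    intro z hz
    rw [mem_closedBall_zero_iff]
    by_contra h
    exact hz (hr z (by linarith [le_max_left r 0, hR1.1]))
  obtain ⟨d, B, E, n, m, hd, hB, h1, h2⟩ := gcd_fam (hf'.pf hR s1) (hg'.pf hR s2)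
  have hw : ∀ F : ℂ → ℂ, wp F R ≠ 0 := fun F => (Polynomial.monic_multisetProd_X_sub_C _).ne_zero
  have h3 : ∀ᶠ l in 𝓝 l₀, rt (f l) 0 R = (d l).roots + (B l).roots ∧
      rt (g l) 0 R = (d l).roots + (E l).roots := by
    filter_upwards [h1] with l hl
    rw [← roots_wp, ← roots_wp, ← Polynomial.roots_mul (hl.1 ▸ hw _),
      ← Polynomial.roots_mul (hl.2 ▸ hw _), hl.1, hl.2]
    exact ⟨rfl, rfl⟩
  have h4 : ∀ᶠ l in 𝓝 l₀, (∀ z ∈ (d l).roots, z ≠ 0) ∧ ∀ z ∈ (B l).roots, z ≠ 0 := by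
    filter_upwards [h3] with l hl
    have : ∀ z ∈ (d l).roots + (B l).roots, z ≠ 0 := by
      rintro z hz rfl
      rw [← hl.1] at hz
      exact f0 l ((mem_rt (hf'.1 l) ⟨0, f0 l⟩).1 hz).2
    exact ⟨fun z hz => this z (Multiset.mem_add.2 (Or.inl hz)),
      fun z hz => this z (Multiset.mem_add.2 (Or.inr hz))⟩
  have h5 : ∀ᶠ l in 𝓝 l₀, ∀ z, k z ≠ 0 →
      ord (f l) z = (d l).roots.count z + (B l).roots.count z ∧
      ord (g l) z = (d l).roots.count z + (E l).roots.count z := by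
    filter_upwards [h3] with l hl z hz
    rw [← Multiset.count_add, ← Multiset.count_add, ← hl.1, ← hl.2,
      count_rt (hf'.1 l) ⟨0, f0 l⟩, count_rt (hg'.1 l) ⟨0, g0 l⟩, if_pos (hb z hz),
      if_pos (hb z hz)]
    exact ⟨rfl, rfl⟩
  have hc : ∀ z : ℂ, z ≠ 0 → ContinuousAt k z := fun z hz =>
    hk.cont.continuousAt (isOpen_compl_singleton.mem_nhds hz)
  refine ⟨fun l => ((d l).roots.map k).sum, fun l => ((B l).roots.map k).sum, ?_, ?_, ?_,
    fun hk0 => ?_, fun hs => ?_⟩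
  · filter_upwards [hd.ev, hB.ev, h4] with l h6 h7 h8
    exact ⟨h6.continuousAt fun z hz => hc z (h8.1 z hz),
      h7.continuousAt fun z hz => hc z (h8.2 z hz)⟩
  · filter_upwards [h2, mem_nhdsWithin_of_mem_nhds h5] with l h6 h7
    have h8 : ∀ z, (B l).roots.count z = 0 ∨ (E l).roots.count z = 0 := by
      intro z
      by_contra h
      push Not at h
      exact h6 z (Polynomial.isRoot_of_mem_roots (Multiset.count_ne_zero.1 h.1))
        (Polynomial.isRoot_of_mem_roots (Multiset.count_ne_zero.1 h.2))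
    refine ⟨(S_eq fun z hz => ?_).symm, (S_eq fun z hz => ?_).symm⟩
    · have := h7 z hz
      have := h8 z
      unfold mA; omega
    · have := h7 z hz
      have := h8 z
      unfold mB; omega
  · rw [S_eq (m := (d l₀).roots + (B l₀).roots) fun z hz => by
      rw [(h5.self_of_nhds z hz).1, Multiset.count_add], Multiset.map_add, Multiset.sum_add]
  · rw [S_eq (m := (d l₀).roots + (B l₀).roots ∩ (E l₀).roots) fun z hz => by
      have := h5.self_of_nhds z hz
      rw [Multiset.count_add, Multiset.count_inter]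
      unfold mA; omega, Multiset.map_add, Multiset.sum_add]
    refine le_add_of_nonneg_right (Multiset.sum_nonneg fun x hx => ?_)
    obtain ⟨z, -, rfl⟩ := Multiset.mem_map.1 hx
    exact hk0 z
  · exact ⟨hd.subAt fun z hz => hs z (h4.self_of_nhds.1 z hz),
      hB.subAt fun z hz => hs z (h4.self_of_nhds.2 z hz)⟩

theorem glue {a : ℂ → ℂ → ℝ} {s : ℂ → ℝ} (h1 : ∀ l₀, ∀ᶠ l in 𝓝 l₀, ContinuousAt (a l₀) l)
    (h2 : ∀ l₀, ∀ᶠ l in 𝓝[≠] l₀, a l₀ l = s l) (l₀ : ℂ) : (fun l => a l l) =ᶠ[𝓝 l₀] a l₀ := by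
  filter_upwards [h1 l₀, (eventually_nhdsWithin_iff.1 (h2 l₀)).eventually_nhds] with l h3 h4
  by_cases hl : l = l₀
  · rw [hl]
  · have h5 : a l =ᶠ[𝓝[≠] l] a l₀ := by
      filter_upwards [h2 l, mem_nhdsWithin_of_mem_nhds h4,
        mem_nhdsWithin_of_mem_nhds (isOpen_compl_singleton.mem_nhds hl)] with w h6 h7 h8
      rw [h6, h7 h8]
    exact tendsto_nhds_unique_of_eventuallyEq
      ((h1 l).self_of_nhds.tendsto.mono_left nhdsWithin_le_nhds)
      (h3.tendsto.mono_left nhdsWithin_le_nhds) h5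

theorem subAt_congr {u v : ℂ → ℝ} {z : ℂ} (h : u =ᶠ[𝓝 z] v) (hv : SubAt v z) : SubAt u z := by
  obtain ⟨g, h1, h2, h3⟩ := hv
  refine ⟨g, h1, h2.trans h.self_of_nhds.symm, ?_⟩
  filter_upwards [h, h3] with w h4 h5 using h4 ▸ h5

end GenAux

open GenAux in
theorem gen_exists {f g : ℂ → ℂ → ℂ} (hf : Differentiable ℂ (fun p : ℂ × ℂ => f p.1 p.2))
    (hg : Differentiable ℂ (fun p : ℂ × ℂ => g p.1 p.2)) (f0 : ∀ l, f l 0 ≠ 0)
    (g0 : ∀ l, g l 0 ≠ 0) {k : ℂ → ℝ} (hk : Ker k) : ∃ uA uB, Gen f g k uA uB := by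
  choose a b h1 h2 h3 h4 h5 using loc hf hg f0 g0 hk
  have ha := glue (a := a) (fun l₀ => (h1 l₀).mono fun l hl => hl.1)
    fun l₀ => (h2 l₀).mono fun l hl => hl.1
  have hb := glue (a := b) (fun l₀ => (h1 l₀).mono fun l hl => hl.2)
    fun l₀ => (h2 l₀).mono fun l hl => hl.2
  refine ⟨fun l => a l l, fun l => b l l,
    continuous_iff_continuousAt.2 fun l => (h1 l).self_of_nhds.1.congr (ha l).symm,
    continuous_iff_continuousAt.2 fun l => (h1 l).self_of_nhds.2.congr (hb l).symm,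
    fun l₀ => ?_, h3, fun hk0 l => h4 l hk0,
    fun hs l => ⟨subAt_congr (ha l) (h5 l hs).1, subAt_congr (hb l) (h5 l hs).2⟩⟩
  filter_upwards [h2 l₀, mem_nhdsWithin_of_mem_nhds (ha l₀), mem_nhdsWithin_of_mem_nhds (hb l₀)]
    with l h6 h7 h8
  exact ⟨h7.trans h6.1, h8.trans h6.2⟩

end Pool.Agent.MP_f27d50_gt
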