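import Pool.Agent.MP_f27d50_gt.Zeros

set_option autoImplicit false

open MeasureTheory Set Filter Topology Complex Metric
open scoped Real

noncomputable section

namespace Pool.Agent.MP_f27d50_gt.GenAux

/-- circle integrals of bounded holomorphic families are holomorphic -/
theorem par {Φ : ℂ → ℂ → ℂ} {U : Set ℂ} {c : ℂ} {R M : ℝ} (hU : IsOpen U) (hR : 0 ≤ R)
    (hc : ∀ l ∈ U, ContinuousOn (Φ l) (sphere c R))
    (hd : ∀ z ∈ sphere c R, DifferentiableOn ℂ (fun l => Φ l z) U)
    (hb : ∀ l ∈ U, ∀ z ∈ sphere c R, ‖Φ l z‖ ≤ M) :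
    DifferentiableOn ℂ (fun l => ∮ z in C(c, R), Φ l z) U := by
  intro l₀ hl₀
  obtain ⟨ε, hε, hball⟩ := Metric.isOpen_iff.1 hU l₀ hl₀
  set F : ℂ → ℝ → ℂ := fun l t => deriv (circleMap c R) t • Φ l (circleMap c R t) with hF
  have hs : ∀ t, circleMap c R t ∈ sphere c R := fun t => circleMap_mem_sphere c hR t
  have hFc : ∀ l ∈ U, Continuous (F l) := by
    intro l hl
    have h1 : Continuous fun t => Φ l (circleMap c R t) :=
      (hc l hl).comp_continuous (continuous_circleMap c R) hs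
    simp only [hF, deriv_circleMap]
    exact ((continuous_circleMap 0 R).mul continuous_const).smul h1
  have hFd : ∀ t, DifferentiableOn ℂ (fun l => F l t) U := fun t =>
    (hd _ (hs t)).fun_const_smul (deriv (circleMap c R) t)
  have hFb : ∀ l ∈ U, ∀ t, ‖F l t‖ ≤ R * M := by
    intro l hl t
    simp only [hF, deriv_circleMap, norm_smul, norm_mul, norm_circleMap_zero, norm_I, mul_one,
      abs_of_nonneg hR]
    exact mul_le_mul_of_nonneg_left (hb l hl _ (hs t)) hR
  have hU₀ : U ∈ 𝓝 l₀ := hU.mem_nhds hl₀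
  have hm' : AEStronglyMeasurable (fun t => deriv (fun l => F l t) l₀)
      (volume.restrict (uIoc 0 (2 * π))) := by
    have e1 : Tendsto (fun n : ℕ => ((ε / 2 * (1 / ((n : ℝ) + 1)) : ℝ) : ℂ)) atTop (𝓝[≠] 0) := by
      refine tendsto_nhdsWithin_iff.2 ⟨?_, Eventually.of_forall fun n => ?_⟩
      · have := (tendsto_one_div_add_atTop_nhds_zero_nat (𝕜 := ℝ)).const_mul (ε / 2)
        rw [mul_zero] at this
        exact_mod_cast (continuous_ofReal.tendsto 0).comp this
      · have : (0 : ℝ) < ε / 2 * (1 / ((n : ℝ) + 1)) := by positivity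
        simpa only [mem_compl_iff, mem_singleton_iff, ofReal_eq_zero] using this.ne'
    refine aestronglyMeasurable_of_tendsto_ae atTop
      (f := fun (n : ℕ) t => (((ε / 2 * (1 / ((n : ℝ) + 1)) : ℝ) : ℂ))⁻¹ •
        (F (l₀ + ((ε / 2 * (1 / ((n : ℝ) + 1)) : ℝ) : ℂ)) t - F l₀ t))
      (fun n => ?_) (Eventually.of_forall fun t => ?_)
    · refine (((hFc _ (hball ?_)).sub (hFc _ hl₀)).const_smul
        (((ε / 2 * (1 / ((n : ℝ) + 1)) : ℝ) : ℂ))⁻¹).aestronglyMeasurable
      have h1 : (0 : ℝ) < 1 / ((n : ℝ) + 1) := by positivity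
      have h2 : 1 / ((n : ℝ) + 1) ≤ 1 := by
        rw [div_le_one (by positivity)]; linarith [Nat.cast_nonneg (α := ℝ) n]
      rw [mem_ball, dist_eq_norm, add_sub_cancel_left, norm_real, Real.norm_eq_abs,
        abs_of_pos (by positivity)]
      nlinarith
    · exact ((hFd t).differentiableAt hU₀).hasDerivAt.tendsto_slope_zero.comp e1
  have hsub : ∀ z ∈ ball l₀ (ε / 2), closedBall z (ε / 4) ⊆ U := by
    intro z hz y hy
    refine hball ?_
    rw [mem_closedBall] at hy
    rw [mem_ball] at hz ⊢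
    linarith [dist_triangle y z l₀]
  have key := intervalIntegral.hasDerivAt_integral_of_dominated_loc_of_deriv_le (μ := volume)
    (a := 0) (b := 2 * π) (F := F) (x₀ := l₀)
    (s := ball l₀ (ε / 2)) (bound := fun _ => R * M / (ε / 4))
    (F' := fun z a => deriv (fun z => F z a) z)
    (ball_mem_nhds l₀ (by positivity))
    (mem_of_superset hU₀ fun l hl => (hFc l hl).aestronglyMeasurable)
    ((hFc _ hl₀).intervalIntegrable _ _) hm'
    (Eventually.of_forall fun a _ z hz => ?_) intervalIntegrable_const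
    (Eventually.of_forall fun a _ z hz => ((hFd a).differentiableAt
      (hU.mem_nhds (hsub z hz (mem_closedBall_self (by positivity))))).hasDerivAt)
  · exact key.2.differentiableAt.differentiableWithinAt
  · refine Complex.norm_deriv_le_of_forall_mem_sphere_norm_le (by positivity)
      ((hFd a).mono (closure_ball_subset_closedBall.trans (hsub z hz))).diffContOnCl
      fun y hy => hFb y (hsub z hz (sphere_subset_closedBall hy)) a

open Classical in
/-- the zeros of `F` in a closed disc, with multiplicity -/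
def rt (F : ℂ → ℂ) (c : ℂ) (R : ℝ) : Multiset ℂ :=
  if h : {z | z ∈ closedBall c R ∧ F z = 0}.Finite then
    ∑ z ∈ h.toFinset, Multiset.replicate (ord F z) z else 0

open Classical in
theorem count_rt {F : ℂ → ℂ} (hF : Differentiable ℂ F) (h0 : ∃ z, F z ≠ 0) (c : ℂ) (R : ℝ)
    (w : ℂ) : (rt F c R).count w = if w ∈ closedBall c R then ord F w else 0 := by
  have h : {z | z ∈ closedBall c R ∧ F z = 0}.Finite := by
    refine (finite_zeros hF h0 (‖c‖ + R)).subset fun z hz => ⟨?_, hz.2⟩
    have := mem_closedBall_iff_norm.1 hz.1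
    linarith [norm_le_norm_add_norm_sub' z c]
  rw [rt, dif_pos h, Multiset.count_sum']
  simp only [Multiset.count_replicate]
  rw [Finset.sum_ite_eq']
  by_cases h1 : w ∈ closedBall c R
  · by_cases h2 : F w = 0
    · rw [if_pos h1, if_pos (by simpa using ⟨h1, h2⟩)]
    · rw [if_pos h1, ord_eq_zero hF h2]; simp
  · rw [if_neg h1, if_neg (by simp only [Finite.mem_toFinset, mem_ofPred_eq]; tauto)]

theorem mem_rt {F : ℂ → ℂ} (hF : Differentiable ℂ F) (h0 : ∃ z, F z ≠ 0) {c : ℂ} {R : ℝ}
    {w : ℂ} : w ∈ rt F c R ↔ w ∈ closedBall c R ∧ F w = 0 := by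
  classical
  rw [← Multiset.count_ne_zero, count_rt hF h0]
  by_cases h1 : w ∈ closedBall c R
  · rw [if_pos h1, Ne, ord_eq_zero_iff hF h0]; tauto
  · rw [if_neg h1]; tauto

theorem ap_aux {G H : ℂ → ℂ} {c : ℂ} {R : ℝ} (hR : 0 < R) (hG : Differentiable ℂ G)
    (hG0 : ∀ z ∈ closedBall c R, G z ≠ 0) (hH : DifferentiableOn ℂ H (closedBall c R))
    (m : Multiset ℂ) (hm : ∀ z ∈ m, z ∈ ball c R) :
    ∮ z in C(c, R), H z * logDeriv (fun w => (m.map (w - ·)).prod * G w) z =
      2 * π * I * (m.map H).sum := by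
  have hdiff : ∀ m : Multiset ℂ, Differentiable ℂ fun w => (m.map (w - ·)).prod * G w := by
    intro m
    induction m using Multiset.induction_on with
    | empty => simpa using hG
    | cons a m ih =>
      simp only [Multiset.map_cons, Multiset.prod_cons, mul_assoc]
      exact (differentiable_id.sub_const a).mul ih
  induction m using Multiset.induction_on with
  | empty =>
    simp only [Multiset.map_zero, Multiset.prod_zero, one_mul, Multiset.sum_zero, mul_zero]
    refine DiffContOnCl.circleIntegral_eq_zero hR.le (DifferentiableOn.diffContOnCl ?_)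
    rw [closure_ball c hR.ne']
    exact hH.mul (hG.deriv.differentiableOn.div hG.differentiableOn hG0)
  | cons a m ih =>
    have ha : a ∈ ball c R := hm a (Multiset.mem_cons_self _ _)
    have hm' : ∀ z ∈ m, z ∈ ball c R := fun z hz => hm z (Multiset.mem_cons_of_mem hz)
    have hne : ∀ z ∈ sphere c R, ∀ b ∈ ball c R, z - b ≠ 0 := by
      intro z hz b hb h
      rw [sub_eq_zero.1 h, mem_sphere] at hz
      exact (mem_ball.1 hb).ne hz
    have hnz : ∀ z ∈ sphere c R, (m.map (z - ·)).prod * G z ≠ 0 := by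
      intro z hz
      refine mul_ne_zero (Multiset.prod_ne_zero fun h => ?_) (hG0 z (sphere_subset_closedBall hz))
      obtain ⟨b, hb, h⟩ := Multiset.mem_map.1 h
      exact hne z hz b (hm' b hb) h
    have hHc : ContinuousOn H (sphere c R) := hH.continuousOn.mono sphere_subset_closedBall
    rw [circleIntegral.integral_congr hR.le (g := fun z => (z - a)⁻¹ • H z +
      H z * logDeriv (fun w => (m.map (w - ·)).prod * G w) z), circleIntegral.integral_add,
      hH.circleIntegral_sub_inv_smul ha, ih hm']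
    · simp only [Multiset.map_cons, Multiset.sum_cons, smul_eq_mul]; ring
    · exact ContinuousOn.circleIntegrable hR.le
        (((continuousOn_id.sub continuousOn_const).inv₀ fun z hz => hne z hz a ha).smul hHc)
    · exact ContinuousOn.circleIntegrable hR.le (hHc.mul
        ((hdiff m).deriv.continuous.continuousOn.div (hdiff m).continuous.continuousOn hnz))
    · intro z hz
      simp only [Multiset.map_cons, Multiset.prod_cons, mul_assoc, smul_eq_mul]
      rw [logDeriv_mul (f := fun w => w - a) z (hne z hz a ha) (hnz z hz) (by fun_prop) (hdiff m z)]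
      have : logDeriv (fun w : ℂ => w - a) z = (z - a)⁻¹ := by
        rw [logDeriv_apply]; simp
      rw [this]; ring

/-- the argument principle -/
theorem ap {F H : ℂ → ℂ} {c : ℂ} {R : ℝ} (hR : 0 < R) (hF : Differentiable ℂ F)
    (hF0 : ∀ z ∈ sphere c R, F z ≠ 0) (hH : DifferentiableOn ℂ H (closedBall c R)) :
    ∮ z in C(c, R), H z * logDeriv F z = 2 * π * I * ((rt F c R).map H).sum := by
  classical
  have h0 : ∃ z, F z ≠ 0 := ⟨_, hF0 _ (circleMap_mem_sphere c hR.le 0)⟩
  obtain ⟨G, hG, h1, h2, h3⟩ := exists_div hF h0 (rt F c R).toFinset (fun z => (rt F c R).count z)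
    (fun z _ => by rw [count_rt hF h0]; split_ifs <;> simp)
  have G0 : ∃ z, G z ≠ 0 := by
    obtain ⟨z, hz⟩ := h0
    exact ⟨z, fun h => hz (by rw [h1, h, mul_zero])⟩
  have e : F = fun w => ((rt F c R).map (w - ·)).prod * G w := by
    ext w; rw [Finset.prod_multiset_map_count, ← h1]
  conv_lhs => rw [e]
  refine ap_aux hR hG (fun z hz => ?_) hH _ fun z hz => ?_
  · rw [← ord_eq_zero_iff hG G0]
    by_cases h : z ∈ (rt F c R).toFinset
    · rw [h2 z h, count_rt hF h0, if_pos hz, Nat.sub_self]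
    · rw [h3 z h]
      have := Multiset.count_eq_zero.2 (fun h' => h (Multiset.mem_toFinset.2 h'))
      rwa [count_rt hF h0, if_pos hz] at this
  · obtain ⟨h4, h5⟩ := (mem_rt hF h0).1 hz
    exact mem_ball.2 (lt_of_le_of_ne h4 fun h => hF0 z h h5)

/-- holomorphic families of entire functions, near `l₀` -/
def Fm (F : ℂ → ℂ → ℂ) (l₀ : ℂ) : Prop :=
  (∀ l, Differentiable ℂ (F l)) ∧ ∃ ε > 0,
    ContinuousOn (fun p : ℂ × ℂ => F p.1 p.2) (ball l₀ ε ×ˢ univ) ∧
      ∀ z, DifferentiableOn ℂ (fun l => F l z) (ball l₀ ε)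

theorem Fm.ev_ne {F : ℂ → ℂ → ℂ} {l₀ : ℂ} (h : Fm F l₀) {K : Set ℂ} (hK : IsCompact K)
    (h0 : ∀ z ∈ K, F l₀ z ≠ 0) : ∀ᶠ l in 𝓝 l₀, ∀ z ∈ K, F l z ≠ 0 := by
  obtain ⟨-, ε, hε, hc, -⟩ := h
  refine hK.eventually_forall_of_forall_eventually fun z hz => ?_
  have : ContinuousAt (fun p : ℂ × ℂ => F p.1 p.2) (l₀, z) :=
    hc.continuousAt (prod_mem_nhds (ball_mem_nhds _ hε) univ_mem)
  exact this.eventually_ne (h0 z hz)

/-- sums of a holomorphic function over the zeros in a disc depend analytically on the parameter -/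
theorem Fm.analyticAt {F : ℂ → ℂ → ℂ} {l₀ : ℂ} (h : Fm F l₀) {c : ℂ} {R : ℝ} (hR : 0 < R)
    (h0 : ∀ z ∈ sphere c R, F l₀ z ≠ 0) {H : ℂ → ℂ} (hH : DifferentiableOn ℂ H (closedBall c R)) :
    AnalyticAt ℂ (fun l => ((rt (F l) c R).map H).sum) l₀ := by
  have h1 := h.ev_ne (isCompact_sphere c R) h0
  obtain ⟨hd, ε, hε, hc, hl⟩ := h
  obtain ⟨δ, hδ, hδ1⟩ := nhds_basis_closedBall.eventually_iff.1 (h1.and (ball_mem_nhds l₀ hε))
  have hsub : ball l₀ δ ⊆ ball l₀ ε := fun l hl => (hδ1 (ball_subset_closedBall hl)).2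
  obtain ⟨M, hM⟩ := ((isCompact_closedBall l₀ δ).prod
    (isCompact_closedBall c (R + 1))).exists_bound_of_continuousOn
    (hc.mono (prod_mono (fun l hl => (hδ1 hl).2) (subset_univ _)))
  obtain ⟨M', hM'⟩ := ((isCompact_closedBall l₀ δ).prod
    (isCompact_sphere c R)).exists_bound_of_continuousOn
    ((hc.mono (prod_mono (fun l hl => (hδ1 hl).2) (subset_univ _))).inv₀
      fun p hp => (hδ1 hp.1).1 _ hp.2)
  have hHc : ContinuousOn H (sphere c R) := hH.continuousOn.mono sphere_subset_closedBall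
  obtain ⟨M'', hM''⟩ := (isCompact_sphere c R).exists_bound_of_continuousOn hHc
  have hMs : ∀ l ∈ ball l₀ δ, ∀ z ∈ sphere c R, ∀ w ∈ sphere z 1, ‖F l w‖ ≤ M := by
    intro l hl z hz w hw
    refine hM (l, w) ⟨ball_subset_closedBall hl, ?_⟩
    rw [mem_sphere] at hz hw
    rw [mem_closedBall]
    linarith [dist_triangle w z c]
  have h2 : ∀ z ∈ sphere c R, DifferentiableOn ℂ (fun l => deriv (F l) z) (ball l₀ δ) := by
    intro z hz
    have h3 := par (Φ := fun l w => (1 / (w - z) ^ 2) • F l w) (c := z) (R := 1) (M := M)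
      isOpen_ball zero_le_one (fun l _ => ?_) (fun w _ => ((hl w).mono hsub).fun_const_smul _)
      (fun l hl w hw => ?_)
    · refine (h3.const_mul (2 * π * I)⁻¹).congr fun l _ => ?_
      rw [(hd l).differentiableOn.deriv_eq_smul_circleIntegral one_pos, smul_eq_mul,
        inv_mul_cancel_left₀ two_pi_I_ne_zero]
    · refine (continuousOn_const.div ((continuousOn_id.sub continuousOn_const).pow 2)
        fun w hw => pow_ne_zero _ fun h : w - z = 0 => ?_).smul (hd l).continuous.continuousOn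
      rw [mem_sphere_iff_norm, h] at hw
      simp at hw
    · rw [norm_smul, norm_div, norm_pow, mem_sphere_iff_norm.1 hw]
      simpa using hMs l hl z hz w hw
  have h4 := par (Φ := fun l z => H z * logDeriv (F l) z) (c := c) (R := R) (M := M'' * (M * M'))
    (U := ball l₀ δ) isOpen_ball hR.le (fun l hl => ?_) (fun z hz => ?_) (fun l hl z hz => ?_)
  · refine ((h4.const_mul (2 * π * I)⁻¹).congr fun l hl => ?_).analyticAt (ball_mem_nhds l₀ hδ)
    rw [ap hR (hd l) (hδ1 (ball_subset_closedBall hl)).1 hH, inv_mul_cancel_left₀ two_pi_I_ne_zero]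
  · exact hHc.mul ((hd l).deriv.continuous.continuousOn.div (hd l).continuous.continuousOn
      (hδ1 (ball_subset_closedBall hl)).1)
  · exact ((h2 z hz).div ((hl z).mono hsub)
      fun l hl => (hδ1 (ball_subset_closedBall hl)).1 z hz).const_mul _
  · have h5 : ‖deriv (F l) z‖ ≤ M / 1 := Complex.norm_deriv_le_of_forall_mem_sphere_norm_le
      one_pos (hd l).diffContOnCl (hMs l hl z hz)
    have h6 := hM' (l, z) ⟨ball_subset_closedBall hl, hz⟩
    rw [div_one] at h5
    rw [logDeriv_apply, div_eq_mul_inv, norm_mul, norm_mul]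
    exact mul_le_mul (hM'' z hz) (mul_le_mul h5 h6 (norm_nonneg _) ((norm_nonneg _).trans h5))
      (by positivity) ((norm_nonneg _).trans (hM'' z hz))

/-- the number of zeros in a disc is locally constant -/
theorem Fm.ev_card {F : ℂ → ℂ → ℂ} {l₀ : ℂ} (h : Fm F l₀) {c : ℂ} {R : ℝ} (hR : 0 < R)
    (h0 : ∀ z ∈ sphere c R, F l₀ z ≠ 0) :
    ∀ᶠ l in 𝓝 l₀, (rt (F l) c R).card = (rt (F l₀) c R).card := by
  have h1 := (h.analyticAt hR h0 (H := fun _ => 1) (differentiableOn_const _)).continuousAt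
  simp only [Multiset.map_const', Multiset.sum_replicate, nsmul_eq_mul, mul_one] at h1
  filter_upwards [Metric.tendsto_nhds.1 h1 1 one_pos] with l hl
  rw [dist_eq_norm] at hl
  have h2 : ‖((((rt (F l) c R).card : ℤ) - ((rt (F l₀) c R).card : ℤ) : ℤ) : ℂ)‖ < 1 := by
    simpa using hl
  rw [norm_intCast, ← Int.cast_abs] at h2
  have h3 : |(((rt (F l) c R).card : ℤ) - ((rt (F l₀) c R).card : ℤ) : ℤ)| < 1 := by
    exact_mod_cast h2
  have := Int.abs_lt_one_iff.1 h3
  omega

end Pool.Agent.MP_f27d50_gt.GenAux
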