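import Pool.Agent.MP_f27d50_gt.GenPar

set_option autoImplicit false

open MeasureTheory Set Filter Topology Complex Metric

noncomputable section

namespace Pool.Agent.MP_f27d50_gt.GenAux

open Polynomial (C Monic)

/-- analytic families of monic polynomials of degree `n`, near `l₀` -/
def PF (D : ℂ → Polynomial ℂ) (l₀ : ℂ) (n : ℕ) : Prop :=
  (∀ᶠ l in 𝓝 l₀, (D l).Monic ∧ (D l).natDegree = n) ∧
    ∀ k, AnalyticAt ℂ (fun l => (D l).coeff k) l₀

theorem PF.ev {D : ℂ → Polynomial ℂ} {l₀ : ℂ} {n : ℕ} (h : PF D l₀ n) :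
    ∀ᶠ l in 𝓝 l₀, PF D l n := by
  have h1 : ∀ᶠ l in 𝓝 l₀, ∀ k ∈ Finset.range (n + 1), AnalyticAt ℂ (fun l => (D l).coeff k) l :=
    (eventually_all_finset _).2 fun k _ => (h.2 k).eventually_analyticAt
  filter_upwards [h.1.eventually_nhds, h1] with l h2 h3
  refine ⟨h2, fun k => ?_⟩
  by_cases hk : k < n + 1
  · exact h3 k (Finset.mem_range.2 hk)
  · refine (analyticAt_const (v := (0 : ℂ))).congr ?_
    filter_upwards [h2] with l' hl'
    exact (Polynomial.coeff_eq_zero_of_natDegree_lt (by omega)).symm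

theorem PF.fm {D : ℂ → Polynomial ℂ} {l₀ : ℂ} {n : ℕ} (h : PF D l₀ n) :
    Fm (fun l z => (D l).eval z) l₀ := by
  obtain ⟨ε, hε, h1⟩ := nhds_basis_ball.eventually_iff.1 h.ev
  have h2 : ∀ k, DifferentiableOn ℂ (fun l => (D l).coeff k) (ball l₀ ε) := fun k l hl =>
    ((h1 hl).2 k).differentiableAt.differentiableWithinAt
  have h3 : ∀ l ∈ ball l₀ ε, ∀ z, (D l).eval z =
      ∑ k ∈ Finset.range (n + 1), (D l).coeff k * z ^ k := fun l hl z =>
    Polynomial.eval_eq_sum_range' (by rw [(h1 hl).1.self_of_nhds.2]; omega) z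
  refine ⟨fun l => (D l).differentiable, ε, hε, ?_, fun z => ?_⟩
  · refine ContinuousOn.congr (f := fun p : ℂ × ℂ =>
      ∑ k ∈ Finset.range (n + 1), (D p.1).coeff k * p.2 ^ k) ?_ fun p hp => h3 _ hp.1 _
    refine continuousOn_finsetSum _ fun k _ => ContinuousOn.mul ?_ (by fun_prop)
    exact (h2 k).continuousOn.comp continuousOn_fst fun p hp => hp.1
  · refine DifferentiableOn.congr (f := fun l =>
      ∑ k ∈ Finset.range (n + 1), (D l).coeff k * z ^ k) ?_ fun l hl => h3 _ hl _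
    exact DifferentiableOn.fun_sum fun k _ => (h2 k).mul_const _

/-- the Weierstrass polynomial -/
def wp (F : ℂ → ℂ) (R : ℝ) : Polynomial ℂ := ((rt F 0 R).map fun a => Polynomial.X - C a).prod

theorem roots_wp (F : ℂ → ℂ) (R : ℝ) : (wp F R).roots = rt F 0 R :=
  Polynomial.roots_multiset_prod_X_sub_C _

theorem Fm.pf {F : ℂ → ℂ → ℂ} {l₀ : ℂ} (h : Fm F l₀) {R : ℝ} (hR : 0 < R)
    (h0 : ∀ z ∈ sphere (0 : ℂ) R, F l₀ z ≠ 0) :
    PF (fun l => wp (F l) R) l₀ (rt (F l₀) 0 R).card := by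
  classical
  set n := (rt (F l₀) 0 R).card with hn
  have h1 := h.ev_card hR h0
  have h2 := h.ev_ne (isCompact_sphere 0 R) h0
  have h3 : ∀ᶠ l in 𝓝 l₀, (wp (F l) R).Monic ∧ (wp (F l) R).natDegree = n := by
    filter_upwards [h1] with l hl
    exact ⟨Polynomial.monic_multisetProd_X_sub_C _,
      (Polynomial.natDegree_multiset_prod_X_sub_C_eq_card _).trans hl⟩
  have h4 : ∀ w : ℂ, R < ‖w‖ → AnalyticAt ℂ (fun l => (wp (F l) R).eval w) l₀ := by
    intro w hw
    have hw0 : w ≠ 0 := by rintro rfl; simp at hw; linarith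
    have hs : ∀ z ∈ closedBall (0 : ℂ) R, 1 - z / w ∈ slitPlane := by
      intro z hz
      rw [sub_eq_add_neg]
      refine mem_slitPlane_of_norm_lt_one ?_
      rw [norm_neg, norm_div, div_lt_one (hR.trans hw)]
      exact (mem_closedBall_zero_iff.1 hz).trans_lt hw
    have h5 := h.analyticAt hR h0 (H := fun z => log (1 - z / w))
      (DifferentiableOn.clog (by fun_prop) hs)
    refine ((analyticAt_const (v := w ^ n)).mul h5.cexp).congr ?_
    filter_upwards [h1, h2] with l hl hl2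
    have h6 : ∃ z, F l z ≠ 0 := ⟨_, hl2 _ (circleMap_mem_sphere 0 hR.le 0)⟩
    simp only [Pi.mul_apply, Function.comp_apply, wp]
    rw [exp_multiset_sum, Polynomial.eval_multiset_prod, Multiset.map_map, Multiset.map_map, hn,
      ← hl, ← Multiset.prod_replicate, ← Multiset.map_const', ← Multiset.prod_map_mul]
    refine congrArg _ (Multiset.map_congr rfl fun z hz => ?_)
    have := slitPlane_ne_zero (hs z ((mem_rt (h.1 l) h6).1 hz).1)
    simp only [Function.comp_apply, Polynomial.eval_sub, Polynomial.eval_X, Polynomial.eval_C]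
    rw [exp_log this]; field_simp
  refine ⟨h3, fun k => ?_⟩
  set v : ℕ → ℂ := fun i => ((R + 1 + i : ℝ) : ℂ) with hv
  have hvi : Set.InjOn v (Finset.range (n + 1)) := by
    intro i _ j _ hij
    simp only [hv, ofReal_inj, add_right_inj, Nat.cast_inj] at hij
    exact hij
  have h7 : AnalyticAt ℂ (fun l => ∑ i ∈ Finset.range (n + 1), (wp (F l) R).eval (v i) *
      (Lagrange.basis (Finset.range (n + 1)) v i).coeff k) l₀ := by
    refine Finset.analyticAt_fun_sum _ fun i _ => (h4 _ ?_).mul analyticAt_const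
    rw [hv, norm_real, Real.norm_eq_abs, abs_of_pos (by positivity)]
    linarith [Nat.cast_nonneg (α := ℝ) i]
  refine h7.congr ?_
  filter_upwards [h3] with l hl
  have h8 := Lagrange.eq_interpolate (f := wp (F l) R) hvi (by
    rw [Polynomial.degree_eq_natDegree hl.1.ne_zero, hl.2, Finset.card_range]
    exact_mod_cast Nat.lt_succ_self n)
  conv_rhs => rw [h8]
  simp [Lagrange.interpolate_apply]

theorem gcd_alg {A : Type*} [CommRing A] [IsDomain A] [IsIntegrallyClosed A] {P Q : Polynomial A}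
    (hP : P.Monic) (hQ : Q.Monic) : ∃ d B E U V : Polynomial A, ∃ δ : A, d.Monic ∧ B.Monic ∧
      E.Monic ∧ P = d * B ∧ Q = d * E ∧ δ ≠ 0 ∧ U * B + V * E = C δ := by
  classical
  set K := FractionRing A
  set φ := algebraMap A K
  have hφ : Function.Injective φ := IsFractionRing.injective A K
  set g := EuclideanDomain.gcd (P.map φ) (Q.map φ) with hg
  have g1 : g ∣ P.map φ := EuclideanDomain.gcd_dvd_left _ _
  have g2 : g ∣ Q.map φ := EuclideanDomain.gcd_dvd_right _ _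
  have g0 : g ≠ 0 := ne_zero_of_dvd_ne_zero (hP.map φ).ne_zero g1
  have hc : g.leadingCoeff ≠ 0 := Polynomial.leadingCoeff_ne_zero.2 g0
  obtain ⟨d, hd⟩ := IsIntegrallyClosed.eq_map_mul_C_of_dvd K hP g1
  have hdm : (d.map φ).Monic := by
    have := congrArg Polynomial.leadingCoeff hd
    rw [Polynomial.leadingCoeff_mul, Polynomial.leadingCoeff_C] at this
    exact mul_right_cancel₀ hc (this.trans (one_mul _).symm)
  have hdm' : d.Monic := Polynomial.monic_of_injective hφ hdm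
  have hdg : d.map φ ∣ g := ⟨_, hd.symm⟩
  obtain ⟨B, hB⟩ := (Polynomial.map_dvd_map φ hφ hdm').1 (hdg.trans g1)
  obtain ⟨E, hE⟩ := (Polynomial.map_dvd_map φ hφ hdm').1 (hdg.trans g2)
  have h1 := EuclideanDomain.gcd_eq_gcd_ab (P.map φ) (Q.map φ)
  set a := EuclideanDomain.gcdA (P.map φ) (Q.map φ)
  set b := EuclideanDomain.gcdB (P.map φ) (Q.map φ)
  rw [← hg, ← hd, hB, hE, Polynomial.map_mul, Polynomial.map_mul, mul_assoc, mul_assoc,
    ← mul_add] at h1
  have h2 := mul_left_cancel₀ hdm.ne_zero h1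
  obtain ⟨s, hs, hs'⟩ := IsLocalization.integerNormalization_spec (nonZeroDivisors A)
    (a * C g.leadingCoeff⁻¹)
  obtain ⟨t, ht, ht'⟩ := IsLocalization.integerNormalization_spec (nonZeroDivisors A)
    (b * C g.leadingCoeff⁻¹)
  refine ⟨d, B, E, C t * IsLocalization.integerNormalization (nonZeroDivisors A)
    (a * C g.leadingCoeff⁻¹), C s * IsLocalization.integerNormalization (nonZeroDivisors A)
    (b * C g.leadingCoeff⁻¹), s * t, hdm', hdm'.of_mul_monic_left (hB ▸ hP),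
    hdm'.of_mul_monic_left (hE ▸ hQ), hB, hE,
    mul_ne_zero (nonZeroDivisors.ne_zero hs) (nonZeroDivisors.ne_zero ht), ?_⟩
  apply Polynomial.map_injective φ hφ
  have h3 : C g.leadingCoeff * C g.leadingCoeff⁻¹ = 1 := by
    rw [← map_mul, mul_inv_cancel₀ hc, map_one]
  simp only [Polynomial.map_add, Polynomial.map_mul, Polynomial.map_C, map_mul]
  rw [hs', ht', Algebra.smul_def, Algebra.smul_def, Polynomial.algebraMap_apply,
    Polynomial.algebraMap_apply]
  linear_combination (C (φ s) * C (φ t)) * h3 - (C (φ s) * C (φ t) * C g.leadingCoeff⁻¹) * h2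

/-- functions analytic at `l₀` -/
def An (l₀ : ℂ) : Subring (ℂ → ℂ) where
  carrier := {a | AnalyticAt ℂ a l₀}
  mul_mem' := AnalyticAt.mul
  one_mem' := analyticAt_const
  add_mem' := AnalyticAt.add
  zero_mem' := analyticAt_const
  neg_mem' := AnalyticAt.neg

/-- functions vanishing near `l₀` -/
def Zr (l₀ : ℂ) : Ideal (An l₀) where
  carrier := {a | ∀ᶠ l in 𝓝 l₀, a.1 l = 0}
  add_mem' := fun ha hb => by
    filter_upwards [ha, hb] with l h1 h2
    simp [h1, h2]
  zero_mem' := Eventually.of_forall fun _ => rfl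
  smul_mem' := fun c a ha => by
    filter_upwards [ha] with l h1
    simp [h1]

instance (l₀ : ℂ) : (Zr l₀).IsPrime where
  ne_top' := by
    rw [Ideal.ne_top_iff_one]
    intro h
    exact one_ne_zero (Eventually.self_of_nhds (p := fun l => (1 : An l₀).1 l = 0) h)
  mem_or_mem' := by
    intro a b hab
    rcases (show AnalyticAt ℂ a.1 l₀ from a.2).eventually_eq_zero_or_eventually_ne_zero with h | h
    · exact Or.inl h
    · refine Or.inr ((show AnalyticAt ℂ b.1 l₀ from b.2).frequently_zero_iff_eventually_zero.1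
        (Eventually.frequently ?_))
      filter_upwards [h, mem_nhdsWithin_of_mem_nhds hab] with l h1 h2
      exact (mul_eq_zero.1 h2).resolve_left h1

theorem dvd_of_le {l₀ : ℂ} {a b u v : ℂ → ℂ} (ha : AnalyticAt ℂ a l₀) (hb : AnalyticAt ℂ b l₀)
    (hu : AnalyticAt ℂ u l₀) (hv : AnalyticAt ℂ v l₀) (u0 : u l₀ ≠ 0) {m n : ℕ} (h : m ≤ n)
    (h1 : ∀ᶠ l in 𝓝 l₀, a l = (l - l₀) ^ m • u l) (h2 : ∀ᶠ l in 𝓝 l₀, b l = (l - l₀) ^ n • v l) :
    Ideal.Quotient.mk (Zr l₀) ⟨a, ha⟩ ∣ Ideal.Quotient.mk (Zr l₀) ⟨b, hb⟩ := by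
  refine ⟨Ideal.Quotient.mk (Zr l₀) ⟨fun l => (l - l₀) ^ (n - m) * (v l / u l),
    ((analyticAt_id.sub analyticAt_const).pow _).mul (hv.div hu u0)⟩, ?_⟩
  rw [← map_mul, Ideal.Quotient.eq]
  filter_upwards [h1, h2, hu.continuousAt.eventually_ne u0] with l h3 h4 h5
  change b l - a l * ((l - l₀) ^ (n - m) * (v l / u l)) = 0
  obtain ⟨k, rfl⟩ := Nat.exists_eq_add_of_le h
  rw [h3, h4, Nat.add_sub_cancel_left, smul_eq_mul, smul_eq_mul]
  field_simp
  ring

instance (l₀ : ℂ) : ValuationRing (An l₀ ⧸ Zr l₀) := by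
  refine ValuationRing.iff_dvd_total.2 ⟨fun a b => ?_⟩
  obtain ⟨a, rfl⟩ := Ideal.Quotient.mk_surjective a
  obtain ⟨b, rfl⟩ := Ideal.Quotient.mk_surjective b
  by_cases ha : a ∈ Zr l₀
  · exact Or.inr (by rw [Ideal.Quotient.eq_zero_iff_mem.2 ha]; exact dvd_zero _)
  by_cases hb : b ∈ Zr l₀
  · exact Or.inl (by rw [Ideal.Quotient.eq_zero_iff_mem.2 hb]; exact dvd_zero _)
  obtain ⟨m, u, hu, u0, h1⟩ :=
    (show AnalyticAt ℂ a.1 l₀ from a.2).exists_eventuallyEq_pow_smul_nonzero_iff.2 ha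
  obtain ⟨n, v, hv, v0, h2⟩ :=
    (show AnalyticAt ℂ b.1 l₀ from b.2).exists_eventuallyEq_pow_smul_nonzero_iff.2 hb
  rcases le_total m n with h | h
  · exact Or.inl (dvd_of_le a.2 b.2 hu hv u0 h h1 h2)
  · exact Or.inr (dvd_of_le b.2 a.2 hv hu v0 h h2 h1)

/-- evaluation at a parameter -/
def evl (l₀ l : ℂ) : An l₀ →+* ℂ := (Pi.evalRingHom (fun _ => ℂ) l).comp (An l₀).subtype

theorem ev_eq {l₀ : ℂ} {p q : Polynomial (An l₀)}
    (h : p.map (Ideal.Quotient.mk (Zr l₀)) = q.map (Ideal.Quotient.mk (Zr l₀))) :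
    ∀ᶠ l in 𝓝 l₀, p.map (evl l₀ l) = q.map (evl l₀ l) := by
  have h1 : ∀ k, ∀ᶠ l in 𝓝 l₀, ((p - q).coeff k).1 l = 0 := by
    intro k
    have := congrArg (fun r => r.coeff k) h
    simp only [Polynomial.coeff_map] at this
    rw [Ideal.Quotient.eq, ← Polynomial.coeff_sub] at this
    exact this
  filter_upwards [(eventually_all_finset (p - q).support).2 fun k _ => h1 k] with l hl
  rw [← sub_eq_zero, ← Polynomial.map_sub]
  ext k
  rw [Polynomial.coeff_map, Polynomial.coeff_zero]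
  by_cases hk : k ∈ (p - q).support
  · exact hl k hk
  · rw [Polynomial.notMem_support_iff.1 hk, map_zero]

theorem PF.lift {D : ℂ → Polynomial ℂ} {l₀ : ℂ} {n : ℕ} (h : PF D l₀ n) :
    ∃ p : Polynomial (An l₀), p.Monic ∧ ∀ᶠ l in 𝓝 l₀, p.map (evl l₀ l) = D l := by
  refine ⟨Polynomial.X ^ n + ∑ i : Fin n, C (⟨fun l => (D l).coeff i, h.2 i⟩ : An l₀) *
    Polynomial.X ^ (i : ℕ), Polynomial.monic_X_pow_add (Polynomial.degree_sum_fin_lt _), ?_⟩
  filter_upwards [h.1] with l hl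
  conv_rhs => rw [hl.1.as_sum, hl.2, Finset.sum_range]
  simp only [Polynomial.map_add, Polynomial.map_pow, Polynomial.map_X, Polynomial.map_sum,
    Polynomial.map_mul, Polynomial.map_C]
  rfl

theorem pf_of_monic {l₀ : ℂ} {p : Polynomial (An l₀)} (hp : p.Monic) :
    PF (fun l => p.map (evl l₀ l)) l₀ p.natDegree := by
  refine ⟨Eventually.of_forall fun l => ⟨hp.map _, hp.natDegree_map _⟩, fun k => ?_⟩
  simp only [Polynomial.coeff_map]
  exact (p.coeff k).2

/-- generic greatest common divisor of two analytic families of monic polynomials -/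
theorem gcd_fam {P Q : ℂ → Polynomial ℂ} {l₀ : ℂ} {n m : ℕ} (hP : PF P l₀ n) (hQ : PF Q l₀ m) :
    ∃ (d B E : ℂ → Polynomial ℂ) (a b : ℕ), PF d l₀ a ∧ PF B l₀ b ∧
      (∀ᶠ l in 𝓝 l₀, P l = d l * B l ∧ Q l = d l * E l) ∧
      ∀ᶠ l in 𝓝[≠] l₀, ∀ z, (B l).eval z = 0 → (E l).eval z ≠ 0 := by
  obtain ⟨p, hp, hp'⟩ := hP.lift
  obtain ⟨q, hq, hq'⟩ := hQ.lift
  set φ := Ideal.Quotient.mk (Zr l₀)
  have hφ : Function.Surjective φ := Ideal.Quotient.mk_surjective
  obtain ⟨d, B, E, U, V, δ, hd, hB, -, h1, h2, hδ, h3⟩ := gcd_alg (hp.map φ) (hq.map φ)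
  obtain ⟨d, rfl, -, hd'⟩ := Polynomial.lifts_and_natDegree_eq_and_monic
    ((Polynomial.mem_lifts _).2 (Polynomial.map_surjective φ hφ d)) hd
  obtain ⟨B, rfl, -, hB'⟩ := Polynomial.lifts_and_natDegree_eq_and_monic
    ((Polynomial.mem_lifts _).2 (Polynomial.map_surjective φ hφ B)) hB
  obtain ⟨E, rfl⟩ := Polynomial.map_surjective φ hφ E
  obtain ⟨U, rfl⟩ := Polynomial.map_surjective φ hφ U
  obtain ⟨V, rfl⟩ := Polynomial.map_surjective φ hφ V
  obtain ⟨δ, rfl⟩ := hφ δ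
  rw [← Polynomial.map_mul] at h1 h2
  rw [← Polynomial.map_mul, ← Polynomial.map_mul, ← Polynomial.map_add, ← Polynomial.map_C] at h3
  refine ⟨_, _, fun l => E.map (evl l₀ l), _, _, pf_of_monic hd', pf_of_monic hB', ?_, ?_⟩
  · filter_upwards [hp', hq', ev_eq h1, ev_eq h2] with l h4 h5 h6 h7
    rw [← h4, ← h5, h6, h7, Polynomial.map_mul, Polynomial.map_mul]
    exact ⟨rfl, rfl⟩
  · have hδa : AnalyticAt ℂ δ.1 l₀ := δ.2
    have h8 := hδa.eventually_eq_zero_or_eventually_ne_zero.resolve_left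
      fun h => hδ (Ideal.Quotient.eq_zero_iff_mem.2 h)
    filter_upwards [h8, mem_nhdsWithin_of_mem_nhds (ev_eq h3)] with l h4 h5 z h6 h7
    have := congrArg (Polynomial.eval z) h5
    simp only [Polynomial.map_add, Polynomial.map_mul, Polynomial.map_C, Polynomial.eval_add,
      Polynomial.eval_mul, Polynomial.eval_C, h6, h7, mul_zero, add_zero] at this
    exact h4 this.symm

end Pool.Agent.MP_f27d50_gt.GenAux
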