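import Pool.Agent.MP_f27d50_gt.Defs

set_option autoImplicit false

open MeasureTheory Set Filter Topology Complex
open scoped ENNReal Pointwise ComplexConjugate

noncomputable section

namespace Pool.Agent.MP_f27d50_gt

namespace GeomAux

instance haarX : (volume : Measure X).IsAddHaarMeasure := Measure.prod.instIsAddHaarMeasure _ _

theorem dot_neg_right (η : V) (x : X) : dot η (-x) = -dot η x := by
  simp only [dot, Prod.fst_neg, Prod.snd_neg, neg_re, neg_im]; ring

theorem dot_neg_left (η : V) (x : X) : dot (-η) x = -dot η x := by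
  simp only [dot, Pi.neg_apply]; ring

theorem dot_add_left (η η' : V) (x : X) : dot (η + η') x = dot η x + dot η' x := by
  simp only [dot, Pi.add_apply]; ring

theorem dot_smul_left (t : ℝ) (η : V) (x : X) : dot (t • η) x = t * dot η x := by
  simp only [dot, Pi.smul_apply, smul_eq_mul]; ring

theorem dot_add_right (η : V) (x y : X) : dot η (x + y) = dot η x + dot η y := by
  simp only [dot, Prod.fst_add, Prod.snd_add, add_re, add_im]; ring

theorem dot_sub_right (η : V) (x y : X) : dot η (x - y) = dot η x - dot η y := by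
  simp only [dot, Prod.fst_sub, Prod.snd_sub, sub_re, sub_im]; ring

theorem dot_smul_right (t : ℝ) (η : V) (x : X) : dot η (t • x) = t * dot η x := by
  simp only [dot, Prod.smul_fst, Prod.smul_snd, smul_re, smul_im, smul_eq_mul]; ring

theorem dot_zero_right (η : V) : dot η 0 = 0 := by simp [dot]

theorem dot_zero_left (x : X) : dot 0 x = 0 := by simp [dot]

theorem continuous_dot2 : Continuous (fun q : V × X => dot q.1 q.2) := by
  unfold dot; fun_prop

theorem continuous_dot (η : V) : Continuous (dot η) := by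
  unfold dot; fun_prop

theorem abs_dot_le (η : V) (x : X) : |dot η x| ≤ 3 * ‖η‖ * ‖x‖ := by
  have h0 : |η 0| ≤ ‖η‖ := by simpa using norm_le_pi_norm η 0
  have h1 : |η 1| ≤ ‖η‖ := by simpa using norm_le_pi_norm η 1
  have h2 : |η 2| ≤ ‖η‖ := by simpa using norm_le_pi_norm η 2
  have a0 : |x.1.re| ≤ ‖x‖ := (abs_re_le_norm _).trans (norm_fst_le x)
  have a1 : |x.1.im| ≤ ‖x‖ := (abs_im_le_norm _).trans (norm_fst_le x)
  have a2 : |x.2| ≤ ‖x‖ := by simpa using norm_snd_le x
  have b0 := mul_le_mul h0 a0 (abs_nonneg _) (norm_nonneg _)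
  have b1 := mul_le_mul h1 a1 (abs_nonneg _) (norm_nonneg _)
  have b2 := mul_le_mul h2 a2 (abs_nonneg _) (norm_nonneg _)
  rw [← abs_mul] at b0 b1 b2
  have := abs_add_three (η 0 * x.1.re) (η 1 * x.1.im) (η 2 * x.2)
  unfold dot
  linarith

theorem dot_nv (p : ℂ) (y : ℂ) (z : ℝ) : dot (nv p) (y, z) = z - inner ℝ p y := by
  simp [dot, nv, Complex.inner]; ring

theorem continuous_nv : Continuous nv := by
  unfold nv
  refine continuous_pi fun i => ?_
  fin_cases i <;> simp <;> fun_prop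

theorem fiber_compact {K : Set X} (h : IsCompact K) (y : ℂ) : IsCompact {z : ℝ | (y, z) ∈ K} := by
  have h1 : IsClosed {z : ℝ | (y, z) ∈ K} := h.isClosed.preimage (by fun_prop)
  refine (h.image continuous_snd).of_isClosed_subset h1 ?_
  intro z hz
  exact ⟨(y, z), hz, rfl⟩

theorem fiber_convex {K : Set X} (h : Convex ℝ K) (y : ℂ) : Convex ℝ {z : ℝ | (y, z) ∈ K} := by
  intro a ha b hb s t hs ht hst
  have := h ha hb hs ht hst
  simp only [Prod.smul_mk, Prod.mk_add_mk, ← add_smul, hst, one_smul] at this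
  exact this

theorem uK_eq {K : Set X} {y : ℂ} (hy : y ∈ Om K) : uK K y = -sSup {z : ℝ | (y, z) ∈ K} := by
  unfold uK; rw [indicator_of_mem hy]

theorem le_top {K : Set X} (h : IsCompact K) {y : ℂ} (hy : y ∈ Om K) {z : ℝ} (hz : (y, z) ∈ K) :
    z ≤ -uK K y := by
  rw [uK_eq hy, neg_neg]
  exact le_csSup (fiber_compact h y).bddAbove hz

theorem convex_proj {K : Set X} (h : Convex ℝ K) : Convex ℝ (Prod.fst '' K) :=
  h.linear_image (LinearMap.fst ℝ ℂ ℝ)

theorem convex_Om {K : Set X} (h : Convex ℝ K) : Convex ℝ (Om K) := (convex_proj h).interior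

theorem fst_mem_Om {K : Set X} {x : X} (hx : x ∈ interior K) : x.1 ∈ Om K :=
  isOpenMap_fst.image_interior_subset K ⟨x, hx, rfl⟩

theorem continuous_hs {K : Set X} (h : IsCompact K) : Continuous (hs K) :=
  h.continuous_sSup (f := fun η x => dot η x) continuous_dot2

end GeomAux

open GeomAux

theorem Body.neg {K : Set X} (h : Body K) : Body (-K) := by
  refine ⟨h.cpt.neg, h.cvx.neg, ?_⟩
  have h1 : (Homeomorph.neg X) ⁻¹' interior K = interior (-K) :=
    (Homeomorph.neg X).preimage_interior K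
  rw [← h1]
  simpa using h.zero

theorem hs_neg (K : Set X) (η : V) : hs (-K) η = hs K (-η) := by
  unfold hs
  congr 1
  ext r
  constructor
  · rintro ⟨x, hx, rfl⟩
    exact ⟨-x, hx, by rw [dot_neg_left, dot_neg_right, neg_neg]⟩
  · rintro ⟨x, hx, rfl⟩
    exact ⟨-x, by simpa using hx, by rw [dot_neg_left, dot_neg_right]⟩

theorem FT_neg (K : Set X) (ζ : W) : FT (-K) ζ = FT K (-ζ) := by
  have h := (Measure.measurePreserving_neg (volume : Measure X)).setIntegral_preimage_emb
    (MeasurableEquiv.neg X).measurableEmbedding (fun x => Complex.exp (I * cdot (-ζ) x)) K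
  unfold FT
  rw [← h]
  have : ∀ x : X, cdot (-ζ) (-x) = cdot ζ x := by
    intro x; simp [cdot]
  simp only [this]
  rfl

theorem Om_neg (K : Set X) : Om (-K) = -Om K := by
  have h1 : (Homeomorph.neg ℂ) ⁻¹' interior (Prod.fst '' K) = interior (-(Prod.fst '' K)) :=
    (Homeomorph.neg ℂ).preimage_interior _
  have h2 : Prod.fst '' (-K) = -(Prod.fst '' K) := by
    ext y
    constructor
    · rintro ⟨x, hx, rfl⟩
      exact ⟨-x, hx, rfl⟩
    · rintro ⟨x, hx, hy⟩
      exact ⟨-x, by simpa using hx, by simp [hy]⟩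
  unfold Om
  rw [h2, ← h1]
  rfl

theorem le_hs {K : Set X} (h : IsCompact K) {x : X} (hx : x ∈ K) (η : V) : dot η x ≤ hs K η :=
  le_csSup (h.image (continuous_dot η)).bddAbove ⟨x, hx, rfl⟩

theorem exists_hs {K : Set X} (h : IsCompact K) (hn : K.Nonempty) (η : V) :
    ∃ x ∈ K, dot η x = hs K η :=
  (h.image (continuous_dot η)).sSup_mem (hn.image _)

theorem wd_pos {K : Set X} (h : Body K) : ∃ c > 0, ∀ η, c * ‖η‖ ≤ hs K η := by
  obtain ⟨r, hr, hb⟩ := Metric.mem_nhds_iff.1 (mem_interior_iff_mem_nhds.1 h.zero)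
  refine ⟨r / 4, by positivity, fun η => ?_⟩
  rcases eq_or_ne η 0 with rfl | hη
  · have := le_hs h.cpt (interior_subset h.zero) 0
    simpa [dot_zero_left] using this
  have hn : 0 < ‖η‖ := norm_pos_iff.2 hη
  have h0 : |η 0| ≤ ‖η‖ := by simpa using norm_le_pi_norm η 0
  have h1 : |η 1| ≤ ‖η‖ := by simpa using norm_le_pi_norm η 1
  have h2 : |η 2| ≤ ‖η‖ := by simpa using norm_le_pi_norm η 2
  set x₀ : X := (⟨η 0, η 1⟩, η 2) with hx₀
  have hx₀n : ‖x₀‖ ≤ 2 * ‖η‖ := by
    rw [Prod.norm_def, max_le_iff]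
    constructor
    · have := norm_le_abs_re_add_abs_im (⟨η 0, η 1⟩ : ℂ)
      simp only at this ⊢
      linarith
    · simp only [Real.norm_eq_abs]; linarith
  have hsq : ‖η‖ ^ 2 ≤ dot η x₀ := by
    have hd : dot η x₀ = η 0 ^ 2 + η 1 ^ 2 + η 2 ^ 2 := by simp [dot, hx₀]; ring
    have : ‖η‖ ≤ √(η 0 ^ 2 + η 1 ^ 2 + η 2 ^ 2) := by
      rw [pi_norm_le_iff_of_nonneg (Real.sqrt_nonneg _)]
      intro i
      rw [Real.norm_eq_abs]
      apply Real.abs_le_sqrt
      fin_cases i <;> simp <;> nlinarith [sq_nonneg (η 0), sq_nonneg (η 1), sq_nonneg (η 2)]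
    rw [hd]
    calc ‖η‖ ^ 2 ≤ √(η 0 ^ 2 + η 1 ^ 2 + η 2 ^ 2) ^ 2 := by gcongr
      _ = _ := Real.sq_sqrt (by positivity)
  have hmem : (r / 4 / ‖η‖) • x₀ ∈ K := by
    apply hb
    rw [mem_ball_zero_iff, norm_smul, Real.norm_eq_abs, abs_of_pos (by positivity)]
    calc r / 4 / ‖η‖ * ‖x₀‖ ≤ r / 4 / ‖η‖ * (2 * ‖η‖) := by gcongr
      _ = r / 2 := by field_simp; ring
      _ < r := by linarith
  have := le_hs h.cpt hmem η
  rw [dot_smul_right] at this
  calc r / 4 * ‖η‖ = r / 4 / ‖η‖ * ‖η‖ ^ 2 := by field_simp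
    _ ≤ r / 4 / ‖η‖ * dot η x₀ := by gcongr
    _ ≤ _ := this

theorem mem_top {K : Set X} (h : Body K) {y : ℂ} (hy : y ∈ Om K) : (y, -uK K y) ∈ K := by
  rw [uK_eq hy, neg_neg]
  obtain ⟨x, hx, rfl⟩ := interior_subset hy
  exact (fiber_compact h.cpt x.1).sSup_mem ⟨x.2, hx⟩

theorem mem_iff_fiber {K : Set X} (h : Body K) {y : ℂ} (hy : y ∈ Om K) (z : ℝ) :
    (y, z) ∈ K ↔ uK (-K) (-y) ≤ z ∧ z ≤ -uK K y := by
  have hy' : -y ∈ Om (-K) := by rw [Om_neg]; simpa using hy
  constructor
  · intro hz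
    refine ⟨?_, le_top h.cpt hy hz⟩
    have : (-y, -z) ∈ -K := by simpa using hz
    have := le_top h.neg.cpt hy' this
    linarith
  · rintro ⟨h1, h2⟩
    have a1 : (y, uK (-K) (-y)) ∈ K := by simpa using mem_top h.neg hy'
    have a2 := mem_top h hy
    exact (fiber_convex h.cvx y).ordConnected.out a1 a2 ⟨h1, h2⟩

namespace GeomAux

theorem psi_eq (K : Set X) (p y : ℂ) :
    psi (uK K) (mK K) p y = hs K (nv p) - dot (nv p) (y, -uK K y) := by
  rw [dot_nv]; unfold psi mK; ring

theorem convexOn_uK {K : Set X} (h : Body K) : ConvexOn ℝ (Om K) (uK K) := by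
  refine ⟨convex_Om h.cvx, fun x hx y hy a b ha hb hab => ?_⟩
  have h1 := h.cvx (mem_top h hx) (mem_top h hy) ha hb hab
  simp only [Prod.smul_mk, Prod.mk_add_mk] at h1
  have h2 := le_top h.cpt (convex_Om h.cvx hx hy ha hb hab) h1
  simp only [smul_eq_mul] at h2 ⊢
  linarith

theorem continuousOn_uK {K : Set X} (h : Body K) : ContinuousOn (uK K) (Om K) :=
  (convexOn_uK h).continuousOn isOpen_interior

theorem measurable_uK {K : Set X} (h : Body K) : Measurable (uK K) := by
  classical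
  have : uK K = (Om K).piecewise (uK K) (fun _ => 0) := by
    ext y
    by_cases hy : y ∈ Om K
    · rw [piecewise_eq_of_mem _ _ _ hy]
    · rw [piecewise_eq_of_notMem _ _ _ hy]; unfold uK; rw [indicator_of_notMem hy]
  rw [this]
  exact (continuousOn_uK h).measurable_piecewise continuousOn_const
    (isOpen_interior : IsOpen (Om K)).measurableSet

theorem isBounded_Om {K : Set X} (h : IsCompact K) : Bornology.IsBounded (Om K) :=
  (h.image continuous_fst).isBounded.subset interior_subset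

end GeomAux

theorem cap_body {K : Set X} (h : Body K) : Cap (Om K) (uK K) (mK K) := by
  refine ⟨isOpen_interior, convexOn_uK h, isBounded_Om h.cpt, measurable_uK h, ?_, ?_, ?_, ?_⟩
  · obtain ⟨B, hB⟩ := h.cpt.isBounded.exists_norm_le
    refine ⟨B, fun y hy => ?_⟩
    have := (norm_snd_le _).trans (hB _ (mem_top h hy))
    simpa using this
  · exact ((continuous_hs h.cpt).comp continuous_nv).neg
  · intro p y hy
    rw [psi_eq]
    have := le_hs h.cpt (mem_top h hy) (nv p)
    linarith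
  · intro p ε hε
    obtain ⟨x, hx, hxe⟩ := exists_hs h.cpt ⟨0, interior_subset h.zero⟩ (nv p)
    have h0 : 0 ≤ hs K (nv p) := by
      have := le_hs h.cpt (interior_subset h.zero) (nv p)
      rwa [dot_zero_right] at this
    set H := hs K (nv p) with hH
    set t : ℝ := ε / (H + ε) with ht
    have ht0 : 0 < t := by positivity
    have ht1 : t ≤ 1 := by rw [ht, div_le_one (by positivity)]; linarith
    have hint : t • (0 : X) + (1 - t) • x ∈ interior K :=
      h.cvx.combo_interior_self_mem_interior h.zero hx ht0 (by linarith) (by ring)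
    rw [smul_zero, zero_add] at hint
    have hy := fst_mem_Om hint
    refine ⟨_, hy, ?_⟩
    have h1 := le_top h.cpt hy (z := ((1 - t) • x).2) (interior_subset hint)
    have h2 : dot (nv p) ((1 - t) • x) = (1 - t) * H := by rw [dot_smul_right, hxe]
    have h3 := dot_nv p ((1 - t) • x).1 ((1 - t) • x).2
    rw [psi_eq, dot_nv]
    have h4 : t * H < ε := by
      rw [ht, div_mul_eq_mul_div, div_lt_iff₀ (by positivity)]
      nlinarith
    rw [Prod.mk.eta] at h3
    linarith

theorem psi_le_wd {K : Set X} (h : Body K) (p : ℂ) {y : ℂ} (hy : y ∈ Om K) :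
    psi (uK K) (mK K) p y ≤ wd K (nv p) := by
  rw [psi_eq]
  have := le_hs h.cpt (mem_top h hy) (-nv p)
  rw [dot_neg_left] at this
  unfold wd
  linarith

end Pool.Agent.MP_f27d50_gt
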