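import Pool.Agent.MP_f27d50_gt.Geom1

set_option autoImplicit false

open MeasureTheory Set Filter Topology Complex
open scoped ENNReal Pointwise ComplexConjugate

noncomputable section

namespace Pool.Agent.MP_f27d50_gt

namespace GeomAux

/-- the linear functional `ζ ↦ I * cdot ζ x` -/
def LL (x : X) : W →L[ℂ] ℂ :=
  (I * x.1.re) • ContinuousLinearMap.proj 0 + (I * x.1.im) • ContinuousLinearMap.proj 1 +
    (I * x.2) • ContinuousLinearMap.proj 2

theorem LL_apply (x : X) (ζ : W) : LL x ζ = I * cdot ζ x := by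
  simp [LL, cdot]; ring

theorem continuous_LL : Continuous LL := by
  unfold LL; fun_prop

theorem continuous_cdot (ζ : W) : Continuous (cdot ζ) := by
  unfold cdot; fun_prop

theorem continuous_ex (ζ : W) : Continuous (fun x : X => Complex.exp (I * cdot ζ x)) := by
  have := continuous_cdot ζ
  fun_prop

theorem cdot_cx (ξ η : V) (x : X) : cdot (cx ξ η) x = dot ξ x + I * dot η x := by
  simp [cdot, cx, dot]; ring

theorem cdot_smul (z : ℂ) (ζ : W) (x : X) : cdot (z • ζ) x = z * cdot ζ x := by
  simp [cdot]; ring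

theorem cdot_sub_right (ζ : W) (x y : X) : cdot ζ (x - y) = cdot ζ x - cdot ζ y := by
  simp [cdot]; ring

theorem cdot_neg_left (ζ : W) (x : X) : cdot (-ζ) x = -cdot ζ x := by
  simp [cdot]; ring

theorem norm_ex (ξ η : V) (x : X) :
    ‖Complex.exp (I * cdot (cx ξ η) x)‖ = Real.exp (-dot η x) := by
  rw [Complex.norm_exp, cdot_cx]; simp

theorem differentiable_FT {K : Set X} (h : IsCompact K) : Differentiable ℂ (FT K) := by
  intro ζ₀
  have hc := continuous_LL
  have key := hasFDerivAt_integral_of_dominated_of_fderiv_le (𝕜 := ℂ)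
    (μ := (volume : Measure X).restrict K)
    (F := fun ζ x => Complex.exp (LL x ζ)) (F' := fun ζ x => Complex.exp (LL x ζ) • LL x)
    (x₀ := ζ₀) (s := Metric.ball ζ₀ 1)
    (bound := fun x => Real.exp (‖LL x‖ * (‖ζ₀‖ + 1)) * ‖LL x‖) (Metric.ball_mem_nhds _ one_pos)
    (Eventually.of_forall fun ζ => Continuous.aestronglyMeasurable (by fun_prop))
    (ContinuousOn.integrableOn_compact h (Continuous.continuousOn (by fun_prop)))
    (Continuous.aestronglyMeasurable (by fun_prop))
    (Eventually.of_forall fun x ζ hζ => ?_)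
    (ContinuousOn.integrableOn_compact h (Continuous.continuousOn (by fun_prop)))
    (Eventually.of_forall fun x ζ _ => ((LL x).hasFDerivAt).cexp)
  · have e : FT K = fun ζ => ∫ x in K, Complex.exp (LL x ζ) := by
      ext ζ; simp only [FT, LL_apply]
    rw [e]
    exact key.differentiableAt
  · rw [norm_smul]
    gcongr
    refine (Complex.norm_exp_le_exp_norm _).trans ?_
    gcongr
    refine ((LL x).le_opNorm ζ).trans ?_
    gcongr
    have := mem_ball_iff_norm.1 hζ
    have h2 := norm_le_norm_add_norm_sub' ζ ζ₀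
    linarith

theorem FT_zero (K : Set X) : FT K 0 = ((volume : Measure X).real K : ℂ) := by
  simp [FT, cdot]

theorem norm_FT_zero (K : Set X) : ‖FT K 0‖ = (volume : Measure X).real K := by
  rw [FT_zero, Complex.norm_real, Real.norm_eq_abs, abs_of_nonneg measureReal_nonneg]

theorem vol_pos {K : Set X} (h : Body K) : 0 < (volume : Measure X).real K :=
  ENNReal.toReal_pos (Measure.measure_pos_of_nonempty_interior _ ⟨0, h.zero⟩).ne'
    h.cpt.measure_lt_top.ne

theorem hs_nonneg {K : Set X} (h : Body K) (η : V) : 0 ≤ hs K η := by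
  have := le_hs h.cpt (interior_subset h.zero) η
  rwa [dot_zero_right] at this

theorem FT_lb {K : Set X} (h : Body K) {ε : ℝ} (hε : 0 < ε) (A : ℝ) :
    ∃ c₀ > 0, ∀ η : V, ‖η‖ ≤ A → ∀ y : ℝ, 0 ≤ y →
      c₀ * ‖FT K 0‖ * Real.exp ((hs K η - ε) * y) ≤ ‖FT K (cx 0 (-(y • η)))‖ := by
  obtain ⟨R, hR0, hR⟩ := h.cpt.isBounded.exists_pos_norm_le
  set B := 6 * |A| * R with hB
  have hB0 : 0 ≤ B := by positivity
  set t : ℝ := ε / (B + ε) with ht
  have ht0 : 0 < t := by positivity
  have ht1 : t ≤ 1 := by rw [ht, div_le_one (by positivity)]; linarith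
  have htB : t * B ≤ ε := by
    rw [ht, div_mul_eq_mul_div, div_le_iff₀ (by positivity)]
    nlinarith
  refine ⟨t ^ Module.finrank ℝ X, by positivity, fun η hη y hy => ?_⟩
  obtain ⟨x₀, hx₀, hxe⟩ := exists_hs h.cpt ⟨0, interior_subset h.zero⟩ η
  set K' := AffineMap.homothety x₀ t '' K with hK'
  have hK'c : IsCompact K' := h.cpt.image (AffineMap.homothety x₀ t).continuous_of_finiteDimensional
  have hsub : K' ⊆ K := by
    rintro _ ⟨k, hk, rfl⟩
    have := h.cvx.add_smul_sub_mem hx₀ hk ⟨ht0.le, ht1⟩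
    rwa [AffineMap.homothety_apply, vsub_eq_sub, vadd_eq_add, add_comm]
  have hvol : (volume : Measure X).real K' = t ^ Module.finrank ℝ X * ‖FT K 0‖ := by
    rw [norm_FT_zero, measureReal_def, hK', Measure.addHaar_image_homothety, ENNReal.toReal_mul,
      ENNReal.toReal_ofReal (abs_nonneg _), abs_of_pos (by positivity), measureReal_def]
  have hcont : Continuous (fun x : X => Real.exp (y * dot η x)) := by
    have := continuous_dot η
    fun_prop
  have hF : FT K (cx 0 (-(y • η))) = ((∫ x in K, Real.exp (y * dot η x) : ℝ) : ℂ) := by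
    rw [← integral_complex_ofReal]
    unfold FT
    congr 1
    ext x
    rw [cdot_cx, dot_zero_left, dot_neg_left, dot_smul_left]
    rw [ofReal_exp]
    congr 1
    push_cast
    linear_combination (-(y * dot η x : ℂ)) * I_mul_I
  have hlow : ∀ x ∈ K', Real.exp ((hs K η - ε) * y) ≤ Real.exp (y * dot η x) := by
    rintro _ ⟨k, hk, rfl⟩
    rw [AffineMap.homothety_apply, vsub_eq_sub, vadd_eq_add, dot_add_right, dot_smul_right, hxe,
      mul_comm]
    gcongr
    have h1 := abs_dot_le η (k - x₀)
    have h2 : ‖k - x₀‖ ≤ 2 * R := by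
      have := norm_sub_le k x₀
      have := hR k hk
      have := hR x₀ hx₀
      linarith
    have h3 : 3 * ‖η‖ * ‖k - x₀‖ ≤ 3 * |A| * (2 * R) := by
      have := hη.trans (le_abs_self A)
      gcongr
    have h4 : -B ≤ dot η (k - x₀) := by
      have := neg_abs_le (dot η (k - x₀))
      linarith
    nlinarith
  rw [hF, Complex.norm_real, Real.norm_eq_abs, ← hvol, mul_comm]
  refine le_trans ?_ (le_abs_self _)
  refine (setIntegral_ge_of_const_le_real hK'c.measurableSet hK'c.measure_lt_top.ne hlow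
    (hcont.continuousOn.integrableOn_compact hK'c)).trans ?_
  exact setIntegral_mono_set (hcont.continuousOn.integrableOn_compact h.cpt)
    (Eventually.of_forall fun x => (Real.exp_pos _).le) hsub.eventuallyLE

theorem order_conj {f : ℂ → ℂ} (hf : Differentiable ℂ f) (hc : ∀ w, f (-conj w) = conj (f w))
    (z : ℂ) : analyticOrderAt f z ≤ analyticOrderAt f (-conj z) := by
  refine ENat.forall_natCast_le_iff_le.1 fun n hn => ?_
  rw [natCast_le_analyticOrderAt (hf.analyticAt _)] at hn ⊢
  obtain ⟨g, hg, he⟩ := hn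
  have hcont : Tendsto (fun w : ℂ => -conj w) (𝓝 (-conj z)) (𝓝 z) := by
    have : Continuous (fun w : ℂ => -conj w) := by fun_prop
    simpa using this.tendsto (-conj z)
  refine ⟨fun w => (-1) ^ n * conj (g (-conj w)), ?_, ?_⟩
  · refine analyticAt_const.mul ?_
    rw [analyticAt_iff_eventually_differentiableAt] at hg ⊢
    filter_upwards [hcont.eventually hg] with w hw
    have h1 : DifferentiableAt ℂ (conj ∘ (fun v => g (-v)) ∘ conj) w := by
      rw [differentiableAt_conj_conj_iff]
      exact hw.comp (conj w) differentiableAt_id.neg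
    exact h1
  · filter_upwards [hcont.eventually he] with w hw
    have h1 := hc (-conj w)
    simp only [map_neg, conj_conj, neg_neg] at h1
    rw [h1, hw]
    simp only [smul_eq_mul, map_mul, map_pow, map_sub, map_neg, conj_conj]
    rw [← mul_assoc, ← mul_pow]
    congr 2
    ring

theorem differentiable_ln {F : W → ℂ} (hF : Differentiable ℂ F) (ζ : W) :
    Differentiable ℂ (ln F ζ) := by
  unfold ln
  fun_prop

theorem FT_conj (K : Set X) (η : V) (w : ℂ) :
    FT K ((-conj w) • cx η 0) = conj (FT K (w • cx η 0)) := by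
  unfold FT
  rw [← integral_conj]
  congr 1
  ext x
  rw [← Complex.exp_conj, cdot_smul, cdot_smul, cdot_cx, dot_zero_left]
  simp

end GeomAux

open GeomAux

theorem fam_body {K : Set X} (h : Body K) : Fam (FT K) (hs K) := by
  have hne : K.Nonempty := ⟨0, interior_subset h.zero⟩
  refine ⟨differentiable_FT h.cpt, ?_, ?_, fun ε hε A => FT_lb h hε A, hs_nonneg h, ?_, ?_, ?_⟩
  · rw [← norm_ne_zero_iff, norm_FT_zero]
    exact (vol_pos h).ne'
  · intro ξ η
    rw [norm_FT_zero, mul_comm]
    refine norm_setIntegral_le_of_norm_le_const h.cpt.measure_lt_top fun x hx => ?_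
    rw [norm_ex, ← dot_neg_left]
    exact Real.exp_le_exp.2 (le_hs h.cpt hx _)
  · intro t ht η
    apply le_antisymm
    · obtain ⟨x, hx, he⟩ := exists_hs h.cpt hne (t • η)
      rw [← he, dot_smul_left]
      exact mul_le_mul_of_nonneg_left (le_hs h.cpt hx η) ht
    · obtain ⟨x, hx, he⟩ := exists_hs h.cpt hne η
      rw [← he, ← dot_smul_left]
      exact le_hs h.cpt hx _
  · intro η η'
    obtain ⟨x, hx, he⟩ := exists_hs h.cpt hne (η + η')
    rw [← he, dot_add_left]
    exact add_le_add (le_hs h.cpt hx η) (le_hs h.cpt hx η')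
  · obtain ⟨R, hR0, hR⟩ := h.cpt.isBounded.exists_pos_norm_le
    refine ⟨3 * R, fun η => ?_⟩
    obtain ⟨x, hx, he⟩ := exists_hs h.cpt hne η
    rw [← he]
    have h1 := (le_abs_self _).trans (abs_dot_le η x)
    have h2 : 3 * ‖η‖ * ‖x‖ ≤ 3 * ‖η‖ * R := by
      have := hR x hx
      gcongr
    linarith

theorem ord_conj (K : Set X) (h : Body K) (η : V) (z : ℂ) :
    ord (ln (FT K) (cx η 0)) (-conj z) = ord (ln (FT K) (cx η 0)) z := by
  have hd := differentiable_ln (differentiable_FT h.cpt) (cx η 0)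
  have h1 := order_conj hd (FT_conj K η) z
  have h2 := order_conj hd (FT_conj K η) (-conj z)
  simp only [map_neg, conj_conj, neg_neg] at h2
  unfold ord analyticOrderNatAt
  rw [le_antisymm h1 h2]

theorem ord_neg (K : Set X) (h : Body K) (ζ : W) (z : ℂ) :
    ord (ln (FT (-K)) ζ) z = ord (ln (FT K) ζ) (-z) := by
  have _h := h
  have e : ln (FT (-K)) ζ = ln (FT K) ζ ∘ (fun w : ℂ => -w) := by
    ext w
    simp only [ln, FT_neg, Function.comp, neg_smul]
  unfold ord analyticOrderNatAt
  rw [e, analyticOrderAt_comp_of_deriv_ne_zero (by fun_prop) (by simp)]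

theorem norm_FT_neg (K : Set X) (ξ : V) : ‖FT (-K) (cx ξ 0)‖ = ‖FT K (cx ξ 0)‖ := by
  have := FT_conj K ξ 1
  simp only [map_one, neg_smul, one_smul] at this
  rw [FT_neg, this, Complex.norm_conj]

end Pool.Agent.MP_f27d50_gt
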