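import Pool.Agent.MP_f27d50_gt.Geom2

set_option autoImplicit false

open MeasureTheory Set Filter Topology Complex
open scoped ENNReal Pointwise ComplexConjugate

noncomputable section

namespace Pool.Agent.MP_f27d50_gt

namespace GeomAux

theorem neg_mem_Om {K : Set X} {y : ℂ} (hy : y ∈ Om K) : -y ∈ Om (-K) := by
  rw [Om_neg]; simpa using hy

theorem bot_le_top {K : Set X} (h : Body K) {y : ℂ} (hy : y ∈ Om K) :
    uK (-K) (-y) ≤ -uK K y := ((mem_iff_fiber h hy _).1 (mem_top h hy)).1

/-- Fubini along vertical lines -/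
theorem setIntegral_fibers {K : Set X} (h : Body K) {f : X → ℂ} (hf : Continuous f) :
    ∫ x in K, f x = ∫ y in Om K, ∫ z in uK (-K) (-y)..(-uK K y), f (y, z) := by
  have hm : MeasurableSet K := h.cpt.measurableSet
  have hi : Integrable (K.indicator f) ((volume : Measure ℂ).prod (volume : Measure ℝ)) :=
    (integrable_indicator_iff hm).2 (hf.continuousOn.integrableOn_compact h.cpt)
  have hO : MeasurableSet (Om K) := (isOpen_interior : IsOpen (Om K)).measurableSet
  rw [← integral_indicator hm, ← integral_indicator hO, Measure.volume_eq_prod, integral_prod _ hi]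
  apply integral_congr_ae
  have hnull : (volume : Measure ℂ) (frontier (Prod.fst '' K)) = 0 :=
    (convex_proj h.cvx).addHaar_frontier _
  filter_upwards [compl_mem_ae_iff.2 hnull] with y hy
  by_cases hyO : y ∈ Om K
  · rw [indicator_of_mem hyO, intervalIntegral.integral_of_le (bot_le_top h hyO),
      ← integral_Icc_eq_integral_Ioc, ← integral_indicator measurableSet_Icc]
    congr 1
    ext z
    by_cases hz : (y, z) ∈ K
    · rw [indicator_of_mem hz, indicator_of_mem (mem_Icc.2 ((mem_iff_fiber h hyO z).1 hz))]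
    · rw [indicator_of_notMem hz, indicator_of_notMem]
      exact fun hz' => hz ((mem_iff_fiber h hyO z).2 (mem_Icc.1 hz'))
  · rw [indicator_of_notMem hyO]
    have : ∀ z, K.indicator f (y, z) = 0 := fun z => indicator_of_notMem
      (fun hz => hy ⟨subset_closure ⟨(y, z), hz, rfl⟩, hyO⟩) _
    simp [this]

theorem integral_ex (τ : ℂ) (a b c : ℝ) :
    I * τ * ∫ z in a..b, Complex.exp (I * (τ * ((z - c : ℝ) : ℂ))) =
      Complex.exp (I * (τ * ((b - c : ℝ) : ℂ))) - Complex.exp (I * (τ * ((a - c : ℝ) : ℂ))) := by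
  rw [← intervalIntegral.integral_const_mul]
  refine intervalIntegral.integral_eq_sub_of_hasDerivAt
    (f := fun z : ℝ => Complex.exp (I * (τ * ((z - c : ℝ) : ℂ)))) (fun z _ => ?_)
    (Continuous.intervalIntegrable (by fun_prop) _ _)
  have h1 : HasDerivAt (fun z : ℝ => ((z - c : ℝ) : ℂ)) 1 z := by
    simpa using ((hasDerivAt_id z).sub_const c).ofReal_comp
  have h2 := ((h1.const_mul τ).const_mul I).cexp
  rw [mul_one, mul_comm] at h2
  exact h2

theorem integrableOn_amp {K : Set X} (h : Body K) (p τ : ℂ) :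
    IntegrableOn (fun y => Complex.exp (-(I * τ * (psi (uK K) (mK K) p y : ℂ)))) (Om K) := by
  have hO : MeasurableSet (Om K) := (isOpen_interior : IsOpen (Om K)).measurableSet
  have hm : Measurable (fun y => psi (uK K) (mK K) p y) := by
    have := measurable_uK h
    unfold psi
    fun_prop
  refine Measure.integrableOn_of_bounded (M := Real.exp (‖τ‖ * wd K (nv p)))
    (isBounded_Om h.cpt).measure_lt_top.ne (Measurable.aestronglyMeasurable (by fun_prop)) ?_
  rw [ae_restrict_iff' hO]
  refine Eventually.of_forall fun y hy => (Complex.norm_exp_le_exp_norm _).trans ?_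
  have h0 := (cap_body h).nonneg p y hy
  have h1 := psi_le_wd h p hy
  rw [norm_neg, norm_mul, norm_mul, norm_I, one_mul, Complex.norm_real, Real.norm_eq_abs,
    abs_of_nonneg h0]
  gcongr

end GeomAux

open GeomAux

theorem FT_eq {K : Set X} (h : Body K) (p τ : ℂ) :
    I * τ * FT K (τ • cx (nv p) 0) * Complex.exp (-(I * τ * (hs K (nv p) : ℂ))) =
      TK K p τ - Complex.exp (-(I * τ * (wd K (nv p) : ℂ))) * TK (-K) p (-τ) := by
  have hO : MeasurableSet (Om K) := (isOpen_interior : IsOpen (Om K)).measurableSet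
  have hmp := Measure.measurePreserving_neg (volume : Measure ℂ)
  have hemb := (MeasurableEquiv.neg ℂ).measurableEmbedding
  have hpre : (fun y : ℂ => -y) ⁻¹' Om (-K) = Om K := by
    rw [Om_neg]; ext y; simp
  have e2 : TK (-K) p (-τ) =
      ∫ y in Om K, Complex.exp (-(I * (-τ) * (psi (uK (-K)) (mK (-K)) p (-y) : ℂ))) := by
    rw [← hpre]
    exact (hmp.setIntegral_preimage_emb hemb
      (fun y => Complex.exp (-(I * (-τ) * (psi (uK (-K)) (mK (-K)) p y : ℂ)))) (Om (-K))).symm
  have i2 : IntegrableOn
      (fun y => Complex.exp (-(I * (-τ) * (psi (uK (-K)) (mK (-K)) p (-y) : ℂ)))) (Om K) := by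
    rw [← hpre]
    exact (hmp.integrableOn_comp_preimage hemb).2 (integrableOn_amp h.neg p (-τ))
  rw [e2, ← integral_const_mul]
  unfold TK TT
  rw [← integral_sub (integrableOn_amp h p τ) (i2.const_mul _)]
  unfold FT
  rw [setIntegral_fibers h (continuous_ex _), ← integral_const_mul, ← integral_mul_const]
  refine setIntegral_congr_fun hO fun y _ => ?_
  have e3 : ∀ z : ℝ, cdot (τ • cx (nv p) 0) (y, z) = τ * ((z - inner ℝ p y : ℝ) : ℂ) := by
    intro z
    rw [cdot_smul, cdot_cx, dot_zero_left, dot_nv]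
    simp
  simp only [e3]
  rw [integral_ex, sub_mul, ← Complex.exp_add, ← Complex.exp_add, ← Complex.exp_add]
  congr 2
  · unfold psi mK
    push_cast
    ring
  · unfold psi mK wd
    rw [hs_neg, inner_neg_right]
    push_cast
    ring

end Pool.Agent.MP_f27d50_gt
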