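import Pool.Agent.MP_f27d50_gt.Zeros

set_option autoImplicit false

open MeasureTheory Set Filter Topology Complex
open scoped ENNReal Pointwise ComplexConjugate

noncomputable section

namespace Pool.Agent.MP_f27d50_gt

namespace KC

/-- locally finite multiplicity functions vanishing at the origin -/
structure LF (μ : ℂ → ℕ) : Prop where
  fin : ∀ r : ℝ, {z : ℂ | ‖z‖ ≤ r ∧ μ z ≠ 0}.Finite
  zero : μ 0 = 0

/-- kernels with bounded support -/
def Sp (k : ℂ → ℝ) : Prop := ∃ r : ℝ, ∀ z : ℂ, r ≤ ‖z‖ → k z = 0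

theorem LF.mono {μ ν : ℂ → ℕ} (h : LF ν) (hle : ∀ z, μ z ≤ ν z) : LF μ :=
  ⟨fun r => (h.fin r).subset fun z hz => ⟨hz.1, fun h0 => hz.2 (by have := hle z; omega)⟩,
    by have := hle 0; have := h.zero; omega⟩

theorem lf_ord {f : ℂ → ℂ} (hf : Differentiable ℂ f) (h0 : f 0 ≠ 0) : LF (ord f) :=
  ⟨fun r => (finite_zeros hf ⟨0, h0⟩ r).subset fun z hz =>
    ⟨hz.1, by by_contra h; exact hz.2 (ord_eq_zero hf h)⟩, ord_eq_zero hf h0⟩

theorem LF.exists_finset {ν : ℂ → ℕ} (h : LF ν) (r : ℝ) : ∃ s : Finset ℂ, (∀ z ∈ s, z ≠ 0) ∧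
    ∀ (μ : ℂ → ℕ) (k : ℂ → ℝ), (∀ z, μ z ≤ ν z) → (∀ z : ℂ, r ≤ ‖z‖ → k z = 0) →
      S μ k = ∑ z ∈ s, (μ z : ℝ) * k z := by
  refine ⟨(h.fin r).toFinset, fun z hz h0 => ?_, fun μ k hle hk => S_eq_sum _ fun z hz => ?_⟩
  · rw [Set.Finite.mem_toFinset] at hz
    exact hz.2 (h0 ▸ h.zero)
  · rw [Set.Finite.mem_toFinset] at hz
    by_cases h1 : ‖z‖ ≤ r
    · left
      have : ν z = 0 := by
        by_contra h2
        exact hz ⟨h1, h2⟩
      have := hle z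
      omega
    · exact Or.inr (hk z (le_of_not_ge h1))

theorem Sp.add {k k' : ℂ → ℝ} (h : Sp k) (h' : Sp k') : Sp fun z => k z + k' z := by
  obtain ⟨r, hr⟩ := h
  obtain ⟨r', hr'⟩ := h'
  exact ⟨max r r', fun z hz => by
    beta_reduce
    rw [hr z ((le_max_left _ _).trans hz), hr' z ((le_max_right _ _).trans hz), add_zero]⟩

theorem Sp.mul {k : ℂ → ℝ} (c : ℝ) (h : Sp k) : Sp fun z => c * k z := by
  obtain ⟨r, hr⟩ := h
  exact ⟨r, fun z hz => by beta_reduce; rw [hr z hz, mul_zero]⟩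

theorem Sp.div {k : ℂ → ℝ} (h : Sp k) {c : ℂ} (hc : c ≠ 0) : Sp fun z => k (z / c) := by
  obtain ⟨r, hr⟩ := h
  refine ⟨r * ‖c‖, fun z hz => hr _ ?_⟩
  rw [norm_div, le_div_iff₀ (norm_pos_iff.2 hc)]
  exact hz

theorem S_le {μ ν : ℂ → ℕ} {k k' : ℂ → ℝ} (hν : LF ν) (hle : ∀ z, μ z ≤ ν z) (hk : Sp k)
    (hk' : Sp k') (h0 : ∀ z, z ≠ 0 → 0 ≤ k' z) (h : ∀ z, z ≠ 0 → k z ≤ k' z) :
    S μ k ≤ S ν k' := by
  obtain ⟨r, hr⟩ := hk
  obtain ⟨r', hr'⟩ := hk'
  obtain ⟨s, hs, hS⟩ := hν.exists_finset (max r r')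
  rw [hS μ k hle fun z hz => hr z ((le_max_left _ _).trans hz),
    hS ν k' (fun _ => le_rfl) fun z hz => hr' z ((le_max_right _ _).trans hz)]
  refine Finset.sum_le_sum fun z hz => ?_
  have h1 : (μ z : ℝ) ≤ ν z := by exact_mod_cast hle z
  exact (mul_le_mul_of_nonneg_left (h z (hs z hz)) (Nat.cast_nonneg _)).trans
    (mul_le_mul_of_nonneg_right h1 (h0 z (hs z hz)))

theorem S_add {μ : ℂ → ℕ} {k k' : ℂ → ℝ} (hμ : LF μ) (hk : Sp k) (hk' : Sp k') :
    S μ (fun z => k z + k' z) = S μ k + S μ k' := by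
  obtain ⟨r, hr⟩ := hk
  obtain ⟨r', hr'⟩ := hk'
  obtain ⟨s, hs, hS⟩ := hμ.exists_finset (max r r')
  rw [hS μ k (fun _ => le_rfl) fun z hz => hr z ((le_max_left _ _).trans hz),
    hS μ k' (fun _ => le_rfl) fun z hz => hr' z ((le_max_right _ _).trans hz),
    hS μ _ (fun _ => le_rfl) fun z hz => by
      rw [hr z ((le_max_left _ _).trans hz), hr' z ((le_max_right _ _).trans hz), add_zero],
    ← Finset.sum_add_distrib]
  exact Finset.sum_congr rfl fun z _ => by ring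

theorem S_mul {μ : ℂ → ℕ} {k : ℂ → ℝ} (hμ : LF μ) (hk : Sp k) (c : ℝ) :
    S μ (fun z => c * k z) = c * S μ k := by
  obtain ⟨r, hr⟩ := hk
  obtain ⟨s, hs, hS⟩ := hμ.exists_finset r
  rw [hS μ k (fun _ => le_rfl) hr, hS μ _ (fun _ => le_rfl) fun z hz => by rw [hr z hz, mul_zero],
    Finset.mul_sum]
  exact Finset.sum_congr rfl fun z _ => by ring

theorem S_nonneg (μ : ℂ → ℕ) {k : ℂ → ℝ} (hk : ∀ z, 0 ≤ k z) : 0 ≤ S μ k :=
  finsum_nonneg fun z => mul_nonneg (Nat.cast_nonneg _) (hk z)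

theorem mA_le (f g : ℂ → ℂ) (z : ℂ) : mA f g z ≤ ord f z := min_le_left _ _

theorem mB_le' (f g : ℂ → ℂ) (z : ℂ) : mB f g z ≤ ord f z := Nat.sub_le _ _

theorem S_split {f : ℂ → ℂ} (g : ℂ → ℂ) {k : ℂ → ℝ} (hf : LF (ord f)) (hk : Sp k) :
    S (mA f g) k + S (mB f g) k = S (ord f) k := by
  obtain ⟨r, hr⟩ := hk
  obtain ⟨s, hs, hS⟩ := hf.exists_finset r
  rw [hS _ k (mA_le f g) hr, hS _ k (mB_le' f g) hr, hS _ k (fun _ => le_rfl) hr,
    ← Finset.sum_add_distrib]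
  refine Finset.sum_congr rfl fun z _ => ?_
  have : mA f g z + mB f g z = ord f z := by unfold mA mB; omega
  rw [← this]; push_cast; ring

theorem S_scale (μ : ℂ → ℕ) (k : ℂ → ℝ) {c : ℂ} (hc : c ≠ 0) :
    S (fun z => μ (c * z)) k = S μ fun t => k (t / c) :=
  finsum_eq_of_bijective (fun z => c * z) (mulLeft_bijective₀ c hc) fun z => by
    beta_reduce
    rw [mul_div_cancel_left₀ z hc]

theorem ord_smul (F : W → ℂ) (ζ : W) {c : ℂ} (hc : c ≠ 0) (z : ℂ) :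
    ord (ln F (c • ζ)) z = ord (ln F ζ) (c * z) := by
  have h : ln F (c • ζ) = ln F ζ ∘ fun z => c * z := by
    funext w
    simp only [ln, Function.comp, smul_smul, mul_comm]
  unfold ord analyticOrderNatAt
  rw [h, analyticOrderAt_comp_of_deriv_ne_zero (by fun_prop) (by simpa using hc)]

theorem S_ord_smul (F : W → ℂ) (ζ : W) {c : ℂ} (hc : c ≠ 0) (k : ℂ → ℝ) :
    S (ord (ln F (c • ζ))) k = S (ord (ln F ζ)) fun t => k (t / c) := by
  rw [← S_scale _ _ hc]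
  congr 1
  funext z
  exact ord_smul F ζ hc z

theorem S_mB_smul (F G : W → ℂ) (ζ : W) {c : ℂ} (hc : c ≠ 0) (k : ℂ → ℝ) :
    S (mB (ln F (c • ζ)) (ln G (c • ζ))) k = S (mB (ln F ζ) (ln G ζ)) fun t => k (t / c) := by
  rw [← S_scale _ _ hc]
  congr 1
  funext z
  simp only [mB, ord_smul _ ζ hc]

/-! ### kernels -/

/-- the radial kernel -/
def kP (r : ℝ) (z : ℂ) : ℝ := max (1 / ‖z‖ - 1 / r) 0

theorem kP_nonneg (r : ℝ) (z : ℂ) : 0 ≤ kP r z := le_max_right _ _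

theorem kC_nonneg (r : ℝ) (z : ℂ) : 0 ≤ kC r z := mul_nonneg (abs_nonneg _) (le_max_right _ _)

theorem kN_nonneg (x : ℝ) (z : ℂ) : 0 ≤ kN x z := Real.posLog_nonneg

theorem kI_nonneg (a b : ℝ) (z : ℂ) : 0 ≤ kI a b z := by
  unfold kI; split_ifs <;> norm_num

theorem kP_zero {r : ℝ} (hr : 0 < r) {z : ℂ} (hz : r ≤ ‖z‖) : kP r z = 0 :=
  max_eq_right (by have := one_div_le_one_div_of_le hr hz; linarith)

theorem sp_kP {r : ℝ} (hr : 0 < r) : Sp (kP r) := ⟨r, fun _ hz => kP_zero hr hz⟩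

theorem sp_kC {r : ℝ} (hr : 0 < r) : Sp (kC r) := ⟨r, fun z hz => by
  have h1 : 1 / ‖z‖ ^ 2 ≤ 1 / r ^ 2 := one_div_le_one_div_of_le (by positivity) (by gcongr)
  rw [kC, max_eq_right (by linarith), mul_zero]⟩

theorem kN_zero {x : ℝ} (hx : 0 < x) {z : ℂ} (hz : x ≤ ‖z‖) : kN x z = 0 := by
  rw [kN, Real.posLog_eq_zero_iff, abs_of_nonneg (by positivity)]
  exact div_le_one_of_le₀ hz (norm_nonneg _)

theorem sp_kN {x : ℝ} (hx : 0 < x) : Sp (kN x) := ⟨x, fun _ hz => kN_zero hx hz⟩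

theorem sp_kI (a b : ℝ) : Sp (kI a b) := ⟨b + 1, fun z hz => by
  unfold kI
  rw [if_neg]
  rintro ⟨-, h⟩
  linarith⟩

theorem ker_kP {r : ℝ} (hr : 0 < r) : Ker (kP r) := by
  refine ⟨?_, sp_kP hr⟩
  refine ContinuousOn.sup (f := fun z : ℂ => 1 / ‖z‖ - 1 / r) (g := fun _ => 0)
    (ContinuousOn.sub ?_ continuousOn_const) continuousOn_const
  exact continuousOn_const.div continuous_norm.continuousOn fun z hz => norm_ne_zero_iff.2 hz

theorem sub_kP {r : ℝ} (hr : 0 < r) (z : ℂ) (hz : z ≠ 0) : SubAt (kP r) z := by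
  by_cases h : r ≤ ‖z‖
  · exact ⟨fun _ => 0, analyticAt_const, by simp [kP_zero hr h],
      Eventually.of_forall fun w => by simpa using kP_nonneg r w⟩
  · have hn : 0 < ‖z‖ := norm_pos_iff.2 hz
    have hn' : ((‖z‖ : ℝ) : ℂ) ≠ 0 := by exact_mod_cast hn.ne'
    refine ⟨fun w => z / (‖z‖ : ℂ) / w - ((1 / r : ℝ) : ℂ), ?_, ?_,
      Eventually.of_forall fun w => ?_⟩
    · exact (analyticAt_const.div analyticAt_id hz).sub analyticAt_const
    · have h1 : z / (‖z‖ : ℂ) / z = ((1 / ‖z‖ : ℝ) : ℂ) := by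
        push_cast
        field_simp
      have h2 : 1 / r ≤ 1 / ‖z‖ := one_div_le_one_div_of_le hn (le_of_not_ge h)
      rw [kP, max_eq_left (by linarith), sub_re, h1, ofReal_re, ofReal_re]
    · have h1 : (z / (‖z‖ : ℂ) / w).re ≤ 1 / ‖w‖ := by
        refine (re_le_norm _).trans (le_of_eq ?_)
        rw [norm_div, norm_div, norm_real, norm_norm, div_self hn.ne']
      rw [sub_re, ofReal_re]
      exact le_trans (by linarith) (le_max_left _ _)

theorem kC_le_kP {r : ℝ} (hr : 0 < r) (z : ℂ) (hz : z ≠ 0) : kC r z ≤ 2 * kP r z := by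
  have hn : 0 < ‖z‖ := norm_pos_iff.2 hz
  by_cases h : r ≤ ‖z‖
  · have h1 : 1 / ‖z‖ ^ 2 ≤ 1 / r ^ 2 := one_div_le_one_div_of_le (by positivity) (by gcongr)
    rw [kC, max_eq_right (by linarith), mul_zero, kP_zero hr h, mul_zero]
  · have h' : ‖z‖ ≤ r := le_of_not_ge h
    have h1 : 1 / r ^ 2 ≤ 1 / ‖z‖ ^ 2 := one_div_le_one_div_of_le (by positivity) (by gcongr)
    have h2 : 1 / r ≤ 1 / ‖z‖ := one_div_le_one_div_of_le hn h'
    rw [kC, kP, max_eq_left (by linarith), max_eq_left (by linarith)]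
    calc |z.im| * (1 / ‖z‖ ^ 2 - 1 / r ^ 2) ≤ ‖z‖ * (1 / ‖z‖ ^ 2 - 1 / r ^ 2) :=
          mul_le_mul_of_nonneg_right (abs_im_le_norm z) (by linarith)
      _ = (1 + ‖z‖ / r) * (1 / ‖z‖ - 1 / r) := by field_simp; ring
      _ ≤ 2 * (1 / ‖z‖ - 1 / r) := by
          have : ‖z‖ / r ≤ 1 := div_le_one_of_le₀ h' hr.le
          exact mul_le_mul_of_nonneg_right (by linarith) (by linarith)

theorem kP_le_kC {r : ℝ} (hr : 0 < r) (z : ℂ) (hz : z ≠ 0) :
    kP r z ≤ kC r z + kC r (z / I) := by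
  have hn : 0 < ‖z‖ := norm_pos_iff.2 hz
  by_cases h : r ≤ ‖z‖
  · rw [kP_zero hr h]
    exact add_nonneg (kC_nonneg _ _) (kC_nonneg _ _)
  · have h' : ‖z‖ ≤ r := le_of_not_ge h
    have h1 : 1 / r ^ 2 ≤ 1 / ‖z‖ ^ 2 := one_div_le_one_div_of_le (by positivity) (by gcongr)
    have h2 : 1 / r ≤ 1 / ‖z‖ := one_div_le_one_div_of_le hn h'
    have h3 : |(z / I).im| = |z.re| := by simp
    have h4 : ‖z / I‖ = ‖z‖ := by simp
    rw [kC, kC, kP, h3, h4, max_eq_left (by linarith), max_eq_left (by linarith), ← add_mul]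
    calc 1 / ‖z‖ - 1 / r ≤ (1 + ‖z‖ / r) * (1 / ‖z‖ - 1 / r) := by
          have : 0 ≤ ‖z‖ / r := by positivity
          nlinarith
      _ = ‖z‖ * (1 / ‖z‖ ^ 2 - 1 / r ^ 2) := by field_simp; ring
      _ ≤ (|z.im| + |z.re|) * (1 / ‖z‖ ^ 2 - 1 / r ^ 2) :=
          mul_le_mul_of_nonneg_right (by have := norm_le_abs_re_add_abs_im z; linarith)
            (by linarith)

theorem kP_div {r : ℝ} (hr : 0 < r) {l : ℂ} (hl : l ≠ 0) (t : ℂ) :
    kP r (t / l) = ‖l‖ * kP (r * ‖l‖) t := by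
  have hn : 0 < ‖l‖ := norm_pos_iff.2 hl
  rw [kP, kP, mul_max_of_nonneg _ _ hn.le, mul_zero, norm_div]
  congr 1
  field_simp

theorem kC_div {r T : ℝ} (hr : 0 < r) (hT : T ≠ 0) (t : ℂ) :
    kC r (t / (T : ℂ)) = |T| * kC (r * |T|) t := by
  have hn : 0 < |T| := abs_pos.2 hT
  have h1 : 1 / ‖t / (T : ℂ)‖ ^ 2 - 1 / r ^ 2 = |T| ^ 2 * (1 / ‖t‖ ^ 2 - 1 / (r * |T|) ^ 2) := by
    rw [norm_div, norm_real, Real.norm_eq_abs]
    field_simp
  have h2 : max (|T| ^ 2 * (1 / ‖t‖ ^ 2 - 1 / (r * |T|) ^ 2)) 0 =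
      |T| ^ 2 * max (1 / ‖t‖ ^ 2 - 1 / (r * |T|) ^ 2) 0 := by
    rw [mul_max_of_nonneg _ _ (by positivity), mul_zero]
  rw [kC, kC, h1, h2, div_ofReal_im, abs_div]
  field_simp

/-- the second difference of the Jensen kernel -/
def tent (q x : ℝ) (z : ℂ) : ℝ := kN (x * q) z + (-2) * kN x z + kN (x / q) z

theorem sp_tent {q x : ℝ} (hq : 1 < q) (hx : 0 < x) : Sp (tent q x) :=
  ((sp_kN (by positivity)).add ((sp_kN hx).mul _)).add (sp_kN (by positivity))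

theorem tent_eq {q x : ℝ} (hq : 1 < q) (hx : 0 < x) {z : ℂ} (hz : z ≠ 0) :
    tent q x z = max 0 (Real.log (x / ‖z‖) + Real.log q) - 2 * max 0 (Real.log (x / ‖z‖)) +
      max 0 (Real.log (x / ‖z‖) - Real.log q) := by
  have hn : 0 < ‖z‖ := norm_pos_iff.2 hz
  have h1 : x * q / ‖z‖ = x / ‖z‖ * q := by ring
  have h2 : x / q / ‖z‖ = x / ‖z‖ / q := by ring
  rw [tent, kN, kN, kN, Real.posLog_apply, Real.posLog_apply, Real.posLog_apply, h1, h2,
    Real.log_mul (by positivity) (by positivity), Real.log_div (x := x / ‖z‖) (by positivity)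
      (by positivity)]
  ring

theorem tent_at_zero (q x : ℝ) : tent q x 0 = 0 := by simp [tent, kN]

theorem tent_nonneg {q x : ℝ} (hq : 1 < q) (hx : 0 < x) (z : ℂ) : 0 ≤ tent q x z := by
  by_cases hz : z = 0
  · rw [hz, tent_at_zero]
  have := Real.log_pos hq
  rw [tent_eq hq hx hz]
  simp only [max_def]
  split_ifs <;> linarith

theorem tent_le_kI {q x : ℝ} (hq : 1 < q) (hx : 0 < x) (z : ℂ) (hz : z ≠ 0) :
    tent q x z ≤ (q - 1) * kI (x / q) (x * q) z := by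
  have hn : 0 < ‖z‖ := norm_pos_iff.2 hz
  have h0 := Real.log_pos hq
  have h1 : Real.log q ≤ q - 1 := Real.log_le_sub_one_of_pos (by positivity)
  rw [tent_eq hq hx hz, kI]
  split_ifs with h
  · simp only [max_def]
    split_ifs <;> linarith
  · rw [not_and_or, not_le, not_le] at h
    rcases h with h | h
    · have h2 : Real.log q ≤ Real.log (x / ‖z‖) := by
        refine Real.log_le_log (by positivity) ?_
        rw [lt_div_iff₀ (by positivity)] at h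
        rw [le_div_iff₀ hn]
        linarith
      simp only [max_def]
      split_ifs <;> linarith
    · have h2 : Real.log (x / ‖z‖) + Real.log q ≤ 0 := by
        rw [← Real.log_mul (by positivity) (by positivity)]
        refine Real.log_nonpos (by positivity) ?_
        rw [div_mul_eq_mul_div, div_le_one hn]
        exact h.le
      simp only [max_def]
      split_ifs <;> linarith

theorem tent_le_kN {q x y : ℝ} (hq : 1 < q) (hq2 : q ≤ 2) (hx : 0 < x) (hy : 4 * x ≤ y) (z : ℂ) :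
    tent q x z ≤ kN y z := by
  by_cases hz : z = 0
  · rw [hz, tent_at_zero]; exact kN_nonneg _ _
  have hn : 0 < ‖z‖ := norm_pos_iff.2 hz
  have h0 := Real.log_pos hq
  have h2 : Real.log (x / ‖z‖) + Real.log q + Real.log q ≤ Real.log (y / ‖z‖) := by
    rw [← Real.log_mul (by positivity) (by positivity),
      ← Real.log_mul (by positivity) (by positivity)]
    refine Real.log_le_log (by positivity) ?_
    have h3 : x / ‖z‖ * q * q = x * (q * q) / ‖z‖ := by ring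
    rw [h3]
    gcongr
    nlinarith [mul_le_mul hq2 hq2 (by positivity) (by norm_num : (0 : ℝ) ≤ 2)]
  rw [tent_eq hq hx hz, kN, Real.posLog_apply]
  simp only [max_def]
  split_ifs <;> linarith

theorem tent_lower {q x : ℝ} (hq : 1 < q) (hq2 : q ≤ 2) {z : ℂ} (hz : z ≠ 0) (h1 : ‖z‖ ≤ x)
    (h2 : x ≤ ‖z‖ * (1 + (q - 1) / 4)) : (q - 1) / 4 ≤ tent q x z := by
  have hn : 0 < ‖z‖ := norm_pos_iff.2 hz
  have hx : 0 < x := hn.trans_le h1
  have h3 : 0 ≤ Real.log (x / ‖z‖) := Real.log_nonneg ((one_le_div hn).2 h1)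
  have h4 : Real.log (x / ‖z‖) ≤ (q - 1) / 4 := by
    have := Real.log_le_sub_one_of_pos (show 0 < x / ‖z‖ by positivity)
    have h5 : x / ‖z‖ ≤ 1 + (q - 1) / 4 := by rw [div_le_iff₀ hn]; linarith
    linarith
  have h5 : (q - 1) / 2 ≤ Real.log q := by
    have := Real.one_sub_inv_le_log_of_pos (show 0 < q by positivity)
    have h6 : q⁻¹ ≤ 1 - (q - 1) / 2 := by
      rw [inv_le_iff_one_le_mul₀ (by positivity)]
      nlinarith
    linarith
  rw [tent_eq hq hx hz]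
  simp only [max_def]
  split_ifs <;> linarith

theorem continuous_kN (z : ℂ) : Continuous fun x : ℝ => kN x z :=
  Real.continuous_posLog.comp (continuous_id.div_const _)

theorem continuous_tent (q : ℝ) (z : ℂ) : Continuous fun x : ℝ => tent q x z :=
  (((continuous_kN z).comp (continuous_id.mul continuous_const)).add
    (continuous_const.mul (continuous_kN z))).add
      ((continuous_kN z).comp (continuous_id.div_const _))

theorem S_tent {μ : ℂ → ℕ} (hμ : LF μ) {q x : ℝ} (hq : 1 < q) (hx : 0 < x) :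
    S μ (tent q x) = S μ (kN (x * q)) - 2 * S μ (kN x) + S μ (kN (x / q)) := by
  have h1 : Sp (kN (x * q)) := sp_kN (by positivity)
  have h2 : Sp (kN (x / q)) := sp_kN (by positivity)
  have h := S_add hμ (h1.add ((sp_kN hx).mul (-2))) h2
  rw [S_add hμ h1 ((sp_kN hx).mul (-2)), S_mul hμ (sp_kN hx)] at h
  have e : tent q x = fun z => kN (x * q) z + -2 * kN x z + kN (x / q) z := rfl
  rw [e, h]; ring

end KC

end Pool.Agent.MP_f27d50_gt
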