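import Pool.Agent.MP_f27d50_gt.KC1

set_option autoImplicit false

open MeasureTheory Set Filter Topology Complex
open scoped ENNReal Pointwise ComplexConjugate

noncomputable section

namespace Pool.Agent.MP_f27d50_gt

namespace KC

theorem ii_div {φ : ℝ → ℝ} (hφ : Continuous φ) {a b : ℝ} (ha : 0 < a) (hb : 0 < b) :
    IntervalIntegrable (fun x => φ x / x ^ 2) volume a b := by
  refine ContinuousOn.intervalIntegrable ?_
  refine hφ.continuousOn.div (continuous_pow 2).continuousOn fun x hx => ?_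
  have : 0 < x := lt_of_lt_of_le (lt_min ha hb) hx.1
  positivity

theorem S_int {μ : ℂ → ℕ} (hμ : LF μ) {κ : ℝ → ℂ → ℝ} (hc : ∀ z, Continuous fun x => κ x z)
    {a b ρ : ℝ} (ha : 0 < a) (hab : a ≤ b)
    (hs : ∀ x ∈ Icc a b, ∀ z : ℂ, ρ ≤ ‖z‖ → κ x z = 0) :
    IntervalIntegrable (fun x => S μ (κ x) / x ^ 2) volume a b ∧
      (Sp fun z => ∫ x in a..b, κ x z / x ^ 2) ∧
      ∫ x in a..b, S μ (κ x) / x ^ 2 = S μ fun z => ∫ x in a..b, κ x z / x ^ 2 := by
  obtain ⟨s, -, hS⟩ := hμ.exists_finset ρ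
  have hb : 0 < b := ha.trans_le hab
  have h0 : ∀ z : ℂ, ρ ≤ ‖z‖ → ∫ x in a..b, κ x z / x ^ 2 = 0 := by
    intro z hz
    rw [intervalIntegral.integral_congr (g := fun _ => 0), intervalIntegral.integral_zero]
    intro x hx
    rw [uIcc_of_le hab] at hx
    simp [hs x hx z hz]
  have h1 : EqOn (fun x => S μ (κ x) / x ^ 2)
      (fun x => ∑ z ∈ s, (μ z : ℝ) * (κ x z / x ^ 2)) (uIcc a b) := by
    intro x hx
    rw [uIcc_of_le hab] at hx
    simp only
    rw [hS μ (κ x) (fun _ => le_rfl) (hs x hx), Finset.sum_div]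
    exact Finset.sum_congr rfl fun z _ => by ring
  have h2 : ∀ z ∈ s, IntervalIntegrable (fun x => (μ z : ℝ) * (κ x z / x ^ 2)) volume a b :=
    fun z _ => (ii_div (hc z) ha hb).const_mul _
  refine ⟨?_, ⟨ρ, h0⟩, ?_⟩
  · have h3 := IntervalIntegrable.sum s h2
    refine h3.congr fun x hx => ?_
    have h4 := h1 (uIoc_subset_uIcc hx)
    simp only at h4 ⊢
    rw [h4, Finset.sum_apply]
  · rw [intervalIntegral.integral_congr h1, intervalIntegral.integral_finsetSum h2,
      hS μ _ (fun _ => le_rfl) h0]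
    exact Finset.sum_congr rfl fun z _ => intervalIntegral.integral_const_mul _ _

theorem int_kN_le {a r : ℝ} (ha : 0 < a) (har : a ≤ r) {z : ℂ} (hz : z ≠ 0) :
    ∫ x in a..r, kN x z / x ^ 2 ≤ kP r z := by
  have hn : 0 < ‖z‖ := norm_pos_iff.2 hz
  have hr : 0 < r := ha.trans_le har
  have h0 : ∀ b, a ≤ b → b ≤ ‖z‖ → ∫ x in a..b, kN x z / x ^ 2 = 0 := by
    intro b hab hb
    rw [intervalIntegral.integral_congr (g := fun _ => 0), intervalIntegral.integral_zero]
    intro x hx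
    rw [uIcc_of_le hab] at hx
    simp [kN_zero (ha.trans_le hx.1) (hx.2.trans hb)]
  by_cases h : r ≤ ‖z‖
  · rw [h0 r har h]; exact kP_nonneg _ _
  have h' : ‖z‖ ≤ r := le_of_not_ge h
  have key : ∀ m, ‖z‖ ≤ m → m ≤ r → ∫ x in m..r, kN x z / x ^ 2 ≤ kP r z := by
    intro m hm hmr
    have hm0 : 0 < m := hn.trans_le hm
    have hd : ∀ x ∈ uIcc m r, HasDerivAt (fun x => -(Real.log (x / ‖z‖) + 1) / x)
        (kN x z / x ^ 2) x := by
      intro x hx
      rw [uIcc_of_le hmr] at hx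
      have hx0 : 0 < x := hm0.trans_le hx.1
      have h1 : HasDerivAt (fun x : ℝ => Real.log (x / ‖z‖)) (1 / ‖z‖ / (x / ‖z‖)) x :=
        ((hasDerivAt_id x).div_const ‖z‖).log (by positivity)
      have h2 := ((h1.add_const 1).neg).div (hasDerivAt_id x) hx0.ne'
      refine h2.congr_deriv ?_
      have h3 : kN x z = Real.log (x / ‖z‖) := by
        rw [kN, Real.posLog_eq_log]
        rw [abs_of_nonneg (by positivity)]
        exact (one_le_div hn).2 (hm.trans hx.1)
      rw [h3]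
      simp only [id, Pi.neg_apply]
      field_simp
      ring
    rw [intervalIntegral.integral_eq_sub_of_hasDerivAt hd (ii_div (continuous_kN z) hm0 hr)]
    have h4 : Real.log (m / ‖z‖) + 1 ≤ m / ‖z‖ := by
      have := Real.log_le_sub_one_of_pos (show 0 < m / ‖z‖ by positivity)
      linarith
    have h5 : (Real.log (m / ‖z‖) + 1) / m ≤ 1 / ‖z‖ := by
      rw [div_le_iff₀ hm0]
      calc _ ≤ m / ‖z‖ := h4
        _ = 1 / ‖z‖ * m := by ring
    have h6 : 1 / r ≤ (Real.log (r / ‖z‖) + 1) / r := by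
      have := Real.log_nonneg ((one_le_div hn).2 h')
      gcongr
      linarith
    refine le_trans ?_ (le_max_left _ _)
    simp only [neg_div]
    linarith
  rcases le_total ‖z‖ a with h1 | h1
  · exact key a h1 har
  · rw [← intervalIntegral.integral_add_adjacent_intervals (b := ‖z‖)
      (ii_div (continuous_kN z) ha hn) (ii_div (continuous_kN z) hn hr), h0 _ h1 le_rfl, zero_add]
    exact key _ le_rfl h'

theorem lower_kP {μ : ℂ → ℕ} (hμ : LF μ) {a r γ : ℝ} (ha : 0 < a) (har : a ≤ r)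
    (h : ∀ x ∈ Icc a r, γ * x ≤ S μ (kN x)) : γ * Real.log (r / a) ≤ S μ (kP r) := by
  have hr : 0 < r := ha.trans_le har
  obtain ⟨h1, h2, h3⟩ := S_int hμ (κ := kN) continuous_kN ha har (ρ := r)
    fun x hx z hz => kN_zero (ha.trans_le hx.1) (hx.2.trans hz)
  have h4 := S_le hμ (fun _ => le_rfl) h2 (sp_kP hr) (fun z _ => kP_nonneg r z)
    fun z hz => int_kN_le ha har hz
  rw [← h3] at h4
  refine le_trans ?_ h4
  rw [← integral_one_div_of_pos ha hr, ← intervalIntegral.integral_const_mul]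
  refine intervalIntegral.integral_mono_on har ?_ h1 fun x hx => ?_
  · refine (ContinuousOn.intervalIntegrable ?_).const_mul _
    refine continuousOn_const.div continuousOn_id fun x hx => ?_
    exact (lt_of_lt_of_le (lt_min ha hr) hx.1).ne'
  · have hx0 : 0 < x := ha.trans_le hx.1
    calc γ * (1 / x) = γ * x / x ^ 2 := by field_simp
      _ ≤ _ := by gcongr; exact h x hx

theorem block {Φ : ℝ → ℝ} {R α β ε : ℝ} (hR : 0 < R) (hα : 0 ≤ α) (hβ : 0 ≤ β) (hε : 0 ≤ ε)
    (hi : IntervalIntegrable (fun x => Φ x / x ^ 2) volume R (2 * R)) {Bad : Set ℝ}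
    (hm : MeasurableSet Bad) (hv : volume Bad ≤ ENNReal.ofReal (ε * R))
    (h1 : ∀ x ∈ Icc R (2 * R), x ∉ Bad → Φ x ≤ α * x) (h2 : ∀ x ∈ Icc R (2 * R), Φ x ≤ β * x) :
    ∫ x in R..(2 * R), Φ x / x ^ 2 ≤ α + β * ε := by
  have hfin : volume Bad ≠ ⊤ := ne_top_of_le_ne_top ENNReal.ofReal_ne_top hv
  have hI : Integrable (Bad.indicator fun _ : ℝ => β / R) volume :=
    (integrable_indicator_iff hm).2 (integrableOn_const hfin)
  have h3 : ∫ x in R..(2 * R), Φ x / x ^ 2 ≤
      ∫ x in R..(2 * R), (α / R + Bad.indicator (fun _ : ℝ => β / R) x) := by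
    refine intervalIntegral.integral_mono_on (by linarith) hi
      (intervalIntegrable_const.add hI.intervalIntegrable) fun x hx => ?_
    have hx0 : 0 < x := hR.trans_le hx.1
    have key : ∀ c : ℝ, 0 ≤ c → Φ x ≤ c * x → Φ x / x ^ 2 ≤ c / R := by
      intro c hc h
      calc Φ x / x ^ 2 ≤ c * x / x ^ 2 := by gcongr
        _ = c / x := by field_simp
        _ ≤ c / R := by gcongr; exact hx.1
    by_cases hb : x ∈ Bad
    · rw [indicator_of_mem hb]
      have := key β hβ (h2 x hx)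
      have : 0 ≤ α / R := by positivity
      linarith
    · rw [indicator_of_notMem hb, add_zero]
      exact key α hα (h1 x hx hb)
  rw [intervalIntegral.integral_add intervalIntegrable_const hI.intervalIntegrable,
    intervalIntegral.integral_const] at h3
  have h4 : ∫ x in R..(2 * R), Bad.indicator (fun _ : ℝ => β / R) x ≤
      volume.real Bad * (β / R) := by
    rw [intervalIntegral.integral_of_le (by linarith), ← smul_eq_mul (volume.real Bad),
      ← integral_indicator_const _ hm]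
    exact setIntegral_le_integral hI (Eventually.of_forall fun x =>
      indicator_nonneg (fun _ _ => by positivity) x)
  have h5 : volume.real Bad ≤ ε * R := ENNReal.toReal_le_of_le_ofReal (by positivity) hv
  have h6 : volume.real Bad * (β / R) ≤ β * ε := by
    calc _ ≤ ε * R * (β / R) := by gcongr
      _ = β * ε := by field_simp
  have h7 : (2 * R - R) • (α / R) = α := by rw [smul_eq_mul]; field_simp; ring
  linarith

theorem kP_le_int {q a b r : ℝ} (hq : 1 < q) (hq2 : q ≤ 2) (ha : 0 < a) (hab : a ≤ b)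
    (hr : 0 < r) (hrb : 2 * r ≤ b) {z : ℂ} (hz : z ≠ 0) :
    kP r z ≤ 2 * kP (2 * a) z + 32 / (q - 1) ^ 2 * ∫ x in a..b, tent q x z / x ^ 2 := by
  have hn : 0 < ‖z‖ := norm_pos_iff.2 hz
  have hb : 0 < b := ha.trans_le hab
  have hd : 0 < q - 1 := by linarith
  have hnn : ∀ x, a ≤ x → 0 ≤ tent q x z / x ^ 2 := fun x hx =>
    div_nonneg (tent_nonneg hq (ha.trans_le hx) z) (sq_nonneg _)
  have hI : 0 ≤ ∫ x in a..b, tent q x z / x ^ 2 :=
    intervalIntegral.integral_nonneg hab fun x hx => hnn x hx.1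
  have hk := kP_nonneg (2 * a) z
  by_cases h : r ≤ ‖z‖
  · rw [kP_zero hr h]; positivity
  have h' : ‖z‖ ≤ r := le_of_not_ge h
  have h1 : kP r z ≤ 1 / ‖z‖ := max_le (by have : 0 < 1 / r := by positivity
                                           linarith) (by positivity)
  refine h1.trans ?_
  rcases le_total ‖z‖ a with h2 | h2
  · have h3 : 1 / a ≤ 1 / ‖z‖ := one_div_le_one_div_of_le hn h2
    have h4 : 1 / ‖z‖ - 1 / (2 * a) ≤ kP (2 * a) z := le_max_left _ _
    have h5 : 1 / (2 * a) = 1 / a / 2 := by field_simp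
    have h6 : 0 ≤ 32 / (q - 1) ^ 2 * ∫ x in a..b, tent q x z / x ^ 2 := by positivity
    linarith
  · have h3 : ‖z‖ ≤ ‖z‖ * (1 + (q - 1) / 4) := by nlinarith
    have h4 : ‖z‖ * (1 + (q - 1) / 4) ≤ b := by nlinarith
    have h5 := intervalIntegral.integral_mono_interval h2 h3 h4
      ((ae_restrict_iff' measurableSet_Ioc).2 (Eventually.of_forall fun x hx => hnn x hx.1.le))
      (ii_div (continuous_tent q z) ha hb)
    have h6 : ∫ _ in ‖z‖..(‖z‖ * (1 + (q - 1) / 4)), (q - 1) / 4 / (2 * ‖z‖ ^ 2) ≤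
        ∫ x in ‖z‖..(‖z‖ * (1 + (q - 1) / 4)), tent q x z / x ^ 2 := by
      refine intervalIntegral.integral_mono_on h3 intervalIntegrable_const
        (ii_div (continuous_tent q z) hn (hn.trans_le h3)) fun x hx => ?_
      have hx0 : 0 < x := hn.trans_le hx.1
      have h7 : x ≤ ‖z‖ * (5 / 4) := hx.2.trans (by gcongr; linarith)
      have h8 : x ^ 2 ≤ 2 * ‖z‖ ^ 2 := by nlinarith
      exact div_le_div₀ (tent_nonneg hq hx0 z) (tent_lower hq hq2 hz hx.1 hx.2) (by positivity) h8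
    rw [intervalIntegral.integral_const, smul_eq_mul] at h6
    have h9 : (‖z‖ * (1 + (q - 1) / 4) - ‖z‖) * ((q - 1) / 4 / (2 * ‖z‖ ^ 2)) =
        (q - 1) ^ 2 / 32 * (1 / ‖z‖) := by field_simp; ring
    have h10 : 1 / ‖z‖ ≤ 32 / (q - 1) ^ 2 * ∫ x in a..b, tent q x z / x ^ 2 := by
      calc 1 / ‖z‖ = 32 / (q - 1) ^ 2 * ((q - 1) ^ 2 / 32 * (1 / ‖z‖)) := by field_simp
        _ ≤ _ := by gcongr; linarith
    linarith

theorem upper_kP {μ : ℂ → ℕ} (hμ : LF μ) {q R α β ε r : ℝ} (J : ℕ) (hq : 1 < q) (hq2 : q ≤ 2)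
    (hR : 0 < R) (hα : 0 ≤ α) (hβ : 0 ≤ β) (hε : 0 ≤ ε) (hr : 0 < r) (hrJ : 2 * r ≤ R * 2 ^ J)
    (h1 : ∀ R', R ≤ R' → ∃ Bad : Set ℝ, MeasurableSet Bad ∧ volume Bad ≤ ENNReal.ofReal (ε * R') ∧
      ∀ x ∈ Icc R' (2 * R'), x ∉ Bad → x ≤ R * 2 ^ J → S μ (tent q x) ≤ α * x)
    (h2 : ∀ x, R ≤ x → S μ (tent q x) ≤ β * x) :
    S μ (kP r) ≤ 2 * S μ (kP (2 * R)) + 32 / (q - 1) ^ 2 * (J * (α + β * ε)) := by
  have hint := fun (a b : ℝ) (ha : 0 < a) (hab : a ≤ b) =>
    S_int hμ (κ := tent q) (continuous_tent q) ha hab (ρ := 4 * b) fun x hx z hz =>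
      le_antisymm ((tent_le_kN hq hq2 (ha.trans_le hx.1) (y := 4 * b) (by linarith [hx.2]) z).trans
        (kN_zero (by linarith) hz).le) (tent_nonneg hq (ha.trans_le hx.1) z)
  have hp : ∀ j : ℕ, R ≤ R * 2 ^ j := fun j =>
    le_mul_of_one_le_right hR.le (one_le_pow₀ one_le_two)
  have main : ∀ j : ℕ, j ≤ J →
      ∫ x in R..(R * 2 ^ j), S μ (tent q x) / x ^ 2 ≤ j * (α + β * ε) := by
    intro j
    induction j with
    | zero => intro _; simp
    | succ j ih =>
      intro hj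
      have hRj : 0 < R * 2 ^ j := hR.trans_le (hp j)
      have e : R * 2 ^ (j + 1) = 2 * (R * 2 ^ j) := by ring
      have e2 : 2 * (R * 2 ^ j) ≤ R * 2 ^ J := by
        rw [← e]
        exact mul_le_mul_of_nonneg_left (pow_le_pow_right₀ one_le_two hj) hR.le
      obtain ⟨Bad, hm, hv, hB⟩ := h1 _ (hp j)
      have h3 := block hRj hα hβ hε (hint _ _ hRj (by linarith)).1 hm hv
        (fun x hx hb => hB x hx hb (hx.2.trans e2)) fun x hx => h2 x ((hp j).trans hx.1)
      rw [e, ← intervalIntegral.integral_add_adjacent_intervals (hint _ _ hR (hp j)).1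
        (hint _ _ hRj (by linarith)).1]
      have := ih (by omega)
      push_cast
      linarith
  obtain ⟨-, h4, h5⟩ := hint _ _ hR (hp J)
  have h2R : 0 < 2 * R := by positivity
  have h6 := S_le hμ (fun _ => le_rfl) (sp_kP hr)
    (((sp_kP h2R).mul 2).add (h4.mul (32 / (q - 1) ^ 2)))
    (fun z hz => (kP_nonneg r z).trans (kP_le_int hq hq2 hR (hp J) hr hrJ hz))
    fun z hz => kP_le_int hq hq2 hR (hp J) hr hrJ hz
  rw [S_add hμ ((sp_kP h2R).mul 2) (h4.mul _), S_mul hμ (sp_kP h2R), S_mul hμ h4, ← h5] at h6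
  refine h6.trans ?_
  have := main J le_rfl
  gcongr

end KC

end Pool.Agent.MP_f27d50_gt
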