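import Pool.Agent.MP_f27d50_gt.Zeros

set_option autoImplicit false

open MeasureTheory Set Filter Topology Complex
open scoped ENNReal Pointwise ComplexConjugate

noncomputable section

namespace Pool.Agent.MP_f27d50_gt

namespace Lev

open Real (circleAverage)

lemma ci_log {f : ℂ → ℂ} (hf : Differentiable ℂ f) (c : ℂ) (s : ℝ) :
    CircleIntegrable (fun z => Real.log ‖f z‖) c s :=
  MeromorphicOn.circleIntegrable_log_norm fun z _ => (hf.analyticAt z).meromorphicAt

lemma ci_cont {h : ℂ → ℝ} (hh : Continuous h) (c : ℂ) (s : ℝ) : CircleIntegrable h c s :=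
  (hh.comp (continuous_circleMap c s)).intervalIntegrable _ _

lemma jensen_ineq {f : ℂ → ℂ} (hf : Differentiable ℂ f) {c : ℂ} (hc : f c ≠ 0) {s : ℝ}
    (hs : 0 < s) : Real.log ‖f c‖ ≤ circleAverage (fun z => Real.log ‖f z‖) c s := by
  have ha : AnalyticOnNhd ℂ f (Metric.closedBall c |s|) := fun z _ => hf.analyticAt z
  rw [ha.circleAverage_log_norm hs.ne' hc, le_add_iff_nonneg_left]
  refine finsum_nonneg fun u => ?_
  by_cases hu : u ∈ Metric.closedBall c |s|
  · refine mul_nonneg (by exact_mod_cast MeromorphicOn.AnalyticOnNhd.divisor_nonneg ha u) ?_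
    rw [abs_of_pos hs, Metric.mem_closedBall, dist_comm, dist_eq_norm] at hu
    rcases (norm_nonneg (c - u)).eq_or_lt with h | h
    · simp [← h]
    · exact Real.log_nonneg (by rw [← div_eq_mul_inv, one_le_div h]; exact hu)
  · simp [hu]

lemma avg_im (c : ℂ) (s : ℝ) : circleAverage (fun z : ℂ => z.im) c s = c.im :=
  InnerProductSpace.HarmonicOnNhd.circleAverage_eq fun z _ =>
    (analyticAt_id (𝕜 := ℂ) (z := z)).harmonicAt_im

lemma avg_pos {s : ℝ} (hs : 0 ≤ s) : circleAverage (fun z : ℂ => max z.im 0) 0 s = s / Real.pi := by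
  have hc : Continuous fun θ : ℝ => max (s * Real.sin θ) 0 := by fun_prop
  have h1 : ∫ θ in (0 : ℝ)..Real.pi, max (s * Real.sin θ) 0 = 2 * s := by
    rw [intervalIntegral.integral_congr (g := fun θ => s * Real.sin θ) fun θ hθ => by
      rw [uIcc_of_le Real.pi_pos.le] at hθ
      exact max_eq_left (mul_nonneg hs (Real.sin_nonneg_of_mem_Icc hθ))]
    simp; ring
  have h2 : ∫ θ in Real.pi..2 * Real.pi, max (s * Real.sin θ) 0 = 0 := by
    rw [intervalIntegral.integral_congr (g := fun _ => 0) fun θ hθ => by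
      rw [uIcc_of_le (by linarith [Real.pi_pos])] at hθ
      have := Real.sin_nonneg_of_mem_Icc (x := θ - Real.pi) ⟨by linarith [hθ.1], by linarith [hθ.2]⟩
      rw [Real.sin_sub_pi] at this
      exact max_eq_right (by nlinarith)]
    simp
  simp only [Real.circleAverage_def, circleMap_zero_im]
  rw [← intervalIntegral.integral_add_adjacent_intervals (b := Real.pi) (hc.intervalIntegrable _ _)
    (hc.intervalIntegrable _ _), h1, h2, smul_eq_mul]
  field_simp
  ring

lemma avg_h (a b : ℝ) {s : ℝ} (hs : 0 ≤ s) :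
    circleAverage (fun z : ℂ => a * max (-z.im) 0 + b * max z.im 0) 0 s
      = s * ((a + b) / Real.pi) := by
  have e : (fun z : ℂ => a * max (-z.im) 0 + b * max z.im 0)
      = fun z : ℂ => (a + b) • max z.im 0 - a • z.im := by
    ext z
    rcases le_total z.im 0 with h | h
    · simp [h]
    · simp [h]; ring
  rw [e, Real.circleAverage_fun_sub (ci_cont (by fun_prop) _ _) (ci_cont (by fun_prop) _ _),
    Real.circleAverage_fun_smul, Real.circleAverage_fun_smul, avg_pos hs, avg_im]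
  simp; ring

lemma polar {W : ℂ → ℝ≥0∞} (hW : Measurable W) (c : ℂ) {T : Set ℝ} (hT : MeasurableSet T)
    (hT0 : T ⊆ Ioi 0) : ∫⁻ z in {z | ‖z - c‖ ∈ T}, W z
      = ∫⁻ s in T, ENNReal.ofReal s * ∫⁻ θ in Ioo (-Real.pi) Real.pi, W (circleMap c s θ) := by
  have hm : MeasurableSet {z : ℂ | ‖z - c‖ ∈ T} := hT.preimage (by fun_prop)
  have hW' : ∀ s, Measurable fun θ => W (circleMap c s θ) := fun s =>
    hW.comp (continuous_circleMap c s).measurable
  have hc : Measurable fun p : ℝ × ℝ => c + Complex.polarCoord.symm p := by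
    simp only [Complex.polarCoord_symm_apply]; fun_prop
  rw [← lintegral_indicator hm, ← lintegral_add_left_eq_self _ c,
    ← Complex.lintegral_comp_polarCoord_symm, polarCoord_target, Measure.volume_eq_prod,
    ← Measure.prod_restrict, lintegral_prod _ (Measurable.aemeasurable (by
      exact (measurable_fst.ennreal_ofReal).mul ((hW.indicator hm).comp hc))),
    show volume.restrict T = (volume.restrict (Ioi 0)).restrict T by
      rw [Measure.restrict_restrict hT, inter_eq_left.mpr hT0], ← lintegral_indicator hT]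
  refine setLIntegral_congr_fun measurableSet_Ioi fun s hs => ?_
  have e : ∀ θ : ℝ, c + Complex.polarCoord.symm (s, θ) = circleMap c s θ := fun θ => by
    simp [circleMap, Complex.exp_mul_I]
  have e2 : ∀ θ : ℝ, circleMap c s θ ∈ {z : ℂ | ‖z - c‖ ∈ T} ↔ s ∈ T := fun θ => by
    simp [abs_of_pos (mem_Ioi.mp hs)]
  by_cases h : s ∈ T
  · simp only [e, indicator_of_mem h, indicator_of_mem ((e2 _).mpr h), smul_eq_mul]
    exact lintegral_const_mul _ (hW' s)
  · simp only [e, indicator_of_notMem h, indicator_of_notMem (mt (e2 _).mp h)]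
    simp

lemma lint_circle {u : ℂ → ℝ} {c : ℂ} {s : ℝ} (hu : CircleIntegrable u c s) (h0 : ∀ z, 0 ≤ u z) :
    ∫⁻ θ in Ioo (-Real.pi) Real.pi, ENNReal.ofReal (u (circleMap c s θ))
      = ENNReal.ofReal (2 * Real.pi * circleAverage u c s) := by
  have hp : (fun θ => u (circleMap c s θ)).Periodic (2 * Real.pi) := fun x => by
    simp [periodic_circleMap c s x]
  have hπ := Real.pi_pos
  have h1 := hp.intervalIntegral_add_eq 0 (-Real.pi)
  have h2 : IntervalIntegrable (fun θ => u (circleMap c s θ)) volume (-Real.pi) Real.pi :=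
    hp.intervalIntegrable (t := 0) (by positivity) (by rw [zero_add]; exact hu) _ _
  rw [zero_add, show -Real.pi + 2 * Real.pi = Real.pi by ring,
    intervalIntegral.integral_of_le (a := -Real.pi) (by linarith), integral_Ioc_eq_integral_Ioo] at h1
  rw [Real.circleAverage_def, smul_eq_mul, mul_inv_cancel_left₀ (by positivity), h1,
    ofReal_integral_eq_lintegral_ofReal
      ((intervalIntegrable_iff_integrableOn_Ioo_of_le (by linarith)).mp h2)
      (Eventually.of_forall fun θ => h0 _)]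

/-- Area estimate in a large disc that sticks out a little across the real axis. -/
lemma half {F : ℂ → ℂ} (hF : Differentiable ℂ F) {h : ℂ → ℝ} (hc : Continuous h)
    {σ α M Y η K : ℝ} (hσ : |σ| = 1) (hh : ∀ z, h z ≤ -(α * σ) * z.im + M * max (σ * z.im) 0)
    (hv : ∀ z, Real.log ‖F z‖ ≤ h z) {c : ℂ} (hcY : σ * c.im = -Y) (hFc : F c ≠ 0)
    (hK : α * Y - Real.log ‖F c‖ ≤ K) (hM : 0 ≤ M) (hY : 0 ≤ Y) (hη : 0 ≤ η) (hK0 : 0 ≤ K) :
    ∫⁻ z in {z | ‖z - c‖ ∈ Ioc 0 (Y + η)}, ENNReal.ofReal (h z - Real.log ‖F z‖)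
      ≤ ENNReal.ofReal (2 * Real.pi * (Y + η) * (K * (Y + η) + M * η * η)) := by
  have hπ := Real.pi_pos
  rw [polar (by have := hF.continuous; fun_prop) c measurableSet_Ioc Ioc_subset_Ioi_self]
  have key : ∀ s ∈ Ioc 0 (Y + η), ENNReal.ofReal s * ∫⁻ θ in Ioo (-Real.pi) Real.pi,
      ENNReal.ofReal (h (circleMap c s θ) - Real.log ‖F (circleMap c s θ)‖)
      ≤ ENNReal.ofReal (2 * Real.pi * (Y + η) * K) +
        (Ioc Y (Y + η)).indicator (fun _ => ENNReal.ofReal (2 * Real.pi * (Y + η) * (M * η))) s := by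
    intro s hs
    have h1 : circleAverage (fun z => h z - Real.log ‖F z‖) c s ≤ K + M * max (s - Y) 0 := by
      rw [Real.circleAverage_fun_sub (ci_cont hc _ _) (ci_log hF _ _)]
      have h2 : circleAverage h c s ≤
          circleAverage (fun z : ℂ => -(α * σ) • z.im + M * max (s - Y) 0) c s := by
        refine Real.circleAverage_mono (ci_cont hc _ _) (ci_cont (by fun_prop) _ _) fun z hz => ?_
        refine (hh z).trans ?_
        rw [abs_of_pos hs.1, mem_sphere_iff_norm] at hz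
        have h3 : σ * (z - c).im ≤ s := by
          refine (le_abs_self _).trans ?_
          rw [abs_mul, hσ, one_mul, ← hz]
          exact abs_im_le_norm _
        rw [sub_im, mul_sub, hcY] at h3
        rw [smul_eq_mul]
        gcongr
        linarith
      rw [Real.circleAverage_fun_add (ci_cont (by fun_prop) _ _) (ci_cont (by fun_prop) _ _),
        Real.circleAverage_fun_smul, avg_im, Real.circleAverage_const, smul_eq_mul, neg_mul,
        mul_assoc, hcY] at h2
      linarith [jensen_ineq hF hFc hs.1]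
    rw [lint_circle (u := fun z => h z - Real.log ‖F z‖) ((ci_cont hc _ _).sub (ci_log hF _ _))
      (fun z => sub_nonneg.mpr (hv z)), ← ENNReal.ofReal_mul hs.1.le]
    have h4 : s * (2 * Real.pi * circleAverage (fun z => h z - Real.log ‖F z‖) c s)
        ≤ (Y + η) * (2 * Real.pi * (K + M * max (s - Y) 0)) :=
      (mul_le_mul_of_nonneg_left (by gcongr) hs.1.le).trans
        (mul_le_mul_of_nonneg_right hs.2 (by positivity))
    refine (ENNReal.ofReal_le_ofReal h4).trans ?_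
    by_cases h5 : s ∈ Ioc Y (Y + η)
    · rw [indicator_of_mem h5, ← ENNReal.ofReal_add (by positivity) (by positivity)]
      refine ENNReal.ofReal_le_ofReal ?_
      have : max (s - Y) 0 ≤ η := max_le (by linarith [hs.2]) hη
      calc _ ≤ (Y + η) * (2 * Real.pi * (K + M * η)) := by gcongr
        _ = _ := by ring
    · have : s ≤ Y := by
        by_contra h6
        exact h5 ⟨not_le.mp h6, hs.2⟩
      rw [indicator_of_notMem h5, add_zero, max_eq_right (by linarith)]
      exact le_of_eq (by congr 1; ring)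
  refine (setLIntegral_mono' measurableSet_Ioc key).trans ?_
  rw [lintegral_add_left measurable_const, setLIntegral_const, Real.volume_Ioc]
  refine (add_le_add le_rfl (setLIntegral_le_lintegral _ _)).trans ?_
  rw [lintegral_indicator_const measurableSet_Ioc, Real.volume_Ioc,
    ← ENNReal.ofReal_mul (by positivity), ← ENNReal.ofReal_mul (by positivity),
    ← ENNReal.ofReal_add (by simp only [sub_zero]; positivity)
      (by simp only [add_sub_cancel_left]; positivity)]
  exact le_of_eq (by congr 1; ring)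

end Lev

open Lev

/-- Jensen's formula -/
theorem Lev.jensen_eq {f : ℂ → ℂ} {x : ℝ} (hf : Differentiable ℂ f) (h0 : f 0 ≠ 0) (hx : 0 < x) :
    S (ord f) (kN x) = Real.circleAverage (fun z => Real.log ‖f z‖) 0 x - Real.log ‖f 0‖ := by
  have ha : AnalyticOnNhd ℂ f (Metric.closedBall 0 |x|) := fun z _ => hf.analyticAt z
  rw [ha.circleAverage_log_norm hx.ne' h0, add_sub_cancel_right, S]
  refine finsum_congr fun u => ?_
  by_cases hu : u ∈ Metric.closedBall (0 : ℂ) |x|
  · rw [MeromorphicOn.AnalyticOnNhd.divisor_apply ha hu,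
      ← Nat.cast_analyticOrderNatAt (order_ne_top hf ⟨0, h0⟩ u), kN]
    rw [abs_of_pos hx, mem_closedBall_zero_iff] at hu
    rcases (norm_nonneg u).eq_or_lt with h | h
    · simp [ord, norm_eq_zero.mp h.symm]
    · rw [Real.posLog_eq_log (by rw [abs_of_pos (by positivity), one_le_div h]; exact hu)]
      simp [ord, div_eq_mul_inv]
  · have h : x < ‖u‖ := by simpa [abs_of_pos hx] using hu
    rw [kN, (Real.posLog_eq_zero_iff _).mpr (by
      rw [abs_of_pos (div_pos hx (hx.trans h)), div_le_one (hx.trans h)]; exact h.le)]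
    simp [hu]

theorem Lev.S_kN_mono {f : ℂ → ℂ} {s x : ℝ} (hf : Differentiable ℂ f) (h0 : f 0 ≠ 0) (hs : 0 < s)
    (hsx : s ≤ x) : S (ord f) (kN s) ≤ S (ord f) (kN x) := by
  have hfin := finite_zeros hf ⟨0, h0⟩ x
  have key : ∀ t, 0 < t → t ≤ x → ∀ z, z ∉ hfin.toFinset → ord f z = 0 ∨ kN t z = 0 := by
    intro t ht htx z hz
    by_cases h : f z = 0
    · have h1 : x < ‖z‖ := by simpa [h] using hz
      refine Or.inr ((Real.posLog_eq_zero_iff _).mpr ?_)
      rw [abs_of_pos (div_pos ht (by linarith)), div_le_one (by linarith)]; linarith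
    · exact Or.inl (ord_eq_zero hf h)
  rw [S_eq_sum _ (key s hs hsx), S_eq_sum _ (key x (hs.trans_le hsx) le_rfl)]
  refine Finset.sum_le_sum fun z _ => mul_le_mul_of_nonneg_left ?_ (Nat.cast_nonneg _)
  exact Real.posLog_le_posLog (by positivity) (by gcongr)

theorem jensen_upper {f : ℂ → ℂ} {a b c x : ℝ} (hf : Differentiable ℂ f) (h0 : f 0 ≠ 0)
    (hub : ∀ z : ℂ, ‖f z‖ ≤ ‖f 0‖ * Real.exp (a * max (-z.im) 0 + b * max z.im 0 + c * ‖z‖))
    (hx : 0 < x) : S (ord f) (kN x) ≤ x * ((a + b) / Real.pi + c) := by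
  have h1 : Real.circleAverage (fun z => Real.log ‖f z‖) 0 x ≤ Real.circleAverage
      (fun z => (a * max (-z.im) 0 + b * max z.im 0) + (c * x + Real.log ‖f 0‖)) 0 x := by
    rw [Real.circleAverage_def, Real.circleAverage_def, smul_eq_mul, smul_eq_mul]
    refine mul_le_mul_of_nonneg_left (intervalIntegral.integral_mono_ae (by positivity)
      (ci_log hf 0 x) (ci_cont (h := fun z => (a * max (-z.im) 0 + b * max z.im 0)
        + (c * x + Real.log ‖f 0‖)) (by fun_prop) 0 x) ?_) (by positivity)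
    have h2 := ((finite_zeros hf ⟨0, h0⟩ x).countable.preimage_circleMap 0 hx.ne').measure_zero
      volume
    filter_upwards [measure_eq_zero_iff_ae_notMem.mp h2] with θ hθ
    have h3 : ‖circleMap 0 x θ‖ = x := by simp [abs_of_pos hx]
    have h4 : f (circleMap 0 x θ) ≠ 0 := fun h => hθ ⟨h3.le, h⟩
    have h5 := Real.log_le_log (norm_pos_iff.mpr h4) (hub _)
    rw [Real.log_mul (norm_ne_zero_iff.mpr h0) (Real.exp_ne_zero _), Real.log_exp, h3] at h5
    linarith
  rw [Real.circleAverage_fun_add (ci_cont (by fun_prop) _ _) (ci_cont (by fun_prop) _ _),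
    avg_h a b hx.le, Real.circleAverage_const] at h1
  rw [jensen_eq hf h0 hx]
  linarith

theorem Lev.core {F : ℂ → ℂ} {a b δ x K : ℝ} (hF : Differentiable ℂ F) (h0 : F 0 = 1) (ha : 0 ≤ a)
    (hb : 0 ≤ b) (hub : ∀ z : ℂ, ‖F z‖ ≤ Real.exp (a * max (-z.im) 0 + b * max z.im 0))
    (hδ : 0 < δ) (hδ1 : δ ≤ 1 / 2) (hx : 0 < x) (hK : 0 ≤ K)
    (h1 : F (-(I * (x / (2 * δ ^ 2) : ℝ))) ≠ 0) (h2 : F (I * (x / (2 * δ ^ 2) : ℝ)) ≠ 0)
    (h3 : a * (x / (2 * δ ^ 2)) - Real.log ‖F (-(I * (x / (2 * δ ^ 2) : ℝ)))‖ ≤ K)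
    (h4 : b * (x / (2 * δ ^ 2)) - Real.log ‖F (I * (x / (2 * δ ^ 2) : ℝ))‖ ≤ K) :
    x * ((a + b) / Real.pi) - 5 * (a + b) * δ * x - 4 * K / δ ^ 5 ≤ S (ord F) (kN x) := by
  have hπ := Real.pi_pos
  have h0' : F 0 ≠ 0 := by simp [h0]
  obtain ⟨Y, hY⟩ : ∃ Y, Y = x / (2 * δ ^ 2) := ⟨_, rfl⟩
  obtain ⟨η, hη⟩ : ∃ η, η = δ ^ 2 * x := ⟨_, rfl⟩
  obtain ⟨r, hr⟩ : ∃ r, r = (1 - δ) * x := ⟨_, rfl⟩
  rw [← hY] at h1 h2 h3 h4
  have hY0 : 0 < Y := by rw [hY]; positivity
  have hη0 : 0 < η := by rw [hη]; positivity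
  have hr1 : x / 2 ≤ r := by rw [hr]; nlinarith
  have hr0 : 0 < r := by linarith
  have hxY : x < Y := by
    rw [hY, lt_div_iff₀ (by positivity)]
    have : δ ^ 2 ≤ 1 / 4 := by nlinarith
    nlinarith
  have hYη : 2 * Y * η = x ^ 2 := by rw [hY, hη]; field_simp
  set h : ℂ → ℝ := fun z => a * max (-z.im) 0 + b * max z.im 0 with hh
  have hc : Continuous h := by fun_prop
  have hv : ∀ z, Real.log ‖F z‖ ≤ h z := fun z => by
    rcases (norm_nonneg (F z)).eq_or_lt with e | e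
    · rw [← e, Real.log_zero]; positivity
    · exact (Real.log_le_iff_le_exp e).mpr (hub z)
  have u1 := half hF hc (σ := 1) (α := a) (M := a + b) (Y := Y) (η := η) (by simp) (fun z => by
    rcases le_total z.im 0 with e | e <;> simp [hh, e]; linarith) hv (c := -(I * Y)) (by simp) h1 h3
    (by positivity) hY0.le hη0.le hK
  have u2 := half hF hc (σ := -1) (α := b) (M := a + b) (Y := Y) (η := η) (by simp) (fun z => by
    rcases le_total z.im 0 with e | e <;> simp [hh, e]; linarith) hv (c := I * Y) (by simp) h2 h4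
    (by positivity) hY0.le hη0.le hK
  have hsub : {z : ℂ | ‖z - 0‖ ∈ Ioc r x} ⊆ {z | ‖z - -(I * Y)‖ ∈ Ioc 0 (Y + η)} ∪
      {z | ‖z - I * Y‖ ∈ Ioc 0 (Y + η)} := by
    intro z hz
    have hz2 : ‖z‖ ≤ x := by simpa using hz.2
    have hz3 : z.re ^ 2 + z.im ^ 2 ≤ x ^ 2 := by
      have : ‖z‖ ^ 2 ≤ x ^ 2 := by gcongr
      rwa [Complex.sq_norm, normSq_apply, ← sq, ← sq] at this
    have hI : ‖I * (Y : ℂ)‖ = Y := by simp [abs_of_pos hY0]
    rcases le_total z.im 0 with e | e
    · refine Or.inl ⟨?_, le_of_sq_le_sq ?_ (by positivity)⟩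
      · have := norm_sub_norm_le (-(I * Y)) z
        rw [norm_neg, hI, norm_sub_rev] at this
        linarith
      · rw [Complex.sq_norm, normSq_apply]; simp; nlinarith
    · refine Or.inr ⟨?_, le_of_sq_le_sq ?_ (by positivity)⟩
      · have := norm_sub_norm_le (I * Y) z
        rw [hI, norm_sub_rev] at this
        linarith
      · rw [Complex.sq_norm, normSq_apply]; simp; nlinarith
  have l1 := (lintegral_mono_set hsub).trans ((lintegral_union_le _ _ _).trans (add_le_add u1 u2))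
  rw [polar (by have := hF.continuous; fun_prop) 0 measurableSet_Ioc
    (fun s hs => hr0.trans hs.1)] at l1
  obtain ⟨D, hD⟩ : ∃ D, D = r * ((a + b) / Real.pi) - S (ord F) (kN x) := ⟨_, rfl⟩
  have l2 : ∀ s ∈ Ioc r x, ENNReal.ofReal r * ENNReal.ofReal (2 * Real.pi * D) ≤ ENNReal.ofReal s *
      ∫⁻ θ in Ioo (-Real.pi) Real.pi,
        ENNReal.ofReal (h (circleMap 0 s θ) - Real.log ‖F (circleMap 0 s θ)‖) := by
    intro s hs
    have hs0 := hr0.trans hs.1
    rw [lint_circle (u := fun z => h z - Real.log ‖F z‖) ((ci_cont hc _ _).sub (ci_log hF _ _))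
      (fun z => sub_nonneg.mpr (hv z)), Real.circleAverage_fun_sub (ci_cont hc _ _) (ci_log hF _ _),
      avg_h a b hs0.le]
    have e := jensen_eq hF h0' hs0
    rw [h0, norm_one, Real.log_one, sub_zero] at e
    have := S_kN_mono hF h0' hs0 hs.2
    have : r * ((a + b) / Real.pi) ≤ s * ((a + b) / Real.pi) := by gcongr; exact hs.1.le
    gcongr
    · exact hs.1.le
    · linarith
  have l3 := (setLIntegral_mono' measurableSet_Ioc l2).trans l1
  rw [setLIntegral_const, Real.volume_Ioc, ← ENNReal.ofReal_mul hr0.le, mul_comm,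
    ← ENNReal.ofReal_mul (by rw [hr]; nlinarith),
    ← ENNReal.ofReal_add (by positivity) (by positivity),
    ENNReal.ofReal_le_ofReal_iff (by positivity)] at l3
  have hρ : Y + η ≤ x / δ ^ 2 := by
    rw [hY, hη, le_div_iff₀ (by positivity)]
    have e : (x / (2 * δ ^ 2) + δ ^ 2 * x) * δ ^ 2 = x / 2 + δ ^ 2 * δ ^ 2 * x := by field_simp
    have : δ ^ 2 ≤ 1 / 4 := by nlinarith
    have : δ ^ 2 * δ ^ 2 ≤ 1 / 4 * (1 / 4) := by gcongr
    rw [e]; nlinarith
  have l4 : D ≤ 4 * (a + b) * δ * x + 4 * K / δ ^ 5 := by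
    rcases le_total D 0 with e | e
    · exact e.trans (by positivity)
    have e1 : x - r = δ * x := by rw [hr]; ring
    have a1 : δ * x * (x / 2 * (2 * Real.pi * D)) ≤ (x - r) * (r * (2 * Real.pi * D)) := by
      rw [e1]; gcongr
    have a2 : 2 * Real.pi * (Y + η) * (K * (Y + η) + (a + b) * η * η)
        ≤ 2 * Real.pi * (x / δ ^ 2) * (K * (x / δ ^ 2) + (a + b) * η * η) := by gcongr
    have a3 : 2 * (2 * Real.pi * (x / δ ^ 2) * (K * (x / δ ^ 2) + (a + b) * η * η))
        = δ * x * (x / 2 * (2 * Real.pi * (4 * (a + b) * δ * x + 4 * K / δ ^ 5))) := by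
      rw [hη]; field_simp; ring
    have a4 : δ * x * (x / 2 * (2 * Real.pi * D))
        ≤ δ * x * (x / 2 * (2 * Real.pi * (4 * (a + b) * δ * x + 4 * K / δ ^ 5))) := by linarith
    exact le_of_mul_le_mul_left (le_of_mul_le_mul_left (le_of_mul_le_mul_left a4 (by positivity))
      (by positivity)) (by positivity)
  have l5 : δ * x * ((a + b) / Real.pi) ≤ δ * x * (a + b) := by
    gcongr
    exact div_le_self (by positivity) (by linarith [Real.pi_gt_three])
  rw [hD, hr] at l4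
  linarith

theorem levinson {ε A : ℝ} (hε : 0 < ε) : ∃ ε₁ > 0, ∀ c₀ > 0, ∃ x₀ : ℝ, ∀ (f : ℂ → ℂ) (a b : ℝ),
    0 ≤ a → a ≤ A → 0 ≤ b → b ≤ A → Differentiable ℂ f → f 0 ≠ 0 →
    (∀ z : ℂ, ‖f z‖ ≤ ‖f 0‖ * Real.exp (a * max (-z.im) 0 + b * max z.im 0)) →
    (∀ y : ℝ, 0 ≤ y → c₀ * ‖f 0‖ * Real.exp ((a - ε₁) * y) ≤ ‖f (-(I * y))‖) →
    (∀ y : ℝ, 0 ≤ y → c₀ * ‖f 0‖ * Real.exp ((b - ε₁) * y) ≤ ‖f (I * y)‖) →
    ∀ x ≥ x₀, x * ((a + b) / Real.pi - ε) ≤ S (ord f) (kN x) := by
  obtain ⟨δ, hδ, hδ1, hδ2⟩ : ∃ δ : ℝ, 0 < δ ∧ δ ≤ 1 / 2 ∧ 30 * (|A| + 1) * δ ≤ ε :=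
    ⟨min (1 / 2) (ε / (30 * (|A| + 1))), by positivity, min_le_left _ _,
      by rw [← le_div_iff₀' (by positivity)]; exact min_le_right _ _⟩
  refine ⟨ε * δ ^ 7 / 6, by positivity, fun c₀ hc₀ => ⟨12 * |Real.log c₀| / (ε * δ ^ 5) + 1, ?_⟩⟩
  intro f a b ha haA hb hbA hf h0 hub hl1 hl2 x hx
  have hx1 : 12 * |Real.log c₀| / (ε * δ ^ 5) ≤ x := by linarith
  have hx0 : 0 < x := lt_of_lt_of_le (by positivity) hx
  have hn : 0 < ‖f 0‖ := norm_pos_iff.mpr h0
  have hY : 0 ≤ x / (2 * δ ^ 2) := by positivity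
  have key : ∀ (w : ℂ) (t Y : ℝ), c₀ * ‖f 0‖ * Real.exp ((t - ε * δ ^ 7 / 6) * Y) ≤ ‖f w‖ →
      f w * (f 0)⁻¹ ≠ 0 ∧ t * Y - Real.log ‖f w * (f 0)⁻¹‖
        ≤ ε * δ ^ 7 / 6 * Y + |Real.log c₀| := by
    intro w t Y h
    have h1 : f w ≠ 0 := norm_pos_iff.mp (lt_of_lt_of_le (by positivity) h)
    refine ⟨mul_ne_zero h1 (inv_ne_zero h0), ?_⟩
    have h2 := Real.log_le_log (by positivity) h
    rw [Real.log_mul (by positivity) (Real.exp_ne_zero _), Real.log_mul hc₀.ne' hn.ne',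
      Real.log_exp] at h2
    rw [norm_mul, norm_inv, Real.log_mul (norm_ne_zero_iff.mpr h1) (inv_ne_zero hn.ne'),
      Real.log_inv]
    linarith [neg_abs_le (Real.log c₀)]
  have h := Lev.core (F := fun w => f w * (f 0)⁻¹) (hf.mul_const _) (mul_inv_cancel₀ h0) ha hb
    (fun z => by
      rw [norm_mul, norm_inv, ← div_eq_mul_inv, div_le_iff₀' hn]; exact hub z) hδ hδ1 hx0
    (K := ε * δ ^ 7 / 6 * (x / (2 * δ ^ 2)) + |Real.log c₀|) (by positivity)
    (key _ _ _ (hl1 _ hY)).1 (key _ _ _ (hl2 _ hY)).1 (key _ _ _ (hl1 _ hY)).2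
    (key _ _ _ (hl2 _ hY)).2
  have e : ord (fun w => f w * (f 0)⁻¹) = ord f := funext fun z => by
    rw [ord_mul hf (differentiable_const _) ⟨0, h0⟩ ⟨0, inv_ne_zero h0⟩,
      ord_eq_zero (differentiable_const _) (inv_ne_zero h0), add_zero]
  have e2 : 4 * (ε * δ ^ 7 / 6 * (x / (2 * δ ^ 2)) + |Real.log c₀|) / δ ^ 5
      = ε * x / 3 + ε / 3 * (12 * |Real.log c₀| / (ε * δ ^ 5)) := by field_simp; ring
  rw [e, e2] at h
  have a1 : ε / 3 * (12 * |Real.log c₀| / (ε * δ ^ 5)) ≤ ε / 3 * x := by gcongr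
  have a2 : 5 * (a + b) * δ * x ≤ ε / 3 * x := by
    have := le_abs_self A
    have : 5 * (a + b) * δ ≤ 10 * (|A| + 1) * δ :=
      mul_le_mul_of_nonneg_right (by linarith) hδ.le
    gcongr
    linarith
  linarith

end Pool.Agent.MP_f27d50_gt
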