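import Pool.Agent.MP_f27d50_gt.Defs

set_option autoImplicit false

open MeasureTheory Set Filter Topology Complex
open scoped ENNReal Pointwise ComplexConjugate

noncomputable section

namespace Pool.Agent.MP_f27d50_gt

theorem SubH.subAt_zero {k : ℂ → ℝ} {z : ℂ} (h0 : k z = 0) (h : ∀ w, 0 ≤ k w) : SubAt k z :=
  ⟨fun _ => 0, analyticAt_const, by simp [h0], Eventually.of_forall fun w => by simpa using h w⟩

open SubH

theorem ker_kN {x : ℝ} (hx : 0 < x) : Ker (kN x) := by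
  refine ⟨?_, x, fun z hz => ?_⟩
  · refine ContinuousOn.sup continuousOn_const (ContinuousOn.log
      (continuousOn_const.div continuous_norm.continuousOn fun z hz => norm_ne_zero_iff.2 hz) ?_)
    exact fun z hz => div_ne_zero hx.ne' (norm_ne_zero_iff.2 hz)
  · unfold kN
    rw [Real.posLog_eq_zero_iff, abs_of_nonneg (by positivity)]
    exact div_le_one_of_le₀ hz (norm_nonneg _)

theorem sub_kN {x : ℝ} (hx : 0 < x) (z : ℂ) (hz : z ≠ 0) : SubAt (kN x) z := by
  by_cases h : Real.log (x / ‖z‖) ≤ 0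
  · exact subAt_zero (max_eq_left h) fun w => Real.posLog_nonneg
  refine ⟨fun w => -Complex.log (w / z) + (Real.log (x / ‖z‖) : ℂ), ?_, ?_, ?_⟩
  · refine (AnalyticAt.clog (analyticAt_id.div_const) ?_).neg.add analyticAt_const
    simp [div_self hz]
  · simp only [div_self hz, Complex.log_one, neg_zero, zero_add, ofReal_re]
    exact (max_eq_right (not_le.1 h).le).symm
  · filter_upwards [isOpen_ne.mem_nhds hz] with w hw
    have h1 := norm_ne_zero_iff.2 hw
    have h2 := norm_ne_zero_iff.2 hz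
    rw [add_re, neg_re, ofReal_re, Complex.log_re, norm_div, Real.log_div h1 h2,
      Real.log_div hx.ne' h2]
    have : Real.log (x / ‖w‖) ≤ kN x w := le_max_right _ _
    rw [Real.log_div hx.ne' h1] at this
    linarith

theorem ker_kC {r : ℝ} (hr : 0 < r) : Ker (kC r) := by
  refine ⟨?_, r, fun z hz => ?_⟩
  · refine (continuous_im.abs.continuousOn).mul (ContinuousOn.sup (ContinuousOn.sub
      (continuousOn_const.div (continuous_norm.pow 2).continuousOn fun z hz => ?_)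
      continuousOn_const) continuousOn_const)
    exact pow_ne_zero _ (norm_ne_zero_iff.2 hz)
  · unfold kC
    rw [max_eq_right, mul_zero]
    exact sub_nonpos.2 (one_div_le_one_div_of_le (by positivity) (by gcongr))

theorem sub_kC {r : ℝ} (hr : 0 < r) (z : ℂ) (hz : z ≠ 0) : SubAt (kC r) z := by
  have _ := hr
  have hn : ∀ w, 0 ≤ kC r w := fun w => mul_nonneg (abs_nonneg _) (le_max_right _ _)
  by_cases h : 1 / ‖z‖ ^ 2 - 1 / r ^ 2 ≤ 0
  · exact subAt_zero (by rw [kC, max_eq_right h, mul_zero]) hn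
  rw [not_le] at h
  obtain ⟨σ, hσ, hσ'⟩ : ∃ σ : ℝ, |σ| = 1 ∧ σ * z.im = |z.im| := by
    rcases le_total 0 z.im with h | h
    · exact ⟨1, by simp, by simp [abs_of_nonneg h]⟩
    · exact ⟨-1, by simp, by simp [abs_of_nonpos h]⟩
  have key : ∀ w : ℂ, ((σ : ℂ) * (I * w⁻¹ + I * w * ((1 / r ^ 2 : ℝ) : ℂ))).re =
      σ * w.im * (1 / ‖w‖ ^ 2 - 1 / r ^ 2) := by
    intro w
    generalize 1 / r ^ 2 = a
    simp [Complex.normSq_eq_norm_sq]
    ring
  refine ⟨fun w => (σ : ℂ) * (I * w⁻¹ + I * w * ((1 / r ^ 2 : ℝ) : ℂ)), ?_, ?_, ?_⟩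
  · exact analyticAt_const.mul ((analyticAt_const.mul (analyticAt_id.inv hz)).add
      ((analyticAt_const.mul analyticAt_id).mul analyticAt_const))
  · rw [key, hσ', kC, max_eq_left h.le]
  · have hc : ContinuousAt (fun w : ℂ => 1 / ‖w‖ ^ 2 - 1 / r ^ 2) z :=
      (continuousAt_const.div (continuous_norm.pow 2).continuousAt
        (pow_ne_zero _ (norm_ne_zero_iff.2 hz))).sub continuousAt_const
    filter_upwards [hc.eventually (lt_mem_nhds h)] with w hw
    rw [key, kC, max_eq_left hw.le]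
    refine mul_le_mul_of_nonneg_right ((le_abs_self _).trans ?_) hw.le
    rw [abs_mul, hσ, one_mul]

theorem max_principle {u : ℂ → ℝ} {g : ℂ → ℂ} {U : Set ℂ} (hU : IsOpen U)
    (hb : Bornology.IsBounded U) (hu : ContinuousOn u (closure U)) (hs : ∀ z ∈ U, SubAt u z)
    (hg : DiffContOnCl ℂ g U) (hfr : ∀ z ∈ frontier U, u z ≤ (g z).re) :
    ∀ z ∈ closure U, u z ≤ (g z).re := by
  intro z hz
  by_contra hlt
  have hK : IsCompact (closure U) := hb.isCompact_closure
  have hv : ContinuousOn (fun w => u w - (g w).re) (closure U) :=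
    hu.sub (continuous_re.comp_continuousOn hg.continuousOn)
  obtain ⟨z₁, hz₁, hm⟩ := hK.exists_isMaxOn ⟨z, hz⟩ hv
  set m := u z₁ - (g z₁).re with hmd
  have hm' : ∀ w ∈ closure U, u w - (g w).re ≤ m := fun w hw => hm hw
  have hm0 : 0 < m := (sub_pos.2 (not_le.1 hlt)).trans_le (hm' z hz)
  have hK2 : IsCompact (closure U ∩ (fun w => u w - (g w).re) ⁻¹' {m}) :=
    hK.of_isClosed_subset (hv.preimage_isClosed_of_isClosed isClosed_closure isClosed_singleton)
      inter_subset_left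
  obtain ⟨z₀, ⟨hz₀, hz₀m⟩, hmax⟩ := hK2.exists_isMaxOn ⟨z₁, hz₁, rfl⟩ continuous_re.continuousOn
  have hz₀m' : u z₀ - (g z₀).re = m := hz₀m
  have hzU : z₀ ∈ U := by
    by_contra h
    have := hfr z₀ (by rw [hU.frontier_eq]; exact ⟨hz₀, h⟩)
    linarith
  obtain ⟨h, ha, he, hle⟩ := hs z₀ hzU
  have hUn := hU.mem_nhds hzU
  have h1 := norm_eventually_eq_of_isLocalMax (f := fun w => Complex.exp (h w - g w)) (c := z₀)
    (by
      filter_upwards [ha.eventually_analyticAt, hUn] with w h1 h2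
      exact (h1.differentiableAt.sub (hg.differentiableAt hU h2)).cexp)
    (by
      filter_upwards [hle, hUn] with w h1 h2
      simp only [Function.comp_apply, norm_exp, sub_re, Real.exp_le_exp]
      linarith [hm' w (subset_closure h2)])
  have h2 : ∀ᶠ w in 𝓝 z₀, w.re ≤ z₀.re := by
    filter_upwards [h1, hle, hUn] with w k1 k2 k3
    simp only [norm_exp, sub_re, Real.exp_eq_exp] at k1
    exact hmax ⟨subset_closure k3, le_antisymm (hm' w (subset_closure k3)) (by linarith)⟩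
  have h3 : Tendsto (fun t : ℝ => z₀ + t) (𝓝[>] 0) (𝓝 z₀) :=
    ((by fun_prop : Continuous fun t : ℝ => z₀ + t).tendsto' 0 z₀ (by simp)).mono_left
      nhdsWithin_le_nhds
  obtain ⟨t, k1, k2⟩ := ((h3.eventually h2).and self_mem_nhdsWithin).exists
  simp only [add_re, ofReal_re] at k1
  exact absurd k2 (not_lt.2 (by linarith))

theorem SubH.approx {v : ℂ → ℝ} (hv : Continuous v) {ε : ℝ} (hε : 0 < ε) :
    ∃ g : ℂ → ℂ, Differentiable ℂ g ∧ ∀ w : ℂ, ‖w‖ = 1 → |v w - (g w).re| ≤ ε := by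
  have : Fact ((0 : ℝ) < 1) := ⟨one_pos⟩
  let φ : C(AddCircle (1 : ℝ), ℂ) := ⟨fun x => (v (fourier 1 x) : ℂ), by fun_prop⟩
  have hφ : φ ∈ closure (Submodule.span ℂ (range (@fourier 1)) : Set C(AddCircle (1 : ℝ), ℂ)) := by
    rw [← Submodule.topologicalClosure_coe, span_fourier_closure_eq_top]
    trivial
  obtain ⟨T, hT, hd⟩ := Metric.mem_closure_iff.1 hφ ε hε
  have hp : ∀ (n : ℕ) (x : AddCircle (1 : ℝ)), fourier n x = fourier 1 x ^ n := by
    intro n x
    induction n with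
    | zero => simp
    | succ n ih => rw [Nat.cast_succ, fourier_add, ih, pow_succ]
  have key : ∀ a : ℂ, ∃ g : ℂ → ℂ, Differentiable ℂ g ∧
      ∀ x, (a * T x).re = (g (fourier 1 x)).re := by
    clear hd
    induction hT using Submodule.span_induction with
    | mem T hT =>
      obtain ⟨n, rfl⟩ := hT
      intro a
      obtain ⟨n, rfl | rfl⟩ := n.eq_nat_or_neg
      · exact ⟨fun w => a * w ^ n, by fun_prop, fun x => by rw [hp]⟩
      · refine ⟨fun w => conj a * w ^ n, by fun_prop, fun x => ?_⟩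
        rw [fourier_neg, hp, ← conj_re (a * _), map_mul, conj_conj]
    | zero => exact fun a => ⟨fun _ => 0, by fun_prop, fun x => by simp⟩
    | add S T _ _ hS hT =>
      intro a
      obtain ⟨g, h1, h2⟩ := hS a
      obtain ⟨g', h1', h2'⟩ := hT a
      exact ⟨fun w => g w + g' w, h1.add h1', fun x => by
        rw [ContinuousMap.add_apply, mul_add, add_re, h2, h2', add_re]⟩
    | smul b T _ hT =>
      intro a
      obtain ⟨g, h1, h2⟩ := hT (a * b)
      exact ⟨g, h1, fun x => by rw [ContinuousMap.smul_apply, smul_eq_mul, ← mul_assoc, h2]⟩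
  obtain ⟨g, h1, h2⟩ := key 1
  refine ⟨g, h1, fun w hw => ?_⟩
  have e : fourier 1 ((w.arg / (2 * Real.pi) : ℝ) : AddCircle (1 : ℝ)) = w := by
    have hpi : (Real.pi : ℂ) ≠ 0 := by exact_mod_cast Real.pi_ne_zero
    rw [fourier_coe_apply]
    conv_rhs => rw [← norm_mul_exp_arg_mul_I w, hw]
    push_cast
    rw [one_mul]
    congr 1
    field_simp
  generalize ((w.arg / (2 * Real.pi) : ℝ) : AddCircle (1 : ℝ)) = x at e
  have h3 := (ContinuousMap.dist_apply_le_dist (f := φ) (g := T) x).trans hd.le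
  rw [← e, ← h2, one_mul]
  rw [dist_eq_norm] at h3
  exact (abs_re_le_norm (φ x - T x)).trans h3

theorem transfer {u₁ u₂ : ℂ → ℝ} {c t : ℂ} {ρ M : ℝ} (hρ : 0 < ρ) (c₁ : Continuous u₁)
    (c₂ : Continuous u₂) (s₁ : ∀ z, SubAt u₁ z) (s₂ : ∀ z, SubAt u₂ z) (n₁ : ∀ z, 0 ≤ u₁ z)
    (n₂ : ∀ z, 0 ≤ u₂ z) (hM : ∀ z ∈ Metric.closedBall c ρ, u₁ z + u₂ z ≤ M)
    (ht : ‖t - c‖ ≤ ρ / 2) : u₁ t ≤ M - u₂ c + 8 * M * ‖t - c‖ / ρ := by
  have hM0 : 0 ≤ M := (add_nonneg (n₁ c) (n₂ c)).trans (hM c (Metric.mem_closedBall_self hρ.le))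
  refine le_of_forall_pos_le_add fun ε' hε' => ?_
  obtain ⟨ε, rfl, hε⟩ : ∃ ε, ε' = 6 * ε ∧ 0 < ε := ⟨ε' / 6, by ring, by positivity⟩
  obtain ⟨g, hg, hap⟩ := approx (v := fun w => u₁ (c + ρ * w)) (by fun_prop) hε
  have hρ' : (ρ : ℂ) ≠ 0 := by exact_mod_cast hρ.ne'
  set G : ℂ → ℂ := fun z => g ((z - c) / ρ) with hG
  have hGd : Differentiable ℂ G := hg.comp (by fun_prop)
  have hfr : ∀ z ∈ frontier (Metric.ball c ρ), |u₁ z - (G z).re| ≤ ε ∧ u₁ z + u₂ z ≤ M := by
    intro z hz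
    rw [frontier_ball c hρ.ne'] at hz
    refine ⟨?_, hM z (Metric.sphere_subset_closedBall hz)⟩
    have := hap ((z - c) / ρ) (by
      rw [norm_div, mem_sphere_iff_norm.1 hz, norm_real, Real.norm_of_nonneg hρ.le, div_self hρ.ne'])
    rwa [mul_div_cancel₀ _ hρ', add_sub_cancel] at this
  have b1 := max_principle (u := u₁) (g := fun z => G z + ε) Metric.isOpen_ball
    Metric.isBounded_ball c₁.continuousOn (fun z _ => s₁ z) (hGd.add_const _).diffContOnCl
    (fun z hz => by have := abs_le.1 (hfr z hz).1; simp only [add_re, ofReal_re]; linarith)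
  have b2 := max_principle (u := u₂) (g := fun z => ((M + ε : ℝ) : ℂ) - G z) Metric.isOpen_ball
    Metric.isBounded_ball c₂.continuousOn (fun z _ => s₂ z) (hGd.const_sub _).diffContOnCl
    (fun z hz => by
      have := abs_le.1 (hfr z hz).1
      simp only [sub_re, ofReal_re]; linarith [(hfr z hz).2])
  simp only [add_re, sub_re, ofReal_re] at b1 b2
  have hc : c ∈ closure (Metric.ball c ρ) := subset_closure (Metric.mem_ball_self hρ)
  have htρ : ‖t - c‖ < ρ := by linarith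
  have b3 := borelCaratheodory_zero (f := fun w => G (c + w) - G c) (M := M + 2 * ε) (R := ρ)
    (z := t - c) (by positivity) ((hGd.comp (by fun_prop)).sub_const _).differentiableOn
    (fun w hw => by
      have k1 := b2 (c + w) (subset_closure (by simpa using hw))
      have k2 := b1 c hc
      simp only [mem_ofPred_eq, sub_re]
      linarith [n₁ c, n₂ (c + w)]) hρ (by simpa using htρ) (by simp)
  rw [add_sub_cancel] at b3
  have b4 := (re_le_norm _).trans b3
  rw [sub_re] at b4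
  have b5 := b1 t (subset_closure (by simpa [dist_eq_norm] using htρ))
  have b6 := b2 c hc
  have hδ := norm_nonneg (t - c)
  generalize ‖t - c‖ = δ at *
  have b7 : 2 * (M + 2 * ε) * δ / (ρ - δ) ≤ 2 * (M + 2 * ε) * δ / (ρ / 2) :=
    div_le_div_of_nonneg_left (by positivity) (by positivity) (by linarith)
  have b8 : δ / ρ ≤ 1 / 2 := by rw [div_le_iff₀ hρ]; linarith
  have b9 : 0 ≤ δ / ρ := by positivity
  have e1 : 2 * (M + 2 * ε) * δ / (ρ / 2) = 4 * (M * (δ / ρ)) + 8 * (ε * (δ / ρ)) := by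
    field_simp; ring
  have e2 : 8 * M * δ / ρ = 8 * (M * (δ / ρ)) := by ring
  have b10 := mul_le_mul_of_nonneg_left b8 hε.le
  have b11 := mul_nonneg hM0 b9
  linarith

theorem strip_bound {u : ℂ → ℝ} {c₀ c₁ E T s : ℝ} (hu : Continuous u) (hs : ∀ z, SubAt u z)
    (hT : 1 ≤ T) (hE : 0 ≤ E) (h₀ : ∀ x : ℝ, |x| ≤ T → u x ≤ c₀)
    (h₁ : ∀ x : ℝ, |x| ≤ T → u (x + I) ≤ c₁)
    (h₂ : ∀ z : ℂ, |z.re| = T → 0 ≤ z.im → z.im ≤ 1 → u z ≤ min c₀ c₁ + E)
    (s0 : 0 ≤ s) (s1 : s ≤ 1) : u (I * s) ≤ (1 - s) * c₀ + s * c₁ + E / T ^ 2 := by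
  have hT0 : 0 < T := by linarith
  have hcl : closure (Ioo (-T) T ×ℂ Ioo (0 : ℝ) 1) = Icc (-T) T ×ℂ Icc 0 1 := by
    rw [closure_reProdIm, closure_Ioo (by linarith), closure_Ioo zero_ne_one]
  have hop : IsOpen (Ioo (-T) T ×ℂ Ioo (0 : ℝ) 1) := isOpen_Ioo.reProdIm isOpen_Ioo
  obtain ⟨e, he⟩ : ∃ e, e = E / T ^ 2 := ⟨_, rfl⟩
  have he0 : 0 ≤ e := by rw [he]; positivity
  have he1 : e * T ^ 2 = E := by rw [he]; field_simp
  have key : ∀ z : ℂ, ((c₀ : ℂ) - I * (c₁ - c₀) * z + e * (z ^ 2 + 1)).re =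
      c₀ + (c₁ - c₀) * z.im + e * (z.re ^ 2 - z.im ^ 2 + 1) := by
    intro z
    simp [pow_two]
  have b := max_principle (u := u) (g := fun z => (c₀ : ℂ) - I * (c₁ - c₀) * z + e * (z ^ 2 + 1))
    hop ((Metric.isBounded_Ioo _ _).reProdIm (Metric.isBounded_Ioo _ _)) hu.continuousOn
    (fun z _ => hs z) (Differentiable.diffContOnCl (by fun_prop)) (fun z hz => by
      rw [hop.frontier_eq, hcl] at hz
      obtain ⟨⟨⟨a1, a2⟩, a3, a4⟩, hn⟩ := hz
      rw [key]
      by_cases y0 : z.im = 0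
      · have := h₀ z.re (abs_le.2 ⟨a1, a2⟩)
        rw [show (z.re : ℂ) = z from Complex.ext rfl (by simp [y0])] at this
        rw [y0]
        nlinarith [mul_nonneg he0 (sq_nonneg z.re)]
      by_cases y1 : z.im = 1
      · have := h₁ z.re (abs_le.2 ⟨a1, a2⟩)
        rw [show (z.re : ℂ) + I = z from Complex.ext (by simp) (by simp [y1])] at this
        rw [y1]
        nlinarith [mul_nonneg he0 (sq_nonneg z.re)]
      have x1 : |z.re| = T := le_antisymm (abs_le.2 ⟨a1, a2⟩) (not_lt.1 fun h =>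
        hn ⟨abs_lt.1 h, lt_of_le_of_ne a3 (Ne.symm y0), lt_of_le_of_ne a4 y1⟩)
      have := h₂ z x1 a3 a4
      rw [← sq_abs z.re, x1]
      have k1 := mul_le_mul_of_nonneg_left (min_le_left c₀ c₁) (sub_nonneg.2 a4)
      have k2 := mul_le_mul_of_nonneg_left (min_le_right c₀ c₁) a3
      have k3 : 0 ≤ e * (1 - z.im ^ 2) := mul_nonneg he0 (by nlinarith)
      nlinarith) (I * s) (by
      rw [hcl]
      exact ⟨by simp [hT0.le], by simp [s0, s1]⟩)
  rw [key] at b
  simp only [mul_im, I_re, ofReal_im, mul_zero, I_im, ofReal_re, one_mul, zero_add, mul_re,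
    zero_mul, sub_self] at b
  rw [← he]
  nlinarith [mul_nonneg he0 (sq_nonneg s)]

theorem halfdisc_bound {u : ℂ → ℝ} {A D T : ℝ} (hu : Continuous u) (hs : ∀ z, SubAt u z)
    (hT : 1 ≤ T) (hD : 0 ≤ D) (h₀ : ∀ x : ℝ, |x| ≤ T → u x ≤ A)
    (h₁ : ∀ z : ℂ, ‖z‖ = T → 0 ≤ z.im → u z ≤ A + D) : u I ≤ A + 2 * D / T := by
  have hT0 : 0 < T := by linarith
  rcases hT.eq_or_lt with rfl | hT1
  · have := h₁ I (by simp) (by simp)
    linarith
  have hop : IsOpen (Metric.ball (0 : ℂ) T ∩ {z : ℂ | 0 < z.im}) :=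
    Metric.isOpen_ball.inter (isOpen_lt continuous_const continuous_im)
  have hcl : closure (Metric.ball (0 : ℂ) T ∩ {z : ℂ | 0 < z.im}) ⊆
      Metric.closedBall 0 T ∩ {z : ℂ | 0 ≤ z.im} :=
    closure_minimal (inter_subset_inter Metric.ball_subset_closedBall fun z (hz : 0 < z.im) => hz.le)
      (Metric.isClosed_closedBall.inter (isClosed_le continuous_const continuous_im))
  obtain ⟨e, he⟩ : ∃ e, e = D / T ^ 2 := ⟨_, rfl⟩
  have he0 : 0 ≤ e := by rw [he]; positivity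
  have he1 : e * T ^ 2 = D := by rw [he]; field_simp
  have key : ∀ z : ℂ, ((A : ℂ) + e * (-2 * I * T * z + z ^ 2)).re =
      A + e * (2 * T * z.im + z.re ^ 2 - z.im ^ 2) := by
    intro z
    simp [pow_two]
    left; ring
  have b := max_principle (u := u) (g := fun z => (A : ℂ) + e * (-2 * I * T * z + z ^ 2))
    hop (Metric.isBounded_ball.subset inter_subset_left) hu.continuousOn
    (fun z _ => hs z) (Differentiable.diffContOnCl (by fun_prop)) (fun z hz => by
      rw [hop.frontier_eq] at hz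
      obtain ⟨a1, a2⟩ := hcl hz.1
      rw [mem_closedBall_zero_iff] at a1
      rw [key]
      by_cases y0 : z.im = 0
      · have := h₀ z.re ((abs_re_le_norm z).trans a1)
        rw [show (z.re : ℂ) = z from Complex.ext rfl (by simp [y0])] at this
        rw [y0]
        nlinarith [mul_nonneg he0 (sq_nonneg z.re)]
      have x1 : ‖z‖ = T := le_antisymm a1 (not_lt.1 fun h =>
        hz.2 ⟨mem_ball_zero_iff.2 h, lt_of_le_of_ne a2 (Ne.symm y0)⟩)
      have k0 := h₁ z x1 a2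
      have k1 : z.re ^ 2 + z.im ^ 2 = T ^ 2 := by
        rw [← x1, Complex.sq_norm, normSq_apply]; ring
      have k2 : z.im ≤ T := (le_abs_self _).trans ((abs_im_le_norm z).trans a1)
      have k3 : 0 ≤ e * (z.im * (T - z.im)) := mul_nonneg he0 (mul_nonneg a2 (sub_nonneg.2 k2))
      have k4 : z.re ^ 2 = T ^ 2 - z.im ^ 2 := by linarith
      rw [k4]
      nlinarith) I (subset_closure ⟨by simpa using hT1, by simp⟩)
  rw [key] at b
  have e2 : 2 * D / T = e * (2 * T) := by rw [he]; field_simp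
  rw [e2]
  simp only [I_im, I_re] at b
  nlinarith

end Pool.Agent.MP_f27d50_gt
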