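import Pool.Agent.MP_f27d50_gt.KC2
import Pool.Agent.MP_f27d50_gt.Gen
import Pool.Agent.MP_f27d50_gt.SubH
import Pool.Agent.MP_f27d50_gt.Levinson
import Pool.Agent.MP_f27d50_gt.Carleman

set_option autoImplicit false

open MeasureTheory Set Filter Topology Complex
open scoped ENNReal Pointwise ComplexConjugate

noncomputable section

namespace Pool.Agent.MP_f27d50_gt

namespace KC

theorem cx_add_smul (ξ η e : V) (l : ℂ) :
    cx ξ η + l • cx e 0 = cx (ξ + l.re • e) (η + l.im • e) := by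
  funext i
  apply Complex.ext <;> simp [cx]

theorem smul_cx (z : ℂ) (ξ η : V) :
    z • cx ξ η = cx (z.re • ξ - z.im • η) (z.im • ξ + z.re • η) := by
  funext i
  apply Complex.ext <;> simp [cx]
  ring

theorem ln_diff {F : W → ℂ} (hF : Differentiable ℂ F) (ζ : W) : Differentiable ℂ (ln F ζ) :=
  hF.comp (differentiable_id.smul_const ζ)

theorem ln_zero (F : W → ℂ) (ζ : W) : ln F ζ 0 = F 0 := by simp [ln]

theorem lf_ln {F : W → ℂ} (hF : Differentiable ℂ F) (h0 : F 0 ≠ 0) (ζ : W) :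
    LF (ord (ln F ζ)) := lf_ord (ln_diff hF ζ) (by rwa [ln_zero])

/-- the width -/
def wh (h : V → ℝ) (η : V) : ℝ := h η + h (-η)

section fam
variable {F : W → ℂ} {h : V → ℝ} {L : ℝ}

theorem exists_lip (hF : Fam F h) : ∃ L : ℝ, 0 < L ∧ ∀ η, h η ≤ L * ‖η‖ := by
  obtain ⟨L, hL⟩ := hF.lip
  refine ⟨|L| + 1, by positivity, fun η => (hL η).trans ?_⟩
  have := le_abs_self L
  gcongr
  linarith

theorem h_le (hF : Fam F h) (hL : ∀ η, h η ≤ L * ‖η‖) (a b : V) : h a ≤ h b + L * ‖a - b‖ := by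
  have h1 := hF.add b (a - b)
  have h2 := hL (a - b)
  rw [add_sub_cancel] at h1
  linarith

theorem wh_nonneg (hF : Fam F h) (η : V) : 0 ≤ wh h η := add_nonneg (hF.nonneg _) (hF.nonneg _)

theorem wh_zero (hF : Fam F h) : wh h 0 = 0 := by
  have := hF.smul 0 le_rfl 0
  rw [zero_smul, zero_mul] at this
  rw [wh, neg_zero, this, add_zero]

theorem wh_div_le (hF : Fam F h) (hL0 : 0 < L) (hL : ∀ η, h η ≤ L * ‖η‖) (a b : V) :
    wh h a / Real.pi ≤ wh h b / Real.pi + 2 * L * ‖a - b‖ := by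
  have h1 := h_le hF hL a b
  have h2 := h_le hF hL (-a) (-b)
  rw [neg_sub_neg, norm_sub_rev] at h2
  have h3 : wh h a ≤ wh h b + 2 * L * ‖a - b‖ := by unfold wh; linarith
  have h4 : 2 * L * ‖a - b‖ / Real.pi ≤ 2 * L * ‖a - b‖ :=
    div_le_self (by positivity) (by linarith [Real.pi_gt_three])
  have h5 : wh h a / Real.pi ≤ (wh h b + 2 * L * ‖a - b‖) / Real.pi := by gcongr
  rw [add_div] at h5
  linarith

theorem wh_div_le' (hF : Fam F h) (hL0 : 0 < L) (hL : ∀ η, h η ≤ L * ‖η‖) (a : V) :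
    wh h a / Real.pi ≤ 2 * L * ‖a‖ := by
  simpa [wh_zero hF] using wh_div_le hF hL0 hL a 0

theorem h_real (hF : Fam F h) (t : ℝ) (η : V) :
    h (-(t • η)) = h η * max (-t) 0 + h (-η) * max t 0 := by
  rcases le_total 0 t with ht | ht
  · rw [max_eq_right (by linarith), max_eq_left ht, ← smul_neg, hF.smul t ht]; ring
  · rw [max_eq_left (by linarith), max_eq_right ht, ← neg_smul, hF.smul (-t) (by linarith)]; ring

theorem ub_ln (hF : Fam F h) (ξ η : V) (z : ℂ) :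
    ‖ln F (cx ξ η) z‖ ≤ ‖F 0‖ * Real.exp (h (-(z.im • ξ + z.re • η))) := by
  rw [ln, smul_cx]; exact hF.ub _ _

theorem norm_comb {a b : V} {τ : ℝ} (ha : ‖a‖ ≤ τ) (hb : ‖b‖ ≤ τ) (z : ℂ) :
    ‖z.im • a + z.re • b‖ ≤ 2 * τ * ‖z‖ := by
  have h1 := abs_im_le_norm z
  have h2 := abs_re_le_norm z
  calc _ ≤ ‖z.im • a‖ + ‖z.re • b‖ := norm_add_le _ _
    _ = |z.im| * ‖a‖ + |z.re| * ‖b‖ := by rw [norm_smul, norm_smul]; rfl
    _ ≤ ‖z‖ * τ + ‖z‖ * τ := by gcongr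
    _ = _ := by ring

theorem jen (hF : Fam F h) (hL0 : 0 < L) (hL : ∀ η, h η ≤ L * ‖η‖) {ξ η v : V} {τ x : ℝ}
    (h1 : ‖ξ - v‖ ≤ τ) (h2 : ‖η‖ ≤ τ) (hx : 0 < x) :
    S (ord (ln F (cx ξ η))) (kN x) ≤ x * (wh h v / Real.pi + 2 * L * τ) := by
  refine jensen_upper (a := h v) (b := h (-v)) (ln_diff hF.diff _) (by rw [ln_zero]; exact hF.ne0)
    (fun z => (ub_ln hF ξ η z).trans ?_) hx
  rw [ln_zero, ← h_real hF]
  have h3 := h_le hF hL (-(z.im • ξ + z.re • η)) (-(z.im • v))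
  have h4 : -(z.im • ξ + z.re • η) - -(z.im • v) = -(z.im • (ξ - v) + z.re • η) := by module
  rw [h4, norm_neg] at h3
  have h5 := mul_le_mul_of_nonneg_left (norm_comb h1 h2 z) hL0.le
  gcongr
  linarith

theorem lev (hF : Fam F h) {σ : ℝ} (hσ : 0 < σ) (A : ℝ) : ∃ x₀ > 0, ∀ p : V, ‖p‖ ≤ A →
    ∀ x, x₀ ≤ x → x * (wh h p / Real.pi - σ) ≤ S (ord (ln F (cx p 0))) (kN x) := by
  obtain ⟨L, hL0, hL⟩ := exists_lip hF
  obtain ⟨ε₁, hε₁, h1⟩ := levinson (A := L * A) hσ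
  obtain ⟨c₀, hc₀, h2⟩ := hF.lb ε₁ hε₁ A
  obtain ⟨x₀, h3⟩ := h1 c₀ hc₀
  refine ⟨max x₀ 1, by positivity, fun p hp x hx => ?_⟩
  refine h3 _ (h p) (h (-p)) (hF.nonneg _) ((hL p).trans (by gcongr)) (hF.nonneg _)
    ((hL (-p)).trans (by rw [norm_neg]; gcongr)) (ln_diff hF.diff _)
    (by rw [ln_zero]; exact hF.ne0) (fun z => ?_) (fun y hy => ?_) (fun y hy => ?_) x
    ((le_max_left _ _).trans hx)
  · have := ub_ln hF p 0 z
    rwa [smul_zero, add_zero, h_real hF, ← ln_zero F (cx p 0)] at this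
  · have e : ln F (cx p 0) (-(I * y)) = F (cx 0 (-(y • p))) := by
      rw [ln, smul_cx]; simp
    rw [e, ln_zero]
    exact h2 p hp y hy
  · have e : ln F (cx p 0) (I * y) = F (cx 0 (-(y • -p))) := by
      rw [ln, smul_cx]; simp
    rw [e, ln_zero]
    exact h2 (-p) (by rwa [norm_neg]) y hy

theorem carl (hF : Fam F h) (A : ℝ) : ∃ C : ℝ, 0 ≤ C ∧ ∀ ξ η : V, ‖ξ‖ ≤ A → ‖η‖ ≤ A →
    ∀ r, 1 ≤ r → S (ord (ln F (cx ξ η))) (kC r) ≤ wh h η / Real.pi * Real.log r + C := by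
  obtain ⟨L, hL0, hL⟩ := exists_lip hF
  obtain ⟨C, hC⟩ := carleman (2 * L * A)
  refine ⟨max C 0, le_max_right _ _, fun ξ η h1 h2 r hr => ?_⟩
  have hA : 0 ≤ L * A := mul_nonneg hL0.le ((norm_nonneg _).trans h1)
  have h3 : L * ‖η‖ ≤ L * A := by gcongr
  have h4 := hC (ln F (cx ξ η)) (h (-η)) (h η) (hF.nonneg _)
    ((hL _).trans (by rw [norm_neg]; linarith)) (hF.nonneg _) ((hL _).trans (by linarith))
    (ln_diff hF.diff _) (by rw [ln_zero]; exact hF.ne0)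
    (fun z => (ub_ln hF ξ η z).trans (by
      have h5 := hL (-(z.im • ξ + z.re • η))
      rw [norm_neg] at h5
      have h6 := mul_le_mul_of_nonneg_left (norm_comb h1 h2 z) hL0.le
      rw [ln_zero]
      gcongr
      linarith))
    (fun x hx => (ub_ln hF ξ η x).trans (by
      rw [ln_zero, ofReal_im, ofReal_re, zero_smul, zero_add, ← smul_neg, hF.smul x hx, mul_comm x]))
    (fun x hx => (ub_ln hF ξ η (-x)).trans (by
      rw [ln_zero, neg_im, neg_re, ofReal_im, ofReal_re, neg_zero, zero_smul, zero_add, neg_smul,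
        neg_neg, hF.smul x hx, mul_comm x])) r hr
  rw [wh, add_comm (h η)]
  exact h4.trans (by gcongr; exact le_max_left _ _)

theorem I_smul_cx (ξ η : V) : I • cx ξ η = cx (-η) ξ := by
  rw [smul_cx]; simp

theorem tot (hF : Fam F h) (A : ℝ) : ∃ C : ℝ, 0 < C ∧ ∀ ξ η : V, ‖ξ‖ ≤ A → ‖η‖ ≤ A →
    ∀ r, 1 ≤ r → S (ord (ln F (cx ξ η))) (kP r) ≤ C * (Real.log r + 1) := by
  obtain ⟨L, hL0, hL⟩ := exists_lip hF
  obtain ⟨C, hC0, hC⟩ := carl hF A
  refine ⟨4 * L * |A| + 2 * C + 1, by positivity, fun ξ η h1 h2 r hr => ?_⟩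
  have hr0 : 0 < r := by linarith
  have hlf := lf_ln hF.diff hF.ne0 (cx ξ η)
  have h3 := S_le hlf (fun _ => le_rfl) (sp_kP hr0) ((sp_kC hr0).add ((sp_kC hr0).div I_ne_zero))
    (fun z _ => add_nonneg (kC_nonneg _ _) (kC_nonneg _ _)) (kP_le_kC hr0)
  rw [S_add hlf (sp_kC hr0) ((sp_kC hr0).div I_ne_zero), ← S_ord_smul F _ I_ne_zero,
    I_smul_cx] at h3
  have h4 := hC ξ η h1 h2 r hr
  have h5 := hC (-η) ξ (by rwa [norm_neg]) h1 r hr
  have hl := Real.log_nonneg hr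
  have h6 : wh h η / Real.pi * Real.log r ≤ 2 * L * |A| * Real.log r := by
    have := (wh_div_le' hF hL0 hL η).trans
      (mul_le_mul_of_nonneg_left (h2.trans (le_abs_self A)) (by positivity))
    gcongr
  have h7 : wh h ξ / Real.pi * Real.log r ≤ 2 * L * |A| * Real.log r := by
    have := (wh_div_le' hF hL0 hL ξ).trans
      (mul_le_mul_of_nonneg_left (h1.trans (le_abs_self A)) (by positivity))
    gcongr
  have h8 : 0 ≤ L * |A| := by positivity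
  nlinarith

end fam

/-! ### generic versions along a line -/

/-- the family of restrictions along a complex line of directions -/
def line (F : W → ℂ) (ζ : W) (e : V) : ℂ → ℂ → ℂ := fun l => ln F (ζ + l • cx e 0)

theorem line_cx (F : W → ℂ) (ξ η e : V) (l : ℂ) :
    line F (cx ξ η) e l = ln F (cx (ξ + l.re • e) (η + l.im • e)) := by
  rw [line, cx_add_smul]

theorem line_real (F : W → ℂ) (ξ η e : V) (x : ℝ) :
    line F (cx ξ η) e x = ln F (cx (ξ + x • e) η) := by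
  rw [line_cx]; simp

theorem line_zero (F : W → ℂ) (ζ : W) (e : V) : line F ζ e 0 = ln F ζ := by simp [line]

theorem line_one (F : W → ℂ) (p p' : V) : line F (cx p 0) (p' - p) 1 = ln F (cx p' 0) := by
  rw [line_cx]; simp

theorem gen_line {F G : W → ℂ} (hF : Differentiable ℂ F) (hG : Differentiable ℂ G) (F0 : F 0 ≠ 0)
    (G0 : G 0 ≠ 0) (ζ : W) (e : V) {k : ℂ → ℝ} (hk : Ker k) :
    ∃ uA uB, Gen (line F ζ e) (line G ζ e) k uA uB := by
  have hd : Differentiable ℂ fun p : ℂ × ℂ => p.2 • (ζ + p.1 • cx e 0) := by fun_prop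
  exact gen_exists (hF.comp hd) (hG.comp hd) (fun l => by rwa [line, ln_zero])
    (fun l => by rwa [line, ln_zero]) hk

theorem le_of_freq {φ ψ : ℂ → ℝ} (hφ : Continuous φ) (hψ : Continuous ψ) {l₀ : ℂ}
    (h : ∃ᶠ l in 𝓝[≠] l₀, φ l ≤ ψ l) : φ l₀ ≤ ψ l₀ :=
  (isClosed_le hφ hψ).mem_of_frequently_of_tendsto h
    (tendsto_id.mono_left nhdsWithin_le_nhds)

theorem freq_real {P : ℂ → Prop} {x₀ : ℝ} (h : ∀ᶠ x : ℝ in 𝓝 x₀, P x) :
    ∃ᶠ l in 𝓝[≠] (x₀ : ℂ), P l := by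
  have ht : Tendsto (fun x : ℝ => (x : ℂ)) (𝓝[≠] x₀) (𝓝[≠] (x₀ : ℂ)) :=
    tendsto_nhdsWithin_iff.2 ⟨continuous_ofReal.continuousAt.mono_left nhdsWithin_le_nhds,
      eventually_mem_nhdsWithin.mono fun x hx h0 => hx (ofReal_injective h0)⟩
  exact ht.frequently (h.filter_mono nhdsWithin_le_nhds).frequently

section gen
variable {f g : ℂ → ℂ → ℂ} {k : ℂ → ℝ} {uA uB : ℂ → ℝ}

theorem B_le_freq (H : Gen f g k uA uB) {l₀ : ℂ} {M : ℝ}
    (h : ∃ᶠ l in 𝓝[≠] l₀, S (mB (f l) (g l)) k ≤ M) : uB l₀ ≤ M :=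
  le_of_freq (ψ := fun _ => M) H.contB continuous_const
    ((h.and_eventually (H.ev l₀)).mono fun _ hl => hl.2.2.le.trans hl.1)

theorem B_le (H : Gen f g k uA uB) {l₀ : ℂ} {M : ℝ}
    (h : ∀ᶠ l in 𝓝 l₀, S (mB (f l) (g l)) k ≤ M) : uB l₀ ≤ M :=
  B_le_freq H (h.filter_mono nhdsWithin_le_nhds).frequently

theorem A_nonneg (H : Gen f g k uA uB) (hk : ∀ z, 0 ≤ k z) (l₀ : ℂ) : 0 ≤ uA l₀ :=
  le_of_freq (φ := fun _ => 0) continuous_const H.contA
    ((H.ev l₀).mono fun _ hl => hl.1.symm ▸ S_nonneg _ hk).frequently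

theorem B_nonneg (H : Gen f g k uA uB) (hk : ∀ z, 0 ≤ k z) (l₀ : ℂ) : 0 ≤ uB l₀ :=
  le_of_freq (φ := fun _ => 0) continuous_const H.contB
    ((H.ev l₀).mono fun _ hl => hl.2.symm ▸ S_nonneg _ hk).frequently

theorem B_le_tot (H : Gen f g k uA uB) (hk : ∀ z, 0 ≤ k z) (l : ℂ) :
    uB l ≤ S (ord (f l)) k := by
  have := H.sum l
  have := A_nonneg H hk l
  linarith

theorem le_B (H : Gen f g k uA uB) (hk : ∀ z, 0 ≤ k z) (hs : Sp k) {l : ℂ}
    (hl : LF (ord (f l))) : S (mB (f l) (g l)) k ≤ uB l := by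
  have := H.sum l
  have := H.le hk l
  have := S_split (g l) hl hs
  linarith

end gen

theorem ker_tent {q x : ℝ} (hq : 1 < q) (hx : 0 < x) : Ker (tent q x) :=
  ⟨(((ker_kN (by positivity)).cont.add (continuousOn_const.mul (ker_kN hx).cont)).add
    (ker_kN (by positivity)).cont), sp_tent hq hx⟩

section transfer
variable {F : W → ℂ} {h : V → ℝ}

theorem tr_kN (hF : Fam F h) (v : V) {σ : ℝ} (hσ : 0 < σ) : ∃ ρ > 0, ∃ x₀ > 0,
    ∀ (G : W → ℂ) (p p' : V), ‖p - v‖ ≤ ρ → ‖p' - v‖ ≤ ρ → ∀ x, x₀ ≤ x → ∀ uA uB : ℂ → ℝ,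
      Gen (line F (cx p 0) (p' - p)) (line G (cx p 0) (p' - p)) (kN x) uA uB →
      |uA 0 - uA 1| ≤ σ * x ∧ |uB 0 - uB 1| ≤ σ * x := by
  obtain ⟨L, hL0, hL⟩ := exists_lip hF
  have hW : 0 ≤ wh h v / Real.pi := div_nonneg (wh_nonneg hF v) Real.pi_pos.le
  set Wv := wh h v / Real.pi with hWv
  obtain ⟨T, hT2, hT⟩ : ∃ T : ℝ, 2 ≤ T ∧ 8 * (Wv + 1) / T ≤ σ / 3 := by
    refine ⟨2 + 24 * (Wv + 1) / σ, le_add_of_nonneg_right (by positivity), ?_⟩
    rw [div_le_iff₀ (by positivity)]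
    have : σ / 3 * (2 + 24 * (Wv + 1) / σ) = 2 * σ / 3 + 8 * (Wv + 1) := by field_simp; ring
    linarith
  obtain ⟨τ, hτ0, hτ1, hτ2, hτ3⟩ : ∃ τ : ℝ, 0 < τ ∧ τ ≤ 1 ∧ 2 * L * τ ≤ 1 ∧
      4 * L * τ ≤ σ / 3 := by
    refine ⟨min 1 (min (1 / (2 * L)) (σ / (12 * L))), by positivity, min_le_left _ _, ?_, ?_⟩
    · calc _ ≤ 2 * L * (1 / (2 * L)) := by
            gcongr; exact (min_le_right _ _).trans (min_le_left _ _)
        _ = 1 := by field_simp
    · calc _ ≤ 4 * L * (σ / (12 * L)) := by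
            gcongr; exact (min_le_right _ _).trans (min_le_right _ _)
        _ = σ / 3 := by field_simp; ring
  obtain ⟨x₀, hx₀, hlev⟩ := lev hF (show 0 < σ / 3 by positivity) (‖v‖ + 1)
  refine ⟨τ / (2 * T + 3), by positivity, x₀, hx₀, fun G p p' hp hp' x hx uA uB H => ?_⟩
  set ρ := τ / (2 * T + 3) with hρ
  have hρ0 : 0 < ρ := by positivity
  have hρτ : (2 * T + 3) * ρ = τ := by rw [hρ]; field_simp
  have hρτ' : ρ ≤ τ := by nlinarith
  have hx0 : 0 < x := hx₀.trans_le hx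
  have he : ‖p' - p‖ ≤ 2 * ρ := by
    have : p' - p = (p' - v) - (p - v) := by abel
    rw [this]
    exact (norm_sub_le _ _).trans (by linarith)
  have hM : ∀ c : ℂ, ‖c‖ ≤ 1 → ∀ l ∈ Metric.closedBall c T,
      uA l + uB l ≤ x * (Wv + 2 * L * τ) := by
    intro c hc l hl
    have h1 : ‖l‖ ≤ T + 1 := by
      have := norm_add_le (l - c) c
      rw [sub_add_cancel] at this
      rw [mem_closedBall_iff_norm] at hl
      linarith
    have h2 : ∀ t : ℝ, |t| ≤ ‖l‖ → ‖t • (p' - p)‖ ≤ (T + 1) * (2 * ρ) := by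
      intro t ht
      rw [norm_smul, Real.norm_eq_abs]
      exact mul_le_mul (ht.trans h1) he (norm_nonneg _) (by linarith)
    rw [H.sum l, line_cx]
    refine jen hF hL0 hL ?_ ?_ hx0
    · have : p + l.re • (p' - p) - v = (p - v) + l.re • (p' - p) := by abel
      rw [this]
      have := h2 _ (abs_re_le_norm l)
      exact (norm_add_le _ _).trans (by linarith)
    · rw [zero_add]
      have := h2 _ (abs_im_le_norm l)
      linarith
  have hlow : ∀ a : V, ‖a - v‖ ≤ ρ →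
      x * (Wv - 2 * L * τ - σ / 3) ≤ S (ord (ln F (cx a 0))) (kN x) := by
    intro a ha
    have h1 : ‖a‖ ≤ ‖v‖ + 1 := by
      have := norm_add_le (a - v) v
      rw [sub_add_cancel] at this
      linarith
    refine le_trans ?_ (hlev a h1 x hx)
    have h2 := wh_div_le hF hL0 hL v a
    rw [norm_sub_rev] at h2
    have h3 : 2 * L * ‖a - v‖ ≤ 2 * L * τ := by gcongr; linarith
    gcongr
    linarith
  have h0 := hlow p hp
  have h1 := hlow p' hp'
  rw [← line_zero F (cx p 0) (p' - p), ← H.sum] at h0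
  rw [← line_one F p p', ← H.sum] at h1
  have hs := H.sub (sub_kN hx0)
  have nA := A_nonneg H (kN_nonneg x)
  have nB := B_nonneg H (kN_nonneg x)
  have hT0 : 0 < T := by linarith
  have herr : 8 * (x * (Wv + 2 * L * τ)) * 1 / T ≤ σ / 3 * x := by
    calc _ = x * (8 * (Wv + 2 * L * τ) / T) := by ring
      _ ≤ x * (8 * (Wv + 1) / T) := by gcongr
      _ ≤ x * (σ / 3) := by gcongr
      _ = _ := by ring
  have n01 : ‖(0 : ℂ) - 1‖ = 1 := by simp
  have n10 : ‖(1 : ℂ) - 0‖ = 1 := by simp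
  have a1 := transfer (c := 0) (t := 1) hT0 H.contA H.contB (fun z => (hs z).1) (fun z => (hs z).2)
    nA nB (hM 0 (by simp)) (by rw [n10]; linarith)
  have a2 := transfer (c := 1) (t := 0) hT0 H.contA H.contB (fun z => (hs z).1) (fun z => (hs z).2)
    nA nB (hM 1 (by simp)) (by rw [n01]; linarith)
  have b1 := transfer (c := 0) (t := 1) hT0 H.contB H.contA (fun z => (hs z).2) (fun z => (hs z).1)
    nB nA (fun z hz => by rw [add_comm]; exact hM 0 (by simp) z hz) (by rw [n10]; linarith)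
  have b2 := transfer (c := 1) (t := 0) hT0 H.contB H.contA (fun z => (hs z).2) (fun z => (hs z).1)
    nB nA (fun z hz => by rw [add_comm]; exact hM 1 (by simp) z hz) (by rw [n01]; linarith)
  rw [n10] at a1 b1
  rw [n01] at a2 b2
  have h4 : x * (4 * L * τ) ≤ x * (σ / 3) := by gcongr
  constructor <;> rw [abs_le] <;> constructor <;> linarith

theorem tr_tent (hF : Fam F h) (v : V) {σ : ℝ} (hσ : 0 < σ) : ∃ ρ > 0, ∃ x₀ > 0,
    ∀ (G : W → ℂ), Differentiable ℂ G → G 0 ≠ 0 → ∀ (p p' : V), ‖p - v‖ ≤ ρ → ‖p' - v‖ ≤ ρ →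
      ∀ q x, 1 < q → q ≤ 2 → x₀ ≤ x → ∀ uA uB : ℂ → ℝ,
      Gen (line F (cx p 0) (p' - p)) (line G (cx p 0) (p' - p)) (tent q x) uA uB →
      uA 0 ≤ uA 1 + σ * x ∧ uB 0 ≤ uB 1 + σ * x := by
  obtain ⟨ρ, hρ, x₀, hx₀, H⟩ := tr_kN hF v (show 0 < σ / 5 by positivity)
  refine ⟨ρ, hρ, 2 * x₀, by positivity, fun G hG G0 p p' hp hp' q x hq hq2 hx uA uB Ht => ?_⟩
  have hx0 : 0 < x := by linarith
  have hxq : x ≤ x * q := by nlinarith
  have hxq2 : x * q ≤ 2 * x := by nlinarith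
  have hdq : x / q ≤ x := div_le_self hx0.le hq.le
  have hdq2 : x₀ ≤ x / q := by
    rw [le_div_iff₀ (by positivity)]
    nlinarith
  obtain ⟨a1, b1, H1⟩ := gen_line hF.diff hG hF.ne0 G0 (cx p 0) (p' - p)
    (ker_kN (show 0 < x * q by positivity))
  obtain ⟨a2, b2, H2⟩ := gen_line hF.diff hG hF.ne0 G0 (cx p 0) (p' - p) (ker_kN hx0)
  obtain ⟨a3, b3, H3⟩ := gen_line hF.diff hG hF.ne0 G0 (cx p 0) (p' - p)
    (ker_kN (show 0 < x / q by positivity))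
  have key : ∀ l₀, uA l₀ = a1 l₀ - 2 * a2 l₀ + a3 l₀ ∧ uB l₀ = b1 l₀ - 2 * b2 l₀ + b3 l₀ := by
    intro l₀
    have hev : ∀ᶠ l in 𝓝[≠] l₀,
        uA l = a1 l - 2 * a2 l + a3 l ∧ uB l = b1 l - 2 * b2 l + b3 l := by
      filter_upwards [Ht.ev l₀, H1.ev l₀, H2.ev l₀, H3.ev l₀] with l e0 e1 e2 e3
      have hl : LF (ord (line F (cx p 0) (p' - p) l)) := lf_ln hF.diff hF.ne0 _
      rw [e0.1, e0.2, e1.1, e1.2, e2.1, e2.2, e3.1, e3.2]
      exact ⟨S_tent (hl.mono (mA_le _ _)) hq hx0, S_tent (hl.mono (mB_le' _ _)) hq hx0⟩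
    have cA : Continuous fun l => a1 l - 2 * a2 l + a3 l :=
      (H1.contA.sub (continuous_const.mul H2.contA)).add H3.contA
    have cB : Continuous fun l => b1 l - 2 * b2 l + b3 l :=
      (H1.contB.sub (continuous_const.mul H2.contB)).add H3.contB
    exact ⟨le_antisymm (le_of_freq Ht.contA cA (hev.mono fun l hl => hl.1.le).frequently)
        (le_of_freq cA Ht.contA (hev.mono fun l hl => hl.1.ge).frequently),
      le_antisymm (le_of_freq Ht.contB cB (hev.mono fun l hl => hl.2.le).frequently)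
        (le_of_freq cB Ht.contB (hev.mono fun l hl => hl.2.ge).frequently)⟩
  obtain ⟨c1, d1⟩ := H G p p' hp hp' _ (by linarith) _ _ H1
  obtain ⟨c2, d2⟩ := H G p p' hp hp' _ (by linarith) _ _ H2
  obtain ⟨c3, d3⟩ := H G p p' hp hp' _ hdq2 _ _ H3
  rw [abs_le] at c1 d1 c2 d2 c3 d3
  have e1 : σ / 5 * (x * q) ≤ σ / 5 * (2 * x) := by gcongr
  have e3 : σ / 5 * (x / q) ≤ σ / 5 * x := by gcongr
  rw [(key 0).1, (key 0).2, (key 1).1, (key 1).2]
  constructor <;> linarith [c1.1, c1.2, c2.1, c2.2, c3.1, c3.2, d1.1, d1.2, d2.1, d2.2, d3.1, d3.2]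

end transfer

end KC

end Pool.Agent.MP_f27d50_gt
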