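import Pool.Agent.MP_f27d50_gt.KC3

set_option autoImplicit false

open MeasureTheory Set Filter Topology Complex
open scoped ENNReal Pointwise ComplexConjugate

noncomputable section

namespace Pool.Agent.MP_f27d50_gt

namespace KC

variable {F : W → ℂ} {h : V → ℝ}

theorem norm_le_of_near {p v : V} {ρ : ℝ} (hp : ‖p - v‖ ≤ ρ) : ‖p‖ ≤ ‖v‖ + ρ := by
  have := norm_add_le (p - v) v
  rw [sub_add_cancel] at this
  linarith

theorem ev_const_le (C : ℝ) {ε : ℝ} (hε : 0 < ε) : ∀ᶠ r : ℝ in atTop, C ≤ ε * Real.log r :=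
  (Real.tendsto_log_atTop.const_mul_atTop hε).eventually_ge_atTop C

theorem core (hF : Fam F h) {H : W → ℂ} {v : V} (hv : Few F H v) {ε : ℝ} (hε : 0 < ε) :
    ∃ q : ℝ, 1 < q ∧ q ≤ 2 ∧ ∃ σ > 0, ∀ ρ > 0, ρ ≤ 1 → ∀ x₁ : ℝ, ∀ᶠ r : ℝ in atTop,
      ∀ (p : V) (μ : ℂ → ℕ), ‖p - v‖ ≤ ρ → (∀ z, μ z ≤ ord (ln F (cx p 0)) z) →
        (∀ x, x₁ ≤ x → x ≤ 4 * r → ∀ p' : V, ‖p' - v‖ ≤ ρ → S μ (tent q x) ≤
          S (mA (ln F (cx p' 0)) (ln H (cx p' 0))) (tent q x) + σ * x) →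
        S μ (kP r) ≤ ε * Real.log r := by
  obtain ⟨L, hL0, hL⟩ := exists_lip hF
  set Wd := 2 * L * (‖v‖ + 1) with hWd
  have hW0 : 0 < Wd := by positivity
  obtain ⟨e, he0, he1, he2⟩ : ∃ e : ℝ, 0 < e ∧ e ≤ 1 ∧ 128 * e * (4 + Wd) ≤ ε / 2 := by
    refine ⟨min 1 (ε / (256 * (4 + Wd))), by positivity, min_le_left _ _, ?_⟩
    calc _ ≤ 128 * (ε / (256 * (4 + Wd))) * (4 + Wd) := by gcongr; exact min_le_right _ _
      _ = ε / 2 := by field_simp; ring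
  obtain ⟨q, hq, hq2, hfew⟩ := hv e he0
  have hd : 0 < q - 1 := by linarith
  refine ⟨q, hq, hq2, e * (q - 1) ^ 2, by positivity, fun ρ hρ hρ1 x₁ => ?_⟩
  obtain ⟨R₀, hR₀⟩ := hfew ρ hρ
  obtain ⟨x₀, hx₀, hlev⟩ := lev hF (show 0 < e * (q - 1) ^ 2 by positivity) (‖v‖ + 1)
  obtain ⟨C, hC0, hC⟩ := tot hF (‖v‖ + 1)
  obtain ⟨R, hR1, hR2, hR3, hR4⟩ : ∃ R : ℝ, 1 ≤ R ∧ R₀ ≤ R ∧ x₁ ≤ R ∧ x₀ ≤ R :=
    ⟨max (max 1 R₀) (max x₁ x₀), (le_max_left _ _).trans (le_max_left _ _),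
      (le_max_right _ _).trans (le_max_left _ _), (le_max_left _ _).trans (le_max_right _ _),
      (le_max_right _ _).trans (le_max_right _ _)⟩
  have hR : 0 < R := by linarith
  filter_upwards [eventually_ge_atTop R, ev_const_le 1 one_pos,
    ev_const_le (2 * (C * (Real.log (2 * R) + 1))) (half_pos hε)] with r hr hl1 hl2 p μ hp hμ hT
  rw [one_mul] at hl1
  have hr0 : 0 < r := by linarith
  have hpn : ‖p‖ ≤ ‖v‖ + 1 := (norm_le_of_near hp).trans (by linarith)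
  have hlf := lf_ln hF.diff hF.ne0 (cx p 0)
  obtain ⟨J, hJ1, hJ2⟩ := exists_nat_pow_near (x := 4 * r / R) (y := 2)
    ((one_le_div hR).2 (by linarith)) one_lt_two
  rw [le_div_iff₀ hR] at hJ1
  rw [div_lt_iff₀ hR, pow_succ] at hJ2
  have hJ3 : (J : ℝ) ≤ 4 * Real.log r := by
    have h1 : (2 : ℝ) ^ J ≤ 2 ^ 2 * r := by
      have : (2 : ℝ) ^ J * 1 ≤ 2 ^ J * R := by gcongr
      linarith
    have h2 := Real.log_le_log (by positivity) h1
    rw [Real.log_mul (by positivity) hr0.ne', Real.log_pow, Real.log_pow] at h2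
    have h3 := Real.log_two_gt_d9
    have h4 := Real.log_two_lt_d9
    have h5 : (0 : ℝ) ≤ J := Nat.cast_nonneg J
    push_cast at h2
    nlinarith
  have hmain := upper_kP (hlf.mono hμ) (q := q) (R := R) (α := 2 * (e * (q - 1) ^ 2))
    (β := (q - 1) ^ 2 * (Wd + 2)) (ε := e) (r := r) J hq hq2 hR (by positivity) (by positivity)
    he0.le hr0 (by linarith) (fun R' hR' => ?_) (fun x hx => ?_)
  · have h1 := S_le hlf hμ (sp_kP (show 0 < 2 * R by positivity))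
      (sp_kP (show 0 < 2 * R by positivity)) (fun z _ => kP_nonneg _ z) fun z _ => le_rfl
    have h2 := hC p 0 hpn (by rw [norm_zero]; positivity) (2 * R) (by linarith)
    have h3 : 32 / (q - 1) ^ 2 * (J * (2 * (e * (q - 1) ^ 2) + (q - 1) ^ 2 * (Wd + 2) * e)) =
        32 * e * (4 + Wd) * J := by field_simp; ring
    have h4 : 32 * e * (4 + Wd) * J ≤ 32 * e * (4 + Wd) * (4 * Real.log r) := by gcongr
    have h5 : 128 * e * (4 + Wd) * Real.log r ≤ ε / 2 * Real.log r := by gcongr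
    linarith
  · obtain ⟨Bad, hm, hvol, hB⟩ := hR₀ R' (hR2.trans hR')
    refine ⟨Bad, hm, hvol, fun x hx hb hxJ => ?_⟩
    obtain ⟨η, hη, hS⟩ := hB x hx hb
    have hx0 : 0 < x := by linarith [hx.1]
    have h1 := hT x (by linarith [hx.1]) (by linarith) η hη
    have hA := (lf_ln hF.diff hF.ne0 (cx η 0)).mono (mA_le _ (ln H (cx η 0)))
    have h2 := S_le hA (fun _ => le_rfl) (sp_tent hq hx0) ((sp_kI (x / q) (x * q)).mul (q - 1))
      (fun z _ => mul_nonneg hd.le (kI_nonneg _ _ z)) (tent_le_kI hq hx0)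
    rw [S_mul hA (sp_kI _ _)] at h2
    have h3 := mul_le_mul_of_nonneg_left hS hd.le
    linarith
  · have hx0 : 0 < x := by linarith
    have h1 := S_le hlf hμ (sp_tent hq hx0) (sp_tent hq hx0) (fun z _ => tent_nonneg hq hx0 z)
      fun z _ => le_rfl
    rw [S_tent hlf hq hx0] at h1
    have hj : ∀ y, 0 < y → S (ord (ln F (cx p 0))) (kN y) ≤ y * (wh h p / Real.pi) := by
      intro y hy
      simpa using jen hF hL0 hL (ξ := p) (η := 0) (v := p) (τ := 0) (by simp) (by simp) hy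
    have h2 := hj (x * q) (by positivity)
    have h3 := hj (x / q) (by positivity)
    have h4 := hlev p hpn x (by linarith)
    have hw0 : 0 ≤ wh h p / Real.pi := div_nonneg (wh_nonneg hF p) Real.pi_pos.le
    have hw1 : wh h p / Real.pi ≤ Wd := (wh_div_le' hF hL0 hL p).trans (by rw [hWd]; gcongr)
    set w := wh h p / Real.pi
    have h5 : x * q * w - 2 * (x * w) + x / q * w = (q - 1) ^ 2 / q * w * x := by
      field_simp; ring
    have h6 : (q - 1) ^ 2 / q * w * x ≤ (q - 1) ^ 2 * Wd * x := by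
      have : (q - 1) ^ 2 / q ≤ (q - 1) ^ 2 := div_le_self (by positivity) hq.le
      gcongr
    have h7 : e * (q - 1) ^ 2 * x ≤ 1 * (q - 1) ^ 2 * x := by gcongr
    linarith

theorem real_B (hF : Fam F h) {G G' : W → ℂ} (hG : Differentiable ℂ G)
    (hG' : Differentiable ℂ G') (G0 : G 0 ≠ 0) (G0' : G' 0 ≠ 0)
    (hle : ∀ ζ z, mB (ln F ζ) (ln G ζ) z ≤ ord (ln G' ζ) z) {u : V} (hu : Few F G' u) {ε : ℝ}
    (hε : 0 < ε) : ∃ ρ > 0, ∀ᶠ r : ℝ in atTop, ∀ p : V, ‖p - u‖ ≤ ρ →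
      S (mB (ln F (cx p 0)) (ln G (cx p 0))) (kP r) ≤ ε * Real.log r := by
  obtain ⟨q, hq, hq2, σ, hσ, hcore⟩ := core hF hu hε
  obtain ⟨ρ, hρ, x₀, hx₀, htr⟩ := tr_tent hF u hσ
  refine ⟨min ρ 1, by positivity, ?_⟩
  filter_upwards [hcore (min ρ 1) (by positivity) (min_le_right _ _) x₀] with r hr p hp
  refine hr p _ hp (mB_le' _ _) fun x hx _ p' hp' => ?_
  have hx0 : 0 < x := by linarith
  obtain ⟨uA, uB, H⟩ := gen_line hF.diff hG hF.ne0 G0 (cx p 0) (p' - p) (ker_tent hq hx0)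
  obtain ⟨uA', uB', H'⟩ := gen_line hF.diff hG' hF.ne0 G0' (cx p 0) (p' - p) (ker_tent hq hx0)
  have h1 := le_B H (tent_nonneg hq hx0) (sp_tent hq hx0) (l := 0) (lf_ln hF.diff hF.ne0 _)
  rw [line_zero, line_zero] at h1
  have h2 := (htr G hG G0 p p' (hp.trans (min_le_left _ _)) (hp'.trans (min_le_left _ _)) q x hq
    hq2 hx uA uB H).2
  have h3 : uB 1 ≤ uA' 1 := by
    refine le_of_freq H.contB H'.contA (Eventually.frequently ?_)
    filter_upwards [H.ev 1, H'.ev 1] with l e1 e2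
    rw [e1.2, e2.1]
    exact S_le ((lf_ln hF.diff hF.ne0 _).mono (mA_le _ _))
      (fun z => le_min (mB_le' _ _ z) (hle _ z)) (sp_tent hq hx0) (sp_tent hq hx0)
      (fun z _ => tent_nonneg hq hx0 z) fun z _ => le_rfl
  have h4 := H'.le (tent_nonneg hq hx0) 1
  rw [line_one, line_one] at h4
  linarith

theorem real_A (hF : Fam F h) {G : W → ℂ} (hG : Differentiable ℂ G) (G0 : G 0 ≠ 0) {v : V}
    (hv : Few F G v) {ε δ : ℝ} (hε : 0 < ε) (hδ : 0 < δ) : ∀ᶠ r : ℝ in atTop, ∃ p : V,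
      ‖p - v‖ < δ ∧ S (mA (ln F (cx p 0)) (ln G (cx p 0))) (kP r) ≤ ε * Real.log r := by
  obtain ⟨q, hq, hq2, σ, hσ, hcore⟩ := core hF hv hε
  obtain ⟨ρ₁, hρ₁, x₀, hx₀, htr⟩ := tr_tent hF v (half_pos hσ)
  obtain ⟨ρ, hρ, a1, a2, a3⟩ : ∃ ρ : ℝ, 0 < ρ ∧ ρ ≤ ρ₁ ∧ ρ ≤ 1 ∧ ρ ≤ δ :=
    ⟨min ρ₁ (min 1 δ), by positivity, min_le_left _ _, (min_le_right _ _).trans (min_le_left _ _),
      (min_le_right _ _).trans (min_le_right _ _)⟩
  filter_upwards [hcore ρ hρ a2 (max x₀ 1), eventually_gt_atTop 0] with r hr hr0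
  have hy : 0 < 16 * r := by positivity
  set Φ : V → ℝ := fun p => S (mA (ln F (cx p 0)) (ln G (cx p 0))) (kN (16 * r)) with hΦ
  have hne : (Φ '' {p | ‖p - v‖ < ρ}).Nonempty := ⟨Φ v, v, by simpa using hρ, rfl⟩
  have hbd : BddBelow (Φ '' {p | ‖p - v‖ < ρ}) := ⟨0, by
    rintro _ ⟨p, -, rfl⟩
    exact S_nonneg _ (kN_nonneg _)⟩
  obtain ⟨_, ⟨p, hp, rfl⟩, hmin⟩ := Real.lt_sInf_add_pos hne (half_pos hσ)
  have hp' : ‖p - v‖ < ρ := hp
  refine ⟨p, hp'.trans_le a3, hr p _ hp'.le (mA_le _ _) fun x hx hx4 p' hp2 => ?_⟩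
  have hx1 : 1 ≤ x := (le_max_right _ _).trans hx
  have hx0 : 0 < x := by linarith
  have k3 : Ker fun z => kN (16 * r) z + (-1) * tent q x z :=
    ⟨(ker_kN hy).cont.add (continuousOn_const.mul (ker_tent hq hx0).cont),
      (sp_kN hy).add ((sp_tent hq hx0).mul _)⟩
  obtain ⟨b1, c1, H1⟩ := gen_line hF.diff hG hF.ne0 G0 (cx p 0) (p' - p) (ker_kN hy)
  obtain ⟨b2, c2, H2⟩ := gen_line hF.diff hG hF.ne0 G0 (cx p 0) (p' - p) (ker_tent hq hx0)
  obtain ⟨b3, c3, H3⟩ := gen_line hF.diff hG hF.ne0 G0 (cx p 0) (p' - p) k3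
  have hsplit : ∀ ζ : W, S (mA (ln F ζ) (ln G ζ)) (fun z => kN (16 * r) z + (-1) * tent q x z) =
      S (mA (ln F ζ) (ln G ζ)) (kN (16 * r)) - S (mA (ln F ζ) (ln G ζ)) (tent q x) := by
    intro ζ
    have hA := (lf_ln hF.diff hF.ne0 ζ).mono (mA_le _ (ln G ζ))
    rw [S_add hA (sp_kN hy) ((sp_tent hq hx0).mul _), S_mul hA (sp_tent hq hx0)]
    ring
  have h1 : Φ p - σ / 2 ≤ b1 0 := by
    refine le_of_freq (φ := fun _ => Φ p - σ / 2) continuous_const H1.contA ?_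
    have hc : Continuous fun t : ℝ => ‖p + t • (p' - p) - v‖ := by fun_prop
    have hev : ∀ᶠ t : ℝ in 𝓝 0, ‖p + t • (p' - p) - v‖ < ρ :=
      hc.continuousAt.eventually_lt continuousAt_const (by simpa using hp')
    have hfr := freq_real (x₀ := 0) (P := fun l => Φ p - σ / 2 ≤
      S (mA (line F (cx p 0) (p' - p) l) (line G (cx p 0) (p' - p) l)) (kN (16 * r)))
      (hev.mono fun t ht => by
        rw [line_real, line_real]
        have := csInf_le hbd ⟨p + t • (p' - p), ht, rfl⟩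
        have e : Φ (p + t • (p' - p)) = S (mA (ln F (cx (p + t • (p' - p)) 0))
          (ln G (cx (p + t • (p' - p)) 0))) (kN (16 * r)) := rfl
        linarith)
    rw [ofReal_zero] at hfr
    exact (hfr.and_eventually (H1.ev 0)).mono fun l hl => hl.2.1.symm ▸ hl.1
  have h2 : b1 0 - b2 0 ≤ b3 0 := by
    refine le_of_freq (φ := fun l => b1 l - b2 l) (H1.contA.sub H2.contA) H3.contA
      (Eventually.frequently ?_)
    filter_upwards [H1.ev 0, H2.ev 0, H3.ev 0] with l e1 e2 e3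
    rw [e1.1, e2.1, e3.1]
    exact (hsplit _).ge
  have h3 := H3.le (fun z => by
    have := tent_le_kN hq hq2 hx0 (y := 16 * r) (by linarith) z
    linarith) 0
  rw [line_zero, line_zero, hsplit] at h3
  have h4 := (htr G hG G0 p p' (hp'.le.trans a1) (hp2.trans a1) q x hq hq2
    ((le_max_left _ _).trans hx) b2 c2 H2).1
  have h5 := H2.le (tent_nonneg hq hx0) 1
  rw [line_one, line_one] at h5
  have e : Φ p = S (mA (ln F (cx p 0)) (ln G (cx p 0))) (kN (16 * r)) := rfl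
  have h6 : σ / 2 * 1 ≤ σ / 2 * x := by gcongr
  linarith

end KC

end Pool.Agent.MP_f27d50_gt
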