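import Pool.Agent.MP_f27d50_gt.KeyB
import Pool.Agent.MP_f27d50_gt.CapGeo
import Pool.Agent.MP_f27d50_gt.Energy

set_option autoImplicit false

open MeasureTheory Set Filter Topology Complex
open scoped ENNReal Pointwise ComplexConjugate

noncomputable section

namespace Pool.Agent.MP_f27d50_gt

namespace KeyO

theorem pk_nonneg {d : ℝ} (hd : 0 < d) (t : ℝ) : 0 ≤ Pk d t := by
  unfold Pk
  have := Real.pi_pos
  positivity

theorem pk_meas (d : ℝ) : Measurable (Pk d) := by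
  unfold Pk
  fun_prop

theorem pk_int {d : ℝ} (hd : 0 < d) (x : ℝ) : ∫⁻ t, ENNReal.ofReal (Pk d (t - x)) = 1 := by
  have h := ProbabilityTheory.lintegral_cauchyPDF_eq_one x (γ := d.toNNReal) (by simpa using hd)
  rw [← h]
  refine lintegral_congr fun t => ?_
  unfold ProbabilityTheory.cauchyPDF ProbabilityTheory.cauchyPDFReal Pk
  congr 1
  have := Real.pi_pos
  rw [Real.coe_toNNReal _ hd.le]
  field_simp

theorem pk_int' {d : ℝ} (hd : 0 < d) (t : ℝ) : ∫⁻ x, ENNReal.ofReal (Pk d (t - x)) = 1 := by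
  rw [← pk_int hd t]
  refine lintegral_congr fun x => ?_
  unfold Pk
  congr 3
  ring

theorem pk_ge {d t : ℝ} (hd : 0 < d) (ht : |t| ≤ d) : 1 / (8 * d) ≤ Pk d t := by
  unfold Pk
  have h1 := Real.pi_pos
  have h2 := Real.pi_le_four
  have h3 : t ^ 2 ≤ d ^ 2 := sq_le_sq' (abs_le.1 ht).1 (abs_le.1 ht).2
  rw [div_le_div_iff₀ (by positivity) (by positivity)]
  have h4 : Real.pi * (t ^ 2 + d ^ 2) ≤ 4 * (d ^ 2 + d ^ 2) := by gcongr
  nlinarith

/-- Most centres are good for the Poisson average of an integrable function. -/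
theorem good_x {g : ℝ → ℝ≥0∞} (hg : Measurable g) {d c D : ℝ} (hd : 0 < d) (hc : 0 < c)
    (hD : ∫⁻ t, g t ≤ ENNReal.ofReal D) :
    ∃ Bad : Set ℝ, MeasurableSet Bad ∧ volume Bad ≤ ENNReal.ofReal (D / c) ∧ ∀ x, x ∉ Bad →
      ∫⁻ t, ENNReal.ofReal (Pk d (t - x)) * g t ≤ ENNReal.ofReal c ∧
      ∃ t₁ ∈ Icc (x - d) (x + d), g t₁ ≤ ENNReal.ofReal (4 * c) := by
  have hm : Measurable (Function.uncurry fun x t : ℝ => ENNReal.ofReal (Pk d (t - x)) * g t) :=
    ((pk_meas d).comp (measurable_snd.sub measurable_fst)).ennreal_ofReal.mul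
      (hg.comp measurable_snd)
  have hG : Measurable fun x : ℝ => ∫⁻ t, ENNReal.ofReal (Pk d (t - x)) * g t :=
    hm.lintegral_prod_right
  have hc' : ENNReal.ofReal c ≠ 0 := by simpa using hc
  refine ⟨{x | ENNReal.ofReal c ≤ ∫⁻ t, ENNReal.ofReal (Pk d (t - x)) * g t},
    measurableSet_le measurable_const hG, ?_, fun x hx => ?_⟩
  · refine (meas_ge_le_lintegral_div hG.aemeasurable hc' ENNReal.ofReal_ne_top).trans ?_
    rw [ENNReal.ofReal_div_of_pos hc, lintegral_lintegral_swap hm.aemeasurable]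
    gcongr
    refine le_trans (le_of_eq (lintegral_congr fun t => ?_)) hD
    have h1 : Measurable fun x : ℝ => ENNReal.ofReal (Pk d (t - x)) :=
      ((pk_meas d).comp (measurable_const.sub measurable_id)).ennreal_ofReal
    rw [lintegral_mul_const _ h1, pk_int' hd, one_mul]
  · have hx' : ∫⁻ t, ENNReal.ofReal (Pk d (t - x)) * g t < ENNReal.ofReal c := not_le.1 hx
    refine ⟨hx'.le, ?_⟩
    by_contra hcon
    push Not at hcon
    refine absurd hx' (not_lt.2 ?_)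
    calc ENNReal.ofReal c = ∫⁻ _t in Icc (x - d) (x + d),
          ENNReal.ofReal (1 / (8 * d)) * ENNReal.ofReal (4 * c) := by
          rw [setLIntegral_const, Real.volume_Icc, ← ENNReal.ofReal_mul (by positivity),
            ← ENNReal.ofReal_mul (by positivity)]
          congr 1
          field_simp
          ring
      _ ≤ ∫⁻ t in Icc (x - d) (x + d), ENNReal.ofReal (Pk d (t - x)) * g t := by
          refine setLIntegral_mono' measurableSet_Icc fun t ht => ?_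
          refine mul_le_mul' (ENNReal.ofReal_le_ofReal (pk_ge hd ?_)) (hcon t ht).le
          exact abs_le.2 ⟨by linarith [ht.1], by linarith [ht.2]⟩
      _ ≤ _ := setLIntegral_le_lintegral _ _

/-- Pigeonhole. -/
theorem pigeon {B : Set ℂ} (hB : MeasurableSet B) {f k : ℂ → ℝ} {Er : ℂ → ℝ≥0∞} {D : ℝ}
    (hf : IntegrableOn f B) (hk : IntegrableOn k B) (f0 : ∀ p, 0 ≤ f p) (k0 : ∀ p, 0 ≤ k p)
    (hD : 0 ≤ D) (hE : ∫⁻ p in B, Er p ≤ ENNReal.ofReal D)
    (hlt : (∫ p in B, k p) + D < ∫ p in B, f p) :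
    ∃ p ∈ B, ENNReal.ofReal (k p) + Er p < ENNReal.ofReal (f p) := by
  by_contra hcon
  push Not at hcon
  have h1 := setLIntegral_mono' (μ := volume) hB hcon
  have hk0 : 0 ≤ ∫ p in B, k p := integral_nonneg k0
  rw [lintegral_add_left' hk.aemeasurable.ennreal_ofReal,
    ← ofReal_integral_eq_lintegral_ofReal hf (Eventually.of_forall f0),
    ← ofReal_integral_eq_lintegral_ofReal hk (Eventually.of_forall k0)] at h1
  have h2 := h1.trans (add_le_add_right hE _)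
  rw [← ENNReal.ofReal_add hk0 hD, ENNReal.ofReal_le_ofReal_iff (add_nonneg hk0 hD)] at h2
  linarith

theorem meas_T {Ω : Set ℂ} {u m : ℂ → ℝ} (h : Cap Ω u m) (y : ℝ) :
    Measurable fun z : ℂ × ℝ => TT Ω u m z.1 (z.2 + I * y) :=
  (measurable_TT h).comp (f := fun z : ℂ × ℝ => (z.1, (z.2 : ℂ) + I * y))
    (measurable_fst.prodMk (by fun_prop))

theorem meas_G {Ω : Set ℂ} {u m : ℂ → ℝ} (h : Cap Ω u m) (s y : ℝ) :
    Measurable fun z : ℂ × ℝ =>
      ENNReal.ofReal (‖((z.2 : ℂ) + I * y) * TTgt Ω u m s z.1 (z.2 + I * y)‖ ^ 2) := by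
  have h1 : Measurable fun z : ℂ × ℝ => TTgt Ω u m s z.1 (z.2 + I * y) :=
    (measurable_TTgt h s).comp (f := fun z : ℂ × ℝ => (z.1, (z.2 : ℂ) + I * y))
      (measurable_fst.prodMk (by fun_prop))
  have h2 : Measurable fun z : ℂ × ℝ => (z.2 : ℂ) + I * y := by fun_prop
  exact ((h2.mul h1).norm.pow_const 2).ennreal_ofReal

/-- The pointwise bound for the variation of the amplitude. -/
theorem var_pt {Ω : Set ℂ} {u m : ℂ → ℝ} (h : Cap Ω u m) (p : ℂ) {R M ε' t t₁ y : ℝ}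
    (hR : 0 < R) (hM : 0 < M) (hMR : M ≤ R) (hεR : 1 ≤ ε' * R) (hy : |y| ≤ 1)
    (ht : R / 2 ≤ t) (ht₁ : R / 2 ≤ t₁) (htt : |t - t₁| ≤ 2 * (ε' * R)) :
    R ^ 2 * ‖TT Ω u m p (t + I * y) - TT Ω u m p t₁‖ ^ 2 ≤
      12 * ‖((t : ℂ) + I * y) * TTgt Ω u m (M / R) p (t + I * y)‖ ^ 2 +
      12 * ‖((t₁ : ℂ) + I * (0 : ℝ)) * TTgt Ω u m (M / R) p (t₁ + I * (0 : ℝ))‖ ^ 2 +
      10800 * M ^ 2 * ε' ^ 2 * R ^ 2 * (Acap Ω u m p (2 * (M / R))).toReal ^ 2 := by
  have e0 : ((t₁ : ℂ) + I * (0 : ℝ)) = t₁ := by simp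
  rw [e0, norm_mul, norm_mul]
  have hs : 0 < M / R := by positivity
  have hs1 : M / R ≤ 1 := (div_le_one hR).2 hMR
  have hv := shallow_var h p hs hs1 (τ := t + I * y) (τ' := t₁) (by simpa using hy) (by simp)
  set A := (Acap Ω u m p (2 * (M / R))).toReal with hA
  have hA0 : 0 ≤ A := ENNReal.toReal_nonneg
  set a := TT Ω u m p (t + I * y)
  set b := TT Ω u m p t₁
  set a' := TTgt Ω u m (M / R) p (t + I * y)
  set b' := TTgt Ω u m (M / R) p t₁
  have hd : ‖(t : ℂ) + I * y - t₁‖ ≤ 3 * (ε' * R) := by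
    have : (t : ℂ) + I * y - t₁ = ((t - t₁ : ℝ) : ℂ) + I * y := by push_cast; ring
    rw [this]
    refine (norm_add_le _ _).trans ?_
    rw [norm_mul, Complex.norm_I, one_mul, Complex.norm_real, Complex.norm_real, Real.norm_eq_abs,
      Real.norm_eq_abs]
    linarith
  have hv2 : ‖(a - a') - (b - b')‖ ≤ 60 * M * ε' * A := by
    refine hv.trans ?_
    calc 20 * (M / R) * ‖(t : ℂ) + I * y - t₁‖ * A ≤ 20 * (M / R) * (3 * (ε' * R)) * A := by
          gcongr
      _ = 60 * M * ε' * A := by field_simp; ring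
  have h3 : ‖a - b‖ ≤ ‖a'‖ + ‖b'‖ + 60 * M * ε' * A := by
    have : a - b = a' - b' + ((a - a') - (b - b')) := by ring
    rw [this]
    exact (norm_add_le _ _).trans (add_le_add (norm_sub_le _ _) hv2)
  have h4 : ‖a - b‖ ^ 2 ≤ 3 * (‖a'‖ ^ 2 + ‖b'‖ ^ 2 + (60 * M * ε' * A) ^ 2) := by
    refine (pow_le_pow_left₀ (norm_nonneg _) h3 2).trans ?_
    nlinarith [sq_nonneg (‖a'‖ - ‖b'‖), sq_nonneg (‖a'‖ - 60 * M * ε' * A),
      sq_nonneg (‖b'‖ - 60 * M * ε' * A)]
  have h5 : R / 2 ≤ ‖(t : ℂ) + I * y‖ := by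
    refine ht.trans (le_trans ?_ (Complex.re_le_norm _))
    simp
  have h6 : R / 2 ≤ ‖(t₁ : ℂ)‖ := by
    refine ht₁.trans (le_trans ?_ (Complex.re_le_norm _))
    simp
  have h7 : (R / 2 * ‖a'‖) ^ 2 ≤ (‖(t : ℂ) + I * y‖ * ‖a'‖) ^ 2 := by gcongr
  have h8 : (R / 2 * ‖b'‖) ^ 2 ≤ (‖(t₁ : ℂ)‖ * ‖b'‖) ^ 2 := by gcongr
  have h9 : R ^ 2 * ‖a - b‖ ^ 2 ≤ R ^ 2 * (3 * (‖a'‖ ^ 2 + ‖b'‖ ^ 2 + (60 * M * ε' * A) ^ 2)) := by
    gcongr
  nlinarith

/-- The integrated bound for the variation of the amplitude. -/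
theorem near_bound {Ω : Set ℂ} {u m : ℂ → ℝ} (h : Cap Ω u m) (B : Set ℂ)
    {R M ε' d x t₁ y c D : ℝ} (hR : 0 < R) (hM : 0 < M) (hMR : M ≤ R) (hεR : 1 ≤ ε' * R)
    (hd : 0 < d) (hc : 0 ≤ c) (hD : 0 ≤ D) (hy : |y| ≤ 1) (hx : R / 2 ≤ x - ε' * R)
    (ht₁ : t₁ ∈ Icc (x - ε' * R) (x + ε' * R))
    (hG : ∫⁻ t in Icc (x - ε' * R) (x + ε' * R), ENNReal.ofReal (Pk d (t - x)) * ∫⁻ p in B,
      ENNReal.ofReal (‖((t : ℂ) + I * y) * TTgt Ω u m (M / R) p (t + I * y)‖ ^ 2) ≤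
        ENNReal.ofReal c)
    (hg : ∫⁻ p in B, ENNReal.ofReal
      (‖((t₁ : ℂ) + I * (0 : ℝ)) * TTgt Ω u m (M / R) p (t₁ + I * (0 : ℝ))‖ ^ 2) ≤
        ENNReal.ofReal (4 * c))
    (hA : ∫⁻ p in B, Acap Ω u m p (2 * (M / R)) ^ 2 ≤ ENNReal.ofReal D) :
    ∫⁻ p in B, ENNReal.ofReal (R ^ 2) * ∫⁻ t in Icc (x - ε' * R) (x + ε' * R),
      ENNReal.ofReal (Pk d (t - x) * ‖TT Ω u m p (t + I * y) - TT Ω u m p t₁‖ ^ 2) ≤
      ENNReal.ofReal (60 * c + 10800 * M ^ 2 * ε' ^ 2 * R ^ 2 * D) := by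
  set J := Icc (x - ε' * R) (x + ε' * R) with hJ
  set g : ℂ → ℝ → ℝ≥0∞ := fun p t =>
    ENNReal.ofReal (‖((t : ℂ) + I * y) * TTgt Ω u m (M / R) p (t + I * y)‖ ^ 2) with hgd
  set g₁ : ℂ → ℝ≥0∞ := fun p => ENNReal.ofReal
    (‖((t₁ : ℂ) + I * (0 : ℝ)) * TTgt Ω u m (M / R) p (t₁ + I * (0 : ℝ))‖ ^ 2) with hg₁
  set κ : ℝ := 10800 * M ^ 2 * ε' ^ 2 * R ^ 2 with hκ
  have hκ0 : 0 ≤ κ := by positivity
  have mP : Measurable fun t : ℝ => ENNReal.ofReal (Pk d (t - x)) :=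
    ((pk_meas d).comp (measurable_id.sub measurable_const)).ennreal_ofReal
  have mg : Measurable (Function.uncurry g) := meas_G h (M / R) y
  have mg₁ : Measurable g₁ :=
    (meas_G h (M / R) 0).comp (f := fun p : ℂ => (p, t₁)) (measurable_id.prodMk measurable_const)
  have mPg : Measurable (Function.uncurry fun p t => ENNReal.ofReal (Pk d (t - x)) * g p t) :=
    (mP.comp measurable_snd).mul mg
  have hP1 : ∫⁻ t in J, ENNReal.ofReal (Pk d (t - x)) ≤ 1 :=
    (setLIntegral_le_lintegral _ _).trans (pk_int hd x).le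
  have hp : ∀ p, ENNReal.ofReal (R ^ 2) * ∫⁻ t in J,
      ENNReal.ofReal (Pk d (t - x) * ‖TT Ω u m p (t + I * y) - TT Ω u m p t₁‖ ^ 2) ≤
      12 * (∫⁻ t in J, ENNReal.ofReal (Pk d (t - x)) * g p t) +
        (12 * g₁ p + ENNReal.ofReal κ * Acap Ω u m p (2 * (M / R)) ^ 2) := by
    intro p
    rw [← lintegral_const_mul' _ _ ENNReal.ofReal_ne_top]
    calc _ ≤ ∫⁻ t in J, (12 * (ENNReal.ofReal (Pk d (t - x)) * g p t) +
          ENNReal.ofReal (Pk d (t - x)) *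
            (12 * g₁ p + ENNReal.ofReal κ * Acap Ω u m p (2 * (M / R)) ^ 2)) := by
          refine setLIntegral_mono' measurableSet_Icc fun t ht => ?_
          have hv := var_pt h p hR hM hMR hεR hy (hx.trans ht.1) (hx.trans ht₁.1)
            (abs_le.2 ⟨by linarith [ht.1, ht₁.2], by linarith [ht.2, ht₁.1]⟩)
          have hv' := ENNReal.ofReal_le_ofReal hv
          rw [ENNReal.ofReal_add (by positivity) (by positivity),
            ENNReal.ofReal_add (by positivity) (by positivity),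
            ENNReal.ofReal_mul (by positivity), ENNReal.ofReal_mul (by positivity),
            ENNReal.ofReal_mul (by positivity), ENNReal.ofReal_mul hκ0,
            ENNReal.ofReal_pow ENNReal.toReal_nonneg, ENNReal.ofReal_ofNat] at hv'
          have hv'' : ENNReal.ofReal (R ^ 2) *
              ENNReal.ofReal (‖TT Ω u m p (t + I * y) - TT Ω u m p t₁‖ ^ 2) ≤ 12 * g p t +
              (12 * g₁ p + ENNReal.ofReal κ * Acap Ω u m p (2 * (M / R)) ^ 2) := by
            refine hv'.trans ?_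
            rw [add_assoc]
            gcongr
            exact ENNReal.ofReal_toReal_le
          rw [ENNReal.ofReal_mul (pk_nonneg hd _), mul_left_comm, mul_left_comm 12, ← mul_add]
          gcongr
      _ = 12 * (∫⁻ t in J, ENNReal.ofReal (Pk d (t - x)) * g p t) +
          (∫⁻ t in J, ENNReal.ofReal (Pk d (t - x))) *
            (12 * g₁ p + ENNReal.ofReal κ * Acap Ω u m p (2 * (M / R)) ^ 2) := by
          rw [lintegral_add_right _ (mP.mul_const _), lintegral_const_mul' _ _ (by simp),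
            lintegral_mul_const _ mP]
      _ ≤ _ := by
          gcongr
          exact mul_le_of_le_one_left' hP1
  refine (lintegral_mono hp).trans ?_
  rw [lintegral_add_left (mPg.lintegral_prod_right.const_mul _),
    lintegral_add_left (mg₁.const_mul _), lintegral_const_mul' _ _ (by simp),
    lintegral_const_mul' _ _ (by simp), lintegral_const_mul' _ _ ENNReal.ofReal_ne_top,
    lintegral_lintegral_swap mPg.aemeasurable]
  have hG' : ∫⁻ t in J, ∫⁻ p in B, ENNReal.ofReal (Pk d (t - x)) * g p t ≤ ENNReal.ofReal c := by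
    refine le_trans (le_of_eq (lintegral_congr fun t => ?_)) hG
    rw [lintegral_const_mul' _ _ ENNReal.ofReal_ne_top]
  calc _ ≤ 12 * ENNReal.ofReal c + (12 * ENNReal.ofReal (4 * c) +
        ENNReal.ofReal κ * ENNReal.ofReal D) := by gcongr
    _ = _ := by
      rw [← ENNReal.ofReal_ofNat 12, ← ENNReal.ofReal_mul (by positivity),
        ← ENNReal.ofReal_mul (by positivity), ← ENNReal.ofReal_mul hκ0,
        ← ENNReal.ofReal_add (by positivity) (by positivity),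
        ← ENNReal.ofReal_add (by positivity) (by positivity)]
      congr 1
      ring

end KeyO

end Pool.Agent.MP_f27d50_gt
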