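import Pool.Agent.MP_f27d50_gt.Key1

set_option autoImplicit false

open MeasureTheory Set Filter Topology Complex
open scoped ENNReal Pointwise ComplexConjugate

noncomputable section

namespace Pool.Agent.MP_f27d50_gt

namespace KeyO

theorem int_T {Ω : Set ℂ} {u m : ℂ → ℝ} (h : Cap Ω u m) (p₀ : ℂ) (ρ t : ℝ) :
    IntegrableOn (fun p => t ^ 2 * ‖TT Ω u m p t‖ ^ 2) (Metric.closedBall p₀ ρ) :=
  (continuous_const.mul ((En.cont_TT h t).norm.pow 2)).continuousOn.integrableOn_compact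
    (isCompact_closedBall _ _)

theorem le_of_mul_lt {l a : ℝ} {E : ℝ≥0∞} (hl : 0 < l) (h : ENNReal.ofReal l * E ≤ ENNReal.ofReal a) :
    E ≤ ENNReal.ofReal (a / l) := by
  rw [ENNReal.ofReal_div_of_pos hl, ENNReal.le_div_iff_mul_le (Or.inl (by simpa using hl))
    (Or.inl ENNReal.ofReal_ne_top), mul_comm]
  exact h

/-- The averaging argument at a fixed scale. -/
theorem avg {Ω : Fin 4 → Set ℂ} {u m : Fin 4 → ℂ → ℝ} (h : ∀ i, Cap (Ω i) (u i) (m i))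
    (p₀ : ℂ) (ρ : ℝ) (yy : Fin 3 → ℝ) (hy0 : yy 0 = 0) (hy : ∀ j, |yy j| ≤ 1)
    {R M ε' β σ γ thr c₁ c₂ l₁ l₂ Cf : ℝ} (hR : 0 < R) (hM : 0 < M) (hMR : M ≤ R) (hβ : 0 < β)
    (hβε : β ≤ ε') (hε' : ε' ≤ 1 / 2) (hεR : 1 ≤ ε' * R) (hσ : 0 < σ) (hγ : 0 ≤ γ)
    (hthr : 0 < thr) (hc₂ : 0 ≤ c₂) (hl₁ : 0 < l₁) (hl₂ : 0 < l₂) (hCf : 0 ≤ Cf)
    (H1 : ∀ i j, ∫⁻ p in Metric.closedBall p₀ ρ, ∫⁻ t in Icc (R / 2) (3 * R), ENNReal.ofReal
      (‖((t : ℂ) + I * yy j) * TTgt (Ω i) (u i) (m i) (M / R) p (t + I * yy j)‖ ^ 2) ≤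
        ENNReal.ofReal (c₁ * R * σ))
    (H2 : ∀ i, ∫⁻ p in Metric.closedBall p₀ ρ, Acap (Ω i) (u i) (m i) p (2 * (M / R)) ^ 2 ≤
      ENNReal.ofReal (c₂ * (M / R) ^ 2 * σ))
    (H3 : ∀ i j, ∫⁻ p in Metric.closedBall p₀ ρ, ∫⁻ t in Ioi (0 : ℝ), ENNReal.ofReal
      (‖((t : ℂ) + I * yy j) * TT (Ω i) (u i) (m i) p (t + I * yy j)‖ ^ 2 * (R / (R ^ 2 + t ^ 2))) ≤
        ENNReal.ofReal (Cf * σ))
    (H4 : ∀ t ≥ R / 2,
      (∫ p in Metric.closedBall p₀ ρ, t ^ 2 * ‖TT (Ω 2) (u 2) (m 2) p t‖ ^ 2) +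
      γ * (∑ i, ∫ p in Metric.closedBall p₀ ρ, t ^ 2 * ‖TT (Ω i) (u i) (m i) p t‖ ^ 2) +
      12 * (l₁ * (60 * thr + 10800 * c₂ * M ^ 4 * ε' ^ 2) + l₂ * Cf) * σ <
      ∫ p in Metric.closedBall p₀ ρ, t ^ 2 * ‖TT (Ω 0) (u 0) (m 0) p t‖ ^ 2) :
    ∃ Bad : Set ℝ, MeasurableSet Bad ∧ volume Bad ≤ ENNReal.ofReal (12 * c₁ / thr * R) ∧
      ∀ x ∈ Icc R (2 * R), x ∉ Bad → ∃ p ∈ Metric.closedBall p₀ ρ, ∃ a : Fin 4 → ℂ,
        0 < ∑ i, ‖a i‖ ^ 2 ∧ γ * ∑ i, ‖a i‖ ^ 2 ≤ ‖a 0‖ ^ 2 - ‖a 2‖ ^ 2 ∧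
        (∀ i j, ∫⁻ t in Icc (x - ε' * R) (x + ε' * R), ENNReal.ofReal
          (Pk (β * R) (t - x) * ‖TT (Ω i) (u i) (m i) p (t + I * yy j) - a i‖ ^ 2) ≤
            ENNReal.ofReal (9 / l₁ * ∑ i, ‖a i‖ ^ 2)) ∧
        (∀ i j, ∫⁻ t in Ioi (0 : ℝ), ENNReal.ofReal
          (‖((t : ℂ) + I * yy j) * TT (Ω i) (u i) (m i) p (t + I * yy j)‖ ^ 2 *
            (R / (R ^ 2 + t ^ 2))) ≤ ENNReal.ofReal (9 / l₂ * R ^ 2 * ∑ i, ‖a i‖ ^ 2)) := by
  set B := Metric.closedBall p₀ ρ with hB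
  have hBm : MeasurableSet B := Metric.isClosed_closedBall.measurableSet
  have hε0 : 0 < ε' := hβ.trans_le hβε
  set g₀ : Fin 4 × Fin 3 → ℝ → ℝ≥0∞ := fun k t => ∫⁻ p in B, ENNReal.ofReal
    (‖((t : ℂ) + I * yy k.2) * TTgt (Ω k.1) (u k.1) (m k.1) (M / R) p (t + I * yy k.2)‖ ^ 2)
    with hg₀
  have mg₀ : ∀ k, Measurable (g₀ k) := fun k =>
    (meas_G (h k.1) (M / R) (yy k.2)).lintegral_prod_left'
  set g : ℝ → ℝ≥0∞ := (Icc (R / 2) (3 * R)).indicator fun t => ∑ k, g₀ k t with hg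
  have mg : Measurable g :=
    (Finset.measurable_sum _ fun k _ => mg₀ k).indicator measurableSet_Icc
  have hgle : ∀ k, ∀ t ∈ Icc (R / 2) (3 * R), g₀ k t ≤ g t := fun k t ht => by
    rw [hg, indicator_of_mem ht]
    exact Finset.single_le_sum (f := fun k => g₀ k t) (fun _ _ => zero_le) (Finset.mem_univ k)
  have hgint : ∫⁻ t, g t ≤ ENNReal.ofReal (12 * (c₁ * R * σ)) := by
    rw [hg, lintegral_indicator measurableSet_Icc, lintegral_finsetSum _ fun k _ => mg₀ k]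
    calc _ ≤ ∑ _k : Fin 4 × Fin 3, ENNReal.ofReal (c₁ * R * σ) := by
          refine Finset.sum_le_sum fun k _ => le_trans (le_of_eq ?_) (H1 k.1 k.2)
          exact (lintegral_lintegral_swap (meas_G (h k.1) (M / R) (yy k.2)).aemeasurable).symm
      _ = _ := by
          rw [ENNReal.ofReal_mul (by positivity : (0 : ℝ) ≤ 12)]
          simp
  obtain ⟨Bad, hBad, hvol, hgood⟩ := good_x mg (d := β * R) (c := thr * σ) (by positivity)
    (by positivity) hgint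
  refine ⟨Bad, hBad, hvol.trans (le_of_eq ?_), fun x hx hxB => ?_⟩
  · congr 1
    field_simp
  obtain ⟨hG, t₁, ht₁, hgt⟩ := hgood x hxB
  have hβR : β * R ≤ ε' * R := by gcongr
  have hεR' : ε' * R ≤ R / 2 := by nlinarith
  have hsub : Icc (x - ε' * R) (x + ε' * R) ⊆ Icc (R / 2) (3 * R) :=
    Icc_subset_Icc (by linarith [hx.1]) (by linarith [hx.2])
  have ht₁' : t₁ ∈ Icc (x - ε' * R) (x + ε' * R) := ⟨by linarith [ht₁.1], by linarith [ht₁.2]⟩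
  have ht₁'' := hsub ht₁'
  have ht0 : 0 < t₁ := by linarith [ht₁''.1]
  set E : Fin 4 × Fin 3 → ℂ → ℝ≥0∞ := fun k p => ENNReal.ofReal (R ^ 2) *
    ∫⁻ t in Icc (x - ε' * R) (x + ε' * R), ENNReal.ofReal (Pk (β * R) (t - x) *
      ‖TT (Ω k.1) (u k.1) (m k.1) p (t + I * yy k.2) - TT (Ω k.1) (u k.1) (m k.1) p t₁‖ ^ 2)
    with hE
  set F : Fin 4 × Fin 3 → ℂ → ℝ≥0∞ := fun k p => ∫⁻ t in Ioi (0 : ℝ), ENNReal.ofReal
    (‖((t : ℂ) + I * yy k.2) * TT (Ω k.1) (u k.1) (m k.1) p (t + I * yy k.2)‖ ^ 2 *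
      (R / (R ^ 2 + t ^ 2))) with hF
  have mE : ∀ k, Measurable (E k) := fun k => by
    have h1 := meas_T (h k.1) (yy k.2)
    have h2 : Measurable fun z : ℂ × ℝ => TT (Ω k.1) (u k.1) (m k.1) z.1 t₁ :=
      (En.cont_TT (h k.1) t₁).measurable.comp measurable_fst
    have h3 : Measurable fun z : ℂ × ℝ => Pk (β * R) (z.2 - x) :=
      (pk_meas _).comp (measurable_snd.sub measurable_const)
    exact (h3.mul ((h1.sub h2).norm.pow_const 2)).ennreal_ofReal.lintegral_prod_right'.const_mul _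
  have mF : ∀ k, Measurable (F k) := fun k => by
    have h1 := meas_T (h k.1) (yy k.2)
    have h2 : Measurable fun z : ℂ × ℝ => (z.2 : ℂ) + I * yy k.2 := by fun_prop
    have h3 : Measurable fun z : ℂ × ℝ => R / (R ^ 2 + z.2 ^ 2) := by fun_prop
    exact (((h2.mul h1).norm.pow_const 2).mul h3).ennreal_ofReal.lintegral_prod_right'
  have hEint : ∀ k, ∫⁻ p in B, E k p ≤
      ENNReal.ofReal ((60 * thr + 10800 * c₂ * M ^ 4 * ε' ^ 2) * σ) := fun k => by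
    have h0 := near_bound (h k.1) B (d := β * R) (x := x) (t₁ := t₁) (y := yy k.2) (c := thr * σ)
      hR hM hMR hεR (by positivity) (by positivity) (by positivity) (hy k.2)
      (by linarith [hx.1]) ht₁' ?_ ?_ (H2 k.1)
    · refine h0.trans (le_of_eq ?_)
      congr 1
      field_simp
    · refine le_trans ?_ ((setLIntegral_le_lintegral (Icc (x - ε' * R) (x + ε' * R)) _).trans hG)
      refine setLIntegral_mono' measurableSet_Icc fun t ht => ?_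
      exact mul_le_mul' le_rfl (hgle k t (hsub ht))
    · have := (hgle (k.1, 0) t₁ ht₁'').trans hgt
      simpa only [hg₀, hy0] using this
  set D : ℝ := l₁ * (60 * thr + 10800 * c₂ * M ^ 4 * ε' ^ 2) + l₂ * Cf with hD
  have hD0 : 0 ≤ D := by positivity
  have hEr : ∫⁻ p in B, ∑ k, (ENNReal.ofReal l₁ * E k p + ENNReal.ofReal l₂ * F k p) ≤
      ENNReal.ofReal (12 * D * σ) := by
    have mEF : ∀ k, Measurable fun p => ENNReal.ofReal l₁ * E k p + ENNReal.ofReal l₂ * F k p :=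
      fun k => ((mE k).const_mul _).add ((mF k).const_mul _)
    rw [lintegral_finsetSum _ fun k _ => mEF k]
    calc _ ≤ ∑ _k : Fin 4 × Fin 3, ENNReal.ofReal (D * σ) := by
          refine Finset.sum_le_sum fun k _ => ?_
          rw [lintegral_add_left ((mE k).const_mul _),
            lintegral_const_mul' (ENNReal.ofReal l₁) _ ENNReal.ofReal_ne_top,
            lintegral_const_mul' (ENNReal.ofReal l₂) _ ENNReal.ofReal_ne_top]
          refine (add_le_add (mul_le_mul' le_rfl (hEint k))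
            (mul_le_mul' le_rfl (H3 k.1 k.2))).trans (le_of_eq ?_)
          rw [← ENNReal.ofReal_mul hl₁.le, ← ENNReal.ofReal_mul hl₂.le,
            ← ENNReal.ofReal_add (by positivity) (by positivity)]
          congr 1
          rw [hD]
          ring
      _ = _ := by
          rw [mul_assoc, ENNReal.ofReal_mul (by positivity : (0 : ℝ) ≤ 12)]
          simp
  have hi := fun i => int_T (h i) p₀ ρ t₁
  have hi' : IntegrableOn (fun p => ∑ i, t₁ ^ 2 * ‖TT (Ω i) (u i) (m i) p t₁‖ ^ 2) B :=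
    integrable_finsetSum _ fun i _ => hi i
  obtain ⟨p, hp, hlt⟩ := pigeon hBm (hi 0)
    (k := fun p => t₁ ^ 2 * ‖TT (Ω 2) (u 2) (m 2) p t₁‖ ^ 2 +
      γ * ∑ i, t₁ ^ 2 * ‖TT (Ω i) (u i) (m i) p t₁‖ ^ 2) ((hi 2).add (hi'.const_mul γ))
    (fun p => by positivity) (fun p => by positivity) (by positivity) hEr (by
      rw [integral_add (hi 2) (hi'.const_mul γ), integral_const_mul γ,
        integral_finsetSum _ fun i _ => hi i]
      exact H4 t₁ ht₁''.1)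
  set a : Fin 4 → ℂ := fun i => TT (Ω i) (u i) (m i) p t₁ with ha
  set Sa : ℝ := ∑ i, ‖a i‖ ^ 2 with hSa
  have h0S : ‖a 0‖ ^ 2 ≤ Sa :=
    Finset.single_le_sum (f := fun i => ‖a i‖ ^ 2) (fun _ _ => by positivity) (Finset.mem_univ 0)
  have hS0 : 0 ≤ Sa := le_trans (by positivity) h0S
  have hsum : ∑ i, t₁ ^ 2 * ‖TT (Ω i) (u i) (m i) p t₁‖ ^ 2 = t₁ ^ 2 * Sa := by
    rw [hSa, Finset.mul_sum]
  rw [hsum] at hlt
  have ht2 : 0 < t₁ ^ 2 := by positivity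
  have hlt1 : t₁ ^ 2 * ‖a 2‖ ^ 2 + γ * (t₁ ^ 2 * Sa) < t₁ ^ 2 * ‖a 0‖ ^ 2 :=
    (ENNReal.ofReal_lt_ofReal_iff_of_nonneg (by positivity)).1 (le_self_add.trans_lt hlt)
  have hlt2 : ‖a 2‖ ^ 2 + γ * Sa < ‖a 0‖ ^ 2 := by
    refine lt_of_mul_lt_mul_left ?_ ht2.le
    linarith
  have hbd : t₁ ^ 2 * ‖a 0‖ ^ 2 ≤ 9 * R ^ 2 * Sa := by
    have : t₁ ^ 2 ≤ (3 * R) ^ 2 := by gcongr; exact ht₁''.2
    calc _ ≤ (3 * R) ^ 2 * Sa := by gcongr
      _ = _ := by ring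
  have hk : ∀ k, ENNReal.ofReal l₁ * E k p + ENNReal.ofReal l₂ * F k p ≤
      ENNReal.ofReal (9 * R ^ 2 * Sa) := fun k =>
    ((Finset.single_le_sum (f := fun k => ENNReal.ofReal l₁ * E k p + ENNReal.ofReal l₂ * F k p)
      (fun _ _ => zero_le) (Finset.mem_univ k)).trans (le_add_self.trans hlt.le)).trans
      (ENNReal.ofReal_le_ofReal hbd)
  refine ⟨p, hp, a, ?_, by linarith, fun i j => ?_, fun i j => ?_⟩
  · have : 0 ≤ ‖a 2‖ ^ 2 + γ * Sa := by positivity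
    linarith
  · have h1 := le_of_mul_lt hl₁ (le_self_add.trans (hk (i, j)))
    have h2 := le_of_mul_lt (by positivity : 0 < R ^ 2) h1
    have h3 : 9 * R ^ 2 * Sa / l₁ / R ^ 2 = 9 / l₁ * Sa := by field_simp
    rwa [h3] at h2
  · have h1 := le_of_mul_lt hl₂ (le_add_self.trans (hk (i, j)))
    have h3 : 9 * R ^ 2 * Sa / l₂ = 9 / l₂ * R ^ 2 * Sa := by field_simp
    rwa [h3] at h1

end KeyO

end Pool.Agent.MP_f27d50_gt
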