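import Pool.Agent.MP_f27d50_gt.Defs2
import Pool.Agent.MP_f27d50_gt.Geom

set_option autoImplicit false

open MeasureTheory Set Filter Topology Complex
open scoped ENNReal Pointwise ComplexConjugate

noncomputable section

namespace Pool.Agent.MP_f27d50_gt

namespace KeyAAux

open GeomAux

/-- `φ` is the difference of an upper and a shifted lower amplitude -/
structure Amp (T₀ T₁ φ : ℂ → ℂ) (w : ℝ) : Prop where
  c0 : Continuous T₀
  c1 : Continuous T₁
  s0 : ∀ τ, T₀ (-conj τ) = conj (T₀ τ)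
  s1 : ∀ τ, T₁ (-conj τ) = conj (T₁ τ)
  eq : ∀ τ, φ τ = T₀ τ - Complex.exp (-(I * τ * w)) * T₁ (-τ)

theorem lint_two (μ : Measure ℝ) {f g₁ g₂ : ℝ → ℝ} {c A B : ℝ} (hc : 0 ≤ c) (hA : 0 ≤ A)
    (hB : 0 ≤ B) (m1 : Measurable g₁) (m2 : Measurable g₂) (n1 : ∀ t, 0 ≤ g₁ t)
    (n2 : ∀ t, 0 ≤ g₂ t) (hfg : ∀ᵐ t ∂μ, f t ≤ c * (g₁ t + g₂ t))
    (h1 : ∫⁻ t, ENNReal.ofReal (g₁ t) ∂μ ≤ ENNReal.ofReal A)
    (h2 : ∫⁻ t, ENNReal.ofReal (g₂ t) ∂μ ≤ ENNReal.ofReal B) :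
    ∫⁻ t, ENNReal.ofReal (f t) ∂μ ≤ ENNReal.ofReal (c * (A + B)) := by
  calc ∫⁻ t, ENNReal.ofReal (f t) ∂μ
      ≤ ∫⁻ t, ENNReal.ofReal c * (ENNReal.ofReal (g₁ t) + ENNReal.ofReal (g₂ t)) ∂μ := by
        refine lintegral_mono_ae (hfg.mono fun t ht => ?_)
        rw [← ENNReal.ofReal_add (n1 t) (n2 t), ← ENNReal.ofReal_mul hc]
        exact ENNReal.ofReal_le_ofReal ht
    _ = ENNReal.ofReal c * (∫⁻ t, ENNReal.ofReal (g₁ t) ∂μ + ∫⁻ t, ENNReal.ofReal (g₂ t) ∂μ) := by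
        rw [lintegral_const_mul _ (m1.ennreal_ofReal.fun_add m2.ennreal_ofReal),
          lintegral_add_left m1.ennreal_ofReal]
    _ ≤ ENNReal.ofReal c * (ENNReal.ofReal A + ENNReal.ofReal B) := by gcongr
    _ = _ := by rw [← ENNReal.ofReal_add hA hB, ← ENNReal.ofReal_mul hc]

theorem lint_even {g : ℝ → ℝ≥0∞} (hg : ∀ t, g (-t) = g t) :
    ∫⁻ t, g t ≤ (∫⁻ t in Ioi (0 : ℝ), g t) + ∫⁻ t in Ioi (0 : ℝ), g t := by
  rw [← lintegral_add_compl g (measurableSet_Ioi (a := (0 : ℝ))), compl_Ioi]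
  refine add_le_add le_rfl ?_
  have h := (Measure.measurePreserving_neg (volume : Measure ℝ)).setLIntegral_comp_preimage_emb
    (MeasurableEquiv.neg ℝ).measurableEmbedding g (Iic 0)
  have e : (Neg.neg : ℝ → ℝ) ⁻¹' Iic 0 = Ici 0 := by ext t; simp
  rw [← h, e, setLIntegral_congr Ioi_ae_eq_Ici.symm]
  simp only [hg, le_refl]

theorem sq_add_le {A B E : ℝ} (hB : 0 ≤ B) (hE : E ≤ 2) {z : ℝ}
    (hz0 : 0 ≤ z) (hz : z ≤ A + E * B) : z ^ 2 ≤ 8 * (A ^ 2 + B ^ 2) := by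
  have h1 : z ≤ A + 2 * B := by nlinarith
  have h2 : z ^ 2 ≤ (A + 2 * B) ^ 2 := by gcongr
  nlinarith [sq_nonneg (A - 2 * B), sq_nonneg A, sq_nonneg B, sq_nonneg (2 * A - B)]

theorem norm_shift (t y w : ℝ) :
    ‖Complex.exp (-(I * (t + I * y) * w))‖ = Real.exp (y * w) := by
  rw [Complex.norm_exp]; simp

theorem neg_line (t y : ℝ) : -((t : ℂ) + I * y) = -conj ((t : ℂ) + I * ((-y : ℝ) : ℂ)) := by
  simp

variable {T₀ T₁ φ : ℂ → ℂ} {w : ℝ}

theorem Amp.near (h : Amp T₀ T₁ φ w) (a₀ a₁ : ℂ) (t : ℝ) {y : ℝ} (hE : Real.exp (y * w) ≤ 2) :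
    ‖φ (t + I * y) - (a₀ - conj a₁ * Complex.exp (-(I * (t + I * y) * w)))‖ ^ 2 ≤
      8 * (‖T₀ (t + I * y) - a₀‖ ^ 2 + ‖T₁ (t + I * ((-y : ℝ) : ℂ)) - a₁‖ ^ 2) := by
  refine sq_add_le (norm_nonneg _) hE (norm_nonneg _) ?_
  rw [h.eq, neg_line, h.s1]
  have e : T₀ (t + I * y) - Complex.exp (-(I * (t + I * y) * w)) *
      conj (T₁ (t + I * ((-y : ℝ) : ℂ))) - (a₀ - conj a₁ * Complex.exp (-(I * (t + I * y) * w))) =
      (T₀ (t + I * y) - a₀) - Complex.exp (-(I * (t + I * y) * w)) *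
        conj (T₁ (t + I * ((-y : ℝ) : ℂ)) - a₁) := by
    rw [map_sub]; ring
  rw [e]
  refine (norm_sub_le _ _).trans (le_of_eq ?_)
  rw [norm_mul, norm_shift, Complex.norm_conj]

theorem Amp.far (h : Amp T₀ T₁ φ w) (t : ℝ) {y : ℝ} (hE : Real.exp (y * w) ≤ 2) :
    ‖(t + I * y) * φ (t + I * y)‖ ^ 2 ≤ 8 * (‖(t + I * y) * T₀ (t + I * y)‖ ^ 2 +
      ‖(t + I * ((-y : ℝ) : ℂ)) * T₁ (t + I * ((-y : ℝ) : ℂ))‖ ^ 2) := by
  refine sq_add_le (norm_nonneg _) hE (norm_nonneg _) ?_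
  rw [h.eq, neg_line, h.s1, mul_sub]
  refine (norm_sub_le _ _).trans (le_of_eq ?_)
  have e : ‖(t : ℂ) + I * ((-y : ℝ) : ℂ)‖ = ‖(t : ℂ) + I * y‖ := by
    rw [← Complex.norm_conj]; simp
  simp only [norm_mul, norm_shift, Complex.norm_conj, e]
  ring

theorem Amp.symm (h : Amp T₀ T₁ φ w) (τ : ℂ) : φ (-conj τ) = conj (φ τ) := by
  have e := h.s1 (-τ)
  rw [map_neg] at e
  rw [h.eq, h.eq, h.s0, e, map_sub, map_mul, ← Complex.exp_conj]
  simp

theorem Pk_nonneg {d : ℝ} (hd : 0 ≤ d) (t : ℝ) : 0 ≤ Pk d t := by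
  unfold Pk; have := Real.pi_pos; positivity

theorem Pk_meas (d x : ℝ) : Measurable fun t => Pk d (t - x) := by
  unfold Pk; fun_prop

theorem Pk_ge {d t : ℝ} (hd : 0 < d) (ht : |t| ≤ d) : 1 ≤ 8 * d * Pk d t := by
  have hp := Real.pi_pos
  have h4 := Real.pi_le_four
  have h1 : t ^ 2 ≤ d ^ 2 := sq_le_sq' (abs_le.1 ht).1 (abs_le.1 ht).2
  unfold Pk
  rw [← mul_div_assoc, le_div_iff₀ (by positivity)]
  have : Real.pi * (t ^ 2 + d ^ 2) ≤ 4 * (d ^ 2 + d ^ 2) := by gcongr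
  nlinarith

theorem Amp.near_int (h : Amp T₀ T₁ φ w) (a₀ a₁ : ℂ) {y : ℝ} (hE : Real.exp (y * w) ≤ 2)
    {d x A : ℝ} (hd : 0 ≤ d) (hA : 0 ≤ A) (s : Set ℝ)
    (h0 : ∫⁻ t in s, ENNReal.ofReal (Pk d (t - x) * ‖T₀ (t + I * y) - a₀‖ ^ 2) ≤
      ENNReal.ofReal A)
    (h1 : ∫⁻ t in s, ENNReal.ofReal (Pk d (t - x) * ‖T₁ (t + I * ((-y : ℝ) : ℂ)) - a₁‖ ^ 2) ≤
      ENNReal.ofReal A) :
    ∫⁻ t in s, ENNReal.ofReal (Pk d (t - x) *
      ‖φ (t + I * y) - (a₀ - conj a₁ * Complex.exp (-(I * (t + I * y) * w)))‖ ^ 2) ≤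
        ENNReal.ofReal (8 * (A + A)) := by
  have c0 := h.c0
  have c1 := h.c1
  refine lint_two _ (by norm_num) hA hA ((Pk_meas d x).fun_mul (Continuous.measurable (by fun_prop)))
    ((Pk_meas d x).fun_mul (Continuous.measurable (by fun_prop)))
    (fun t => mul_nonneg (Pk_nonneg hd _) (sq_nonneg _))
    (fun t => mul_nonneg (Pk_nonneg hd _) (sq_nonneg _)) (Eventually.of_forall fun t => ?_) h0 h1
  have := mul_le_mul_of_nonneg_left (h.near a₀ a₁ t hE) (Pk_nonneg hd (t - x))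
  linarith

theorem Amp.far_int (h : Amp T₀ T₁ φ w) {y : ℝ} (hE : Real.exp (y * w) ≤ 2)
    {R A : ℝ} (hR : 0 ≤ R) (hA : 0 ≤ A)
    (h0 : ∫⁻ t in Ioi (0 : ℝ), ENNReal.ofReal
      (‖(t + I * y) * T₀ (t + I * y)‖ ^ 2 * (R / (R ^ 2 + t ^ 2))) ≤ ENNReal.ofReal A)
    (h1 : ∫⁻ t in Ioi (0 : ℝ), ENNReal.ofReal
      (‖(t + I * ((-y : ℝ) : ℂ)) * T₁ (t + I * ((-y : ℝ) : ℂ))‖ ^ 2 * (R / (R ^ 2 + t ^ 2))) ≤
        ENNReal.ofReal A) :
    ∫⁻ t : ℝ, ENNReal.ofReal (‖(t + I * y) * φ (t + I * y)‖ ^ 2 * (R / (R ^ 2 + t ^ 2))) ≤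
      ENNReal.ofReal (32 * A) := by
  have c0 := h.c0
  have c1 := h.c1
  have mk : Measurable fun t : ℝ => R / (R ^ 2 + t ^ 2) := by fun_prop
  have nk : ∀ t : ℝ, 0 ≤ R / (R ^ 2 + t ^ 2) := fun t => by positivity
  have key : ∫⁻ t in Ioi (0 : ℝ), ENNReal.ofReal
      (‖(t + I * y) * φ (t + I * y)‖ ^ 2 * (R / (R ^ 2 + t ^ 2))) ≤
      ENNReal.ofReal (8 * (A + A)) := by
    refine lint_two _ (by norm_num) hA hA ((Continuous.measurable (by fun_prop)).fun_mul mk)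
      ((Continuous.measurable (by fun_prop)).fun_mul mk)
      (fun t => mul_nonneg (sq_nonneg _) (nk t))
      (fun t => mul_nonneg (sq_nonneg _) (nk t)) (Eventually.of_forall fun t => ?_) h0 h1
    have := mul_le_mul_of_nonneg_right (h.far t hE) (nk t)
    linarith
  refine (lint_even fun t => ?_).trans ((add_le_add key key).trans (le_of_eq ?_))
  · have e : (((-t : ℝ) : ℂ) + I * y) = -conj ((t : ℂ) + I * y) := by simp [add_comm]
    rw [e, h.symm, neg_mul, norm_neg, ← map_mul, Complex.norm_conj, neg_sq]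
  · rw [← ENNReal.ofReal_add (by positivity) (by positivity)]
    congr 1; ring

/-! ### amplitudes of bodies -/

theorem meas_psi {K : Set X} (h : Body K) (p : ℂ) :
    Measurable (fun y => psi (uK K) (mK K) p y) := by
  have := measurable_uK h
  unfold psi
  fun_prop

theorem norm_amp (τ : ℂ) (s : ℝ) : ‖Complex.exp (-(I * τ * s))‖ = Real.exp (τ.im * s) := by
  rw [Complex.norm_exp]; simp

theorem TK_cont {K : Set X} (h : Body K) (p : ℂ) : Continuous (TK K p) := by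
  have hO : MeasurableSet (Om K) := (isOpen_interior : IsOpen (Om K)).measurableSet
  have hm := meas_psi h p
  have hfin : IsFiniteMeasure (volume.restrict (Om K)) :=
    isFiniteMeasure_restrict.2 (isBounded_Om h.cpt).measure_lt_top.ne
  rw [continuous_iff_continuousAt]
  intro τ₀
  refine continuousAt_of_dominated (bound := fun _ => Real.exp ((‖τ₀‖ + 1) * wd K (nv p)))
    (Eventually.of_forall fun τ => Measurable.aestronglyMeasurable (by fun_prop)) ?_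
    (integrable_const _) (Eventually.of_forall fun y => by fun_prop)
  filter_upwards [Metric.ball_mem_nhds τ₀ one_pos] with τ hτ
  refine (ae_restrict_iff' hO).2 (Eventually.of_forall fun y hy => ?_)
  rw [norm_amp]
  have h0 := (cap_body h).nonneg p y hy
  have h1 := psi_le_wd h p hy
  have h2 : τ.im ≤ ‖τ₀‖ + 1 := by
    have a := (le_abs_self _).trans (Complex.abs_im_le_norm τ)
    have b := norm_le_norm_add_norm_sub' τ τ₀
    rw [mem_ball_iff_norm] at hτ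
    linarith
  have h3 := norm_nonneg τ₀
  refine Real.exp_le_exp.2 ?_
  calc τ.im * psi (uK K) (mK K) p y ≤ (‖τ₀‖ + 1) * psi (uK K) (mK K) p y := by gcongr
    _ ≤ _ := by gcongr

theorem TK_symm (K : Set X) (p τ : ℂ) : TK K p (-conj τ) = conj (TK K p τ) := by
  unfold TK TT
  rw [← integral_conj]
  congr 1
  funext y
  rw [← Complex.exp_conj]
  simp

theorem TK_le {K : Set X} (h : Body K) (p τ : ℂ) {c : ℝ}
    (hc : ∀ s, 0 ≤ s → s ≤ wd K (nv p) → τ.im * s ≤ c) :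
    ‖TK K p τ‖ ≤ Real.exp c * (volume : Measure ℂ).real (Om K) := by
  refine norm_setIntegral_le_of_norm_le_const (isBounded_Om h.cpt).measure_lt_top fun y hy => ?_
  rw [norm_amp]
  exact Real.exp_le_exp.2 (hc _ ((cap_body h).nonneg p y hy) (psi_le_wd h p hy))

theorem wd_neg (K : Set X) (η : V) : wd (-K) η = wd K η := by
  unfold wd; rw [hs_neg, hs_neg, neg_neg, add_comm]

/-- the normalised transform along a real line -/
def ph (K : Set X) (p : ℂ) (τ : ℂ) : ℂ :=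
  I * τ * FT K (τ • cx (nv p) 0) * Complex.exp (-(I * τ * (hs K (nv p) : ℂ)))

theorem ph_amp {K : Set X} (h : Body K) (p : ℂ) :
    Amp (TK K p) (TK (-K) p) (ph K p) (wd K (nv p)) :=
  ⟨TK_cont h p, TK_cont h.neg p, TK_symm K p, TK_symm (-K) p, fun τ => FT_eq h p τ⟩

theorem ph_diff {K : Set X} (h : Body K) (p : ℂ) : Differentiable ℂ (ph K p) := by
  have := differentiable_FT h.cpt
  unfold ph
  fun_prop

theorem ph_bdd {K : Set X} (h : Body K) (p : ℂ) : ∃ B : ℝ, ∀ τ : ℂ, τ.im ≤ 1 → ‖ph K p τ‖ ≤ B := by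
  set w := wd K (nv p) with hw
  refine ⟨Real.exp w * (volume : Measure ℂ).real (Om K) +
    Real.exp w * (volume : Measure ℂ).real (Om (-K)), fun τ hτ => ?_⟩
  rw [(ph_amp h p).eq]
  refine (norm_sub_le _ _).trans (add_le_add (TK_le h p τ fun s s0 s1 => by nlinarith) ?_)
  have := TK_le h.neg p (-τ) (c := w - τ.im * w) fun s s0 s1 => by
    rw [wd_neg] at s1
    rw [neg_im]
    nlinarith
  rw [norm_mul, norm_amp]
  refine (mul_le_mul_of_nonneg_left this (Real.exp_pos _).le).trans (le_of_eq ?_)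
  rw [← mul_assoc, ← Real.exp_add]
  congr 2; ring

theorem norm_ph_real (K : Set X) (p : ℂ) (t : ℝ) :
    ‖ph K p t‖ = |t| * ‖FT K (cx (t • nv p) 0)‖ := by
  have e : (t : ℂ) • cx (nv p) 0 = cx (t • nv p) 0 := by
    ext i; simp [cx]
  unfold ph
  rw [norm_mul, norm_amp, e]
  simp

theorem ln_ne {K : Set X} (h : Body K) (ζ : W) : ∃ z, ln (FT K) ζ z ≠ 0 :=
  ⟨0, by simpa [ln] using (fam_body h).ne0⟩

theorem ord_ph {K : Set X} (h : Body K) (p : ℂ) {z : ℂ} (hz : z ≠ 0) :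
    ord (ph K p) z = ord (ln (FT K) (cx (nv p) 0)) z := by
  have e : ph K p = fun τ => (I * τ * Complex.exp (-(I * τ * (hs K (nv p) : ℂ)))) *
      ln (FT K) (cx (nv p) 0) τ := by
    funext τ; unfold ph ln; ring
  have d : Differentiable ℂ fun τ : ℂ => I * τ * Complex.exp (-(I * τ * (hs K (nv p) : ℂ))) := by
    fun_prop
  rw [e, ord_mul d (differentiable_ln (differentiable_FT h.cpt) _) ⟨1, by simp⟩ (ln_ne h _),
    ord_eq_zero d (by simp [hz]), zero_add]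

theorem S_ph {K : Set X} (h : Body K) (p : ℂ) {a b : ℝ} (ha : 0 < a) :
    S (ord (ln (FT K) (cx (nv p) 0))) (kQ a b) = S (ord (ph K p)) (kQ a b) := by
  unfold S
  refine finsum_congr fun z => ?_
  by_cases hz : z = 0
  · have : kQ a b z = 0 := by
      unfold kQ; rw [if_neg]; rintro ⟨h1, -⟩; rw [hz, norm_zero] at h1; linarith
    rw [this, mul_zero, mul_zero]
  · rw [ord_ph h p hz]

theorem count {K L : Set X} (hK : Body K) (hL : Body L) (η : V) (a b : ℝ) :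
    S (mA (ln (FT K) (cx η 0)) (ln (FT L) (cx η 0))) (kI a b) ≤
      2 * (S (ord (ln (FT K) (cx η 0))) (kQ a b) + S (ord (ln (FT (-L)) (cx η 0))) (kQ a b)) := by
  set f := ln (FT K) (cx η 0) with hf
  set g := ln (FT L) (cx η 0) with hg
  set g' := ln (FT (-L)) (cx η 0) with hg'
  set F₁ : ℂ → ℝ := fun z => (ord f z : ℝ) * kQ a b z with hF₁
  set F₂ : ℂ → ℝ := fun z => (ord g' z : ℝ) * kQ a b z with hF₂
  have fin : ∀ {M : Set X}, Body M → ∀ (μ : ℂ → ℕ) (k : ℂ → ℝ),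
      (∀ z, μ z ≤ ord (ln (FT M) (cx η 0)) z) → (∀ z, k z ≠ 0 → ‖z‖ ≤ b) →
      Function.HasFiniteSupport fun z => (μ z : ℝ) * k z := by
    intro M hM μ k hμ hk
    have d := differentiable_ln (differentiable_FT hM.cpt) (cx η 0)
    refine (finite_zeros d (ln_ne hM _) b).subset fun z hz => ?_
    rw [Function.mem_support, mul_ne_zero_iff] at hz
    refine ⟨hk z hz.2, by_contra fun hne => hz.1 ?_⟩
    have := hμ z
    rw [ord_eq_zero d hne] at this
    simp [Nat.le_zero.1 this]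
  have kq : ∀ z, kQ a b z ≠ 0 → ‖z‖ ≤ b := fun z hz => by
    unfold kQ at hz; by_contra hb; exact hz (if_neg fun h => hb h.2.1)
  have ki : ∀ z, kI a b z ≠ 0 → ‖z‖ ≤ b := fun z hz => by
    unfold kI at hz; by_contra hb; exact hz (if_neg fun h => hb h.2)
  have f0 := fin hK (mA f g) (kI a b) (fun z => min_le_left _ _) ki
  have f1 : Function.HasFiniteSupport F₁ := fin hK (ord f) (kQ a b) (fun z => le_rfl) kq
  have f2 : Function.HasFiniteSupport F₂ := fin hL.neg (ord g') (kQ a b) (fun z => le_rfl) kq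
  have b1 : Function.Bijective fun z : ℂ => -conj z :=
    Function.Involutive.bijective fun z => by simp
  have b2 : Function.Bijective fun z : ℂ => conj z :=
    Function.Involutive.bijective fun z => by simp
  have b3 : Function.Bijective fun z : ℂ => -z := Function.Involutive.bijective fun z => by simp
  have f3 : Function.HasFiniteSupport fun z => F₁ (-conj z) :=
    Set.Finite.preimage (f := fun z : ℂ => -conj z) b1.1.injOn f1
  have f4 : Function.HasFiniteSupport fun z => F₂ (conj z) :=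
    Set.Finite.preimage (f := fun z : ℂ => conj z) b2.1.injOn f2
  have f5 : Function.HasFiniteSupport fun z => F₂ (-z) :=
    Set.Finite.preimage (f := fun z : ℂ => -z) b3.1.injOn f2
  have n1 : ∀ z, 0 ≤ F₁ z := fun z => mul_nonneg (Nat.cast_nonneg _) (by
    unfold kQ; split_ifs <;> norm_num)
  have n2 : ∀ z, 0 ≤ F₂ z := fun z => mul_nonneg (Nat.cast_nonneg _) (by
    unfold kQ; split_ifs <;> norm_num)
  have pt : (fun z => (mA f g z : ℝ) * kI a b z) ≤
      fun z => (F₁ z + F₁ (-conj z)) + (F₂ (conj z) + F₂ (-z)) := by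
    intro z
    have := n1 z; have := n1 (-conj z); have := n2 (conj z); have := n2 (-z)
    by_cases hz : a ≤ ‖z‖ ∧ ‖z‖ ≤ b
    swap
    · simp only [kI, if_neg hz, mul_zero]; linarith
    have l1 : (mA f g z : ℝ) ≤ ord f z := by exact_mod_cast min_le_left _ _
    have l2 : (mA f g z : ℝ) ≤ ord g z := by exact_mod_cast min_le_right _ _
    simp only [kI, if_pos hz, mul_one]
    rcases le_total z.im 0 with hi | hi <;> rcases le_total 0 z.re with hr | hr
    · have : F₁ z = ord f z := by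
        simp only [hF₁, kQ]; rw [if_pos ⟨hz.1, hz.2, hr, hi⟩, mul_one]
      linarith
    · have : F₁ (-conj z) = ord f z := by
        simp only [hF₁, kQ]
        rw [if_pos (by simpa using ⟨hz.1, hz.2, hr, hi⟩), mul_one, ord_conj K hK]
      linarith
    · have : F₂ (conj z) = ord g z := by
        simp only [hF₂, kQ]
        rw [if_pos (by simpa using ⟨hz.1, hz.2, hr, hi⟩), mul_one, ord_neg L hL, ord_conj L hL]
      linarith
    · have : F₂ (-z) = ord g z := by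
        simp only [hF₂, kQ]
        rw [if_pos (by simpa using ⟨hz.1, hz.2, hr, hi⟩), mul_one, ord_neg L hL, neg_neg]
      linarith
  have f6 : Function.HasFiniteSupport fun z => F₁ z + F₁ (-conj z) := f1.add f3
  have f7 : Function.HasFiniteSupport fun z => F₂ (conj z) + F₂ (-z) := f4.add f5
  have f8 : Function.HasFiniteSupport fun z =>
    (F₁ z + F₁ (-conj z)) + (F₂ (conj z) + F₂ (-z)) := f6.add f7
  have := finsum_le_finsum' f0 f8 pt
  change ∑ᶠ z, (mA f g z : ℝ) * kI a b z ≤ 2 * (∑ᶠ z, F₁ z + ∑ᶠ z, F₂ z)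
  refine this.trans (le_of_eq ?_)
  rw [finsum_add_distrib f6 f7, finsum_add_distrib f1 f3,
    finsum_add_distrib f4 f5, finsum_comp (g := F₁) _ b1, finsum_comp (g := F₂) _ b2,
    finsum_comp (g := F₂) _ b3]
  ring

end KeyAAux

end Pool.Agent.MP_f27d50_gt
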