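import Pool.Agent.MP_f27d50_gt.CapGeo
import Pool.Agent.MP_f27d50_gt.CapTail
import Pool.Agent.MP_f27d50_gt.Energy

set_option autoImplicit false

open MeasureTheory Set Filter Topology Complex
open scoped ENNReal Pointwise ComplexConjugate

noncomputable section

namespace Pool.Agent.MP_f27d50_gt

theorem measurable_TT {Ω : Set ℂ} {u m : ℂ → ℝ} (h : Cap Ω u m) :
    Measurable fun q : ℂ × ℂ => TT Ω u m q.1 q.2 := by
  have := En.fin_restrict h
  have hu := h.meas
  have hm := h.mcont.measurable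
  have h1 : Measurable fun z : (ℂ × ℂ) × ℂ =>
      Complex.exp (-(Complex.I * z.1.2 * (psi u m z.1.1 z.2 : ℂ))) := by
    unfold psi
    fun_prop
  exact (h1.stronglyMeasurable.integral_prod_right' (ν := volume.restrict Ω)).measurable

theorem measurable_TTgt {Ω : Set ℂ} {u m : ℂ → ℝ} (h : Cap Ω u m) (s : ℝ) :
    Measurable fun q : ℂ × ℂ => TTgt Ω u m s q.1 q.2 := by
  have := En.fin_restrict h
  have hu := h.meas
  have hm := h.mcont.measurable
  have hc := CapL.chi_cont.measurable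
  have h1 : Measurable fun z : (ℂ × ℂ) × ℂ =>
      Complex.exp (-(Complex.I * z.1.2 * (psi u m z.1.1 z.2 : ℂ))) *
        ((1 - CapL.chi (psi u m z.1.1 z.2 / s) : ℝ) : ℂ) := by
    unfold psi
    fun_prop
  exact (h1.stronglyMeasurable.integral_prod_right' (ν := volume.restrict Ω)).measurable

namespace KB

theorem meas_psi {Ω : Set ℂ} {u m : ℂ → ℝ} (h : Cap Ω u m) (p : ℂ) : Measurable (psi u m p) := by
  have hu := h.meas
  unfold psi
  fun_prop

theorem psi_bdd {Ω : Set ℂ} {u m : ℂ → ℝ} (h : Cap Ω u m) (p : ℂ) :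
    ∃ B : ℝ, ∀ y ∈ Ω, psi u m p y ≤ B := by
  obtain ⟨B, hB⟩ := h.ubd
  obtain ⟨r, hr⟩ := h.bdd.exists_norm_le
  refine ⟨B + ‖p‖ * r - m p, fun y hy => ?_⟩
  have h1 := (abs_le.1 (hB y hy)).2
  have h2 : inner ℝ p y ≤ ‖p‖ * r :=
    (real_inner_le_norm p y).trans (mul_le_mul_of_nonneg_left (hr y hy) (norm_nonneg _))
  unfold psi
  linarith

theorem re_phase (τ : ℂ) (t : ℝ) : (-(I * τ * (t : ℂ))).re = τ.im * t := by
  simp

theorem norm_phase (τ : ℂ) (t : ℝ) : ‖Complex.exp (-(I * τ * (t : ℂ)))‖ = Real.exp (τ.im * t) := by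
  rw [Complex.norm_exp, re_phase]

theorem norm_phase_le {τ : ℂ} (h1 : |τ.im| ≤ 1) {t b : ℝ} (h0 : 0 ≤ t) (hb : t ≤ b) :
    ‖Complex.exp (-(I * τ * (t : ℂ)))‖ ≤ Real.exp b := by
  rw [norm_phase]
  have := (abs_le.1 h1).2
  exact Real.exp_le_exp.2 (by nlinarith)

theorem int_phase {Ω : Set ℂ} {u m : ℂ → ℝ} (h : Cap Ω u m) (p : ℂ) {τ : ℂ} (h1 : |τ.im| ≤ 1)
    {g : ℝ → ℝ} (hg : Measurable g) (hb : ∀ t, |g t| ≤ 1) :
    IntegrableOn (fun y => Complex.exp (-(I * τ * (psi u m p y : ℂ))) *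
      ((g (psi u m p y) : ℝ) : ℂ)) Ω := by
  have := En.fin_restrict h
  obtain ⟨B, hB⟩ := psi_bdd h p
  have hm := meas_psi h p
  refine Integrable.of_bound (Measurable.aestronglyMeasurable (by fun_prop)) (Real.exp B) ?_
  filter_upwards [ae_restrict_mem h.op.measurableSet] with y hy
  rw [norm_mul, Complex.norm_real, Real.norm_eq_abs]
  have h2 := norm_phase_le h1 (h.nonneg p y hy) (hB y hy)
  have h3 := hb (psi u m p y)
  calc _ ≤ Real.exp B * 1 := by gcongr
    _ = _ := mul_one _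

theorem abs_chi (t : ℝ) : |CapL.chi t| ≤ 1 := by
  rw [abs_of_nonneg (CapL.chi_nonneg t)]; exact CapL.chi_le t

theorem diff_eq {Ω : Set ℂ} {u m : ℂ → ℝ} (h : Cap Ω u m) (p : ℂ) (s : ℝ) {τ : ℂ}
    (h1 : |τ.im| ≤ 1) :
    TT Ω u m p τ - TTgt Ω u m s p τ = ∫ y in Ω, Complex.exp (-(I * τ * (psi u m p y : ℂ))) *
      ((CapL.chi (psi u m p y / s) : ℝ) : ℂ) := by
  have hc := CapL.chi_cont.measurable
  have a1 := int_phase h p h1 (g := fun _ => 1) measurable_const (fun _ => by simp)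
  have a2 := int_phase h p h1 (g := fun t => 1 - CapL.chi (t / s)) (by fun_prop) (fun t => by
    have := CapL.chi_nonneg (t / s)
    have := CapL.chi_le (t / s)
    rw [abs_le]; constructor <;> linarith)
  simp only [Complex.ofReal_one, mul_one] at a1
  unfold TT TTgt
  rw [← integral_sub a1 a2]
  refine integral_congr_ae (Eventually.of_forall fun y => ?_)
  push_cast
  ring

theorem norm_shallow {Ω : Set ℂ} {u m : ℂ → ℝ} (h : Cap Ω u m) (p : ℂ) {s : ℝ} (hs : 0 < s)
    {f : ℂ → ℂ} {c : ℝ} (hf : ∀ y ∈ Ω, psi u m p y ≤ 2 * s → ‖f y‖ ≤ c) :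
    ‖∫ y in Ω, f y * ((CapL.chi (psi u m p y / s) : ℝ) : ℂ)‖ ≤
      c * (Acap Ω u m p (2 * s)).toReal := by
  have hm := meas_psi h p
  have hA : MeasurableSet {y | y ∈ Ω ∧ psi u m p y ≤ 2 * s} :=
    h.op.measurableSet.inter (measurableSet_le hm measurable_const)
  have hfin : volume {y | y ∈ Ω ∧ psi u m p y ≤ 2 * s} < ∞ :=
    (measure_mono fun y hy => hy.1).trans_lt h.bdd.measure_lt_top
  rw [setIntegral_eq_of_subset_of_forall_diff_eq_zero (t := Ω)
    (s := {y | y ∈ Ω ∧ psi u m p y ≤ 2 * s}) h.op.measurableSet (fun y hy => hy.1)]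
  · refine norm_setIntegral_le_of_norm_le_const hfin fun y hy => ?_
    rw [norm_mul, Complex.norm_real, Real.norm_eq_abs]
    have h2 := hf y hy.1 hy.2
    have h3 := abs_chi (psi u m p y / s)
    have h4 : 0 ≤ c := (norm_nonneg _).trans h2
    calc _ ≤ c * 1 := by gcongr
      _ = _ := mul_one _
  · rintro y ⟨hy, hy2⟩
    have : 2 * s < psi u m p y := by
      by_contra hh
      exact hy2 ⟨hy, not_lt.1 hh⟩
    rw [CapL.chi_zero (by rw [le_div_iff₀ hs]; linarith)]
    simp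

theorem exp_two : Real.exp 2 ≤ 8 := by
  have h := Real.exp_one_lt_d9
  have : Real.exp 2 = Real.exp 1 * Real.exp 1 := by rw [← Real.exp_add]; norm_num
  have h0 := Real.exp_pos 1
  nlinarith

theorem exp_lip {a b : ℂ} {c : ℝ} (ha : a.re ≤ c) (hb : b.re ≤ c) :
    ‖Complex.exp a - Complex.exp b‖ ≤ Real.exp c * ‖a - b‖ := by
  refine (convex_halfSpace_re_le c).norm_image_sub_le_of_norm_hasDerivWithin_le
    (f' := Complex.exp) (fun x _ => (Complex.hasDerivAt_exp x).hasDerivWithinAt)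
    (fun x hx => ?_) hb ha
  rw [Complex.norm_exp]
  exact Real.exp_le_exp.2 hx

theorem diff_le {Ω : Set ℂ} {u m : ℂ → ℝ} (h : Cap Ω u m) (p : ℂ) {s : ℝ} (hs : 0 < s)
    (hs1 : s ≤ 1) {τ : ℂ} (h1 : |τ.im| ≤ 1) :
    ‖TT Ω u m p τ - TTgt Ω u m s p τ‖ ≤ 8 * (Acap Ω u m p (2 * s)).toReal := by
  rw [diff_eq h p s h1]
  refine norm_shallow h p hs fun y hy hy2 => ?_
  exact (norm_phase_le h1 (h.nonneg p y hy) (hy2.trans (by linarith))).trans exp_two

end KB

theorem shallow_var {Ω : Set ℂ} {u m : ℂ → ℝ} (h : Cap Ω u m) (p : ℂ) {s : ℝ} (hs : 0 < s)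
    (hs1 : s ≤ 1) {τ τ' : ℂ} (h1 : |τ.im| ≤ 1) (h2 : |τ'.im| ≤ 1) :
    ‖(TT Ω u m p τ - TTgt Ω u m s p τ) - (TT Ω u m p τ' - TTgt Ω u m s p τ')‖ ≤
      20 * s * ‖τ - τ'‖ * (Acap Ω u m p (2 * s)).toReal := by
  have hc := CapL.chi_cont.measurable
  rw [KB.diff_eq h p s h1, KB.diff_eq h p s h2, ← integral_sub
    (KB.int_phase h p h1 (g := fun t => CapL.chi (t / s)) (by fun_prop) fun t => KB.abs_chi _)
    (KB.int_phase h p h2 (g := fun t => CapL.chi (t / s)) (by fun_prop) fun t => KB.abs_chi _)]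
  simp only [← sub_mul]
  refine KB.norm_shallow h p hs fun y hy hy2 => ?_
  have h0 := h.nonneg p y hy
  have e1 := (abs_le.1 h1).2
  have e2 := (abs_le.1 h2).2
  have h3 := KB.exp_lip (a := -(I * τ * (psi u m p y : ℂ))) (b := -(I * τ' * (psi u m p y : ℂ)))
    (c := 2) (by rw [KB.re_phase]; nlinarith) (by rw [KB.re_phase]; nlinarith)
  have h4 : -(I * τ * (psi u m p y : ℂ)) - -(I * τ' * (psi u m p y : ℂ)) =
      -(I * (τ - τ') * (psi u m p y : ℂ)) := by ring
  rw [h4, norm_neg, norm_mul, norm_mul, Complex.norm_I, one_mul, Complex.norm_real,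
    Real.norm_eq_abs, abs_of_nonneg h0] at h3
  have h5 := KB.exp_two
  have h6 := norm_nonneg (τ - τ')
  calc _ ≤ Real.exp 2 * (‖τ - τ'‖ * psi u m p y) := h3
    _ ≤ 8 * (‖τ - τ'‖ * (2 * s)) := by gcongr
    _ ≤ _ := by nlinarith [mul_nonneg h6 hs.le]

namespace KB

/-- the unweighted energy density -/
def en (Ω : Set ℂ) (u m : ℂ → ℝ) (y : ℝ) (p : ℂ) (t : ℝ) : ℝ :=
  ‖(t + I * y) * TT Ω u m p (t + I * y)‖ ^ 2

theorem meas_en {Ω : Set ℂ} {u m : ℂ → ℝ} (h : Cap Ω u m) (y : ℝ) :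
    Measurable fun q : ℂ × ℝ => en Ω u m y q.1 q.2 := by
  have h1 : Measurable fun q : ℂ × ℝ => TT Ω u m q.1 (q.2 + I * y) :=
    (measurable_TT h).comp (f := fun q : ℂ × ℝ => (q.1, (q.2 + I * y : ℂ))) (by fun_prop)
  unfold en
  fun_prop

theorem norm_tau {t y : ℝ} (ht : 0 ≤ t) (hy : |y| ≤ 1) : ‖(t + I * y : ℂ)‖ ≤ t + 1 := by
  refine (norm_add_le _ _).trans ?_
  rw [norm_mul, Complex.norm_I, one_mul, Complex.norm_real, Complex.norm_real, Real.norm_eq_abs,
    Real.norm_eq_abs, abs_of_nonneg ht]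
  linarith

theorem im_tau (t y : ℝ) : (t + I * y : ℂ).im = y := by simp

theorem acap_ne {Ω : Set ℂ} {u m : ℂ → ℝ} (h : Cap Ω u m) (p : ℂ) (s : ℝ) :
    Acap Ω u m p s ≠ ∞ :=
  ((measure_mono fun _ hy => hy.1).trans_lt h.bdd.measure_lt_top).ne

theorem en_le {Ω : Set ℂ} {u m : ℂ → ℝ} (h : Cap Ω u m) (p : ℂ) {R t y : ℝ} (hR : 2 ≤ R)
    (ht : t ∈ Icc R (2 * R)) (hy : |y| ≤ 1) :
    ENNReal.ofReal (en Ω u m y p t) ≤
      2 * ENNReal.ofReal (‖(t + I * y) * TTgt Ω u m (2 / R) p (t + I * y)‖ ^ 2) +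
        ENNReal.ofReal (1152 * R ^ 2) * Acap Ω u m p (2 * (2 / R)) ^ 2 := by
  have hR0 : 0 < R := by linarith
  have h1 := diff_le h p (s := 2 / R) (by positivity) (by rw [div_le_one hR0]; exact hR)
    (τ := t + I * y) (by rw [im_tau]; exact hy)
  have h2 : ‖(t + I * y : ℂ)‖ ≤ 3 * R := (norm_tau (by linarith [ht.1]) hy).trans (by linarith [ht.2])
  set A := (Acap Ω u m p (2 * (2 / R))).toReal with hA
  have hA0 : 0 ≤ A := ENNReal.toReal_nonneg
  have h3 : Acap Ω u m p (2 * (2 / R)) = ENNReal.ofReal A :=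
    (ENNReal.ofReal_toReal (acap_ne h p _)).symm
  set τ : ℂ := t + I * y
  set a := ‖τ * TTgt Ω u m (2 / R) p τ‖ with ha
  have h4 : ‖τ * TT Ω u m p τ‖ ≤ a + 24 * R * A := by
    have : τ * TT Ω u m p τ = τ * TTgt Ω u m (2 / R) p τ +
        τ * (TT Ω u m p τ - TTgt Ω u m (2 / R) p τ) := by ring
    rw [this]
    refine (norm_add_le _ _).trans ?_
    rw [norm_mul τ (_ - _)]
    have : ‖τ‖ * ‖TT Ω u m p τ - TTgt Ω u m (2 / R) p τ‖ ≤ 3 * R * (8 * A) := by gcongr
    linarith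
  have h5 : en Ω u m y p t ≤ 2 * a ^ 2 + 1152 * R ^ 2 * A ^ 2 := by
    have : en Ω u m y p t ≤ (a + 24 * R * A) ^ 2 := by
      unfold en
      exact pow_le_pow_left₀ (norm_nonneg _) h4 2
    nlinarith [sq_nonneg (a - 24 * R * A)]
  rw [h3, ← ENNReal.ofReal_pow hA0, ← ENNReal.ofReal_mul (by positivity),
    ← ENNReal.ofReal_ofNat 2, ← ENNReal.ofReal_mul (by positivity),
    ← ENNReal.ofReal_add (by positivity) (by positivity)]
  exact ENNReal.ofReal_le_ofReal h5

theorem block (W : ℝ) : ∃ C : ℝ, 0 < C ∧ ∀ (Ω : Set ℂ) (u m : ℂ → ℝ), Cap Ω u m →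
    ∀ (p₀ : ℂ) (ρ : ℝ), (∀ p ∈ Metric.closedBall p₀ ρ, ∀ y ∈ Ω, psi u m p y ≤ W) →
    ∀ ε > 0, ∃ R₀ : ℝ, ∀ R ≥ R₀, ∀ y : ℝ, |y| ≤ 1 →
      ∫⁻ p in Metric.closedBall p₀ ρ, ∫⁻ t in Icc R (2 * R), ENNReal.ofReal (en Ω u m y p t) ≤
      ENNReal.ofReal (C * R) * (Gam Ω u (Metric.closedBall p₀ ρ) + ENNReal.ofReal ε) := by
  obtain ⟨C, hC, hT⟩ := cap_tail W
  refine ⟨2 * (C / √2) + 1152 * 65536, by positivity, fun Ω u m h p₀ ρ hW ε hε => ?_⟩
  obtain ⟨R₁, hR₁⟩ := hT Ω u m h p₀ ρ hW 2 le_rfl ε hε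
  have := En.fin_gam h
  set G := Gam Ω u (Metric.closedBall p₀ ρ) + ENNReal.ofReal ε with hG
  have hlt : Gam Ω u (Metric.closedBall p₀ ρ) < G :=
    ENNReal.lt_add_right (measure_ne_top _ _) (by simpa using hε)
  have h8 : Tendsto (fun R : ℝ => 2 * (2 * (2 / R))) atTop (𝓝[>] 0) := by
    refine tendsto_nhdsWithin_iff.2 ⟨?_, ?_⟩
    · have := ((tendsto_const_nhds (x := (2 : ℝ))).div_atTop tendsto_id).const_mul 2 |>.const_mul 2
      simpa using this
    · filter_upwards [eventually_gt_atTop 0] with R hR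
      exact mem_Ioi.2 (by positivity)
  obtain ⟨R₂, hR₂⟩ := eventually_atTop.1
    (((near_tendsto h p₀ ρ).comp h8).eventually (gt_mem_nhds hlt))
  refine ⟨max 2 (max R₁ R₂), fun R hR y hy => ?_⟩
  have hR2 : 2 ≤ R := (le_max_left _ _).trans hR
  have hR0 : 0 < R := by linarith
  have k1 := hR₁ R ((le_max_left _ _).trans ((le_max_right _ _).trans hR)) y hy
  have k2 : volume (Near Ω u m p₀ ρ (2 * (2 * (2 / R)))) ≤ G :=
    (hR₂ R ((le_max_right _ _).trans ((le_max_right _ _).trans hR))).le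
  have k3 := cap_area h p₀ ρ (s := 2 * (2 / R)) (by positivity)
  have hA := measurable_Acap h (2 * (2 / R))
  calc _ ≤ ∫⁻ p in Metric.closedBall p₀ ρ, (2 * (∫⁻ t in Icc (R / 2) (3 * R),
        ENNReal.ofReal (‖(t + I * y) * TTgt Ω u m (2 / R) p (t + I * y)‖ ^ 2)) +
        ENNReal.ofReal (1152 * R ^ 3) * Acap Ω u m p (2 * (2 / R)) ^ 2) := by
        refine lintegral_mono fun p => ?_
        refine (setLIntegral_mono' measurableSet_Icc fun t ht => en_le h p hR2 ht hy).trans ?_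
        rw [lintegral_add_right _ measurable_const, lintegral_const_mul' _ _ (by simp),
          setLIntegral_const, Real.volume_Icc]
        refine add_le_add ?_ (le_of_eq ?_)
        · gcongr <;> linarith
        · rw [mul_right_comm, ← ENNReal.ofReal_mul (by positivity)]
          congr 2
          ring
    _ ≤ 2 * (ENNReal.ofReal (C / √2 * R) * G) +
        ENNReal.ofReal (1152 * R ^ 3) * (ENNReal.ofReal (4096 * (2 * (2 / R)) ^ 2) * G) := by
        rw [lintegral_add_right _ (by fun_prop), lintegral_const_mul' _ _ (by simp),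
          lintegral_const_mul' _ _ ENNReal.ofReal_ne_top]
        gcongr
        exact k3.trans (by gcongr)
    _ = _ := by
        rw [← mul_assoc, ← mul_assoc, ← add_mul, ← ENNReal.ofReal_mul (by positivity),
          ← ENNReal.ofReal_ofNat 2, ← ENNReal.ofReal_mul (by positivity),
          ← ENNReal.ofReal_add (by positivity) (by positivity)]
        congr 2
        field_simp
        ring

theorem cover {a : ℝ} (ha : 0 < a) :
    Ioi (0 : ℝ) ⊆ Ioc 0 a ∪ ⋃ k : ℕ, Icc (2 ^ k * a) (2 * (2 ^ k * a)) := by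
  intro t ht
  by_cases h : t ≤ a
  · exact Or.inl ⟨ht, h⟩
  · right
    obtain ⟨k, h1, h2⟩ := exists_nat_pow_near (x := t / a) (y := 2)
      (by rw [le_div_iff₀ ha]; linarith) one_lt_two
    rw [le_div_iff₀ ha] at h1
    rw [div_lt_iff₀ ha, pow_succ] at h2
    exact mem_iUnion.2 ⟨k, h1, by linarith⟩

theorem tele {a R : ℝ} (ha : 0 < a) (hR : 0 < R) (n : ℕ) :
    ∑ k ∈ Finset.range n, R / (R ^ 2 + (2 ^ k * a) ^ 2) * (2 ^ k * a) ≤
      4 * (2 ^ n * a / (2 * R + 2 ^ n * a)) := by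
  induction n with
  | zero => simp; positivity
  | succ n ih =>
    rw [Finset.sum_range_succ, pow_succ 2 n]
    have hb : 0 < 2 ^ n * a := by positivity
    have e : 2 ^ n * 2 * a = 2 * (2 ^ n * a) := by ring
    rw [e]
    generalize 2 ^ n * a = b at *
    have : R / (R ^ 2 + b ^ 2) * b ≤ 4 * (2 * b / (2 * R + 2 * b)) - 4 * (b / (2 * R + b)) := by
      have e2 : 4 * (2 * b / (2 * R + 2 * b)) - 4 * (b / (2 * R + b)) =
          4 * R * b / ((R + b) * (2 * R + b)) := by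
        field_simp
        ring
      rw [e2, div_mul_eq_mul_div, div_le_div_iff₀ (by positivity) (by positivity)]
      have : 0 ≤ R * b * (2 * R ^ 2 - 3 * R * b + 3 * b ^ 2) := by
        refine mul_nonneg (by positivity) ?_
        nlinarith [sq_nonneg (R - b), sq_nonneg R, sq_nonneg b]
      nlinarith
    linarith

theorem norm_TT_le {Ω : Set ℂ} {u m : ℂ → ℝ} (h : Cap Ω u m) {p : ℂ} {W : ℝ}
    (hW : ∀ y ∈ Ω, psi u m p y ≤ W) {τ : ℂ} (h1 : |τ.im| ≤ 1) :
    ‖TT Ω u m p τ‖ ≤ Real.exp W * volume.real Ω :=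
  norm_setIntegral_le_of_norm_le_const h.bdd.measure_lt_top fun y hy =>
    norm_phase_le h1 (h.nonneg p y hy) (hW y hy)

end KB

theorem far_energy (W : ℝ) : ∃ C : ℝ, 0 < C ∧ ∀ (Ω : Set ℂ) (u m : ℂ → ℝ), Cap Ω u m →
    ∀ (p₀ : ℂ) (ρ : ℝ), (∀ p ∈ Metric.closedBall p₀ ρ, ∀ y ∈ Ω, psi u m p y ≤ W) →
    ∀ ε > 0, ∃ R₀ : ℝ, ∀ R ≥ R₀, ∀ y : ℝ, |y| ≤ 1 →
      ∫⁻ p in Metric.closedBall p₀ ρ, ∫⁻ t in Ioi (0 : ℝ),
        ENNReal.ofReal (‖(t + I * y) * TT Ω u m p (t + I * y)‖ ^ 2 * (R / (R ^ 2 + t ^ 2))) ≤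
      ENNReal.ofReal C * (Gam Ω u (Metric.closedBall p₀ ρ) + ENNReal.ofReal ε) := by
  obtain ⟨C, hC, hB⟩ := KB.block W
  refine ⟨1 + 4 * C, by positivity, fun Ω u m h p₀ ρ hW ε hε => ?_⟩
  obtain ⟨R₁, hR₁⟩ := hB Ω u m h p₀ ρ hW ε hε
  set a := max R₁ 1 with ha
  have ha0 : 0 < a := lt_max_of_lt_right one_pos
  set G := Gam Ω u (Metric.closedBall p₀ ρ) + ENNReal.ofReal ε with hG
  set D := ((a + 1) * (Real.exp W * volume.real Ω)) ^ 2 with hD
  have hD0 : 0 ≤ D := by positivity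
  set v := volume.real (Metric.closedBall p₀ ρ) with hv
  have hv0 : 0 ≤ v := measureReal_nonneg
  refine ⟨max 1 (D * a * v / ε), fun R hR y hy => ?_⟩
  have hR0 : 0 < R := lt_of_lt_of_le one_pos ((le_max_left _ _).trans hR)
  have hRε : D * a * v / R ≤ ε := by
    have := (le_max_right _ _).trans hR
    rw [div_le_iff₀ hε] at this
    rw [div_le_iff₀ hR0]
    linarith
  have hm := KB.meas_en h y
  set b : ℕ → ℝ := fun k => 2 ^ k * a with hb
  have hb0 : ∀ k, 0 < b k := fun k => by positivity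
  set g : ℕ → ℂ → ℝ≥0∞ := fun k p => ENNReal.ofReal (R / (R ^ 2 + b k ^ 2)) *
    ∫⁻ t in Icc (b k) (2 * b k), ENNReal.ofReal (KB.en Ω u m y p t) with hg
  have hgm : ∀ k, Measurable (g k) := fun k =>
    (Measurable.lintegral_prod_right' (ν := volume.restrict (Icc (b k) (2 * b k)))
      hm.ennreal_ofReal).const_mul _
  calc _ ≤ ∫⁻ p in Metric.closedBall p₀ ρ, (ENNReal.ofReal (D * a / R) + ∑' k, g k p) := by
        refine setLIntegral_mono' measurableSet_closedBall fun p hp => ?_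
        refine (lintegral_mono_set (KB.cover ha0)).trans ((lintegral_union_le _ _ _).trans ?_)
        refine add_le_add ?_ ((lintegral_iUnion_le _ _).trans (ENNReal.tsum_le_tsum fun k => ?_))
        · calc _ ≤ ∫⁻ t in Ioc 0 a, ENNReal.ofReal (D / R) := by
                refine setLIntegral_mono' measurableSet_Ioc fun t ht => ?_
                refine ENNReal.ofReal_le_ofReal ?_
                have h1 := KB.norm_TT_le h (hW p hp) (τ := t + I * y) (by rw [KB.im_tau]; exact hy)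
                have h2 : ‖(t + I * y : ℂ)‖ ≤ a + 1 :=
                  (KB.norm_tau ht.1.le hy).trans (by linarith [ht.2])
                have h3 : ‖(t + I * y) * TT Ω u m p (t + I * y)‖ ^ 2 ≤ D := by
                  rw [norm_mul, hD]
                  gcongr
                have h4 : R / (R ^ 2 + t ^ 2) ≤ 1 / R := by
                  rw [div_le_div_iff₀ (by positivity) hR0]
                  nlinarith [sq_nonneg t]
                calc _ ≤ D * (1 / R) := by gcongr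
                  _ = _ := by ring
            _ = _ := by
                rw [setLIntegral_const, Real.volume_Ioc, ← ENNReal.ofReal_mul (by positivity)]
                congr 1
                ring
        · rw [hg]
          dsimp only
          rw [← lintegral_const_mul' _ _ (by simp)]
          refine setLIntegral_mono' measurableSet_Icc fun t ht => ?_
          rw [← ENNReal.ofReal_mul (by positivity), mul_comm (R / _)]
          refine ENNReal.ofReal_le_ofReal ?_
          have := hb0 k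
          have h1 : b k ≤ t := ht.1
          unfold KB.en
          gcongr
    _ = ENNReal.ofReal (D * a * v / R) +
        ∑' k, ∫⁻ p in Metric.closedBall p₀ ρ, g k p := by
        rw [lintegral_add_left measurable_const, setLIntegral_const,
          lintegral_tsum fun k => (hgm k).aemeasurable]
        congr 1
        rw [← ENNReal.ofReal_toReal (measure_closedBall_lt_top (μ := volume) (x := p₀) (r := ρ)).ne,
          ← ENNReal.ofReal_mul (by positivity)]
        congr 1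
        rw [hv, Measure.real]
        ring
    _ ≤ G + ∑' k, ENNReal.ofReal (R / (R ^ 2 + b k ^ 2) * b k * C) * G := by
        refine add_le_add ((ENNReal.ofReal_le_ofReal hRε).trans le_add_self)
          (ENNReal.tsum_le_tsum fun k => ?_)
        rw [hg]
        dsimp only
        rw [lintegral_const_mul' _ _ (by simp)]
        have h1 : R₁ ≤ b k := by
          have : (1 : ℝ) ≤ 2 ^ k := one_le_pow₀ one_le_two
          have h2 : R₁ ≤ a := le_max_left _ _
          have : a ≤ 2 ^ k * a := by nlinarith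
          exact h2.trans this
        have := hb0 k
        calc _ ≤ ENNReal.ofReal (R / (R ^ 2 + b k ^ 2)) * (ENNReal.ofReal (C * b k) * G) := by
              gcongr
              exact hR₁ _ h1 y hy
          _ = _ := by
              rw [← mul_assoc, ← ENNReal.ofReal_mul (by positivity)]
              congr 2
              ring
    _ ≤ G + ENNReal.ofReal (4 * C) * G := by
        rw [ENNReal.tsum_mul_right]
        gcongr
        refine ENNReal.summable.tsum_le_of_sum_range_le fun n => ?_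
        rw [← ENNReal.ofReal_sum_of_nonneg fun k _ => by have := hb0 k; positivity,
          ← Finset.sum_mul]
        refine ENNReal.ofReal_le_ofReal (mul_le_mul_of_nonneg_right ?_ hC.le)
        refine (KB.tele ha0 hR0 n).trans ?_
        have : 2 ^ n * a / (2 * R + 2 ^ n * a) ≤ 1 := by
          rw [div_le_one (by positivity)]
          linarith
        linarith
    _ = _ := by
        rw [ENNReal.ofReal_add (by positivity) (by positivity), add_mul]
        simp

end Pool.Agent.MP_f27d50_gt
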