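import Pool.Agent.MP_f27d50_gt.Defs

set_option autoImplicit false

open MeasureTheory Set Filter Topology Complex
open scoped ENNReal Pointwise ComplexConjugate

noncomputable section

namespace Pool.Agent.MP_f27d50_gt

namespace LineAux

theorem Pk_eq {d : ℝ} (hd : 0 < d) :
    Pk d = fun t => (Real.pi * d)⁻¹ * (1 + (t / d) ^ 2)⁻¹ := by
  ext t
  have := Real.pi_pos
  unfold Pk
  field_simp
  ring

theorem Pk_nonneg {d : ℝ} (hd : 0 < d) (t : ℝ) : 0 ≤ Pk d t := by
  have := Real.pi_pos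
  unfold Pk
  positivity

theorem Pk_cont {d : ℝ} (hd : 0 < d) : Continuous (Pk d) := by
  have := Real.pi_pos
  unfold Pk
  exact continuous_const.div (by fun_prop) fun t => by positivity

theorem Pk_int {d : ℝ} (hd : 0 < d) : Integrable (Pk d) := by
  rw [Pk_eq hd]
  exact (integrable_inv_one_add_sq.comp_div hd.ne').const_mul _

theorem Pk_integral {d : ℝ} (hd : 0 < d) : ∫ t, Pk d t = 1 := by
  have := Real.pi_pos
  rw [Pk_eq hd, integral_const_mul,
    Measure.integral_comp_div (fun t : ℝ => (1 + t ^ 2)⁻¹) d, integral_univ_inv_one_add_sq,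
    abs_of_pos hd, smul_eq_mul]
  field_simp

theorem Pk_lint {d : ℝ} (hd : 0 < d) (x : ℝ) : ∫⁻ t, ENNReal.ofReal (Pk d (t - x)) = 1 := by
  rw [lintegral_sub_right_eq_self (fun t => ENNReal.ofReal (Pk d t)) x,
    ← ofReal_integral_eq_lintegral_ofReal (Pk_int hd) (Eventually.of_forall (Pk_nonneg hd)),
    Pk_integral hd, ENNReal.ofReal_one]

/-- a function with quadratic decay on the lower half plane has zero integral on the line -/
theorem line_zero {h : ℂ → ℂ} {B r : ℝ} (hh : DifferentiableOn ℂ h {s | s.im ≤ 0})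
    (hi : Integrable fun t : ℝ => h t)
    (hB : ∀ T, r ≤ T → ∀ s : ℂ, s.im ≤ 0 → T ≤ ‖s‖ → ‖h s‖ ≤ B / T ^ 2) : ∫ t : ℝ, h t = 0 := by
  have h1 := intervalIntegral_tendsto_integral hi tendsto_neg_atTop_atBot tendsto_id
  have h2 : Tendsto (fun T : ℝ => 4 * B / T) atTop (𝓝 0) := tendsto_const_nhds.div_atTop tendsto_id
  refine tendsto_nhds_unique h1 (squeeze_zero_norm' ?_ h2)
  filter_upwards [eventually_ge_atTop r, eventually_gt_atTop 0] with T hr hT
  have e := integral_boundary_rect_eq_zero_of_differentiableOn h ⟨-T, -T⟩ ⟨T, 0⟩ (hh.mono (by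
    rintro s ⟨-, hs⟩
    rw [mem_preimage, uIcc_of_le (by simp [hT.le])] at hs
    exact hs.2))
  have b1 : ‖∫ x : ℝ in -T..T, h (x + (-T : ℝ) * I)‖ ≤ B / T ^ 2 * |T - -T| :=
    intervalIntegral.norm_integral_le_of_norm_le_const fun x _ => hB T hr _ (by simp [hT.le])
      (le_trans (by simp [abs_of_pos hT]) (abs_im_le_norm _))
  have b2 : ∀ c : ℝ, |c| = T → ‖∫ y : ℝ in -T..0, h (c + y * I)‖ ≤ B / T ^ 2 * |0 - -T| :=
    fun c hc => intervalIntegral.norm_integral_le_of_norm_le_const fun y hy => hB T hr _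
      (by rw [uIoc_of_le (by linarith)] at hy; simpa using hy.2)
      (le_trans (by simp [hc]) (abs_re_le_norm _))
  have b3 := b2 T (abs_of_pos hT)
  have b4 := b2 (-T) (by rw [abs_neg, abs_of_pos hT])
  simp only [ofReal_zero, zero_mul, add_zero, smul_eq_mul] at e
  have e' : ∫ x : ℝ in -T..T, h x = (∫ x : ℝ in -T..T, h (x + (-T : ℝ) * I)) +
      I * (∫ y : ℝ in -T..0, h (T + y * I)) - I * ∫ y : ℝ in -T..0, h ((-T : ℝ) + y * I) := by
    linear_combination -e
  rw [abs_of_pos (by linarith)] at b1 b3 b4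
  show ‖∫ x : ℝ in -T..T, h x‖ ≤ _
  rw [e']
  refine (norm_sub_le _ _).trans ((add_le_add (norm_add_le _ _) le_rfl).trans ?_)
  rw [norm_mul, norm_mul, norm_I, one_mul, one_mul]
  calc _ ≤ B / T ^ 2 * (T - -T) + B / T ^ 2 * (0 - -T) + B / T ^ 2 * (0 - -T) := by gcongr
    _ = 4 * B / T := by field_simp; ring

theorem poisson0 {g : ℂ → ℂ} {d B : ℝ} (hd : 0 < d) (hg : ∀ s : ℂ, s.im ≤ 0 → DifferentiableAt ℂ g s)
    (hB : ∀ s : ℂ, s.im ≤ 0 → ‖g s‖ ≤ B) : g (-(I * d)) = ∫ t : ℝ, (Pk d t : ℂ) * g t := by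
  have hp := Real.pi_pos
  have hne : ∀ s : ℂ, s.im ≤ 0 → s - I * d ≠ 0 := fun s hs h0 => by
    have := congrArg im h0
    simp at this
    linarith
  have hc : {s : ℂ | s.im ≤ 0} ∈ 𝓝 (-(I * d)) :=
    mem_of_superset ((isOpen_lt continuous_im continuous_const).mem_nhds
      (show (-(I * d) : ℂ).im < 0 by simpa using hd)) fun s hs => (le_of_lt hs : s.im ≤ 0)
  obtain ⟨h, hh⟩ : ∃ h : ℂ → ℂ, h = fun s => dslope g (-(I * d)) s / (s - I * d) := ⟨_, rfl⟩
  have hd1 : DifferentiableOn ℂ h {s | s.im ≤ 0} := by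
    rw [hh]
    exact ((differentiableOn_dslope hc).2 fun s hs => (hg s hs).differentiableWithinAt).div
      (by fun_prop) hne
  have he : ∀ s : ℂ, s.im ≤ 0 → h s * (s ^ 2 + d ^ 2) = g s - g (-(I * d)) := fun s hs => by
    have := sub_smul_dslope g (-(I * d)) s
    rw [← this, hh, smul_eq_mul]
    have := hne s hs
    field_simp
    linear_combination (dslope g (-(I * d)) s * d ^ 2) * I_sq
  have hB0 : ∀ s : ℂ, s.im ≤ 0 → ‖g s - g (-(I * d))‖ ≤ 2 * B := fun s hs =>
    (norm_sub_le _ _).trans (by linarith [hB s hs, hB (-(I * d)) (by simpa using hd.le)])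
  have hr : ∀ t : ℝ, (d / Real.pi : ℝ) * h t = (Pk d t : ℂ) * (g t - g (-(I * d))) := fun t => by
    rw [← he t (by simp)]
    have : (t : ℂ) ^ 2 + d ^ 2 ≠ 0 := by exact_mod_cast (by positivity : t ^ 2 + d ^ 2 ≠ 0)
    have : (Real.pi : ℂ) ≠ 0 := by exact_mod_cast hp.ne'
    unfold Pk
    push_cast
    field_simp
  have hgc : Continuous fun t : ℝ => g t := continuous_iff_continuousAt.2 fun t =>
    (hg t (by simp)).continuousAt.comp continuous_ofReal.continuousAt
  have hP : Integrable fun t : ℝ => (Pk d t : ℂ) := (Pk_int hd).ofReal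
  have hi1 : Integrable fun t : ℝ => (Pk d t : ℂ) * (g t - g (-(I * d))) :=
    hP.mul_bdd (hgc.sub continuous_const).aestronglyMeasurable
      (Eventually.of_forall fun t => hB0 t (by simp))
  have hdp : ((d / Real.pi : ℝ) : ℂ) ≠ 0 := by exact_mod_cast (by positivity : d / Real.pi ≠ 0)
  have hi2 : Integrable fun t : ℝ => h t := by
    rw [← integrable_const_mul_iff (isUnit_iff_ne_zero.2 hdp)]
    simpa only [hr] using hi1
  have hz := line_zero (B := 4 * B) (r := 2 * d) hd1 hi2 fun T hT s hs hTs => by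
    have h1 : ‖s‖ ^ 2 - d ^ 2 ≤ ‖s ^ 2 + d ^ 2‖ := by
      have := norm_sub_le (s ^ 2 + d ^ 2) (d ^ 2)
      simp only [add_sub_cancel_right, norm_pow, norm_real, Real.norm_eq_abs, sq_abs] at this
      linarith
    have h2 := hB0 s hs
    rw [← he s hs, norm_mul] at h2
    have h3 : T ^ 2 ≤ ‖s‖ ^ 2 := by gcongr; linarith
    rw [le_div_iff₀ (by nlinarith)]
    have h4 : T ^ 2 ≤ 2 * ‖s ^ 2 + d ^ 2‖ := by nlinarith
    nlinarith [norm_nonneg (h s)]
  have h5 : ∫ t : ℝ, (Pk d t : ℂ) * (g t - g (-(I * d))) = 0 := by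
    simp only [← hr]
    rw [integral_const_mul, hz, mul_zero]
  have h6 : ∫ t : ℝ, (Pk d t : ℂ) * g (-(I * d)) = g (-(I * d)) := by
    rw [integral_mul_const, integral_complex_ofReal, Pk_integral hd]
    simp
  rw [← h6, ← zero_add (∫ t : ℝ, _), ← h5, ← integral_add hi1 (hP.mul_const _)]
  congr 1
  ext t
  ring

/-- Poisson bound in the half plane below the line of height `y` -/
theorem poisson_le {g : ℂ → ℂ} {d B y : ℝ} (x : ℝ) (hd : 0 < d)
    (hg : ∀ s : ℂ, s.im ≤ y → DifferentiableAt ℂ g s) (hB : ∀ s : ℂ, s.im ≤ y → ‖g s‖ ≤ B) :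
    ENNReal.ofReal ‖g (x + I * (y - d))‖ ≤
      ∫⁻ t : ℝ, ENNReal.ofReal (Pk d (t - x) * ‖g (t + I * y)‖) := by
  have h := poisson0 (g := fun s => g (s + (x + I * y))) (B := B) hd
    (fun s hs => (hg _ (by simpa using hs)).comp s (by fun_prop)) fun s hs => hB _ (by simpa using hs)
  have e : (x + I * (y - d) : ℂ) = -(I * d) + (x + I * y) := by ring
  rw [e, h, ofReal_norm_eq_enorm, ← lintegral_add_right_eq_self _ x]
  refine (enorm_integral_le_lintegral_enorm _).trans (le_of_eq (lintegral_congr fun t => ?_))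
  rw [← ofReal_norm_eq_enorm, norm_mul, add_sub_cancel_right, norm_real,
    Real.norm_of_nonneg (Pk_nonneg hd t)]
  push_cast
  rw [add_assoc]

end LineAux

end Pool.Agent.MP_f27d50_gt
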