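import Pool.Agent.MP_f27d50_gt.Zeros
import Pool.Agent.MP_f27d50_gt.LineP

set_option autoImplicit false

open MeasureTheory Set Filter Topology Complex
open scoped ENNReal Pointwise ComplexConjugate

noncomputable section

namespace Pool.Agent.MP_f27d50_gt

namespace LineAux

theorem prod_cmp (s : Finset ℂ) (μ : ℂ → ℕ) (f g : ℂ → ℂ) {a b : ℝ} (ha : 0 ≤ a)
    (h : ∀ z ∈ s, a * ‖f z‖ ≤ b * ‖g z‖) :
    a ^ (∑ z ∈ s, μ z) * ‖∏ z ∈ s, f z ^ μ z‖ ≤ b ^ (∑ z ∈ s, μ z) * ‖∏ z ∈ s, g z ^ μ z‖ := by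
  simp only [norm_prod, norm_pow, ← Finset.prod_pow_eq_pow_sum, ← Finset.prod_mul_distrib,
    ← mul_pow]
  exact Finset.prod_le_prod (fun z _ => by positivity)
    fun z hz => pow_le_pow_left₀ (by positivity) (h z hz) _

/-- moving zeros to their reflections -/
theorem blaschke {φ u : ℂ → ℂ} {d y B B' c : ℝ} (x : ℝ) (hd : 0 < d) (hφ : Differentiable ℂ φ)
    (h0 : ∃ z, φ z ≠ 0) (hB : ∀ τ : ℂ, τ.im ≤ y → ‖φ τ‖ ≤ B)
    (hu : ∀ τ : ℂ, τ.im ≤ y → DifferentiableAt ℂ u τ) (hB' : ∀ τ : ℂ, τ.im ≤ y → ‖u τ‖ ≤ B')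
    (s : Finset ℂ) (hc : 0 ≤ c)
    (hs : ∀ z ∈ s, c * ‖x + I * (y - d) - z‖ ≤ ‖x + I * (y - d) - (conj z + 2 * I * y)‖) :
    ENNReal.ofReal (c ^ (∑ z ∈ s, ord φ z) * ‖φ (x + I * (y - d)) * u (x + I * (y - d))‖) ≤
      ∫⁻ t : ℝ, ENNReal.ofReal (Pk d (t - x) * ‖φ (t + I * y) * u (t + I * y)‖) := by
  obtain ⟨g, hg, hP, -⟩ := exists_div hφ h0 s (ord φ) fun _ _ => le_rfl
  obtain ⟨ψ, hψ⟩ : ∃ ψ : ℂ → ℂ,
      ψ = fun τ => (∏ z ∈ s, (τ - (conj z + 2 * I * y)) ^ ord φ z) * g τ := ⟨_, rfl⟩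
  have hψd : Differentiable ℂ ψ := by rw [hψ]; fun_prop
  have cmp : ∀ (τ : ℂ) (b : ℝ), (∀ z ∈ s, ‖τ - (conj z + 2 * I * y)‖ ≤ b * ‖τ - z‖) →
      ‖ψ τ‖ ≤ b ^ (∑ z ∈ s, ord φ z) * ‖φ τ‖ := fun τ b h => by
    have := prod_cmp s (ord φ) (fun z => τ - (conj z + 2 * I * y)) (fun z => τ - z) zero_le_one
      (fun z hz => by simpa using h z hz)
    rw [hψ, hP τ, norm_mul, norm_mul, ← mul_assoc]
    exact mul_le_mul_of_nonneg_right (by simpa using this) (norm_nonneg _)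
  obtain ⟨ρ, hρ⟩ : ∃ ρ, ρ = ∑ z ∈ s, (‖z‖ + ‖z - (conj z + 2 * I * y)‖) := ⟨_, rfl⟩
  obtain ⟨C, hC⟩ := (isCompact_closedBall (0 : ℂ) ρ).exists_bound_of_continuousOn
    hψd.continuous.continuousOn
  have hb : ∀ τ : ℂ, τ.im ≤ y → ‖ψ τ‖ ≤ max C (2 ^ (∑ z ∈ s, ord φ z) * B) := fun τ hτ => by
    rcases le_total ‖τ‖ ρ with h | h
    · exact le_max_of_le_left (hC τ (by simpa using h))
    · refine le_max_of_le_right ((cmp τ 2 fun z hz => ?_).trans (by gcongr; exact hB τ hτ))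
      have h1 := Finset.single_le_sum (f := fun z => ‖z‖ + ‖z - (conj z + 2 * I * y)‖)
        (fun z _ => by positivity) hz
      have h2 := norm_sub_le_norm_sub_add_norm_sub τ z (conj z + 2 * I * y)
      have h3 := norm_sub_norm_le τ z
      rw [← hρ] at h1
      linarith
  have key := poisson_le (g := fun τ => ψ τ * u τ) (y := y)
    (B := max C (2 ^ (∑ z ∈ s, ord φ z) * B) * B') x hd (fun τ hτ => (hψd τ).mul (hu τ hτ))
    (fun τ hτ => by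
      rw [norm_mul]
      exact mul_le_mul (hb τ hτ) (hB' τ hτ) (norm_nonneg _) ((norm_nonneg _).trans (hb τ hτ)))
  refine le_trans (ENNReal.ofReal_le_ofReal ?_) (key.trans (lintegral_mono fun t =>
    ENNReal.ofReal_le_ofReal (mul_le_mul_of_nonneg_left ?_ (Pk_nonneg hd _))))
  · have := prod_cmp s (ord φ) (fun z => x + I * (y - d) - z)
      (fun z => x + I * (y - d) - (conj z + 2 * I * y)) (b := 1) hc
      (fun z hz => by simpa using hs z hz)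
    rw [hψ, hP, norm_mul, norm_mul, norm_mul, norm_mul, ← mul_assoc, ← mul_assoc]
    gcongr
    simpa using this
  · rw [norm_mul, norm_mul]
    refine mul_le_mul_of_nonneg_right ?_ (norm_nonneg _)
    simpa using cmp (t + I * y) 1 fun z _ => by
      rw [one_mul, ← norm_conj (t + I * y - z)]
      apply le_of_eq
      congr 1
      simp
      ring

theorem geom_aux {y d v N : ℝ} (hy : 0 < y) (hy1 : y ≤ 1) (hd : 8 ≤ d) (hv : 0 ≤ v)
    (hv1 : 2 * v ≤ 3 * d ^ 2) (hN : 0 ≤ N) (hN1 : N ≤ 2 * (d + v) ^ 2) :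
    (1 + y / (8 * d)) ^ 2 * N ≤ N + 4 * d * (v + y) := by
  have a3 : y * (d + v) ^ 2 ≤ 6 * d ^ 2 * (v + y) := by
    rcases le_total v d with h | h
    · calc y * (d + v) ^ 2 ≤ y * (d + d) ^ 2 := by gcongr
        _ = 4 * d ^ 2 * (0 + y) := by ring
        _ ≤ _ := by gcongr; norm_num
    · calc y * (d + v) ^ 2 ≤ 1 * (v + v) ^ 2 := by gcongr
        _ = 2 * (2 * v) * (v + 0) := by ring
        _ ≤ 2 * (3 * d ^ 2) * (v + y) := by gcongr
        _ = _ := by ring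
  obtain ⟨w, hw⟩ : ∃ w, w = y / (8 * d) := ⟨_, rfl⟩
  have hw0 : 0 ≤ w := by rw [hw]; positivity
  have hw1 : w * (8 * d) = y := by rw [hw]; field_simp
  have hw2 : w ≤ 2 / 3 := by nlinarith
  rw [← hw]
  have a4 : w * (d + v) ^ 2 ≤ 3 / 4 * d * (v + y) := by
    have : w * (d + v) ^ 2 * (8 * d) ≤ 3 / 4 * d * (v + y) * (8 * d) := by
      calc _ = w * (8 * d) * (d + v) ^ 2 := by ring
        _ ≤ 6 * d ^ 2 * (v + y) := by rw [hw1]; exact a3
        _ = _ := by ring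
    exact le_of_mul_le_mul_right this (by positivity)
  have a5 : (2 + w) * w * N ≤ (2 + 2 / 3) * w * (2 * (d + v) ^ 2) := by gcongr
  linarith

theorem geom {z : ℂ} {x y d β R : ℝ} (hy : 0 < y) (hy1 : y ≤ 1) (hβ : 0 < β) (hβ1 : β ≤ 1 / 4)
    (hR : 2 ≤ β ^ 2 * R) (hd : d = β * R) (hx : x ∈ Icc R (2 * R))
    (h1 : x / (1 + β / 4) ≤ ‖z‖) (h2 : ‖z‖ ≤ x * (1 + β / 4)) (h3 : 0 ≤ z.re) (h4 : z.im ≤ 0) :
    (1 + y / (8 * d)) * ‖x + I * (y - d) - z‖ ≤ ‖x + I * (y - d) - (conj z + 2 * I * y)‖ := by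
  obtain ⟨hx1, hx2⟩ := hx
  have hR0 : 0 < R := by
    by_contra h
    have : β ^ 2 * R ≤ 0 := mul_nonpos_of_nonneg_of_nonpos (by positivity) (not_lt.1 h)
    linarith
  have hd1 : 8 ≤ d := by nlinarith
  have hd2 : 2 * R ≤ d ^ 2 := by rw [hd]; nlinarith
  have hxd : x * β ≤ 2 * d := by rw [hd]; nlinarith
  have e1 := abs_re_le_norm z
  have e2 := abs_im_le_norm z
  have e3 := norm_le_abs_re_add_abs_im z
  rw [abs_of_nonneg h3] at e1 e3
  rw [abs_of_nonpos h4] at e2 e3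
  rw [div_le_iff₀ (by positivity)] at h1
  have h5 : x * (1 - β / 4) ≤ ‖z‖ := by
    have : x * (1 - β / 4) * (1 + β / 4) ≤ ‖z‖ * (1 + β / 4) := by nlinarith
    exact le_of_mul_le_mul_right this (by positivity)
  obtain ⟨v, hv⟩ : ∃ v, v = -z.im := ⟨_, rfl⟩
  have hv0 : 0 ≤ v := by linarith
  have hv1 : v ≤ 3 * R := by nlinarith
  have a1 : (x - z.re) ^ 2 ≤ (d + v) ^ 2 := sq_le_sq' (by nlinarith) (by nlinarith)
  have a2 : (y - d + v) ^ 2 ≤ (d + v) ^ 2 := sq_le_sq' (by linarith) (by linarith)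
  have n1 : ‖x + I * (y - d) - z‖ ^ 2 = (x - z.re) ^ 2 + (y - d + v) ^ 2 := by
    rw [Complex.sq_norm, normSq_apply, hv]; simp; ring
  have n2 : ‖x + I * (y - d) - (conj z + 2 * I * y)‖ ^ 2 =
      ‖x + I * (y - d) - z‖ ^ 2 + 4 * d * (v + y) := by
    rw [n1, Complex.sq_norm, normSq_apply, hv]; simp; ring
  refine (pow_le_pow_iff_left₀ (by positivity) (norm_nonneg _) two_ne_zero).1 ?_
  rw [mul_pow, n2]
  exact geom_aux hy hy1 hd1 hv0 (by linarith) (by positivity) (by linarith)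

end LineAux

end Pool.Agent.MP_f27d50_gt
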