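import Pool.Agent.Mg.F5f4cdd.Gce2fbb

set_option autoImplicit false

open MeasureTheory Set Filter Topology Complex
open scoped ENNReal Pointwise ComplexConjugate

noncomputable section

namespace Pool.Agent.MP_f27d50_gt

namespace NV

section

open KC

variable {F G : W → ℂ} {h : V → ℝ}

/-- at most scales the excess zeros of `F` over `G` are few on an open set of real lines close to
the direction `v` -/
def FewB (F G : W → ℂ) (v : V) : Prop :=
  ∀ ε > 0, ∃ q : ℝ, 1 < q ∧ q ≤ 2 ∧ ∀ ρ > 0, ∃ R₀ : ℝ, ∀ R ≥ R₀, ∃ Bad : Set ℝ,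
    MeasurableSet Bad ∧ volume Bad ≤ ENNReal.ofReal (ε * R) ∧
    ∀ x ∈ Icc R (2 * R), x ∉ Bad → ∃ η : V, ‖η - v‖ ≤ ρ ∧ ∀ᶠ η' in 𝓝 η,
      S (mB (ln F (cx η' 0)) (ln G (cx η' 0))) (kI (x / q) (x * q)) ≤ ε * (q - 1) * x

/-- the excess zeros are few on all real lines close to `u` -/
def RB (F G : W → ℂ) (u : V) : Prop :=
  ∀ ε > 0, ∃ ρ > 0, ∀ᶠ r : ℝ in atTop, ∀ p : V, ‖p - u‖ ≤ ρ →
    S (mB (ln F (cx p 0)) (ln G (cx p 0))) (kP r) ≤ ε * Real.log r

theorem core' (hF : Fam F h) {v : V} (hv : FewB F G v) {ε : ℝ} (hε : 0 < ε) :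
    ∃ q : ℝ, 1 < q ∧ q ≤ 2 ∧ ∃ σ > 0, ∀ ρ > 0, ρ ≤ 1 → ∀ x₁ : ℝ, ∀ᶠ r : ℝ in atTop,
      ∀ (p : V) (μ : ℂ → ℕ), ‖p - v‖ ≤ ρ → (∀ z, μ z ≤ ord (ln F (cx p 0)) z) →
        (∀ x, x₁ ≤ x → x ≤ 4 * r → ∀ p' : V, ‖p' - v‖ ≤ ρ → ∀ M : ℝ,
          (∀ᶠ η' in 𝓝 p', S (mB (ln F (cx η' 0)) (ln G (cx η' 0))) (tent q x) ≤ M) →
          S μ (tent q x) ≤ M + σ * x) →
        S μ (kP r) ≤ ε * Real.log r := by
  obtain ⟨L, hL0, hL⟩ := exists_lip hF
  set Wd := 2 * L * (‖v‖ + 1) with hWd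
  have hW0 : 0 < Wd := by positivity
  obtain ⟨e, he0, he1, he2⟩ : ∃ e : ℝ, 0 < e ∧ e ≤ 1 ∧ 128 * e * (4 + Wd) ≤ ε / 2 := by
    refine ⟨min 1 (ε / (256 * (4 + Wd))), by positivity, min_le_left _ _, ?_⟩
    calc _ ≤ 128 * (ε / (256 * (4 + Wd))) * (4 + Wd) := by gcongr; exact min_le_right _ _
      _ = ε / 2 := by field_simp; ring
  obtain ⟨q, hq, hq2, hfew⟩ := hv e he0
  have hd : 0 < q - 1 := by linarith
  refine ⟨q, hq, hq2, e * (q - 1) ^ 2, by positivity, fun ρ hρ hρ1 x₁ => ?_⟩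
  obtain ⟨R₀, hR₀⟩ := hfew ρ hρ
  obtain ⟨x₀, hx₀, hlev⟩ := lev hF (show 0 < e * (q - 1) ^ 2 by positivity) (‖v‖ + 1)
  obtain ⟨C, hC0, hC⟩ := tot hF (‖v‖ + 1)
  obtain ⟨R, hR1, hR2, hR3, hR4⟩ : ∃ R : ℝ, 1 ≤ R ∧ R₀ ≤ R ∧ x₁ ≤ R ∧ x₀ ≤ R :=
    ⟨max (max 1 R₀) (max x₁ x₀), (le_max_left _ _).trans (le_max_left _ _),
      (le_max_right _ _).trans (le_max_left _ _), (le_max_left _ _).trans (le_max_right _ _),
      (le_max_right _ _).trans (le_max_right _ _)⟩
  have hR : 0 < R := by linarith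
  filter_upwards [eventually_ge_atTop R, ev_const_le 1 one_pos,
    ev_const_le (2 * (C * (Real.log (2 * R) + 1))) (half_pos hε)] with r hr hl1 hl2 p μ hp hμ hT
  rw [one_mul] at hl1
  have hr0 : 0 < r := by linarith
  have hpn : ‖p‖ ≤ ‖v‖ + 1 := (norm_le_of_near hp).trans (by linarith)
  have hlf := lf_ln hF.diff hF.ne0 (cx p 0)
  obtain ⟨J, hJ1, hJ2⟩ := exists_nat_pow_near (x := 4 * r / R) (y := 2)
    ((one_le_div hR).2 (by linarith)) one_lt_two
  rw [le_div_iff₀ hR] at hJ1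
  rw [div_lt_iff₀ hR, pow_succ] at hJ2
  have hJ3 : (J : ℝ) ≤ 4 * Real.log r := by
    have h1 : (2 : ℝ) ^ J ≤ 2 ^ 2 * r := by
      have : (2 : ℝ) ^ J * 1 ≤ 2 ^ J * R := by gcongr
      linarith
    have h2 := Real.log_le_log (by positivity) h1
    rw [Real.log_mul (by positivity) hr0.ne', Real.log_pow, Real.log_pow] at h2
    have h3 := Real.log_two_gt_d9
    have h4 := Real.log_two_lt_d9
    have h5 : (0 : ℝ) ≤ J := Nat.cast_nonneg J
    push_cast at h2
    nlinarith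
  have hmain := upper_kP (hlf.mono hμ) (q := q) (R := R) (α := 2 * (e * (q - 1) ^ 2))
    (β := (q - 1) ^ 2 * (Wd + 2)) (ε := e) (r := r) J hq hq2 hR (by positivity) (by positivity)
    he0.le hr0 (by linarith) (fun R' hR' => ?_) (fun x hx => ?_)
  · have h1 := S_le hlf hμ (sp_kP (show 0 < 2 * R by positivity))
      (sp_kP (show 0 < 2 * R by positivity)) (fun z _ => kP_nonneg _ z) fun z _ => le_rfl
    have h2 := hC p 0 hpn (by rw [norm_zero]; positivity) (2 * R) (by linarith)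
    have h3 : 32 / (q - 1) ^ 2 * (J * (2 * (e * (q - 1) ^ 2) + (q - 1) ^ 2 * (Wd + 2) * e)) =
        32 * e * (4 + Wd) * J := by field_simp; ring
    have h4 : 32 * e * (4 + Wd) * J ≤ 32 * e * (4 + Wd) * (4 * Real.log r) := by gcongr
    have h5 : 128 * e * (4 + Wd) * Real.log r ≤ ε / 2 * Real.log r := by gcongr
    linarith
  · obtain ⟨Bad, hm, hvol, hB⟩ := hR₀ R' (hR2.trans hR')
    refine ⟨Bad, hm, hvol, fun x hx hb hxJ => ?_⟩
    obtain ⟨η, hη, hS⟩ := hB x hx hb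
    have hx0 : 0 < x := by linarith [hx.1]
    have h1 := hT x (by linarith [hx.1]) (by linarith) η hη ((q - 1) * (e * (q - 1) * x))
      (hS.mono fun η' hS => by
        have hA := (lf_ln hF.diff hF.ne0 (cx η' 0)).mono (mB_le' _ (ln G (cx η' 0)))
        have h2 := S_le hA (fun _ => le_rfl) (sp_tent hq hx0) ((sp_kI (x / q) (x * q)).mul (q - 1))
          (fun z _ => mul_nonneg hd.le (kI_nonneg _ _ z)) (tent_le_kI hq hx0)
        rw [S_mul hA (sp_kI _ _)] at h2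
        exact h2.trans (mul_le_mul_of_nonneg_left hS hd.le))
    linarith
  · have hx0 : 0 < x := by linarith
    have h1 := S_le hlf hμ (sp_tent hq hx0) (sp_tent hq hx0) (fun z _ => tent_nonneg hq hx0 z)
      fun z _ => le_rfl
    rw [S_tent hlf hq hx0] at h1
    have hj : ∀ y, 0 < y → S (ord (ln F (cx p 0))) (kN y) ≤ y * (wh h p / Real.pi) := by
      intro y hy
      simpa using jen hF hL0 hL (ξ := p) (η := 0) (v := p) (τ := 0) (by simp) (by simp) hy
    have h2 := hj (x * q) (by positivity)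
    have h3 := hj (x / q) (by positivity)
    have h4 := hlev p hpn x (by linarith)
    have hw0 : 0 ≤ wh h p / Real.pi := div_nonneg (wh_nonneg hF p) Real.pi_pos.le
    have hw1 : wh h p / Real.pi ≤ Wd := (wh_div_le' hF hL0 hL p).trans (by rw [hWd]; gcongr)
    set w := wh h p / Real.pi
    have h5 : x * q * w - 2 * (x * w) + x / q * w = (q - 1) ^ 2 / q * w * x := by
      field_simp; ring
    have h6 : (q - 1) ^ 2 / q * w * x ≤ (q - 1) ^ 2 * Wd * x := by
      have : (q - 1) ^ 2 / q ≤ (q - 1) ^ 2 := div_le_self (by positivity) hq.le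
      gcongr
    have h7 : e * (q - 1) ^ 2 * x ≤ 1 * (q - 1) ^ 2 * x := by gcongr
    linarith

theorem real_B' (hF : Fam F h) (hG : Differentiable ℂ G) (G0 : G 0 ≠ 0) {u : V}
    (hu : FewB F G u) : RB F G u := by
  intro ε hε
  obtain ⟨q, hq, hq2, σ, hσ, hcore⟩ := core' hF hu hε
  obtain ⟨ρ, hρ, x₀, hx₀, htr⟩ := tr_tent hF u hσ
  refine ⟨min ρ 1, by positivity, ?_⟩
  filter_upwards [hcore (min ρ 1) (by positivity) (min_le_right _ _) x₀] with r hr p hp
  refine hr p _ hp (mB_le' _ _) fun x hx _ p' hp' M hM => ?_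
  have hx0 : 0 < x := by linarith
  obtain ⟨uA, uB, H⟩ := gen_line hF.diff hG hF.ne0 G0 (cx p 0) (p' - p) (ker_tent hq hx0)
  have h1 := le_B H (tent_nonneg hq hx0) (sp_tent hq hx0) (l := 0) (lf_ln hF.diff hF.ne0 _)
  rw [line_zero, line_zero] at h1
  have h2 := (htr G hG G0 p p' (hp.trans (min_le_left _ _)) (hp'.trans (min_le_left _ _)) q x hq
    hq2 hx uA uB H).2
  have h3 : uB ((1 : ℝ) : ℂ) ≤ M := by
    refine B_le_freq H (freq_real ?_)
    have ht : Tendsto (fun t : ℝ => p + t • (p' - p)) (𝓝 1) (𝓝 p') := by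
      have hc : Continuous fun t : ℝ => p + t • (p' - p) := by fun_prop
      simpa using hc.tendsto 1
    filter_upwards [ht.eventually hM] with t h0
    rwa [line_real, line_real]
  rw [ofReal_one] at h3
  linarith

theorem cplx_B' (hF : Fam F h) (hG : Differentiable ℂ G) (G0 : G 0 ≠ 0) {u : V}
    (hu : RB F G u) {ε : ℝ}
    (hε : 0 < ε) : ∃ ρ > 0, ∀ᶠ r : ℝ in atTop, ∀ ξ η : V, ‖ξ - u‖ ≤ ρ → ‖η‖ ≤ ρ →
      S (mB (ln F (cx ξ η)) (ln G (cx ξ η))) (kP r) ≤ ε * Real.log r := by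
  obtain ⟨ρ₁, hρ₁, hreal⟩ := hu _ (half_pos hε)
  obtain ⟨C, hC0, hC⟩ := tot hF (‖u‖ + ρ₁)
  obtain ⟨T, hT1, hT⟩ : ∃ T : ℝ, 1 ≤ T ∧ 4 * C / T ≤ ε / 2 := by
    refine ⟨1 + 8 * C / ε, le_add_of_nonneg_right (by positivity), ?_⟩
    rw [div_le_iff₀ (by positivity)]
    have : ε / 2 * (1 + 8 * C / ε) = ε / 2 + 4 * C := by field_simp; ring
    linarith
  refine ⟨ρ₁ / (T + 2), by positivity, ?_⟩
  set ρ := ρ₁ / (T + 2) with hρ
  have hρ0 : 0 < ρ := by positivity
  have hρ1 : (T + 2) * ρ = ρ₁ := by rw [hρ]; field_simp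
  filter_upwards [hreal, eventually_ge_atTop 1, ev_const_le 1 one_pos] with r hr hr1 hl ξ η hξ hη
  rw [one_mul] at hl
  have hr0 : 0 < r := by linarith
  obtain ⟨uA, uB, H⟩ := gen_line hF.diff hG hF.ne0 G0 (cx ξ 0) η (ker_kP hr0)
  have h1 := le_B H (kP_nonneg r) (sp_kP hr0) (l := I) (lf_ln hF.diff hF.ne0 _)
  rw [line_I, line_I] at h1
  have h2 := halfdisc_bound (A := ε / 2 * Real.log r) (D := C * (Real.log r + 1)) (T := T) H.contB
    (fun z => (H.sub (sub_kP hr0) z).2) hT1 (by positivity) (fun x hx => ?_) (fun z hz _ => ?_)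
  · have h3 : 2 * (C * (Real.log r + 1)) / T ≤ ε / 2 * Real.log r := by
      calc _ ≤ 2 * (C * (Real.log r + Real.log r)) / T := by gcongr
        _ = 4 * C / T * Real.log r := by ring
        _ ≤ _ := by gcongr
    linarith
  · refine B_le_freq H (freq_real ((ev_abs_lt hx).mono fun t ht => ?_))
    rw [line_real, line_real]
    refine hr _ ?_
    have e : ξ + t • η - u = (ξ - u) + t • η := by abel
    have := norm_smul_le' ht.le hη
    rw [e]
    exact (norm_add_le _ _).trans (by linarith)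
  · refine (B_le_tot H (kP_nonneg r) z).trans ?_
    rw [line_cx]
    have a1 := norm_smul_le' ((abs_re_le_norm z).trans hz.le) hη
    have a2 := norm_smul_le' ((abs_im_le_norm z).trans hz.le) hη
    have a3 := norm_le_of_near hξ
    have a4 := norm_nonneg u
    have := hC (ξ + z.re • η) (0 + z.im • η) ((norm_add_le _ _).trans (by linarith))
      (by rw [zero_add]; linarith) r hr1
    have : 0 ≤ ε / 2 * Real.log r := by positivity
    linarith

theorem bd_zero' (hF : Fam F h) (hG : Differentiable ℂ G) (G0 : G 0 ≠ 0) {u : V}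
    (hu : RB F G u) :
    Bd F G u 0 := by
  intro ε hε
  obtain ⟨ρ, hρ, hc⟩ := cplx_B' hF hG G0 hu (show 0 < ε / 32 by positivity)
  obtain ⟨r₀, hr₀⟩ := eventually_atTop.1 hc
  refine ⟨ρ / 2, by positivity, fun X => ?_⟩
  set T := 2 + 2 * |X| / ρ with hT
  have hT2 : 2 ≤ T := le_add_of_nonneg_right (by positivity)
  obtain ⟨C, hC0, hC⟩ := carl hF (|X| + T * (‖u‖ + ρ))
  filter_upwards [eventually_ge_atTop r₀, eventually_ge_atTop (2 * T),
    ev_const_le C (half_pos hε)] with r hr hrT hl ξ η hξ hη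
  have hr1 : 1 ≤ r := by linarith
  have hr0 : 0 < r := by linarith
  have hlog := Real.log_nonneg hr1
  have hξ' : ‖ξ‖ ≤ |X| := hξ.trans (le_abs_self X)
  obtain ⟨uA, uB, H⟩ := gen_line hF.diff hG hF.ne0 G0 (cx ξ 0) η (ker_kC hr0)
  have h1 := le_B H (kC_nonneg r) (sp_kC hr0) (l := I) (lf_ln hF.diff hF.ne0 _)
  rw [line_I, line_I] at h1
  have h2 := halfdisc_bound (A := C) (D := 8 * T * (ε / 32) * Real.log r) (T := T) H.contB
    (fun z => (H.sub (sub_kC hr0) z).2) (by linarith) (by positivity) (fun x hx => ?_)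
    (fun z hz _ => ?_)
  · have h3 : 2 * (8 * T * (ε / 32) * Real.log r) / T = ε / 2 * Real.log r := by
      field_simp; ring
    linarith
  · refine (B_le_tot H (kC_nonneg r) x).trans ?_
    rw [line_real]
    have a1 := norm_smul_le' hx ((norm_le_of_near hη.le).trans
      (show ‖u‖ + ρ / 2 ≤ ‖u‖ + ρ by linarith))
    have := hC (ξ + x • η) 0 ((norm_add_le _ _).trans (by linarith))
      (by rw [norm_zero]; positivity) r hr1
    rwa [wh_zero hF, zero_div, zero_mul, zero_add] at this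
  · refine le_trans (B_le H ?_) (le_add_of_nonneg_left hC0)
    have e1 : ∀ᶠ l : ℂ in 𝓝 z, T - 1 < ‖l‖ :=
      continuousAt_const.eventually_lt continuous_norm.continuousAt (by linarith)
    have e2 : ∀ᶠ l : ℂ in 𝓝 z, ‖l‖ < T + 1 :=
      continuous_norm.continuousAt.eventually_lt continuousAt_const (by linarith)
    filter_upwards [e1, e2] with l hl1 hl2
    have hn1 : 1 ≤ ‖l‖ := by linarith
    have hl0 : l ≠ 0 := norm_pos_iff.1 (by linarith)
    have hζ : cx ξ 0 + l • cx η 0 = l • cx (η + l⁻¹.re • ξ) (0 + l⁻¹.im • ξ) := by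
      rw [← cx_add_smul, smul_add, smul_smul, mul_inv_cancel₀ hl0, one_smul, add_comm]
    have hsm : ∀ t : ℝ, |t| ≤ ‖l⁻¹‖ → ‖t • ξ‖ ≤ ρ / 2 := by
      intro t ht
      refine (norm_smul_le' ht hξ').trans ?_
      rw [norm_inv, inv_mul_le_iff₀ (by linarith)]
      have b1 : 2 * |X| / ρ ≤ ‖l‖ := by linarith
      rw [div_le_iff₀ hρ] at b1
      linarith
    have hrl : r ≤ r * ‖l‖ := le_mul_of_one_le_right hr0.le hn1
    have hb := hr₀ (r * ‖l‖) (hr.trans hrl) (η + l⁻¹.re • ξ) (0 + l⁻¹.im • ξ)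
      (by
        have e : η + l⁻¹.re • ξ - u = (η - u) + l⁻¹.re • ξ := by abel
        have := hsm _ (abs_re_le_norm _)
        rw [e]
        exact (norm_add_le _ _).trans (by linarith))
      (by
        have := hsm _ (abs_im_le_norm _)
        rw [zero_add]
        linarith)
    have hrl0 : 0 < r * ‖l‖ := by linarith
    have hB := (lf_ln hF.diff hF.ne0 (cx (η + l⁻¹.re • ξ) (0 + l⁻¹.im • ξ))).mono
      (mB_le' _ (ln G (cx (η + l⁻¹.re • ξ) (0 + l⁻¹.im • ξ))))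
    have hc := S_le hB (fun _ => le_rfl) ((sp_kC hr0).div hl0) ((sp_kP hrl0).mul (2 * ‖l‖))
      (fun t _ => mul_nonneg (by positivity) (kP_nonneg _ t)) fun t ht => by
        have := kC_le_kP hr0 (t / l) (div_ne_zero ht hl0)
        rw [kP_div hr0 hl0] at this
        linarith
    rw [S_mul hB (sp_kP hrl0)] at hc
    have hlg : Real.log (r * ‖l‖) ≤ 2 * Real.log r := by
      have : Real.log ‖l‖ ≤ Real.log r := Real.log_le_log (by linarith) (by linarith)
      rw [Real.log_mul hr0.ne' (by linarith)]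
      linarith
    simp only [line]
    rw [hζ, S_mB_smul F G _ hl0]
    calc _ ≤ _ := hc
      _ ≤ 2 * ‖l‖ * (ε / 32 * Real.log (r * ‖l‖)) := by gcongr
      _ ≤ 2 * (2 * T) * (ε / 32 * (2 * Real.log r)) := by
          have : 0 ≤ Real.log (r * ‖l‖) := Real.log_nonneg (by linarith)
          gcongr
          linarith
      _ = _ := by ring

/-! ### sums along real lines -/

theorem kP_split (hF : Fam F h) (p : V) {r : ℝ} (hr : 0 < r) :
    S (mB (ln F (cx p 0)) (ln G (cx p 0))) (kP r) ≤ S (ord (ln F (cx p 0))) (kC r) +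
      S (mB (ln F (cx 0 p)) (ln G (cx 0 p))) (kC r) := by
  have hlf := lf_ln hF.diff hF.ne0 (cx p 0)
  have hB := hlf.mono (mB_le' _ (ln G (cx p 0)))
  have h4 := S_le hB (fun _ => le_rfl) (sp_kP hr) ((sp_kC hr).add ((sp_kC hr).div I_ne_zero))
    (fun z _ => add_nonneg (kC_nonneg _ _) (kC_nonneg _ _)) (kP_le_kC hr)
  rw [S_add hB (sp_kC hr) ((sp_kC hr).div I_ne_zero), ← S_mB_smul F G _ I_ne_zero,
    I_smul_cx, neg_zero] at h4
  have h6 := mB_le_tot hF G (cx p 0) hr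
  linarith

theorem rb_of_bd (hF : Fam F h) {v : V} (hb : Bd F G v 0) : RB F G v := by
  intro ε hε
  obtain ⟨δ, hδ, h1⟩ := hb _ (half_pos hε)
  obtain ⟨C, -, hC⟩ := carl hF (‖v‖ + δ / 2)
  refine ⟨δ / 2, by positivity, ?_⟩
  filter_upwards [h1 0, eventually_ge_atTop 1, ev_const_le C (half_pos hε)] with r hr hr1 hl p hp
  have h2 := kP_split (G := G) hF p (show 0 < r by linarith)
  have h3 := hr 0 p (by simp) (by linarith)
  have h4 := hC p 0 (norm_le_of_near hp) (by rw [norm_zero]; positivity) r hr1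
  rw [wh_zero hF, zero_div, zero_mul, zero_add] at h4
  linarith

theorem low (hF : Fam F h) (v : V) {ε : ℝ} (hε : 0 < ε) : ∃ ρ > 0, ∀ᶠ r : ℝ in atTop,
    ∀ p : V, ‖p - v‖ ≤ ρ → (wh h v / Real.pi - ε) * Real.log r ≤
      S (ord (ln F (cx p 0))) (kP r) := by
  obtain ⟨L, hL0, hL⟩ := exists_lip hF
  obtain ⟨x₀, hx₀, hlev⟩ := lev hF (show 0 < ε / 3 by positivity) (‖v‖ + ε / (6 * L))
  refine ⟨ε / (6 * L), by positivity, ?_⟩
  set w := wh h v / Real.pi with hw
  filter_upwards [eventually_ge_atTop x₀,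
    ev_const_le ((w - 2 * (ε / 3)) * Real.log x₀) (show 0 < ε / 3 by positivity)] with r hrx hl p hp
  have hr0 : 0 < r := hx₀.trans_le hrx
  have hp3 : 2 * L * ‖p - v‖ ≤ ε / 3 := by
    calc _ ≤ 2 * L * (ε / (6 * L)) := by gcongr
      _ = ε / 3 := by field_simp; ring
  have h3 := lower_kP (lf_ln hF.diff hF.ne0 (cx p 0)) (γ := w - 2 * (ε / 3)) hx₀ hrx fun x hx => by
    have a1 := hlev p (norm_le_of_near hp) x hx.1
    have a2 := wh_div_le hF hL0 hL v p
    rw [norm_sub_rev] at a2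
    have a3 : x * (w - 2 * (ε / 3)) ≤ x * (wh h p / Real.pi - ε / 3) :=
      mul_le_mul_of_nonneg_left (by linarith) (hx₀.le.trans hx.1)
    linarith
  rw [Real.log_div hr0.ne' hx₀.ne'] at h3
  linarith

theorem up (hF : Fam F h) (p : V) {ε : ℝ} (hε : 0 < ε) : ∀ᶠ r : ℝ in atTop,
    S (ord (ln F (cx p 0))) (kP r) ≤ (wh h p / Real.pi + ε) * Real.log r := by
  obtain ⟨C, -, hC⟩ := carl hF ‖p‖
  filter_upwards [eventually_ge_atTop 1, ev_const_le (2 * C) hε] with r hr hl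
  have hr0 : 0 < r := by linarith
  have hlf := lf_ln hF.diff hF.ne0 (cx p 0)
  have h3 := S_le hlf (fun _ => le_rfl) (sp_kP hr0) ((sp_kC hr0).add ((sp_kC hr0).div I_ne_zero))
    (fun z _ => add_nonneg (kC_nonneg _ _) (kC_nonneg _ _)) (kP_le_kC hr0)
  rw [S_add hlf (sp_kC hr0) ((sp_kC hr0).div I_ne_zero), ← S_ord_smul F _ I_ne_zero,
    I_smul_cx, neg_zero] at h3
  have h4 := hC p 0 le_rfl (by rw [norm_zero]; positivity) r hr
  have h5 := hC 0 p (by rw [norm_zero]; positivity) le_rfl r hr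
  rw [wh_zero hF, zero_div, zero_mul, zero_add] at h4
  linarith

/-- comparison of widths -/
theorem wh_le {h' : V → ℝ} (hF : Fam F h) (hG : Fam G h') {v : V} (hb : Bd F G v 0) :
    wh h v ≤ wh h' v := by
  rw [← div_le_div_iff_of_pos_right Real.pi_pos]
  refine le_of_forall_pos_le_add fun ε₃ hε₃ => ?_
  obtain ⟨ε, hε, rfl⟩ : ∃ ε : ℝ, 0 < ε ∧ ε₃ = 3 * ε := ⟨ε₃ / 3, by positivity, by ring⟩
  obtain ⟨ρ₁, hρ₁, h1⟩ := rb_of_bd hF hb ε hε
  obtain ⟨ρ₂, hρ₂, h2⟩ := low hF v hε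
  obtain ⟨r, ⟨a1, a2⟩, a3, hr⟩ := ((h1.and h2).and ((up hG v hε).and (eventually_gt_atTop 1))).exists
  have hr0 : 0 < r := by linarith
  have b1 := a1 v (by simpa using hρ₁.le)
  have b2 := a2 v (by simpa using hρ₂.le)
  rw [← S_split (ln G (cx v 0)) (lf_ln hF.diff hF.ne0 _) (sp_kP hr0)] at b2
  have b3 := S_le (lf_ln hG.diff hG.ne0 (cx v 0))
    (μ := mA (ln F (cx v 0)) (ln G (cx v 0))) (fun z => min_le_right _ _) (sp_kP hr0) (sp_kP hr0)
    (fun z _ => kP_nonneg r z) fun _ _ => le_rfl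
  have b4 : wh h v / Real.pi * Real.log r ≤ (wh h' v / Real.pi + 3 * ε) * Real.log r := by
    linarith
  exact le_of_mul_le_mul_right b4 (Real.log_pos hr)

theorem S_le_three {μ a b c : ℂ → ℕ} {k : ℂ → ℝ} (hμ : LF μ) (ha : LF a) (hb : ∀ z, b z ≤ μ z)
    (hc : ∀ z, c z ≤ μ z) (hle : ∀ z, μ z ≤ a z + b z + c z) (hk : Sp k) (k0 : ∀ z, 0 ≤ k z) :
    S μ k ≤ S a k + S b k + S c k := by
  have h1 := S_le ha (μ := fun z => min (a z) (μ z)) (fun z => min_le_left _ _) hk hk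
    (fun z _ => k0 z) fun _ _ => le_rfl
  obtain ⟨r, hr⟩ := hk
  obtain ⟨s, -, hS⟩ := hμ.exists_finset r
  rw [hS _ k (fun z => min_le_right _ _) hr] at h1
  rw [hS μ k (fun _ => le_rfl) hr, hS b k hb hr, hS c k hc hr]
  refine le_trans ?_ (add_le_add (add_le_add h1 le_rfl) le_rfl)
  rw [← Finset.sum_add_distrib, ← Finset.sum_add_distrib]
  refine Finset.sum_le_sum fun z _ => ?_
  have h2 : μ z ≤ min (a z) (μ z) + b z + c z := by have := hle z; omega
  have h3 : (μ z : ℝ) ≤ (min (a z) (μ z) : ℕ) + b z + c z := by exact_mod_cast h2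
  nlinarith [k0 z]

/-- two functions that share almost all zeros of `F` have many common zeros -/
theorem not_few {G' : W → ℂ} {h' : V → ℝ} (hF : Fam F h) (hG : Fam G h')
    (hG' : Differentiable ℂ G') (G0' : G' 0 ≠ 0) {v : V} (hb : Bd F G v 0) (hb' : Bd F G' v 0)
    (hv : Few G G' v) : wh h v ≤ 0 := by
  rw [← zero_div Real.pi, ← mul_div_cancel_right₀ (wh h v) Real.pi_pos.ne', mul_div_assoc]
  suffices H : wh h v / Real.pi ≤ 0 by
    have := (div_nonpos_iff.1 H).resolve_left fun h0 => absurd h0.2 (not_le.2 Real.pi_pos)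
    simpa [Real.pi_pos.ne'] using this.1
  refine le_of_forall_pos_le_add fun ε₄ hε₄ => ?_
  obtain ⟨ε, hε, rfl⟩ : ∃ ε : ℝ, 0 < ε ∧ ε₄ = 4 * ε := ⟨ε₄ / 4, by positivity, by ring⟩
  obtain ⟨ρ₁, hρ₁, h1⟩ := rb_of_bd hF hb ε hε
  obtain ⟨ρ₂, hρ₂, h2⟩ := rb_of_bd hF hb' ε hε
  obtain ⟨ρ₃, hρ₃, h3⟩ := low hF v hε
  have h4 := real_A hG hG' G0' hv hε (show 0 < min ρ₁ (min ρ₂ ρ₃) by positivity)
  obtain ⟨r, ⟨a1, a2⟩, ⟨a3, p, hp, a4⟩, hr⟩ :=
    ((h1.and h2).and ((h3.and h4).and (eventually_gt_atTop 1))).exists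
  have hr0 : 0 < r := by linarith
  have b1 := a1 p (hp.le.trans (min_le_left _ _))
  have b2 := a2 p (hp.le.trans ((min_le_right _ _).trans (min_le_left _ _)))
  have b3 := a3 p (hp.le.trans ((min_le_right _ _).trans (min_le_right _ _)))
  have b4 := S_le_three (lf_ln hF.diff hF.ne0 (cx p 0))
    ((lf_ln hG.diff hG.ne0 (cx p 0)).mono (mA_le _ (ln G' (cx p 0))))
    (mB_le' _ (ln G (cx p 0))) (mB_le' _ (ln G' (cx p 0)))
    (fun z => by unfold mA mB; omega) (sp_kP hr0) (kP_nonneg r)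
  have b5 : wh h v / Real.pi * Real.log r ≤ (0 + 4 * ε) * Real.log r := by linarith
  exact le_of_mul_le_mul_right b5 (Real.log_pos hr)

/-! ### the number of zeros in a thin annulus -/

theorem kI_le {a b s : ℝ} (ha : 0 < a) (hab : a ≤ b) (hs : 1 ≤ s) (z : ℂ) (hz : z ≠ 0) :
    Real.log s * kI a b z + (kN b z + kN a z) ≤ kN (b * s) z + kN (a / s) z := by
  have hn : 0 < ‖z‖ := norm_pos_iff.2 hz
  have hb : 0 < b := ha.trans_le hab
  have h0 := Real.log_nonneg hs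
  have h1 : b * s / ‖z‖ = b / ‖z‖ * s := by ring
  have h2 : a / s / ‖z‖ = a / ‖z‖ / s := by ring
  have h3 : Real.log (a / ‖z‖) ≤ Real.log (b / ‖z‖) := Real.log_le_log (by positivity) (by gcongr)
  rw [kN, kN, kN, kN, Real.posLog_apply, Real.posLog_apply, Real.posLog_apply, Real.posLog_apply,
    h1, h2, Real.log_mul (by positivity) (by positivity), Real.log_div (x := a / ‖z‖)
      (by positivity) (by positivity), kI]
  split_ifs with hc
  · have c1 : Real.log (a / ‖z‖) ≤ 0 :=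
      Real.log_nonpos (by positivity) ((div_le_one hn).2 hc.1)
    have c2 : 0 ≤ Real.log (b / ‖z‖) := Real.log_nonneg ((one_le_div hn).2 hc.2)
    simp only [max_def]
    split_ifs <;> linarith
  · rcases not_and_or.1 hc with hc | hc
    · have c1 : 0 ≤ Real.log (a / ‖z‖) := Real.log_nonneg ((one_le_div hn).2 (not_le.1 hc).le)
      simp only [max_def]
      split_ifs <;> linarith
    · have c2 : Real.log (b / ‖z‖) ≤ 0 :=
        Real.log_nonpos (by positivity) ((div_le_one hn).2 (not_le.1 hc).le)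
      simp only [max_def]
      split_ifs <;> linarith

theorem up_count (hF : Fam F h) (A : ℝ) {ε : ℝ} (hε : 0 < ε) : ∃ x₀ : ℝ, ∀ p : V, ‖p‖ ≤ A →
    ∀ a b : ℝ, x₀ ≤ a → a ≤ b →
      S (ord (ln F (cx p 0))) (kI a b) ≤ wh h p / Real.pi * (b - a) + ε * b := by
  obtain ⟨L, hL0, hL⟩ := exists_lip hF
  set Wd := 2 * L * |A| + 1 with hWd
  have hW0 : 0 < Wd := by positivity
  obtain ⟨δ, hδ0, hδ1, hδ2⟩ : ∃ δ : ℝ, 0 < δ ∧ δ ≤ 1 ∧ 4 * Wd * δ ≤ ε :=
    ⟨min 1 (ε / (4 * Wd)), by positivity, min_le_left _ _, by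
      calc _ ≤ 4 * Wd * (ε / (4 * Wd)) := by gcongr; exact min_le_right _ _
        _ = ε := by field_simp⟩
  obtain ⟨x₀, hx₀, hlev⟩ := lev hF (show 0 < ε * δ / 8 by positivity) A
  refine ⟨x₀, fun p hp a b ha hab => ?_⟩
  have ha0 : 0 < a := hx₀.trans_le ha
  have hb0 : 0 < b := ha0.trans_le hab
  have hs : 1 ≤ 1 + δ := by linarith
  have hlf := lf_ln hF.diff hF.ne0 (cx p 0)
  have s1 := sp_kN hb0
  have s2 := sp_kN ha0
  have s3 : Sp (kN (b * (1 + δ))) := sp_kN (by positivity)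
  have s4 : Sp (kN (a / (1 + δ))) := sp_kN (by positivity)
  have h1 := S_le hlf (fun _ => le_rfl) (((sp_kI a b).mul (Real.log (1 + δ))).add (s1.add s2))
    (s3.add s4) (fun z _ => add_nonneg (kN_nonneg _ _) (kN_nonneg _ _)) (kI_le ha0 hab hs)
  rw [S_add hlf ((sp_kI a b).mul _) (s1.add s2), S_add hlf s1 s2, S_add hlf s3 s4,
    S_mul hlf (sp_kI a b)] at h1
  have hj : ∀ y, 0 < y → S (ord (ln F (cx p 0))) (kN y) ≤ y * (wh h p / Real.pi) := by
    intro y hy
    simpa using jen hF hL0 hL (ξ := p) (η := 0) (v := p) (τ := 0) (by simp) (by simp) hy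
  have h2 := hj (b * (1 + δ)) (by positivity)
  have h3 := hj (a / (1 + δ)) (by positivity)
  have h4 := hlev p hp a ha
  have h5 := hlev p hp b (ha.trans hab)
  have hw0 : 0 ≤ wh h p / Real.pi := div_nonneg (wh_nonneg hF p) Real.pi_pos.le
  have hw1 : wh h p / Real.pi ≤ Wd := (wh_div_le' hF hL0 hL p).trans (by
    have := hp.trans (le_abs_self A)
    have : 2 * L * ‖p‖ ≤ 2 * L * |A| := by gcongr
    linarith)
  have hn0 := S_nonneg (ord (ln F (cx p 0))) (kI_nonneg a b)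
  set w := wh h p / Real.pi
  set n := S (ord (ln F (cx p 0))) (kI a b)
  have h6 : δ / (1 + δ) ≤ Real.log (1 + δ) := by
    have := Real.one_sub_inv_le_log_of_pos (show 0 < 1 + δ by positivity)
    have e : 1 - (1 + δ)⁻¹ = δ / (1 + δ) := by field_simp; ring
    linarith
  have h7 : δ / (1 + δ) * n ≤ w * (b * δ - a * (δ / (1 + δ))) + ε * δ / 8 * (a + b) := by
    have e : a / (1 + δ) = a - a * (δ / (1 + δ)) := by field_simp; ring
    have := mul_le_mul_of_nonneg_right h6 hn0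
    rw [e] at h3
    rw [e] at h1
    nlinarith
  have h8 : n ≤ w * (b * (1 + δ) - a) + ε / 8 * (1 + δ) * (a + b) := by
    have hp : 0 < δ / (1 + δ) := by positivity
    refine le_of_mul_le_mul_left (h7.trans (le_of_eq ?_)) hp
    field_simp
  have h9 : w * (b * δ) ≤ ε / 4 * b := by
    have : w * δ ≤ Wd * δ := by gcongr
    nlinarith
  have h10 : ε / 8 * (1 + δ) * (a + b) ≤ ε / 8 * 2 * (b + b) := by gcongr; linarith
  nlinarith

end

section

open KC

/-! ### sign changes of a function close to a sine wave -/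

theorem cells {r : ℝ → ℝ} {A ω θ a b E : ℝ} (hA : 0 < A) (hω : 0 < ω) (hE : 0 ≤ E)
    (h : ∫⁻ t in Icc a b, ENNReal.ofReal ((r t - 2 * A * Real.sin (ω * t + θ)) ^ 2) ≤
      ENNReal.ofReal (E * A ^ 2)) :
    ∃ (J : Finset ℕ) (τ : ℕ → ℝ), StrictMono τ ∧
      (∀ j ∈ J, a ≤ τ j ∧ τ (j + 1) ≤ b ∧ r (τ j) * r (τ (j + 1)) < 0) ∧
      ω * (b - a) / Real.pi - 3 - ω * E ≤ J.card := by
  classical
  have hπ := Real.pi_gt_three
  have hπ4 := Real.pi_lt_four
  set k₀ : ℤ := ⌈(ω * a + θ) / Real.pi⌉ with hk₀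
  have k1 : ω * a + θ ≤ k₀ * Real.pi := by
    rw [← div_le_iff₀ Real.pi_pos]; exact Int.le_ceil _
  have k2 : k₀ * Real.pi < ω * a + θ + Real.pi := by
    have := Int.ceil_lt_add_one ((ω * a + θ) / Real.pi)
    rw [← hk₀, div_add_one Real.pi_pos.ne', lt_div_iff₀ Real.pi_pos] at this
    exact this
  set c : ℕ → ℝ := fun j => (k₀ + j) * Real.pi + Real.pi / 2 - θ with hc
  set cell : ℕ → Set ℝ := fun j => Icc ((c j - 1) / ω) ((c j + 1) / ω) with hcell
  set sg : ℕ → ℝ := fun j => (-1) ^ (k₀ + j) with hsg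
  have sg2 : ∀ j, sg j * sg j = 1 := fun j => by
    simp only [hsg]
    rw [← mul_zpow]; simp
  have sgs : ∀ j, sg (j + 1) = -sg j := fun j => by
    simp only [hsg]
    rw [Nat.cast_succ, ← add_assoc, zpow_add_one₀ (by norm_num)]; ring
  have mem : ∀ j t, t ∈ cell j ↔ c j - 1 ≤ ω * t ∧ ω * t ≤ c j + 1 := fun j t => by
    simp only [hcell, mem_Icc, div_le_iff₀ hω, le_div_iff₀ hω, mul_comm t ω]
  have hsin : ∀ j, ∀ t ∈ cell j, 1 / 2 ≤ sg j * Real.sin (ω * t + θ) := fun j t ht => by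
    obtain ⟨h1, h2⟩ := (mem j t).1 ht
    have e : ω * t + θ = (ω * t - c j + Real.pi / 2) + ((k₀ + j : ℤ) : ℝ) * Real.pi := by
      simp only [hc]; push_cast; ring
    rw [e, Real.sin_add_int_mul_pi, Real.sin_add_pi_div_two, ← mul_assoc]
    change 1 / 2 ≤ sg j * sg j * _
    rw [sg2, one_mul]
    have := Real.one_sub_sq_div_two_le_cos (x := ω * t - c j)
    nlinarith
  have cs : ∀ j, c (j + 1) = c j + Real.pi := fun j => by simp only [hc]; push_cast; ring
  have cm : StrictMono c := strictMono_nat_of_lt_succ fun j => by rw [cs]; linarith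
  have sep : ∀ i j, i < j → ∀ s ∈ cell i, ∀ t ∈ cell j, s < t := fun i j hij s hs t ht => by
    have h1 := ((mem i s).1 hs).2
    have h2 := ((mem j t).1 ht).1
    have h3 : c (i + 1) ≤ c j := cm.monotone hij
    rw [cs] at h3
    exact lt_of_mul_lt_mul_left (by linarith) hω.le
  set good : ℕ → Prop := fun j => ∃ t ∈ cell j, 0 < sg j * r t with hgood
  have hτ : ∀ j, ∃ t ∈ cell j, good j → 0 < sg j * r t := fun j => by
    by_cases hg : good j
    · obtain ⟨t, ht, ht'⟩ := hg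
      exact ⟨t, ht, fun _ => ht'⟩
    · refine ⟨c j / ω, (mem _ _).2 ?_, fun h => absurd h hg⟩
      rw [mul_div_cancel₀ _ hω.ne']
      constructor <;> linarith
  choose τ hτ1 hτ2 using hτ
  set n := ⌊ω * (b - a) / Real.pi⌋₊ with hn
  have hsub : ∀ j, j + 2 ≤ n → cell j ⊆ Icc a b := fun j hj t ht => by
    obtain ⟨h1, h2⟩ := (mem j t).1 ht
    have h3 : ((j + 2 : ℕ) : ℝ) ≤ ω * (b - a) / Real.pi := by
      have hpos : 0 ≤ ω * (b - a) / Real.pi := by
        by_contra hneg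
        rw [hn, Nat.floor_of_nonpos (not_le.1 hneg).le] at hj
        omega
      exact (Nat.le_floor_iff hpos).1 hj
    rw [le_div_iff₀ Real.pi_pos] at h3
    push_cast at h3
    have h4 : (0 : ℝ) ≤ j * Real.pi := by positivity
    simp only [hc] at h1 h2
    exact ⟨le_of_mul_le_mul_left (by nlinarith) hω, le_of_mul_le_mul_left (by nlinarith) hω⟩
  set Bad := (Finset.range (n - 1)).filter (fun j => ¬ good j) with hBad
  have hB : (Bad.card : ℝ) * (A ^ 2 * (2 / ω)) ≤ E * A ^ 2 := by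
    rw [← ENNReal.ofReal_le_ofReal_iff (by positivity)]
    refine le_trans ?_ h
    have hdis : (Bad : Set ℕ).PairwiseDisjoint cell := fun i _ j _ hij => by
      refine Set.disjoint_left.2 fun t hi hj => ?_
      rcases lt_or_gt_of_ne hij with h0 | h0
      exacts [(sep i j h0 t hi t hj).false, (sep j i h0 t hj t hi).false]
    have hU : (⋃ j ∈ Bad, cell j) ⊆ Icc a b := iUnion₂_subset fun j hj => hsub j (by
      have := Finset.mem_range.1 (Finset.mem_filter.1 hj).1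
      omega)
    refine le_trans ?_ (lintegral_mono_set hU)
    rw [lintegral_biUnion_finset hdis fun j _ => measurableSet_Icc,
      ENNReal.ofReal_mul (Nat.cast_nonneg _), ENNReal.ofReal_natCast, ← nsmul_eq_mul]
    refine Finset.card_nsmul_le_sum _ _ _ fun j hj => ?_
    have hg := (Finset.mem_filter.1 hj).2
    calc ENNReal.ofReal (A ^ 2 * (2 / ω)) = ∫⁻ _t in cell j, ENNReal.ofReal (A ^ 2) := by
          rw [setLIntegral_const, Real.volume_Icc, ← ENNReal.ofReal_mul (by positivity)]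
          congr 2
          field_simp
          ring
      _ ≤ _ := by
          refine setLIntegral_mono' measurableSet_Icc fun t ht => ENNReal.ofReal_le_ofReal ?_
          have h1 : sg j * r t ≤ 0 := not_lt.1 fun h0 => hg ⟨t, ht, h0⟩
          have h2 := hsin j t ht
          have h3 : A ≤ sg j * (2 * A * Real.sin (ω * t + θ) - r t) := by nlinarith
          have h4 : A ^ 2 ≤ (sg j * (2 * A * Real.sin (ω * t + θ) - r t)) ^ 2 := by gcongr
          rw [mul_pow, sq (sg j), sg2] at h4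
          linarith
  have hB' : 2 * (Bad.card : ℝ) ≤ ω * E := by
    have h1 : (2 * (Bad.card : ℝ)) * A ^ 2 ≤ (ω * E) * A ^ 2 := by
      have h2 := mul_le_mul_of_nonneg_left hB hω.le
      have h3 : ω * ((Bad.card : ℝ) * (A ^ 2 * (2 / ω))) = 2 * Bad.card * A ^ 2 := by field_simp
      linarith
    exact le_of_mul_le_mul_right h1 (by positivity)
  refine ⟨(Finset.range (n - 2)).filter (fun j => good j ∧ good (j + 1)), τ,
    strictMono_nat_of_lt_succ fun j => sep j (j + 1) (by omega) _ (hτ1 j) _ (hτ1 _),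
    fun j hj => ?_, ?_⟩
  · obtain ⟨h1, h2, h3⟩ := Finset.mem_filter.1 hj
    have h4 := Finset.mem_range.1 h1
    refine ⟨(hsub j (by omega) (hτ1 j)).1, (hsub (j + 1) (by omega) (hτ1 _)).2, ?_⟩
    have h5 := hτ2 j h2
    have h6 := hτ2 _ h3
    rw [sgs] at h6
    have h7 := mul_pos h5 h6
    have h8 : sg j * r (τ j) * (-sg j * r (τ (j + 1))) =
        -(sg j * sg j) * (r (τ j) * r (τ (j + 1))) := by ring
    rw [h8, sg2] at h7
    linarith
  · set J := (Finset.range (n - 2)).filter (fun j => good j ∧ good (j + 1)) with hJ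
    have h1 : Finset.range (n - 2) ⊆ J ∪ (Bad ∪ Bad.image (fun j => j - 1)) := fun j hj => by
      have h4 := Finset.mem_range.1 hj
      simp only [Finset.mem_union, hJ, hBad, Finset.mem_filter, Finset.mem_range, Finset.mem_image]
      by_cases g1 : good j
      · by_cases g2 : good (j + 1)
        · exact Or.inl ⟨h4, g1, g2⟩
        · exact Or.inr (Or.inr ⟨j + 1, ⟨by omega, g2⟩, by omega⟩)
      · exact Or.inr (Or.inl ⟨by omega, g1⟩)
    have h2 := (Finset.card_le_card h1).trans ((Finset.card_union_le _ _).trans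
      (add_le_add le_rfl ((Finset.card_union_le _ _).trans
        (add_le_add le_rfl Finset.card_image_le))))
    rw [Finset.card_range] at h2
    have h3 : n ≤ J.card + (Bad.card + Bad.card) + 2 := by omega
    have h4 : (n : ℝ) ≤ J.card + (Bad.card + Bad.card) + 2 := by exact_mod_cast h3
    have h5 := Nat.lt_floor_add_one (ω * (b - a) / Real.pi)
    linarith

theorem zeros_of_cells {r : ℝ → ℝ} (hr : Continuous r) {J : Finset ℕ} {τ : ℕ → ℝ}
    (hτ : StrictMono τ) {a b : ℝ}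
    (h : ∀ j ∈ J, a ≤ τ j ∧ τ (j + 1) ≤ b ∧ r (τ j) * r (τ (j + 1)) < 0) :
    ∃ s : Finset ℝ, s.card = J.card ∧ ∀ t ∈ s, a ≤ t ∧ t ≤ b ∧ r t = 0 := by
  classical
  have key : ∀ j, ∃ z, j ∈ J → z ∈ Ioo (τ j) (τ (j + 1)) ∧ r z = 0 := fun j => by
    by_cases hj : j ∈ J
    · have hle := (hτ (Nat.lt_succ_self j)).le
      rcases mul_neg_iff.1 (h j hj).2.2 with h0 | h0
      · obtain ⟨z, hz, hz'⟩ := intermediate_value_Ioo' hle hr.continuousOn ⟨h0.2, h0.1⟩
        exact ⟨z, fun _ => ⟨hz, hz'⟩⟩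
      · obtain ⟨z, hz, hz'⟩ := intermediate_value_Ioo hle hr.continuousOn ⟨h0.1, h0.2⟩
        exact ⟨z, fun _ => ⟨hz, hz'⟩⟩
    · exact ⟨0, fun h => absurd h hj⟩
  choose z hz using key
  have hlt : ∀ i ∈ J, ∀ j ∈ J, i < j → z i < z j := fun i hi j hj hij =>
    ((hz i hi).1.2.trans_le (hτ.monotone hij)).trans (hz j hj).1.1
  refine ⟨J.image z, Finset.card_image_of_injOn fun i hi j hj e => ?_, fun t ht => ?_⟩
  · rcases lt_trichotomy i j with h0 | h0 | h0
    exacts [absurd e (hlt i hi j hj h0).ne, h0, absurd e (hlt j hj i hi h0).ne']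
  · obtain ⟨j, hj, rfl⟩ := Finset.mem_image.1 ht
    exact ⟨(h j hj).1.trans (hz j hj).1.1.le, (hz j hj).1.2.le.trans (h j hj).2.1, (hz j hj).2⟩

theorem S_ge {μ : ℂ → ℕ} (hμ : LF μ) {a b : ℝ} (ha : 0 < a) (s : Finset ℝ)
    (h : ∀ t ∈ s, a ≤ t ∧ t ≤ b ∧ 1 ≤ μ t ∧ 1 ≤ μ (-t : ℝ)) :
    2 * (s.card : ℝ) ≤ S μ (kI a b) := by
  classical
  set s' : Finset ℂ := (s ∪ s.image (fun t => -t)).image ofReal with hs'
  have hc : s'.card = 2 * s.card := by
    rw [hs', Finset.card_image_of_injective _ ofReal_injective, Finset.card_union_of_disjoint,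
      Finset.card_image_of_injective _ neg_injective, two_mul]
    refine Finset.disjoint_left.2 fun t ht ht' => ?_
    obtain ⟨u, hu, rfl⟩ := Finset.mem_image.1 ht'
    linarith [(h u hu).1, (h _ ht).1]
  have hm : ∀ z ∈ s', 1 ≤ μ z ∧ kI a b z = 1 := fun z hz => by
    obtain ⟨t, ht, rfl⟩ := Finset.mem_image.1 hz
    rcases Finset.mem_union.1 ht with ht | ht
    · obtain ⟨h1, h2, h3, -⟩ := h t ht
      refine ⟨h3, if_pos ?_⟩
      rw [Complex.norm_real, Real.norm_eq_abs, abs_of_pos (ha.trans_le h1)]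
      exact ⟨h1, h2⟩
    · obtain ⟨u, hu, rfl⟩ := Finset.mem_image.1 ht
      obtain ⟨h1, h2, -, h3⟩ := h u hu
      refine ⟨h3, if_pos ?_⟩
      rw [Complex.norm_real, Real.norm_eq_abs, abs_neg, abs_of_pos (ha.trans_le h1)]
      exact ⟨h1, h2⟩
  have h1 := S_le hμ (μ := fun z => if z ∈ s' then 1 else 0) (fun z => by
    split_ifs with hz
    exacts [(hm z hz).1, Nat.zero_le _]) (sp_kI a b) (sp_kI a b) (fun z _ => kI_nonneg a b z)
    fun _ _ => le_rfl
  rw [S_eq_sum s' fun z hz => Or.inl (if_neg hz),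
    Finset.sum_congr rfl (g := fun _ => (1 : ℝ)) fun z hz => by simp [hz, (hm z hz).2]] at h1
  simpa [hc] using h1

/-! ### averaging for one cap -/

open KeyO in
theorem avg1 {Ω : Set ℂ} {u m : ℂ → ℝ} (h : Cap Ω u m) (p₀ : ℂ) (ρ : ℝ)
    {R M ε' σ thr c₁ c₂ l₁ : ℝ} (hR : 0 < R) (hM : 0 < M) (hMR : M ≤ R) (hε0 : 0 < ε')
    (hε' : ε' ≤ 1 / 2) (hεR : 1 ≤ ε' * R) (hσ : 0 < σ) (hthr : 0 < thr) (hc₂ : 0 ≤ c₂)
    (hl₁ : 0 < l₁)
    (H1 : ∫⁻ p in Metric.closedBall p₀ ρ, ∫⁻ t in Icc (R / 2) (3 * R), ENNReal.ofReal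
      (‖((t : ℂ) + I * (0 : ℝ)) * TTgt Ω u m (M / R) p (t + I * (0 : ℝ))‖ ^ 2) ≤
        ENNReal.ofReal (c₁ * R * σ))
    (H2 : ∫⁻ p in Metric.closedBall p₀ ρ, Acap Ω u m p (2 * (M / R)) ^ 2 ≤
      ENNReal.ofReal (c₂ * (M / R) ^ 2 * σ))
    (H4 : ∀ t ≥ R / 2, l₁ * ((60 * thr + 10800 * c₂ * M ^ 4 * ε' ^ 2) * σ) <
      ∫ p in Metric.closedBall p₀ ρ, t ^ 2 * ‖TT Ω u m p t‖ ^ 2) :
    ∃ Bad : Set ℝ, MeasurableSet Bad ∧ volume Bad ≤ ENNReal.ofReal (c₁ / thr * R) ∧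
      ∀ x ∈ Icc R (2 * R), x ∉ Bad → ∃ p ∈ Metric.closedBall p₀ ρ, ∃ a : ℂ, a ≠ 0 ∧
        ∫⁻ t in Icc (x - ε' * R) (x + ε' * R), ENNReal.ofReal
          (Pk (ε' * R) (t - x) * ‖TT Ω u m p (t + I * (0 : ℝ)) - a‖ ^ 2) ≤
            ENNReal.ofReal (9 / l₁ * ‖a‖ ^ 2) := by
  set B := Metric.closedBall p₀ ρ with hB
  have hBm : MeasurableSet B := Metric.isClosed_closedBall.measurableSet
  set g₀ : ℝ → ℝ≥0∞ := fun t => ∫⁻ p in B, ENNReal.ofReal
    (‖((t : ℂ) + I * (0 : ℝ)) * TTgt Ω u m (M / R) p (t + I * (0 : ℝ))‖ ^ 2) with hg₀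
  have mg₀ : Measurable g₀ := (meas_G h (M / R) 0).lintegral_prod_left'
  set g : ℝ → ℝ≥0∞ := (Icc (R / 2) (3 * R)).indicator g₀ with hg
  have mg : Measurable g := mg₀.indicator measurableSet_Icc
  have hgle : ∀ t ∈ Icc (R / 2) (3 * R), g₀ t ≤ g t := fun t ht => by
    rw [hg, indicator_of_mem ht]
  have hgint : ∫⁻ t, g t ≤ ENNReal.ofReal (c₁ * R * σ) := by
    rw [hg, lintegral_indicator measurableSet_Icc]
    exact le_trans (le_of_eq
      (lintegral_lintegral_swap (meas_G h (M / R) 0).aemeasurable).symm) H1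
  obtain ⟨Bad, hBad, hvol, hgood⟩ := good_x mg (d := ε' * R) (c := thr * σ) (by positivity)
    (by positivity) hgint
  refine ⟨Bad, hBad, hvol.trans (le_of_eq ?_), fun x hx hxB => ?_⟩
  · congr 1
    field_simp
  obtain ⟨hG, t₁, ht₁, hgt⟩ := hgood x hxB
  have hεR' : ε' * R ≤ R / 2 := by nlinarith
  have hsub : Icc (x - ε' * R) (x + ε' * R) ⊆ Icc (R / 2) (3 * R) :=
    Icc_subset_Icc (by linarith [hx.1]) (by linarith [hx.2])
  have ht₁'' := hsub ht₁
  have ht0 : 0 < t₁ := by linarith [ht₁''.1]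
  set E : ℂ → ℝ≥0∞ := fun p => ENNReal.ofReal (R ^ 2) *
    ∫⁻ t in Icc (x - ε' * R) (x + ε' * R), ENNReal.ofReal (Pk (ε' * R) (t - x) *
      ‖TT Ω u m p (t + I * (0 : ℝ)) - TT Ω u m p t₁‖ ^ 2) with hE
  have hEint : ∫⁻ p in B, E p ≤
      ENNReal.ofReal ((60 * thr + 10800 * c₂ * M ^ 4 * ε' ^ 2) * σ) := by
    have h0 := near_bound h B (d := ε' * R) (x := x) (t₁ := t₁) (y := 0) (c := thr * σ)
      hR hM hMR hεR (by positivity) (by positivity) (by positivity) (by simp)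
      (by linarith [hx.1]) ht₁ ?_ ((hgle t₁ ht₁'').trans hgt) H2
    · refine h0.trans (le_of_eq ?_)
      congr 1
      field_simp
    · refine le_trans ?_ ((setLIntegral_le_lintegral (Icc (x - ε' * R) (x + ε' * R)) _).trans hG)
      refine setLIntegral_mono' measurableSet_Icc fun t ht => ?_
      exact mul_le_mul' le_rfl (hgle t (hsub ht))
  have hEr : ∫⁻ p in B, ENNReal.ofReal l₁ * E p ≤
      ENNReal.ofReal (l₁ * ((60 * thr + 10800 * c₂ * M ^ 4 * ε' ^ 2) * σ)) := by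
    rw [lintegral_const_mul' (ENNReal.ofReal l₁) _ ENNReal.ofReal_ne_top,
      ENNReal.ofReal_mul hl₁.le]
    exact mul_le_mul' le_rfl hEint
  obtain ⟨p, hp, hlt⟩ := pigeon hBm (int_T h p₀ ρ t₁) (k := fun _ => 0) integrableOn_zero
    (fun p => by positivity) (fun p => le_rfl) (by positivity) hEr (by
      rw [integral_zero, zero_add]
      exact H4 t₁ ht₁''.1)
  rw [ENNReal.ofReal_zero, zero_add] at hlt
  refine ⟨p, hp, TT Ω u m p t₁, fun h0 => ?_, ?_⟩
  · rw [h0] at hlt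
    simp at hlt
  · have hbd : t₁ ^ 2 * ‖TT Ω u m p t₁‖ ^ 2 ≤ 9 * R ^ 2 * ‖TT Ω u m p t₁‖ ^ 2 := by
      have : t₁ ^ 2 ≤ (3 * R) ^ 2 := by gcongr; exact ht₁''.2
      calc _ ≤ (3 * R) ^ 2 * ‖TT Ω u m p t₁‖ ^ 2 := by gcongr
        _ = _ := by ring
    have h1 := le_of_mul_lt hl₁ (hlt.le.trans (ENNReal.ofReal_le_ofReal hbd))
    have h2 := le_of_mul_lt (by positivity : 0 < R ^ 2) h1
    have h3 : 9 * R ^ 2 * ‖TT Ω u m p t₁‖ ^ 2 / l₁ / R ^ 2 = 9 / l₁ * ‖TT Ω u m p t₁‖ ^ 2 := by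
      field_simp
    rwa [h3] at h2

end

section

open KC GeomAux

/-! ### symmetric bodies -/

/-- the real transform along a real line -/
def rr (K : Set X) (η : V) (t : ℝ) : ℝ := t * (FT K ((t : ℂ) • cx η 0)).re

theorem rr_cont {K : Set X} (hK : Body K) : Continuous fun q : V × ℝ => rr K q.1 q.2 := by
  have h1 := (differentiable_FT hK.cpt).continuous
  have h2 : Continuous fun q : V × ℝ => ((q.2 : ℂ) • cx q.1 0 : W) := by
    refine continuous_pi fun i => ?_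
    simp only [cx, Pi.smul_apply, smul_eq_mul]
    fun_prop
  exact continuous_snd.mul (continuous_re.comp (h1.comp h2))

theorem FT_even {K : Set X} (hs : -K = K) (ζ : W) : FT K (-ζ) = FT K ζ := by
  rw [← FT_neg, hs]

theorem FT_real {K : Set X} (hs : -K = K) (η : V) (t : ℝ) :
    FT K ((t : ℂ) • cx η 0) = ((FT K ((t : ℂ) • cx η 0)).re : ℂ) := by
  have h := FT_conj K η t
  rw [conj_ofReal, neg_smul, FT_even hs] at h
  exact (conj_eq_iff_re.1 h.symm).symm

theorem wd_sym {K : Set X} (hsy : -K = K) (η : V) : wd K η = 2 * hs K η := by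
  rw [wd, ← hs_neg, hsy, two_mul]

open KeyAAux in
theorem norm_model {K : Set X} (hsy : -K = K) (p a : ℂ) (t : ℝ) :
    ‖ph K p t - (a - conj a * Complex.exp (-(I * t * (wd K (nv p) : ℝ))))‖ ^ 2 =
      (rr K (nv p) t - 2 * ‖a‖ * Real.sin (hs K (nv p) * t + arg a)) ^ 2 := by
  set h := hs K (nv p) with hh
  set u : ℂ := Complex.exp (I * t * h) with hu
  set e : ℂ := Complex.exp (arg a * I) with he
  have u0 : u ≠ 0 := Complex.exp_ne_zero _
  have e0 : e ≠ 0 := Complex.exp_ne_zero _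
  have h1 : a = ‖a‖ * e := (norm_mul_exp_arg_mul_I a).symm
  have h2 : conj a = ‖a‖ * e⁻¹ := by
    conv_lhs => rw [h1]
    rw [map_mul, conj_ofReal, he, ← Complex.exp_conj, ← Complex.exp_neg]
    simp
  have h3 : Complex.exp (-(I * t * (wd K (nv p) : ℝ))) = u⁻¹ * u⁻¹ := by
    rw [wd_sym hsy, hu, ← Complex.exp_neg, ← Complex.exp_add]
    congr 1
    push_cast
    ring
  have h4 : ((Real.sin (h * t + arg a) : ℝ) : ℂ) = ((u * e)⁻¹ - u * e) * I / 2 := by
    rw [ofReal_sin, Complex.sin, hu, he, ← Complex.exp_add, ← Complex.exp_neg]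
    congr 3 <;> congr 1 <;> push_cast <;> ring
  have h5 : ph K p t - (a - conj a * Complex.exp (-(I * t * (wd K (nv p) : ℝ)))) =
      u⁻¹ * (I * ((rr K (nv p) t - 2 * ‖a‖ * Real.sin (h * t + arg a) : ℝ) : ℂ)) := by
    rw [h2, h3, ph, ← hh, Complex.exp_neg, ← hu, FT_real hsy, rr]
    set f := (FT K ((t : ℂ) • cx (nv p) 0)).re
    rw [ofReal_sub, ofReal_mul, ofReal_mul, ofReal_mul, h4]
    set A : ℂ := ((‖a‖ : ℝ) : ℂ)
    rw [h1]
    push_cast
    field_simp
    linear_combination (A * (1 - u ^ 2 * e ^ 2)) * I_sq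
  have h6 : ‖u⁻¹‖ = 1 := by
    rw [norm_inv, hu, Complex.norm_exp]
    simp
  rw [h5, norm_mul, norm_mul, h6, norm_I, Complex.norm_real, Real.norm_eq_abs, one_mul, one_mul,
    sq_abs]

open KeyAAux in
theorem point {K : Set X} (hK : Body K) (hsy : -K = K) {G : W → ℂ} (hG : Differentiable ℂ G)
    (G0 : G 0 ≠ 0) {R₀ : ℝ} (hz : ∀ ξ, R₀ ≤ ‖ξ‖ → FT K (cx ξ 0) = 0 → G (cx ξ 0) = 0) (p : ℂ)
    {a₀ : ℂ} (ha₀ : a₀ ≠ 0) {d x κ a b : ℝ} (hd : 0 < d) (hκ : 0 ≤ κ) (ha : 0 < a)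
    (haR : 2 * R₀ ≤ a) (h1 : x - d ≤ a) (h2 : b ≤ x + d)
    (hn : ∫⁻ t in Icc (x - d) (x + d), ENNReal.ofReal
      (Pk d (t - x) * ‖TK K p (t + I * (0 : ℝ)) - a₀‖ ^ 2) ≤ ENNReal.ofReal (κ * ‖a₀‖ ^ 2)) :
    ∀ᶠ η in 𝓝 (nv p), wd K (nv p) / Real.pi * (b - a) - 6 - wd K (nv p) * (128 * d * κ) ≤
      S (mA (ln (FT K) (cx η 0)) (ln G (cx η 0))) (kI a b) := by
  have A1 := ph_amp hK p
  rw [hsy] at A1
  have G1 := gap_int A1 a₀ a₀ (x := x) hd le_rfl (by positivity) hn hn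
  have hA : 0 < ‖a₀‖ := norm_pos_iff.2 ha₀
  have hω : 0 < hs K (nv p) := by
    obtain ⟨c, hc, h⟩ := wd_pos hK
    exact (mul_pos hc (norm_pos_iff.2 (FinalAux.nv_ne p))).trans_le (h _)
  obtain ⟨J, τ, hτ, hJ, hcard⟩ := cells (r := rr K (nv p)) (θ := arg a₀) (a := a) (b := b)
    (E := 128 * d * κ) hA hω (by positivity) (by
      calc _ ≤ ∫⁻ t in Icc a b, ENNReal.ofReal (8 * d) * ENNReal.ofReal (Pk d (t - x) *
            ‖ph K p t - (a₀ - conj a₀ * Complex.exp (-(I * t * (wd K (nv p) : ℝ))))‖ ^ 2) := by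
            refine setLIntegral_mono' measurableSet_Icc fun t ht => ?_
            rw [← ENNReal.ofReal_mul (by positivity), norm_model hsy, ← mul_assoc]
            refine ENNReal.ofReal_le_ofReal (le_mul_of_one_le_left (sq_nonneg _) ?_)
            exact Pk_ge hd (abs_le.2 ⟨by linarith [ht.1], by linarith [ht.2]⟩)
        _ ≤ ENNReal.ofReal (8 * d) * ENNReal.ofReal (8 * (κ * ‖a₀‖ ^ 2 + κ * ‖a₀‖ ^ 2)) := by
            rw [lintegral_const_mul' _ _ ENNReal.ofReal_ne_top]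
            exact mul_le_mul' le_rfl ((lintegral_mono_set (Icc_subset_Icc h1 h2)).trans G1)
        _ = _ := by
            rw [← ENNReal.ofReal_mul (by positivity)]
            congr 1
            ring)
  have hc := rr_cont hK
  have hev : ∀ᶠ η in 𝓝 (nv p), ∀ j ∈ J, rr K η (τ j) * rr K η (τ (j + 1)) < 0 := by
    refine (eventually_all_finset J).2 fun j hj => ?_
    have c1 : Continuous fun η : V => rr K η (τ j) * rr K η (τ (j + 1)) :=
      (hc.comp (continuous_id.prodMk continuous_const)).mul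
        (hc.comp (continuous_id.prodMk continuous_const))
    exact c1.continuousAt.eventually_lt continuousAt_const (hJ j hj).2.2
  have hev' : ∀ᶠ η in 𝓝 (nv p), (1 / 2 : ℝ) < ‖η‖ :=
    continuousAt_const.eventually_lt continuous_norm.continuousAt (by
      have : (1 : ℝ) ≤ ‖nv p‖ := by simpa [nv] using norm_le_pi_norm (nv p) 2
      linarith)
  filter_upwards [hev, hev'] with η hη hη'
  obtain ⟨s, hs1, hs2⟩ := zeros_of_cells (r := rr K η)
    (hc.comp (continuous_const.prodMk continuous_id)) hτ (a := a) (b := b)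
    fun j hj => ⟨(hJ j hj).1, (hJ j hj).2.1, hη j hj⟩
  have fK := fam_body hK
  have one : ∀ t : ℝ, a ≤ |t| → FT K ((t : ℂ) • cx η 0) = 0 →
      1 ≤ mA (ln (FT K) (cx η 0)) (ln G (cx η 0)) t := fun t hat ht => by
    have e : (t : ℂ) • cx η 0 = cx (t • η) 0 := by rw [smul_cx]; simp
    have hg : G ((t : ℂ) • cx η 0) = 0 := by
      rw [e] at ht ⊢
      refine hz _ ?_ ht
      rw [norm_smul, Real.norm_eq_abs]
      nlinarith
    refine le_min (Nat.one_le_iff_ne_zero.2 fun h0 => ?_) (Nat.one_le_iff_ne_zero.2 fun h0 => ?_)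
    · exact (ord_eq_zero_iff (ln_diff fK.diff _) ⟨0, by rw [ln_zero]; exact fK.ne0⟩).1 h0 ht
    · exact (ord_eq_zero_iff (ln_diff hG _) ⟨0, by rw [ln_zero]; exact G0⟩).1 h0 hg
  have h3 := S_ge ((lf_ln fK.diff fK.ne0 (cx η 0)).mono (mA_le _ (ln G (cx η 0)))) ha s
    (b := b) fun t ht => by
      obtain ⟨t1, t2, t3⟩ := hs2 t ht
      have t4 : FT K ((t : ℂ) • cx η 0) = 0 := by
        rw [FT_real hsy, (mul_eq_zero.1 t3).resolve_left (ha.trans_le t1).ne', ofReal_zero]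
      refine ⟨t1, t2, one t (t1.trans (le_abs_self t)) t4,
        one (-t) (t1.trans (by rw [abs_neg]; exact le_abs_self t)) ?_⟩
      rw [ofReal_neg, neg_smul, FT_even hsy, t4]
  rw [hs1] at h3
  rw [wd_sym hsy]
  have e : 2 * hs K (nv p) / Real.pi * (b - a) = 2 * (hs K (nv p) * (b - a) / Real.pi) := by ring
  linarith

open KeyO in
theorem few_sym {K : Set X} (hK : Body K) (hsy : -K = K) {G : W → ℂ} (hG : Differentiable ℂ G)
    (G0 : G 0 ≠ 0) {R₀ : ℝ} (hz : ∀ ξ, R₀ ≤ ‖ξ‖ → FT K (cx ξ 0) = 0 → G (cx ξ 0) = 0) {p₀ : ℂ}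
    (hp₀ : ∀ ρ > 0, 0 < GK K (Metric.closedBall p₀ ρ)) : FewB (FT K) G (nv p₀) := by
  obtain ⟨W₀, hW₀⟩ := wd_up hK p₀
  obtain ⟨W, hW0, hW⟩ : ∃ W : ℝ, 0 < W ∧ ∀ p ∈ Metric.closedBall p₀ 1, wd K (nv p) ≤ W :=
    ⟨|W₀| + 1, by positivity, fun p hp => (hW₀ p hp).trans (by linarith [le_abs_self W₀])⟩
  have hcap := cap_body hK
  have fK := fam_body hK
  have := FinalAux.fin_GK hK
  obtain ⟨L, hL0, hL⟩ := exists_lip fK
  obtain ⟨Ct, hCt, hct⟩ := cap_tail W
  intro ε hε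
  obtain ⟨l₁, hl₁⟩ : ∃ l₁ : ℝ, l₁ = 18432 * W / ε := ⟨_, rfl⟩
  have hl₁0 : 0 < l₁ := by rw [hl₁]; positivity
  obtain ⟨thr, hthr⟩ : ∃ thr : ℝ, thr = 1 / (60 * l₁) := ⟨_, rfl⟩
  have hthr0 : 0 < thr := by rw [hthr]; positivity
  obtain ⟨M, hM2, hM⟩ : ∃ M : ℝ, 2 ≤ M ∧ 2 * (Ct / √M) / thr ≤ ε := by
    refine ⟨(2 * Ct / (thr * ε)) ^ 2 + 2, by linarith [sq_nonneg (2 * Ct / (thr * ε))], ?_⟩
    have h1 : 2 * Ct / (thr * ε) ≤ √((2 * Ct / (thr * ε)) ^ 2 + 2) :=
      Real.le_sqrt_of_sq_le (by linarith)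
    have h2 : 0 < 2 * Ct / (thr * ε) := by positivity
    calc _ ≤ 2 * (Ct / (2 * Ct / (thr * ε))) / thr := by gcongr
      _ = ε := by field_simp
  have hM0 : 0 < M := by linarith
  obtain ⟨ε', hε'0, hε'2, hε'3⟩ : ∃ ε' : ℝ, 0 < ε' ∧ ε' ≤ 1 / 2 ∧
      l₁ * (10800 * 32768 * M ^ 4 * ε' ^ 2) ≤ 1 := by
    obtain ⟨κ, hκ⟩ : ∃ κ : ℝ, κ = l₁ * (10800 * 32768 * M ^ 4) := ⟨_, rfl⟩
    have hκ0 : 0 < κ := by rw [hκ]; positivity
    refine ⟨min (1 / 2) (1 / κ), by positivity, min_le_left _ _, ?_⟩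
    set z := min (1 / 2) (1 / κ) with hz
    have z0 : 0 < z := by positivity
    have z1 : z ≤ 1 / 2 := min_le_left _ _
    have z2 : z ≤ 1 / κ := min_le_right _ _
    rw [le_div_iff₀ hκ0] at z2
    have z3 : z * κ * z ≤ 1 * 1 := by gcongr; linarith
    calc _ = z * κ * z := by rw [hκ]; ring
      _ ≤ 1 := by linarith
  refine ⟨1 + ε' / 4, by linarith, by linarith, fun ρ hρ => ?_⟩
  obtain ⟨r, hr, hsph⟩ : ∃ r ∈ Ioo 0 (min ρ 1), GK K (Metric.sphere p₀ r) = 0 := by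
    have hc := (GK K).countable_meas_level_set_pos (g := fun q => dist q p₀)
      (measurable_id.dist measurable_const)
    by_contra hcon
    push Not at hcon
    have := (hc.mono fun r hr => pos_iff_ne_zero.2 (hcon r hr)).measure_zero volume
    rw [Real.volume_Ioo, ENNReal.ofReal_eq_zero] at this
    linarith [lt_min hρ one_pos]
  have hr0 := hr.1
  have hrρ : r ≤ ρ := hr.2.le.trans (min_le_left _ _)
  have hr1 : r ≤ 1 := hr.2.le.trans (min_le_right _ _)
  have hB1 : Metric.closedBall p₀ r ⊆ Metric.closedBall p₀ 1 :=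
    Metric.closedBall_subset_closedBall hr1
  have hψ : ∀ p ∈ Metric.closedBall p₀ r, ∀ y ∈ Om K, psi (uK K) (mK K) p y ≤ W :=
    fun p hp y hy => (psi_le_wd hK p hy).trans (hW p (hB1 hp))
  obtain ⟨σ, hσ⟩ : ∃ σ : ℝ, σ = (GK K (Metric.closedBall p₀ r)).toReal := ⟨_, rfl⟩
  have hσ1 : Gam (Om K) (uK K) (Metric.closedBall p₀ r) = ENNReal.ofReal σ := by
    rw [hσ, ENNReal.ofReal_toReal (measure_ne_top _ _)]; rfl
  have hσ0 : 0 < σ := by
    rw [hσ]; exact ENNReal.toReal_pos (hp₀ r hr0).ne' (measure_ne_top _ _)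
  have E1 := eventually_atTop.2 (hct _ _ _ hcap p₀ r hψ M hM2 σ hσ0)
  have E2 : ∀ᶠ R : ℝ in atTop, volume (Near (Om K) (uK K) (mK K) p₀ r (2 * (2 * (M / R)))) <
      ENNReal.ofReal (2 * σ) := by
    have t1 : Tendsto (fun R : ℝ => 2 * (2 * (M / R))) atTop (𝓝[>] 0) := by
      refine tendsto_nhdsWithin_iff.2 ⟨?_, ?_⟩
      · have := ((tendsto_const_nhds (x := M)).div_atTop tendsto_id).const_mul 2 |>.const_mul 2
        simpa using this
      · filter_upwards [eventually_gt_atTop 0] with R hR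
        exact mem_Ioi.2 (by positivity)
    refine ((near_tendsto hcap p₀ r).comp t1).eventually_lt_const ?_
    rw [hσ1, ENNReal.ofReal_lt_ofReal_iff (by positivity)]
    linarith
  have hen := energy hcap p₀ hr0 hsph
  rw [hσ1, ENNReal.toReal_ofReal hσ0.le] at hen
  have hlt : 2 * σ < (2 * Real.pi) ^ 2 * σ := by
    have h1 : 36 < (2 * Real.pi) ^ 2 := by nlinarith [Real.pi_gt_three]
    nlinarith
  obtain ⟨t₀, ht₀⟩ := eventually_atTop.1 (hen.eventually_const_lt hlt)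
  obtain ⟨x₀, hup⟩ := up_count fK (‖nv p₀‖ + 2) (show 0 < ε * ε' / 32 by positivity)
  refine eventually_atTop.1 ?_
  filter_upwards [E1, E2, eventually_ge_atTop M, eventually_ge_atTop (1 / ε'),
    eventually_ge_atTop (2 * t₀), eventually_ge_atTop (2 * x₀),
    eventually_ge_atTop (96 / (ε * ε')), eventually_ge_atTop (4 * R₀)] with
    R e1 e2 hRM hRε hRt hRx hR6 hR0
  have hR : 0 < R := hM0.trans_le hRM
  have hεR : 1 ≤ ε' * R := by
    rw [div_le_iff₀ hε'0] at hRε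
    linarith
  obtain ⟨Bad, hBad, hvol, hgood⟩ := avg1 hcap p₀ r (R := R) (M := M) (ε' := ε') (σ := σ)
    (thr := thr) (c₁ := 2 * (Ct / √M)) (c₂ := 32768) (l₁ := l₁) hR hM0 hRM hε'0 hε'2 hεR hσ0 hthr0
    (by positivity) hl₁0
    (by
      refine (e1 0 (by simp)).trans (le_of_eq ?_)
      rw [hσ1, ← ENNReal.ofReal_add hσ0.le hσ0.le, ← ENNReal.ofReal_mul (by positivity)]
      congr 1
      ring)
    (by
      refine (cap_area hcap p₀ r (by positivity)).trans
        ((mul_le_mul' le_rfl e2.le).trans (le_of_eq ?_))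
      rw [← ENNReal.ofReal_mul (by positivity)]
      congr 1
      ring)
    (fun t ht => by
      have h1 := ht₀ t (by linarith)
      have h2 : l₁ * (60 * thr) = 1 := by rw [hthr]; field_simp
      have h4 : l₁ * (60 * thr + 10800 * 32768 * M ^ 4 * ε' ^ 2) ≤ 2 := by linarith
      have h5 := mul_le_mul_of_nonneg_right h4 hσ0.le
      linarith)
  refine ⟨Bad, hBad, hvol.trans (ENNReal.ofReal_le_ofReal (by gcongr)), fun x hx hxB => ?_⟩
  obtain ⟨p, hp, a₀, ha₀, hn⟩ := hgood x hx hxB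
  have hpp : ‖nv p - nv p₀‖ ≤ r := (nv_sub p p₀).trans (mem_closedBall_iff_norm.1 hp)
  refine ⟨nv p, hpp.trans hrρ, ?_⟩
  have hx0 : 0 < x := hR.trans_le hx.1
  set q := 1 + ε' / 4 with hq
  have hq1 : 1 < q := by linarith
  have hq2 : q ≤ 2 := by linarith
  have hxq : x * (2 - q) ≤ x / q := by
    rw [le_div_iff₀ (by linarith)]
    nlinarith [sq_nonneg (q - 1)]
  have hεx : ε' * x ≤ ε' * (2 * R) := by gcongr; exact hx.2
  have hab : x / q ≤ x * q := (div_le_self hx0.le hq1.le).trans (by nlinarith)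
  have hpt := point hK hsy hG G0 hz p ha₀ (d := ε' * R) (x := x) (κ := 9 / l₁) (a := x / q)
    (b := x * q) (by positivity) (by positivity) (by positivity) (by nlinarith [hx.1])
    (by nlinarith) (by nlinarith) hn
  filter_upwards [hpt, Metric.closedBall_mem_nhds (nv p)
    (show 0 < min 1 (ε / (16 * L)) by positivity)] with η h1 hη
  rw [mem_closedBall_iff_norm] at hη
  have hη1 : ‖η‖ ≤ ‖nv p₀‖ + 2 := by
    have a1 := norm_le_of_near (hη.trans (min_le_left _ _))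
    have a2 := norm_le_of_near hpp
    linarith
  have h2 := hup η hη1 (x / q) (x * q) (by nlinarith [hx.1]) hab
  have h3 := S_split (ln G (cx η 0)) (lf_ln fK.diff fK.ne0 (cx η 0)) (sp_kI (x / q) (x * q))
  have h4 : wh (hs K) η / Real.pi ≤ wd K (nv p) / Real.pi + ε / 8 := by
    refine (wh_div_le fK hL0 hL η (nv p)).trans (add_le_add le_rfl ?_)
    calc _ ≤ 2 * L * (ε / (16 * L)) := by gcongr; exact hη.trans (min_le_right _ _)
      _ = ε / 8 := by field_simp; ring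
  have h5 := mul_le_mul_of_nonneg_right h4 (sub_nonneg.2 hab)
  have h6 : ε / 8 * (x * q - x / q) ≤ ε / 8 * (ε' / 2 * x) := by gcongr; nlinarith
  have h7 : ε * ε' / 32 * (x * q) ≤ ε * ε' / 32 * (x * 2) := by gcongr
  have h8 : wd K (nv p) * (128 * (ε' * R) * (9 / l₁)) ≤ W * (128 * (ε' * x) * (9 / l₁)) := by
    have := hW p (hB1 hp)
    have := hx.1
    gcongr
  have h9 : W * (128 * (ε' * x) * (9 / l₁)) = ε * ε' * x / 16 := by rw [hl₁]; field_simp; ring
  have h10 : 96 ≤ x * (ε * ε') := by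
    rw [← div_le_iff₀ (by positivity)]; exact hR6.trans hx.1
  have h11 : ε * (q - 1) * x = ε * ε' * x / 4 := by rw [hq]; ring
  rw [h11]
  linarith

end

section

open KC GeomAux FinalAux

/-! ### change of chart -/

theorem int_map {E E' : Type*} [NormedAddCommGroup E] [NormedSpace ℝ E] [NormedAddCommGroup E']
    [NormedSpace ℝ E'] [MeasurableSpace E] [BorelSpace E] [MeasurableSpace E'] [BorelSpace E']
    [FiniteDimensional ℝ E'] (μ : Measure E) (μ' : Measure E') [μ.IsAddHaarMeasure]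
    [μ'.IsAddHaarMeasure] (T : E ≃L[ℝ] E') : ∃ c : ℂ, c ≠ 0 ∧ ∀ (s : Set E) (g : E' → ℂ),
      ∫ y in T '' s, g y ∂μ' = c * ∫ x in s, g (T x) ∂μ := by
  refine ⟨((Measure.addHaarScalarFactor μ' (μ.map T) : ℝ) : ℂ), ?_, fun s g => ?_⟩
  · exact_mod_cast (Measure.addHaarScalarFactor_pos_of_isAddHaarMeasure μ' (μ.map T)).ne'
  · have e₂ := T.toHomeomorph.measurableEmbedding.setIntegral_map (μ := μ) g (T '' s)
    rw [ContinuousLinearEquiv.coe_toHomeomorph, T.injective.preimage_image] at e₂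
    rw [← e₂]
    nth_rw 1 [Measure.isAddLeftInvariant_eq_smul μ' (μ.map T)]
    rw [Measure.restrict_smul, integral_smul_nnreal_measure, NNReal.smul_def, Complex.real_smul]

theorem dot_vec (a b c : ℝ) (x : X) : dot ![a, b, c] x = a * x.1.re + b * x.1.im + c * x.2 := by
  simp [dot]

/-- the adjoint of a linear map -/
def adj (T : X ≃L[ℝ] X) : V →ₗ[ℝ] V where
  toFun η := ![dot η (T (1, 0)), dot η (T (I, 0)), dot η (T (0, 1))]
  map_add' η η' := by ext i; fin_cases i <;> simp [dot_add_left]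
  map_smul' t η := by ext i; fin_cases i <;> simp [dot_smul_left]

theorem dot_adj (T : X ≃L[ℝ] X) (η : V) (x : X) : dot (adj T η) x = dot η (T x) := by
  have e : x = x.1.re • ((1 : ℂ), (0 : ℝ)) + x.1.im • (I, (0 : ℝ)) + x.2 • ((0 : ℂ), (1 : ℝ)) := by
    ext <;> simp
  conv_rhs => rw [e, map_add, map_add, map_smul, map_smul, map_smul, dot_add_right, dot_add_right,
    dot_smul_right, dot_smul_right, dot_smul_right]
  change dot ![_, _, _] x = _
  rw [dot_vec]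
  ring

theorem dot_ext {η η' : V} (h : ∀ x, dot η x = dot η' x) : η = η' := by
  ext i
  fin_cases i
  · simpa [dot] using h (1, 0)
  · simpa [dot] using h (I, 0)
  · simpa [dot] using h (0, 1)

theorem adj_symm (T : X ≃L[ℝ] X) (η : V) : adj T (adj T.symm η) = η :=
  dot_ext fun x => by rw [dot_adj, dot_adj, T.symm_apply_apply]

theorem FT_map (T : X ≃L[ℝ] X) : ∃ c : ℂ, c ≠ 0 ∧ ∀ (K : Set X) (ξ η : V) (z : ℂ),
    FT (T '' K) (z • cx ξ η) = c * FT K (z • cx (adj T ξ) (adj T η)) := by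
  have := FinalAux.haarX
  obtain ⟨c, hc, h⟩ := int_map (volume : Measure X) (volume : Measure X) T
  refine ⟨c, hc, fun K ξ η z => ?_⟩
  simp only [FT, h, cdot_smul, cdot_cx, dot_adj]

theorem ord_map (T : X ≃L[ℝ] X) {K : Set X} (hK : Body K) (ξ η : V) (z : ℂ) :
    ord (ln (FT (T '' K)) (cx ξ η)) z = ord (ln (FT K) (cx (adj T ξ) (adj T η))) z := by
  obtain ⟨c, hc, h⟩ := FT_map T
  have e : ln (FT (T '' K)) (cx ξ η) = fun w => c * ln (FT K) (cx (adj T ξ) (adj T η)) w :=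
    funext fun w => h K ξ η w
  rw [e, ord_mul (differentiable_const c) (ln_diff (fam_body hK).diff _) ⟨0, hc⟩
    (KeyAAux.ln_ne hK _), ord_eq_zero (differentiable_const c) hc, zero_add]

theorem bd_map (T : X ≃L[ℝ] X) {K L : Set X} (hK : Body K) (hL : Body L) {v : V}
    (h : Bd (FT (T '' K)) (FT (T '' L)) v 0) : Bd (FT K) (FT L) (adj T v) 0 := by
  obtain ⟨C, hC0, hC⟩ := (LinearMap.toContinuousLinearMap (adj T.symm)).bound
  simp only [LinearMap.coe_toContinuousLinearMap'] at hC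
  intro ε hε
  obtain ⟨δ, hδ, h1⟩ := h ε hε
  refine ⟨δ / C, by positivity, fun Y => ?_⟩
  filter_upwards [h1 (C * Y)] with r hr ξ η hξ hη
  have h2 := hr (adj T.symm ξ) (adj T.symm η) ((hC ξ).trans (by gcongr)) (by
    have e : adj T.symm η - v = adj T.symm (η - adj T v) := by
      rw [map_sub]
      congr 1
      exact (adj_symm T.symm v).symm
    rw [e]
    rw [lt_div_iff₀' hC0] at hη
    exact (hC _).trans_lt hη)
  have e : mB (ln (FT (T '' K)) (cx (adj T.symm ξ) (adj T.symm η)))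
      (ln (FT (T '' L)) (cx (adj T.symm ξ) (adj T.symm η))) =
      mB (ln (FT K) (cx ξ η)) (ln (FT L) (cx ξ η)) := by
    funext z
    simp only [mB, ord_map T hK, ord_map T hL, adj_symm]
  rwa [e] at h2

/-- inclusion of the real zero sets outside a ball -/
def ZI (K L : Set X) : Prop := ∃ R₀ : ℝ, ∀ ξ, R₀ ≤ ‖ξ‖ → FT K (cx ξ 0) = 0 → FT L (cx ξ 0) = 0

theorem ZI.map {K L : Set X} (h : ZI K L) (T : X ≃L[ℝ] X) : ZI (T '' K) (T '' L) := by
  obtain ⟨c, hc, hT⟩ := FT_map T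
  obtain ⟨R₀, h⟩ := h
  obtain ⟨C, hC0, hC⟩ := (LinearMap.toContinuousLinearMap (adj T.symm)).bound
  simp only [LinearMap.coe_toContinuousLinearMap'] at hC
  refine ⟨C * R₀, fun ξ hξ h0 => ?_⟩
  have h1 := hT K ξ 0 1
  have h2 := hT L ξ 0 1
  have h3 := hC (adj T ξ)
  rw [show adj T.symm (adj T ξ) = ξ from adj_symm T.symm ξ] at h3
  rw [one_smul, one_smul, map_zero] at h1 h2
  rw [h2, h _ (le_of_mul_le_mul_left (hξ.trans h3) hC0)
    ((mul_eq_zero.1 (h1 ▸ h0)).resolve_left hc), mul_zero]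

theorem ZI.neg {K L : Set X} (h : ZI K L) (hsy : -K = K) : ZI K (-L) := by
  obtain ⟨R₀, h⟩ := h
  refine ⟨R₀, fun ξ hξ h0 => ?_⟩
  have e : -cx ξ 0 = cx (-ξ) 0 := by ext i; simp [cx]
  rw [FT_neg, e]
  refine h _ (by rwa [norm_neg]) ?_
  rw [← e, FT_even hsy, h0]

theorem neg_map (T : X ≃L[ℝ] X) {K : Set X} (hsy : -K = K) : -(T '' K) = T '' K := by
  conv_rhs => rw [← hsy]
  ext y
  obtain ⟨x, rfl⟩ := T.surjective y
  rw [Set.mem_neg, ← map_neg, T.injective.mem_set_image, T.injective.mem_set_image, Set.mem_neg]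

theorem exists_supp {K : Set X} (hK : Body K) :
    ∃ p₀, ∀ ρ > 0, 0 < GK K (Metric.closedBall p₀ ρ) := by
  by_contra hc
  push Not at hc
  have h1 : GK K univ = 0 := measure_null_of_locally_null _ fun p _ => by
    obtain ⟨ρ, hρ, h⟩ := hc p
    exact ⟨_, mem_nhdsWithin_of_mem_nhds (Metric.closedBall_mem_nhds p hρ), nonpos_iff_eq_zero.1 h⟩
  rw [GK, gam_univ] at h1
  exact ((cap_body hK).op.measure_pos volume ⟨_, fst_mem_Om hK.zero⟩).ne' h1

theorem all_bd {K L : Set X} (hK : Body K) (hsy : -K = K) (hL : Body L) (h : ZI K L) (η : V) :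
    Bd (FT K) (FT L) η 0 := by
  have fK := fam_body hK
  have fL := fam_body hL
  have b0 : Bd (FT K) (FT L) 0 0 := by simpa [wh_zero fK] using bd_wh fK (FT L) 0
  let U : Submodule ℝ V :=
    { carrier := {η | Bd (FT K) (FT L) η 0}
      add_mem' := fun {a b} ha hb => by simpa using bd_step fK fL.diff fL.ne0 hb le_rfl ha 1
      zero_mem' := b0
      smul_mem' := fun t a ha => by simpa using bd_step fK fL.diff fL.ne0 ha le_rfl b0 t }
  suffices hU : U = ⊤ from (hU ▸ Submodule.mem_top : η ∈ U)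
  by_contra hU
  obtain ⟨f, f0, hf⟩ := U.exists_le_ker_of_lt_top (lt_top_iff_ne_top.2 hU)
  obtain ⟨x₀, hx₀⟩ : ∃ x₀ : X, ∀ η, dot η x₀ = f η := by
    refine ⟨(⟨f ![1, 0, 0], f ![0, 1, 0]⟩, f ![0, 0, 1]), fun η => ?_⟩
    have e : η = η 0 • ![1, 0, 0] + η 1 • ![0, 1, 0] + η 2 • ![0, 0, 1] := by
      ext i; fin_cases i <;> simp
    conv_rhs => rw [e, map_add, map_add, map_smul, map_smul, map_smul]
    simp [dot]
  have hx0 : x₀ ≠ 0 := fun h0 => f0 (LinearMap.ext fun η => by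
    rw [← hx₀, h0, dot_zero_right]; rfl)
  obtain ⟨T, hT⟩ := SeparatingDual.exists_continuousLinearEquiv_apply_eq (R := ℝ) hx0
    (y := ((0 : ℂ), (1 : ℝ))) (by simp)
  have bK := body_map T hK.cpt hK.cvx hK.zero
  have bL := body_map T hL.cpt hL.cvx hL.zero
  obtain ⟨p₀, hp₀⟩ := exists_supp bK
  have gL := fam_body bL
  obtain ⟨R₀, hz⟩ := h.map T
  have h1 := bd_map T hK hL (bd_zero' (fam_body bK) gL.diff gL.ne0 (real_B' (fam_body bK) gL.diff
    gL.ne0 (few_sym bK (neg_map T hsy) gL.diff gL.ne0 hz hp₀)))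
  have h2 : f (adj T (nv p₀)) = 0 := hf (show adj T (nv p₀) ∈ U from h1)
  rw [← hx₀, dot_adj, hT, dot_nv] at h2
  simp at h2

/-! ### the conclusion -/

theorem sym_of {K L : Set X} (hK : Body K) (hsy : -K = K) (hL : Body L) (wL : NoWall L)
    (h : ZI K L) : ∃ z : X, -L = (fun y => y + z) '' L := by
  have hn : ∀ ξ, ‖FT L (cx ξ 0)‖ = ‖FT (-L) (cx ξ 0)‖ := fun ξ => (norm_FT_neg L ξ).symm
  have := fin_GK hL
  have := fin_GK hL.neg
  have := fin_GK hL.neg.neg
  obtain ⟨σ, hσ⟩ : ∃ σ, Sig L (-L) = σ := ⟨_, rfl⟩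
  have : IsFiniteMeasure σ := by rw [← hσ, Sig]; infer_instance
  have ac : ∀ G : Measure ℂ, (∃ H, σ = G + H) → G ≪ σ := by
    rintro G ⟨H, rfl⟩
    exact Measure.absolutelyContinuous_of_le (Measure.le_add_right le_rfl)
  have a₁ := ac (GK L) ⟨GK (-L) + GK (-L) + GK (- -L), by rw [← hσ, Sig]; abel⟩
  have a₂ := ac (GK (-L)) ⟨GK L + GK (-L) + GK (- -L), by rw [← hσ, Sig]; abel⟩
  have fL' := fam_body hL.neg
  have hB : ∀ᵐ p ∂σ, (GK L).rnDeriv σ p = (GK (-L)).rnDeriv σ p := by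
    filter_upwards [Besicovitch.ae_tendsto_rnDeriv (GK L) σ,
      Besicovitch.ae_tendsto_rnDeriv (GK (-L)) σ] with p d₁ d₂
    by_contra hc
    have h1 := not_few (fam_body hK) (fam_body hL) fL'.diff fL'.ne0 (all_bd hK hsy hL h _)
      (all_bd hK hsy hL.neg (h.neg hsy) _) (few_of_ne hL hL.neg hn hσ d₁ d₂ hc)
    obtain ⟨c, hc, h2⟩ := KeyO.wd_low hK
    exact (hc.trans_le (h2 p)).not_ge h1
  have e : GK L = GK (-L) := by
    rw [← Measure.withDensity_rnDeriv_eq _ _ a₁, ← Measure.withDensity_rnDeriv_eq _ _ a₂]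
    exact withDensity_congr_ae (hB.mono fun p hp => by simpa using hp)
  exact translate_of_eq hL hL.neg wL (vol_eq hL hL.neg hn) e (by rw [neg_neg, e])

/-- `L` is symmetric about a point `c` and contains `K + c` -/
def Cc {E : Type*} [AddCommGroup E] (K L : Set E) : Prop :=
  ∃ c : E, (∀ y ∈ L, c + c - y ∈ L) ∧ ∀ x ∈ K, x + c ∈ L

theorem cc_X {K L : Set X} (hK : Body K) (hsy : -K = K) (hL : Body L) (wL : NoWall L)
    (h : ZI K L) : Cc K L := by
  obtain ⟨z, hz⟩ := sym_of hK hsy hL wL h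
  have h1 : ∀ y ∈ L, (-(1 / 2 : ℝ)) • z + (-(1 / 2 : ℝ)) • z - y ∈ L := fun y hy => by
    obtain ⟨y', hy', e⟩ : -y ∈ (fun y => y + z) '' L := hz ▸ (by simpa using hy)
    have : (-(1 / 2 : ℝ)) • z + (-(1 / 2 : ℝ)) • z - y = y' := by
      rw [sub_eq_add_neg, ← e]; module
    rwa [this]
  refine ⟨_, h1, fun x hx => ?_⟩
  set c := (-(1 / 2 : ℝ)) • z
  by_contra hc
  obtain ⟨f, u, hu, hf⟩ := geometric_hahn_banach_closed_point hL.cvx hL.cpt.isClosed hc
  obtain ⟨η, hη⟩ : ∃ η : V, ∀ x, dot η x = f x := by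
    refine ⟨![f (1, 0), f (I, 0), f (0, 1)], fun x => ?_⟩
    have e : x = x.1.re • ((1 : ℂ), (0 : ℝ)) + x.1.im • (I, (0 : ℝ)) + x.2 • ((0 : ℂ), (1 : ℝ)) := by
      ext <;> simp
    conv_rhs => rw [e, map_add, map_add, map_smul, map_smul, map_smul]
    rw [dot_vec]
    simp only [smul_eq_mul]
    ring
  have h2 : wh (hs K) η ≤ wh (hs L) η := wh_le (fam_body hK) (fam_body hL) (all_bd hK hsy hL h η)
  have hne : L.Nonempty := ⟨0, interior_subset hL.zero⟩
  obtain ⟨y₁, hy₁, e₁⟩ := exists_hs hL.cpt hne η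
  obtain ⟨y₂, hy₂, e₂⟩ := exists_hs hL.cpt hne (-η)
  have a₁ := le_hs hK.cpt hx η
  have a₂ := le_hs hK.cpt (show -x ∈ K by rw [← hsy]; simpa using hx) (-η)
  have a₃ := hu _ hy₁
  have a₄ := hu _ (h1 _ hy₂)
  rw [dot_neg_left, dot_neg_right, neg_neg] at a₂
  rw [dot_neg_left] at e₂
  rw [map_sub, map_add] at a₄
  rw [map_add] at hf
  simp only [hη] at a₁ a₂ e₁ e₂
  unfold wh at h2
  linarith

theorem Cc.of_map {E E' : Type*} [NormedAddCommGroup E] [NormedSpace ℝ E] [NormedAddCommGroup E']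
    [NormedSpace ℝ E'] (T : E ≃L[ℝ] E') {K L : Set E} (h : Cc (T '' K) (T '' L)) : Cc K L := by
  obtain ⟨c, h1, h2⟩ := h
  obtain ⟨c, rfl⟩ := T.surjective c
  refine ⟨c, fun y hy => ?_, fun x hx => ?_⟩
  · have := h1 _ (mem_image_of_mem T hy)
    rwa [← map_add, ← map_sub, T.injective.mem_set_image] at this
  · have := h2 _ (mem_image_of_mem T hx)
    rwa [← map_add, T.injective.mem_set_image] at this

theorem cc_body {K L : Set X} (hK : Body K) (hsy : -K = K) (hL : Body L) (h : ZI K L) :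
    Cc K L := by
  obtain ⟨c, -, wL⟩ := exists_shear hK hL
  have bK := body_map (shearL c).toContinuousLinearEquiv hK.cpt hK.cvx hK.zero
  have bL := body_map (shearL c).toContinuousLinearEquiv hL.cpt hL.cvx hL.zero
  exact Cc.of_map (shearL c).toContinuousLinearEquiv (cc_X bK (neg_map _ hsy) bL wL (h.map _))

/-! ### Euclidean space -/

abbrev E3 := EuclideanSpace ℝ (Fin 3)

/-- the Fourier transform of the indicator function -/
def FE (K : Set E3) (ξ : E3) : ℂ := ∫ x in K, Complex.exp (I * (inner ℝ ξ x : ℝ))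

theorem cov_FE {K : Set E3} (h : IsCompact K) (ξ : E3) :
    ∫ v : E3, ((volume (K ∩ ((fun y => y + v) '' K))).toReal : ℂ) *
      Complex.exp (I * (inner ℝ ξ v : ℝ)) = FE K ξ * conj (FE K ξ) := by
  have hm : MeasurableSet K := h.measurableSet
  have hm' : MeasurableSet (-K) := h.neg.measurableSet
  have hc : Continuous fun x : E3 => Complex.exp (I * (inner ℝ ξ x : ℝ)) := by fun_prop
  have hi : Integrable (K.indicator fun x : E3 => Complex.exp (I * (inner ℝ ξ x : ℝ))) volume :=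
    (integrable_indicator_iff hm).2 (hc.continuousOn.integrableOn_compact h)
  have hi' : Integrable ((-K).indicator fun x : E3 => Complex.exp (I * (inner ℝ ξ x : ℝ))) volume :=
    (integrable_indicator_iff hm').2 (hc.continuousOn.integrableOn_compact h.neg)
  have key := integral_convolution (ContinuousLinearMap.mul ℝ ℂ) hi hi'
  rw [integral_indicator hm, integral_indicator hm', ContinuousLinearMap.mul_apply'] at key
  have h2 : conj (FE K ξ) = ∫ x in -K, Complex.exp (I * (inner ℝ ξ x : ℝ)) := by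
    have h3 := (Measure.measurePreserving_neg (volume : Measure E3)).setIntegral_preimage_emb
      (MeasurableEquiv.neg E3).measurableEmbedding
      (fun x => conj (Complex.exp (I * (inner ℝ ξ x : ℝ)))) K
    rw [FE, ← integral_conj, ← h3]
    congr 1
    ext x
    rw [← Complex.exp_conj, inner_neg_right]
    simp
  rw [h2, FE, ← key]
  congr 1
  ext v
  have hv : MeasurableSet (K ∩ ((fun y => y + v) '' K)) :=
    hm.inter (h.image (by fun_prop)).measurableSet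
  rw [convolution_def]
  have e : ∀ t : E3, ContinuousLinearMap.mul ℝ ℂ
      (K.indicator (fun x : E3 => Complex.exp (I * (inner ℝ ξ x : ℝ))) t)
      ((-K).indicator (fun x : E3 => Complex.exp (I * (inner ℝ ξ x : ℝ))) (v - t)) =
      (K ∩ ((fun y => y + v) '' K)).indicator (fun _ => Complex.exp (I * (inner ℝ ξ v : ℝ))) t := by
    intro t
    have hiff : t ∈ (fun y => y + v) '' K ↔ v - t ∈ -K := by
      rw [image_add_right, mem_preimage, Set.mem_neg, neg_sub, sub_eq_add_neg]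
    rw [ContinuousLinearMap.mul_apply']
    by_cases h1 : t ∈ K
    · by_cases h2 : v - t ∈ -K
      · rw [indicator_of_mem h1, indicator_of_mem h2, indicator_of_mem (mem_inter h1 (hiff.2 h2)),
          ← Complex.exp_add, inner_sub_right]
        congr 1
        push_cast
        ring
      · rw [indicator_of_notMem h2, mul_zero, indicator_of_notMem fun h3 => h2 (hiff.1 h3.2)]
    · rw [indicator_of_notMem h1, zero_mul, indicator_of_notMem fun h3 => h1 h3.1]
  simp only [e]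
  rw [integral_indicator hv, setIntegral_const, measureReal_def, Complex.real_smul]

theorem cov_zero {K : Set E3} (h : IsCompact K) (ξ : E3) :
    ∫ v : E3, ((volume (K ∩ ((fun y => y + v) '' K))).toReal : ℂ) *
      Complex.exp (I * (inner ℝ ξ v : ℝ)) = 0 ↔ FE K ξ = 0 := by
  rw [cov_FE h]
  simp

theorem FE_add (K : Set E3) (a ξ : E3) :
    FE ((fun y => y + a) '' K) ξ = FE K ξ * Complex.exp (I * (inner ℝ ξ a : ℝ)) := by
  have h3 := (measurePreserving_add_right (volume : Measure E3) a).setIntegral_image_emb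
    (MeasurableEquiv.addRight a).measurableEmbedding
    (fun x => Complex.exp (I * (inner ℝ ξ x : ℝ))) K
  rw [FE, h3, FE, ← integral_mul_const]
  congr 1
  ext x
  rw [← Complex.exp_add, inner_add_right]
  congr 1
  push_cast
  ring

theorem incl {K L : Set E3} (k₁ : IsCompact K) (k₂ : Convex ℝ K) (k₃ : (interior K).Nonempty)
    (l₁ : IsCompact L) (l₂ : Convex ℝ L) (l₃ : (interior L).Nonempty) {a : E3}
    (hsy : ∀ y ∈ K, a - y ∈ K) (h : ∃ R₀ : ℝ, ∀ ξ, R₀ ≤ ‖ξ‖ → FE K ξ = 0 → FE L ξ = 0) :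
    (∃ b, ∀ y ∈ L, b - y ∈ L) ∧ ∃ t, ∀ x ∈ K, x + t ∈ L := by
  have := FinalAux.haarX
  have T : E3 ≃L[ℝ] X := ContinuousLinearEquiv.ofFinrankEq (by simp)
  obtain ⟨y₀, hy₀⟩ := k₃
  obtain ⟨b, hb⟩ := l₃
  set c : E3 := (1 / 2 : ℝ) • a with hc
  have hci : c ∈ interior K := by
    have := k₂.combo_interior_self_mem_interior hy₀ (hsy y₀ (interior_subset hy₀))
      (a := 1 / 2) (b := 1 / 2) (by norm_num) (by norm_num) (by norm_num)
    convert this using 1
    rw [hc]; module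
  set K' := (fun y => y + -c) '' K with hK'
  set L' := (fun y => y + -b) '' L with hL'
  have bK : Body (T '' K') := body_map T (k₁.image (by fun_prop))
    (by simpa [hK', add_comm] using k₂.translate (-c)) (zero_mem hci)
  have bL : Body (T '' L') := body_map T (l₁.image (by fun_prop))
    (by simpa [hL', add_comm] using l₂.translate (-b)) (zero_mem hb)
  have hneg : ∀ y ∈ T '' K', -y ∈ T '' K' := by
    rintro _ ⟨_, ⟨y, hy, rfl⟩, rfl⟩
    refine ⟨_, ⟨a - y, hsy y hy, rfl⟩, ?_⟩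
    rw [← map_neg]
    congr 1
    rw [hc]; module
  have hsy' : -(T '' K') = T '' K' :=
    Set.ext fun y => ⟨fun hy => by simpa using hneg _ hy, fun hy => hneg y hy⟩
  have hz : ZI (T '' K') (T '' L') := by
    obtain ⟨d, hd, hT⟩ := int_map (volume : Measure E3) (volume : Measure X) T
    obtain ⟨R₀, h⟩ := h
    obtain ⟨C, hC0, hC⟩ := (T.symm : X →L[ℝ] E3).bound
    refine ⟨C * R₀, fun η hη => ?_⟩
    obtain ⟨ξ, hξ⟩ : ∃ ξ : E3, ∀ x, dot η (T x) = inner ℝ ξ x := by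
      let g : E3 →ₗ[ℝ] ℝ :=
        { toFun := fun x => dot η (T x)
          map_add' := fun x y => by rw [map_add, dot_add_right]
          map_smul' := fun t x => by rw [map_smul, dot_smul_right]; rfl }
      refine ⟨(InnerProductSpace.toDual ℝ E3).symm (LinearMap.toContinuousLinearMap g), fun x => ?_⟩
      rw [InnerProductSpace.toDual_symm_apply]
      rfl
    have hn : ‖η‖ ≤ C * ‖ξ‖ := by
      have h1 : ∀ y : X, ‖y‖ ≤ 1 → |dot η y| ≤ C * ‖ξ‖ := fun y hy => by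
        have h2 := hξ (T.symm y)
        rw [T.apply_symm_apply] at h2
        have h3 : ‖T.symm y‖ ≤ C * ‖y‖ := hC y
        rw [h2]
        calc _ ≤ ‖ξ‖ * ‖T.symm y‖ := abs_real_inner_le_norm _ _
          _ ≤ ‖ξ‖ * (C * 1) := by gcongr; exact h3.trans (by gcongr)
          _ = _ := by ring
      refine (pi_norm_le_iff_of_nonneg (by positivity)).2 fun i => ?_
      fin_cases i
      · simpa [dot] using h1 (1, 0) (by simp)
      · simpa [dot] using h1 (I, 0) (by simp)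
      · simpa [dot] using h1 (0, 1) (by simp)
    have e : ∀ M : Set E3, FT (T '' M) (cx η 0) = d * FE M ξ := fun M => by
      simp only [FT, hT, cdot_cx, dot_zero_left, hξ, FE, ofReal_zero, mul_zero, add_zero]
    rw [e, e, hK', hL', FE_add, FE_add]
    intro h0
    rw [h ξ (le_of_mul_le_mul_left (hη.trans hn) hC0) ((mul_eq_zero.1
      ((mul_eq_zero.1 h0).resolve_left hd)).resolve_right (Complex.exp_ne_zero _)), zero_mul,
      mul_zero]
  obtain ⟨z, h1, h2⟩ := Cc.of_map T (cc_body bK hsy' bL hz)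
  refine ⟨⟨z + z + b + b, fun y hy => ?_⟩, z + b - c, fun x hx => ?_⟩
  · obtain ⟨y', hy', e⟩ := h1 _ ⟨y, hy, rfl⟩
    have : z + z + b + b - y = y' := by
      rw [eq_sub_of_add_eq e]; beta_reduce; abel
    rwa [this]
  · obtain ⟨y', hy', e⟩ := h2 _ ⟨x, hx, rfl⟩
    have : x + (z + b - c) = y' := by
      rw [eq_sub_of_add_eq e]; beta_reduce; abel
    rwa [this]

theorem null_main (K L : Set E3) (k₁ : IsCompact K) (k₂ : Convex ℝ K)
    (k₃ : (interior K).Nonempty) (l₁ : IsCompact L) (l₂ : Convex ℝ L) (l₃ : (interior L).Nonempty)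
    (hsy : ∃ a, K = (fun y => a - y) '' K)
    (h : ∃ R₀ : ℝ, ∀ ξ, R₀ ≤ ‖ξ‖ → FE K ξ = 0 → FE L ξ = 0) :
    (∃ b, L = (fun y => b - y) '' L) ∧ ∃ t, (fun y => y + t) '' K ⊆ L ∧
      ((∃ R₀ : ℝ, ∀ ξ, R₀ ≤ ‖ξ‖ → FE L ξ = 0 → FE K ξ = 0) → L = (fun y => y + t) '' K) := by
  obtain ⟨a, ha⟩ := hsy
  obtain ⟨⟨b, hb⟩, t, ht⟩ := incl k₁ k₂ k₃ l₁ l₂ l₃ (a := a)
    (fun y hy => ha ▸ mem_image_of_mem _ hy) h
  have hsub : (fun y => y + t) '' K ⊆ L := by
    rintro _ ⟨x, hx, rfl⟩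
    exact ht x hx
  refine ⟨⟨b, Subset.antisymm (fun y hy => ⟨b - y, hb y hy, by simp⟩) ?_⟩, t, hsub, fun h' => ?_⟩
  · rintro _ ⟨y, hy, rfl⟩
    exact hb y hy
  · obtain ⟨-, s, hs⟩ := incl l₁ l₂ l₃ k₁ k₂ k₃ hb h'
    obtain ⟨x₀, hx₀, hmax⟩ := k₁.exists_isMaxOn (k₃.mono interior_subset)
      (f := fun x => inner ℝ (t + s) x) (by fun_prop)
    have h1 : inner ℝ (t + s) (x₀ + t + s) ≤ inner ℝ (t + s) x₀ := hmax (hs _ (ht _ hx₀))
    rw [add_assoc, inner_add_right, real_inner_self_eq_norm_sq] at h1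
    have h2 : t + s = 0 := norm_eq_zero.1 (by nlinarith [norm_nonneg (t + s)])
    refine Subset.antisymm (fun y hy => ⟨y + s, hs y hy, ?_⟩) hsub
    beta_reduce
    rw [add_assoc, add_comm s, h2, add_zero]

end

end NV

end Pool.Agent.MP_f27d50_gt
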