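import Pool.Agent.MP_f27d50_gt.Defs

/-! Gauge lemmas: a shear without vertical walls, and the volume of the part of `K + t L` outside
the vertical cylinder over `K`. -/

set_option autoImplicit false

open MeasureTheory Set Filter Topology Complex
open scoped ENNReal Pointwise ComplexConjugate

noncomputable section

namespace Pool.Agent.MP_f27d50_gt

namespace VarAux

instance haarX : (volume : Measure X).IsAddHaarMeasure :=
  Measure.prod.instIsAddHaarMeasure (volume : Measure ℂ) (volume : Measure ℝ)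

lemma finrank_X : Module.finrank ℝ X = 3 := by
  simp [Module.finrank_prod]

lemma line_null (k : ℂ →ₗ[ℝ] ℝ) (a : ℝ) (h : k ≠ 0) : volume {c : ℂ | k c = a} = 0 := by
  rcases Set.eq_empty_or_nonempty {c : ℂ | k c = a} with h0 | ⟨c0, hc0⟩
  · rw [h0, measure_empty]
  have h1 : {c : ℂ | k c = a} = (fun c => c + -c0) ⁻¹' (LinearMap.ker k : Set ℂ) := by
    ext c
    have : k c0 = a := hc0
    simp [this, add_neg_eq_zero]
  rw [h1, measure_preimage_add_right]
  exact Measure.addHaar_submodule _ _ (by rwa [Ne, LinearMap.ker_eq_top])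

lemma nhds0 {K : Set X} (hK : Body K) : K ∈ 𝓝 (0 : X) := mem_interior_iff_mem_nhds.1 hK.zero

lemma gauge_cont {K : Set X} (hK : Body K) : Continuous (gauge K) :=
  let ⟨_, h⟩ := hK.cvx.lipschitz_gauge (nhds0 hK); h.continuous

lemma ae_good {K : Set X} (hK : Body K) : ∀ᵐ c : ℂ,
    volume {x : X | ∀ z : ℝ, gauge K x ≤ gauge K (x + z • ((c, 1) : X))} = 0 := by
  obtain ⟨C, hC⟩ := hK.cvx.lipschitz_gauge (nhds0 hK)
  have hm : MeasurableSet {q : X × ℂ |
      fderiv ℝ (gauge K) q.1 ((q.2, 1) : X) = 0 → fderiv ℝ (gauge K) q.1 = 0} := by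
    have h1 : Measurable fun q : X × ℂ => fderiv ℝ (gauge K) q.1 :=
      (measurable_fderiv ℝ (gauge K)).comp measurable_fst
    have h2 : Measurable fun q : X × ℂ => fderiv ℝ (gauge K) q.1 ((q.2, 1) : X) := by
      have h3 : Continuous fun r : (X →L[ℝ] ℝ) × X => r.1 r.2 := by fun_prop
      exact h3.measurable.comp (h1.prodMk (measurable_snd.prodMk measurable_const))
    exact (h2 (measurableSet_singleton 0)).imp (h1 (measurableSet_singleton 0))
  have h1 : ∀ᵐ x : X, ∀ᵐ c : ℂ,
      fderiv ℝ (gauge K) x ((c, 1) : X) = 0 → fderiv ℝ (gauge K) x = 0 := by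
    refine ae_of_all _ fun x => ?_
    set D := fderiv ℝ (gauge K) x
    have hD : ∀ (c : ℂ) (z : ℝ), D (c, z) = D (c, 0) + z * D (0, 1) := by
      intro c z
      rw [← smul_eq_mul, ← map_smul, ← map_add]; simp
    by_cases hk : (D : X →ₗ[ℝ] ℝ) ∘ₗ LinearMap.inl ℝ ℂ ℝ = 0
    · refine ae_of_all _ fun c hc => ?_
      have h0 : ∀ c : ℂ, D (c, 0) = 0 := fun c => by simpa using LinearMap.congr_fun hk c
      rw [hD, h0, zero_add, one_mul] at hc
      refine ContinuousLinearMap.ext fun y => ?_
      rw [show y = (y.1, y.2) from rfl, hD, h0, hc]; simp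
    · have := line_null _ (-D (0, 1)) hk
      rw [ae_iff]
      refine measure_mono_null (fun c hc => ?_) this
      simp only [mem_setOf_eq, Classical.not_imp] at hc
      have h2 := hc.1
      rw [hD, one_mul] at h2
      simpa using eq_neg_of_add_eq_zero_left h2
  filter_upwards [(Measure.ae_ae_comm hm).1 h1] with c hc
  have h0 : ∀ᵐ x : X, x ≠ 0 := by simp [ae_iff]
  rw [← compl_mem_ae_iff]
  filter_upwards [hc, hC.ae_differentiableAt, h0] with x hx hd hx0 hmin
  have h2 : fderiv ℝ (gauge K) x ((c, 1) : X) = 0 := by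
    have h3 : HasDerivAt (fun z : ℝ => gauge K (x + z • ((c, 1) : X)))
        (fderiv ℝ (gauge K) x ((c, 1) : X)) 0 := hd.hasFDerivAt.hasLineDerivAt _
    refine IsLocalMin.hasDerivAt_eq_zero (Eventually.of_forall fun z => ?_) h3
    simpa using hmin z
  have h3 := (hd.hasFDerivAt.hasLineDerivAt x).tendsto_slope_zero_right
  rw [hx h2] at h3
  have h4 : Tendsto (fun t : ℝ => t⁻¹ • (gauge K (x + t • x) - gauge K x)) (𝓝[>] 0)
      (𝓝 (gauge K x)) := by
    refine tendsto_const_nhds.congr' ?_
    filter_upwards [self_mem_nhdsWithin] with t ht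
    have ht' : (0 : ℝ) < t := ht
    rw [show x + t • x = (1 + t) • x by rw [add_smul, one_smul],
      gauge_smul_of_nonneg (by linarith)]
    simp only [smul_eq_mul]; field_simp; ring
  have h5 := tendsto_nhds_unique h3 h4
  have h6 := (gauge_pos (absorbent_nhds_zero (nhds0 hK))
    ((NormedSpace.isVonNBounded_iff ℝ).2 hK.cpt.isBounded)).2 hx0
  simp only [ContinuousLinearMap.zero_apply] at h5
  linarith

/-- the shear as a linear map -/
def shearL (c : ℂ) : X →ₗ[ℝ] X where
  toFun := shear c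
  map_add' x y := by simp only [shear, Prod.fst_add, Prod.snd_add, Prod.mk_add_mk, add_smul]; congr 1; ring
  map_smul' r x := by
    simp only [shear, Prod.smul_fst, Prod.smul_snd, Prod.smul_mk, RingHom.id_apply, smul_sub,
      smul_assoc]

lemma shear_inj (c : ℂ) : Function.Injective (shear c) := by
  intro x y h
  simp only [shear, Prod.mk.injEq] at h
  refine Prod.ext ?_ h.2
  have := h.1
  rw [h.2] at this
  exact sub_left_injective this

lemma gauge_shear (K : Set X) (c : ℂ) (x : X) : gauge (shear c '' K) (shear c x) = gauge K x := by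
  rw [gauge_def', gauge_def']
  congr 1
  ext r
  have : r⁻¹ • shear c x = shear c (r⁻¹ • x) := ((shearL c).map_smul _ _).symm
  simp only [mem_setOf_eq, this, (shear_inj c).mem_set_image]

lemma nowall_shear {K : Set X} {c : ℂ}
    (h : volume {x : X | ∀ z : ℝ, gauge K x ≤ gauge K (x + z • ((c, 1) : X))} = 0) :
    NoWall (shear c '' K) := by
  have h1 := Measure.addHaar_image_linearMap volume (shearL c)
    {x : X | ∀ z : ℝ, gauge K x ≤ gauge K (x + z • ((c, 1) : X))}
  rw [h, mul_zero] at h1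
  refine measure_mono_null (fun x hx => ?_) h1
  have h2 : shear c (shear (-c) x) = x := by simp [shear]
  refine ⟨shear (-c) x, fun z => ?_, h2⟩
  have h3 : shear c (shear (-c) x + z • ((c, 1) : X)) = x + ((0 : ℂ), z) := by
    ext <;> simp [shear, add_mul]
  rw [← gauge_shear K c, ← gauge_shear K c (_ + _), h2, h3]
  exact hx z

/-- the part of `K + t L` outside the cylinder is of lower order -/
lemma wall {K L : Set X} (hK : Body K) (hw : NoWall K) (hL : Body L) {ε : ℝ} (hε : 0 < ε) :
    ∀ᶠ t : ℝ in 𝓝[>] 0, volume ((K + t • L) ∩ {x | x.1 ∉ Om K}) ≤ ENNReal.ofReal (t * ε) := by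
  have hg := gauge_cont hK
  obtain ⟨c, hc0, hc⟩ : ∃ c > (0 : ℝ), ∀ l ∈ L, gauge K l < c := by
    obtain ⟨b, hb⟩ := (hL.cpt.image hg).bddAbove
    refine ⟨|b| + 1, by positivity, fun l hl => ?_⟩
    have := hb (mem_image_of_mem _ hl)
    linarith [le_abs_self b]
  set E : ℝ → Set X := fun a => {x | ∀ z : ℝ, gauge K x ≤ a * gauge K (x + ((0 : ℂ), z))} with hE
  have hEm : ∀ a, MeasurableSet (E a) := fun a => by
    refine IsClosed.measurableSet ?_
    simp only [hE, setOf_forall]
    exact isClosed_iInter fun z => isClosed_le hg (by fun_prop)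
  have hGm : ∀ b : ℝ, MeasurableSet {x : X | gauge K x < b} := fun b =>
    (isOpen_lt hg continuous_const).measurableSet
  have hfin : ∀ a, volume ({x : X | gauge K x < 1} ∩ E a) ≠ ∞ := fun a => by
    refine ne_top_of_le_ne_top hK.cpt.measure_lt_top.ne (measure_mono fun x hx => ?_)
    exact interior_subset ((gauge_lt_one_iff_mem_interior hK.cvx (nhds0 hK)).1 hx.1)
  have hlim : Tendsto (fun a => volume ({x : X | gauge K x < 1} ∩ E a)) (𝓝[>] 1) (𝓝 0) := by
    have h1 := tendsto_measure_biInter_gt (μ := (volume : Measure X)) (a := (1 : ℝ))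
      (s := fun a => {x : X | gauge K x < 1} ∩ E a)
      (fun r _ => ((hGm 1).inter (hEm r)).nullMeasurableSet)
      (fun i j _ hij x hx => ⟨hx.1, fun z => (hx.2 z).trans
        (mul_le_mul_of_nonneg_right hij (gauge_nonneg _))⟩) ⟨2, by norm_num, hfin 2⟩
    have h2 : volume (⋂ r > (1 : ℝ), {x : X | gauge K x < 1} ∩ E r) = 0 := by
      unfold NoWall at hw
      refine measure_mono_null ?_ hw
      intro x hx z
      simp only [mem_iInter] at hx
      have h3 : Tendsto (fun a : ℝ => a * gauge K (x + ((0 : ℂ), z))) (𝓝[>] 1)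
          (𝓝 (1 * gauge K (x + ((0 : ℂ), z)))) :=
        (tendsto_id.mono_left nhdsWithin_le_nhds).mul_const _
      rw [one_mul] at h3
      refine ge_of_tendsto h3 ?_
      filter_upwards [self_mem_nhdsWithin] with a ha using (hx a ha).2 z
    rwa [h2] at h1
  have hmap : Tendsto (fun t : ℝ => 1 + c * t) (𝓝[>] 0) (𝓝[>] 1) := by
    refine tendsto_nhdsWithin_iff.2 ⟨?_, ?_⟩
    · have : Tendsto (fun t : ℝ => 1 + c * t) (𝓝 0) (𝓝 (1 + c * 0)) :=
        Continuous.tendsto (by fun_prop) _
      simpa using this.mono_left nhdsWithin_le_nhds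
    · filter_upwards [self_mem_nhdsWithin] with t ht
      have : 0 < c * t := mul_pos hc0 ht
      simpa using this
  have hsm := (hlim.comp hmap).eventually
    (ge_mem_nhds (ENNReal.ofReal_pos.2 (show 0 < ε / (7 * c) by positivity)))
  filter_upwards [hsm, self_mem_nhdsWithin, Ioo_mem_nhdsGT (show 0 < 1 / c by positivity)]
    with t hm ht ht1
  have ht0 : (0 : ℝ) < t := ht
  have hct : c * t ≤ 1 := by
    have := ht1.2.le
    rwa [le_div_iff₀' hc0] at this
  have hct0 : 0 < c * t := mul_pos hc0 ht0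
  set a := 1 + c * t with ha
  have ha0 : 0 < a := by positivity
  simp only [Function.comp] at hm
  set m := volume ({x : X | gauge K x < 1} ∩ E a)
  have h1 : (K + t • L) ∩ {x | x.1 ∉ Om K} ⊆
      ({x : X | gauge K x < a} ∩ E a) \ ({x : X | gauge K x < 1} ∩ E a) := by
    rintro x ⟨⟨k, hk, _, ⟨l, hl, rfl⟩, rfl⟩, hx⟩
    have h2 : gauge K (k + t • l) < a := by
      have h3 := gauge_add_le hK.cvx (absorbent_nhds_zero (nhds0 hK)) k (t • l)
      rw [gauge_smul_of_nonneg ht0.le, smul_eq_mul] at h3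
      have h4 := gauge_le_one_of_mem hk
      have h5 := mul_lt_mul_of_pos_left (hc l hl) ht0
      linarith
    have h3 : ∀ w : X, w.1 = (k + t • l).1 → 1 ≤ gauge K w := by
      intro w hw
      by_contra h4
      have h5 := (gauge_lt_one_iff_mem_interior hK.cvx (nhds0 hK)).1 (not_le.1 h4)
      apply hx
      change (k + t • l).1 ∈ Om K
      rw [← hw]
      exact isOpenMap_fst.image_interior_subset K (mem_image_of_mem _ h5)
    refine ⟨⟨h2, fun z => ?_⟩, fun h4 => absurd h4.1 (not_lt.2 (h3 _ rfl))⟩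
    have := h3 (k + t • l + ((0 : ℂ), z)) (by simp)
    nlinarith
  have h2 : {x : X | gauge K x < a} ∩ E a ⊆ a • ({x : X | gauge K x < 1} ∩ E a) := by
    rintro x ⟨hx, hx2⟩
    rw [mem_smul_set_iff_inv_smul_mem₀ ha0.ne']
    have hai : 0 ≤ a⁻¹ := by positivity
    refine ⟨?_, fun z => ?_⟩
    · change gauge K (a⁻¹ • x) < 1
      rw [gauge_smul_of_nonneg hai, smul_eq_mul, inv_mul_lt_iff₀ ha0, mul_one]
      exact hx
    · have h3 : a⁻¹ • x + ((0 : ℂ), z) = a⁻¹ • (x + ((0 : ℂ), a * z)) := by
        rw [smul_add]; congr 1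
        simp [ha0.ne']
      rw [h3, gauge_smul_of_nonneg hai, gauge_smul_of_nonneg hai, smul_eq_mul, smul_eq_mul,
        mul_left_comm]
      exact mul_le_mul_of_nonneg_left (hx2 _) hai
  have h3 : volume ({x : X | gauge K x < a} ∩ E a) ≤ ENNReal.ofReal (7 * c * t) * m + m := by
    refine (measure_mono h2).trans ?_
    rw [Measure.addHaar_smul_of_nonneg _ ha0.le, finrank_X]
    conv_rhs => rw [← one_mul m, ← mul_assoc, mul_one, ← add_mul, ← ENNReal.ofReal_one,
      ← ENNReal.ofReal_add (by positivity) zero_le_one]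
    gcongr
    rw [ha]; nlinarith [mul_nonneg hct0.le hct0.le]
  refine (measure_mono h1).trans ?_
  have h4 : {x : X | gauge K x < 1} ∩ E a ⊆ {x : X | gauge K x < a} ∩ E a :=
    fun x hx => ⟨lt_trans (show gauge K x < 1 from hx.1) (show 1 < a by linarith), hx.2⟩
  rw [measure_diff h4 ((hGm 1).inter (hEm a)).nullMeasurableSet (hfin a)]
  refine (tsub_le_iff_right.2 h3).trans ?_
  calc _ ≤ ENNReal.ofReal (7 * c * t) * ENNReal.ofReal (ε / (7 * c)) := by gcongr
    _ = _ := by
      rw [← ENNReal.ofReal_mul (by positivity)]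
      congr 1; field_simp

end VarAux

open VarAux in
theorem exists_shear {K L : Set X} (hK : Body K) (hL : Body L) :
    ∃ c : ℂ, NoWall (shear c '' K) ∧ NoWall (shear c '' L) := by
  obtain ⟨c, h1, h2⟩ := ((ae_good hK).and (ae_good hL)).exists
  exact ⟨c, nowall_shear h1, nowall_shear h2⟩

end Pool.Agent.MP_f27d50_gt
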