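import Pool.Agent.MP_f27d50_gt.Variation1
import Pool.Agent.MP_f27d50_gt.Geom1

/-! First variation of the volume and the bound for the mixed integral of a body with itself. -/

set_option autoImplicit false

open MeasureTheory Set Filter Topology Complex
open scoped ENNReal Pointwise ComplexConjugate

noncomputable section

namespace Pool.Agent.MP_f27d50_gt

namespace VarAux

/-- slope of the upper graph -/
def PP (K : Set X) (y : ℂ) : ℂ := -gradient (uK K) y
/-- thickness -/
def Th (K : Set X) (y : ℂ) : ℝ := -uK K y - uK (-K) (-y)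

lemma dot_nv (p : ℂ) (x : X) : dot (nv p) x = x.2 - inner ℝ p x.1 := by
  simp [dot, nv, Complex.inner]; ring

lemma dot_add (η : V) (x y : X) : dot η (x + y) = dot η x + dot η y := by simp [dot]; ring
lemma dot_smul (η : V) (t : ℝ) (x : X) : dot η (t • x) = t * dot η x := by simp [dot]; ring
lemma dot_neg (η : V) (x : X) : dot (-η) x = -dot η x := by simp [dot]; ring

lemma meas_PP (K : Set X) : Measurable (PP K) := by
  have h : Continuous fun L : ℂ →L[ℝ] ℝ => -(InnerProductSpace.toDual ℝ ℂ).symm L := by fun_prop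
  exact h.measurable.comp (measurable_fderiv ℝ (uK K))

lemma meas_Om (K : Set X) : MeasurableSet (Om K) := isOpen_interior.measurableSet

lemma dir_lim {u : ℂ → ℝ} {y : ℂ} (hu : DifferentiableAt ℝ u y) (v : ℂ) :
    Tendsto (fun s : ℝ => s⁻¹ * (u (y + s • v) - u y)) (𝓝[>] 0) (𝓝 (inner ℝ (gradient u y) v)) := by
  rw [inner_gradient_left]
  exact (hu.hasFDerivAt.hasLineDerivAt v).tendsto_slope_zero_right

lemma top {K : Set X} (hK : Body K) {y : ℂ} (hy : y ∈ Om K) (hd : DifferentiableAt ℝ (uK K) y) :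
    hs K (nv (PP K y)) = -uK K y - inner ℝ (PP K y) y := by
  have h0 := mem_top hK hy
  refine le_antisymm ?_ (by simpa [dot_nv] using le_hs hK.cpt h0 (nv (PP K y)))
  obtain ⟨x, hx, hx2⟩ := exists_hs hK.cpt ⟨_, h0⟩ (nv (PP K y))
  rw [← hx2, dot_nv]
  have h1 : inner ℝ (gradient (uK K) y) (x.1 - y) ≤ -(x.2 + uK K y) := by
    refine le_of_tendsto (dir_lim hd (x.1 - y)) ?_
    have h2 : ∀ᶠ s : ℝ in 𝓝 0, y + s • (x.1 - y) ∈ Om K := by
      have h3 : Continuous fun s : ℝ => y + s • (x.1 - y) := by fun_prop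
      exact h3.continuousAt.preimage_mem_nhds (by simpa using (cap_body hK).op.mem_nhds hy)
    filter_upwards [h2.filter_mono nhdsWithin_le_nhds, Ioo_mem_nhdsGT (zero_lt_one' ℝ)]
      with s hs hs1
    have h3 := hK.cvx.add_smul_sub_mem h0 hx ⟨hs1.1.le, hs1.2.le⟩
    have h4 := ((mem_iff_fiber hK hs (-uK K y + s * (x.2 + uK K y))).1
      (by convert h3 using 1; ext <;> simp)).2
    rw [inv_mul_le_iff₀ hs1.1]
    linarith
  rw [inner_sub_right] at h1
  simp only [PP, inner_neg_left]
  linarith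

lemma neg_mem_Om {K : Set X} {y : ℂ} : -y ∈ Om (-K) ↔ y ∈ Om K := by rw [Om_neg]; simp

lemma ae_diff {K : Set X} (hK : Body K) : ∀ᵐ y : ℂ, y ∈ Om K →
    DifferentiableAt ℝ (uK K) y ∧ DifferentiableAt ℝ (uK (-K)) (-y) := by
  have h1 := ae_differentiableAt_of_convexOn volume (cap_body hK).op (cap_body hK).cvx
  have h2 := ae_differentiableAt_of_convexOn volume (cap_body hK.neg).op (cap_body hK.neg).cvx
  have h3 := (Measure.measurePreserving_neg (volume : Measure ℂ)).quasiMeasurePreserving.ae h2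
  filter_upwards [h1, h3] with y a b hy using ⟨a hy, b (neg_mem_Om.2 hy)⟩

lemma II_eq (K : Set X) {k : V → ℝ} (h1 : Measurable fun p => k (nv p))
    (h2 : Measurable fun p => k (-nv p)) :
    II K k = ∫⁻ y in Om K, (ENNReal.ofReal (k (nv (PP K y))) +
      ENNReal.ofReal (k (-nv (PP (-K) (-y))))) := by
  have h3 : Measurable fun y => ENNReal.ofReal (k (nv (PP K y))) :=
    (h1.comp (meas_PP K)).ennreal_ofReal
  rw [lintegral_add_left h3, II, GK, GK, Gam, Gam]
  change ∫⁻ p, _ ∂Measure.map (PP K) _ + ∫⁻ p, _ ∂Measure.map (PP (-K)) _ = _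
  rw [lintegral_map h1.ennreal_ofReal (meas_PP K), lintegral_map h2.ennreal_ofReal (meas_PP _),
    ← (Measure.measurePreserving_neg (volume : Measure ℂ)).setLIntegral_comp_preimage_emb
      measurableEmbedding_neg _ (Om (-K))]
  have : Neg.neg ⁻¹' Om (-K) = Om K := by ext y; exact neg_mem_Om
  rw [this]

lemma cont_hs {L : Set X} (hL : Body L) : Continuous fun p => hs L (nv p) := by
  exact (cap_body hL).mcont.neg.congr fun p => neg_neg _

lemma cont_hs' {L : Set X} (hL : Body L) : Continuous fun p => hs L (-nv p) := by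
  simpa [hs_neg] using cont_hs hL.neg

lemma meas_Th {K : Set X} (hK : Body K) : Measurable (Th K) :=
  (cap_body hK).meas.neg.sub ((cap_body hK.neg).meas.comp measurable_neg)

lemma Th_nonneg {K : Set X} (hK : Body K) {y : ℂ} (hy : y ∈ Om K) : 0 ≤ Th K y := by
  have := ((mem_iff_fiber hK hy _).1 (mem_top hK hy)).1
  unfold Th; linarith

lemma Th_out {K : Set X} {y : ℂ} (hy : y ∉ Om K) : Th K y = 0 := by
  simp [Th, uK, indicator_of_notMem hy, indicator_of_notMem (mt neg_mem_Om.1 hy)]

lemma Th_le {K : Set X} (hK : Body K) : ∫⁻ y in Om K, ENNReal.ofReal (Th K y) ≤ volume K := by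
  rw [Measure.volume_eq_prod, Measure.prod_apply hK.cpt.measurableSet]
  refine le_trans (setLIntegral_mono' (meas_Om K) fun y hy => ?_) (setLIntegral_le_lintegral _ _)
  rw [Th, ← Real.volume_Icc]
  exact measure_mono fun z hz => (mem_iff_fiber hK hy z).2 hz

lemma hs_nonneg {L : Set X} (hL : Body L) (η : V) : 0 ≤ hs L η := by
  simpa [dot] using le_hs hL.cpt (interior_subset hL.zero) η

lemma upper {K L : Set X} (hK : Body K) (hL : Body L) {t : ℝ} (ht : 0 ≤ t) {y : ℂ} {z : ℝ}
    (hy : y ∈ Om K) (hd : DifferentiableAt ℝ (uK K) y) (hz : (y, z) ∈ K + t • L) :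
    z ≤ -uK K y + t * hs L (nv (PP K y)) := by
  obtain ⟨k, hk, _, ⟨l, hl, rfl⟩, h⟩ := hz
  have h1 := congrArg (dot (nv (PP K y))) h
  simp only [dot_add, dot_smul] at h1
  rw [dot_nv _ (y, z)] at h1
  have h2 := le_hs hK.cpt hk (nv (PP K y))
  have h3 := mul_le_mul_of_nonneg_left (le_hs hL.cpt hl (nv (PP K y))) ht
  rw [top hK hy hd] at h2
  linarith

lemma cyl {K L : Set X} (hK : Body K) (hL : Body L) {t : ℝ} (ht : 0 ≤ t) :
    volume ((K + t • L) ∩ {x | x.1 ∈ Om K}) ≤ volume K + ENNReal.ofReal t * II K (hs L) := by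
  have hm : MeasurableSet ((K + t • L) ∩ {x : X | x.1 ∈ Om K}) :=
    (hK.cpt.add (hL.cpt.smul t)).measurableSet.inter (measurable_fst (meas_Om K))
  rw [II_eq K (cont_hs hL).measurable (cont_hs' hL).measurable,
    ← lintegral_const_mul' _ _ ENNReal.ofReal_ne_top]
  refine le_trans ?_ (add_le_add_left (Th_le hK) _)
  rw [← lintegral_add_left (meas_Th hK).ennreal_ofReal, Measure.volume_eq_prod,
    Measure.prod_apply hm, ← lintegral_indicator (meas_Om K)]
  refine lintegral_mono_ae ?_
  filter_upwards [ae_diff hK] with y hy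
  by_cases h : y ∈ Om K
  · rw [indicator_of_mem h]
    have h1 : Prod.mk y ⁻¹' ((K + t • L) ∩ {x : X | x.1 ∈ Om K}) ⊆
        Icc (uK (-K) (-y) - t * hs L (-nv (PP (-K) (-y)))) (-uK K y + t * hs L (nv (PP K y))) := by
      intro z hz
      refine ⟨?_, upper hK hL ht h (hy h).1 hz.1⟩
      have h2 : (-y, -z) ∈ -K + t • (-L) := by
        obtain ⟨k, hk, _, ⟨l, hl, rfl⟩, h3⟩ := hz.1
        refine ⟨-k, neg_mem_neg.2 hk, _, ⟨-l, neg_mem_neg.2 hl, rfl⟩, ?_⟩
        change -k + t • -l = -(y, z)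
        rw [← h3, smul_neg, neg_add]
      have := upper hK.neg hL.neg ht (neg_mem_Om.2 h) (hy h).2 h2
      rw [hs_neg] at this
      linarith
    refine (measure_mono h1).trans (le_of_eq ?_)
    have a1 := hs_nonneg hL (nv (PP K y))
    have a2 := hs_nonneg hL (-nv (PP (-K) (-y)))
    rw [Real.volume_Icc, ← ENNReal.ofReal_add a1 a2, ← ENNReal.ofReal_mul ht,
      ← ENNReal.ofReal_add (Th_nonneg hK h) (by positivity)]
    congr 1; unfold Th; ring
  · have : Prod.mk y ⁻¹' ((K + t • L) ∩ {x : X | x.1 ∈ Om K}) = ∅ :=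
      eq_empty_of_forall_notMem fun z hz => h hz.2
    rw [this, measure_empty]; exact zero_le

end VarAux

open VarAux

theorem first_var {K L : Set X} (hK : Body K) (hw : NoWall K) (hL : Body L) {ε : ℝ} (hε : 0 < ε) :
    ∀ᶠ t : ℝ in 𝓝[>] 0, volume (K + t • L) ≤
      volume K + ENNReal.ofReal t * (II K (hs L) + ENNReal.ofReal ε) := by
  filter_upwards [wall hK hw hL hε, self_mem_nhdsWithin] with t h1 ht
  have ht0 : (0 : ℝ) ≤ t := le_of_lt ht
  rw [mul_add, ← add_assoc, ← ENNReal.ofReal_mul ht0]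
  refine le_trans ?_ (add_le_add (cyl hK hL ht0) h1)
  refine le_trans (measure_mono fun x hx => ?_) (measure_union_le _ _)
  by_cases h : x.1 ∈ Om K
  · exact Or.inl ⟨hx, h⟩
  · exact Or.inr ⟨hx, h⟩

namespace VarAux

lemma scale {F : ℂ → ℝ≥0∞} (hF : Measurable F) (o : ℂ) {s : ℝ} (hs : s < 1) :
    ∫⁻ y, F (y + s • (o - y)) = ENNReal.ofReal (((1 - s) ^ 2)⁻¹) * ∫⁻ y, F y := by
  have h1 : ∀ y : ℂ, y + s • (o - y) = (1 - s) • y + s • o := fun y => by
    rw [smul_sub, sub_smul, one_smul]; abel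
  simp only [h1]
  have h2 := lintegral_map (μ := (volume : Measure ℂ)) (f := fun y => F (y + s • o))
    (g := fun y => (1 - s) • y) (hF.comp (by fun_prop)) (by fun_prop)
  rw [← h2, Measure.map_addHaar_smul _ (by linarith), lintegral_smul_measure,
    lintegral_add_right_eq_self, Complex.finrank_real_complex, abs_of_nonneg (by positivity),
    smul_eq_mul]

lemma self_le {K : Set X} (hK : Body K) {o : X} (ho : o ∈ interior K) :
    II K (fun η => hs K η - dot η o) ≤ 3 * volume K := by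
  have ho1 : o.1 ∈ Om K := isOpenMap_fst.image_interior_subset K (mem_image_of_mem _ ho)
  have hc : Continuous fun p => dot (nv p) o := by simp only [dot_nv]; fun_prop
  have hc' : Continuous fun p => dot (-nv p) o := by simp only [dot_neg]; exact hc.neg
  rw [II_eq K ((cont_hs hK).sub hc).measurable ((cont_hs' hK).sub hc').measurable]
  set A := ∫⁻ y in Om K, ENNReal.ofReal (Th K y) with hA
  have hAf : A ≠ ∞ := ne_top_of_le_ne_top hK.cpt.measure_lt_top.ne (Th_le hK)
  have hT := meas_Th hK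
  set f : ℝ → ℂ → ℝ := fun s y => Th K y + s⁻¹ * (Th K (y + s • (o.1 - y)) - Th K y) with hf
  have hfm : ∀ s, Measurable (f s) := fun s =>
    hT.add (((hT.comp (by fun_prop)).sub hT).const_mul _)
  have h1 : ∀ᶠ s : ℝ in 𝓝[>] 0, ∫⁻ y in Om K, ENNReal.ofReal (f s y) ≤
      ENNReal.ofReal ((1 + (1 - s) + (1 - s) ^ 2) / (1 - s) ^ 2) * A := by
    filter_upwards [Ioo_mem_nhdsGT (zero_lt_one' ℝ)] with s hs
    have hs1 : 0 < 1 - s := by linarith [hs.2]
    have hs0 := hs.1
    have h2 : ∫⁻ y in Om K, (ENNReal.ofReal s * ENNReal.ofReal (f s y) +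
        ENNReal.ofReal (1 - s) * ENNReal.ofReal (Th K y)) ≤
        ENNReal.ofReal (((1 - s) ^ 2)⁻¹) * A := by
      rw [hA, setLIntegral_eq_of_support_subset (f := fun y => ENNReal.ofReal (Th K y))
        (fun y hy => by by_contra h; simp [Th_out h] at hy), ← scale hT.ennreal_ofReal o.1 hs.2]
      refine le_trans (setLIntegral_mono' (meas_Om K) fun y hy => ?_)
        (setLIntegral_le_lintegral _ _)
      have h3 : s * f s y + (1 - s) * Th K y = Th K (y + s • (o.1 - y)) := by
        simp only [hf]; field_simp; ring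
      have h4 : 0 ≤ s * f s y := by
        have a1 := (cap_body hK).cvx.2 hy ho1 hs1.le hs0.le (by ring)
        have a2 := (cap_body hK.neg).cvx.2 (neg_mem_Om.2 hy) (neg_mem_Om.2 ho1) hs1.le hs0.le
          (by ring)
        have a3 := mul_nonneg hs0.le (Th_nonneg hK ho1)
        have e1 : (1 - s) • y + s • o.1 = y + s • (o.1 - y) := by
          rw [smul_sub, sub_smul, one_smul]; abel
        rw [smul_neg, smul_neg, ← neg_add, e1] at a2
        rw [e1] at a1
        simp only [Th, smul_eq_mul] at a1 a2 a3 h3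
        linarith
      rw [← ENNReal.ofReal_mul hs0.le, ← ENNReal.ofReal_mul hs1.le,
        ← ENNReal.ofReal_add h4 (mul_nonneg hs1.le (Th_nonneg hK hy)), h3]
    rw [lintegral_add_right _ (hT.ennreal_ofReal.const_mul _),
      lintegral_const_mul' _ _ ENNReal.ofReal_ne_top,
      lintegral_const_mul' _ _ ENNReal.ofReal_ne_top, ← hA,
      show ((1 - s) ^ 2)⁻¹ = s * ((1 + (1 - s) + (1 - s) ^ 2) / (1 - s) ^ 2) + (1 - s) by
        field_simp; ring,
      ENNReal.ofReal_add (by positivity) hs1.le, add_mul,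
      ENNReal.add_le_add_iff_right (ENNReal.mul_ne_top ENNReal.ofReal_ne_top hAf),
      ENNReal.ofReal_mul hs0.le, mul_assoc] at h2
    exact (ENNReal.mul_le_mul_iff_right (ENNReal.ofReal_pos.2 hs0).ne' ENNReal.ofReal_ne_top).1 h2
  have h2 : Tendsto (fun s : ℝ => ENNReal.ofReal ((1 + (1 - s) + (1 - s) ^ 2) / (1 - s) ^ 2) * A)
      (𝓝[>] 0) (𝓝 (3 * A)) := by
    refine ENNReal.Tendsto.mul_const ?_ (Or.inr hAf)
    have h3 : ContinuousAt (fun s : ℝ => (1 + (1 - s) + (1 - s) ^ 2) / (1 - s) ^ 2) 0 :=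
      ContinuousAt.div (by fun_prop) (by fun_prop) (by norm_num)
    have h4 := ENNReal.tendsto_ofReal (h3.tendsto.mono_left (nhdsWithin_le_nhds (s := Ioi 0)))
    convert h4 using 2
    norm_num
  calc _ = ∫⁻ y in Om K, liminf (fun s => ENNReal.ofReal (f s y)) (𝓝[>] 0) := by
        refine setLIntegral_congr_fun_ae (meas_Om K) ?_
        filter_upwards [ae_diff hK] with y hy h
        have a1 := le_hs hK.cpt (interior_subset ho) (nv (PP K y))
        have a2 := le_hs hK.cpt (interior_subset ho) (-nv (PP (-K) (-y)))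
        rw [← ENNReal.ofReal_add (by linarith) (by linarith)]
        refine (Tendsto.liminf_eq (ENNReal.tendsto_ofReal ?_)).symm
        have b1 := dir_lim (hy h).1 (o.1 - y)
        have b2 := dir_lim (hy h).2 (-(o.1 - y))
        convert (tendsto_const_nhds (x := Th K y)).add (b1.neg.sub b2) using 2
        · simp only [hf, Th, smul_neg, ← neg_add]; ring
        · rw [← hs_neg, top hK h (hy h).1, top hK.neg (neg_mem_Om.2 h) (hy h).2, dot_neg, dot_nv,
            dot_nv]
          simp only [Th, PP, inner_neg_left, inner_neg_right, inner_sub_right]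
          ring
    _ ≤ liminf (fun s => ∫⁻ y in Om K, ENNReal.ofReal (f s y)) (𝓝[>] 0) :=
        lintegral_liminf_le fun s => (hfm s).ennreal_ofReal
    _ ≤ 3 * A := by
        rw [← h2.liminf_eq]
        exact liminf_le_liminf h1
    _ ≤ _ := by gcongr; exact Th_le hK

end VarAux

theorem II_self_le {K : Set X} (hK : Body K) : II K (hs K) ≤ 3 * volume K := by
  simpa [dot] using self_le hK hK.zero

end Pool.Agent.MP_f27d50_gt
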